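import Pool.Agent.NH2.Defs
import Pool.Agent.Y687.Comb

/-!
# Twists of `X_0(15)` by all `D < 0`, `D = 13, 37 mod 60`: definitions and statements

Project XV. `E : y² + x y + y = x³ + x² - 10 x - 10` is the curve `X_0(15)` (no complex multiplication, full
rational two-torsion, no isogeny of degree three).  The numbers prime to `30` have a class modulo `60`:
`a = {1, 49}`, `b = {23, 47}`, `c = {17, 53}`, `d = {19, 31}`.

The definite side uses two ternary lattices `L q`, `q = 5` (determinant `100`, quaternion algebra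
ramified at `5`) and `q = 3` (determinant `36`, ramified at `3`), `bl q` is the bilinear form;
`LN q β` is the condition that the vector has the eigenvalue `β` on a fixed isotropic line modulo `3`
(`q = 5`), modulo `5` (`q = 3`).  `Ph q P` is the product of the characters of the isotropic vectors
modulo the primes of `P`.  `A q P N β` is the sum of `Ph q P` over the vectors of norm `N` with `LN q β`.
-/

set_option autoImplicit false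

namespace Pool.Agent.XV

open Finset
open Pool.Agent.Z700 (V3 pr un hh)
open Pool.Agent.NH1 (lz rd)
open Pool.Agent.NH2 (w1 w2 wp ev cx)
open Pool.Agent.Y687 (SS)

noncomputable section

/-! ### the ternary lattices -/

/-- the bilinear form of the lattice `L q`: Gram matrix `(3,-1,1;-1,7,3;1,3,7)` for `q = 5`,
`(3,0,0;0,4,2;0,2,4)` else -/
def bl (q : ℕ) {R : Type*} [CommRing R] (v w : Fin 3 → R) : R :=
  if q = 5 then 3 * (v 0 * w 0) + 7 * (v 1 * w 1) + 7 * (v 2 * w 2) - (v 0 * w 1 + v 1 * w 0) +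
    (v 0 * w 2 + v 2 * w 0) + 3 * (v 1 * w 2 + v 2 * w 1)
  else 3 * (v 0 * w 0) + 4 * (v 1 * w 1) + 4 * (v 2 * w 2) + 2 * (v 1 * w 2 + v 2 * w 1)

/-- the vectors of norm `n` -/
def vec (q : ℕ) (n : ℤ) : Finset V3 :=
  (Fintype.piFinset fun _ => Icc (-n) n).filter fun v => bl q v v = n

/-- the line condition: `v` has the eigenvalue `β` on the isotropic line of `(1,0,0)` modulo `3`
(`q = 5`), of `(1,1,1)` modulo `5` (`q = 3`) -/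
def LN (q : ℕ) (β : ℤ) (v : V3) : Prop :=
  if q = 5 then (3 : ℤ) ∣ v 1 - β ∧ (3 : ℤ) ∣ v 2 - β
  else (5 : ℤ) ∣ v 1 - v 0 - β ∧ (5 : ℤ) ∣ v 2 - v 0 + β

instance (q : ℕ) (β : ℤ) (v : V3) : Decidable (LN q β v) := by unfold LN; infer_instance

/-- the prime of the line condition -/
def rl (q : ℕ) : ℤ := if q = 5 then 3 else 5

/-- the properties of the character of the isotropic vectors -/
structure IsPhi (q p : ℕ) (f : (Fin 3 → ZMod p) → ℤ) : Prop where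
  zero : ∀ v : Fin 3 → ZMod p, (bl q v v ≠ 0 ∨ v = 0) → f v = 0
  pm : ∀ v : Fin 3 → ZMod p, bl q v v = 0 → v ≠ 0 → f v = 1 ∨ f v = -1
  smul : ∀ (c : ZMod p) (v : Fin 3 → ZMod p), c ≠ 0 → f (c • v) = lz p c * f v
  mul : ∀ v w : Fin 3 → ZMod p, bl q v v = 0 → bl q w w = 0 → bl q v w ≠ 0 →
    f v * f w = lz p (2 * bl q v w)

/-- PHI: existence of the characters -/
def S_PHI : Prop := ∀ q : ℕ, (q = 3 ∨ q = 5) → ∀ p : ℕ, p.Prime → p ≠ 2 → p ≠ q →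
  ∃ f : (Fin 3 → ZMod p) → ℤ, IsPhi q p f

/-- the character `χ_p` of the lattice `L q` -/
def ph (q p : ℕ) : (Fin 3 → ZMod p) → ℤ := Classical.epsilon (IsPhi q p)

theorem ph_spec (h : S_PHI) {q p : ℕ} (hq : q = 3 ∨ q = 5) (hp : p.Prime) (h2 : p ≠ 2)
    (hpq : p ≠ q) : IsPhi q p (ph q p) :=
  Classical.epsilon_spec (h q hq p hp h2 hpq)

/-- the product of the characters of a set of primes -/
def Ph (q : ℕ) (P : Finset ℕ) (v : V3) : ℤ := ∏ p ∈ P, ph q p (rd p v)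

/-- REF: the characters and the reflections -/
def S_REF : Prop := ∀ q : ℕ, (q = 3 ∨ q = 5) → ∀ p : ℕ, p.Prime → p ≠ 2 → p ≠ q →
  ∀ f : (Fin 3 → ZMod p) → ℤ, IsPhi q p f → ∀ e v w : Fin 3 → ZMod p, bl q e e ≠ 0 →
  (∀ i, bl q e e * w i = bl q e e * v i - 2 * bl q e v * e i) → f w = lz p (-bl q e e) * f v

/-! ### classes -/

/-- the primes which occur -/
def Pq (P : Finset ℕ) : Prop := ∀ p ∈ P, p.Prime ∧ p ≠ 2 ∧ p ≠ 3 ∧ p ≠ 5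

def Ka (m : ℕ) : Prop := m % 60 = 1 ∨ m % 60 = 49
def Kb (m : ℕ) : Prop := m % 60 = 23 ∨ m % 60 = 47
def Kc (m : ℕ) : Prop := m % 60 = 17 ∨ m % 60 = 53
def Kd (m : ℕ) : Prop := m % 60 = 19 ∨ m % 60 = 31

instance (m : ℕ) : Decidable (Ka m) := by unfold Ka; infer_instance
instance (m : ℕ) : Decidable (Kb m) := by unfold Kb; infer_instance
instance (m : ℕ) : Decidable (Kc m) := by unfold Kc; infer_instance
instance (m : ℕ) : Decidable (Kd m) := by unfold Kd; infer_instance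

/-! ### the sums -/

/-- the sum over the vectors on the line -/
def A (q : ℕ) (P : Finset ℕ) (N β : ℤ) : ℤ := ∑ v ∈ (vec q N).filter (LN q β), Ph q P v

/-- the sums of the lattice `L 5` -/
def S5 (P : Finset ℕ) (N β : ℤ) : ℤ := 4 * A 5 P N β - if P = ∅ then ((vec 5 N).card : ℤ) else 0

open Classical in
/-- the number of vectors on the line with given characters -/
def AC (q : ℕ) (N : Finset ℕ) (β : ℤ) (γ : ℕ → ℤ) : ℕ :=
  ((vec q (pr N : ℤ)).filter fun v => LN q β v ∧ ∀ p ∈ N, ph q p (rd p v) = γ p).card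

/-- VAN5: the sums of the lattice `L 5` vanish -/
def S_VAN5 : Prop := ∀ N : Finset ℕ, Pq N → Kb (pr N) → ∀ β : ℤ, (3 : ℤ) ∣ β ^ 2 + pr N →
  ∀ P ⊆ N, P.Nonempty → ¬ Ka (pr P) → ¬ Kd (pr P) → A 5 P (pr N) β = 0

/-- VAN3: the sums of the lattice `L 3` vanish -/
def S_VAN3 : Prop := ∀ N : Finset ℕ, Pq N → Kd (pr N) → ∀ β : ℤ, (5 : ℤ) ∣ β ^ 2 + pr N →
  ∀ P ⊆ N, P.Nonempty → ¬ Kc (pr P) → ¬ Kd (pr P) → A 3 P (pr N) β = 0

/-- V4: the sums over all vectors vanish -/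
def S_V4 : Prop := ∀ q : ℕ, (q = 3 ∨ q = 5) → ∀ N : Finset ℕ, Pq N → (q = 5 → Kb (pr N)) →
  (q = 3 → Kd (pr N)) → ∀ P ⊆ N, P.Nonempty → ∑ v ∈ vec q (pr N : ℤ), Ph q P v = 0

/-- EQ3: the vectors of the lattice `L 3` are equidistributed on the six lines -/
def S_EQ3 : Prop := ∀ N : Finset ℕ, Pq N → Kd (pr N) → ∀ β : ℤ, (5 : ℤ) ∣ β ^ 2 + pr N →
  ((vec 3 (pr N : ℤ)).card : ℤ) = 6 * A 3 ∅ (pr N) β

/-- EV3: the numbers of the vectors of `L 3` with given characters are even -/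
def S_EV3 : Prop := ∀ N : Finset ℕ, Pq N → Kd (pr N) → ∀ β : ℤ, (5 : ℤ) ∣ β ^ 2 + pr N →
  ∀ γ : ℕ → ℤ, Even (AC 3 N β γ)

/-- CNT5: the parity of the numbers of the vectors of `L 5` with given characters -/
def S_CNT5 : Prop := ∀ N : Finset ℕ, Pq N → (∀ p ∈ N, Kb p) → Odd N.card → ∀ β : ℤ,
  (3 : ℤ) ∣ β ^ 2 + pr N → ∀ γ γ' : ℕ → ℤ, (∀ p ∈ N, γ p = 1 ∨ γ p = -1) →
  (∀ p ∈ N, γ' p = 1 ∨ γ' p = -1) → AC 5 N β γ % 2 = AC 5 N β γ' % 2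

/-- the Rédei symbols of the subset `D` -/
def gen (N D : Finset ℕ) (p : ℕ) : ℤ :=
  if p ∈ D then jacobiSym (pr (N \ D)) p else jacobiSym (pr D) p

/-- the Rédei kernel is trivial (the class number of `ℚ(√-n)`, `n = pr N = 3 mod 4`, has four-rank `0`) -/
def Kr (N : Finset ℕ) : Prop := ∀ D ⊆ N, (∀ p ∈ N, gen N D p = 1) → D = ∅ ∨ D = N

/-- V5: the number of vectors of `L 5` -/
def S_V5 : Prop := ∀ N : Finset ℕ, Pq N → Kb (pr N) →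
  ∃ T : ℤ, ((vec 5 (pr N : ℤ)).card : ℤ) = 2 ^ N.card * T ∧ (Odd T ↔ Kr N)

/-- V3: the number of vectors of `L 3` -/
def S_V3 : Prop := ∀ N : Finset ℕ, Pq N → Kd (pr N) →
  ∃ T : ℤ, ((vec 3 (pr N : ℤ)).card : ℤ) = 6 * 2 ^ N.card * T

/-! ### the indefinite side -/

/-- the forms of discriminant `(pr X)²` in the class `k` modulo `30` -/
def Fm (X : Finset ℕ) (k : ℤ) (q : ℤ × ℤ × ℤ) : Prop :=
  q.2.1 ^ 2 - 4 * q.1 * q.2.2 = (pr X : ℤ) ^ 2 ∧ (15 : ℤ) ∣ q.1 ∧ (30 : ℤ) ∣ q.2.1 - k * pr X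

open Classical in
/-- the weighted number of the forms of the class `k` changing sign between `∞` and `x / M` -/
def Nr (X : Finset ℕ) (k : ℤ) (x M : ℤ) : ℤ := ∑ᶠ q : ℤ × ℤ × ℤ,
  if Fm X k q ∧ 0 < q.1 ∧ ev q x M < 0 then cx X q else 0

/-- the counting function -/
def Fx (X : Finset ℕ) (x M : ℤ) : ℤ := Nr X 11 x M - jacobiSym (-1) (pr X) * Nr X 19 x M

/-- functions on the cusps equivalent to `0` that come from cocycles of `Γ₀(15)` -/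
structure Coc (f : ℤ → ℤ → ℤ) : Prop where
  neg2 : ∀ x M : ℤ, f (-x) (-M) = f x M
  per : ∀ x M : ℤ, f (x + M) M = f x M
  aff : ∀ a b c d : ℤ, a * d - b * c = 1 → (15 : ℤ) ∣ c → ∀ x M : ℤ, IsCoprime (15 * x) M →
    f (a * x + b * M) (c * x + d * M) = f x M + f b d - f 0 1

/-- COC: the counting functions are cocycles (also for `X = ∅`) -/
def S_COC : Prop := ∀ X : Finset ℕ, Pq X → Coc (Fx X)

/-- PARI: the parity -/
def S_PARI : Prop := ∀ X : Finset ℕ, Pq X → ∀ x M : ℤ,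
  Fx X (-x) M = - jacobiSym (-1) (pr X) * Fx X x M

/-- UOD: uniqueness of the odd functions -/
def S_UOD : Prop := ∀ f g : ℤ → ℤ → ℤ, Coc f → Coc g → (∀ x M : ℤ, f (-x) M = - f x M) →
  (∀ x M : ℤ, g (-x) M = - g x M) → f 5 16 = 0 → g 5 16 = 0 →
  ∀ x M : ℤ, 0 < M → IsCoprime (15 * x) M → f x M * g 1 4 = g x M * f 1 4

/-- PARB: the value at a parabolic element -/
def S_PARB : Prop := ∀ X : Finset ℕ, Pq X → X.Nonempty → pr X % 4 = 1 → Fx X 5 16 = 0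

/-- the admissible triples `(u, v, k)` -/
def UV (u v : ℕ) (k : ℤ) : Prop := (u = 5 ∧ v = 3 ∧ k = 11) ∨ (u = 3 ∧ v = 5 ∧ k = 19)

/-- C1A: forms and cusps as factorizations -/
def S_C1A : Prop := ∀ (u v : ℕ) (k : ℤ), UV u v k → ∀ X Z : Finset ℕ, Pq (X ∪ Z) → Disjoint X Z →
  Z.Nonempty →
  ∑ t ∈ un (pr Z), jacobiSym t (pr Z) * Nr X k t (pr Z) =
    ∑ T ∈ (range (pr X * pr Z)).filter (fun T => v ∣ T),
      ∑ a ∈ (pr X * pr Z - T).divisors.filter (u ∣ ·), ∑ a' ∈ T.divisors.filter (v ∣ ·),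
        (∏ p ∈ X, w1 p a a' (T / a') ((pr X * pr Z - T) / a)) *
          ∑ t ∈ (un (pr Z)).filter (fun t : ℕ => (pr Z : ℤ) ∣ (a : ℤ) * (t : ℤ) - ((T / a' : ℕ) : ℤ) ∧
            (pr Z : ℤ) ∣ (a' : ℤ) * (t : ℤ) + (((pr X * pr Z - T) / a : ℕ) : ℤ)), jacobiSym t (pr Z)

/-- the divisor sum -/
def WW (u v : ℕ) (X Z : Finset ℕ) (T : ℕ) : ℤ :=
  ∑ a ∈ (pr X * pr Z - T).divisors.filter (u ∣ ·), ∑ a' ∈ T.divisors.filter (v ∣ ·),
    (∏ p ∈ X, w1 p a a' (T / a') ((pr X * pr Z - T) / a)) *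
      ∏ p ∈ Z, w2 p a a' (T / a') ((pr X * pr Z - T) / a)

/-- C1: the twisted sum of the counting function as a sum of divisor sums (both classes) -/
def S_C1 : Prop := ∀ X Z : Finset ℕ, Pq (X ∪ Z) → Disjoint X Z → Z.Nonempty →
  pr X * pr Z % 4 = 3 →
  ∑ t ∈ un (pr Z), jacobiSym t (pr Z) * Fx X t (pr Z) =
    2 * ∑ T ∈ (range (pr X * pr Z)).filter (fun T => 3 ∣ T), WW 5 3 X Z T ∧
  ∑ t ∈ un (pr Z), jacobiSym t (pr Z) * Fx X t (pr Z) =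
    2 * jacobiSym (-1) (pr Z) * ∑ T ∈ (range (pr X * pr Z)).filter (fun T => 5 ∣ T), WW 3 5 X Z T

/-- the local factor at `l` -/
def fc (N D l : ℕ) : ℤ := if l ∣ N then 1 + hh N D l
  else ∑ j ∈ range (D.factorization l + 1), (jacobiSym l N) ^ j

/-- the local densities, with the count at `v` -/
def loc (u v N T : ℕ) : ℤ := if Odd ((N - T).factorization u) then (T.factorization v : ℤ) *
    ∏ l ∈ ((T * (N - T)).primeFactors.erase u).erase v, fc N (T * (N - T)) l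
  else 0

/-- the local densities away from `u` -/
def loc1 (u N T : ℕ) : ℤ := if Odd ((N - T).factorization u) then
    ∏ l ∈ (T * (N - T)).primeFactors.erase u, fc N (T * (N - T)) l
  else 0

/-- C2: evaluation of the divisor sums -/
def S_C2 : Prop := ∀ X Z : Finset ℕ, Pq (X ∪ Z) → Disjoint X Z → ∀ T : ℕ, 0 < T →
  T < pr X * pr Z →
  (Kb (pr X * pr Z) → WW 5 3 X Z T = - jacobiSym (-1) (pr X) *
    (∏ p ∈ X, wp p (pr X * pr Z) T) * loc 5 3 (pr X * pr Z) T) ∧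
  (Kd (pr X * pr Z) → WW 3 5 X Z T = - jacobiSym (-1) (pr X) *
    (∏ p ∈ X, wp p (pr X * pr Z) T) * loc 3 5 (pr X * pr Z) T)

/-! ### pairs of vectors -/

/-- the number of pairs of vectors of norm `N` with inner product `N - 2 T` -/
def cpa (q N T : ℕ) : ℕ :=
  ((vec q (N : ℤ) ×ˢ vec q (N : ℤ)).filter fun x => bl q x.1 x.2 = (N : ℤ) - 2 * T).card

open Classical in
/-- the number of pairs on the fixed line -/
def cps (q N T : ℕ) (β : ℤ) : ℕ := ((vec q (N : ℤ) ×ˢ vec q (N : ℤ)).filter fun x =>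
  bl q x.1 x.2 = (N : ℤ) - 2 * T ∧ LN q β x.1 ∧ LN q β x.2).card

/-- WTV: the weights of the pairs of vectors -/
def S_WTV : Prop := ∀ q : ℕ, (q = 3 ∨ q = 5) → ∀ N : Finset ℕ, Pq N → ∀ P ⊆ N,
  ∀ v ∈ vec q (pr N : ℤ), ∀ w ∈ vec q (pr N : ℤ), ∀ T : ℕ, T < pr N →
  bl q v w = (pr N : ℤ) - 2 * T → Ph q P v * Ph q P w = ∏ p ∈ P, wp p (pr N) T

/-- WPN: the product of all the weights -/
def S_WPN : Prop := ∀ N : Finset ℕ, Pq N → ∀ T : ℕ, 0 < T → T < pr N →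
  (Kb (pr N) → ∏ l ∈ (T * (pr N - T)).primeFactors.erase 5, fc (pr N) (T * (pr N - T)) l ≠ 0 →
    (Odd ((pr N - T).factorization 5) → ∏ p ∈ N, wp p (pr N) T = -1) ∧
    (Odd (T.factorization 5) → ∏ p ∈ N, wp p (pr N) T = 1)) ∧
  (Kd (pr N) → ∏ l ∈ (T * (pr N - T)).primeFactors.erase 3, fc (pr N) (T * (pr N - T)) l ≠ 0 →
    (Odd ((pr N - T).factorization 3) → ∏ p ∈ N, wp p (pr N) T = -1) ∧
    (Odd (T.factorization 3) → ∏ p ∈ N, wp p (pr N) T = 1))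

/-- SQ: the squares of the sums over the vectors -/
def S_SQ : Prop := ∀ N : Finset ℕ, Pq N →
  (Kb (pr N) → ∀ β : ℤ, (3 : ℤ) ∣ β ^ 2 + pr N → ∀ P ⊆ N, (P = ∅ ∨ Ka (pr P) ∨ Kd (pr P)) →
    S5 P (pr N) β ^ 2 + (if P = ∅ then 3 * ((vec 5 (pr N : ℤ)).card : ℤ) ^ 2 else 0) =
    144 * ∑ T ∈ (range (pr N)).filter (fun T => 3 ∣ T), (∏ p ∈ P, wp p (pr N) T) *
      loc 5 3 (pr N) T) ∧
  (Kd (pr N) → ∀ β : ℤ, (5 : ℤ) ∣ β ^ 2 + pr N → ∀ Q ⊆ N, (Kc (pr Q) ∨ Kd (pr Q)) →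
    36 * A 3 Q (pr N) β ^ 2 - (if Q = N then ((vec 3 (pr N : ℤ)).card : ℤ) ^ 2 else 0) =
    - (144 * ∑ T ∈ (range (pr N)).filter (fun T => 5 ∣ T), (∏ p ∈ N \ Q, wp p (pr N) T) *
      loc 3 5 (pr N) T))

/-- CARD: the squares of the numbers of vectors -/
def S_CARD : Prop := ∀ N : Finset ℕ, Pq N →
  (Kb (pr N) → ((vec 5 (pr N : ℤ)).card : ℤ) ^ 2 = 2 * (vec 5 (pr N : ℤ)).card +
    12 * ∑ T ∈ Ioo 0 (pr N), loc1 5 (pr N) T) ∧
  (Kd (pr N) → ((vec 3 (pr N : ℤ)).card : ℤ) ^ 2 = 2 * (vec 3 (pr N : ℤ)).card +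
    24 * ∑ T ∈ Ioo 0 (pr N), loc1 3 (pr N) T)

/-! ### the formulas -/

/-- the formulas for disjoint nonempty sets `P` (class `a` or `c`), `Z` (class `b` or `d`) -/
def S_E14 : Prop := ∀ P Z : Finset ℕ, Pq (P ∪ Z) → Disjoint P Z → P.Nonempty → Z.Nonempty →
  (Ka (pr P) → Kb (pr Z) → ∀ β β' : ℤ, (3 : ℤ) ∣ β ^ 2 + pr (P ∪ Z) → (3 : ℤ) ∣ β' ^ 2 + pr Z →
    S5 P (pr (P ∪ Z)) β ^ 2 = -4 * Fx P 1 4 * S5 ∅ (pr Z) β' ^ 2) ∧
  (Kc (pr P) → Kb (pr Z) → ∀ β β' : ℤ, (5 : ℤ) ∣ β ^ 2 + pr (P ∪ Z) → (3 : ℤ) ∣ β' ^ 2 + pr Z →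
    9 * A 3 P (pr (P ∪ Z)) β ^ 2 = Fx P 1 4 * S5 ∅ (pr Z) β' ^ 2) ∧
  (Ka (pr P) → Kd (pr Z) → ∀ β β' : ℤ, (5 : ℤ) ∣ β ^ 2 + pr (P ∪ Z) → (5 : ℤ) ∣ β' ^ 2 + pr Z →
    A 3 Z (pr (P ∪ Z)) β ^ 2 = -4 * Fx P 1 4 * A 3 Z (pr Z) β' ^ 2) ∧
  (Kc (pr P) → Kd (pr Z) → ∀ β β' : ℤ, (3 : ℤ) ∣ β ^ 2 + pr (P ∪ Z) → (5 : ℤ) ∣ β' ^ 2 + pr Z →
    S5 Z (pr (P ∪ Z)) β ^ 2 = 144 * Fx P 1 4 * A 3 Z (pr Z) β' ^ 2)

/-- the structure theorem: powers of two, and the law for the class `b` -/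
def S_MAIN : Prop := ∀ N : Finset ℕ, Pq N →
  (Kb (pr N) → ∀ β : ℤ, (3 : ℤ) ∣ β ^ 2 + pr N →
    ∃ T z : ℤ, ((vec 5 (pr N : ℤ)).card : ℤ) = 2 ^ N.card * T ∧
      S5 ∅ (pr N) β = 2 ^ N.card * (T + 2 * z)) ∧
  (Kd (pr N) → ∀ β : ℤ, (5 : ℤ) ∣ β ^ 2 + pr N → (2 ^ N.card : ℤ) ∣ A 3 N (pr N) β) ∧
  (N.Nonempty → (Ka (pr N) ∨ Kc (pr N)) → (4 ^ N.card : ℤ) ∣ Fx N 1 4)

/-! ### the modular symbols -/

/-- the odd symbol -/
structure SyM (s : ℚ → ℤ) (a : ℕ → ℤ) : Prop where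
  per : ∀ x, s (x + 1) = s x
  neg : ∀ x, s (-x) = -s x
  hecke : ∀ q : ℕ, q.Prime → ¬ q ∣ 15 → ∀ x,
    a q * s x = s (q * x) + ∑ b ∈ Finset.range q, s ((x + b) / q)
  aff : ∀ {A B C' D : ℤ}, A * D - B * (15 * C') = 1 → ∀ {x c : ℤ}, IsCoprime (15 * x) c →
    s (((A * x + B * c : ℤ) : ℚ) / ((15 * C' * x + D * c : ℤ) : ℚ)) =
      s ((x : ℚ) / c) + s ((B : ℚ) / D)
  a2 : a 2 = -1

/-- CM: the odd symbol as a cocycle -/
def S_CM : Prop := ∀ (s : ℚ → ℤ) (a : ℕ → ℤ), SyM s a → Coc (fun x M => s ((x : ℚ) / M)) ∧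
  (∀ x M : ℤ, s (((-x : ℤ) : ℚ) / M) = -s ((x : ℚ) / M)) ∧ s (5 / 16) = 0

/-- E56: the values of the class `b` and of the class `d` -/
def S_E56 : Prop := ∀ (s : ℚ → ℤ) (a : ℕ → ℤ), SyM s a → ∀ Z : Finset ℕ, Pq Z →
  (Kb (pr Z) → ∀ β : ℤ, (3 : ℤ) ∣ β ^ 2 + pr Z →
    S5 ∅ (pr Z) β ^ 2 * s (1 / 4) = 18 * SS s (pr Z) (pr Z)) ∧
  (Kd (pr Z) → ∀ β : ℤ, (5 : ℤ) ∣ β ^ 2 + pr Z →
    2 * A 3 Z (pr Z) β ^ 2 * s (1 / 4) = SS s (pr Z) (pr Z))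

end

end Pool.Agent.XV
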