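import Pool.Agent.XV.Defs2

/-!
# Project XV: the odd symbol and the Dedekind symbol as cocycles (S_CM, S_EMC, S_FE)
-/

set_option autoImplicit false

namespace Pool.Agent.XV

open Finset
open Pool.Agent.Z700 (V3 pr un hh)
open Pool.Agent.NH1 (lz rd)
open Pool.Agent.NH2 (w1 w2 wp ev cx)
open Pool.Agent.Y687 (SS saw ded psi three psi_zero psi_neg psi_neg_neg psi_add psi_one)

namespace CmAux

theorem per_q {s : ℚ → ℤ} (h : ∀ x, s (x + 1) = s x) (x M : ℤ) :
    s (((x + M : ℤ) : ℚ) / M) = s ((x : ℚ) / M) := by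
  by_cases hM : M = 0
  · subst hM
    simp
  · have hMq : (M : ℚ) ≠ 0 := by exact_mod_cast hM
    have e : (((x + M : ℤ) : ℚ) / M) = (x : ℚ) / M + 1 := by
      push_cast
      field_simp
    rw [e, h]

theorem neg2_q (s : ℚ → ℤ) (x M : ℤ) :
    s (((-x : ℤ) : ℚ) / ((-M : ℤ) : ℚ)) = s ((x : ℚ) / M) := by
  push_cast
  rw [neg_div_neg_eq]

theorem s0 {s : ℚ → ℤ} {a : ℕ → ℤ} (h : SyM s a) : s 0 = 0 := by
  have := h.neg 0
  rw [neg_zero] at this
  omega

theorem s516 {s : ℚ → ℤ} {a : ℕ → ℤ} (h : SyM s a) : s (5 / 16) = 0 := by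
  have z0 := s0 h
  -- `s (1/2) = 0`
  have n2 := h.neg (1 / 2)
  have p2 := h.per (-(1 / 2))
  -- the relations
  have r1 := h.aff (A := 29) (B := -9) (C' := -3) (D := 14) (by norm_num) (x := 5) (c := 16)
    ⟨3, -14, by norm_num⟩
  have r2 := h.aff (A := 29) (B := -9) (C' := -3) (D := 14) (by norm_num) (x := 4) (c := 13)
    ⟨5, -23, by norm_num⟩
  have r3 := h.aff (A := -11) (B := -3) (C' := 1) (D := 4) (by norm_num) (x := -3) (c := 8)
    ⟨3, 17, by norm_num⟩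
  have r4 := h.hecke 2 Nat.prime_two (by norm_num) (1 / 4)
  have r5 := h.aff (A := 8) (B := -1) (C' := -1) (D := 2) (by norm_num) (x := 1) (c := 8)
    ⟨-1, 2, by norm_num⟩
  rw [h.a2] at r4
  simp only [Finset.sum_range_succ, Finset.sum_range_zero] at r4
  have p1 := h.per (-1)
  have p3 := h.per (-(9 / 13))
  have n3 := h.neg (3 / 8)
  have p4 := h.per (-(3 / 4))
  have p5 := h.per (-(3 / 8))
  norm_num at r1 r2 r3 r4 r5 n2 p2 p1 p3 n3 p4 p5
  omega

theorem EM_aff {A B D : ℤ} {c : ℕ} (hdet : A * D - B * (15 * c) = 1) (hc : 0 < c) {a M : ℤ}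
    (hcop : IsCoprime (15 * a) M) (hM : M ≠ 0) (hK : 15 * c * a + D * M ≠ 0) :
    EM (A * a + B * M) (15 * c * a + D * M) = EM a M + EM B D := by
  have hD : D ≠ 0 := by
    rintro rfl
    have : (15 : ℤ) ∣ 1 := ⟨-(B * c), by linarith⟩
    norm_num at this
  obtain ⟨H, hH⟩ : ∃ H, H = A * a + B * M := ⟨_, rfl⟩
  obtain ⟨K, hKe⟩ : ∃ K, K = 15 * c * a + D * M := ⟨_, rfl⟩
  rw [← hKe] at hK
  rw [← hH, ← hKe]
  have c1 : IsCoprime a M := hcop.of_mul_left_right
  have c3 : IsCoprime (3 * a) M := IsCoprime.mul_left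
    (IsCoprime.of_mul_left_left (x := (3 : ℤ)) (y := 5) (by norm_num; exact hcop.of_mul_left_left)) c1
  have c5 : IsCoprime (5 * a) M := IsCoprime.mul_left
    (IsCoprime.of_mul_left_right (x := (3 : ℤ)) (y := 5) (by norm_num; exact hcop.of_mul_left_left)) c1
  obtain ⟨κ1, i1, -⟩ := three (15 * c) (by omega) A B D (by push_cast; linarith)
  obtain ⟨κ3, i3, -⟩ := three (5 * c) (by omega) A (3 * B) D (by push_cast; linarith)
  obtain ⟨κ5, i5, -⟩ := three (3 * c) (by omega) A (5 * B) D (by push_cast; linarith)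
  obtain ⟨κ15, i15, -⟩ := three c hc A (15 * B) D (by push_cast; linarith)
  have e1 : ((15 * c : ℕ) : ℤ) * a + D * M = K := by rw [hKe]; push_cast; ring
  have e3 : ((5 * c : ℕ) : ℤ) * (3 * a) + D * M = K := by rw [hKe]; push_cast; ring
  have e5 : ((3 * c : ℕ) : ℤ) * (5 * a) + D * M = K := by rw [hKe]; push_cast; ring
  have e15 : ((c : ℕ) : ℤ) * (15 * a) + D * M = K := by rw [hKe]; ring
  have f1 : A * a + B * M = H := hH.symm
  have f3 : A * (3 * a) + (3 * B) * M = 3 * H := by rw [hH]; ring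
  have f5 : A * (5 * a) + (5 * B) * M = 5 * H := by rw [hH]; ring
  have f15 : A * (15 * a) + (15 * B) * M = 15 * H := by rw [hH]; ring
  have g1 := i1 a M c1 hM (by rw [e1]; exact hK)
  have g3 := i3 (3 * a) M c3 hM (by rw [e3]; exact hK)
  have g5 := i5 (5 * a) M c5 hM (by rw [e5]; exact hK)
  have g15 := i15 (15 * a) M hcop hM (by rw [e15]; exact hK)
  rw [e1, f1] at g1
  rw [e3, f3] at g3
  rw [e5, f5] at g5
  rw [e15, f15] at g15
  have z : IsCoprime (0 : ℤ) 1 := isCoprime_zero_left.2 isUnit_one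
  have h1 := i1 0 1 z one_ne_zero (by simpa using hD)
  have h3 := i3 0 1 z one_ne_zero (by simpa using hD)
  have h5 := i5 0 1 z one_ne_zero (by simpa using hD)
  have h15 := i15 0 1 z one_ne_zero (by simpa using hD)
  simp only [mul_zero, zero_add, mul_one, psi_zero, one_mul] at h1 h3 h5 h15
  unfold EM
  push_cast at *
  linear_combination (1 / 96 : ℚ) * (g1 - 7 * g3 + 7 * g5 - g15) -
    (1 / 96 : ℚ) * (h1 - 7 * h3 + 7 * h5 - h15)

theorem EM_neg_neg {a M : ℤ} (hM : M ≠ 0) : EM (-a) (-M) = EM a M := by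
  unfold EM
  rw [show 3 * -a = -(3 * a) by ring, show 5 * -a = -(5 * a) by ring,
    show 15 * -a = -(15 * a) by ring, psi_neg_neg hM, psi_neg_neg hM, psi_neg_neg hM,
    psi_neg_neg hM]

theorem EM_neg {a M : ℤ} (hM : M ≠ 0) : EM (-a) M = -EM a M := by
  unfold EM
  rw [show 3 * -a = -(3 * a) by ring, show 5 * -a = -(5 * a) by ring,
    show 15 * -a = -(15 * a) by ring, psi_neg hM, psi_neg hM, psi_neg hM, psi_neg hM]
  ring

theorem EM_add (a M m : ℤ) : EM (a + m * M) M = EM a M := by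
  unfold EM
  rw [show 3 * (a + m * M) = 3 * a + (3 * m) * M by ring,
    show 5 * (a + m * M) = 5 * a + (5 * m) * M by ring,
    show 15 * (a + m * M) = 15 * a + (15 * m) * M by ring, psi_add, psi_add, psi_add, psi_add]

theorem EM_one (a : ℤ) : EM a 1 = 0 := by
  unfold EM
  rw [psi_one, psi_one, psi_one, psi_one]
  ring

theorem EM14 : EM 1 4 = 1 / 4 := by
  have : Int.sign 4 = 1 := rfl
  norm_num [EM, psi, ded, saw, Finset.sum_range_succ, this]

theorem EM516 : EM 5 16 = 1 := by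
  have : Int.sign 16 = 1 := rfl
  norm_num [EM, psi, ded, saw, Finset.sum_range_succ, this]

/-- the forms for `X = ∅` -/
theorem nr_eq (k x M : ℤ) (q0 : ℤ × ℤ × ℤ) (h : ∀ q : ℤ × ℤ × ℤ,
    (Fm ∅ k q ∧ 0 < q.1 ∧ ev q x M < 0) ↔ q = q0) : Nr ∅ k x M = 1 := by
  unfold Nr
  rw [finsum_eq_single _ q0]
  · rw [if_pos ((h q0).2 rfl)]
    simp [cx]
  · intro q hq
    rw [if_neg (fun h1 => hq ((h q).1 h1))]

theorem nr_zero (k x M : ℤ) (h : ∀ q : ℤ × ℤ × ℤ,
    ¬ (Fm ∅ k q ∧ 0 < q.1 ∧ ev q x M < 0)) : Nr ∅ k x M = 0 := by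
  unfold Nr
  exact finsum_eq_zero_of_forall_eq_zero fun q => if_neg (h q)

theorem pr_empty : pr (∅ : Finset ℕ) = 1 := by
  simp [pr]

/-- the forms changing sign between `∞` and `1 / 4` -/
theorem no14 (k : ℤ) (q : ℤ × ℤ × ℤ) : ¬ (Fm ∅ k q ∧ 0 < q.1 ∧ ev q 1 4 < 0) := by
  rintro ⟨⟨h1, ⟨m, hm⟩, h3⟩, h4, h5⟩
  obtain ⟨A, B, C⟩ := q
  simp only [ev, pr_empty] at h1 hm h3 h4 h5
  subst hm
  have e : 15 * m * (15 * m * 1 ^ 2 + B * 1 * 4 + C * 4 ^ 2) = (15 * m + 2 * B) ^ 2 - 4 := by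
    push_cast at h1
    linear_combination -4 * h1
  have hm : 0 < m := by omega
  have h6 : (15 * m + 2 * B) ^ 2 < 4 := by nlinarith
  have h7 : -2 < 15 * m + 2 * B := by nlinarith
  have h8 : 15 * m + 2 * B < 2 := by nlinarith
  obtain ⟨t, ht⟩ : ∃ t, t = 15 * m + 2 * B := ⟨_, rfl⟩
  obtain ⟨E, hE⟩ : ∃ E, E = m * (15 * m * 1 ^ 2 + B * 1 * 4 + C * 4 ^ 2) := ⟨_, rfl⟩
  have e2 : 15 * E = t ^ 2 - 4 := by rw [hE, ht, ← e]; ring
  rw [← ht] at h7 h8
  have : t = -1 ∨ t = 0 ∨ t = 1 := by omega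
  rcases this with rfl | rfl | rfl <;> norm_num at e2 <;> omega

/-- the forms changing sign between `∞` and `5 / 16` -/
theorem only516 (k : ℤ) (q : ℤ × ℤ × ℤ) (h : Fm ∅ k q ∧ 0 < q.1 ∧ ev q 5 16 < 0) :
    q = (30, -19, 3) := by
  obtain ⟨⟨h1, ⟨m, hm⟩, h3⟩, h4, h5⟩ := h
  obtain ⟨A, B, C⟩ := q
  simp only [ev, pr_empty] at h1 hm h3 h4 h5
  subst hm
  push_cast at h1
  have e : 15 * m * (15 * m * 5 ^ 2 + B * 5 * 16 + C * 16 ^ 2) = (75 * m + 8 * B) ^ 2 - 64 := by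
    linear_combination -64 * h1
  have hm : 0 < m := by omega
  obtain ⟨t, ht⟩ : ∃ t, t = 75 * m + 8 * B := ⟨_, rfl⟩
  obtain ⟨E, hE⟩ : ∃ E, E = 15 * m * 5 ^ 2 + B * 5 * 16 + C * 16 ^ 2 := ⟨_, rfl⟩
  rw [← ht, ← hE] at e
  rw [← hE] at h5
  have h6 : t ^ 2 < 64 := by nlinarith
  have h7 : -8 < t := by nlinarith
  have h8 : t < 8 := by nlinarith
  have h9 : m ≤ 4 := by nlinarith
  have c : m = 1 ∨ m = 2 ∨ m = 3 ∨ m = 4 := by omega
  have hm2 : m = 2 ∧ B = -19 := by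
    rcases c with rfl | rfl | rfl | rfl
    · exfalso
      have : B = -9 ∨ B = -10 := by omega
      rcases this with rfl | rfl <;> omega
    · have : B = -18 ∨ B = -19 := by omega
      rcases this with rfl | rfl
      · omega
      · exact ⟨rfl, rfl⟩
    · exfalso
      have : B = -28 ∨ B = -29 := by omega
      rcases this with rfl | rfl <;> omega
    · exfalso
      have : B = -37 ∨ B = -38 := by omega
      rcases this with rfl | rfl <;> omega
  obtain ⟨rfl, rfl⟩ := hm2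
  have : C = 3 := by omega
  subst this
  rfl

theorem nr516a : Nr ∅ 11 5 16 = 1 := by
  refine nr_eq 11 5 16 (30, -19, 3) fun q => ⟨only516 11 q, ?_⟩
  rintro rfl
  refine ⟨⟨?_, ?_, ?_⟩, ?_, ?_⟩ <;> norm_num [pr_empty, ev]

theorem nr516b : Nr ∅ 19 5 16 = 0 := by
  refine nr_zero 19 5 16 fun q h => ?_
  have h1 := only516 19 q h
  subst h1
  obtain ⟨⟨-, -, h3⟩, -, -⟩ := h
  rw [pr_empty] at h3
  norm_num at h3

theorem fx516 : Fx ∅ 5 16 = 1 := by
  unfold Fx
  rw [nr516a, nr516b]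
  simp

theorem fx14 : Fx ∅ 1 4 = 0 := by
  unfold Fx
  rw [nr_zero 11 1 4 (no14 11), nr_zero 19 1 4 (no14 19)]
  simp

end CmAux

open CmAux

theorem t_CM : S_CM := by
  intro s a h
  have h0 : s 0 = 0 := s0 h
  refine ⟨⟨fun x M => neg2_q s x M, fun x M => per_q h.per x M, ?_⟩, ?_, s516 h⟩
  · intro A B C D hdet hC x M hc
    obtain ⟨C', rfl⟩ := hC
    have h1 := h.aff (A := A) (B := B) (C' := C') (D := D) (by linarith) hc
    rw [h1]
    have h2 : s (((0 : ℤ) : ℚ) / ((1 : ℤ) : ℚ)) = 0 := by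
      norm_num
      exact h0
    rw [h2, sub_zero]
  · intro x M
    have h1 := h.neg ((x : ℚ) / M)
    rw [← h1]
    push_cast
    rw [neg_div]

theorem t_EMC : S_EMC := by
  refine ⟨⟨fun x M hM => EM_neg_neg hM, ?_, ?_⟩, fun x M hM => EM_neg hM, EM516, EM14⟩
  · intro x M _
    have := EM_add x M 1
    rwa [one_mul] at this
  · intro a b c d hdet hc x M hcop hM hK
    have hz : EM 0 1 = 0 := EM_one 0
    rw [hz, sub_zero]
    obtain ⟨c', rfl⟩ := hc
    rcases lt_trichotomy c' 0 with h | h | h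
    · -- negative: use the negative matrix
      obtain ⟨n, rfl⟩ : ∃ n : ℕ, c' = -(n : ℤ) := ⟨(-c').toNat, by omega⟩
      have hd : d ≠ 0 := by
        rintro rfl
        have : (15 : ℤ) ∣ 1 := ⟨b * n, by linarith⟩
        norm_num at this
      have h1 := EM_aff (A := -a) (B := -b) (D := -d) (c := n) (by linarith) (by omega) hcop hM
        (by intro h0; apply hK; linarith)
      rw [EM_neg_neg hd] at h1
      rw [← h1, ← EM_neg_neg hK]
      congr 1 <;> ring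
    · subst h
      have h1 : a * d = 1 := by linarith
      rcases Int.mul_eq_one_iff_eq_one_or_neg_one.1 h1 with ⟨rfl, rfl⟩ | ⟨rfl, rfl⟩
      · rw [EM_one, add_zero, ← EM_add x M b]
        congr 1 <;> ring
      · have h2 : EM b (-1) = 0 := by
          rw [← EM_neg_neg (by norm_num)]
          exact EM_one _
        rw [h2, add_zero, ← EM_neg_neg hK, ← EM_add x M (-b)]
        congr 1 <;> ring
    · obtain ⟨n, rfl⟩ : ∃ n : ℕ, c' = (n : ℤ) := ⟨c'.toNat, by omega⟩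
      exact EM_aff hdet (by omega) hcop hM hK

theorem t_FE (h1 : S_COC) (h2 : S_PARI) (h3 : S_UODQ) : S_FE := by
  intro s a hs x M hM hc
  have hE : Pq ∅ := by intro p hp; simp at hp
  have c1 := h1 ∅ hE
  have c2 := h2 ∅ hE
  rw [pr_empty] at c2
  have c2' : ∀ x M : ℤ, Fx ∅ (-x) M = - Fx ∅ x M := by
    intro x M
    rw [c2 x M]
    simp
  obtain ⟨e1, e2, e3, e4⟩ := t_EMC
  obtain ⟨m1, m2, m3⟩ := t_CM s a hs
  have key := h3 (fun x M => (Fx ∅ x M : ℚ) - EM x M) (fun x M => (s ((x : ℚ) / M) : ℚ))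
    ⟨fun x M hM => by rw [c1.neg2, e1.neg2 x M hM], fun x M hM => by rw [c1.per, e1.per x M hM],
      fun a b c d g1 g2 x M g3 g4 g5 => by
        rw [c1.aff a b c d g1 g2 x M g3, e1.aff a b c d g1 g2 x M g3 g4 g5]
        push_cast
        ring⟩
    ⟨fun x M _ => by exact_mod_cast m1.neg2 x M, fun x M _ => by exact_mod_cast m1.per x M,
      fun a b c d g1 g2 x M g3 _ _ => by exact_mod_cast m1.aff a b c d g1 g2 x M g3⟩
    (fun x M hM => by
      rw [c2', e2 x M hM]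
      push_cast
      ring)
    (fun x M _ => by exact_mod_cast m2 x M)
    (by rw [fx516, e3]; norm_num)
    (by
      have : s (((5 : ℤ) : ℚ) / ((16 : ℤ) : ℚ)) = 0 := by
        have h := m3
        norm_num at h ⊢
        exact h
      exact_mod_cast this)
    x M hM hc
  rw [fx14, e4] at key
  have e : (((1 : ℤ) : ℚ) / ((4 : ℤ) : ℚ)) = 1 / 4 := by norm_num
  rw [e] at key
  push_cast at key
  linear_combination 4 * key

end Pool.Agent.XV
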