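import Pool.Agent.XV.Defs2

/-!
# Uniqueness of the odd functions of level 15 (`t_UODQ`)
-/

set_option autoImplicit false

namespace Pool.Agent.XV

namespace Uod

/-- the normalized odd functions -/
structure Hm (D : ℤ → ℤ → ℚ) : Prop where
  neg2 : ∀ x M : ℤ, M ≠ 0 → D (-x) (-M) = D x M
  per : ∀ x M : ℤ, M ≠ 0 → D (x + M) M = D x M
  odd : ∀ x M : ℤ, M ≠ 0 → D (-x) M = - D x M
  aff : ∀ a b c d : ℤ, a * d - b * c = 1 → (15 : ℤ) ∣ c → ∀ x M : ℤ, IsCoprime (15 * x) M →
    M ≠ 0 → c * x + d * M ≠ 0 → D (a * x + b * M) (c * x + d * M) = D x M + D b d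

section

variable {D : ℤ → ℤ → ℚ}

theorem Hm.padd (H : Hm D) (x : ℤ) {M : ℤ} (hM : M ≠ 0) (n : ℕ) : D (x + n * M) M = D x M := by
  induction n with
  | zero => simp
  | succ n ih =>
    have h := H.per (x + n * M) M hM
    rw [ih] at h
    rw [← h]
    congr 1
    push_cast
    ring

theorem Hm.add (H : Hm D) (x : ℤ) {M : ℤ} (hM : M ≠ 0) (m : ℤ) : D (x + m * M) M = D x M := by
  rcases Int.eq_nat_or_neg m with ⟨n, rfl | rfl⟩
  · exact H.padd x hM n
  · have h := H.padd (x + -(n : ℤ) * M) hM n
    rw [← h]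
    congr 1
    ring

theorem Hm.zero (H : Hm D) {M : ℤ} (hM : M ≠ 0) : D 0 M = 0 := by
  have h := H.odd 0 M hM
  rw [neg_zero] at h
  linarith

theorem Hm.one (H : Hm D) (x : ℤ) : D x 1 = 0 := by
  have h := H.add 0 one_ne_zero x
  rw [H.zero one_ne_zero] at h
  simpa using h

theorem Hm.two (H : Hm D) : D 1 2 = 0 := by
  have h := H.per (-1) 2 two_ne_zero
  have h1 := H.odd 1 2 two_ne_zero
  norm_num at h
  linarith

theorem Hm.neg0 (H : Hm D) {x M : ℤ} (hM : M ≠ 0) (h : D x M = 0) : D (-x) M = 0 := by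
  rw [H.odd x M hM, h, neg_zero]

theorem Hm.neg20 (H : Hm D) {x M : ℤ} (hM : M ≠ 0) (h : D x M = 0) : D (-x) (-M) = 0 := by
  rw [H.neg2 x M hM, h]

theorem Hm.seven (H : Hm D) : D 1 7 = 0 := by
  have h := H.aff 2 (-1) 15 (-7) (by norm_num) ⟨1, by norm_num⟩ 1 2 ⟨1, -7, by norm_num⟩
    (by norm_num) (by norm_num)
  have h1 := H.neg2 1 7 (by norm_num)
  have h2 := H.two
  norm_num at h h1
  have h3 := H.one 0
  linarith

theorem Hm.eleven (H : Hm D) (h14 : D 1 4 = 0) (h516 : D 5 16 = 0) : D 4 11 = 0 := by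
  have h2 := H.two
  have r1 := H.aff 19 (-7) 30 (-11) (by norm_num) ⟨2, by norm_num⟩ 1 2 ⟨1, -7, by norm_num⟩
    (by norm_num) (by norm_num)
  have r2 := H.aff 14 (-5) 45 (-16) (by norm_num) ⟨3, by norm_num⟩ 1 2 ⟨1, -7, by norm_num⟩
    (by norm_num) (by norm_num)
  have r3 := H.aff 4 (-3) 15 (-11) (by norm_num) ⟨1, by norm_num⟩ 5 8 ⟨3, -28, by norm_num⟩
    (by norm_num) (by norm_num)
  have r4 := H.aff 4 (-3) 15 (-11) (by norm_num) ⟨1, by norm_num⟩ 1 1 ⟨0, 1, by norm_num⟩
    (by norm_num) (by norm_num)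
  have a1 := H.neg2 7 11 (by norm_num)
  have a2 := H.per (-4) 11 (by norm_num)
  have a3 := H.odd 4 11 (by norm_num)
  have b1 := H.neg2 5 16 (by norm_num)
  have b2 := H.neg2 4 13 (by norm_num)
  have b3 := H.neg2 3 11 (by norm_num)
  have b4 := H.neg2 1 4 (by norm_num)
  have b5 := H.one 1
  norm_num at r1 r2 r3 r4 a1 a2 a3 b1 b2 b3 b4
  linarith

theorem Hm.van (H : Hm D) (h14 : D 1 4 = 0) (h411 : D 4 11 = 0) (n : ℕ) :
    ∀ x M : ℤ, M.natAbs = n → M ≠ 0 → IsCoprime (15 * x) M → D x M = 0 := by
  induction n using Nat.strong_induction_on with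
  | _ n ih =>
    intro x M hn hM0 hcop
    -- reduction to positive denominators
    wlog hMp : 0 < M generalizing x M
    · have h1 := this (-x) (-M) (by rw [Int.natAbs_neg, hn]) (neg_ne_zero.2 hM0)
        (by rw [mul_neg]; exact hcop.neg_neg) (by omega)
      rwa [H.neg2 x M hM0] at h1
    rcases eq_or_ne M 1 with rfl | hM1
    · exact H.one x
    -- the general step
    have step : ∀ (y : ℤ), IsCoprime (15 * y) M → 0 < y → 2 * y < M → D y M = 0 := by
      intro y hy hy0 hy1
      have hnd' : ∀ j : ℤ, 15 * y ≠ j * M := by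
        intro j hj
        have h3 := hy.isUnit_of_dvd' (Dvd.intro_left j hj.symm) (dvd_refl M)
        rw [Int.isUnit_iff] at h3
        omega
      have main : ∀ (A B E : ℤ) (c : ℕ), A * E - B * (15 * c) = 1 → 0 < c → c ≤ 2 →
          |15 * c * y + E * M| < M → D B E = 0 → D y M = 0 := by
        intro A B E c hdet hc hc2 hlt hBD
        have hK : 15 * (c : ℤ) * y + E * M ≠ 0 := by
          intro h0
          obtain ⟨u, v, huv⟩ := hy
          have h1 : M ∣ (c : ℤ) := by
            refine ⟨v * c - u * E, ?_⟩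
            linear_combination u * h0 - (c : ℤ) * huv
          have h2 := Int.le_of_dvd (by exact_mod_cast hc) h1
          have h3 : (c : ℤ) ≤ 2 := by exact_mod_cast hc2
          omega
        have h3 := H.aff A B (15 * c) E hdet ⟨c, rfl⟩ y M hy hM0 hK
        rw [hBD, add_zero] at h3
        rw [← h3]
        refine ih _ ?_ _ _ rfl hK ?_
        · rw [← hn]
          zify
          rw [abs_of_pos hMp]
          exact hlt
        · -- coprimality
          obtain ⟨u, v, huv⟩ := hy
          have h15 : IsCoprime (15 : ℤ) (15 * (c : ℤ) * y + E * M) := by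
            have h1 : IsCoprime (15 : ℤ) (E * M) := by
              refine IsCoprime.mul_right ⟨-(B * c), A, by linear_combination hdet⟩
                ⟨u * y, v, by linear_combination huv⟩
            have h2 : 15 * (c : ℤ) * y + E * M = E * M + 15 * (c * y) := by ring
            rw [h2]
            exact (IsCoprime.add_mul_left_right_iff).2 h1
          refine IsCoprime.mul_left h15 ?_
          -- Bezout from the inverse matrix
          refine ⟨u * 15 * E - v * (15 * c), -(u * 15 * B) + v * A, ?_⟩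
          linear_combination (u * 15 * y + v * M) * hdet + huv
      have c1 : 15 * y < 2 * M ∨ (2 * M < 15 * y ∧ 15 * y < 3 * M) ∨
          (3 * M < 15 * y ∧ 15 * y < 5 * M) ∨ (5 * M < 15 * y ∧ 15 * y < 6 * M) ∨
          (6 * M < 15 * y ∧ 15 * y < 8 * M) := by
        have := hnd' 2
        have := hnd' 3
        have := hnd' 5
        have := hnd' 6
        omega
      rcases c1 with c1 | c1 | c1 | c1 | c1
      · refine main (-1) 0 (-1) 1 (by norm_num) one_pos (by norm_num) ?_ ?_
        · rw [abs_lt]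
          push_cast
          constructor <;> omega
        · exact H.zero (by norm_num)
      · refine main 7 (-1) (-2) 1 (by norm_num) one_pos (by norm_num) ?_ ?_
        · rw [abs_lt]
          push_cast
          constructor <;> omega
        · exact H.neg20 (by norm_num) H.two
      · refine main (-4) 1 (-4) 1 (by norm_num) one_pos (by norm_num) ?_ ?_
        · rw [abs_lt]
          push_cast
          constructor <;> omega
        · have h1 := H.neg20 (by norm_num) (H.neg0 (by norm_num) h14)
          exact h1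
      · refine main (-11) 4 (-11) 2 (by norm_num) two_pos le_rfl ?_ ?_
        · rw [abs_lt]
          push_cast
          constructor <;> omega
        · have h1 := H.neg20 (by norm_num) (H.neg0 (by norm_num) h411)
          exact h1
      · refine main 2 (-1) (-7) 1 (by norm_num) one_pos (by norm_num) ?_ ?_
        · rw [abs_lt]
          push_cast
          constructor <;> omega
        · exact H.neg20 (by norm_num) H.seven
    -- reduce `x` modulo `M`
    obtain ⟨y, m, hxy, hy0, hyM⟩ : ∃ y m : ℤ, x = y + m * M ∧ 0 ≤ y ∧ y < M :=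
      ⟨x % M, x / M, by linear_combination -(Int.emod_add_mul_ediv x M), Int.emod_nonneg _ hM0,
        Int.emod_lt_of_pos _ hMp⟩
    have hcy : IsCoprime (15 * y) M := by
      have h1 : 15 * x = 15 * y + (15 * m) * M := by rw [hxy]; ring
      rw [h1] at hcop
      exact (IsCoprime.add_mul_right_left_iff).1 hcop
    rw [hxy, H.add _ hM0]
    rcases eq_or_ne y 0 with rfl | hy00
    · exact H.zero hM0
    rcases lt_trichotomy (2 * y) M with h1 | h1 | h1
    · exact step y hcy (by omega) h1
    · have h2 : y ∣ 1 := by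
        obtain ⟨u, v, huv⟩ := hcy
        refine ⟨u * 15 + v * 2, ?_⟩
        rw [← huv, ← h1]
        ring
      have h3 := Int.le_of_dvd one_pos h2
      have h4 : y = 1 := by omega
      subst h4
      rw [← h1]
      exact H.two
    · have h2 : IsCoprime (15 * (M - y)) M := by
        have h3 : 15 * (M - y) = -(15 * y) + 15 * M := by ring
        rw [h3]
        exact (IsCoprime.add_mul_right_left_iff).2 hcy.neg_left
      have h3 := step (M - y) h2 (by omega) (by omega)
      have h4 := H.neg0 hM0 h3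
      have h5 := H.add (-(M - y)) hM0 1
      rw [h4] at h5
      have e : -(M - y) + 1 * M = y := by ring
      rwa [e] at h5

end

/-- the combination of two functions -/
theorem comb {f g : ℤ → ℤ → ℚ} (hf : CocR f) (hg : CocR g)
    (pf : ∀ x M : ℤ, M ≠ 0 → f (-x) M = - f x M) (pg : ∀ x M : ℤ, M ≠ 0 → g (-x) M = - g x M)
    (r s : ℚ) : Hm (fun x M => f x M * s - g x M * r) where
  neg2 x M hM := by
    simp only [hf.neg2 x M hM, hg.neg2 x M hM]
  per x M hM := by
    simp only [hf.per x M hM, hg.per x M hM]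
  odd x M hM := by
    simp only [pf x M hM, pg x M hM]
    ring
  aff a b c d hd hc x M hcop hM h0 := by
    have f0 : f 0 1 = 0 := by
      have := pf 0 1 one_ne_zero
      rw [neg_zero] at this
      linarith
    have g0 : g 0 1 = 0 := by
      have := pg 0 1 one_ne_zero
      rw [neg_zero] at this
      linarith
    simp only [hf.aff a b c d hd hc x M hcop hM h0, hg.aff a b c d hd hc x M hcop hM h0, f0, g0]
    ring

end Uod

open Uod

/-- **UODQ** -/
theorem t_UODQ : S_UODQ := by
  intro f g hf hg pf pg f5 g5 x M hM hcop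
  have H := comb hf hg pf pg (f 1 4) (g 1 4)
  have h14 : (fun x M => f x M * g 1 4 - g x M * f 1 4) (1 : ℤ) (4 : ℤ) = 0 := by
    simp only
    ring
  have h516 : (fun x M => f x M * g 1 4 - g x M * f 1 4) (5 : ℤ) (16 : ℤ) = 0 := by
    simp only [f5, g5]
    ring
  have h : f x M * g 1 4 - g x M * f 1 4 = 0 :=
    H.van h14 (H.eleven h14 h516) _ x M rfl hM.ne' hcop
  linarith

end Pool.Agent.XV
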