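import Pool.Agent.XV.Defs2
import Pool.Agent.Y687.Comb2

/-!
# XV-18: character sums (copies of lemmas of `Y687/N/Char`, `Y687/N/Tot`, `Z363/Z705/C1B` with fewer
imports)
-/

set_option autoImplicit false
set_option linter.style.haveILetI false

open Finset

namespace Pool.Agent.XV.Card

open Pool.Agent.Y687
open Pool.Agent.Y687.N (Cd)
open Pool.Agent.Z700 (un)
open Pool.Agent.NH2 (w2)

/-- a nonresidue -/
theorem exists_nonres' {p : ℕ} (hp : p.Prime) (h2 : p ≠ 2) :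
    ∃ t : ℕ, Nat.Coprime t p ∧ jacobiSym (t : ℤ) p = -1 := by
  haveI : Fact p.Prime := ⟨hp⟩
  have hchar : ringChar (ZMod p) ≠ 2 := by
    rw [ZMod.ringChar_zmod_n]; exact h2
  obtain ⟨a, ha⟩ := quadraticChar_exists_neg_one hchar
  have ht : jacobiSym ((a.val : ℕ) : ℤ) p = -1 := by
    rw [← jacobiSym.legendreSym.to_jacobiSym, legendreSym]
    simpa using ha
  refine ⟨a.val, ?_, ht⟩
  by_contra hne
  have h0 : jacobiSym ((a.val : ℕ) : ℤ) p = 0 := by
    haveI : NeZero p := ⟨hp.ne_zero⟩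
    rw [jacobiSym.eq_zero_iff_not_coprime]
    intro hg
    rw [Int.gcd_natCast_natCast] at hg
    exact hne hg
  rw [ht] at h0
  norm_num at h0

theorem jac_one_left (q : ℕ) : jacobiSym ((1 : ℕ) : ℤ) q = 1 := by simp


/-- the character sum of the sawtooth function (minus the class number) -/
def HH (n : ℕ) : ℚ := ∑ u ∈ range n, (jacobiSym (u : ℤ) n : ℚ) * saw n u

theorem exists_flip' {n : ℕ} (hn : Odd n) (hs : Squarefree n) {l : ℕ} (hl : l.Prime) (hd : l ∣ n) :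
    ∃ v : ℕ, Nat.Coprime v n ∧ v ≡ 1 [MOD n / l] ∧ jacobiSym (v : ℤ) n = -1 := by
  obtain ⟨m, rfl⟩ := hd
  have hlm : Nat.Coprime l m := Nat.coprime_of_squarefree_mul hs
  have h2 : l ≠ 2 := by
    rintro rfl
    exact absurd hn (by simp)
  have hm0 : m ≠ 0 := by
    rintro rfl
    exact absurd hn (by simp)
  obtain ⟨t, ht, hj⟩ := exists_nonres' hl h2
  obtain ⟨v, hv1, hv2⟩ := Nat.chineseRemainder hlm t 1
  rw [Nat.mul_div_cancel_left _ hl.pos]
  refine ⟨v, ?_, hv2, ?_⟩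
  · refine Nat.Coprime.mul_right ?_ ?_
    · rw [Nat.coprime_iff_gcd_eq_one, hv1.gcd_eq]
      exact ht
    · rw [Nat.coprime_iff_gcd_eq_one, hv2.gcd_eq]
      simp
  · haveI : NeZero l := ⟨hl.ne_zero⟩
    haveI : NeZero m := ⟨hm0⟩
    rw [jacobiSym.mul_right]
    have h3 : jacobiSym (v : ℤ) l = -1 := by
      rw [← hj]
      refine jacobiSym.mod_left' ?_
      have h1 : v % l = t % l := hv1
      exact_mod_cast h1
    have h4 : jacobiSym (v : ℤ) m = 1 := by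
      rw [← jac_one_left m]
      refine jacobiSym.mod_left' ?_
      have h1 : v % m = 1 % m := hv2
      exact_mod_cast h1
    rw [h3, h4]
    rfl

theorem sum_permG {n h : ℕ} (hn : 0 < n) (hc : Nat.Coprime h n) (G : ℤ → ℚ)
    (hG : ∀ x y : ℤ, (n : ℤ) ∣ x - y → G x = G y) :
    ∑ u ∈ range n, G (h * u) = ∑ u ∈ range n, G u := by
  rw [← sum_perm hn hc (fun i : ℕ => G (i : ℤ))]
  refine sum_congr rfl fun u _ => ?_
  refine hG _ _ ?_
  have h1 := Nat.div_add_mod (h * u) n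
  refine ⟨((h * u / n : ℕ) : ℤ), ?_⟩
  have h2 : ((h * u : ℕ) : ℤ) = (n : ℤ) * ((h * u / n : ℕ) : ℤ) + ((h * u % n : ℕ) : ℤ) := by
    exact_mod_cast h1.symm
  push_cast at h2 ⊢
  linarith

theorem jac_congr {n : ℕ} {x y : ℤ} (h : (n : ℤ) ∣ x - y) : jacobiSym x n = jacobiSym y n :=
  jacobiSym.mod_left' (Int.emod_eq_emod_iff_emod_sub_eq_zero.2 (Int.emod_eq_zero_of_dvd h))

theorem jac_sq {n : ℕ} {k : ℕ} (hc : Nat.Coprime k n) :
    (jacobiSym (k : ℤ) n : ℚ) * jacobiSym (k : ℤ) n = 1 := by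
  have h := jacobiSym.sq_one (a := (k : ℤ)) (b := n) (by rw [Int.gcd_natCast_natCast]; exact hc)
  have h2 : (jacobiSym (k : ℤ) n : ℚ) ^ 2 = 1 := by exact_mod_cast h
  rw [← sq]; exact h2

theorem jac_zero {n k : ℕ} (hn : n ≠ 0) (h : ¬ Nat.Coprime k n) : jacobiSym (k : ℤ) n = 0 := by
  haveI : NeZero n := ⟨hn⟩
  rw [jacobiSym.eq_zero_iff_not_coprime, Int.gcd_natCast_natCast]
  exact h

theorem char_saw_nat {n : ℕ} (hn : Odd n) (hs : Squarefree n) (k : ℕ) :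
    ∑ u ∈ range n, (jacobiSym (u : ℤ) n : ℚ) * saw n (k * u) = jacobiSym (k : ℤ) n * HH n := by
  have hn0 : n ≠ 0 := hs.ne_zero
  have hpos : 0 < n := Nat.pos_of_ne_zero hn0
  by_cases hc : Nat.Coprime k n
  · have h1 := sum_permG hpos hc (fun x => (jacobiSym x n : ℚ) * saw n x) (fun x y h => by
      rw [jac_congr h, saw_congr h])
    have h2 : ∀ u ∈ range n, (jacobiSym (u : ℤ) n : ℚ) * saw n (k * u) =
        jacobiSym (k : ℤ) n * ((jacobiSym ((k : ℤ) * u) n : ℚ) * saw n (k * u)) := by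
      intro u _
      rw [jacobiSym.mul_left]
      push_cast
      have h3 := jac_sq hc
      linear_combination (-(jacobiSym (u : ℤ) n : ℚ) * saw n (k * u)) * h3
    rw [sum_congr rfl h2, ← mul_sum, h1]
    rfl
  · rw [jac_zero hn0 hc]
    obtain ⟨l, hl, h1, h2⟩ := Nat.Prime.not_coprime_iff_dvd.1 hc
    obtain ⟨v, hv1, hv2, hv3⟩ := exists_flip' hn hs hl h2
    have h3 := sum_permG hpos hv1 (fun x => (jacobiSym x n : ℚ) * saw n (k * x)) (fun x y h => by
      rw [jac_congr h, saw_congr (m := k * x) (n := k * y) (by rw [← mul_sub]; exact Dvd.dvd.mul_left h _)])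
    have h4 : ∀ u ∈ range n, (jacobiSym ((v : ℤ) * u) n : ℚ) * saw n (k * ((v : ℤ) * u)) =
        -((jacobiSym (u : ℤ) n : ℚ) * saw n (k * u)) := by
      intro u _
      rw [jacobiSym.mul_left, hv3]
      have h5 : saw n (k * ((v : ℤ) * u)) = saw n (k * u) := by
        refine saw_congr ?_
        have h6 : ((n / l : ℕ) : ℤ) ∣ (v : ℤ) - 1 := by
          have := (Nat.modEq_iff_dvd.1 hv2.symm)
          exact_mod_cast this
        obtain ⟨c, hc'⟩ := h6
        obtain ⟨k', hk'⟩ := h1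
        have h7 : (n : ℤ) = l * (n / l : ℕ) := by exact_mod_cast (Nat.mul_div_cancel' h2).symm
        refine ⟨k' * c * u, ?_⟩
        have h8 : (v : ℤ) = 1 + ((n / l : ℕ) : ℤ) * c := by linarith
        rw [h7, h8, hk']
        push_cast
        ring
      rw [h5]
      push_cast
      ring
    rw [sum_congr rfl h4, sum_neg_distrib] at h3
    have h9 : ∑ u ∈ range n, (jacobiSym (u : ℤ) n : ℚ) * saw n (k * u) = 0 := by linarith
    rw [h9]
    simp

theorem char_saw {n : ℕ} (hn : Odd n) (hs : Squarefree n) (k : ℤ) :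
    ∑ u ∈ range n, (jacobiSym (u : ℤ) n : ℚ) * saw n (k * u) = jacobiSym k n * HH n := by
  have hn0 : (n : ℤ) ≠ 0 := by exact_mod_cast hs.ne_zero
  obtain ⟨k', hk'⟩ : ∃ k' : ℕ, (k' : ℤ) = k % n := ⟨(k % n).toNat, Int.toNat_of_nonneg (Int.emod_nonneg _ hn0)⟩
  have hd : (n : ℤ) ∣ k - k' := by
    rw [hk']
    exact Int.dvd_self_sub_emod
  rw [jac_congr hd, ← char_saw_nat hn hs k']
  refine sum_congr rfl fun u _ => ?_
  congr 1
  refine saw_congr ?_
  rw [← sub_mul]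
  exact Dvd.dvd.mul_right hd _

theorem char_ded {n : ℕ} (hn : Odd n) (hs : Squarefree n) (d : ℤ) :
    ∑ u ∈ range n, (jacobiSym (u : ℤ) n : ℚ) * ded (d * u) n = jacobiSym d n * HH n ^ 2 := by
  unfold ded
  simp_rw [mul_sum]
  rw [sum_comm]
  have h1 : ∀ i ∈ range n, ∑ u ∈ range n, (jacobiSym (u : ℤ) n : ℚ) *
      (saw n i * saw n (d * u * i)) = (jacobiSym d n * HH n) * ((jacobiSym (i : ℤ) n : ℚ) * saw n i) := by
    intro i _
    have h2 := char_saw hn hs (d * i)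
    have h3 : ∀ u ∈ range n, (jacobiSym (u : ℤ) n : ℚ) * (saw n i * saw n (d * u * i)) =
        saw n i * ((jacobiSym (u : ℤ) n : ℚ) * saw n (d * i * u)) := by
      intro u _
      rw [show d * (u : ℤ) * i = d * i * u by ring]
      ring
    rw [sum_congr rfl h3, ← mul_sum, h2, jacobiSym.mul_left]
    push_cast
    ring
  rw [sum_congr rfl h1, ← mul_sum]
  unfold HH
  ring

theorem sum_un {n : ℕ} (hn0 : n ≠ 0) (f : ℕ → ℚ) :
    ∑ u ∈ un n, (jacobiSym (u : ℤ) n : ℚ) * f u = ∑ u ∈ range n, (jacobiSym (u : ℤ) n : ℚ) * f u := by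
  unfold un
  rw [sum_filter]
  refine sum_congr rfl fun u _ => ?_
  split_ifs with h
  · rfl
  · rw [jac_zero hn0 h]
    simp

/-- transport to units -/
theorem sum_unQ {n : ℕ} [NeZero n] (g : ℕ → ℚ) :
    ∑ a ∈ un n, g a = ∑ u : (ZMod n)ˣ, g (u : ZMod n).val := by
  refine (Finset.sum_bij (fun (u : (ZMod n)ˣ) _ => (u : ZMod n).val) ?_ ?_ ?_ ?_).symm
  · intro u _
    exact mem_rr.2 ⟨ZMod.val_lt _, ZMod.val_coe_unit_coprime u⟩
  · intro u _ v _ h
    exact Units.ext (ZMod.val_injective n h)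
  · intro a ha
    have ha := mem_rr.1 (show a ∈ rr n from ha)
    refine ⟨ZMod.unitOfCoprime a ha.2, Finset.mem_univ _, ?_⟩
    rw [ZMod.coe_unitOfCoprime, ZMod.val_natCast, Nat.mod_eq_of_lt ha.1]
  · intro u _
    rfl

theorem char_inv {n : ℕ} (hn : Odd n) (hs : Squarefree n) (m : ℤ) :
    ∑ u ∈ un n, (jacobiSym (u : ℤ) n : ℚ) * saw n (m * (((u : ZMod n)⁻¹).val : ℤ)) =
      jacobiSym m n * HH n := by
  haveI : NeZero n := ⟨hs.ne_zero⟩
  rw [sum_unQ (fun u => (jacobiSym (u : ℤ) n : ℚ) * saw n (m * (((u : ZMod n)⁻¹).val : ℤ)))]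
  have h1 : ∀ u : (ZMod n)ˣ, (jacobiSym (((u : ZMod n).val : ℕ) : ℤ) n : ℚ) *
      saw n (m * ((((((u : ZMod n).val : ℕ) : ZMod n))⁻¹).val : ℤ)) =
      (fun w : (ZMod n)ˣ => (jacobiSym (((w : ZMod n).val : ℕ) : ℤ) n : ℚ) *
        saw n (m * (((w : ZMod n).val : ℕ) : ℤ))) u⁻¹ := by
    intro u
    simp only
    rw [ZMod.natCast_zmod_val, ZMod.inv_coe_unit]
    have h2 := chi_inv (q := n) dvd_rfl u
    unfold chi at h2
    rw [h2]
  rw [Finset.sum_congr rfl fun u _ => h1 u]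
  have h5 := Equiv.sum_comp (Equiv.inv (ZMod n)ˣ) (fun w : (ZMod n)ˣ =>
    (jacobiSym (((w : ZMod n).val : ℕ) : ℤ) n : ℚ) * saw n (m * (((w : ZMod n).val : ℕ) : ℤ)))
  simp only [Equiv.inv_apply] at h5
  rw [h5]
  rw [← sum_unQ (fun u => (jacobiSym (u : ℤ) n : ℚ) * saw n (m * (u : ℤ))),
    sum_un hs.ne_zero (fun u => saw n (m * (u : ℤ))), char_saw hn hs]


theorem un_dvd {n u : ℕ} (hu : u ∈ un n) : (n : ℤ) ∣ (u : ℤ) * (((u : ZMod n)⁻¹).val : ℤ) - 1 := by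
  have hu := mem_rr.1 (show u ∈ rr n from hu)
  haveI : NeZero n := ⟨by omega⟩
  rw [← ZMod.intCast_zmod_eq_zero_iff_dvd]
  push_cast
  rw [ZMod.natCast_zmod_val, ZMod.coe_mul_inv_eq_one u hu.2, sub_self]


theorem Cd_congr {n : ℕ} {x y : ℤ} (h : (n : ℤ) ∣ x - y) (w : Σ _ : ℕ, ℕ × ℕ) :
    Cd n x w ↔ Cd n y w := by
  unfold Cd
  have e1 : (n : ℤ) ∣ ((w.2.1 : ℤ) * x - ((w.1 / w.2.2 : ℕ) : ℤ)) -
      ((w.2.1 : ℤ) * y - ((w.1 / w.2.2 : ℕ) : ℤ)) := by
    have : ((w.2.1 : ℤ) * x - ((w.1 / w.2.2 : ℕ) : ℤ)) -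
      ((w.2.1 : ℤ) * y - ((w.1 / w.2.2 : ℕ) : ℤ)) = w.2.1 * (x - y) := by ring
    rw [this]
    exact Dvd.dvd.mul_left h _
  have e2 : (n : ℤ) ∣ ((w.2.2 : ℤ) * x + (((n - w.1) / w.2.1 : ℕ) : ℤ)) -
      ((w.2.2 : ℤ) * y + (((n - w.1) / w.2.1 : ℕ) : ℤ)) := by
    have : ((w.2.2 : ℤ) * x + (((n - w.1) / w.2.1 : ℕ) : ℤ)) -
      ((w.2.2 : ℤ) * y + (((n - w.1) / w.2.1 : ℕ) : ℤ)) = w.2.2 * (x - y) := by ring
    rw [this]
    exact Dvd.dvd.mul_left h _
  rw [(dvd_iff_dvd_of_dvd_sub e1), (dvd_iff_dvd_of_dvd_sub e2)]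


/-! ### Chinese remainder theorem for sums -/

theorem sum_crt {m n : ℕ} (h : Nat.Coprime m n) (hm : 0 < m) (hn : 0 < n) (f g : ℕ → ℤ) :
    ∑ u ∈ range (m * n), f (u % m) * g (u % n) = (∑ u ∈ range m, f u) * ∑ v ∈ range n, g v := by
  rw [Finset.sum_mul_sum, ← Finset.sum_product']
  refine Finset.sum_nbij (fun u => (u % m, u % n)) ?_ ?_ ?_ ?_
  · intro u _
    rw [Finset.mem_product, mem_range, mem_range]
    exact ⟨Nat.mod_lt _ hm, Nat.mod_lt _ hn⟩
  · intro u hu v hv huv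
    rw [Finset.coe_range, Set.mem_Iio] at hu hv
    simp only [Prod.mk.injEq] at huv
    have h1 : u ≡ v [MOD m * n] := (Nat.modEq_and_modEq_iff_modEq_mul h).1 ⟨huv.1, huv.2⟩
    exact Nat.ModEq.eq_of_lt_of_lt h1 hu hv
  · rintro ⟨x, y⟩ hxy
    rw [Finset.coe_product, Set.mem_prod, coe_range, coe_range, Set.mem_Iio, Set.mem_Iio] at hxy
    obtain ⟨hx, hy⟩ := hxy
    have h1 := (Nat.chineseRemainder h x y).2
    refine ⟨Nat.chineseRemainder h x y, ?_, ?_⟩
    · rw [Finset.coe_range, Set.mem_Iio]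
      exact Nat.chineseRemainder_lt_mul h x y hm.ne' hn.ne'
    · have h2 : (Nat.chineseRemainder h x y : ℕ) % m = x % m := h1.1
      have h3 : (Nat.chineseRemainder h x y : ℕ) % n = y % n := h1.2
      rw [Nat.mod_eq_of_lt hx] at h2
      rw [Nat.mod_eq_of_lt hy] at h3
      exact Prod.ext h2 h3
  · intro u _
    rfl

theorem sum_crt_prod (G : ℕ → ℕ → ℤ) (P : Finset ℕ) (hP : ∀ p ∈ P, p.Prime) :
    ∑ u ∈ range (∏ p ∈ P, p), ∏ p ∈ P, G p (u % p) = ∏ p ∈ P, ∑ u ∈ range p, G p u := by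
  classical
  induction P using Finset.induction_on with
  | empty => simp
  | insert p P hp ih =>
    have hpp := hP p (mem_insert_self _ _)
    have hP' : ∀ q ∈ P, q.Prime := fun q hq => hP q (mem_insert_of_mem hq)
    have hpos : 0 < ∏ q ∈ P, q := Finset.prod_pos fun q hq => (hP' q hq).pos
    have hcop : Nat.Coprime p (∏ q ∈ P, q) := by
      refine Nat.Coprime.prod_right fun q hq => ?_
      refine (Nat.coprime_primes hpp (hP' q hq)).2 ?_
      rintro rfl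
      exact hp hq
    rw [Finset.prod_insert hp, Finset.prod_insert hp, ← ih hP', ← sum_crt hcop hpp.pos hpos]
    refine Finset.sum_congr rfl fun u _ => ?_
    rw [Finset.prod_insert hp]
    congr 1
    refine Finset.prod_congr rfl fun q hq => ?_
    rw [Nat.mod_mod_of_dvd u (Finset.dvd_prod_of_mem _ hq)]

/-! ### The symbols -/

theorem jac_prod {P : Finset ℕ} (hP : ∀ p ∈ P, p.Prime) (x : ℤ) :
    jacobiSym x (∏ p ∈ P, p) = ∏ p ∈ P, jacobiSym x p := by
  classical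
  induction P using Finset.induction_on with
  | empty => simp
  | insert p P hp ih =>
    have h1 : (∏ q ∈ P, q) ≠ 0 := Finset.prod_ne_zero_iff.2 fun q hq =>
      (hP q (mem_insert_of_mem hq)).ne_zero
    rw [Finset.prod_insert hp, jacobiSym.mul_right' _ (hP p (mem_insert_self _ _)).ne_zero h1,
      Finset.prod_insert hp, ih fun q hq => hP q (mem_insert_of_mem hq)]

theorem prod_dvd_iff {P : Finset ℕ} (hP : ∀ p ∈ P, p.Prime) (x : ℤ) :
    ((∏ p ∈ P, p : ℕ) : ℤ) ∣ x ↔ ∀ p ∈ P, (p : ℤ) ∣ x := by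
  constructor
  · intro h p hp
    exact (Int.natCast_dvd_natCast.2 (Finset.dvd_prod_of_mem (fun p => p) hp)).trans h
  · intro h
    rw [Int.natCast_dvd]
    exact Finset.prod_primes_dvd x.natAbs (fun p hp => (hP p hp).prime)
      fun p hp => Int.natCast_dvd.1 (h p hp)

theorem jacz {x : ℤ} {p : ℕ} (hp : p.Prime) (h : (p : ℤ) ∣ x) : jacobiSym x p = 0 := by
  have h1 : jacobiSym x p = jacobiSym 0 p := jac_congr (by rwa [sub_zero])
  rw [h1, jacobiSym.zero_left hp.one_lt]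

theorem jacsq {x : ℤ} {p : ℕ} (hp : p.Prime) (h : ¬ (p : ℤ) ∣ x) :
    jacobiSym x p * jacobiSym x p = 1 := by
  have h1 : jacobiSym x p = 1 ∨ jacobiSym x p = -1 := by
    apply jacobiSym.eq_one_or_neg_one
    rw [Int.gcd_comm, ← Int.isCoprime_iff_gcd_eq_one]
    exact (Prime.coprime_iff_not_dvd (Nat.prime_iff_prime_int.1 hp)).2 h
  rcases h1 with h1 | h1 <;> rw [h1] <;> norm_num

/-- the sum of all the symbols vanishes -/
theorem sum_jac {p : ℕ} (hp : p.Prime) (p2 : p ≠ 2) : ∑ u ∈ range p, jacobiSym (u : ℤ) p = 0 := by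
  have : Fact p.Prime := ⟨hp⟩
  have h1 : ∑ x : ZMod p, quadraticChar (ZMod p) x = 0 :=
    quadraticChar_sum_zero (by rwa [ZMod.ringChar_zmod_n])
  rw [← h1]
  refine Finset.sum_bij (fun u _ => (u : ZMod p)) (fun u _ => mem_univ _) ?_ ?_ ?_
  · intro u hu v hv huv
    have h2 := congrArg ZMod.val huv
    rwa [ZMod.val_natCast_of_lt (mem_range.1 hu), ZMod.val_natCast_of_lt (mem_range.1 hv)] at h2
  · intro x _
    exact ⟨x.val, mem_range.2 (ZMod.val_lt x), ZMod.natCast_zmod_val x⟩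
  · intro u _
    rw [← jacobiSym.legendreSym.to_jacobiSym, legendreSym]
    push_cast
    rfl


/-! ### The local sums -/

section

variable (a a' X Y : ℕ)

open Classical in
/-- the local summand -/
noncomputable def G (p u : ℕ) : ℤ :=
  if (p : ℤ) ∣ (a : ℤ) * (u : ℤ) - (X : ℤ) ∧ (p : ℤ) ∣ (a' : ℤ) * (u : ℤ) + (Y : ℤ)
    then jacobiSym (u : ℤ) p else 0

theorem G_mod (p u : ℕ) : G a a' X Y p (u % p) = G a a' X Y p u := by
  have h0 : (p : ℤ) ∣ ((u % p : ℕ) : ℤ) - (u : ℤ) := by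
    have h := Nat.div_add_mod u p
    refine ⟨-((u / p : ℕ) : ℤ), ?_⟩
    have h1 : (u : ℤ) = p * ((u / p : ℕ) : ℤ) + ((u % p : ℕ) : ℤ) := by exact_mod_cast h.symm
    rw [h1]
    ring
  unfold G
  have e1 : (p : ℤ) ∣ (a : ℤ) * ((u % p : ℕ) : ℤ) - (X : ℤ) ↔
      (p : ℤ) ∣ (a : ℤ) * (u : ℤ) - (X : ℤ) := by
    have : (a : ℤ) * ((u % p : ℕ) : ℤ) - (X : ℤ) = a * (((u % p : ℕ) : ℤ) - (u : ℤ)) +
      ((a : ℤ) * (u : ℤ) - (X : ℤ)) := by ring
    rw [this]
    exact (Int.dvd_add_right (h0.mul_left _))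
  have e2 : (p : ℤ) ∣ (a' : ℤ) * ((u % p : ℕ) : ℤ) + (Y : ℤ) ↔
      (p : ℤ) ∣ (a' : ℤ) * (u : ℤ) + (Y : ℤ) := by
    have : (a' : ℤ) * ((u % p : ℕ) : ℤ) + (Y : ℤ) = a' * (((u % p : ℕ) : ℤ) - (u : ℤ)) +
      ((a' : ℤ) * (u : ℤ) + (Y : ℤ)) := by ring
    rw [this]
    exact (Int.dvd_add_right (h0.mul_left _))
  rw [jac_congr h0]
  simp only [e1, e2]

/-- a linear congruence has one solution -/
theorem single {p x : ℕ} (hp : p.Prime) (h : ¬ p ∣ x) (z : ℤ) :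
    ∃ u ∈ range p, (p : ℤ) ∣ x * (u : ℤ) - z ∧ ∀ v ∈ range p, (p : ℤ) ∣ x * (v : ℤ) - z → v = u := by
  have : Fact p.Prime := ⟨hp⟩
  have hx : (x : ZMod p) ≠ 0 := by
    rw [Ne, ZMod.natCast_eq_zero_iff]
    exact h
  refine ⟨((z : ZMod p) / x).val, mem_range.2 (ZMod.val_lt _), ?_, ?_⟩
  · rw [← ZMod.intCast_zmod_eq_zero_iff_dvd]
    push_cast
    rw [ZMod.natCast_zmod_val]
    field_simp
    ring
  · intro v hv hvz
    rw [← ZMod.intCast_zmod_eq_zero_iff_dvd] at hvz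
    push_cast at hvz
    have h1 : (v : ZMod p) = (z : ZMod p) / x := by
      rw [eq_div_iff hx]
      linear_combination hvz
    rw [← h1, ZMod.val_natCast_of_lt (mem_range.1 hv)]


theorem local_sum {p : ℕ} (hp : p.Prime) (p2 : p ≠ 2) (h3 : p ∣ a * Y + a' * X) :
    ∑ u ∈ range p, G a a' X Y p u = w2 p a a' X Y := by
  have hpp := Nat.prime_iff_prime_int.1 hp
  have h3z : (p : ℤ) ∣ (a : ℤ) * Y + a' * X := by exact_mod_cast h3
  unfold Pool.Agent.NH2.w2
  by_cases ha : p ∣ a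
  · have haz : (p : ℤ) ∣ (a : ℤ) := by exact_mod_cast ha
    by_cases hX : p ∣ X
    · have hXz : (p : ℤ) ∣ (X : ℤ) := by exact_mod_cast hX
      rw [if_pos ⟨ha, hX⟩]
      have e1 : ∀ u : ℕ, (p : ℤ) ∣ (a : ℤ) * (u : ℤ) - (X : ℤ) := fun u =>
        dvd_sub (haz.mul_right _) hXz
      by_cases ha' : p ∣ a'
      · have haz' : (p : ℤ) ∣ (a' : ℤ) := by exact_mod_cast ha'
        have e2 : jacobiSym (-((a' * Y : ℕ) : ℤ)) p = 0 :=
          jacz hp (by push_cast; exact (haz'.mul_right _).neg_right)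
        rw [e2]
        by_cases hY : p ∣ Y
        · have hYz : (p : ℤ) ∣ (Y : ℤ) := by exact_mod_cast hY
          rw [← sum_jac hp p2]
          refine Finset.sum_congr rfl fun u _ => ?_
          rw [G, if_pos ⟨e1 u, dvd_add (haz'.mul_right _) hYz⟩]
        · refine Finset.sum_eq_zero fun u _ => ?_
          rw [G, if_neg]
          rintro ⟨-, h⟩
          apply hY
          have h4 : (p : ℤ) ∣ (Y : ℤ) := (Int.dvd_add_right (haz'.mul_right (u : ℤ))).1 h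
          exact_mod_cast h4
      · obtain ⟨u, hu, hu1, hu2⟩ := single hp ha' (-(Y : ℤ))
        rw [sub_neg_eq_add] at hu1
        rw [Finset.sum_eq_single u]
        · rw [G, if_pos ⟨e1 u, hu1⟩]
          have haz' : ¬ (p : ℤ) ∣ (a' : ℤ) := by exact_mod_cast ha'
          have h8 : (p : ℤ) ∣ (-((a' * Y : ℕ) : ℤ)) - a' * a' * u := by
            have : (-((a' * Y : ℕ) : ℤ)) - a' * a' * u = -(a' * (a' * u + Y)) := by push_cast; ring
            rw [this]
            exact (Dvd.dvd.mul_left hu1 _).neg_right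
          rw [jac_congr h8, jacobiSym.mul_left, jacobiSym.mul_left, jacsq hp haz', one_mul]
        · intro v hv hvu
          rw [G, if_neg]
          rintro ⟨-, h⟩
          apply hvu
          apply hu2 v hv
          rwa [sub_neg_eq_add]
        · intro h
          exact absurd hu h
    · rw [if_neg (fun h => hX h.2)]
      have e2 : jacobiSym ((a * X : ℕ) : ℤ) p = 0 :=
        jacz hp (by push_cast; exact haz.mul_right _)
      rw [e2]
      refine Finset.sum_eq_zero fun u _ => ?_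
      rw [G, if_neg]
      rintro ⟨h, -⟩
      apply hX
      have h4 : (p : ℤ) ∣ (X : ℤ) := by
        have := dvd_sub (haz.mul_right (u : ℤ)) h
        rwa [sub_sub_cancel] at this
      exact_mod_cast h4
  · rw [if_neg (fun h => ha h.1)]
    have haz : ¬ (p : ℤ) ∣ (a : ℤ) := by exact_mod_cast ha
    obtain ⟨u, hu, hu1, hu2⟩ := single hp ha (X : ℤ)
    rw [Finset.sum_eq_single u]
    · have h7 : (p : ℤ) ∣ (a' : ℤ) * u + Y := by
        have h8 : (p : ℤ) ∣ a * ((a' : ℤ) * u + Y) := by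
          have : (a : ℤ) * ((a' : ℤ) * u + Y) = a' * (a * u - X) + (a * Y + a' * X) := by ring
          rw [this]
          exact dvd_add (hu1.mul_left _) h3z
        rcases hpp.dvd_or_dvd h8 with h9 | h9
        · exact absurd h9 haz
        · exact h9
      rw [G, if_pos ⟨hu1, h7⟩]
      have h8 : (p : ℤ) ∣ ((a * X : ℕ) : ℤ) - a * a * u := by
        have : ((a * X : ℕ) : ℤ) - a * a * u = -(a * (a * u - X)) := by push_cast; ring
        rw [this]
        exact (Dvd.dvd.mul_left hu1 _).neg_right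
      rw [jac_congr h8, jacobiSym.mul_left, jacobiSym.mul_left, jacsq hp haz, one_mul]
    · intro v hv hvu
      rw [G, if_neg]
      rintro ⟨h, -⟩
      exact hvu (hu2 v hv h)
    · intro h
      exact absurd hu h

end

/-- the character sum over the cusps -/
theorem c1b {m : ℕ} (hsq : Squarefree m) (hodd : Odd m) (a a' X Y : ℕ) (hdet : a * Y + a' * X = m) :
    ∑ u ∈ (un m).filter (fun u : ℕ => (m : ℤ) ∣ (a : ℤ) * (u : ℤ) - (X : ℤ) ∧
      (m : ℤ) ∣ (a' : ℤ) * (u : ℤ) + (Y : ℤ)), jacobiSym u m =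
      ∏ p ∈ m.primeFactors, w2 p a a' X Y := by
  classical
  have hm : 0 < m := Nat.pos_of_ne_zero hsq.ne_zero
  have hP : ∀ p ∈ m.primeFactors, p.Prime := fun p hp => Nat.prime_of_mem_primeFactors hp
  have hprod : ∏ p ∈ m.primeFactors, p = m := Nat.prod_primeFactors_of_squarefree hsq
  have h1 : ∀ p ∈ m.primeFactors, ∑ u ∈ range p, G a a' X Y p u = w2 p a a' X Y := by
    intro p hp
    have hpm := Nat.dvd_of_mem_primeFactors hp
    refine local_sum a a' X Y (hP p hp) ?_ ?_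
    · rintro rfl
      exact (Nat.not_even_iff_odd.2 hodd) (even_iff_two_dvd.2 hpm)
    · rw [hdet]
      exact hpm
  rw [← Finset.prod_congr rfl h1, ← sum_crt_prod (G a a' X Y) _ hP, hprod, Finset.sum_filter]
  have h2 : ∀ u : ℕ, ∏ p ∈ m.primeFactors, G a a' X Y p (u % p) =
      if (m : ℤ) ∣ (a : ℤ) * (u : ℤ) - (X : ℤ) ∧ (m : ℤ) ∣ (a' : ℤ) * (u : ℤ) + (Y : ℤ)
      then jacobiSym (u : ℤ) m else 0 := by
    intro u
    have h3 : ∀ p ∈ m.primeFactors, G a a' X Y p (u % p) = G a a' X Y p u := fun p _ =>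
      G_mod a a' X Y p u
    rw [Finset.prod_congr rfl h3]
    unfold G
    rw [Finset.prod_ite_zero]
    have h4 : (∀ p ∈ m.primeFactors, (p : ℤ) ∣ (a : ℤ) * (u : ℤ) - (X : ℤ) ∧
        (p : ℤ) ∣ (a' : ℤ) * (u : ℤ) + (Y : ℤ)) ↔
        ((m : ℤ) ∣ (a : ℤ) * (u : ℤ) - (X : ℤ) ∧ (m : ℤ) ∣ (a' : ℤ) * (u : ℤ) + (Y : ℤ)) := by
      have e1 := prod_dvd_iff hP ((a : ℤ) * (u : ℤ) - (X : ℤ))
      have e2 := prod_dvd_iff hP ((a' : ℤ) * (u : ℤ) + (Y : ℤ))
      rw [hprod] at e1 e2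
      rw [e1, e2]
      exact forall₂_and
    have h5 : ∏ p ∈ m.primeFactors, jacobiSym (u : ℤ) p = jacobiSym (u : ℤ) m := by
      rw [← jac_prod hP, hprod]
    rw [h5]
    simp only [h4]
  rw [un, Finset.sum_filter]
  refine Finset.sum_congr rfl fun u _ => ?_
  rw [h2]
  by_cases hc : Nat.Coprime u m
  · rw [if_pos hc]
  · rw [if_neg hc]
    have h3 : jacobiSym (u : ℤ) m = 0 := by
      have := NeZero.mk hm.ne'
      rw [jacobiSym.eq_zero_iff_not_coprime]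
      intro h
      exact hc (by simpa using h)
    rw [h3]
    simp

end Pool.Agent.XV.Card
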