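import Pool.Agent.XV.Defs2
import Pool.Agent.Y971.N.LVL2

/-!
# Task LVL of project XV: the crossing number of level three and five as a Dedekind sum
-/

set_option autoImplicit false

namespace Pool.Agent.XV.Lvl

open Finset
open Pool.Agent.Y687 (saw ded psi saw_congr saw_neg saw_nat ded_congr ded_neg ded_one ded_recip three
  psi_neg_neg)
open Pool.Agent.Y687.N (Cd)
open Pool.Agent.Y971.N (Adj toQ refl4 refl4_inj coprime_of_dvd saw_one Cd_congr)

/-! ### the sets of adjacent fractions -/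

/-- left denominator divisible by `l` -/
def SA (l : ℕ) (n x : ℤ) : Set (ℤ × ℤ × ℤ × ℤ) := {q | Adj n x q ∧ (l : ℤ) ∣ q.2.1}

/-- right denominator divisible by `l` -/
def SB (l : ℕ) (n x : ℤ) : Set (ℤ × ℤ × ℤ × ℤ) := {q | Adj n x q ∧ (l : ℤ) ∣ q.2.2.2}

lemma mem_Om {l n : ℕ} {T a a' : ℕ} : (⟨T, (a, a')⟩ : Σ _ : ℕ, ℕ × ℕ) ∈ Om l 1 n ↔
    T < n ∧ a ∣ n - T ∧ l ∣ a ∧ a' ∣ T ∧ T ≠ 0 := by
  unfold Om
  rw [mem_sigma, mem_range, mem_product, mem_filter, mem_filter, Nat.mem_divisors,
    Nat.mem_divisors]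
  constructor
  · rintro ⟨h1, ⟨⟨h2, -⟩, h3⟩, ⟨⟨h4, h5⟩, -⟩⟩
    exact ⟨h1, h2, h3, h4, h5⟩
  · rintro ⟨h1, h2, h3, h4, h5⟩
    refine ⟨h1, ⟨⟨h2, ?_⟩, h3⟩, ⟨⟨h4, h5⟩, one_dvd _⟩⟩
    change n - T ≠ 0
    omega

lemma SA_eq (l n : ℕ) (hn : 0 < n) (x : ℤ) :
    SA l n x = (((Om l 1 n).filter fun w => Cd n x w).image (toQ n x) : Finset (ℤ × ℤ × ℤ × ℤ)) := by
  have hn0 : (n : ℤ) ≠ 0 := by exact_mod_cast hn.ne'
  ext q
  rw [Finset.coe_image]
  constructor
  · rintro ⟨⟨ha, ha', hdet, hX, hY⟩, h2⟩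
    obtain ⟨c, a, c', a'⟩ := q
    simp only at ha ha' hdet hX hY h2
    obtain ⟨α, rfl⟩ := Int.eq_ofNat_of_zero_le ha.le
    obtain ⟨β, rfl⟩ := Int.eq_ofNat_of_zero_le ha'.le
    obtain ⟨X, hX'⟩ := Int.eq_ofNat_of_zero_le hX.le
    obtain ⟨Y, hY'⟩ := Int.eq_ofNat_of_zero_le hY.le
    rw [hX'] at hX
    rw [hY'] at hY
    have e : (α : ℤ) * Y + β * X = n := by
      rw [← hX', ← hY']
      linear_combination (n : ℤ) * hdet
    have e' : α * Y + β * X = n := by exact_mod_cast e
    have hα : 0 < α := by exact_mod_cast ha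
    have hβ : 0 < β := by exact_mod_cast ha'
    have hX0 : 0 < X := by exact_mod_cast hX
    have hY0 : 0 < Y := by exact_mod_cast hY
    have hαY : 0 < α * Y := Nat.mul_pos hα hY0
    have hβX : 0 < β * X := Nat.mul_pos hβ hX0
    have e1 : β * X / β = X := Nat.mul_div_cancel_left _ hβ
    have e2 : n - β * X = α * Y := by omega
    have e3 : (n - β * X) / α = Y := by rw [e2]; exact Nat.mul_div_cancel_left _ hα
    refine ⟨⟨β * X, (α, β)⟩, ?_, ?_⟩
    · rw [Finset.mem_coe, Finset.mem_filter, mem_Om]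
      refine ⟨⟨by omega, ?_, ?_, Dvd.intro _ rfl, by omega⟩, ?_, ?_⟩
      · rw [e2]
        exact Dvd.intro _ rfl
      · exact_mod_cast h2
      · simp only
        rw [e1]
        exact ⟨c, by linear_combination hX'⟩
      · simp only
        rw [e3]
        exact ⟨c', by linear_combination -hY'⟩
    · unfold toQ
      simp only
      rw [e1, e3, show (α : ℤ) * x - X = n * c by linear_combination hX',
        show (β : ℤ) * x + Y = n * c' by linear_combination -hY', Int.mul_ediv_cancel_left _ hn0,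
        Int.mul_ediv_cancel_left _ hn0]
  · rintro ⟨⟨T, a, a'⟩, hw, rfl⟩
    rw [Finset.mem_coe, Finset.mem_filter, mem_Om] at hw
    obtain ⟨⟨hT, ha, h2, ha', hT0⟩, ⟨c, hc⟩, ⟨c', hc'⟩⟩ := hw
    simp only at hc hc'
    have hα : 0 < a := by
      rcases Nat.eq_zero_or_pos a with h | h
      · rw [h, Nat.zero_dvd] at ha
        omega
      · exact h
    have hβ : 0 < a' := by
      rcases Nat.eq_zero_or_pos a' with h | h
      · rw [h, Nat.zero_dvd] at ha'
        omega
      · exact h
    obtain ⟨X, hX⟩ := ha'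
    obtain ⟨Y, hY⟩ := ha
    have e1 : T / a' = X := by rw [hX]; exact Nat.mul_div_cancel_left _ hβ
    have e2 : (n - T) / a = Y := by rw [hY]; exact Nat.mul_div_cancel_left _ hα
    have hX0 : 0 < X := by
      rcases Nat.eq_zero_or_pos X with h | h
      · rw [h, mul_zero] at hX
        omega
      · exact h
    have hY0 : 0 < Y := by
      rcases Nat.eq_zero_or_pos Y with h | h
      · rw [h, mul_zero] at hY
        omega
      · exact h
    have e : (a : ℤ) * Y + a' * X = n := by
      have : a * Y + a' * X = n := by omega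
      exact_mod_cast this
    rw [e1] at hc
    rw [e2] at hc'
    have hq : toQ n x ⟨T, (a, a')⟩ = (c, (a : ℤ), c', (a' : ℤ)) := by
      unfold toQ
      simp only
      rw [e1, e2, show (a : ℤ) * x - X = n * c by linear_combination hc,
        show (a' : ℤ) * x + Y = n * c' by linear_combination hc', Int.mul_ediv_cancel_left _ hn0,
        Int.mul_ediv_cancel_left _ hn0]
    rw [hq]
    refine ⟨⟨show (0 : ℤ) < (a : ℤ) by exact_mod_cast hα,
      show (0 : ℤ) < (a' : ℤ) by exact_mod_cast hβ, ?_, ?_, ?_⟩,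
      show (l : ℤ) ∣ (a : ℤ) by exact_mod_cast h2⟩
    · simp only
      apply mul_left_cancel₀ hn0
      linear_combination e - (a : ℤ) * hc' + (a' : ℤ) * hc
    · simp only
      have : (a : ℤ) * x - c * n = X := by linear_combination hc
      rw [this]
      exact_mod_cast hX0
    · simp only
      have : c' * (n : ℤ) - a' * x = Y := by linear_combination -hc'
      rw [this]
      exact_mod_cast hY0

lemma toQ_inj (l n : ℕ) (hn : 0 < n) (x : ℤ) :
    Set.InjOn (toQ n x) ((Om l 1 n).filter fun w => Cd n x w : Finset (Σ _ : ℕ, ℕ × ℕ)) := by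
  have hn0 : (n : ℤ) ≠ 0 := by exact_mod_cast hn.ne'
  rintro ⟨T, a, a'⟩ hw ⟨U, b, b'⟩ hv h
  rw [Finset.mem_coe, Finset.mem_filter, mem_Om] at hw hv
  obtain ⟨⟨hT, ha, h2, ha', hT0⟩, ⟨c, hc⟩, ⟨c', hc'⟩⟩ := hw
  obtain ⟨⟨hU, hb, h2', hb', hU0⟩, ⟨d, hd⟩, ⟨d', hd'⟩⟩ := hv
  simp only at hc hc' hd hd'
  unfold toQ at h
  simp only [Prod.mk.injEq] at h
  obtain ⟨h1, h3, h4, h5⟩ := h
  have h3' : a = b := by exact_mod_cast h3
  have h5' : a' = b' := by exact_mod_cast h5
  subst h3' h5'
  rw [hc, hd, Int.mul_ediv_cancel_left _ hn0, Int.mul_ediv_cancel_left _ hn0] at h1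
  subst h1
  have h6 : ((T / a' : ℕ) : ℤ) = ((U / a' : ℕ) : ℤ) := by linear_combination hd - hc
  have h7 : T / a' = U / a' := by exact_mod_cast h6
  have h8 : T = U := by
    rw [← Nat.mul_div_cancel' ha', ← Nat.mul_div_cancel' hb', h7]
  rw [h8]

lemma SA_card (l n : ℕ) (hn : 0 < n) (x : ℤ) :
    (SA l n x).Finite ∧ Nq l 1 n x = ((SA l n x).ncard : ℤ) := by
  rw [SA_eq l n hn x]
  refine ⟨Finset.finite_toSet _, ?_⟩
  rw [Set.ncard_coe_finset, Finset.card_image_of_injOn (toQ_inj l n hn x)]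
  rfl

lemma SB_eq (l : ℕ) (n x : ℤ) : SA l n (-x) = refl4 '' SB l n x := by
  ext q
  constructor
  · rintro ⟨⟨h1, h2, h3, h4, h5⟩, h6⟩
    obtain ⟨a, b, c, d⟩ := q
    simp only at h1 h2 h3 h4 h5 h6
    refine ⟨(-c, d, -a, b), ⟨⟨h2, h1, ?_, ?_, ?_⟩, h6⟩, ?_⟩
    · simp only
      linear_combination h3
    · simp only
      linarith
    · simp only
      linarith
    · unfold refl4
      simp
  · rintro ⟨⟨a, b, c, d⟩, ⟨⟨h1, h2, h3, h4, h5⟩, h6⟩, rfl⟩
    simp only at h1 h2 h3 h4 h5 h6
    refine ⟨⟨h2, h1, ?_, ?_, ?_⟩, h6⟩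
    · unfold refl4
      simp only
      linear_combination h3
    · unfold refl4
      simp only
      linarith
    · unfold refl4
      simp only
      linarith

lemma SB_card (l n : ℕ) (hn : 0 < n) (x : ℤ) :
    (SB l n x).Finite ∧ Nq l 1 n (-x) = ((SB l n x).ncard : ℤ) := by
  obtain ⟨h1, h2⟩ := SA_card l n hn (-x)
  rw [SB_eq] at h1 h2
  refine ⟨Set.Finite.of_finite_image h1 refl4_inj.injOn, ?_⟩
  rw [h2, Set.ncard_image_of_injective _ refl4_inj]

/-! ### the recursion of the left side -/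

/-- the parameters of a step -/
structure Par (l c d e n x m w : ℤ) : Prop where
  det : c * e - d * l = 1
  hc : 0 < c
  hcl : c < l
  he : 0 < e
  hm : l * x = c * n + m
  hw : e * x = d * n + w
  m0 : 0 < m
  x0 : 0 < x
  xn : x < n
  w0 : 0 < w

namespace Par

variable {l c d e n x m w : ℤ}

lemma lw (P : Par l c d e n x m w) : l * w = n + e * m := by
  linear_combination e * P.hm - l * P.hw + n * P.det

lemma cw (P : Par l c d e n x m w) : c * w = x + d * m := by
  linear_combination d * P.hm - c * P.hw + x * P.det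

lemma l0 (P : Par l c d e n x m w) : 0 < l := P.hc.trans P.hcl

lemma n0 (P : Par l c d e n x m w) : 0 < n := P.x0.trans P.xn

/-- the coefficient `e` is prime to `l` -/
lemma dvd_iff (P : Par l c d e n x m w) (u v : ℤ) : l ∣ -(l * u + e * v) ↔ l ∣ v := by
  constructor
  · rintro ⟨k, hk⟩
    refine ⟨-(c * k) - c * u - d * v, ?_⟩
    linear_combination (-c) * hk - v * P.det
  · rintro ⟨k, rfl⟩
    exact ⟨-(u + e * k), by ring⟩

end Par

/-- the map of the recursion -/
def Psi (c d l e : ℤ) (r : ℤ × ℤ × ℤ × ℤ) : ℤ × ℤ × ℤ × ℤ :=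
  (-(c * r.1 + d * r.2.1), -(l * r.1 + e * r.2.1), -(c * r.2.2.1 + d * r.2.2.2),
    -(l * r.2.2.1 + e * r.2.2.2))

lemma Psi_inj {l c d e : ℤ} (h : c * e - d * l = 1) : Function.Injective (Psi c d l e) := by
  rintro ⟨a, b, a', b'⟩ ⟨u, v, u', v'⟩ h1
  unfold Psi at h1
  simp only [Prod.mk.injEq, neg_inj] at h1
  obtain ⟨h1, h2, h3, h4⟩ := h1
  have e1 : a = u := by linear_combination e * h1 - d * h2 - (a - u) * h
  have e2 : b = v := by linear_combination c * h2 - l * h1 - (b - v) * h
  have e3 : a' = u' := by linear_combination e * h3 - d * h4 - (a' - u') * h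
  have e4 : b' = v' := by linear_combination c * h4 - l * h3 - (b' - v') * h
  rw [e1, e2, e3, e4]

lemma fwd {l c d e n x m w : ℤ} (P : Par l c d e n x m w) {q : ℤ × ℤ × ℤ × ℤ} (h : Adj n x q)
    (ht : l ∣ q.2.1 ∨ l ∣ q.2.2.2) :
    (q.1 = c ∧ q.2.1 = l) ∨ ∃ r, Adj m (-w) r ∧ Psi c d l e r = q := by
  obtain ⟨c1, a1, c2, a2⟩ := q
  obtain ⟨h1, h2, h3, h4, h5⟩ := h
  simp only at h1 h2 h3 h4 h5 ht
  have hl0 := P.l0
  have hn0 := P.n0
  have t0 : 0 < l * c2 - c * a2 := by
    have e1 : n * (l * c2 - c * a2) = l * (c2 * n - a2 * x) + a2 * m := by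
      linear_combination a2 * P.hm
    have e2 : 0 < n * (l * c2 - c * a2) := by
      rw [e1]
      have := mul_pos hl0 h5
      have := mul_pos h2 P.m0
      linarith
    exact (mul_pos_iff_of_pos_left hn0).mp e2
  rcases lt_trichotomy (c * a1 - l * c1) 0 with hs | hs | hs
  · right
    refine ⟨(d * a1 - e * c1, l * c1 - c * a1, d * a2 - e * c2, l * c2 - c * a2), ⟨?_, ?_, ?_, ?_, ?_⟩, ?_⟩
    · simp only
      linarith
    · simp only
      linarith
    · simp only
      linear_combination (c * e - d * l) * h3 + P.det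
    · simp only
      have : (l * c1 - c * a1) * (-w) - (d * a1 - e * c1) * m = a1 * x - c1 * n := by
        linear_combination (-c1) * P.lw + a1 * P.cw
      rw [this]
      exact h4
    · simp only
      have : (d * a2 - e * c2) * m - (l * c2 - c * a2) * (-w) = c2 * n - a2 * x := by
        linear_combination c2 * P.lw - a2 * P.cw
      rw [this]
      exact h5
    · unfold Psi
      simp only [Prod.mk.injEq]
      refine ⟨?_, ?_, ?_, ?_⟩
      · linear_combination c1 * P.det
      · linear_combination a1 * P.det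
      · linear_combination c2 * P.det
      · linear_combination a2 * P.det
  · left
    simp only
    have e1 : a1 * (l * c2 - c * a2) = l := by linear_combination l * h3 - a2 * hs
    have e2 : c1 * (l * c2 - c * a2) = c := by linear_combination c * h3 - c2 * hs
    have e3 : (l * c2 - c * a2) * (c1 * e - a1 * d) = 1 := by
      linear_combination e * e2 - d * e1 + P.det
    have e4 : l * c2 - c * a2 = 1 := Int.eq_one_of_mul_eq_one_right t0.le e3
    rw [e4, mul_one] at e1 e2
    exact ⟨e2, e1⟩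
  · exfalso
    have e1 : l = a1 * (l * c2 - c * a2) + a2 * (c * a1 - l * c1) := by
      linear_combination (-l) * h3
    have e2 : a1 ≤ a1 * (l * c2 - c * a2) := le_mul_of_one_le_right h1.le (by omega)
    have e3 : a2 ≤ a2 * (c * a1 - l * c1) := le_mul_of_one_le_right h2.le (by omega)
    rcases ht with h6 | h6
    · have := Int.le_of_dvd h1 h6
      omega
    · have := Int.le_of_dvd h2 h6
      omega

lemma bwd {l c d e n x m w : ℤ} (P : Par l c d e n x m w) {r : ℤ × ℤ × ℤ × ℤ} (h : Adj m (-w) r)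
    (ht : l ∣ r.2.1 ∨ l ∣ r.2.2.2) : Adj n x (Psi c d l e r) := by
  obtain ⟨c1, a1, c2, a2⟩ := r
  obtain ⟨h1, h2, h3, h4, h5⟩ := h
  simp only at h1 h2 h3 h4 h5 ht
  have hl0 := P.l0
  have hn0 := P.n0
  have hm0 := P.m0
  have s0 : 0 < -(l * c1 + e * a1) := by
    have e1 : m * (-(l * c1 + e * a1)) = l * (a1 * (-w) - c1 * m) + a1 * n := by
      linear_combination a1 * P.lw
    have e2 : 0 < m * (-(l * c1 + e * a1)) := by
      rw [e1]
      have := mul_pos hl0 h4
      have := mul_pos h1 hn0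
      linarith
    exact (mul_pos_iff_of_pos_left hm0).mp e2
  have e1 : l = a1 * (l * c2 + e * a2) + a2 * (-(l * c1 + e * a1)) := by
    linear_combination (-l) * h3
  have t0 : 0 < -(l * c2 + e * a2) := by
    rcases lt_trichotomy (l * c2 + e * a2) 0 with hs | hs | hs
    · omega
    · exfalso
      -- the neighbour is `∞`
      rw [hs, mul_zero, zero_add] at e1
      have e2 : (-(l * c1 + e * a1)) * (-(c * c2 + d * a2)) = 1 := by
        linear_combination (c * e - d * l) * h3 + P.det + (c * c1 + d * a1) * hs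
      have e3 : -(l * c1 + e * a1) = 1 := Int.eq_one_of_mul_eq_one_right s0.le e2
      have e4 : a1 = l * (-(c * c1 + d * a1)) - c := by
        linear_combination (-a1) * P.det + (-c) * e3
      have e5 : x - (-(c * c1 + d * a1)) * n = a1 * (-w) - c1 * m := by
        linear_combination (-c1) * P.hm + (-a1) * P.hw - x * e3
      rw [← e5] at h4
      have hx := P.xn
      have hcc := P.hc
      have e6 : 0 < -(c * c1 + d * a1) := by
        by_contra hcon
        push Not at hcon
        nlinarith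
      nlinarith
    · exfalso
      have e2 : a1 ≤ a1 * (l * c2 + e * a2) := le_mul_of_one_le_right h1.le (by omega)
      have e3 : a2 ≤ a2 * (-(l * c1 + e * a1)) := le_mul_of_one_le_right h2.le (by omega)
      rcases ht with h6 | h6
      · have := Int.le_of_dvd h1 h6
        omega
      · have := Int.le_of_dvd h2 h6
        omega
  refine ⟨s0, t0, ?_, ?_, ?_⟩
  · unfold Psi
    simp only
    linear_combination (c * e - d * l) * h3 + P.det
  · unfold Psi
    simp only
    have : -(l * c1 + e * a1) * x - -(c * c1 + d * a1) * n = a1 * (-w) - c1 * m := by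
      linear_combination (-c1) * P.hm + (-a1) * P.hw
    rw [this]
    exact h4
  · unfold Psi
    simp only
    have : -(c * c2 + d * a2) * n - -(l * c2 + e * a2) * x = c2 * m - a2 * (-w) := by
      linear_combination c2 * P.hm + a2 * P.hw
    rw [this]
    exact h5

/-- the additional pairs -/
def hh (l c d e : ℤ) (k : ℕ) : ℤ × ℤ × ℤ × ℤ := (c, l, (k + 1) * c - d, (k + 1) * l - e)

lemma hh_inj {l c d e : ℤ} (hc : 0 < c) : Function.Injective (hh l c d e) := by
  intro k j h
  unfold hh at h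
  simp only [Prod.mk.injEq] at h
  obtain ⟨-, -, h, -⟩ := h
  have h1 : ((k : ℤ) - j) * c = 0 := by linear_combination h
  rcases mul_eq_zero.mp h1 with h2 | h2
  · omega
  · omega

lemma SB_rec {l : ℕ} {c d e n x m w : ℤ} (P : Par l c d e n x m w) :
    SB l n x = Psi c d l e '' SB l m (-w) := by
  ext q
  constructor
  · rintro ⟨h, h2⟩
    rcases fwd P h (Or.inr h2) with ⟨h3, h4⟩ | ⟨r, hr, rfl⟩
    · exfalso
      obtain ⟨c1, a1, c2, a2⟩ := q
      obtain ⟨-, -, h5, -, -⟩ := h
      simp only at h2 h3 h4 h5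
      obtain ⟨k, rfl⟩ := h2
      subst h4
      have h6 : (l : ℤ) * (c2 - k * c1) = 1 := by linear_combination h5
      have h7 := Int.eq_one_of_mul_eq_one_right P.l0.le h6
      have h8 := P.hc
      have h9 := P.hcl
      omega
    · exact ⟨r, ⟨hr, (P.dvd_iff _ _).mp h2⟩, rfl⟩
  · rintro ⟨r, ⟨hr, h2⟩, rfl⟩
    exact ⟨bwd P hr (Or.inr h2), (P.dvd_iff _ _).mpr h2⟩

lemma SA_rec {l : ℕ} {c d e n x m w : ℤ} (P : Par l c d e n x m w) (K : ℕ)
    (hel : e < l) (hK : ∀ k : ℕ, ((k : ℤ) + 1) * m < w ↔ k < K) :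
    SA l n x = Psi c d l e '' SA l m (-w) ∪ hh l c d e '' (Finset.range K : Set ℕ) := by
  have hl0 := P.l0
  have he := P.he
  have hm0 := P.m0
  ext q
  constructor
  · rintro ⟨h, h2⟩
    rcases fwd P h (Or.inl h2) with ⟨h3, h4⟩ | ⟨r, hr, rfl⟩
    · right
      obtain ⟨c1, a1, c2, a2⟩ := q
      obtain ⟨-, h6, h5, -, h7⟩ := h
      simp only at h3 h4 h5 h6 h7
      subst h3 h4
      -- `(c2, a2) = k (c, l) - (d, e)`
      obtain ⟨k, hk⟩ : ∃ k : ℤ, k = e * c2 - d * a2 := ⟨_, rfl⟩
      have e1 : a2 = k * l - e := by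
        rw [hk]
        linear_combination (-a2) * P.det - e * h5
      have e2 : c2 = k * c1 - d := by
        rw [hk]
        linear_combination (-c2) * P.det - d * h5
      have hk0 : 0 < k := by
        by_contra hcon
        push Not at hcon
        have : k * l ≤ 0 := mul_nonpos_of_nonpos_of_nonneg hcon hl0.le
        omega
      obtain ⟨j, hj⟩ := Int.eq_ofNat_of_zero_le (show 0 ≤ k - 1 by omega)
      have hkj : k = j + 1 := by omega
      refine ⟨j, ?_, ?_⟩
      · rw [Finset.mem_coe, Finset.mem_range, ← hK]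
        have e3 : c2 * n - a2 * x = w - k * m := by
          rw [e1, e2]
          linear_combination (-k) * P.hm + P.hw
        rw [e3, hkj] at h7
        linarith
      · unfold hh
        rw [← hkj, ← e1, ← e2]
    · left
      exact ⟨r, ⟨hr, (P.dvd_iff _ _).mp h2⟩, rfl⟩
  · rintro (⟨r, ⟨hr, h2⟩, rfl⟩ | ⟨k, hk, rfl⟩)
    · exact ⟨bwd P hr (Or.inl h2), (P.dvd_iff _ _).mpr h2⟩
    · rw [Finset.mem_coe, Finset.mem_range, ← hK] at hk
      refine ⟨⟨hl0, ?_, ?_, ?_, ?_⟩, dvd_refl _⟩
      · unfold hh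
        simp only
        have : (0 : ℤ) ≤ k * l := by positivity
        linarith
      · unfold hh
        simp only
        linear_combination P.det
      · unfold hh
        simp only
        have : (l : ℤ) * x - c * n = m := by linear_combination P.hm
        rw [this]
        exact hm0
      · unfold hh
        simp only
        have : ((k + 1) * c - d) * n - ((k + 1) * (l : ℤ) - e) * x = w - (k + 1) * m := by
          linear_combination (-(k + 1 : ℤ)) * P.hm + P.hw
        rw [this]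
        linarith

/-- the crossing number -/
def F (l n : ℕ) (x : ℤ) : ℤ := Nq l 1 n (-x) - Nq l 1 n x

/-- the recursion of the left side -/
lemma F_rec {l n m : ℕ} {c d e x w : ℤ} (P : Par l c d e n x m w) (K : ℕ)
    (hel : e < l) (hK : ∀ k : ℕ, ((k : ℤ) + 1) * m < w ↔ k < K) :
    F l n x = - F l m w - K := by
  have hn : 0 < n := by exact_mod_cast P.n0
  have hm : 0 < m := by exact_mod_cast P.m0
  unfold F
  rw [(SB_card l n hn x).2, (SA_card l n hn x).2]
  have h1 := (SB_card l m hm (-w)).2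
  rw [neg_neg] at h1
  rw [h1, (SA_card l m hm (-w)).2]
  have hdisj : Disjoint (Psi c d l e '' SA l m (-w)) (hh l c d e '' (Finset.range K : Set ℕ)) := by
    rw [Set.disjoint_left]
    rintro _ ⟨⟨c1, a1, c2, a2⟩, ⟨⟨h2, -, -, -, -⟩, -⟩, rfl⟩ ⟨k, -, h3⟩
    unfold hh Psi at h3
    simp only [Prod.mk.injEq] at h2 h3
    obtain ⟨h4, h5, -, -⟩ := h3
    have : a1 = 0 := by linear_combination (-a1) * P.det + c * h5 - l * h4
    omega
  rw [SA_rec P K hel hK, SB_rec P, Set.ncard_image_of_injective _ (Psi_inj P.det),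
    Set.ncard_union_eq hdisj ((SA_card l m hm (-w)).1.image _) ((Finset.finite_toSet _).image _),
    Set.ncard_image_of_injective _ (Psi_inj P.det),
    Set.ncard_image_of_injective _ (hh_inj P.hc), Set.ncard_coe_finset, Finset.card_range]
  push_cast
  ring

/-! ### the right side -/

/-- the right side of the formula -/
noncomputable def R (l n : ℕ) (x y z : ℤ) : ℚ :=
  12 / ((l : ℚ) - 1) * (ded x n - ded (l * x) n) + saw n x - saw n (z * y)

/-- the parameters for a residue `c` of `l` -/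
lemma table {l c : ℕ} (hl : l = 3 ∨ l = 5) (h0 : 0 < c) (h1 : c < l) :
    ∃ e d : ℕ, 0 < e ∧ e < l ∧ c * e = d * l + 1 ∧
      12 * ded (c : ℤ) l = ((l : ℚ) - 1) * (1 - ((c : ℚ) + e) / l) := by
  rcases hl with rfl | rfl
  · interval_cases c
    · refine ⟨1, 0, by norm_num, by norm_num, by norm_num, ?_⟩
      unfold ded saw
      norm_num [sum_range_succ]
    · refine ⟨2, 1, by norm_num, by norm_num, by norm_num, ?_⟩
      unfold ded saw
      norm_num [sum_range_succ]
  · interval_cases c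
    · refine ⟨1, 0, by norm_num, by norm_num, by norm_num, ?_⟩
      unfold ded saw
      norm_num [sum_range_succ]
    · refine ⟨3, 1, by norm_num, by norm_num, by norm_num, ?_⟩
      unfold ded saw
      norm_num [sum_range_succ]
    · refine ⟨2, 1, by norm_num, by norm_num, by norm_num, ?_⟩
      unfold ded saw
      norm_num [sum_range_succ]
    · refine ⟨4, 3, by norm_num, by norm_num, by norm_num, ?_⟩
      unfold ded saw
      norm_num [sum_range_succ]

/-- the Dedekind sums -/
lemma ded_step {l n m : ℕ} {c d e x w : ℤ} (P : Par l c d e n x m w) (hcx : IsCoprime w (m : ℤ))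
    (hnm : IsCoprime (n : ℤ) (m : ℤ))
    (ht : 12 * ded c l = ((l : ℚ) - 1) * (1 - ((c : ℚ) + e) / l)) (hl1 : (1 : ℚ) < l) :
    12 / ((l : ℚ) - 1) * (ded x n - ded (l * x) n) + 12 / ((l : ℚ) - 1) * (ded w m - ded (l * w) m) =
      1 - (x : ℚ) / n - (w : ℚ) / m + 1 / ((n : ℚ) * m) := by
  have hn : 0 < n := by exact_mod_cast P.n0
  have hm : 0 < m := by exact_mod_cast P.m0
  have hl : 0 < l := by exact_mod_cast P.l0
  have hnQ : (n : ℚ) ≠ 0 := by exact_mod_cast hn.ne'
  have hmQ : (m : ℚ) ≠ 0 := by exact_mod_cast hm.ne'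
  have hlQ : (l : ℚ) ≠ 0 := by exact_mod_cast hl.ne'
  have hl1Q : (l : ℚ) - 1 ≠ 0 := by
    intro h
    linarith
  obtain ⟨κ, k1, k2⟩ := three l hl c d e P.det
  have e1 : (l : ℤ) * (-w) + e * m = -(n : ℤ) := by linear_combination -P.lw
  have e2 : c * (-w) + d * m = -x := by linear_combination -P.cw
  have k3 := k1 (-w) m hcx.neg_left (by exact_mod_cast hm.ne') (by
    rw [e1]
    exact neg_ne_zero.mpr (by exact_mod_cast hn.ne'))
  rw [e1, e2, psi_neg_neg (by exact_mod_cast hn.ne')] at k3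
  unfold psi at k2 k3
  have s1 : ((n : ℤ)).sign = 1 := Int.sign_eq_one_of_pos P.n0
  have s2 : ((m : ℤ)).sign = 1 := Int.sign_eq_one_of_pos P.m0
  have s3 : ((l : ℤ)).sign = 1 := Int.sign_eq_one_of_pos P.l0
  rw [s3, Int.natAbs_natCast] at k2
  rw [Int.sign_mul, Int.sign_neg, s1, s2, Int.natAbs_natCast, Int.natAbs_natCast, ded_neg hm] at k3
  have r := ded_recip hn hm (Nat.isCoprime_iff_coprime.mp hnm)
  have d1 : ded (l * x) n = ded (m : ℤ) n := ded_congr ⟨c, by linear_combination P.hm⟩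
  have d2 : ded (l * w) m = ded (n : ℤ) m := ded_congr ⟨e, by linear_combination P.lw⟩
  rw [d1, d2]
  have hmq : (l : ℚ) * x = c * n + m := by exact_mod_cast P.hm
  have hlw : (l : ℚ) * w = n + e * m := by exact_mod_cast P.lw
  push_cast at k2 k3
  have hx : (x : ℚ) = (c * n + m) / l := by
    rw [← hmq]
    field_simp
  have hw : (w : ℚ) = (n + e * m) / l := by
    rw [← hlw]
    field_simp
  rw [mul_one, ht] at k2
  have hκ : κ = ((c : ℚ) + e) / l - ((l : ℚ) - 1) * (1 - ((c : ℚ) + e) / l) := by linarith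
  have hS : 12 * (ded x n - ded (m : ℤ) n) + 12 * (ded w m - ded (n : ℤ) m) =
      ((l : ℚ) - 1) * (1 - (x : ℚ) / n - (w : ℚ) / m + 1 / ((n : ℚ) * m)) := by
    have h1 : 12 * (ded x n - ded (m : ℤ) n) + 12 * (ded w m - ded (n : ℤ) m) =
        ((-(x : ℚ)) / (-n) - (-w) / m - l / (m * (-n)) + 3 * (1 * (-1)) - κ)
          - (-3 + (n : ℚ) / m + (m : ℚ) / n + 1 / (n * m)) := by
      linear_combination k3 - r
    rw [h1, hκ, hx, hw]
    field_simp
    ring
  have h2 : 12 / ((l : ℚ) - 1) * (ded x n - ded (m : ℤ) n) +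
      12 / ((l : ℚ) - 1) * (ded w m - ded (n : ℤ) m) =
      (12 * (ded x n - ded (m : ℤ) n) + 12 * (ded w m - ded (n : ℤ) m)) / ((l : ℚ) - 1) := by ring
  rw [h2, hS]
  field_simp

/-- the sawtooth terms at the inverses -/
lemma inv_step {n m : ℕ} (hn1 : 1 < n) (hm1 : 1 < m) (hmn : m < n) (hcop : Nat.Coprime m n)
    {u v : ℤ} (hu : (n : ℤ) ∣ m * u - 1) (hv : (m : ℤ) ∣ n * v - 1) :
    saw n u + saw m v = 1 / ((n : ℚ) * m) := by
  obtain ⟨s, hs0, hsn, j, hj⟩ : ∃ s : ℕ, 0 < s ∧ s < n ∧ ∃ j : ℕ, m * s = 1 + n * j := by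
    obtain ⟨u, hu⟩ := Nat.exists_mul_mod_eq_one_of_coprime hcop hn1
    refine ⟨u % n, ?_, Nat.mod_lt _ (by omega), m * (u % n) / n, ?_⟩
    · rcases Nat.eq_zero_or_pos (u % n) with h | h
      · rw [Nat.mul_mod, h, mul_zero, Nat.zero_mod] at hu
        omega
      · exact h
    · have h1 : m * (u % n) % n = 1 := by rw [Nat.mul_mod, Nat.mod_mod, ← Nat.mul_mod]; exact hu.2
      have h2 := Nat.mod_add_div (m * (u % n)) n
      rw [h1] at h2
      exact h2.symm
  have hjm : j < m := by
    by_contra h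
    push Not at h
    have h1 : m * s < m * n := Nat.mul_lt_mul_of_pos_left hsn (by omega)
    have h2 : n * m ≤ n * j := Nat.mul_le_mul_left n h
    nlinarith
  have hj0 : 0 < j := by
    rcases Nat.eq_zero_or_pos j with h | h
    · rw [h, mul_zero, add_zero] at hj
      have := Nat.eq_one_of_mul_eq_one_right hj
      omega
    · exact h
  have hjZ : (m : ℤ) * s = 1 + n * j := by exact_mod_cast hj
  have hcz : IsCoprime (n : ℤ) (m : ℤ) := Nat.isCoprime_iff_coprime.mpr hcop.symm
  have e1 : saw n u = saw n (s : ℤ) := by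
    apply saw_congr
    apply hcz.dvd_of_dvd_mul_left
    obtain ⟨k, hk⟩ := hu
    refine ⟨k - j, ?_⟩
    linear_combination hk - hjZ
  have e2 : saw m v = saw m (-(j : ℤ)) := by
    apply saw_congr
    apply hcz.symm.dvd_of_dvd_mul_left
    obtain ⟨k, hk⟩ := hv
    refine ⟨k + s, ?_⟩
    linear_combination hk - hjZ
  rw [e1, e2, saw_neg (by omega), saw_nat hs0 hsn, saw_nat (by omega) (by omega)]
  have hn0 : (n : ℚ) ≠ 0 := by exact_mod_cast (by omega : n ≠ 0)
  have hm0 : (m : ℚ) ≠ 0 := by exact_mod_cast (by omega : m ≠ 0)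
  have hjQ : (m : ℚ) * s = 1 + n * j := by exact_mod_cast hj
  field_simp
  linear_combination 2 * hjQ

/-- the recursion of the right side -/
lemma R_rec {l n m x w : ℕ} {c d e : ℤ} (P : Par l c d e n x m w)
    (ht : 12 * ded c l = ((l : ℚ) - 1) * (1 - ((c : ℚ) + e) / l)) (hl1 : 1 < l) (hmn : m < n)
    {y z y' z' : ℤ} (hy : (n : ℤ) ∣ x * y - 1) (hz : (n : ℤ) ∣ l * z - 1)
    (hy' : (m : ℤ) ∣ w * y' - 1) (hz' : (m : ℤ) ∣ l * z' - 1) :
    R l n x y z + R l m w y' z' = -((if m = 1 then w - 1 else w / m : ℕ) : ℚ) := by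
  have hn : 0 < n := by exact_mod_cast P.n0
  have hm : 0 < m := by exact_mod_cast P.m0
  have hx : 0 < x := by exact_mod_cast P.x0
  have hw : 0 < w := by exact_mod_cast P.w0
  have hxn : x < n := by exact_mod_cast P.xn
  have hnQ : (n : ℚ) ≠ 0 := by exact_mod_cast hn.ne'
  have hmQ : (m : ℚ) ≠ 0 := by exact_mod_cast hm.ne'
  have hcw : IsCoprime (w : ℤ) (m : ℤ) := coprime_of_dvd hy'
  have hcl : IsCoprime (l : ℤ) (m : ℤ) := coprime_of_dvd hz'
  -- `n = l w` modulo `m`
  have hnm : IsCoprime (n : ℤ) (m : ℤ) := by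
    have h1 : IsCoprime ((l : ℤ) * w) (m : ℤ) := hcl.mul_left hcw
    rw [P.lw] at h1
    obtain ⟨a, b, hab⟩ := h1
    exact ⟨a, a * e + b, by linear_combination hab⟩
  have hD := ded_step P (by exact_mod_cast hcw) hnm ht (by exact_mod_cast hl1)
  have hs1 : saw n (x : ℤ) = (x : ℚ) / n - 1 / 2 := saw_nat hx hxn
  have hu : (n : ℤ) ∣ m * (z * y) - 1 := by
    obtain ⟨a, ha⟩ := hy
    obtain ⟨b, hb⟩ := hz
    have hmx := P.hm
    refine ⟨a * l * z + b - c * z * y, ?_⟩
    linear_combination (l * z : ℤ) * ha + hb - (z * y) * hmx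
  unfold R
  by_cases hm1 : m = 1
  · subst hm1
    rw [if_pos rfl]
    have hsz : ∀ u, saw 1 u = 0 := saw_one
    rw [hsz, hsz]
    have e1 : saw n (z * y) = 1 / n - 1 / 2 := by
      have h0 : saw n (z * y) = saw n ((1 : ℕ) : ℤ) := by
        apply saw_congr
        push_cast at hu ⊢
        rwa [one_mul] at hu
      rw [h0, saw_nat one_pos (by omega)]
      push_cast
      ring
    rw [e1, hs1, Nat.cast_sub (by omega)]
    push_cast at hD ⊢
    linear_combination hD
  · rw [if_neg hm1]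
    have hv : (m : ℤ) ∣ n * (z' * y') - 1 := by
      obtain ⟨a, ha⟩ := hy'
      obtain ⟨b, hb⟩ := hz'
      have hlw := P.lw
      refine ⟨a * l * z' + b - e * z' * y', ?_⟩
      linear_combination (l * z' : ℤ) * ha + hb - (z' * y') * hlw
    have h1 := inv_step (by omega) (by omega) hmn
      (Nat.isCoprime_iff_coprime.mp hnm).symm hu hv
    have hs2 : saw m (w : ℤ) = (w : ℚ) / m - ((w / m : ℕ) : ℚ) - 1 / 2 := by
      have h2 := Nat.mod_add_div w m
      have h3 : 0 < w % m := by
        rcases Nat.eq_zero_or_pos (w % m) with h | h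
        · have h4 : m ∣ w := Nat.dvd_of_mod_eq_zero h
          have h5 := Nat.dvd_gcd h4 dvd_rfl
          rw [Nat.isCoprime_iff_coprime.mp hcw] at h5
          have := Nat.dvd_one.mp h5
          omega
        · exact h
      have h4 : saw m (w : ℤ) = saw m ((w % m : ℕ) : ℤ) := by
        apply saw_congr
        refine ⟨(w / m : ℕ), ?_⟩
        have : (w : ℤ) = (w % m : ℕ) + m * (w / m : ℕ) := by exact_mod_cast h2.symm
        linear_combination this
      rw [h4, saw_nat h3 (Nat.mod_lt _ hm)]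
      have h5 : (w : ℚ) = (w % m : ℕ) + m * (w / m : ℕ) := by exact_mod_cast h2.symm
      have h6 : (w : ℚ) / m = ((w % m : ℕ) : ℚ) / m + (w / m : ℕ) := by
        rw [eq_div_of_mul_eq hmQ (show ((((w % m : ℕ) : ℚ) / m + (w / m : ℕ)) * m = w) by
          rw [add_mul, div_mul_cancel₀ _ hmQ, h5]
          push_cast
          ring)]
      rw [h6]
      ring
    rw [hs1, hs2]
    push_cast at hD ⊢
    linear_combination hD - h1

/-! ### the theorem -/

lemma F_congr {l n : ℕ} {x x' : ℤ} (h : (n : ℤ) ∣ x - x') : F l n x = F l n x' := by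
  have hN : ∀ {x x' : ℤ}, (n : ℤ) ∣ x - x' → Nq l 1 n x = Nq l 1 n x' := by
    intro x x' h
    unfold Nq
    rw [Finset.filter_congr (fun w _ => Cd_congr h w)]
  unfold F
  rw [hN h, hN (x := -x) (x' := -x') (by
    obtain ⟨k, hk⟩ := h
    exact ⟨-k, by linear_combination -hk⟩)]

lemma F_neg (l n : ℕ) (x : ℤ) : F l n (-x) = -F l n x := by
  unfold F
  rw [neg_neg]
  ring

lemma R_congr {l n : ℕ} {x x' : ℤ} (y z : ℤ) (h : (n : ℤ) ∣ x - x') :
    R l n x y z = R l n x' y z := by
  unfold R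
  rw [ded_congr h, ded_congr (h := l * x) (h' := l * x') (by rw [← mul_sub]; exact h.mul_left _),
    saw_congr h]

lemma R_neg {l n : ℕ} (hn : 0 < n) (x y z : ℤ) : R l n (-x) (-y) z = -R l n x y z := by
  unfold R
  rw [mul_neg, mul_neg, ded_neg hn, ded_neg hn, saw_neg hn, saw_neg hn]
  ring

theorem main (l : ℕ) (hl : l = 3 ∨ l = 5) (n : ℕ) : ∀ x y z : ℤ, 0 < n → Nat.Coprime n l →
    (n : ℤ) ∣ x * y - 1 → (n : ℤ) ∣ l * z - 1 → (F l n x : ℚ) = R l n x y z := by
  induction n using Nat.strong_induction_on with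
  | _ n ih =>
    have hl1 : 1 < l := by rcases hl with rfl | rfl <;> norm_num
    have hlZ : (1 : ℤ) < l := by exact_mod_cast hl1
    -- the case `n < l x`
    have core : ∀ (x : ℕ) (y z : ℤ), 0 < x → x < n → n < l * x → Nat.Coprime n l →
        (n : ℤ) ∣ x * y - 1 → (n : ℤ) ∣ l * z - 1 → (F l n x : ℚ) = R l n x y z := by
      intro x y z hx hxn hlx hnl hy hz
      have hn0 : 0 < n := by omega
      have hdm := Nat.mod_add_div (l * x) n
      set m : ℕ := l * x % n with hmdef
      set c : ℕ := l * x / n with hcdef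
      have hmn : m < n := Nat.mod_lt _ hn0
      have hc0 : 0 < c := Nat.div_pos hlx.le hn0
      have hcl : c < l := by
        rw [hcdef, Nat.div_lt_iff_lt_mul hn0]
        exact Nat.mul_lt_mul_of_pos_left hxn (by omega)
      have hm0 : 0 < m := by
        rcases Nat.eq_zero_or_pos m with h | h
        · exfalso
          rw [h, zero_add] at hdm
          have h1 : n ∣ l * x := Dvd.intro _ hdm
          have h2 : n ∣ x := hnl.dvd_of_dvd_mul_left h1
          have := Nat.le_of_dvd hx h2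
          omega
        · exact h
      obtain ⟨e, d, he0, hel, hdet, ht⟩ := table hl hc0 hcl
      have hdmZ : (m : ℤ) + n * c = l * x := by exact_mod_cast hdm
      have hdetZ : (c : ℤ) * e = d * l + 1 := by exact_mod_cast hdet
      have hw0 : 0 < (e : ℤ) * x - d * n := by
        have h1 : (l : ℤ) * (e * x - d * n) = n + e * m := by
          linear_combination (-(e : ℤ)) * hdmZ + n * hdetZ
        have h2 : 0 < (l : ℤ) * (e * x - d * n) := by
          rw [h1]
          positivity
        exact (mul_pos_iff_of_pos_left (by omega)).mp h2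
      obtain ⟨w, hw⟩ := Int.eq_ofNat_of_zero_le hw0.le
      have P : Par l c d e n x m w := by
        refine ⟨by linear_combination hdetZ, by exact_mod_cast hc0, by exact_mod_cast hcl,
          by exact_mod_cast he0, by linear_combination -hdmZ, by linear_combination hw,
          by exact_mod_cast hm0, by exact_mod_cast hx, by exact_mod_cast hxn, ?_⟩
        rw [← hw]
        exact hw0
      have hcx : IsCoprime (x : ℤ) (n : ℤ) := coprime_of_dvd hy
      have hcm : IsCoprime (w : ℤ) (m : ℤ) := by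
        obtain ⟨a, b, hab⟩ := hcx
        refine ⟨a * c + b * l, -(a * d) - b * e, ?_⟩
        linear_combination hab + a * P.cw + b * P.lw
      have hlm : IsCoprime (l : ℤ) (m : ℤ) := by
        have h1 : IsCoprime (c : ℤ) (l : ℤ) := ⟨e, -d, by linear_combination hdetZ⟩
        have h2 : IsCoprime (n : ℤ) (l : ℤ) := Nat.isCoprime_iff_coprime.mpr hnl
        have h3 : IsCoprime ((c : ℤ) * n) (l : ℤ) := h1.mul_left h2
        obtain ⟨a, b, hab⟩ := h3
        refine ⟨a * x + b, -a, ?_⟩
        linear_combination hab - a * hdmZ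
      obtain ⟨y', b1, hb1⟩ := hcm
      obtain ⟨z', b2, hb2⟩ := hlm
      have hy' : (m : ℤ) ∣ w * y' - 1 := ⟨-b1, by linear_combination hb1⟩
      have hz' : (m : ℤ) ∣ l * z' - 1 := ⟨-b2, by linear_combination hb2⟩
      have hcop : Nat.Coprime w m := Nat.isCoprime_iff_coprime.mp ⟨y', b1, hb1⟩
      have hK : ∀ k : ℕ, ((k : ℤ) + 1) * m < w ↔ k < (if m = 1 then w - 1 else w / m) := by
        intro k
        have h0 : ((k : ℤ) + 1) * m < w ↔ (k + 1) * m < w := by
          constructor <;> intro h <;> exact_mod_cast h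
        rw [h0]
        by_cases hm1 : m = 1
        · rw [if_pos hm1, hm1, mul_one]
          omega
        · rw [if_neg hm1, Nat.lt_iff_add_one_le (m := k), Nat.le_div_iff_mul_le hm0]
          constructor
          · intro h
            exact h.le
          · intro h
            apply lt_of_le_of_ne h
            intro h3
            have h4 : m ∣ w := ⟨k + 1, by rw [← h3]; ring⟩
            have h5 := Nat.dvd_gcd h4 dvd_rfl
            rw [hcop] at h5
            exact hm1 (Nat.dvd_one.mp h5)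
      have h1 := F_rec P _ (by exact_mod_cast hel) hK
      have h2 := R_rec P (by rw [Int.cast_natCast, Int.cast_natCast]; exact ht) hl1 hmn hy hz hy' hz'
      have h3 := ih m hmn w y' z' hm0
        (Nat.isCoprime_iff_coprime.mp (IsCoprime.symm ⟨z', b2, hb2⟩)) hy' hz'
      rw [h1, Int.cast_sub, Int.cast_neg, h3, Int.cast_natCast]
      linear_combination -h2
    intro x y z hn0 hnl hy hz
    have hnZ : (0 : ℤ) < n := by exact_mod_cast hn0
    by_cases hn1 : n = 1
    · subst hn1
      have h1 : Om l 1 1 = ∅ := by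
        rw [Finset.eq_empty_iff_forall_notMem]
        rintro ⟨T, a, a'⟩ hw
        rw [mem_Om] at hw
        omega
      have h2 : ∀ u, Nq l 1 1 u = 0 := by
        intro u
        unfold Nq
        rw [h1]
        rfl
      unfold F R
      rw [h2, h2, ded_one, ded_one, saw_one, saw_one]
      norm_num
    · -- reduce modulo `n`
      set x₀ : ℤ := x % n with hx₀
      have hx0 : 0 ≤ x₀ := Int.emod_nonneg _ hnZ.ne'
      have hxn : x₀ < n := Int.emod_lt_of_pos _ hnZ
      have hdiff : (n : ℤ) ∣ x - x₀ := Int.dvd_self_sub_emod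
      have hx0ne : x₀ ≠ 0 := by
        intro h
        rw [h, sub_zero] at hdiff
        have h1 : (n : ℤ) ∣ 1 := by
          have h2 := dvd_sub (hdiff.mul_right y) hy
          have h3 : x * y - (x * y - 1) = 1 := by ring
          rwa [h3] at h2
        have h4 := Int.le_of_dvd one_pos h1
        omega
      obtain ⟨ξ, hξ⟩ := Int.eq_ofNat_of_zero_le hx0
      rw [hξ] at hx0ne hxn hdiff
      have hξ0 : 0 < ξ := by omega
      have hlt : ξ < n := by omega
      rcases lt_or_ge n (l * ξ) with h | h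
      · rw [F_congr hdiff, R_congr _ _ hdiff]
        apply core ξ y z hξ0 hlt h hnl _ hz
        have h2 := dvd_sub hy (hdiff.mul_right y)
        have h3 : x * y - 1 - (x - ξ) * y = ξ * y - 1 := by ring
        rwa [h3] at h2
      · have hd2 : (n : ℤ) ∣ x - (-((n - ξ : ℕ) : ℤ)) := by
          obtain ⟨k, hk⟩ := hdiff
          rw [Nat.cast_sub hlt.le]
          exact ⟨k + 1, by linear_combination hk⟩
        have hbig : n < l * (n - ξ) := by
          obtain ⟨η, hη⟩ : ∃ η, n = ξ + η := ⟨n - ξ, by omega⟩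
          have e1 : n - ξ = η := by omega
          rw [e1]
          rcases hl with rfl | rfl <;> omega
        have h4 := R_congr (l := l) y z hd2
        rw [F_congr hd2, h4, F_neg]
        have h5 := R_neg (l := l) hn0 ((n - ξ : ℕ) : ℤ) (-y) z
        rw [neg_neg] at h5
        rw [h5, Int.cast_neg, core (n - ξ) (-y) z (by omega) (by omega) hbig hnl _ hz]
        have h2 := dvd_sub hy (hd2.mul_right y)
        have h3 : x * y - 1 - (x - (-((n - ξ : ℕ) : ℤ))) * y = ((n - ξ : ℕ) : ℤ) * (-y) - 1 := by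
          ring
        rwa [h3] at h2

end Pool.Agent.XV.Lvl

namespace Pool.Agent.XV

/-- **LVL.** -/
theorem t_LVL : S_LVL := fun l n hl hn hnl x y z hy hz => Lvl.main l hl n x y z hn hnl hy hz

end Pool.Agent.XV
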