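import Pool.Agent.XV.PCStm

/-!
# Project XV: the genus of `L q` has one class, and the number of the rotations (XV-14T)
-/

set_option autoImplicit false

namespace Pool.Agent.XV.PCT

open Finset Matrix
open Pool.Agent.Z700 (V3)

/-- rounding -/
theorem exists_round (u v : ℤ) (hv : 0 < v) : ∃ t : ℤ, -v ≤ 2 * (u - t * v) ∧ 2 * (u - t * v) ≤ v := by
  have h := Int.emod_add_mul_ediv (2 * u + v) (2 * v)
  have h2 := Int.emod_lt_of_pos (2 * u + v) (by linarith : 0 < 2 * v)
  have h1 := Int.emod_nonneg (2 * u + v) (by linarith : 2 * v ≠ 0)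
  generalize (2 * u + v) % (2 * v) = r at *
  generalize (2 * u + v) / (2 * v) = q at *
  exact ⟨q, by linarith, by linarith⟩

/-- the even form of determinant `2 q` -/
def fb (q : ℕ) (v w : V3) : ℤ :=
  if q = 5 then 4 * (v 0 * w 0) + 2 * (v 1 * w 1) + 2 * (v 2 * w 2) + (v 0 * w 1 + v 1 * w 0) -
    (v 0 * w 2 + v 2 * w 0) - (v 1 * w 2 + v 2 * w 1)
  else 2 * (v 0 * w 0) + 2 * (v 1 * w 1) + 2 * (v 2 * w 2) - (v 1 * w 2 + v 2 * w 1)

theorem fb_comm (q : ℕ) (v w : V3) : fb q v w = fb q w v := by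
  unfold fb
  split_ifs <;> ring

theorem fb_add (q : ℕ) (t : ℤ) (v w z : V3) : fb q v (w + t • z) = fb q v w + t * fb q v z := by
  unfold fb
  simp only [Pi.add_apply, Pi.smul_apply, smul_eq_mul]
  split_ifs <;> ring

/-- vectors with a given Gram matrix -/
def Rp (q : ℕ) (a b c d e f : ℤ) : Prop := ∃ v w z : V3,
  fb q v v = a ∧ fb q v w = b ∧ fb q v z = c ∧ fb q w w = d ∧ fb q w z = e ∧ fb q z z = f

theorem fb_add2 (q : ℕ) (t : ℤ) (v w z : V3) : fb q (w + t • z) v = fb q w v + t * fb q z v := by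
  rw [fb_comm, fb_add, fb_comm q v w, fb_comm q v z]

theorem Rp.shear12 {q : ℕ} {a b c d e f : ℤ} (t : ℤ)
    (h : Rp q a (b - t * a) c (d - 2 * t * b + t ^ 2 * a) (e - t * c) f) : Rp q a b c d e f := by
  obtain ⟨v, w, z, h1, h2, h3, h4, h5, h6⟩ := h
  refine ⟨v, w + t • v, z, h1, ?_, h3, ?_, ?_, h6⟩
  · rw [fb_add, h1, h2]; ring
  · rw [fb_add, fb_add2, fb_add2, fb_comm q w v, h1, h2, h4]; ring
  · rw [fb_add2, h3, h5]; ring

theorem Rp.shear23 {q : ℕ} {a b c d e f : ℤ} (s : ℤ)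
    (h : Rp q a b (c - s * b) d (e - s * d) (f - 2 * s * e + s ^ 2 * d)) : Rp q a b c d e f := by
  obtain ⟨v, w, z, h1, h2, h3, h4, h5, h6⟩ := h
  refine ⟨v, w, z + s • w, h1, h2, ?_, h4, ?_, ?_⟩
  · rw [fb_add, h3, h2]; ring
  · rw [fb_add, h4, h5]; ring
  · rw [fb_add, fb_add2, fb_add2, fb_comm q z w, h6, h5, h4]; ring

theorem Rp.shear13 {q : ℕ} {a b c d e f : ℤ} (s : ℤ)
    (h : Rp q a b (c - s * a) d (e - s * b) (f - 2 * s * c + s ^ 2 * a)) : Rp q a b c d e f := by
  obtain ⟨v, w, z, h1, h2, h3, h4, h5, h6⟩ := h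
  refine ⟨v, w, z + s • v, h1, h2, ?_, h4, ?_, ?_⟩
  · rw [fb_add, h3, h1]; ring
  · rw [fb_add, fb_comm q w v, h2, h5]; ring
  · rw [fb_add, fb_add2, fb_add2, fb_comm q z v, h6, h1, h3]; ring

theorem Rp.swap12 {q : ℕ} {a b c d e f : ℤ} (h : Rp q d b e a c f) : Rp q a b c d e f := by
  obtain ⟨v, w, z, h1, h2, h3, h4, h5, h6⟩ := h
  exact ⟨w, v, z, h4, by rw [fb_comm, h2], h5, h1, h3, h6⟩

theorem Rp.swap23 {q : ℕ} {a b c d e f : ℤ} (h : Rp q a c b f e d) : Rp q a b c d e f := by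
  obtain ⟨v, w, z, h1, h2, h3, h4, h5, h6⟩ := h
  exact ⟨v, z, w, h1, h3, h2, h6, by rw [fb_comm, h5], h4⟩

theorem Rp.congr {q : ℕ} {a b c d e f a' b' c' d' e' f' : ℤ} (h : Rp q a b c d e f) (h1 : a = a')
    (h2 : b = b') (h3 : c = c') (h4 : d = d') (h5 : e = e') (h6 : f = f') : Rp q a' b' c' d' e' f' := by
  subst h1; subst h2; subst h3; subst h4; subst h5; subst h6
  exact h

/-- the reduced forms -/
theorem red3 {b e f : ℤ} (h : (b = 1 ∨ b = -1) ∧ e = 0 ∧ f = 2 ∨ b = 0 ∧ (e = 1 ∨ e = -1) ∧ f = 2) :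
    Rp 3 2 b 0 2 e f := by
  rcases h with ⟨rfl | rfl, rfl, rfl⟩ | ⟨rfl, rfl | rfl, rfl⟩
  · exact ⟨![0, -1, -1], ![0, -1, 0], ![-1, 0, 0], by decide, by decide, by decide, by decide, by decide,
      by decide⟩
  · exact ⟨![0, -1, -1], ![0, 0, 1], ![-1, 0, 0], by decide, by decide, by decide, by decide, by decide,
      by decide⟩
  · exact ⟨![-1, 0, 0], ![0, -1, -1], ![0, -1, 0], by decide, by decide, by decide, by decide, by decide,
      by decide⟩
  · exact ⟨![-1, 0, 0], ![0, -1, -1], ![0, 0, 1], by decide, by decide, by decide, by decide, by decide,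
      by decide⟩

theorem red5 {b e f : ℤ} (h : b = 1 ∧ (e = 1 ∨ e = 0) ∧ f = 4 ∨ b = -1 ∧ (e = 0 ∨ e = -1) ∧ f = 4) :
    Rp 5 2 b 1 2 e f := by
  rcases h with ⟨rfl, rfl | rfl, rfl⟩ | ⟨rfl, rfl | rfl, rfl⟩
  · exact ⟨![0, -1, -1], ![0, -1, 0], ![1, -1, 0], by decide, by decide, by decide, by decide, by decide,
      by decide⟩
  · exact ⟨![0, -1, -1], ![0, -1, 0], ![-1, 0, -1], by decide, by decide, by decide, by decide, by decide,
      by decide⟩
  · exact ⟨![0, -1, -1], ![0, 0, 1], ![1, -1, 0], by decide, by decide, by decide, by decide, by decide,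
      by decide⟩
  · exact ⟨![0, -1, -1], ![0, 0, 1], ![-1, 0, -1], by decide, by decide, by decide, by decide, by decide,
      by decide⟩

theorem rep_of (q : ℕ) (hq : q = 3 ∨ q = 5) (N : ℕ) : ∀ a b c d e f : ℤ, Even a → Even d → Even f →
    0 < a → 0 < a * d - b ^ 2 →
    a * d * f + 2 * b * c * e - a * e ^ 2 - d * c ^ 2 - f * b ^ 2 = 2 * q →
    a + (a * d - b ^ 2) ≤ N → Rp q a b c d e f := by
  induction N with
  | zero =>
    intro a b c d e f _ _ _ ha hD _ hN
    exfalso
    push_cast at hN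
    linarith
  | succ N ih =>
    intro a b c d e f ea ed ef ha hD hdet hN
    push_cast at hN
    have hq5 : (q : ℤ) = 3 ∨ (q : ℤ) = 5 := by
      rcases hq with rfl | rfl <;> norm_num
    obtain ⟨t, ht1, ht2⟩ := exists_round b a ha
    apply Rp.shear12 t
    obtain ⟨b', hb'⟩ : ∃ b', b' = b - t * a := ⟨_, rfl⟩
    obtain ⟨d', hd'⟩ : ∃ d', d' = d - 2 * t * b + t ^ 2 * a := ⟨_, rfl⟩
    obtain ⟨e', he'⟩ : ∃ e', e' = e - t * c := ⟨_, rfl⟩
    rw [← hb', ← hd', ← he']
    rw [← hb'] at ht1 ht2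
    have ed' : Even d' := by
      rw [hd']
      have h1 : Even (2 * t * b) := by rw [mul_assoc]; exact even_two_mul _
      exact (ed.sub h1).add (ea.mul_left _)
    have hD' : a * d' - b' ^ 2 = a * d - b ^ 2 := by rw [hd', hb']; ring
    have hdet' : a * d' * f + 2 * b' * c * e' - a * e' ^ 2 - d' * c ^ 2 - f * b' ^ 2 = 2 * q := by
      rw [← hdet, hd', hb', he']; ring
    rw [← hD'] at hD hN
    have hd'0 : 0 < d' := by
      by_contra hcon
      push Not at hcon
      nlinarith [sq_nonneg b']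
    have hb2 : 4 * b' ^ 2 ≤ a ^ 2 := by nlinarith
    by_cases hlt : d' < a
    · apply Rp.swap12
      apply ih d' b' e' a c f ed' ea ef hd'0 (by linarith) (by linarith)
      have : d' * a - b' ^ 2 = a * d' - b' ^ 2 := by ring
      rw [this]
      linarith
    push Not at hlt
    obtain ⟨D2, hD2⟩ : ∃ D2, D2 = a * d' - b' ^ 2 := ⟨_, rfl⟩
    rw [← hD2] at hD hN
    have h34 : 3 * a ^ 2 ≤ 4 * D2 := by nlinarith
    obtain ⟨s, hs1, hs2⟩ := exists_round (a * e' - b' * c) D2 hD
    apply Rp.shear23 s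
    obtain ⟨c2, hc2⟩ : ∃ c2, c2 = c - s * b' := ⟨_, rfl⟩
    obtain ⟨e2, he2⟩ : ∃ e2, e2 = e' - s * d' := ⟨_, rfl⟩
    obtain ⟨f2, hf2⟩ : ∃ f2, f2 = f - 2 * s * e' + s ^ 2 * d' := ⟨_, rfl⟩
    rw [← hc2, ← he2, ← hf2]
    have ef2 : Even f2 := by
      rw [hf2]
      have h1 : Even (2 * s * e') := by rw [mul_assoc]; exact even_two_mul _
      exact (ef.sub h1).add (ed'.mul_left _)
    have hdet2 : a * d' * f2 + 2 * b' * c2 * e2 - a * e2 ^ 2 - d' * c2 ^ 2 - f2 * b' ^ 2 = 2 * q := by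
      rw [← hdet', hc2, he2, hf2]; ring
    obtain ⟨K, hK⟩ : ∃ K, K = a * e2 - b' * c2 := ⟨_, rfl⟩
    have hK2 : K = a * e' - b' * c - s * D2 := by rw [hK, he2, hc2, hD2]; ring
    rw [← hK2] at hs1 hs2
    have hKK : 4 * K ^ 2 ≤ D2 ^ 2 := by nlinarith
    have hid : D2 * (a * f2 - c2 ^ 2) = K ^ 2 + a * (2 * q) := by
      have : K ^ 2 + a * (a * d' * f2 + 2 * b' * c2 * e2 - a * e2 ^ 2 - d' * c2 ^ 2 - f2 * b' ^ 2) =
          D2 * (a * f2 - c2 ^ 2) := by
        rw [hK, hD2]; ring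
      rw [← this, hdet2]
    have hqp : (0 : ℤ) < q := by rcases hq5 with h | h <;> rw [h] <;> norm_num
    have hq5' : (q : ℤ) ≤ 5 := by rcases hq5 with h | h <;> rw [h] <;> norm_num
    have haq : 0 < a * (2 * (q : ℤ)) := by positivity
    have hD3 : 0 < a * f2 - c2 ^ 2 := by
      by_contra hcon
      push Not at hcon
      nlinarith [sq_nonneg K]
    by_cases hlt2 : a * f2 - c2 ^ 2 < D2
    · apply Rp.swap23
      apply ih a c2 b' f2 e2 d' ea ef2 ed' ha hD3 (by linarith)
      linarith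
    push Not at hlt2
    have h36 : D2 * D2 ≤ K ^ 2 + a * (2 * q) := by
      rw [← hid]
      exact mul_le_mul_of_nonneg_left hlt2 hD.le
    have h35 : 3 * (D2 * D2) ≤ 40 * a := by
      rw [pow_two D2] at hKK
      have h37 : a * (2 * (q : ℤ)) ≤ a * 10 := mul_le_mul_of_nonneg_left (by linarith) ha.le
      linarith
    have ha1 : a = 2 := by
      by_contra hne
      obtain ⟨a0, ha0⟩ := ea
      have ha2 : 4 ≤ a := by omega
      have h37 : 4 * a ≤ a ^ 2 := by
        rw [pow_two]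
        exact mul_le_mul_of_nonneg_right ha2 ha.le
      have h38 : 3 * a ≤ D2 := by linarith
      have h39 : (3 * a) * (3 * a) ≤ D2 * D2 :=
        mul_self_le_mul_self (by linarith) h38
      have h40 : (3 * a) * (3 * a) = 9 * a ^ 2 := by ring
      linarith
    clear ih hN hlt ht1 ht2 h34 h36 hdet hdet' hdet2 hK2 hs1 hs2 hD'
    subst ha1
    have hD25 : D2 ≤ 5 := by
      by_contra hne
      push Not at hne
      have h3 : 6 * 6 ≤ D2 * D2 := mul_self_le_mul_self (by norm_num) (by linarith)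
      linarith
    have hb1 : b' = -1 ∨ b' = 0 ∨ b' = 1 := by
      have h1 : b' ≤ 1 := by nlinarith
      have h2 : -1 ≤ b' := by nlinarith
      omega
    have hd2 : d' = 2 := by
      obtain ⟨d0, hd0⟩ := ed'
      rcases hb1 with h | h | h <;> rw [h] at hD2 <;> omega
    subst hd2
    obtain ⟨f0, hf0⟩ := ef2
    obtain ⟨s', hs'⟩ : ∃ s', s' = c2 / 2 := ⟨_, rfl⟩
    apply Rp.shear13 s'
    rcases hq with rfl | rfl
    · -- `q = 3`
      rcases hb1 with h | h | h
      · subst h
        have hD2' : D2 = 3 := by rw [hD2]; norm_num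
        subst hD2'
        have hK1 : K ≤ 1 := by nlinarith
        have hK1' : -1 ≤ K := by nlinarith
        have hK0 : K = 0 := by
          have : K = -1 ∨ K = 0 ∨ K = 1 := by omega
          push_cast at hid
          rcases this with h | h | h
          · rw [h] at hid; omega
          · exact h
          · rw [h] at hid; omega
        rw [hK0] at hid hK
        push_cast at hid
        have hc : c2 = 2 * s' := by omega
        have hf : f2 = 2 + 2 * s' ^ 2 := by
          rw [hc] at hid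
          linarith
        refine (red3 (b := -1) (e := 0) (f := 2) (Or.inl ⟨Or.inr rfl, rfl, rfl⟩)).congr rfl rfl ?_ rfl ?_ ?_
        · linarith
        · linarith
        · rw [hf, hc]; ring
      · subst h
        have hD2' : D2 = 4 := by rw [hD2]; norm_num
        subst hD2'
        have he : e2 ≤ 1 := by nlinarith
        have he' : -1 ≤ e2 := by nlinarith
        have hK' : K = 2 * e2 := by rw [hK]; ring
        rw [hK'] at hid
        push_cast at hid
        have he1 : e2 = -1 ∨ e2 = 0 ∨ e2 = 1 := by omega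
        rcases he1 with h | h | h
        · subst h
          have hcc : c2 ^ 2 = 2 * f2 - 4 := by linarith
          have hc : c2 = 2 * s' := by
            have h1 : c2 % 2 = 0 := by
              rcases Int.emod_two_eq_zero_or_one c2 with h1 | h1
              · exact h1
              · exfalso
                have h2 : c2 ^ 2 % 2 = 1 := by rw [pow_two, Int.mul_emod, h1]; norm_num
                omega
            omega
          have hf : f2 = 2 + 2 * s' ^ 2 := by
            rw [hc] at hcc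
            linarith
          refine (red3 (b := 0) (e := -1) (f := 2) (Or.inr ⟨rfl, Or.inr rfl, rfl⟩)).congr rfl rfl ?_ rfl ?_ ?_
          · linarith
          · ring
          · rw [hf, hc]; ring
        · exfalso
          subst h
          linarith
        · subst h
          have hcc : c2 ^ 2 = 2 * f2 - 4 := by linarith
          have hc : c2 = 2 * s' := by
            have h1 : c2 % 2 = 0 := by
              rcases Int.emod_two_eq_zero_or_one c2 with h1 | h1
              · exact h1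
              · exfalso
                have h2 : c2 ^ 2 % 2 = 1 := by rw [pow_two, Int.mul_emod, h1]; norm_num
                omega
            omega
          have hf : f2 = 2 + 2 * s' ^ 2 := by
            rw [hc] at hcc
            linarith
          refine (red3 (b := 0) (e := 1) (f := 2) (Or.inr ⟨rfl, Or.inl rfl, rfl⟩)).congr rfl rfl ?_ rfl ?_ ?_
          · linarith
          · ring
          · rw [hf, hc]; ring
      · subst h
        have hD2' : D2 = 3 := by rw [hD2]; norm_num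
        subst hD2'
        have hK1 : K ≤ 1 := by nlinarith
        have hK1' : -1 ≤ K := by nlinarith
        have hK0 : K = 0 := by
          have : K = -1 ∨ K = 0 ∨ K = 1 := by omega
          push_cast at hid
          rcases this with h | h | h
          · rw [h] at hid; omega
          · exact h
          · rw [h] at hid; omega
        rw [hK0] at hid hK
        push_cast at hid
        have hc : c2 = 2 * s' := by omega
        have hf : f2 = 2 + 2 * s' ^ 2 := by
          rw [hc] at hid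
          linarith
        refine (red3 (b := 1) (e := 0) (f := 2) (Or.inl ⟨Or.inl rfl, rfl, rfl⟩)).congr rfl rfl ?_ rfl ?_ ?_
        · linarith
        · linarith
        · rw [hf, hc]; ring
    · -- `q = 5`
      have hsq4 : c2 ^ 2 % 4 = 0 ∨ c2 ^ 2 % 4 = 1 := by
        have h4 : c2 % 4 = 0 ∨ c2 % 4 = 1 ∨ c2 % 4 = 2 ∨ c2 % 4 = 3 := by omega
        rcases h4 with h | h | h | h <;> rw [pow_two, Int.mul_emod, h] <;> norm_num
      have key : ∀ b : ℤ, (b = 1 ∨ b = -1) → b' = b →
          Rp 5 2 b' (c2 - s' * 2) 2 (e2 - s' * b') (f2 - 2 * s' * c2 + s' ^ 2 * 2) := by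
        intro b hb hbb
        have hbb' : b' ^ 2 = 1 := by
          rcases hb with h | h <;> rw [hbb, h] <;> norm_num
        have hD2' : D2 = 3 := by rw [hD2, hbb']; norm_num
        subst hD2'
        have hK1 : K ≤ 1 := by nlinarith
        have hK1' : -1 ≤ K := by nlinarith
        push_cast at hid
        have hK0 : K = -1 ∨ K = 1 := by
          have : K = -1 ∨ K = 0 ∨ K = 1 := by omega
          rcases this with h | h | h
          · exact Or.inl h
          · rw [h] at hid; omega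
          · exact Or.inr h
        have hKs : K ^ 2 = 1 := by
          rcases hK0 with h | h <;> rw [h] <;> norm_num
        rw [hKs] at hid
        have hcc : c2 ^ 2 = 2 * f2 - 7 := by linarith
        have hc : c2 = 2 * s' + 1 := by
          have h1 : c2 % 2 = 1 := by
            rcases Int.emod_two_eq_zero_or_one c2 with h1 | h1
            · exfalso
              have h2 : c2 ^ 2 % 2 = 0 := by rw [pow_two, Int.mul_emod, h1]; norm_num
              omega
            · exact h1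
          omega
        have hf : f2 = 4 + 2 * s' ^ 2 + 2 * s' := by
          rw [hc] at hcc
          linarith
        have hff : f2 - 2 * s' * c2 + s' ^ 2 * 2 = 4 := by
          rw [hf, hc]; ring
        have hce : c2 - s' * 2 = 1 := by rw [hc]; ring
        have hee : K = 2 * (e2 - s' * b') - b' := by rw [hK, hc]; ring
        rw [hff, hce]
        generalize e2 - s' * b' = e3 at hee
        rcases hb with h | h
        · have hb1 : b' = 1 := by rw [hbb, h]
          subst hb1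
          refine red5 (Or.inl ⟨rfl, ?_, rfl⟩)
          omega
        · have hb1 : b' = -1 := by rw [hbb, h]
          subst hb1
          refine red5 (Or.inr ⟨rfl, ?_, rfl⟩)
          omega
      rcases hb1 with h | h | h
      · exact key (-1) (Or.inr rfl) h
      · exfalso
        subst h
        have hD2' : D2 = 4 := by rw [hD2]; norm_num
        subst hD2'
        have he : e2 ≤ 1 := by nlinarith
        have he' : -1 ≤ e2 := by nlinarith
        have hK' : K = 2 * e2 := by rw [hK]; ring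
        rw [hK'] at hid
        push_cast at hid
        have he1 : e2 ^ 2 = 0 ∨ e2 ^ 2 = 1 := by
          have : e2 = -1 ∨ e2 = 0 ∨ e2 = 1 := by omega
          rcases this with h | h | h <;> rw [h] <;> norm_num
        have hcc : c2 ^ 2 = 2 * f2 - 5 - e2 ^ 2 := by linarith
        rcases he1 with h | h <;> rw [h] at hcc <;> omega
      · exact key 1 (Or.inl rfl) h

/-- the even form of determinant `2 q` as a matrix -/
def FF (q : ℕ) : Matrix (Fin 3) (Fin 3) ℤ :=
  if q = 5 then !![4, 1, -1; 1, 2, -1; -1, -1, 2] else !![2, 0, 0; 0, 2, -1; 0, -1, 2]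

theorem adj_FF {q : ℕ} (hq : q = 3 ∨ q = 5) : (FF q).adjugate = GG q := by
  rcases hq with rfl | rfl
  · unfold FF GG
    rw [if_neg (by norm_num), if_neg (by norm_num)]
    decide
  · unfold FF GG
    rw [if_pos rfl, if_pos rfl]
    decide

theorem det_FF {q : ℕ} (hq : q = 3 ∨ q = 5) : (FF q).det = 2 * q := by
  rcases hq with rfl | rfl
  · unfold FF
    rw [if_neg (by norm_num)]
    decide
  · unfold FF
    rw [if_pos rfl]
    decide

theorem GG_symm (q : ℕ) : (GG q)ᵀ = GG q := by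
  unfold GG
  split_ifs <;> decide

/-- the matrix with given columns -/
def cols (v w z : V3) : Matrix (Fin 3) (Fin 3) ℤ := (Matrix.of ![v, w, z])ᵀ

theorem cols_eq (A : Matrix (Fin 3) (Fin 3) ℤ) : A = cols (fun i => A i 0) (fun i => A i 1)
    (fun i => A i 2) := by
  ext i j
  fin_cases j <;> rfl

theorem FF_fb (q : ℕ) (v w : V3) : v ⬝ᵥ (FF q *ᵥ w) = fb q v w := by
  unfold FF fb
  split_ifs <;>
    simp [dotProduct, Matrix.mulVec, Fin.sum_univ_three] <;> ring

theorem GG_bl (q : ℕ) (v w : V3) : v ⬝ᵥ (GG q *ᵥ w) = bl q v w := by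
  unfold GG bl
  split_ifs <;>
    simp [dotProduct, Matrix.mulVec, Fin.sum_univ_three] <;> ring

theorem conj_apply (A G : Matrix (Fin 3) (Fin 3) ℤ) (i j : Fin 3) :
    (Aᵀ * G * A) i j = (fun k => A k i) ⬝ᵥ (G *ᵥ fun k => A k j) := by
  rw [Matrix.mul_assoc, Matrix.mul_apply']
  rfl


/-- existence -/
theorem exists_A {q : ℕ} (hq : q = 3 ∨ q = 5) {M : Matrix (Fin 3) (Fin 3) ℤ} (hM : PosQ q M) :
    ∃ A : Matrix (Fin 3) (Fin 3) ℤ, Aᵀ * GG q * A = M ∧ A.det = 1 := by
  have hq0 : (q : ℤ) ≠ 0 := by rcases hq with rfl | rfl <;> norm_num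
  have hqp : (0 : ℤ) < q := by rcases hq with rfl | rfl <;> norm_num
  have h2q : (2 * q : ℤ) ≠ 0 := mul_ne_zero two_ne_zero hq0
  choose F0 hF0 using hM.adj
  set F : Matrix (Fin 3) (Fin 3) ℤ := Matrix.of F0 with hF
  have hadj : M.adjugate = (2 * q : ℤ) • F := by
    ext i j
    rw [Matrix.smul_apply, smul_eq_mul]
    exact hF0 i j
  have hFs : Fᵀ = F := by
    have h1 : (2 * q : ℤ) • Fᵀ = (2 * q : ℤ) • F := by
      rw [← Matrix.transpose_smul, ← hadj, Matrix.adjugate_transpose, hM.symm]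
    ext i j
    have h2 := congrFun (congrFun h1 i) j
    rw [Matrix.smul_apply, Matrix.smul_apply, smul_eq_mul, smul_eq_mul] at h2
    exact mul_left_cancel₀ h2q h2
  have hFadj : F.adjugate = M := by
    have h1 := Matrix.adjugate_adjugate M (by simp)
    rw [hadj, Matrix.adjugate_smul, hM.det] at h1
    simp only [Fintype.card_fin] at h1
    rw [show 3 - 1 = 2 from rfl, show 3 - 2 = 1 from rfl, pow_one] at h1
    ext i j
    have h2 := congrFun (congrFun h1 i) j
    rw [Matrix.smul_apply, Matrix.smul_apply, smul_eq_mul, smul_eq_mul] at h2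
    have h3 : (4 * (q : ℤ) ^ 2) ≠ 0 := by positivity
    have h4 : (2 * (q : ℤ)) ^ 2 = 4 * (q : ℤ) ^ 2 := by ring
    rw [h4] at h2
    exact mul_left_cancel₀ h3 h2
  have hFdet : F.det = 2 * q := by
    have h1 := Matrix.det_adjugate M
    rw [hadj, Matrix.det_smul, hM.det] at h1
    simp only [Fintype.card_fin] at h1
    norm_num at h1
    have h3 : (8 * (q : ℤ) ^ 3) ≠ 0 := by positivity
    refine mul_left_cancel₀ h3 ?_
    linarith
  have hFe : ∀ i, Even (F i i) := by
    intro i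
    obtain ⟨x, hx⟩ := hM.ev i
    have h1 : M.adjugate i i = (2 * q : ℤ) * F i i := by
      rw [hadj]; rfl
    rw [h1] at hx
    refine ⟨x, mul_left_cancel₀ h2q ?_⟩
    rw [hx]; ring
  have h10 : M 1 0 = M 0 1 := congrFun (congrFun hM.symm 0) 1
  have h20 : M 2 0 = M 0 2 := congrFun (congrFun hM.symm 0) 2
  have h21 : M 2 1 = M 1 2 := congrFun (congrFun hM.symm 1) 2
  have f10 : F 1 0 = F 0 1 := congrFun (congrFun hFs 0) 1
  have f20 : F 2 0 = F 0 2 := congrFun (congrFun hFs 0) 2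
  have f21 : F 2 1 = F 1 2 := congrFun (congrFun hFs 1) 2
  have hMdet := hM.det
  rw [det_fin_three, h10, h20, h21] at hMdet
  have hFdet' := hFdet
  rw [det_fin_three, f10, f20, f21] at hFdet'
  have hpos1 := hM.pos1
  have hpos2 := hM.pos2
  have hM11 : 0 < M 1 1 := by
    by_contra hcon
    push Not at hcon
    nlinarith [sq_nonneg (M 0 1)]
  have hΔ : 0 < 4 * (q : ℤ) ^ 2 := by positivity
  have hminor : 0 < M 1 1 * M 2 2 - M 1 2 ^ 2 := by
    have h1 : (M 0 0 * M 1 1 - M 0 1 ^ 2) * (M 1 1 * M 2 2 - M 1 2 ^ 2) =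
        (M 0 1 * M 1 2 - M 1 1 * M 0 2) ^ 2 + M 1 1 * (4 * (q : ℤ) ^ 2) := by
      rw [← hMdet]; ring
    by_contra hcon
    push Not at hcon
    have h2 := mul_pos hM11 hΔ
    have h3 := mul_nonneg hpos2.le (neg_nonneg.2 hcon)
    nlinarith [sq_nonneg (M 0 1 * M 1 2 - M 1 1 * M 0 2)]
  have hM22 : 0 < M 2 2 := by
    have h1 : (M 0 0 * M 1 1 - M 0 1 ^ 2) * (M 0 0 * M 2 2 - M 0 2 ^ 2) =
        (M 0 0 * M 1 2 - M 0 1 * M 0 2) ^ 2 + M 0 0 * (4 * (q : ℤ) ^ 2) := by
      rw [← hMdet]; ring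
    have h2 := mul_pos hpos1 hΔ
    have h4 : 0 < M 0 0 * M 2 2 - M 0 2 ^ 2 := by
      by_contra hcon
      push Not at hcon
      have h3 := mul_nonneg hpos2.le (neg_nonneg.2 hcon)
      nlinarith [sq_nonneg (M 0 0 * M 1 2 - M 0 1 * M 0 2)]
    by_contra hcon
    push Not at hcon
    have h5 := mul_nonneg hpos1.le (neg_nonneg.2 hcon)
    nlinarith [sq_nonneg (M 0 2)]
  have hF00 : 0 < F 0 0 := by
    have h1 : M.adjugate 0 0 = (2 * q : ℤ) * F 0 0 := by
      rw [hadj]; rfl
    have h2 : M.adjugate 0 0 = M 1 1 * M 2 2 - M 1 2 ^ 2 := by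
      rw [Matrix.adjugate_fin_three]
      simp only [Matrix.of_apply, Matrix.cons_val_zero]
      rw [h21]; ring
    rw [h1] at h2
    by_contra hcon
    push Not at hcon
    nlinarith
  have hF2 : F 0 0 * F 1 1 - F 0 1 ^ 2 = M 2 2 := by
    have h2 : F.adjugate 2 2 = F 0 0 * F 1 1 - F 0 1 ^ 2 := by
      rw [Matrix.adjugate_fin_three]
      simp [f10]
      ring
    rw [hFadj] at h2
    exact h2.symm
  obtain ⟨v, w, z, h1, h2, h3, h4, h5, h6⟩ := rep_of q hq
    (F 0 0 + (F 0 0 * F 1 1 - F 0 1 ^ 2)).toNat (F 0 0) (F 0 1) (F 0 2) (F 1 1) (F 1 2) (F 2 2)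
    (hFe 0) (hFe 1) (hFe 2) hF00 (by rw [hF2]; exact hM22) (by linarith)
    (by rw [Int.toNat_of_nonneg (by linarith)])
  have hB : (cols v w z)ᵀ * FF q * cols v w z = F := by
    ext i j
    rw [conj_apply, FF_fb]
    fin_cases i <;> fin_cases j
    · exact h1
    · exact h2
    · exact h3
    · exact (fb_comm _ _ _).trans (h2.trans f10.symm)
    · exact h4
    · exact h5
    · exact (fb_comm _ _ _).trans (h3.trans f20.symm)
    · exact (fb_comm _ _ _).trans (h5.trans f21.symm)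
    · exact h6
  set B := cols v w z with hBd
  have hB2 : B.det ^ 2 = 1 := by
    have h7 := congrArg det hB
    rw [det_mul, det_mul, det_transpose, det_FF hq, hFdet] at h7
    refine mul_left_cancel₀ h2q ?_
    linarith
  refine ⟨(B.adjugate)ᵀ, ?_, ?_⟩
  · rw [Matrix.transpose_transpose, ← adj_FF hq, Matrix.adjugate_transpose, Matrix.mul_assoc,
      ← Matrix.adjugate_mul_distrib, ← Matrix.adjugate_mul_distrib, hB, hFadj]
  · rw [Matrix.det_transpose, Matrix.det_adjugate]
    simpa using hB2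

/-- the vectors of norm `GG 0 0` and of norm `GG 1 1` -/
def uA : Fin 2 → V3 := ![![1, 0, 0], ![-1, 0, 0]]

def uB (q : ℕ) : Fin 6 → V3 :=
  if q = 5 then ![![-1, -1, 1], ![0, -1, 0], ![0, 0, -1], ![0, 0, 1], ![0, 1, 0], ![1, 1, -1]]
  else ![![0, -1, 0], ![0, -1, 1], ![0, 0, -1], ![0, 0, 1], ![0, 1, -1], ![0, 1, 0]]

theorem uA_inj : Function.Injective uA := by
  intro i j h
  have h0 := congrFun h 0
  revert h0 h i j
  decide

theorem uB_inj {q : ℕ} (hq : q = 3 ∨ q = 5) : Function.Injective (uB q) := by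
  intro i j h
  have h0 := congrFun h 0
  have h1 := congrFun h 1
  have h2 := congrFun h 2
  clear h
  rcases hq with rfl | rfl <;> revert h0 h1 h2 i j <;> decide

theorem coord_bound {q : ℕ} (hq : q = 3 ∨ q = 5) {v : V3} (h : bl q v v ≤ if q = 5 then 7 else 4) :
    ∀ i, v i = -1 ∨ v i = 0 ∨ v i = 1 := by
  have key : ∀ x : ℤ, 2 * x ^ 2 ≤ 7 → x = -1 ∨ x = 0 ∨ x = 1 := by
    intro x hx
    have h1 : x ≤ 1 := by nlinarith
    have h2 : -1 ≤ x := by nlinarith
    omega
  rcases hq with rfl | rfl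
  · rw [if_neg (by norm_num)] at h
    unfold bl at h
    rw [if_neg (by norm_num)] at h
    have h0 : 2 * v 0 ^ 2 ≤ 7 := by nlinarith [sq_nonneg (v 1 + v 2), sq_nonneg (v 1), sq_nonneg (v 2), sq_nonneg (v 0)]
    have h1 : 2 * v 1 ^ 2 ≤ 7 := by nlinarith [sq_nonneg (v 1 + 2 * v 2), sq_nonneg (v 1), sq_nonneg (v 2), sq_nonneg (v 0)]
    have h2 : 2 * v 2 ^ 2 ≤ 7 := by nlinarith [sq_nonneg (2 * v 1 + v 2), sq_nonneg (v 1), sq_nonneg (v 2), sq_nonneg (v 0)]
    intro i
    fin_cases i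
    · exact key _ h0
    · exact key _ h1
    · exact key _ h2
  · rw [if_pos rfl] at h
    unfold bl at h
    rw [if_pos rfl] at h
    have h0 : 2 * v 0 ^ 2 ≤ 7 := by
      nlinarith [sq_nonneg (v 1 + v 2), sq_nonneg (4 * v 1 - v 0), sq_nonneg (4 * v 2 + v 0), sq_nonneg (v 0)]
    have h1 : 2 * v 1 ^ 2 ≤ 7 := by
      nlinarith [sq_nonneg (2 * v 0 - v 1), sq_nonneg (2 * v 2 + v 1), sq_nonneg (v 0 + v 2), sq_nonneg (v 1)]
    have h2 : 2 * v 2 ^ 2 ≤ 7 := by
      nlinarith [sq_nonneg (2 * v 0 + v 2), sq_nonneg (2 * v 1 + v 2), sq_nonneg (v 0 - v 1), sq_nonneg (v 2)]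
    intro i
    fin_cases i
    · exact key _ h0
    · exact key _ h1
    · exact key _ h2

theorem uA_surj {q : ℕ} (hq : q = 3 ∨ q = 5) {v : V3} (h : bl q v v = 3) : ∃ i, uA i = v := by
  have hb := coord_bound hq (v := v) (by rcases hq with rfl | rfl <;> rw [h] <;> norm_num)
  have hv : v = ![v 0, v 1, v 2] := by ext i; fin_cases i <;> rfl
  have hx := hb 0
  have hy := hb 1
  have hz := hb 2
  rw [hv] at h ⊢
  generalize v 0 = x at *
  generalize v 1 = y at *
  generalize v 2 = z at *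
  rcases hq with rfl | rfl <;>
  rcases hx with rfl | rfl | rfl <;> rcases hy with rfl | rfl | rfl <;>
    rcases hz with rfl | rfl | rfl <;>
    first
    | exact ⟨0, rfl⟩
    | exact ⟨1, rfl⟩
    | (exfalso; revert h; decide)

theorem uB_surj {q : ℕ} (hq : q = 3 ∨ q = 5) {v : V3} (h : bl q v v = if q = 5 then 7 else 4) :
    ∃ i, uB q i = v := by
  have hb := coord_bound hq (v := v) (by rw [h])
  have hv : v = ![v 0, v 1, v 2] := by ext i; fin_cases i <;> rfl
  have hx := hb 0
  have hy := hb 1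
  have hz := hb 2
  rw [hv] at h ⊢
  generalize v 0 = x at *
  generalize v 1 = y at *
  generalize v 2 = z at *
  rcases hq with rfl | rfl <;>
  rcases hx with rfl | rfl | rfl <;> rcases hy with rfl | rfl | rfl <;>
    rcases hz with rfl | rfl | rfl <;>
    first
    | exact ⟨0, by decide⟩
    | exact ⟨1, by decide⟩
    | exact ⟨2, by decide⟩
    | exact ⟨3, by decide⟩
    | exact ⟨4, by decide⟩
    | exact ⟨5, by decide⟩
    | (exfalso; revert h; decide)

/-- the determinant in coordinates -/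
def dd3 (v w z : V3) : ℤ := v 0 * w 1 * z 2 - v 0 * w 2 * z 1 - v 1 * w 0 * z 2 +
  v 1 * w 2 * z 0 + v 2 * w 0 * z 1 - v 2 * w 1 * z 0

theorem det_cols (v w z : V3) : (cols v w z).det = dd3 v w z := by
  rw [cols, det_transpose, det_fin_three, dd3]
  rfl

/-- the off-diagonal entries -/
def o1 (q : ℕ) : ℤ := if q = 5 then -1 else 0
def o2 (q : ℕ) : ℤ := if q = 5 then 1 else 0
def o3 (q : ℕ) : ℤ := if q = 5 then 3 else 2
def o4 (q : ℕ) : ℤ := if q = 5 then 7 else 4

def chk (q : ℕ) (p : Fin 2 × Fin 6 × Fin 6) : Bool :=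
  bl q (uA p.1) (uB q p.2.1) = o1 q && bl q (uA p.1) (uB q p.2.2) = o2 q &&
    bl q (uB q p.2.1) (uB q p.2.2) = o3 q && dd3 (uA p.1) (uB q p.2.1) (uB q p.2.2) = 1

theorem chk_card {q : ℕ} (hq : q = 3 ∨ q = 5) :
    (Finset.univ.filter fun p : Fin 2 × Fin 6 × Fin 6 => chk q p = true).card = rot q := by
  rcases hq with rfl | rfl <;> decide +kernel

theorem bl_comm (q : ℕ) (v w : V3) : bl q v w = bl q w v := by
  unfold bl
  split_ifs <;> ring

theorem gram_iff (q : ℕ) (v w z : V3) :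
    (cols v w z)ᵀ * GG q * cols v w z = GG q ↔ bl q v v = 3 ∧ bl q v w = o1 q ∧ bl q v z = o2 q ∧
      bl q w w = o4 q ∧ bl q w z = o3 q ∧ bl q z z = o4 q := by
  have g00 : GG q 0 0 = 3 := by unfold GG; split_ifs <;> rfl
  have g01 : GG q 0 1 = o1 q := by unfold GG o1; split_ifs <;> rfl
  have g02 : GG q 0 2 = o2 q := by unfold GG o2; split_ifs <;> rfl
  have g10 : GG q 1 0 = o1 q := by unfold GG o1; split_ifs <;> rfl
  have g20 : GG q 2 0 = o2 q := by unfold GG o2; split_ifs <;> rfl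
  have g11 : GG q 1 1 = o4 q := by unfold GG o4; split_ifs <;> rfl
  have g12 : GG q 1 2 = o3 q := by unfold GG o3; split_ifs <;> rfl
  have g21 : GG q 2 1 = o3 q := by unfold GG o3; split_ifs <;> rfl
  have g22 : GG q 2 2 = o4 q := by unfold GG o4; split_ifs <;> rfl
  have hc : ∀ i j, ((cols v w z)ᵀ * GG q * cols v w z) i j =
      bl q (fun k => cols v w z k i) (fun k => cols v w z k j) := by
    intro i j
    rw [conj_apply, GG_bl]
  have c0 : (fun k => cols v w z k 0) = v := rfl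
  have c1 : (fun k => cols v w z k 1) = w := rfl
  have c2 : (fun k => cols v w z k 2) = z := rfl
  constructor
  · intro h
    have hh : ∀ i j, bl q (fun k => cols v w z k i) (fun k => cols v w z k j) = GG q i j :=
      fun i j => by rw [← hc, h]
    refine ⟨(hh 0 0).trans g00, (hh 0 1).trans g01, (hh 0 2).trans g02, (hh 1 1).trans g11,
      (hh 1 2).trans g12, (hh 2 2).trans g22⟩
  · rintro ⟨h1, h2, h3, h4, h5, h6⟩
    ext i j
    rw [hc]
    fin_cases i <;> fin_cases j
    · exact h1.trans g00.symm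
    · exact h2.trans g01.symm
    · exact h3.trans g02.symm
    · exact (bl_comm _ _ _).trans (h2.trans g10.symm)
    · exact h4.trans g11.symm
    · exact h5.trans g12.symm
    · exact (bl_comm _ _ _).trans (h3.trans g20.symm)
    · exact (bl_comm _ _ _).trans (h5.trans g21.symm)
    · exact h6.trans g22.symm

theorem card_rot {q : ℕ} (hq : q = 3 ∨ q = 5) :
    Nat.card {R : Matrix (Fin 3) (Fin 3) ℤ // Rᵀ * GG q * R = GG q ∧ R.det = 1} = rot q := by
  have key : ∀ v w z : V3, ((cols v w z)ᵀ * GG q * cols v w z = GG q ∧ (cols v w z).det = 1) ↔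
      (bl q v v = 3 ∧ bl q v w = o1 q ∧ bl q v z = o2 q ∧
      bl q w w = o4 q ∧ bl q w z = o3 q ∧ bl q z z = o4 q) ∧ dd3 v w z = 1 := by
    intro v w z
    rw [det_cols, gram_iff q v w z]
  have hnA : ∀ i, bl q (uA i) (uA i) = 3 := by
    rcases hq with rfl | rfl <;> decide
  have hnB : ∀ i, bl q (uB q i) (uB q i) = o4 q := by
    rcases hq with rfl | rfl <;> decide
  let F : {p : Fin 2 × Fin 6 × Fin 6 // chk q p = true} →
      {R : Matrix (Fin 3) (Fin 3) ℤ // Rᵀ * GG q * R = GG q ∧ R.det = 1} := fun p =>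
    ⟨cols (uA p.1.1) (uB q p.1.2.1) (uB q p.1.2.2), (key _ _ _).2 (by
      have h := p.2
      simp only [chk, Bool.and_eq_true, decide_eq_true_eq] at h
      exact ⟨⟨hnA _, h.1.1.1, h.1.1.2, hnB _, h.1.2, hnB _⟩, h.2⟩)⟩
  have hF : Function.Bijective F := by
    constructor
    · rintro ⟨⟨i, j, k⟩, hp⟩ ⟨⟨i', j', k'⟩, hp'⟩ h
      have h1 := congrArg Subtype.val h
      have h2 : ∀ r c, cols (uA i) (uB q j) (uB q k) r c = cols (uA i') (uB q j') (uB q k') r c :=
        fun r c => congrFun (congrFun h1 r) c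
      have e1 : i = i' := uA_inj (funext fun r => h2 r 0)
      have e2 : j = j' := uB_inj hq (funext fun r => h2 r 1)
      have e3 : k = k' := uB_inj hq (funext fun r => h2 r 2)
      subst e1; subst e2; subst e3
      rfl
    · rintro ⟨R, hR⟩
      have hR' := hR
      rw [cols_eq R, key] at hR'
      obtain ⟨⟨h1, h2, h3, h4, h5, h6⟩, h7⟩ := hR'
      obtain ⟨i, hi⟩ := uA_surj hq h1
      obtain ⟨j, hj⟩ := uB_surj hq h4
      obtain ⟨k, hk⟩ := uB_surj hq h6
      refine ⟨⟨(i, j, k), ?_⟩, ?_⟩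
      · simp only [chk, Bool.and_eq_true, decide_eq_true_eq, hi, hj, hk]
        exact ⟨⟨⟨h2, h3⟩, h5⟩, h7⟩
      · apply Subtype.ext
        show cols (uA i) (uB q j) (uB q k) = R
        rw [hi, hj, hk]
        exact (cols_eq R).symm
  rw [← Nat.card_eq_of_bijective F hF, Nat.card_eq_fintype_card, Fintype.card_subtype]
  exact chk_card hq

end Pool.Agent.XV.PCT

namespace Pool.Agent.XV

open Finset Matrix PCT

theorem t_PCT : S_PCT := by
  intro q hq M hM
  obtain ⟨A0, hA0, hd0⟩ := exists_A hq hM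
  rw [← card_rot hq]
  have hu : IsUnit A0.det := by rw [hd0]; exact isUnit_one
  have h1 : A0 * A0⁻¹ = 1 := mul_nonsing_inv A0 hu
  have h2 : A0⁻¹ * A0 = 1 := nonsing_inv_mul A0 hu
  have h3 : A0⁻¹ᵀ * A0ᵀ = 1 := by rw [← transpose_mul, h1, transpose_one]
  have h4 : A0⁻¹.det = 1 := by
    have := congrArg det h1
    rwa [det_mul, hd0, one_mul, det_one] at this
  refine Nat.card_congr ?_
  refine ⟨fun A => ⟨A.1 * A0⁻¹, ?_, ?_⟩, fun R => ⟨R.1 * A0, ?_, ?_⟩, ?_, ?_⟩
  · have e1 : (A.1 * A0⁻¹)ᵀ * GG q * (A.1 * A0⁻¹) = A0⁻¹ᵀ * (A.1ᵀ * GG q * A.1) * A0⁻¹ := by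
      rw [transpose_mul]
      simp only [Matrix.mul_assoc]
    have e2 : A0⁻¹ᵀ * (A0ᵀ * GG q * A0) * A0⁻¹ = (A0⁻¹ᵀ * A0ᵀ) * GG q * (A0 * A0⁻¹) := by
      simp only [Matrix.mul_assoc]
    rw [e1, A.2.1, ← hA0, e2, h1, h3, Matrix.one_mul, Matrix.mul_one]
  · rw [det_mul, A.2.2, h4, one_mul]
  · have e1 : (R.1 * A0)ᵀ * GG q * (R.1 * A0) = A0ᵀ * (R.1ᵀ * GG q * R.1) * A0 := by
      rw [transpose_mul]
      simp only [Matrix.mul_assoc]
    rw [e1, R.2.1, hA0]
  · rw [det_mul, R.2.2, hd0, one_mul]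
  · intro A
    apply Subtype.ext
    show A.1 * A0⁻¹ * A0 = A.1
    rw [Matrix.mul_assoc, h2, Matrix.mul_one]
  · intro R
    apply Subtype.ext
    show R.1 * A0 * A0⁻¹ = R.1
    rw [Matrix.mul_assoc, h1, Matrix.mul_one]

end Pool.Agent.XV
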