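import Pool.Agent.Y155.Z7.XC

/-!
# XV-14X, part a: the number of solutions of `x² + x + c = 0` modulo `D / e²`, summed over `e`
-/

set_option autoImplicit false

namespace Pool.Agent.XV.PCX

open Finset ArithmeticFunction
open Pool.Agent.Y155.Z7 (R S SQ SQ_apply SQ_mult SQ_pow S_pow S_unram S_ram)

/-- the number of solutions of `x² + x + c = 0` modulo `m` -/
noncomputable def Rc (c m : ℕ) : ℕ := Nat.card {x : ZMod m // x ^ 2 + x + (c : ZMod m) = 0}

theorem Rc_zero {c : ℕ} (hc : 0 < c) : Rc c 0 = 0 := by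
  unfold Rc
  have : IsEmpty {x : ZMod 0 // x ^ 2 + x + (c : ZMod 0) = 0} := by
    have key : ∀ y : ℤ, ¬ (y ^ 2 + y + (c : ℤ) = 0) := by
      intro y hy
      have h2 : (0 : ℤ) < c := by exact_mod_cast hc
      rcases le_or_gt 0 y with h | h
      · nlinarith [sq_nonneg y]
      · have : y ≤ -1 := by omega
        nlinarith [sq_nonneg (y + 1)]
    exact ⟨fun x => key x.1 x.2⟩
  exact Nat.card_of_isEmpty

theorem Rc_one (c : ℕ) : Rc c 1 = 1 := by
  unfold Rc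
  rw [Nat.card_eq_one_iff_unique]
  refine ⟨⟨fun a b => Subtype.ext (Subsingleton.elim _ _)⟩, ⟨⟨0, Subsingleton.elim _ _⟩⟩⟩

theorem Rc_mul (c : ℕ) {a b : ℕ} (h : a.Coprime b) : Rc c (a * b) = Rc c a * Rc c b := by
  unfold Rc
  rw [← Nat.card_prod]
  refine Nat.card_congr (Equiv.trans ?_ (Equiv.subtypeProdEquivProd (p := fun x : ZMod a =>
    x ^ 2 + x + (c : ZMod a) = 0) (q := fun x : ZMod b => x ^ 2 + x + (c : ZMod b) = 0)))
  refine Equiv.subtypeEquiv (ZMod.chineseRemainder h).toEquiv fun x => ?_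
  have h1 : x ^ 2 + x + (c : ZMod (a * b)) = 0 ↔ ZMod.chineseRemainder h (x ^ 2 + x + c) = 0 :=
    (map_eq_zero_iff _ (ZMod.chineseRemainder h).injective).symm
  rw [h1, map_add, map_add, map_pow, map_natCast, Prod.ext_iff]
  rfl

/-- the number of solutions as the number of residues -/
theorem Rc_eq (c m : ℕ) (hm : 0 < m) :
    Rc c m = ((range m).filter fun x => m ∣ x ^ 2 + x + c).card := by
  classical
  have : NeZero m := ⟨hm.ne'⟩
  unfold Rc
  rw [Nat.card_eq_fintype_card, Fintype.card_subtype]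
  refine (Finset.card_nbij' (fun x : ℕ => (x : ZMod m)) (fun x : ZMod m => x.val) ?_ ?_ ?_ ?_).symm
  · intro x hx
    have hx := Finset.mem_filter.1 (Finset.mem_coe.1 hx)
    refine Finset.mem_coe.2 (Finset.mem_filter.2 ⟨Finset.mem_univ _, ?_⟩)
    have := (ZMod.natCast_eq_zero_iff (x ^ 2 + x + c) m).2 hx.2
    push_cast at this
    exact this
  · intro x hx
    have hx := Finset.mem_filter.1 (Finset.mem_coe.1 hx)
    refine Finset.mem_coe.2 (Finset.mem_filter.2 ⟨Finset.mem_range.2 (ZMod.val_lt x), ?_⟩)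
    refine (ZMod.natCast_eq_zero_iff _ m).1 ?_
    push_cast
    rw [ZMod.natCast_zmod_val]
    exact hx.2
  · intro x hx
    exact ZMod.val_cast_of_lt (Finset.mem_range.1 (Finset.mem_filter.1 (Finset.mem_coe.1 hx)).1)
  · intro x _
    exact ZMod.natCast_zmod_val x

/-- odd moduli -/
theorem Rc_odd {n c m : ℕ} (hc : n + 1 = 4 * c) (hm : Nat.Coprime 2 m) : Rc c m = R n m := by
  unfold Rc R
  have hu := ZMod.coe_unitOfCoprime 2 hm
  set u := ZMod.unitOfCoprime 2 hm with hudef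
  have hu' : (u : ZMod m) = 2 := by
    rw [hu]
    norm_cast
  refine Nat.card_congr (Equiv.subtypeEquiv ((Units.mulLeft u).trans (Equiv.addRight 1)) fun x => ?_)
  have e1 : ((Units.mulLeft u).trans (Equiv.addRight 1)) x = 2 * x + 1 := by
    change (u : ZMod m) * x + 1 = 2 * x + 1
    rw [hu']
  rw [e1]
  have e2 : (n : ZMod m) + 1 = 4 * c := by exact_mod_cast congrArg (fun t : ℕ => (t : ZMod m)) hc
  have e3 : (2 * x + 1) ^ 2 + (n : ZMod m) = (u : ZMod m) * ((u : ZMod m) * (x ^ 2 + x + c)) := by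
    rw [hu']
    linear_combination e2
  rw [e3, Units.mul_right_eq_zero, Units.mul_right_eq_zero]

/-- Hensel's lemma at two -/
theorem Rc_succ (c k : ℕ) : Rc c (2 ^ (k + 1 + 1)) = Rc c (2 ^ (k + 1)) := by
  have p1 : 0 < 2 ^ (k + 1) := pow_pos two_pos _
  have p2 : 0 < 2 ^ (k + 1 + 1) := pow_pos two_pos _
  rw [Rc_eq c _ p1, Rc_eq c _ p2]
  refine Finset.card_nbij (fun x => x % 2 ^ (k + 1)) ?_ ?_ ?_
  · intro x hx
    have hx := Finset.mem_filter.1 (Finset.mem_coe.1 hx)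
    refine Finset.mem_coe.2 (Finset.mem_filter.2 ⟨Finset.mem_range.2 (Nat.mod_lt _ p1), ?_⟩)
    have h1 : 2 ^ (k + 1) ∣ x ^ 2 + x + c := (pow_dvd_pow 2 (Nat.le_succ _)).trans hx.2
    have h2 : (x % 2 ^ (k + 1)) ^ 2 + x % 2 ^ (k + 1) + c ≡ x ^ 2 + x + c [MOD 2 ^ (k + 1)] :=
      Nat.ModEq.add_right _ (((Nat.mod_modEq _ _).pow 2).add (Nat.mod_modEq _ _))
    exact (Nat.modEq_zero_iff_dvd.1 (h2.trans (Nat.modEq_zero_iff_dvd.2 h1)))
  · intro x hx y hy hxy
    have hx := Finset.mem_filter.1 (Finset.mem_coe.1 hx)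
    have hy := Finset.mem_filter.1 (Finset.mem_coe.1 hy)
    have h1 : ((2 ^ (k + 1) : ℕ) : ℤ) ∣ (y : ℤ) - x :=
      (Nat.modEq_iff_dvd.1 (show x ≡ y [MOD _] from hxy))
    have hx2 : ((2 ^ (k + 1 + 1) : ℕ) : ℤ) ∣ ((x ^ 2 + x + c : ℕ) : ℤ) :=
      Int.natCast_dvd_natCast.2 hx.2
    have hy2 : ((2 ^ (k + 1 + 1) : ℕ) : ℤ) ∣ ((y ^ 2 + y + c : ℕ) : ℤ) :=
      Int.natCast_dvd_natCast.2 hy.2
    push_cast at h1 hx2 hy2
    have h3 : (2 : ℤ) ^ (k + 1 + 1) ∣ ((y : ℤ) - x) * ((y : ℤ) + x + 1) := by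
      have := Int.dvd_sub hy2 hx2
      have e : ((y : ℤ) ^ 2 + y + c) - ((x : ℤ) ^ 2 + x + c) = ((y : ℤ) - x) * ((y : ℤ) + x + 1) := by
        ring
      rwa [e] at this
    have hl1 : (2 : ℤ) ∣ (2 : ℤ) ^ (k + 1) := dvd_pow_self _ (Nat.succ_ne_zero _)
    have h4 : ¬ (2 : ℤ) ∣ (y : ℤ) + x + 1 := by
      intro h5
      have := hl1.trans h1
      omega
    have h5 : IsCoprime ((2 : ℤ) ^ (k + 1 + 1)) ((y : ℤ) + x + 1) :=
      IsCoprime.pow_left ((Prime.coprime_iff_not_dvd Int.prime_two).2 h4)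
    have h6 : (2 : ℤ) ^ (k + 1 + 1) ∣ (y : ℤ) - x := h5.dvd_of_dvd_mul_right h3
    have h7 : x ≡ y [MOD 2 ^ (k + 1 + 1)] := by
      refine Nat.modEq_iff_dvd.2 ?_
      push_cast
      exact h6
    have h8 := h7
    rw [Nat.ModEq, Nat.mod_eq_of_lt (Finset.mem_range.1 hx.1),
      Nat.mod_eq_of_lt (Finset.mem_range.1 hy.1)] at h8
    exact h8
  · intro y hy
    have hy := Finset.mem_filter.1 (Finset.mem_coe.1 hy)
    obtain ⟨t, ht⟩ := hy.2
    have h2 : 2 ^ (k + 1 + 1) ∣ (y + t * 2 ^ (k + 1)) ^ 2 + (y + t * 2 ^ (k + 1)) + c := by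
      refine ⟨t * (y + 1) + t ^ 2 * 2 ^ k, ?_⟩
      have e : (y + t * 2 ^ (k + 1)) ^ 2 + (y + t * 2 ^ (k + 1)) + c =
        (y ^ 2 + y + c) + t * 2 ^ (k + 1) * (2 * y + 1) + t ^ 2 * (2 ^ (k + 1)) ^ 2 := by ring
      rw [e, ht]
      ring
    refine ⟨(y + t * 2 ^ (k + 1)) % 2 ^ (k + 1 + 1), Finset.mem_coe.2 (Finset.mem_filter.2
      ⟨Finset.mem_range.2 (Nat.mod_lt _ p2), ?_⟩), ?_⟩
    · have h3 := (((Nat.mod_modEq (y + t * 2 ^ (k + 1)) (2 ^ (k + 1 + 1))).pow 2).add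
        (Nat.mod_modEq (y + t * 2 ^ (k + 1)) (2 ^ (k + 1 + 1)))).add_right c
      exact Nat.modEq_zero_iff_dvd.1 (h3.trans (Nat.modEq_zero_iff_dvd.2 h2))
    · change (y + t * 2 ^ (k + 1)) % 2 ^ (k + 1 + 1) % 2 ^ (k + 1) = y
      rw [Nat.mod_mod_of_dvd _ (pow_dvd_pow 2 (Nat.le_succ _)), Nat.add_mul_mod_self_right,
        Nat.mod_eq_of_lt (Finset.mem_range.1 hy.1)]

/-- the sign at two -/
def ch (c : ℕ) : ℤ := if c % 2 = 0 then 1 else -1

theorem Rc_two (c : ℕ) : (Rc c 2 : ℤ) = 1 + ch c := by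
  rw [Rc_eq c 2 two_pos]
  unfold ch
  have h2 : ∀ x : ℕ, 2 ∣ x ^ 2 + x := fun x => by
    have := Nat.even_mul_succ_self x
    rw [pow_two]
    have e : x * x + x = x * (x + 1) := by ring
    rw [e]
    exact this.two_dvd
  split_ifs with h
  · have e : ((range 2).filter fun x => 2 ∣ x ^ 2 + x + c) = range 2 := by
      refine Finset.filter_true_of_mem fun x _ => ?_
      exact (Nat.dvd_add_right (h2 x)).2 (Nat.dvd_of_mod_eq_zero h)
    rw [e, card_range]
    norm_num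
  · have e : ((range 2).filter fun x => 2 ∣ x ^ 2 + x + c) = ∅ := by
      refine Finset.filter_false_of_mem fun x _ h' => ?_
      exact h (Nat.mod_eq_zero_of_dvd ((Nat.dvd_add_right (h2 x)).1 h'))
    rw [e, card_empty]
    norm_num

theorem Rc_two_pow (c k : ℕ) : (Rc c (2 ^ (k + 1)) : ℤ) = 1 + ch c := by
  induction k with
  | zero => rw [zero_add, pow_one, Rc_two]
  | succ k ih => rw [Rc_succ, ih]

/-- the number of solutions as an arithmetic function -/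
noncomputable def RA (c : ℕ) (hc : 0 < c) : ArithmeticFunction ℕ := ⟨Rc c, Rc_zero hc⟩

theorem RA_apply (c : ℕ) (hc : 0 < c) (m : ℕ) : RA c hc m = Rc c m := rfl

theorem RA_mult (c : ℕ) (hc : 0 < c) : (RA c hc).IsMultiplicative :=
  ⟨Rc_one c, fun h => Rc_mul c h⟩

/-- the sum over `e` -/
noncomputable def Sc (c D : ℕ) : ℕ :=
  ∑ e ∈ (range (D + 1)).filter fun e => 0 < e ∧ e ^ 2 ∣ D, Rc c (D / e ^ 2)

theorem Sc_eq (c : ℕ) (hc : 0 < c) (D : ℕ) (hD : 0 < D) : Sc c D = (SQ * RA c hc) D := by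
  classical
  rw [ArithmeticFunction.mul_apply, Sc]
  have h1 : ∀ x ∈ D.divisorsAntidiagonal, SQ x.1 * RA c hc x.2 =
      if IsSquare x.1 then Rc c x.2 else 0 := by
    intro x hx
    rw [SQ_apply, RA_apply]
    have := (Nat.mem_divisorsAntidiagonal.1 hx)
    have h2 : x.1 ≠ 0 := by
      intro h
      rw [h, zero_mul] at this
      exact this.2 this.1.symm
    by_cases h3 : IsSquare x.1 <;> simp [h2, h3]
  rw [Finset.sum_congr rfl h1, ← Finset.sum_filter]
  refine Finset.sum_nbij (fun e => (e ^ 2, D / e ^ 2)) ?_ ?_ ?_ ?_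
  · intro e he
    have he := Finset.mem_filter.1 he
    refine Finset.mem_filter.2 ⟨Nat.mem_divisorsAntidiagonal.2 ⟨Nat.mul_div_cancel' he.2.2, hD.ne'⟩,
      ⟨e, pow_two e⟩⟩
  · intro e he e' he' h
    have h2 : e ^ 2 = e' ^ 2 := (Prod.ext_iff.1 h).1
    exact (Nat.pow_left_injective (n := 2) two_ne_zero) h2
  · intro x hx
    have hx := Finset.mem_filter.1 (Finset.mem_coe.1 hx)
    obtain ⟨e, he⟩ := hx.2
    have h3 := Nat.mem_divisorsAntidiagonal.1 hx.1
    rw [← pow_two] at he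
    have he0 : 0 < e := by
      rcases Nat.eq_zero_or_pos e with h | h
      · rw [he, h] at h3
        exact absurd h3.1.symm (by simpa using hD.ne')
      · exact h
    have hdvd : e ^ 2 ∣ D := ⟨x.2, by rw [← he]; exact h3.1.symm⟩
    refine ⟨e, Finset.mem_coe.2 (Finset.mem_filter.2 ⟨Finset.mem_range.2 ?_, he0, hdvd⟩), ?_⟩
    · have := Nat.le_of_dvd hD hdvd
      nlinarith
    · refine Prod.ext he.symm ?_
      change D / e ^ 2 = x.2
      rw [← h3.1, he]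
      exact Nat.mul_div_cancel_left _ (pow_pos he0 2)
  · intro e _
    rfl

theorem Sc_prod (c : ℕ) (hc : 0 < c) (D : ℕ) (hD : 0 < D) :
    Sc c D = ∏ l ∈ D.primeFactors, Sc c (l ^ D.factorization l) := by
  rw [Sc_eq c hc D hD, IsMultiplicative.multiplicative_factorization _ (SQ_mult.mul (RA_mult c hc))
    hD.ne', Finsupp.prod, Nat.support_factorization]
  refine Finset.prod_congr rfl fun l hl => ?_
  rw [Sc_eq c hc _ (pow_pos (Nat.prime_of_mem_primeFactors hl).pos _)]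

theorem Sc_pow (c : ℕ) (hc : 0 < c) (l : ℕ) (hp : l.Prime) (V : ℕ) :
    Sc c (l ^ V) = ∑ i ∈ range (V + 1), if Even i then Rc c (l ^ (V - i)) else 0 := by
  rw [Sc_eq c hc _ (pow_pos hp.pos _), ArithmeticFunction.mul_apply,
    Nat.sum_divisorsAntidiagonal (fun a b => SQ a * RA c hc b), Nat.sum_divisors_prime_pow hp]
  refine Finset.sum_congr rfl fun i hi => ?_
  rw [SQ_pow l hp, RA_apply, Nat.pow_div (Nat.lt_succ_iff.1 (Finset.mem_range.1 hi)) hp.pos]
  split_ifs <;> simp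

/-- odd primes -/
theorem Sc_odd {n c : ℕ} (hn : n + 1 = 4 * c) (hn0 : 0 < n) (hc : 0 < c) (l : ℕ) (hp : l.Prime)
    (hl : l ≠ 2) (V : ℕ) : Sc c (l ^ V) = S n (l ^ V) := by
  rw [Sc_pow c hc l hp, S_pow n hn0 l hp]
  refine Finset.sum_congr rfl fun i _ => ?_
  rw [Rc_odd hn (Nat.Coprime.pow_right _ ((Nat.coprime_primes Nat.prime_two hp).2 hl.symm))]

theorem Sc_step (c : ℕ) (hc : 0 < c) (l : ℕ) (hp : l.Prime) (V : ℕ) :
    Sc c (l ^ (V + 2)) = Sc c (l ^ V) + Rc c (l ^ (V + 2)) := by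
  rw [Sc_pow c hc l hp, Sc_pow c hc l hp, Finset.sum_range_succ', Finset.sum_range_succ']
  have h1 : ∀ i ∈ range (V + 1), (if Even (i + 1 + 1) then Rc c (l ^ (V + 2 - (i + 1 + 1))) else 0) =
      if Even i then Rc c (l ^ (V - i)) else 0 := by
    intro i _
    have e1 : V + 2 - (i + 1 + 1) = V - i := by omega
    have e2 : Even (i + 1 + 1) ↔ Even i := by
      rw [Nat.even_add_one, Nat.even_add_one, not_not]
    rw [e1]
    simp [e2]
  rw [Finset.sum_congr rfl h1]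
  simp

theorem ch_sq (c : ℕ) : ch c ^ 2 = 1 := by
  unfold ch
  split_ifs <;> norm_num

/-- the prime two -/
theorem Sc_two (c : ℕ) (hc : 0 < c) (V : ℕ) :
    (Sc c (2 ^ V) : ℤ) = ∑ j ∈ range (V + 1), ch c ^ j := by
  have hchi := ch_sq c
  induction V using Nat.twoStepInduction with
  | zero =>
    rw [Sc_pow c hc 2 Nat.prime_two, Finset.sum_range_one]
    simp [Rc_one]
  | one =>
    rw [Sc_pow c hc 2 Nat.prime_two]
    simp [Finset.sum_range_succ, Rc_two]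
  | more V ih _ =>
    rw [Sc_step c hc 2 Nat.prime_two, Nat.cast_add, ih, Rc_two_pow,
      Finset.sum_range_succ _ (V + 2), Finset.sum_range_succ _ (V + 1)]
    have h3 : ch c ^ (V + 1) + ch c ^ (V + 2) = 1 + ch c := by
      rcases Nat.even_or_odd' V with ⟨m, hm | hm⟩
      · rw [hm, pow_succ, pow_add, pow_mul, hchi, one_pow]
        ring
      · rw [hm]
        have e1 : 2 * m + 1 + 1 = 2 * (m + 1) := by ring
        have e2 : 2 * m + 1 + 2 = 2 * (m + 1) + 1 := by ring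
        rw [e1, e2, pow_succ, pow_mul, hchi, one_pow]
        ring
    rw [add_assoc, h3]

/-! ### symbols -/

/-- quadratic reciprocity -/
theorem recip {n l : ℕ} (hn : n % 4 = 3) (hl : l % 2 = 1) :
    jacobiSym (-(n : ℤ)) l = jacobiSym l n := by
  have ho : Odd l := Nat.odd_iff.2 hl
  have hno : Odd n := Nat.odd_iff.2 (by omega)
  have e : (-(n : ℤ)) = (-1) * n := by ring
  rw [e, jacobiSym.mul_left, jacobiSym.at_neg_one ho]
  have h4 : l % 4 = 1 ∨ l % 4 = 3 := by omega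
  rcases h4 with h | h
  · rw [ZMod.χ₄_nat_one_mod_four h, one_mul, jacobiSym.quadratic_reciprocity_one_mod_four h hno]
  · rw [ZMod.χ₄_nat_three_mod_four h, jacobiSym.quadratic_reciprocity_three_mod_four h hn]
    ring

theorem at_two {n c : ℕ} (hn : n + 1 = 4 * c) : jacobiSym (2 : ℤ) n = ch c := by
  have ho : Odd n := Nat.odd_iff.2 (by omega)
  rw [jacobiSym.at_two ho, ZMod.χ₈_nat_eq_if_mod_eight]
  unfold ch
  rw [if_neg (by omega)]
  by_cases h : c % 2 = 0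
  · rw [if_pos h, if_pos (by omega)]
  · rw [if_neg h, if_neg (by omega)]

end Pool.Agent.XV.PCX
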