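import Pool.Agent.XV.PCStm
import Pool.Agent.XV.PCXa

/-!
# XV-14X: evaluation of the number of the parameters
-/

set_option autoImplicit false

namespace Pool.Agent.XV.PCX

open Finset ArithmeticFunction
open Pool.Agent.Z700 (hh)
open Pool.Agent.Y155.Z7 (R S S_unram S_ram J_sq C EQ C_prod C_eq C_local)

/-! ### the local number of solutions -/

theorem fact_scale {l a D : ℕ} (ha : ¬ l ∣ a) (hD : D ≠ 0) :
    (a * D).factorization l = D.factorization l := by
  have ha0 : a ≠ 0 := fun h => ha (h ▸ dvd_zero l)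
  rw [Nat.factorization_mul ha0 hD, Finsupp.add_apply, Nat.factorization_eq_zero_of_not_dvd ha,
    zero_add]

theorem hh_scale {l q n D : ℕ} (hp : l.Prime) (h2 : ¬ l ∣ 2 * q) (hln : l ∣ n) (hD : D ≠ 0) :
    hh (4 * q ^ 2 * n) (16 * q ^ 2 * D) l = hh n D l := by
  have h4 : ¬ l ∣ 4 * q := by
    intro h
    rcases hp.dvd_mul.1 h with h | h
    · exact h2 (Dvd.dvd.mul_right (hp.dvd_of_dvd_pow (show l ∣ 2 ^ 2 from h)) q)
    · exact h2 (Dvd.dvd.mul_left h 2)
  have h16 : ¬ l ∣ 16 * q ^ 2 := by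
    intro h
    have : l ∣ (4 * q) ^ 2 := by
      have e : (4 * q) ^ 2 = 16 * q ^ 2 := by ring
      rw [e]
      exact h
    exact h4 (hp.dvd_of_dvd_pow this)
  have h8 : ¬ l ∣ (2 * q) * (4 * q) := fun h => (hp.dvd_mul.1 h).elim h2 h4
  have e1 := fact_scale (D := D) h16 hD
  have e2 : 16 * q ^ 2 * D / l ^ D.factorization l = 16 * q ^ 2 * (D / l ^ D.factorization l) :=
    Nat.mul_div_assoc _ (Nat.ordProj_dvd D l)
  have e3 : 4 * q ^ 2 * n / l = 4 * q ^ 2 * (n / l) := Nat.mul_div_assoc _ hln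
  unfold hh
  rw [e1, e2, e3]
  split_ifs
  · rw [← J_sq l hp (-((D / l ^ D.factorization l : ℕ) : ℤ)) (4 * q) h4]
    congr 1
    push_cast
    ring
  · rw [← J_sq l hp (-((n / l * (D / l ^ D.factorization l) : ℕ) : ℤ)) ((2 * q) * (4 * q)) h8]
    congr 1
    push_cast
    ring

theorem C_scale {l q : ℕ} (hp : l.Prime) (h2 : ¬ l ∣ 2 * q) (e : ℕ) (b : ℤ) (D' β γ : ℕ) :
    C (2 * q * e) (2 * q * b) D' β γ l = C e b D' β γ l := by
  have : Fact l.Prime := ⟨hp⟩
  have h0 : ((2 * q : ℕ) : ZMod l) ≠ 0 := fun h => h2 ((ZMod.natCast_eq_zero_iff _ _).1 h)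
  unfold C
  refine Nat.card_congr (Equiv.subtypeEquivRight fun x => ?_)
  unfold EQ
  have e1 : ((2 * q * e : ℕ) : ZMod l) * x.1 - ((2 * q * b : ℤ) : ZMod l) =
      ((2 * q : ℕ) : ZMod l) * ((e : ZMod l) * x.1 - (b : ZMod l)) := by
    push_cast
    ring
  rw [e1, mul_eq_zero]
  constructor
  · rintro ⟨h, h'⟩
    exact ⟨h.resolve_left h0, h'⟩
  · rintro ⟨h, h'⟩
    exact ⟨Or.inr h, h'⟩

theorem C_loc {l q n D e β D2 g : ℕ} {m b : ℤ} (hp : l.Prime) (h2 : ¬ l ∣ 2 * q) (hln : l ∣ n)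
    (hl3 : ¬ l ^ 2 ∣ n) (hD0 : 0 < D) (hq : 0 < q) (hD : 4 * (D : ℤ) = n * m - b ^ 2)
    (hDe : D = q * e ^ 2 * D2) (hβ : β ^ 2 + n = 4 * D2 * g) :
    (C e b (4 * q * D2) (2 * q * β) (4 * q * g) l : ℤ) = if l ∣ D then 1 + hh n D l else 1 := by
  have hl2 : l ≠ 2 := by
    rintro rfl
    exact h2 (dvd_mul_right 2 q)
  have h4 : ¬ l ∣ 4 * q ^ 2 := by
    intro h
    have : l ∣ (2 * q) ^ 2 := by
      have e : (2 * q) ^ 2 = 4 * q ^ 2 := by ring
      rw [e]
      exact h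
    exact h2 (hp.dvd_of_dvd_pow this)
  have h16 : ¬ l ∣ 16 * q ^ 2 := by
    intro h
    have e : 16 * q ^ 2 = 2 ^ 2 * (4 * q ^ 2) := by ring
    rw [e] at h
    rcases hp.dvd_mul.1 h with h | h
    · exact h2 (Dvd.dvd.mul_right (hp.dvd_of_dvd_pow h) q)
    · exact h4 h
  rw [← C_scale hp h2 e b]
  have key := C_local (n1 := 4 * q ^ 2 * n) (n2 := m) (b := 2 * q * b) (D := 16 * q ^ 2 * D)
    (e := 2 * q * e) (D' := 4 * q * D2) (β := 2 * q * β) (γ := 4 * q * g) (l := l) hp hl2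
    (Dvd.dvd.mul_left hln _) (fun h => hl3 ?_) (by positivity) ?_ ?_ ?_
  · rw [key, hh_scale hp h2 hln hD0.ne']
    have : l ∣ 16 * q ^ 2 * D ↔ l ∣ D :=
      ⟨fun h => (hp.dvd_mul.1 h).resolve_left h16, fun h => Dvd.dvd.mul_left h _⟩
    by_cases hd : l ∣ D
    · rw [if_pos hd, if_pos (this.2 hd)]
    · rw [if_neg hd, if_neg (fun h => hd (this.1 h))]
  · have hc : Nat.Coprime (l ^ 2) (4 * q ^ 2) :=
      Nat.Coprime.pow_left 2 ((Nat.Prime.coprime_iff_not_dvd hp).2 h4)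
    exact hc.dvd_of_dvd_mul_left h
  · push_cast
    linear_combination (4 * (q : ℤ) ^ 2) * hD
  · rw [hDe]
    ring
  · have : (2 * q * β) ^ 2 + 4 * q ^ 2 * n = 4 * q ^ 2 * (β ^ 2 + n) := by ring
    rw [this, hβ]
    ring

/-! ### the pairs `(e, β)` -/

/-- the pairs `(e, β)` -/
def TQ (q n D : ℕ) : Finset (ℕ × ℕ) :=
  ((range (D + 1)).filter fun e => 0 < e ∧ q * e ^ 2 ∣ D).biUnion fun e =>
    ((range (2 * (D / (q * e ^ 2)))).filter fun β => 4 * (D / (q * e ^ 2)) ∣ β ^ 2 + n).image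
      fun β => (e, β)

theorem mem_TQ (q n D : ℕ) (t : ℕ × ℕ) : t ∈ TQ q n D ↔ t.1 < D + 1 ∧ 0 < t.1 ∧
    q * t.1 ^ 2 ∣ D ∧ t.2 < 2 * (D / (q * t.1 ^ 2)) ∧ 4 * (D / (q * t.1 ^ 2)) ∣ t.2 ^ 2 + n := by
  unfold TQ
  rw [Finset.mem_biUnion]
  constructor
  · rintro ⟨e, he, ht⟩
    obtain ⟨β, hβ, rfl⟩ := Finset.mem_image.1 ht
    have he := Finset.mem_filter.1 he
    have hβ := Finset.mem_filter.1 hβ
    exact ⟨Finset.mem_range.1 he.1, he.2.1, he.2.2, Finset.mem_range.1 hβ.1, hβ.2⟩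
  · rintro ⟨h1, h2, h3, h4, h5⟩
    exact ⟨t.1, Finset.mem_filter.2 ⟨Finset.mem_range.2 h1, h2, h3⟩, Finset.mem_image.2
      ⟨t.2, Finset.mem_filter.2 ⟨Finset.mem_range.2 h4, h5⟩, rfl⟩⟩

/-- the number of the `β` -/
theorem card_beta {n c M : ℕ} (hn : n + 1 = 4 * c) (hM : 0 < M) :
    ((range (2 * M)).filter fun β => 4 * M ∣ β ^ 2 + n).card = Rc c M := by
  rw [Rc_eq c M hM]
  have key : ∀ x : ℕ, 4 * M ∣ (2 * x + 1) ^ 2 + n ↔ M ∣ x ^ 2 + x + c := by
    intro x
    have e : (2 * x + 1) ^ 2 + n = 4 * (x ^ 2 + x + c) := by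
      have : (2 * x + 1) ^ 2 + n = 4 * (x ^ 2 + x) + (n + 1) := by ring
      rw [this, hn]
      ring
    rw [e, Nat.mul_dvd_mul_iff_left (by norm_num)]
  have hodd : ∀ β : ℕ, 4 * M ∣ β ^ 2 + n → β = 2 * (β / 2) + 1 := by
    intro β hβ
    have h4 : 4 ∣ β ^ 2 + n := (dvd_mul_right 4 M).trans hβ
    by_contra hc
    have hev : β = 2 * (β / 2) := by omega
    have : β ^ 2 = 4 * (β / 2) ^ 2 := by
      rw [hev]
      have : 2 * (β / 2) / 2 = β / 2 := by omega
      rw [this]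
      ring
    rw [this] at h4
    omega
  refine Finset.card_nbij' (fun β => β / 2) (fun x => 2 * x + 1) ?_ ?_ ?_ ?_
  · intro β hβ
    have hβ := Finset.mem_filter.1 (Finset.mem_coe.1 hβ)
    have h1 := Finset.mem_range.1 hβ.1
    refine Finset.mem_coe.2 (Finset.mem_filter.2 ⟨Finset.mem_range.2 ?_, ?_⟩)
    · change β / 2 < M
      omega
    · rw [← key, ← hodd β hβ.2]
      exact hβ.2
  · intro x hx
    have hx := Finset.mem_filter.1 (Finset.mem_coe.1 hx)
    have h1 := Finset.mem_range.1 hx.1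
    exact Finset.mem_coe.2 (Finset.mem_filter.2 ⟨Finset.mem_range.2
      (show 2 * x + 1 < 2 * M by omega), (key x).2 hx.2⟩)
  · intro β hβ
    have hβ := Finset.mem_filter.1 (Finset.mem_coe.1 hβ)
    exact (hodd β hβ.2).symm
  · intro x _
    change (2 * x + 1) / 2 = x
    omega

theorem card_TQ {q n c D : ℕ} (hn : n + 1 = 4 * c) (hD : 0 < D) (hq : 0 < q) :
    (TQ q n D).card = if q ∣ D then Sc c (D / q) else 0 := by
  unfold TQ
  rw [Finset.card_biUnion]
  · split_ifs with h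
    · unfold Sc
      have hD1 : 0 < D / q := Nat.div_pos (Nat.le_of_dvd hD h) hq
      have hset : ((range (D + 1)).filter fun e => 0 < e ∧ q * e ^ 2 ∣ D) =
          (range (D / q + 1)).filter fun e => 0 < e ∧ e ^ 2 ∣ D / q := by
        ext e
        rw [Finset.mem_filter, Finset.mem_filter, Finset.mem_range, Finset.mem_range]
        have h1 : q * e ^ 2 ∣ D ↔ e ^ 2 ∣ D / q := (Nat.dvd_div_iff_mul_dvd h).symm
        constructor
        · rintro ⟨_, h3, h4⟩
          refine ⟨?_, h3, h1.1 h4⟩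
          have := Nat.le_of_dvd hD1 (h1.1 h4)
          nlinarith
        · rintro ⟨h2, h3, h4⟩
          exact ⟨h2.trans_le (Nat.succ_le_succ (Nat.div_le_self D q)), h3, h1.2 h4⟩
      rw [hset]
      refine Finset.sum_congr rfl fun e he => ?_
      have he := Finset.mem_filter.1 he
      rw [Finset.card_image_of_injective _ fun x y h => (Prod.ext_iff.1 h).2, ← Nat.div_div_eq_div_mul]
      exact card_beta hn (Nat.div_pos (Nat.le_of_dvd hD1 he.2.2) (pow_pos he.2.1 2))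
    · refine Finset.sum_eq_zero fun e he => ?_
      have he := Finset.mem_filter.1 he
      exact absurd ((dvd_mul_right q _).trans he.2.2) h
  · intro e _ e' _ hee
    rw [Function.onFun, Finset.disjoint_left]
    intro t ht ht'
    obtain ⟨β, _, rfl⟩ := Finset.mem_image.1 ht
    obtain ⟨β', _, h⟩ := Finset.mem_image.1 ht'
    exact hee (Prod.ext_iff.1 h).1.symm

/-- the fibres -/
theorem fib {q n : ℕ} (hn : 0 < n) (b : ℤ) (D : ℕ) (t : ℕ × ℕ) (ht : t ∈ TQ q n D) :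
    ((XQ q n b D).filter fun x => (x.1, x.2.2.1) = t).card =
      C t.1 b (4 * q * (D / (q * t.1 ^ 2))) (2 * q * t.2)
        (4 * q * ((t.2 ^ 2 + n) / (4 * (D / (q * t.1 ^ 2))))) n := by
  rw [C_eq _ _ _ _ _ _ hn]
  obtain ⟨h1, h2, h3, h4, h5⟩ := (mem_TQ q n D t).1 ht
  refine Finset.card_nbij' (fun x => (x.2.1, x.2.2.2)) (fun p => (t.1, p.1, t.2, p.2)) ?_ ?_ ?_ ?_
  · intro x hx
    have hx := Finset.mem_filter.1 (Finset.mem_coe.1 hx)
    obtain ⟨hq1, hq2⟩ := hx
    unfold XQ at hq1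
    have hq1 := Finset.mem_filter.1 hq1
    have hq3 := Finset.mem_product.1 hq1.1
    have hq4 := Finset.mem_product.1 hq3.2
    have hq5 := Finset.mem_product.1 hq4.2
    rw [← hq2]
    exact Finset.mem_coe.2 (Finset.mem_filter.2 ⟨Finset.mem_product.2 ⟨hq4.1, hq5.2⟩,
      hq1.2.2.2.2.1, hq1.2.2.2.2.2.1, hq1.2.2.2.2.2.2.2.1, hq1.2.2.2.2.2.2.2.2⟩)
  · intro p hp
    have hp := Finset.mem_filter.1 (Finset.mem_coe.1 hp)
    have hp1 := Finset.mem_product.1 hp.1
    refine Finset.mem_coe.2 (Finset.mem_filter.2 ⟨?_, rfl⟩)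
    unfold XQ
    refine Finset.mem_filter.2 ⟨Finset.mem_product.2 ⟨Finset.mem_range.2 h1, Finset.mem_product.2
      ⟨hp1.1, Finset.mem_product.2 ⟨Finset.mem_range.2 (h4.trans_le
        (Nat.mul_le_mul_left 2 (Nat.div_le_self _ _))), hp1.2⟩⟩⟩, h2, h3, h4, hp.2.1, hp.2.2.1, h5,
        hp.2.2.2.1, hp.2.2.2.2⟩
  · intro x hx
    have hx := Finset.mem_filter.1 (Finset.mem_coe.1 hx)
    obtain ⟨_, hq2⟩ := hx
    rw [← hq2]
  · intro p _
    rfl

theorem geom (v : ℕ) : ∑ j ∈ range v, (-1 : ℤ) ^ j = if Odd v then 1 else 0 := by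
  induction v with
  | zero => simp
  | succ v ih =>
    rw [Finset.sum_range_succ, ih]
    rcases Nat.even_or_odd v with h | h
    · rw [if_neg (Nat.not_odd_iff_even.2 h), h.neg_one_pow, if_pos h.add_one]
      norm_num
    · rw [if_pos h, h.neg_one_pow, if_neg (Nat.not_odd_iff_even.2 h.add_one)]
      norm_num

end Pool.Agent.XV.PCX

namespace Pool.Agent.XV

open Finset ArithmeticFunction
open Pool.Agent.Z700 (hh)
open Pool.Agent.Y155.Z7 (S_unram S_ram C_prod)
open PCX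

/-- **XV-14X**: evaluation of the number of the parameters -/
theorem t_PCX : S_PCX := by
  intro q n m b D hK hs hD hDD
  -- the basic facts
  have hq : q.Prime := by rcases hK with ⟨rfl, _⟩ | ⟨rfl, _⟩ <;> norm_num
  have hn60 : n % 60 = 23 ∨ n % 60 = 47 ∨ n % 60 = 19 ∨ n % 60 = 31 := by
    rcases hK with ⟨_, h⟩ | ⟨_, h⟩
    · unfold Kb at h; omega
    · unfold Kd at h; omega
  have hq2 : q ≠ 2 := by rcases hK with ⟨rfl, _⟩ | ⟨rfl, _⟩ <;> norm_num
  have hqn : ¬ q ∣ n := by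
    rcases hK with ⟨rfl, h⟩ | ⟨rfl, h⟩
    · unfold Kb at h; omega
    · unfold Kd at h; omega
  have hjq : jacobiSym (-(n : ℤ)) q = -1 := by
    rcases hK with ⟨rfl, h⟩ | ⟨rfl, h⟩
    · unfold Kb at h
      rw [jacobiSym.mod_left]
      rcases h with h | h
      · rw [show (-(n : ℤ)) % ((5 : ℕ) : ℤ) = 2 by push_cast; omega]
        decide +kernel
      · rw [show (-(n : ℤ)) % ((5 : ℕ) : ℤ) = 3 by push_cast; omega]
        decide +kernel
    · unfold Kd at h
      rw [jacobiSym.mod_left, show (-(n : ℤ)) % ((3 : ℕ) : ℤ) = 2 by push_cast; omega]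
      decide +kernel
  obtain ⟨c, hc⟩ : ∃ c, n + 1 = 4 * c := ⟨(n + 1) / 4, by omega⟩
  have hn0 : 0 < n := by omega
  have hc0 : 0 < c := by omega
  have hdvd : ∀ l, l.Prime → l ∣ n → ¬ l ∣ 2 * q ∧ ¬ l ^ 2 ∣ n := by
    intro l hp hl
    refine ⟨fun h => ?_, fun h => ?_⟩
    · rcases hp.dvd_mul.1 h with h | h
      · rw [(Nat.prime_dvd_prime_iff_eq hp Nat.prime_two).1 h] at hl
        omega
      · rw [(Nat.prime_dvd_prime_iff_eq hp hq).1 h] at hl
        exact hqn hl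
    · rw [pow_two] at h
      exact hp.one_lt.ne' (Nat.isUnit_iff.1 (hs l h))
  -- the fibres
  have h1 : ∀ t ∈ TQ q n D, (((XQ q n b D).filter fun x => (x.1, x.2.2.1) = t).card : ℤ) =
      ∏ l ∈ n.primeFactors, if l ∣ D then 1 + hh n D l else 1 := by
    intro t ht
    obtain ⟨g1, g2, g3, g4, g5⟩ := (mem_TQ q n D t).1 ht
    have hqt : 0 < q * t.1 ^ 2 := Nat.mul_pos hq.pos (pow_pos g2 2)
    have hD' : 0 < D / (q * t.1 ^ 2) := Nat.div_pos (Nat.le_of_dvd hD g3) hqt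
    rw [fib hn0 b D t ht, C_prod _ _ _ _ _ (Nat.mul_pos (Nat.mul_pos (by norm_num) hq.pos) hD') hs,
      Nat.cast_prod]
    refine Finset.prod_congr rfl fun l hl => ?_
    have hl1 := Nat.prime_of_mem_primeFactors hl
    have hl2 := Nat.dvd_of_mem_primeFactors hl
    exact C_loc (m := m) hl1 (hdvd l hl1 hl2).1 hl2 (hdvd l hl1 hl2).2 hD hq.pos hDD
      (Nat.mul_div_cancel' g3).symm (Nat.mul_div_cancel' g5).symm
  have h2 : ((XQ q n b D).card : ℤ) = (TQ q n D).card *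
      ∏ l ∈ n.primeFactors, (if l ∣ D then 1 + hh n D l else 1) := by
    rw [Finset.card_eq_sum_card_fiberwise (f := fun x => (x.1, x.2.2.1)) (t := TQ q n D),
      Nat.cast_sum, Finset.sum_congr rfl h1, Finset.sum_const, nsmul_eq_mul]
    intro x hx
    have hx := Finset.mem_coe.1 hx
    unfold XQ at hx
    have hx := Finset.mem_filter.1 hx
    have hx3 := Finset.mem_product.1 hx.1
    exact Finset.mem_coe.2 ((mem_TQ q n D _).2 ⟨Finset.mem_range.1 hx3.1, hx.2.1, hx.2.2.1,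
      hx.2.2.2.1, hx.2.2.2.2.2.2.1⟩)
  have h4 : ∏ l ∈ n.primeFactors, (if l ∣ D then 1 + hh n D l else 1) =
      ∏ l ∈ D.primeFactors.erase q, (if l ∣ n then 1 + hh n D l else 1) := by
    rw [← Finset.prod_filter, ← Finset.prod_filter]
    refine Finset.prod_congr ?_ fun _ _ => rfl
    ext l
    rw [Finset.mem_filter, Finset.mem_filter, Finset.mem_erase, Nat.mem_primeFactors,
      Nat.mem_primeFactors]
    constructor
    · rintro ⟨⟨a1, a2, _⟩, a4⟩
      refine ⟨⟨?_, a1, a4, hD.ne'⟩, a2⟩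
      rintro rfl
      exact hqn a2
    · rintro ⟨⟨_, a1, a4, _⟩, a2⟩
      exact ⟨⟨a1, a2, hn0.ne'⟩, a4⟩
  rw [h2, card_TQ hc hD hq.pos, h4]
  by_cases hqD : q ∣ D
  · rw [if_pos hqD]
    have hD1 : 0 < D / q := Nat.div_pos (Nat.le_of_dvd hD hqD) hq.pos
    have hfac : ∀ l, (D / q).factorization l = D.factorization l - q.factorization l := by
      intro l
      rw [Nat.factorization_div hqD]
      rfl
    have hmemq : q ∈ D.primeFactors := Nat.mem_primeFactors.2 ⟨hq, hqD, hD.ne'⟩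
    have h5 : Sc c (D / q) = ∏ l ∈ D.primeFactors, Sc c (l ^ (D / q).factorization l) := by
      rw [Sc_prod c hc0 _ hD1]
      refine Finset.prod_subset ?_ ?_
      · exact Nat.primeFactors_mono (Nat.div_dvd_of_dvd hqD) hD.ne'
      · intro l hl hl'
        have hlp := Nat.prime_of_mem_primeFactors hl
        have h0 : (D / q).factorization l = 0 := by
          refine Nat.factorization_eq_zero_of_not_dvd fun h => hl' ?_
          exact Nat.mem_primeFactors.2 ⟨hlp, h, hD1.ne'⟩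
        rw [h0, Sc_pow c hc0 l hlp, Finset.sum_range_one]
        simp [Rc_one]
    have hv : 0 < D.factorization q := hq.factorization_pos_of_dvd hD.ne' hqD
    have h6 : ((Sc c (q ^ (D / q).factorization q) : ℕ) : ℤ) =
        if Odd (D.factorization q) then 1 else 0 := by
      rw [hfac, hq.factorization_self, Sc_odd hc hn0 hc0 q hq hq2, S_unram n hn0 q hq hq2 hqn, hjq,
        Nat.sub_add_cancel hv, geom]
    have h7 : ∀ l ∈ D.primeFactors.erase q, ((Sc c (l ^ (D / q).factorization l) : ℕ) : ℤ) *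
        (if l ∣ n then 1 + hh n D l else 1) = fc n D l := by
      intro l hl
      have hl0 := Finset.mem_erase.1 hl
      have hlp := Nat.prime_of_mem_primeFactors hl0.2
      have hv0 : q.factorization l = 0 := by
        refine Nat.factorization_eq_zero_of_not_dvd fun h => ?_
        exact hl0.1 ((Nat.prime_dvd_prime_iff_eq hlp hq).1 h)
      rw [hfac, hv0, Nat.sub_zero]
      unfold fc
      by_cases hln : l ∣ n
      · have hl2 : l ≠ 2 := by
          rintro rfl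
          omega
        rw [if_pos hln, if_pos hln, Sc_odd hc hn0 hc0 l hlp hl2,
          S_ram n hn0 l hlp hln (hdvd l hlp hln).2, Nat.cast_one, one_mul]
      · rw [if_neg hln, if_neg hln, mul_one]
        by_cases hl2 : l = 2
        · subst hl2
          rw [Sc_two c hc0]
          have := at_two hc
          rw [show ((2 : ℕ) : ℤ) = 2 by norm_num, this]
        · rw [Sc_odd hc hn0 hc0 l hlp hl2, S_unram n hn0 l hlp hl2 hln]
          have hlo : l % 2 = 1 := by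
            rcases hlp.eq_two_or_odd with h | h
            · exact absurd h hl2
            · exact h
          rw [recip (by omega) hlo]
    rw [h5, Nat.cast_prod, ← Finset.mul_prod_erase _ _ hmemq, h6, mul_assoc,
      ← Finset.prod_mul_distrib, Finset.prod_congr rfl h7]
    split_ifs
    · rw [one_mul]
    · rw [zero_mul]
  · rw [if_neg hqD, if_neg]
    · simp
    · rw [Nat.factorization_eq_zero_of_not_dvd hqD]
      decide

end Pool.Agent.XV
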