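import Pool.Agent.XV.PSB

/-!
# Project XV: the number of pairs of vectors with a common line
-/

set_option autoImplicit false

namespace Pool.Agent.XV.PSC

open Finset
open Pool.Agent.Z700 (V3 pr un hh)
open Pool.Agent.XV.PSA (L Co)
open Pool.Agent.XV.PSB

/-! ### counting -/

theorem cpl_neg (q N T : ℕ) (β : ℤ) (h : ∀ m v, v ∈ vec q m ↔ bl q v v = m) :
    cpl q N T (-β) = cpl q N T β := by
  unfold cpl
  refine Finset.card_nbij' (fun x => (-x.1, -x.2)) (fun x => (-x.1, -x.2)) ?_ ?_ ?_ ?_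
  · rintro ⟨v, w⟩ hx
    simp only [Finset.coe_filter, Set.mem_ofPred_eq, Finset.mem_product, h] at hx ⊢
    obtain ⟨⟨h1, h2⟩, h3, h4⟩ := hx
    rw [bl_neg, bl_neg, bl_neg]
    refine ⟨⟨h1, h2⟩, h3, ?_⟩
    have := com_neg v w (-β) h4
    rwa [neg_neg] at this
  · rintro ⟨v, w⟩ hx
    simp only [Finset.coe_filter, Set.mem_ofPred_eq, Finset.mem_product, h] at hx ⊢
    obtain ⟨⟨h1, h2⟩, h3, h4⟩ := hx
    rw [bl_neg, bl_neg, bl_neg]
    exact ⟨⟨h1, h2⟩, h3, com_neg v w β h4⟩
  · rintro ⟨v, w⟩ _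
    simp
  · rintro ⟨v, w⟩ _
    simp

open Classical in
/-- the pairs of vectors congruent modulo `r` -/
noncomputable def cpc (q r N T : ℕ) : ℕ := ((vec q (N : ℤ) ×ˢ vec q (N : ℤ)).filter fun x =>
  bl q x.1 x.2 = (N : ℤ) - 2 * T ∧ ∀ i, (r : ℤ) ∣ (x.1 - x.2) i).card

section

variable {q r : ℕ} [hrp : Fact r.Prime] {C Ci : V3 → V3}

theorem beta_ne {N : ℕ} {β : ℤ} (hβ : (r : ℤ) ∣ β ^ 2 + N) (hN : ¬ r ∣ N) : (β : ZMod r) ≠ 0 := by
  intro h0
  apply hN
  rw [← zd] at h0
  have h1 : (r : ℤ) ∣ β ^ 2 := Dvd.dvd.pow h0 two_ne_zero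
  have h2 := (dvd_add_right h1).1 hβ
  exact_mod_cast h2

theorem beta_sq {N : ℕ} {β : ℤ} (hβ : (r : ℤ) ∣ β ^ 2 + N) :
    ((N : ℤ) : ZMod r) = -(β : ZMod r) ^ 2 := by
  rw [zd] at hβ
  push_cast at hβ ⊢
  linear_combination hβ

theorem cpl_zero (h : Tr q r C Ci) (hr2 : (2 : ZMod r) ≠ 0) {N T : ℕ} {β : ℤ}
    (hβ : (r : ℤ) ∣ β ^ 2 + N) (hN : ¬ r ∣ N) (hT : ¬ r ∣ T) : cpl q N T β = 0 := by
  classical
  unfold cpl
  rw [Finset.card_eq_zero, Finset.filter_eq_empty_iff]
  rintro ⟨v, w⟩ hx ⟨h3, h4⟩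
  have b0 := beta_ne hβ hN
  rw [com_iff h] at h4
  have h5 := PSA.co_dot (neg_ne_zero.2 b0) h4
  rw [← dot_cast h, h3] at h5
  apply hT
  have h6 := beta_sq (r := r) hβ
  push_cast at h5 h6
  have h7 : (2 : ZMod r) * (T : ZMod r) = 0 := by linear_combination h6 - h5
  rcases mul_eq_zero.1 h7 with h8 | h8
  · exact absurd h8 hr2
  · exact (ZMod.natCast_eq_zero_iff T r).1 h8

theorem cpl_add (h : Tr q r C Ci) (hr2 : (2 : ZMod r) ≠ 0) {N T : ℕ} {β : ℤ}
    (hβ : (r : ℤ) ∣ β ^ 2 + N) (hN : ¬ r ∣ N) (hT : r ∣ T) :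
    cpl q N T β + cpl q N T (-β) = cpa q N T + cpc q r N T := by
  classical
  have e1 : ∀ β : ℤ, cpl q N T β = ∑ x ∈ (vec q (N : ℤ) ×ˢ vec q (N : ℤ)).filter (fun x =>
      bl q x.1 x.2 = (N : ℤ) - 2 * T), if Com q β x.1 x.2 then 1 else 0 := by
    intro β
    unfold cpl
    rw [← Finset.filter_filter, Finset.card_filter]
  have e2 : cpc q r N T = ∑ x ∈ (vec q (N : ℤ) ×ˢ vec q (N : ℤ)).filter (fun x =>
      bl q x.1 x.2 = (N : ℤ) - 2 * T), if ∀ i, (r : ℤ) ∣ (x.1 - x.2) i then 1 else 0 := by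
    unfold cpc
    rw [← Finset.filter_filter, Finset.card_filter]
  have e3 : cpa q N T = ∑ x ∈ (vec q (N : ℤ) ×ˢ vec q (N : ℤ)).filter (fun x =>
      bl q x.1 x.2 = (N : ℤ) - 2 * T), 1 := by
    unfold cpa
    rw [Finset.card_eq_sum_ones]
  rw [e1 β, e1 (-β), e2, e3, ← Finset.sum_add_distrib, ← Finset.sum_add_distrib]
  refine Finset.sum_congr rfl ?_
  rintro ⟨v, w⟩ hx
  rw [Finset.mem_filter, Finset.mem_product, h.vecm, h.vecm] at hx
  obtain ⟨⟨h1, h2⟩, h3⟩ := hx
  simp only at h1 h2 h3 ⊢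
  have b0 := beta_ne hβ hN
  have bs := beta_sq (r := r) hβ
  have hT0 : (T : ZMod r) = 0 := (ZMod.natCast_eq_zero_iff T r).2 hT
  have k1 := dot_cast (r := r) h v v
  have k2 := dot_cast (r := r) h w w
  have k3 := dot_cast (r := r) h v w
  rw [h1, bs] at k1
  rw [h2, bs] at k2
  rw [h3] at k3
  push_cast at k3 bs
  rw [hT0, bs] at k3
  have key := PSA.count hr2 (v := cst r (C v)) (w := cst r (C w)) (β1 := -(β : ZMod r))
    (β2 := -(β : ZMod r)) (neg_ne_zero.2 b0) (neg_ne_zero.2 b0)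
    (by linear_combination -k1) (by linear_combination -k2) (by linear_combination -k3)
  have c1 : Com q β v w ↔ Co (cst r (C v)) (cst r (C w)) (-(β : ZMod r)) (-(β : ZMod r)) :=
    com_iff h v w β
  have c2 : Com q (-β) v w ↔ Co (cst r (C v)) (cst r (C w)) (-(-(β : ZMod r))) (-(-(β : ZMod r))) := by
    have := com_iff (r := r) h v w (-β)
    push_cast at this
    exact this
  have c3 : (∀ i, -(β : ZMod r) * cst r (C v) i = -(β : ZMod r) * cst r (C w) i) ↔
      ∀ i, (r : ℤ) ∣ (v - w) i := by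
    have c4 : (∀ i, -(β : ZMod r) * cst r (C v) i = -(β : ZMod r) * cst r (C w) i) ↔
        ∀ i, (r : ℤ) ∣ C (v - w) i := by
      refine forall_congr' fun i => ?_
      rw [h.sub, zd]
      push_cast
      rw [mul_right_inj' (neg_ne_zero.2 b0)]
      exact sub_eq_zero.symm
    rw [c4]
    constructor
    · intro H
      have := h.dvi _ H
      rwa [h.inv'] at this
    · exact h.dv _
  by_cases p1 : Com q β v w <;> by_cases p2 : Com q (-β) v w <;>
    by_cases p3 : ∀ i, (r : ℤ) ∣ (v - w) i <;>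
    simp only [if_pos, if_neg, p1, p2, p3, c1.1, not_false_eq_true] at key ⊢ <;>
    simp only [← c1, ← c2, c3, p1, p2, p3] at key <;>
    simpa using key

omit hrp in
theorem bl_tr (v u : V3) : bl q v (fun i => v i + r * u i) = bl q v v + r * bl q v u := by
  unfold bl
  split_ifs <;> ring

omit hrp in
theorem bl_tr2 (v u : V3) : bl q (fun i => v i + (r : ℤ) * u i) (fun i => v i + (r : ℤ) * u i) =
    bl q v v + 2 * r * bl q v u + r ^ 2 * bl q u u := by
  unfold bl
  split_ifs <;> ring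

/-- the pairs congruent modulo `r` -/
theorem cpc_eq (h : Tr q r C Ci) {N T : ℕ} {b m : ℤ} (hb : (r : ℤ) * b = -2 * T)
    (hm : (r : ℤ) ^ 2 * m = 4 * T) : cpc q r N T = cpg q N b m := by
  have r0 : (r : ℤ) ≠ 0 := by exact_mod_cast hrp.out.ne_zero
  unfold cpc cpg
  refine Finset.card_nbij' (fun x => (x.1, fun i => (x.2 i - x.1 i) / r))
    (fun x => (x.1, fun i => x.1 i + r * x.2 i)) ?_ ?_ ?_ ?_
  · rintro ⟨v, w⟩ hx
    simp only [Finset.coe_filter, Set.mem_ofPred_eq, Finset.mem_product, h.vecm] at hx ⊢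
    obtain ⟨⟨h1, h2⟩, h3, h4⟩ := hx
    have h5 : ∀ i, ∃ u : ℤ, w i = v i + r * u := by
      intro i
      obtain ⟨u, hu⟩ := h4 i
      refine ⟨-u, ?_⟩
      rw [Pi.sub_apply] at hu
      linear_combination -hu
    choose u hu using h5
    have hw : w = fun i => v i + r * u i := funext hu
    have hU : (fun i => (w i - v i) / (r : ℤ)) = u := by
      funext i
      rw [hu i, add_sub_cancel_left]
      exact Int.mul_ediv_cancel_left _ r0
    rw [hU]
    rw [hw, bl_tr] at h3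
    rw [hw, bl_tr2] at h2
    rw [h1] at h2 h3
    have e1 : (r : ℤ) * bl q v u = r * b := by linear_combination h3 - hb
    have e2 : bl q v u = b := mul_left_cancel₀ r0 e1
    rw [e2] at h2
    have e3 : (r : ℤ) ^ 2 * bl q u u = r ^ 2 * m := by linear_combination h2 - hm - 2 * hb
    exact ⟨⟨h1, mul_left_cancel₀ (pow_ne_zero 2 r0) e3⟩, e2⟩
  · rintro ⟨v, u⟩ hx
    simp only [Finset.coe_filter, Set.mem_ofPred_eq, Finset.mem_product, h.vecm] at hx ⊢
    obtain ⟨⟨h1, h2⟩, h3⟩ := hx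
    rw [bl_tr2, bl_tr, h1, h2, h3]
    refine ⟨⟨rfl, by linear_combination 2 * hb + hm⟩, by linear_combination hb, ?_⟩
    intro i
    rw [Pi.sub_apply]
    exact ⟨-u i, by ring⟩
  · rintro ⟨v, w⟩ hx
    simp only [Finset.coe_filter, Set.mem_ofPred_eq, Finset.mem_product, h.vecm] at hx ⊢
    obtain ⟨-, -, h4⟩ := hx
    refine Prod.ext rfl ?_
    funext i
    show v i + r * ((w i - v i) / r) = w i
    have : (r : ℤ) ∣ w i - v i := by
      have := h4 i
      rw [Pi.sub_apply] at this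
      rw [← dvd_neg, neg_sub]
      exact this
    rw [Int.mul_ediv_cancel' this]
    ring
  · rintro ⟨v, u⟩ _
    refine Prod.ext rfl ?_
    funext i
    show (v i + r * u i - v i) / (r : ℤ) = u i
    rw [add_sub_cancel_left]
    exact Int.mul_ediv_cancel_left _ r0

theorem cpc_zero (h : Tr q r C Ci) (hr2 : r ≠ 2) {N T : ℕ} (hT : ¬ r ^ 2 ∣ T) :
    cpc q r N T = 0 := by
  unfold cpc
  rw [Finset.card_eq_zero, Finset.filter_eq_empty_iff]
  rintro ⟨v, w⟩ hx ⟨h3, h4⟩
  rw [Finset.mem_product, h.vecm, h.vecm] at hx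
  obtain ⟨h1, h2⟩ := hx
  simp only at h1 h2 h3 h4
  have h5 : ∀ i, ∃ u : ℤ, w i = v i + r * u := by
    intro i
    obtain ⟨u, hu⟩ := h4 i
    refine ⟨-u, ?_⟩
    rw [Pi.sub_apply] at hu
    linear_combination -hu
  choose u hu using h5
  have hw : w = fun i => v i + r * u i := funext hu
  rw [hw, bl_tr] at h3
  rw [hw, bl_tr2] at h2
  rw [h1] at h2 h3
  have e3 : (4 : ℤ) * T = (r : ℤ) ^ 2 * bl q u u := by linear_combination 2 * h3 - h2
  have e4 : ((r ^ 2 : ℕ) : ℤ) ∣ ((4 * T : ℕ) : ℤ) := ⟨bl q u u, by push_cast; exact e3⟩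
  rw [Int.natCast_dvd_natCast] at e4
  apply hT
  have e5 : Nat.Coprime (r ^ 2) 4 := by
    have : Nat.Coprime r 2 := (Nat.coprime_primes hrp.out Nat.prime_two).2 hr2
    exact Nat.Coprime.pow 2 2 this
  exact e5.dvd_of_dvd_mul_left e4

/-! ### the local factors -/

omit hrp in
theorem fc_r {N D : ℕ} (hN : ¬ r ∣ N) (hj : jacobiSym (r : ℤ) N = 1) :
    fc N D r = (D.factorization r : ℤ) + 1 := by
  unfold fc
  rw [if_neg hN, hj]
  simp

theorem fact_sq {D' l : ℕ} (hD' : 0 < D') (hl : l.Prime) (hlr : l ≠ r) :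
    (r ^ 2 * D').factorization l = D'.factorization l := by
  rw [Nat.factorization_mul (pow_ne_zero 2 hrp.out.ne_zero) hD'.ne']
  have h49 : (r ^ 2).factorization l = 0 := by
    apply Nat.factorization_eq_zero_of_not_dvd
    intro h
    have h2 := hl.dvd_of_dvd_pow h
    rw [Nat.prime_dvd_prime_iff_eq hl hrp.out] at h2
    exact hlr h2
  rw [Finsupp.add_apply, h49, zero_add]

theorem fact_sq_r {D' : ℕ} (hD' : 0 < D') :
    (r ^ 2 * D').factorization r = 2 + D'.factorization r := by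
  rw [Nat.factorization_mul (pow_ne_zero 2 hrp.out.ne_zero) hD'.ne']
  have h49 : (r ^ 2).factorization r = 2 := by
    rw [Nat.Prime.factorization_pow hrp.out]
    simp
  rw [Finsupp.add_apply, h49]

theorem jac_sq (x : ℤ) {l : ℕ} (hl : l.Prime) (hlr : l ≠ r) :
    jacobiSym ((r : ℤ) ^ 2 * x) l = jacobiSym x l := by
  rw [jacobiSym.mul_left]
  have h1 : jacobiSym ((r : ℤ) ^ 2) l = 1 := by
    apply jacobiSym.sq_one'
    rw [Int.gcd_comm]
    have h2 : Nat.Coprime l r := (Nat.coprime_primes hl hrp.out).2 hlr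
    exact_mod_cast h2
  rw [h1, one_mul]

theorem fc_sq {N D' l : ℕ} (hD' : 0 < D') (hl : l.Prime) (hlr : l ≠ r) :
    fc N (r ^ 2 * D') l = fc N D' l := by
  unfold fc hh
  rw [fact_sq hD' hl hlr]
  have h1 : r ^ 2 * D' / l ^ D'.factorization l = r ^ 2 * (D' / l ^ D'.factorization l) :=
    Nat.mul_div_assoc _ (Nat.ordProj_dvd D' l)
  rw [h1]
  have h2 : (-((r ^ 2 * (D' / l ^ D'.factorization l) : ℕ) : ℤ)) =
      (r : ℤ) ^ 2 * (-((D' / l ^ D'.factorization l : ℕ) : ℤ)) := by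
    push_cast
    ring
  have h3 : (-((N / l * (r ^ 2 * (D' / l ^ D'.factorization l)) : ℕ) : ℤ)) =
      (r : ℤ) ^ 2 * (-((N / l * (D' / l ^ D'.factorization l) : ℕ) : ℤ)) := by
    push_cast
    ring
  rw [h2, h3, jac_sq _ hl hlr, jac_sq _ hl hlr]

theorem pf_sq {q D' : ℕ} (hD' : 0 < D') :
    ((r ^ 2 * D').primeFactors.erase q).erase r = (D'.primeFactors.erase q).erase r := by
  rw [Nat.primeFactors_mul (pow_ne_zero 2 hrp.out.ne_zero) hD'.ne']
  have h49 : (r ^ 2).primeFactors = {r} :=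
    Nat.primeFactors_prime_pow (by norm_num) hrp.out
  rw [h49]
  ext x
  simp only [Finset.mem_erase, Finset.mem_union, Finset.mem_singleton]
  tauto

theorem prod_split {q N D : ℕ} (hqr : r ≠ q) (hD : 0 < D) (hN : ¬ r ∣ N)
    (hj : jacobiSym (r : ℤ) N = 1) : ∏ l ∈ D.primeFactors.erase q, fc N D l =
      ((D.factorization r : ℤ) + 1) * ∏ l ∈ (D.primeFactors.erase q).erase r, fc N D l := by
  by_cases h : r ∈ D.primeFactors.erase q
  · rw [← Finset.mul_prod_erase _ _ h, fc_r hN hj]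
  · rw [Finset.erase_eq_of_notMem h]
    have h2 : D.factorization r = 0 := by
      apply Nat.factorization_eq_zero_of_not_dvd
      intro h3
      apply h
      rw [Finset.mem_erase, Nat.mem_primeFactors]
      exact ⟨hqr, hrp.out, h3, hD.ne'⟩
    rw [h2]
    simp

/-! ### the main computation -/

theorem main (h : Tr q r C Ci) (hr2 : r ≠ 2) (hqr : r ≠ q) (hq : q.Prime) {N T : ℕ} {β : ℤ} {c : ℤ}
    (hβ : (r : ℤ) ∣ β ^ 2 + N) (hN : ¬ r ∣ N) (hj : jacobiSym (r : ℤ) N = 1) (hT : 0 < T)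
    (hTN : T < N)
    (H : ∀ b m : ℤ, ∀ D : ℕ, 0 < D → 4 * (D : ℤ) = N * m - b ^ 2 → (cpg q N b m : ℤ) =
      if Odd (D.factorization q) then c * ∏ l ∈ D.primeFactors.erase q, fc N D l else 0) :
    (cpl q N T β : ℤ) = if Odd ((T * (N - T)).factorization q) then
      c * (T.factorization r : ℤ) * ∏ l ∈ ((T * (N - T)).primeFactors.erase q).erase r,
        fc N (T * (N - T)) l else 0 := by
  have two_ne : (2 : ZMod r) ≠ 0 := by
    intro h0
    have h1 : ((2 : ℕ) : ZMod r) = 0 := by exact_mod_cast h0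
    rw [ZMod.natCast_eq_zero_iff] at h1
    exact hr2 ((Nat.prime_dvd_prime_iff_eq hrp.out Nat.prime_two).1 h1)
  by_cases hrT : r ∣ T
  · have hNT : ¬ r ∣ N - T := by
      intro h1
      apply hN
      have := Nat.dvd_add h1 hrT
      rwa [Nat.sub_add_cancel hTN.le] at this
    have hD : 0 < T * (N - T) := Nat.mul_pos hT (Nat.sub_pos_of_lt hTN)
    have h4 : 4 * ((T * (N - T) : ℕ) : ℤ) = (N : ℤ) * N - ((N : ℤ) - 2 * T) ^ 2 := by
      rw [Nat.cast_mul, Nat.cast_sub hTN.le]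
      ring
    have hfr : (T * (N - T)).factorization r = T.factorization r := by
      rw [Nat.factorization_mul hT.ne' (Nat.sub_pos_of_lt hTN).ne']
      simp [Nat.factorization_eq_zero_of_not_dvd hNT]
    have k1 := cpl_add h two_ne hβ hN hrT
    rw [cpl_neg q N T β h.vecm] at k1
    have k2 := H _ _ _ hD h4
    rw [← cpa_eq, prod_split hqr hD hN hj, hfr] at k2
    have k3 : (cpc q r N T : ℤ) = if Odd ((T * (N - T)).factorization q) then
        c * (((T.factorization r : ℤ) - 1) * ∏ l ∈ ((T * (N - T)).primeFactors.erase q).erase r,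
          fc N (T * (N - T)) l) else 0 := by
      by_cases h2 : r ^ 2 ∣ T
      · obtain ⟨S, hS⟩ := h2
        have hS0 : 0 < S := by
          rcases Nat.eq_zero_or_pos S with h0 | h0
          · rw [h0] at hS
            omega
          · exact h0
        have hD' : 0 < S * (N - T) := Nat.mul_pos hS0 (Nat.sub_pos_of_lt hTN)
        have e1 : T * (N - T) = r ^ 2 * (S * (N - T)) := by
          rw [← mul_assoc, ← hS]
        have e2 : 4 * ((S * (N - T) : ℕ) : ℤ) = (N : ℤ) * (4 * S) - (-2 * r * S) ^ 2 := by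
          rw [Nat.cast_mul, Nat.cast_sub hTN.le]
          have : (T : ℤ) = r ^ 2 * S := by exact_mod_cast hS
          rw [this]
          ring
        have e3 := H _ _ _ hD' e2
        have e4 : cpc q r N T = cpg q N (-2 * r * S) (4 * S) := by
          apply cpc_eq h
          · have : (T : ℤ) = r ^ 2 * S := by exact_mod_cast hS
            rw [this]
            ring
          · have : (T : ℤ) = r ^ 2 * S := by exact_mod_cast hS
            rw [this]
            ring
        rw [e4, e3, prod_split hqr hD' hN hj]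
        have e5 : (S * (N - T)).factorization q = (T * (N - T)).factorization q := by
          rw [e1, fact_sq hD' hq hqr.symm]
        have e6 : ((S * (N - T)).factorization r : ℤ) + 1 = (T.factorization r : ℤ) - 1 := by
          have := fact_sq_r (r := r) hD'
          rw [← e1, hfr] at this
          rw [this]
          push_cast
          ring
        have e7 : ∏ l ∈ ((S * (N - T)).primeFactors.erase q).erase r, fc N (S * (N - T)) l =
            ∏ l ∈ ((T * (N - T)).primeFactors.erase q).erase r, fc N (T * (N - T)) l := by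
          rw [e1, pf_sq hD']
          refine Finset.prod_congr rfl fun l hl => ?_
          rw [Finset.mem_erase, Finset.mem_erase] at hl
          exact (fc_sq hD' (Nat.prime_of_mem_primeFactors hl.2.2) hl.1).symm
        rw [e5, e6, e7]
      · rw [cpc_zero h hr2 h2]
        have e1 : T.factorization r = 1 := by
          have h3 : 1 ≤ T.factorization r := by
            rw [← Nat.Prime.dvd_iff_one_le_factorization hrp.out hT.ne']
            exact hrT
          have h4 : ¬ 2 ≤ T.factorization r := by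
            rw [← Nat.Prime.pow_dvd_iff_le_factorization hrp.out hT.ne']
            exact h2
          omega
        rw [e1]
        simp
    have k4 : 2 * (cpl q N T β : ℤ) = (cpa q N T : ℤ) + (cpc q r N T : ℤ) := by
      rw [← Nat.cast_add, ← k1]
      push_cast
      ring
    have k5 : 2 * (cpl q N T β : ℤ) = 2 * if Odd ((T * (N - T)).factorization q) then
        c * (T.factorization r : ℤ) * ∏ l ∈ ((T * (N - T)).primeFactors.erase q).erase r,
          fc N (T * (N - T)) l else 0 := by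
      rw [k4, k2, k3]
      split_ifs
      · ring
      · ring
    exact mul_left_cancel₀ two_ne_zero k5
  · rw [cpl_zero h two_ne hβ hN hrT, Nat.factorization_eq_zero_of_not_dvd hrT]
    simp

end

theorem j3 {n : ℕ} (h : Kb n) : ¬ 3 ∣ n ∧ jacobiSym ((3 : ℕ) : ℤ) n = 1 := by
  unfold Kb at h
  refine ⟨by omega, ?_⟩
  rw [jacobiSym.quadratic_reciprocity_three_mod_four (by norm_num) (by omega)]
  have h1 : ((n : ℤ)) % ((3 : ℕ) : ℤ) = 2 := by
    push_cast
    omega
  rw [jacobiSym.mod_left, h1]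
  norm_num

theorem j5 {n : ℕ} (h : Kd n) : ¬ 5 ∣ n ∧ jacobiSym ((5 : ℕ) : ℤ) n = 1 := by
  unfold Kd at h
  refine ⟨by omega, ?_⟩
  rw [jacobiSym.quadratic_reciprocity_one_mod_four (by norm_num) (by
    rw [Nat.odd_iff]
    omega)]
  have h1 : ((n : ℤ)) % ((5 : ℕ) : ℤ) = 4 ∨ ((n : ℤ)) % ((5 : ℕ) : ℤ) = 1 := by
    push_cast
    omega
  rw [jacobiSym.mod_left]
  rcases h1 with h1 | h1 <;> rw [h1] <;> norm_num

end Pool.Agent.XV.PSC

namespace Pool.Agent.XV

/-- PS -/
theorem t_PS (h : S_PCG) : S_PS := by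
  intro n hn β T hT hTn
  have : Fact (Nat.Prime 3) := ⟨by norm_num⟩
  have : Fact (Nat.Prime 5) := ⟨by norm_num⟩
  refine ⟨fun hk hβ => ?_, fun hk hβ => ?_⟩
  · obtain ⟨h3, hj⟩ := PSC.j3 hk
    exact PSC.main (r := 3) PSB.tr5 (by norm_num) (by norm_num) (by norm_num) (by exact_mod_cast hβ)
      h3 hj hT hTn fun b m D hD hDD => (h n hn b m D hD hDD).1 hk
  · obtain ⟨h5, hj⟩ := PSC.j5 hk
    exact PSC.main (r := 5) PSB.tr3 (by norm_num) (by norm_num) (by norm_num) (by exact_mod_cast hβ)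
      h5 hj hT hTn fun b m D hD hDD => (h n hn b m D hD hDD).2 hk

/-- PS from the general statement on pairs -/
theorem t_PSq (h : S_PCGq) : S_PS := t_PS (pcg_ofq h)

end Pool.Agent.XV
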