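import Pool.Agent.XV.PCC
import Pool.Agent.XV.PCT
import Pool.Agent.XV.PCX
import Pool.Agent.XV.PS

/-!
# Project XV: the number of pairs of vectors (XV-14, XV-15), assembly
-/

set_option autoImplicit false

namespace Pool.Agent.XV

theorem t_PCGq : S_PCGq := pcg_of (t_PCC t_PCT) t_PCX

theorem t_PC : S_PC := pc_of t_PCGq

theorem f_PS : S_PS := t_PSq t_PCGq

end Pool.Agent.XV
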