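import Pool.Agent.XV.Defs
import Pool.Agent.NH1.Phi

/-!
# Project XV: characters of isotropic vectors modulo `p` (`S_PHI`) and reflections (`S_REF`)
-/

set_option autoImplicit false

namespace Pool.Agent.XV

open Pool.Agent.NH1 (lz)

namespace PhiX

open Pool.Agent.NH1.PhiAux (ext3 two_ne lz_mul lz_pm lz_sq lz_ms)

/-- the determinant of three vectors -/
def dt {R : Type*} [CommRing R] (u v w : Fin 3 → R) : R :=
  u 0 * (v 1 * w 2 - v 2 * w 1) - u 1 * (v 0 * w 2 - v 2 * w 0) + u 2 * (v 0 * w 1 - v 1 * w 0)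

/-- a nondegenerate ternary form of square discriminant -/
structure Good (p : ℕ) (B : (Fin 3 → ZMod p) → (Fin 3 → ZMod p) → ZMod p) (δ : ZMod p) :
    Prop where
  symm : ∀ v w, B v w = B w v
  lin : ∀ v w x k, B (v - k • w) x = B v x - k * B w x
  smul : ∀ k v x, B (k • v) x = k * B v x
  nd : ∀ v, v ≠ 0 → ∃ t, B v t ≠ 0
  gram : ∀ u v w, (δ * dt u v w) ^ 2 = B u u * B v v * B w w + 2 * B u v * B v w * B u w -
    B u u * B v w ^ 2 - B v v * B u w ^ 2 - B w w * B u v ^ 2
  ne : δ ≠ 0
  iso : ∃ u, u ≠ 0 ∧ B u u = 0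

variable {p : ℕ} [Fact p.Prime] {B : (Fin 3 → ZMod p) → (Fin 3 → ZMod p) → ZMod p} {δ : ZMod p}

theorem Good.zl (h : Good p B δ) (x : Fin 3 → ZMod p) : B 0 x = 0 := by
  have := h.smul 0 0 x
  rwa [zero_smul, zero_mul] at this

theorem Good.prop (h : Good p B δ) {v w : Fin 3 → ZMod p} (hv0 : v ≠ 0) (hv : B v v = 0)
    (hw : B w w = 0) (hvw : B v w = 0) : ∃ c : ZMod p, w = c • v := by
  have key : ∀ t, dt v w t = 0 := by
    intro t
    have := h.gram v w t
    rw [hv, hw, hvw] at this
    have h2 : (δ * dt v w t) ^ 2 = 0 := by rw [this]; ring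
    exact (mul_eq_zero.1 ((pow_eq_zero_iff two_ne_zero).1 h2)).resolve_left h.ne
  have k0 : v 1 * w 2 - v 2 * w 1 = 0 := by
    have := key ![1, 0, 0]
    simp only [dt, Matrix.cons_val_zero, Matrix.cons_val_one, Matrix.cons_val] at this
    linear_combination this
  have k1 : v 0 * w 2 - v 2 * w 0 = 0 := by
    have := key ![0, 1, 0]
    simp only [dt, Matrix.cons_val_zero, Matrix.cons_val_one, Matrix.cons_val] at this
    linear_combination -this
  have k2 : v 0 * w 1 - v 1 * w 0 = 0 := by
    have := key ![0, 0, 1]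
    simp only [dt, Matrix.cons_val_zero, Matrix.cons_val_one, Matrix.cons_val] at this
    linear_combination this
  by_cases h0 : v 0 = 0
  · by_cases h1 : v 1 = 0
    · by_cases h2 : v 2 = 0
      · exact absurd (ext3 h0 h1 h2) hv0
      · refine ⟨w 2 / v 2, ext3 ?_ ?_ ?_⟩ <;> simp only [Pi.smul_apply, smul_eq_mul] <;>
          field_simp
        · linear_combination -k1
        · linear_combination -k0
    · refine ⟨w 1 / v 1, ext3 ?_ ?_ ?_⟩ <;> simp only [Pi.smul_apply, smul_eq_mul] <;>
        field_simp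
      · linear_combination -k2
      · linear_combination k0
  · refine ⟨w 0 / v 0, ext3 ?_ ?_ ?_⟩ <;> simp only [Pi.smul_apply, smul_eq_mul] <;>
      field_simp
    · linear_combination k2
    · linear_combination k1

/-- PHI for a general form -/
theorem Good.phi (h : Good p B δ) (h2 : p ≠ 2) : ∃ f : (Fin 3 → ZMod p) → ℤ,
    (∀ v, (B v v ≠ 0 ∨ v = 0) → f v = 0) ∧
    (∀ v, B v v = 0 → v ≠ 0 → f v = 1 ∨ f v = -1) ∧
    (∀ (c : ZMod p) v, c ≠ 0 → f (c • v) = lz p c * f v) ∧
    (∀ v w, B v v = 0 → B w w = 0 → B v w ≠ 0 → f v * f w = lz p (2 * B v w)) := by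
  classical
  obtain ⟨u, hune, huu⟩ := h.iso
  obtain ⟨t0, ht0⟩ := h.nd u hune
  set t := (B u t0)⁻¹ • t0 with ht
  have hut : B u t = 1 := by
    rw [h.symm, ht, h.smul, h.symm t0 u, inv_mul_cancel₀ ht0]
  have h2' : (2 : ZMod p) ≠ 0 := two_ne h2
  have hprop : ∀ v : Fin 3 → ZMod p, B v v = 0 → B v u = 0 → v = B v t • u := by
    intro v hv hvu
    obtain ⟨c, hc⟩ := h.prop hune huu hv (by rw [h.symm]; exact hvu)
    have : B v t = c := by
      rw [hc, h.smul, hut, mul_one]
    rw [this]
    exact hc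
  let f : (Fin 3 → ZMod p) → ℤ := fun v =>
    if B v v ≠ 0 ∨ v = 0 then 0 else if B v u = 0 then lz p (B v t) else lz p (2 * B v u)
  have f1 : ∀ v : Fin 3 → ZMod p, B v v = 0 → v ≠ 0 → B v u = 0 → f v = lz p (B v t) := by
    intro v h1 h2 h3
    have : ¬ (B v v ≠ 0 ∨ v = 0) := by
      rintro (h | h)
      · exact h h1
      · exact h2 h
    simp only [f]
    rw [if_neg this, if_pos h3]
  have f2 : ∀ v : Fin 3 → ZMod p, B v v = 0 → v ≠ 0 → B v u ≠ 0 →
      f v = lz p (2 * B v u) := by
    intro v h1 h2 h3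
    have : ¬ (B v v ≠ 0 ∨ v = 0) := by
      rintro (h | h)
      · exact h h1
      · exact h2 h
    simp only [f]
    rw [if_neg this, if_neg h3]
  have f0 : ∀ v : Fin 3 → ZMod p, (B v v ≠ 0 ∨ v = 0) → f v = 0 := by
    intro v h
    simp only [f]
    rw [if_pos h]
  refine ⟨f, f0, ?_, ?_, ?_⟩
  · intro v hv hv0
    by_cases hvu : B v u = 0
    · rw [f1 v hv hv0 hvu]
      apply lz_pm
      intro h'
      apply hv0
      rw [hprop v hv hvu, h', zero_smul]
    · rw [f2 v hv hv0 hvu]
      exact lz_pm (mul_ne_zero h2' hvu)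
  · intro c v hc
    have e1 : B (c • v) (c • v) = c ^ 2 * B v v := by
      rw [h.smul, h.symm, h.smul]
      ring
    by_cases hh : B v v ≠ 0 ∨ v = 0
    · rw [f0 v hh, mul_zero]
      apply f0
      rcases hh with h' | h'
      · left
        rw [e1]
        exact mul_ne_zero (pow_ne_zero 2 hc) h'
      · right
        rw [h', smul_zero]
    · rw [not_or, not_not] at hh
      obtain ⟨hv, hv0⟩ := hh
      have h1 : B (c • v) (c • v) = 0 := by rw [e1, hv, mul_zero]
      have h3 : c • v ≠ 0 := smul_ne_zero hc hv0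
      by_cases hvu : B v u = 0
      · rw [f1 v hv hv0 hvu, f1 _ h1 h3 (by rw [h.smul, hvu, mul_zero]), h.smul, lz_mul]
      · rw [f2 v hv hv0 hvu, f2 _ h1 h3 (by rw [h.smul]; exact mul_ne_zero hc hvu), h.smul,
          ← lz_mul]
        congr 1
        ring
  · intro v w hv hw hvw
    have hv0 : v ≠ 0 := by
      rintro rfl
      exact hvw (h.zl _)
    have hw0 : w ≠ 0 := by
      rintro rfl
      exact hvw (by rw [h.symm, h.zl])
    by_cases hvu : B v u = 0
    · have e := hprop v hv hvu
      have e' : B v w = B v t * B w u := by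
        conv_lhs => rw [e, h.smul]
        rw [h.symm u w]
      have hwu : B w u ≠ 0 := by
        intro h'
        apply hvw
        rw [e', h', mul_zero]
      rw [f1 v hv hv0 hvu, f2 w hw hw0 hwu, ← lz_mul, e']
      congr 1
      ring
    · by_cases hwu : B w u = 0
      · have e := hprop w hw hwu
        have e' : B v w = B w t * B v u := by
          rw [h.symm]
          conv_lhs => rw [e, h.smul]
          rw [h.symm u v]
        rw [f2 v hv hv0 hvu, f1 w hw hw0 hwu, ← lz_mul, e']
        congr 1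
        ring
      · rw [f2 v hv hv0 hvu, f2 w hw hw0 hwu, ← lz_mul]
        have g := h.gram u v w
        rw [huu, hv, hw, h.symm u v, h.symm u w] at g
        have g' : 2 * B v u * (2 * B w u) * (2 * B v w) = (2 * (δ * dt u v w)) ^ 2 := by
          linear_combination (-4) * g
        have n1 : 2 * B v u * (2 * B w u) ≠ 0 :=
          mul_ne_zero (mul_ne_zero h2' hvu) (mul_ne_zero h2' hwu)
        have n2 : 2 * B v w ≠ 0 := mul_ne_zero h2' hvw
        have g2 : lz p (2 * B v u * (2 * B w u) * (2 * B v w)) = 1 := by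
          rw [g']
          apply lz_sq
          intro h'
          rw [h'] at g'
          exact mul_ne_zero n1 n2 (by rw [g']; ring)
        rw [lz_mul] at g2
        rcases lz_pm n1 with h' | h' <;> rcases lz_pm n2 with h'' | h'' <;>
          rw [h', h''] at g2 ⊢ <;> norm_num at g2

/-- REF for a general form -/
theorem Good.ref (h : Good p B δ) (h2 : p ≠ 2) {f : (Fin 3 → ZMod p) → ℤ}
    (f0 : ∀ v, (B v v ≠ 0 ∨ v = 0) → f v = 0)
    (fpm : ∀ v, B v v = 0 → v ≠ 0 → f v = 1 ∨ f v = -1)
    (fm : ∀ v w, B v v = 0 → B w w = 0 → B v w ≠ 0 → f v * f w = lz p (2 * B v w))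
    {e v w : Fin 3 → ZMod p} (he : B e e ≠ 0)
    (hw : ∀ i, B e e * w i = B e e * v i - 2 * B e v * e i) : f w = lz p (-B e e) * f v := by
  have h2' : (2 : ZMod p) ≠ 0 := two_ne h2
  have hw' : w = v - (2 * B e v / B e e) • e := by
    funext i
    rw [Pi.sub_apply, Pi.smul_apply, smul_eq_mul]
    apply mul_left_cancel₀ he
    rw [hw i]
    field_simp
  have hww : B w w = B v v := by
    have a1 : B w v = B v v - 2 * B e v / B e e * B e v := by rw [hw', h.lin]
    have a2 : B w e = B e v - 2 * B e v / B e e * B e e := by rw [hw', h.lin, h.symm v e]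
    have a3 : B w w = B w v - 2 * B e v / B e e * B w e := by
      conv_lhs => rw [hw', h.lin]
      rw [← hw', h.symm v w, h.symm e w]
    rw [a3, a1, a2]
    field_simp
    ring
  have hvw : B v w = B v v - 2 * B e v ^ 2 / B e e := by
    rw [h.symm, hw', h.lin]
    field_simp
  by_cases hv : B v v = 0
  · by_cases hv0 : v = 0
    · have hw0 : w = 0 := by
        rw [hw', hv0, h.symm e 0, h.zl]
        simp
      rw [hv0, hw0, f0 0 (Or.inr rfl), mul_zero]
    · by_cases hev : B e v = 0
      · have hwv : w = v := by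
          rw [hw', hev]
          simp
        obtain ⟨t, ht⟩ := h.nd v hv0
        have g := h.gram e v t
        rw [hv, hev] at g
        have g' : (-B e e) * B v t ^ 2 = (δ * dt e v t) ^ 2 := by
          linear_combination -g
        have g2 : lz p (-B e e) = 1 := by
          rw [← lz_ms ht, g']
          apply lz_sq
          intro h'
          rw [h'] at g'
          exact mul_ne_zero (neg_ne_zero.2 he) (pow_ne_zero 2 ht) (by rw [g']; ring)
        rw [hwv, g2, one_mul]
      · rw [hv, zero_sub] at hvw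
        have hvw0 : B v w ≠ 0 := by
          rw [hvw]
          exact neg_ne_zero.2 (div_ne_zero (mul_ne_zero h2' (pow_ne_zero 2 hev)) he)
        have m := fm v w hv (hww.trans hv) hvw0
        have m2 : lz p (2 * B v w) = lz p (-B e e) := by
          have : 2 * B v w = (-B e e) * (2 * B e v / B e e) ^ 2 := by
            rw [hvw]
            field_simp
          rw [this, lz_ms]
          exact div_ne_zero (mul_ne_zero h2' hev) he
        rw [← m2, ← m]
        rcases fpm v hv hv0 with h' | h' <;> rw [h'] <;> ring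
  · rw [f0 v (Or.inl hv), f0 w (Or.inl (by rw [hww]; exact hv)), mul_zero]

theorem natcast_ne {p n : ℕ} (hn : ¬ p ∣ n) : (n : ZMod p) ≠ 0 := by
  intro h
  rw [ZMod.natCast_eq_zero_iff] at h
  exact hn h

/-- `a X² + b Y² + c = 0` has a solution -/
theorem exists_sol (h2 : p ≠ 2) {a b : ZMod p} (c : ZMod p) (ha : a ≠ 0) (hb : b ≠ 0) :
    ∃ x y : ZMod p, a * x ^ 2 + b * y ^ 2 + c = 0 := by
  have hodd : Fintype.card (ZMod p) % 2 = 1 := by
    rw [ZMod.card]
    rcases (Fact.out : p.Prime).eq_two_or_odd with h | h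
    · exact absurd h h2
    · exact h
  obtain ⟨x, y, hxy⟩ := FiniteField.exists_root_sum_quadratic
    (f := Polynomial.C a * Polynomial.X ^ 2 + Polynomial.C 0 * Polynomial.X + Polynomial.C 0)
    (g := Polynomial.C b * Polynomial.X ^ 2 + Polynomial.C 0 * Polynomial.X + Polynomial.C c)
    (Polynomial.degree_quadratic ha) (Polynomial.degree_quadratic hb) hodd
  refine ⟨x, y, ?_⟩
  simp only [Polynomial.eval_add, Polynomial.eval_mul, Polynomial.eval_C, Polynomial.eval_pow,
    Polynomial.eval_X] at hxy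
  linear_combination hxy

theorem good5 (hp : p.Prime) (h2 : p ≠ 2) (h5 : p ≠ 5) : Good p (bl 5) 10 := by
  have h2' : (2 : ZMod p) ≠ 0 := two_ne h2
  have h5' : (5 : ZMod p) ≠ 0 := by
    have := natcast_ne (n := 5) (fun h => h5 ((Nat.prime_dvd_prime_iff_eq hp (by norm_num)).1 h))
    exact_mod_cast this
  have h10 : (10 : ZMod p) ≠ 0 := by
    have : (10 : ZMod p) = 2 * 5 := by norm_num
    rw [this]
    exact mul_ne_zero h2' h5'
  refine ⟨?_, ?_, ?_, ?_, ?_, h10, ?_⟩
  · intro v w
    simp only [bl, if_true]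
    ring
  · intro v w x k
    simp only [bl, if_true, Pi.sub_apply, Pi.smul_apply, smul_eq_mul]
    ring
  · intro k v x
    simp only [bl, if_true, Pi.smul_apply, smul_eq_mul]
    ring
  · intro v hv0
    by_contra hcon
    push Not at hcon
    have e0 := hcon ![1, 0, 0]
    have e1 := hcon ![0, 1, 0]
    have e2 := hcon ![0, 0, 1]
    simp only [bl, if_true, Matrix.cons_val_zero, Matrix.cons_val_one, Matrix.cons_val] at e0 e1 e2
    have h100 : (100 : ZMod p) ≠ 0 := by
      have : (100 : ZMod p) = 10 * 10 := by norm_num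
      rw [this]
      exact mul_ne_zero h10 h10
    apply hv0
    apply ext3
    · exact (mul_eq_zero.1 (show (100 : ZMod p) * v 0 = 0 by
        linear_combination 40 * e0 + 10 * e1 - 10 * e2)).resolve_left h100
    · exact (mul_eq_zero.1 (show (100 : ZMod p) * v 1 = 0 by
        linear_combination 10 * e0 + 20 * e1 - 10 * e2)).resolve_left h100
    · exact (mul_eq_zero.1 (show (100 : ZMod p) * v 2 = 0 by
        linear_combination -10 * e0 - 10 * e1 + 20 * e2)).resolve_left h100
  · intro u v w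
    simp only [bl, if_true, dt]
    ring
  · obtain ⟨x, y, hxy⟩ := exists_sol h2 (a := (2 : ZMod p)) (b := 5) 10 h2' h5'
    refine ⟨![4, x + y + 1, -x + y - 1], ?_, ?_⟩
    · intro h
      have := congrFun h 0
      have h4 : (4 : ZMod p) = 0 := this
      have : (4 : ZMod p) = 2 * 2 := by norm_num
      rw [this] at h4
      exact mul_ne_zero h2' h2' h4
    · simp only [bl, if_true, Matrix.cons_val_zero, Matrix.cons_val_one, Matrix.cons_val]
      linear_combination 4 * hxy

theorem good3 (hp : p.Prime) (h2 : p ≠ 2) (h3 : p ≠ 3) : Good p (bl 3) 6 := by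
  have h2' : (2 : ZMod p) ≠ 0 := two_ne h2
  have h3' : (3 : ZMod p) ≠ 0 := by
    have := natcast_ne (n := 3) (fun h => h3 ((Nat.prime_dvd_prime_iff_eq hp (by norm_num)).1 h))
    exact_mod_cast this
  have h6 : (6 : ZMod p) ≠ 0 := by
    have : (6 : ZMod p) = 2 * 3 := by norm_num
    rw [this]
    exact mul_ne_zero h2' h3'
  have hb : ∀ v w : Fin 3 → ZMod p, bl 3 v w = 3 * (v 0 * w 0) + 4 * (v 1 * w 1) +
      4 * (v 2 * w 2) + 2 * (v 1 * w 2 + v 2 * w 1) := by
    intro v w
    simp only [bl]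
    rw [if_neg (by norm_num)]
  refine ⟨?_, ?_, ?_, ?_, ?_, h6, ?_⟩
  · intro v w
    rw [hb, hb]
    ring
  · intro v w x k
    rw [hb, hb, hb]
    simp only [Pi.sub_apply, Pi.smul_apply, smul_eq_mul]
    ring
  · intro k v x
    rw [hb, hb]
    simp only [Pi.smul_apply, smul_eq_mul]
    ring
  · intro v hv0
    by_contra hcon
    push Not at hcon
    have e0 := hcon ![1, 0, 0]
    have e1 := hcon ![0, 1, 0]
    have e2 := hcon ![0, 0, 1]
    rw [hb] at e0 e1 e2
    simp only [Matrix.cons_val_zero, Matrix.cons_val_one, Matrix.cons_val] at e0 e1 e2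
    have h36 : (36 : ZMod p) ≠ 0 := by
      have : (36 : ZMod p) = 6 * 6 := by norm_num
      rw [this]
      exact mul_ne_zero h6 h6
    apply hv0
    apply ext3
    · exact (mul_eq_zero.1 (show (36 : ZMod p) * v 0 = 0 by
        linear_combination 12 * e0)).resolve_left h36
    · exact (mul_eq_zero.1 (show (36 : ZMod p) * v 1 = 0 by
        linear_combination 12 * e1 - 6 * e2)).resolve_left h36
    · exact (mul_eq_zero.1 (show (36 : ZMod p) * v 2 = 0 by
        linear_combination -6 * e1 + 12 * e2)).resolve_left h36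
  · intro u v w
    simp only [hb, dt]
    ring
  · obtain ⟨x, y, hxy⟩ := exists_sol h2 (a := (3 : ZMod p)) (b := 1) 3 h3' one_ne_zero
    refine ⟨![2 * x, y - 1, 2], ?_, ?_⟩
    · intro h
      have := congrFun h 2
      exact h2' this
    · rw [hb]
      simp only [Matrix.cons_val_zero, Matrix.cons_val_one, Matrix.cons_val]
      linear_combination 4 * hxy

theorem good {q : ℕ} (hq : q = 3 ∨ q = 5) (hp : p.Prime) (h2 : p ≠ 2) (hpq : p ≠ q) :
    ∃ δ, Good p (bl q) δ := by
  rcases hq with rfl | rfl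
  · exact ⟨_, good3 hp h2 hpq⟩
  · exact ⟨_, good5 hp h2 hpq⟩

end PhiX

open PhiX

theorem t_PHI : S_PHI := by
  intro q hq p hp h2 hpq
  have : Fact p.Prime := ⟨hp⟩
  obtain ⟨δ, h⟩ := good hq hp h2 hpq
  obtain ⟨f, f0, f1, f2, f3⟩ := h.phi h2
  exact ⟨f, f0, f1, f2, f3⟩

theorem t_REF : S_REF := by
  intro q hq p hp h2 hpq f hf e v w he hw
  have : Fact p.Prime := ⟨hp⟩
  obtain ⟨δ, h⟩ := good hq hp h2 hpq
  exact h.ref h2 hf.zero hf.pm hf.mul he hw

end Pool.Agent.XV
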