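import Pool.Agent.XV.PCGDefs

/-!
# Project XV: common lines of two vectors, linear algebra
-/

set_option autoImplicit false

namespace Pool.Agent.XV.PSA

section field

variable {K : Type*} [Field K]

/-- `v × n = β n` -/
def L (v n : Fin 3 → K) (β : K) : Prop :=
  v 1 * n 2 - v 2 * n 1 = β * n 0 ∧ v 2 * n 0 - v 0 * n 2 = β * n 1 ∧
  v 0 * n 1 - v 1 * n 0 = β * n 2

theorem ne_exists {n : Fin 3 → K} (h : n ≠ 0) : n 0 ≠ 0 ∨ n 1 ≠ 0 ∨ n 2 ≠ 0 := by
  by_contra hcon
  push Not at hcon
  apply h
  ext i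
  fin_cases i
  · exact hcon.1
  · exact hcon.2.1
  · exact hcon.2.2

/-- parallel vectors -/
theorem par {u y : Fin 3 → K} (hu : u ≠ 0) (h0 : u 1 * y 2 = u 2 * y 1) (h1 : u 2 * y 0 = u 0 * y 2)
    (h2 : u 0 * y 1 = u 1 * y 0) : ∃ c : K, ∀ i, y i = c * u i := by
  rcases ne_exists hu with h | h | h
  · refine ⟨y 0 / u 0, fun i => ?_⟩
    fin_cases i
    · simp only [Fin.zero_eta]; field_simp
    · simp only [Fin.mk_one]; field_simp; linear_combination h2
    · simp only [Fin.reduceFinMk]; field_simp; linear_combination -h1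
  · refine ⟨y 1 / u 1, fun i => ?_⟩
    fin_cases i
    · simp only [Fin.zero_eta]; field_simp; linear_combination -h2
    · simp only [Fin.mk_one]; field_simp
    · simp only [Fin.reduceFinMk]; field_simp; linear_combination h0
  · refine ⟨y 2 / u 2, fun i => ?_⟩
    fin_cases i
    · simp only [Fin.zero_eta]; field_simp; linear_combination h1
    · simp only [Fin.mk_one]; field_simp; linear_combination -h0
    · simp only [Fin.reduceFinMk]; field_simp

/-- a common isotropic line -/
def Co (v w : Fin 3 → K) (β1 β2 : K) : Prop := ∃ n : Fin 3 → K, n ≠ 0 ∧ L v n β1 ∧ L w n β2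

theorem co_dot {v w : Fin 3 → K} {β1 β2 : K} (h1 : β1 ≠ 0) (h : Co v w β1 β2) :
    v 0 * w 0 + v 1 * w 1 + v 2 * w 2 = -(β1 * β2) := by
  obtain ⟨n, hn, ⟨a0, a1, a2⟩, b0, b1, b2⟩ := h
  have hvn : v 0 * n 0 + v 1 * n 1 + v 2 * n 2 = 0 := by
    have : β1 * (v 0 * n 0 + v 1 * n 1 + v 2 * n 2) = 0 := by
      linear_combination -(v 0) * a0 - v 1 * a1 - v 2 * a2
    exact (mul_eq_zero.mp this).resolve_left h1
  have key : ∀ i, (v 0 * w 0 + v 1 * w 1 + v 2 * w 2 + β1 * β2) * n i = 0 := by
    intro i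
    fin_cases i
    · simp only [Fin.zero_eta]
      linear_combination w 0 * hvn - β2 * a0 - v 1 * b2 + v 2 * b1
    · simp only [Fin.mk_one]
      linear_combination w 1 * hvn - β2 * a1 - v 2 * b0 + v 0 * b2
    · simp only [Fin.reduceFinMk]
      linear_combination w 2 * hvn - β2 * a2 - v 0 * b1 + v 1 * b0
  have : v 0 * w 0 + v 1 * w 1 + v 2 * w 2 + β1 * β2 = 0 := by
    rcases ne_exists hn with h | h | h
    · exact (mul_eq_zero.mp (key 0)).resolve_right h
    · exact (mul_eq_zero.mp (key 1)).resolve_right h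
    · exact (mul_eq_zero.mp (key 2)).resolve_right h
  linear_combination this

theorem eig (two_ne : (2 : K) ≠ 0) {v : Fin 3 → K} {β : K} (hβ : β ≠ 0)
    (hv : v 0 * v 0 + v 1 * v 1 + v 2 * v 2 = -β ^ 2) :
    ∃ n : Fin 3 → K, n ≠ 0 ∧ L v n β := by
  have h : v 0 * v 0 + β ^ 2 ≠ 0 ∨ v 1 * v 1 + β ^ 2 ≠ 0 ∨ v 2 * v 2 + β ^ 2 ≠ 0 := by
    by_contra hcon
    push Not at hcon
    obtain ⟨h0, h1, h2⟩ := hcon
    have : 2 * β ^ 2 = 0 := by linear_combination h0 + h1 + h2 - hv
    rcases mul_eq_zero.mp this with h | h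
    · exact two_ne h
    · exact hβ (pow_eq_zero_iff (by norm_num) |>.mp h)
  rcases h with h | h | h
  · refine ⟨![v 0 * v 0 + β ^ 2, v 0 * v 1 + β * v 2, v 0 * v 2 - β * v 1], ?_, ?_, ?_, ?_⟩
    · intro h0
      exact h (congrFun h0 0)
    · simp only [Matrix.cons_val_zero, Matrix.cons_val_one, Matrix.cons_val]
      linear_combination -β * hv
    · simp only [Matrix.cons_val_zero, Matrix.cons_val_one, Matrix.cons_val]
      ring
    · simp only [Matrix.cons_val_zero, Matrix.cons_val_one, Matrix.cons_val]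
      ring
  · refine ⟨![v 1 * v 0 - β * v 2, v 1 * v 1 + β ^ 2, v 1 * v 2 + β * v 0], ?_, ?_, ?_, ?_⟩
    · intro h0
      exact h (congrFun h0 1)
    · simp only [Matrix.cons_val_zero, Matrix.cons_val_one, Matrix.cons_val]
      ring
    · simp only [Matrix.cons_val_zero, Matrix.cons_val_one, Matrix.cons_val]
      linear_combination -β * hv
    · simp only [Matrix.cons_val_zero, Matrix.cons_val_one, Matrix.cons_val]
      ring
  · refine ⟨![v 2 * v 0 + β * v 1, v 2 * v 1 - β * v 0, v 2 * v 2 + β ^ 2], ?_, ?_, ?_, ?_⟩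
    · intro h0
      exact h (congrFun h0 2)
    · simp only [Matrix.cons_val_zero, Matrix.cons_val_one, Matrix.cons_val]
      ring
    · simp only [Matrix.cons_val_zero, Matrix.cons_val_one, Matrix.cons_val]
      ring
    · simp only [Matrix.cons_val_zero, Matrix.cons_val_one, Matrix.cons_val]
      linear_combination -β * hv

theorem L_smul {v u : Fin 3 → K} {β c : K} (hc : c ≠ 0) {n : Fin 3 → K} (hn : ∀ i, n i = c * u i)
    (h : L v n β) : L v u β := by
  obtain ⟨h0, h1, h2⟩ := h
  rw [hn 0, hn 1, hn 2] at h0 h1 h2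
  refine ⟨mul_left_cancel₀ hc ?_, mul_left_cancel₀ hc ?_, mul_left_cancel₀ hc ?_⟩
  · linear_combination h0
  · linear_combination h1
  · linear_combination h2

/-- a common line is the line of `β2 v - β1 w` -/
theorem co_line {v w : Fin 3 → K} {β1 β2 : K} {u : Fin 3 → K}
    (hu : ∀ i, u i = β2 * v i - β1 * w i) (hu0 : u ≠ 0) (h : Co v w β1 β2) : L v u β1 := by
  obtain ⟨n, hn, a, b⟩ := h
  obtain ⟨a0, a1, a2⟩ := a
  obtain ⟨b0, b1, b2⟩ := b
  obtain ⟨c, hc⟩ := par (u := u) (y := n) hu0
    (by rw [hu 1, hu 2]; linear_combination β2 * a0 - β1 * b0)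
    (by rw [hu 0, hu 2]; linear_combination β2 * a1 - β1 * b1)
    (by rw [hu 0, hu 1]; linear_combination β2 * a2 - β1 * b2)
  have hc0 : c ≠ 0 := by
    intro h0
    apply hn
    ext i
    rw [hc i, h0, zero_mul]
    rfl
  exact L_smul hc0 hc ⟨a0, a1, a2⟩

open Classical in
theorem count (two_ne : (2 : K) ≠ 0) {v w : Fin 3 → K} {β1 β2 : K} (h1 : β1 ≠ 0) (h2 : β2 ≠ 0)
    (hv : v 0 * v 0 + v 1 * v 1 + v 2 * v 2 = -β1 ^ 2)
    (hw : w 0 * w 0 + w 1 * w 1 + w 2 * w 2 = -β2 ^ 2)
    (hvw : v 0 * w 0 + v 1 * w 1 + v 2 * w 2 = -(β1 * β2)) :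
    (if Co v w β1 β2 then 1 else 0 : ℕ) + (if Co v w (-β1) (-β2) then 1 else 0) =
      1 + if ∀ i, β2 * v i = β1 * w i then 1 else 0 := by
  by_cases hu : ∀ i, β2 * v i = β1 * w i
  · -- parallel
    rw [if_pos hu]
    have hwi : ∀ i, w i = β2 / β1 * v i := by
      intro i
      field_simp
      linear_combination -(hu i)
    have key : ∀ s : K, s ≠ 0 → s ^ 2 = 1 → Co v w (s * β1) (s * β2) := by
      intro s hs hs2
      obtain ⟨n, hn, a0, a1, a2⟩ := eig two_ne (v := v) (β := s * β1) (mul_ne_zero hs h1) (by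
        rw [hv]
        linear_combination β1 ^ 2 * hs2)
      refine ⟨n, hn, ⟨a0, a1, a2⟩, ?_, ?_, ?_⟩
      · rw [hwi 1, hwi 2]
        field_simp
        linear_combination a0
      · rw [hwi 0, hwi 2]
        field_simp
        linear_combination a1
      · rw [hwi 0, hwi 1]
        field_simp
        linear_combination a2
    have k1 := key 1 one_ne_zero (by ring)
    have k2 := key (-1) (neg_ne_zero.mpr one_ne_zero) (by ring)
    rw [one_mul, one_mul] at k1
    rw [neg_one_mul, neg_one_mul] at k2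
    rw [if_pos k1, if_pos k2]
  · rw [if_neg hu]
    obtain ⟨u, hue⟩ : ∃ u : Fin 3 → K, ∀ i, u i = β2 * v i - β1 * w i :=
      ⟨fun i => β2 * v i - β1 * w i, fun _ => rfl⟩
    have hu0 : u ≠ 0 := by
      intro h0
      apply hu
      intro i
      have : u i = 0 := by rw [h0]; rfl
      rw [hue i] at this
      linear_combination this
    have huu : u 0 * u 0 + u 1 * u 1 + u 2 * u 2 = 0 := by
      rw [hue 0, hue 1, hue 2]
      linear_combination β2 ^ 2 * hv + β1 ^ 2 * hw - 2 * β1 * β2 * hvw
    have hvu : v 0 * u 0 + v 1 * u 1 + v 2 * u 2 = 0 := by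
      rw [hue 0, hue 1, hue 2]
      linear_combination β2 * hv - β1 * hvw
    -- v × u is parallel to u
    obtain ⟨c, hc⟩ := par (u := u) (y := ![v 1 * u 2 - v 2 * u 1, v 2 * u 0 - v 0 * u 2,
      v 0 * u 1 - v 1 * u 0]) hu0
      (by simp only [Matrix.cons_val_zero, Matrix.cons_val_one, Matrix.cons_val]
          linear_combination v 0 * huu - u 0 * hvu)
      (by simp only [Matrix.cons_val_zero, Matrix.cons_val_one, Matrix.cons_val]
          linear_combination v 1 * huu - u 1 * hvu)
      (by simp only [Matrix.cons_val_zero, Matrix.cons_val_one, Matrix.cons_val]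
          linear_combination v 2 * huu - u 2 * hvu)
    have c0 : v 1 * u 2 - v 2 * u 1 = c * u 0 := hc 0
    have c1 : v 2 * u 0 - v 0 * u 2 = c * u 1 := hc 1
    have c2 : v 0 * u 1 - v 1 * u 0 = c * u 2 := hc 2
    have hcc : c ^ 2 = β1 ^ 2 := by
      have key : ∀ i, (c ^ 2 - β1 ^ 2) * u i = 0 := by
        intro i
        fin_cases i
        · simp only [Fin.zero_eta]
          linear_combination -c * c0 - v 1 * c2 + v 2 * c1 + v 0 * hvu - u 0 * hv
        · simp only [Fin.mk_one]
          linear_combination -c * c1 - v 2 * c0 + v 0 * c2 + v 1 * hvu - u 1 * hv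
        · simp only [Fin.reduceFinMk]
          linear_combination -c * c2 - v 0 * c1 + v 1 * c0 + v 2 * hvu - u 2 * hv
      rcases ne_exists hu0 with h | h | h
      · exact sub_eq_zero.mp ((mul_eq_zero.mp (key 0)).resolve_right h)
      · exact sub_eq_zero.mp ((mul_eq_zero.mp (key 1)).resolve_right h)
      · exact sub_eq_zero.mp ((mul_eq_zero.mp (key 2)).resolve_right h)
    have hcpm : c = β1 ∨ c = -β1 := sq_eq_sq_iff_eq_or_eq_neg.mp hcc
    -- existence
    have ex : ∀ s : K, c = s * β1 → Co v w (s * β1) (s * β2) := by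
      intro s hs
      refine ⟨u, hu0, ?_, ?_⟩
      · rw [← hs]
        exact ⟨c0, c1, c2⟩
      · have e : ∀ i, w i = (β2 * v i - u i) / β1 := by
          intro i
          rw [hue i]
          field_simp
          ring
        refine ⟨?_, ?_, ?_⟩
        · rw [e 1, e 2]
          field_simp
          linear_combination β2 * c0 + β2 * u 0 * hs
        · rw [e 0, e 2]
          field_simp
          linear_combination β2 * c1 + β2 * u 1 * hs
        · rw [e 0, e 1]
          field_simp
          linear_combination β2 * c2 + β2 * u 2 * hs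
    -- uniqueness
    have un : ∀ s : K, s ^ 2 = 1 → Co v w (s * β1) (s * β2) → c = s * β1 := by
      intro s hs h
      have hs0 : s ≠ 0 := by
        intro h0
        rw [h0, zero_pow (by norm_num)] at hs
        exact zero_ne_one hs
      have hl := co_line (u := fun i => s * u i) (fun i => by
        rw [hue i]
        ring) (by
          intro h0
          apply hu0
          ext i
          have : s * u i = 0 := congrFun h0 i
          exact (mul_eq_zero.mp this).resolve_left hs0) h
      obtain ⟨l0, l1, l2⟩ := hl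
      simp only at l0 l1 l2
      have key : ∀ i, (c - s * β1) * u i = 0 := by
        intro i
        fin_cases i
        · simp only [Fin.zero_eta]
          linear_combination -c0 + s * l0 - (v 1 * u 2 - v 2 * u 1 - s * β1 * u 0) * hs
        · simp only [Fin.mk_one]
          linear_combination -c1 + s * l1 - (v 2 * u 0 - v 0 * u 2 - s * β1 * u 1) * hs
        · simp only [Fin.reduceFinMk]
          linear_combination -c2 + s * l2 - (v 0 * u 1 - v 1 * u 0 - s * β1 * u 2) * hs
      rcases ne_exists hu0 with h | h | h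
      · exact sub_eq_zero.mp ((mul_eq_zero.mp (key 0)).resolve_right h)
      · exact sub_eq_zero.mp ((mul_eq_zero.mp (key 1)).resolve_right h)
      · exact sub_eq_zero.mp ((mul_eq_zero.mp (key 2)).resolve_right h)
    have hne : β1 ≠ -β1 := by
      intro h
      have : 2 * β1 = 0 := by linear_combination h
      rcases mul_eq_zero.mp this with h | h
      · exact two_ne h
      · exact h1 h
    have ex1 := ex 1
    have ex2 := ex (-1)
    have un1 := un 1 (by ring)
    have un2 := un (-1) (by ring)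
    rw [one_mul, one_mul] at ex1 un1
    rw [neg_one_mul, neg_one_mul] at ex2 un2
    rcases hcpm with h | h
    · rw [if_pos (ex1 h), if_neg (fun h' => hne (h.symm.trans (un2 h')))]
    · rw [if_pos (ex2 h), if_neg (fun h' => hne ((un1 h').symm.trans h))]
end field

end Pool.Agent.XV.PSA
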