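import Pool.Agent.XV.Defs
import Pool.Agent.NH2.C1

/-!
# Project XV, C1: the twisted sum as a sum of divisor sums (helper17)
-/

set_option autoImplicit false

namespace Pool.Agent.XV

open Finset
open Pool.Agent.Z700 (V3 pr un hh)
open Pool.Agent.NH1 (lz rd)
open Pool.Agent.NH2 (w1 w2 wp ev cx)
open Pool.Agent.NH2.C1 (rf rf_mem rf_dvd rf_rf sum_rf jac_rf sgB trB)

namespace C1

theorem Nr_neg (X : Finset ℕ) (x M : ℤ) : Nr X 19 x M = Nr X 11 (-x) M := by
  classical
  unfold Nr
  rw [← finsum_comp_equiv sgB]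
  refine finsum_congr fun q => ?_
  have e1 : Fm X 19 (sgB q) ↔ Fm X 11 q := by
    unfold Fm sgB
    simp only [Equiv.coe_fn_mk]
    have h : (30 : ℤ) ∣ -q.2.1 - 19 * (pr X : ℤ) ↔ (30 : ℤ) ∣ q.2.1 - 11 * (pr X : ℤ) := by
      constructor
      · intro h; omega
      · intro h; omega
    rw [h, neg_pow_two]
  have e2 : ev (sgB q) x M = ev q (-x) M := by
    unfold ev sgB
    simp only [Equiv.coe_fn_mk]
    ring
  have e3 : cx X (sgB q) = cx X q := rfl
  have e4 : (sgB q).1 = q.1 := rfl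
  simp only [e1, e2, e3, e4]

theorem Nr_per (X : Finset ℕ) (hX : Pq X) (k x M : ℤ) : Nr X k (x + M) M = Nr X k x M := by
  classical
  unfold Nr
  rw [← finsum_comp_equiv trB (f := fun q => if Fm X k q ∧ 0 < q.1 ∧ ev q x M < 0 then cx X q else 0)]
  refine finsum_congr fun q => ?_
  have e1 : Fm X k (trB q) ↔ Fm X k q := by
    unfold Fm trB
    simp only [Equiv.coe_fn_mk]
    constructor
    · rintro ⟨h1, h2, h3⟩
      refine ⟨by linear_combination h1, h2, ?_⟩
      have : q.2.1 - k * (pr X : ℤ) = (q.2.1 + 2 * q.1 - k * (pr X : ℤ)) - 2 * q.1 := by ring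
      rw [this]
      refine dvd_sub h3 ?_
      obtain ⟨c, hc⟩ := h2
      exact ⟨c, by rw [hc]; ring⟩
    · rintro ⟨h1, h2, h3⟩
      refine ⟨by linear_combination h1, h2, ?_⟩
      have : (q.2.1 + 2 * q.1 - k * (pr X : ℤ)) = (q.2.1 - k * (pr X : ℤ)) + 2 * q.1 := by ring
      rw [this]
      refine dvd_add h3 ?_
      obtain ⟨c, hc⟩ := h2
      exact ⟨c, by rw [hc]; ring⟩
  have e2 : ev (trB q) x M = ev q (x + M) M := by
    unfold ev trB
    simp only [Equiv.coe_fn_mk]
    ring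
  have e4 : (trB q).1 = q.1 := rfl
  simp only [e1, e2, e4]
  split_ifs with h
  · obtain ⟨⟨h1, -, -⟩, -, -⟩ := h
    unfold cx
    refine Finset.prod_congr rfl fun p hp => ?_
    rw [e4]
    split_ifs with hd
    · apply (Pool.Agent.Z363.Z705.jac_congr _).symm
      have hpp := Nat.prime_iff_prime_int.1 (hX p hp).1
      have hpX : (p : ℤ) ∣ (pr X : ℤ) := by
        exact_mod_cast Finset.dvd_prod_of_mem (fun p => p) hp
      have h2 : (p : ℤ) ∣ q.2.1 ^ 2 := by
        have : q.2.1 ^ 2 = (pr X : ℤ) ^ 2 + 4 * q.1 * q.2.2 := by linear_combination h1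
        rw [this]
        exact dvd_add (dvd_pow hpX (by norm_num)) ((hd.mul_left 4).mul_right _)
      have h3 := hpp.dvd_of_dvd_pow h2
      have : (trB q).2.2 - q.2.2 = q.1 + q.2.1 := by
        unfold trB
        simp only [Equiv.coe_fn_mk]
        ring
      rw [this]
      exact dvd_add hd h3
    · rfl
  · rfl

theorem Nr_rf (X : Finset ℕ) (hX : Pq X) {m u : ℕ} (hu : u < m) :
    Nr X 11 (-(u : ℤ)) (m : ℤ) = Nr X 11 ((rf m u : ℕ) : ℤ) (m : ℤ) := by
  rcases Nat.eq_zero_or_pos u with rfl | h0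
  · have : rf m 0 = 0 := by unfold rf; simp
    rw [this]
    simp
  · have h1 : rf m u = m - u := by
      unfold rf
      exact Nat.mod_eq_of_lt (by omega)
    rw [h1, Nat.cast_sub hu.le, ← Nr_per X hX 11 (-(u : ℤ)) (m : ℤ)]
    congr 1
    ring

/-- the divisor sums from the forms and cusps -/
theorem sum_WW (h1 : S_C1A) (u v : ℕ) (k : ℤ) (huv : UV u v k) (X Z : Finset ℕ) (hP : Pq (X ∪ Z))
    (hXZ : Disjoint X Z) (hZn : Z.Nonempty) (hN : pr X * pr Z % 4 = 3) :
    ∑ t ∈ un (pr Z), jacobiSym t (pr Z) * Nr X k t (pr Z) =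
      ∑ T ∈ (range (pr X * pr Z)).filter (fun T => v ∣ T), WW u v X Z T := by
  classical
  have hZ : Pq Z := fun p hp => hP p (mem_union_right _ hp)
  have hZp : ∀ p ∈ Z, p.Prime := fun p hp => (hZ p hp).1
  rw [h1 u v k huv X Z hP hXZ hZn]
  set m := pr Z with hm
  refine Finset.sum_congr rfl fun T hT => ?_
  rw [mem_filter, mem_range] at hT
  unfold WW
  refine Finset.sum_congr rfl fun a ha => ?_
  refine Finset.sum_congr rfl fun a' ha' => ?_
  congr 1
  rw [mem_filter, Nat.mem_divisors] at ha ha'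
  have hpf : m.primeFactors = Z := Nat.primeFactors_prod hZp
  have hsq : Squarefree m := by
    rw [hm]
    unfold pr
    exact Finset.squarefree_prod_of_pairwise_isCoprime
      (fun p hp q hq hpq => Nat.coprime_iff_isRelPrime.1
        ((Nat.coprime_primes (hZp p hp) (hZp q hq)).2 hpq)) fun p hp => (hZp p hp).squarefree
  have hodd : Odd m := by
    rw [Nat.odd_iff]
    have : (pr X * m) % 2 = 1 := by omega
    rcases Nat.mod_two_eq_zero_or_one m with h | h
    · rw [Nat.mul_mod, h, mul_zero] at this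
      omega
    · exact h
  have hdet : a * ((pr X * m - T) / a) + a' * (T / a') = pr X * m := by
    rw [Nat.mul_div_cancel' ha.1.1, Nat.mul_div_cancel' ha'.1.1]
    exact Nat.sub_add_cancel (le_of_lt hT.1)
  have hB := Pool.Agent.NH2.t_C1B m (pr X) hsq hodd a a' (T / a') ((pr X * m - T) / a) hdet
  rw [hpf] at hB
  exact hB

end C1

open C1

theorem t_C1' (h1 : S_C1A) : S_C1 := by
  classical
  intro X Z hP hXZ hZn hN
  have hX : Pq X := fun p hp => hP p (mem_union_left _ hp)
  have hZ : Pq Z := fun p hp => hP p (mem_union_right _ hp)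
  have hZp : ∀ p ∈ Z, p.Prime := fun p hp => (hZ p hp).1
  have hA := sum_WW h1 5 3 11 (Or.inl ⟨rfl, rfl, rfl⟩) X Z hP hXZ hZn hN
  have hB := sum_WW h1 3 5 19 (Or.inr ⟨rfl, rfl, rfl⟩) X Z hP hXZ hZn hN
  set m := pr Z with hm
  have hm0 : 0 < m := Finset.prod_pos fun p hp => (hZp p hp).pos
  have hsq : jacobiSym (-1) m * jacobiSym (-1) m = 1 := by
    rw [← jacobiSym.mul_left]
    norm_num
  -- the symbol of `-1`
  have hj : jacobiSym (-1) (pr X) * jacobiSym (-1) m = -1 := by
    have hX0 : pr X ≠ 0 := by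
      intro h
      rw [h, zero_mul] at hN
      omega
    rw [← jacobiSym.mul_right' _ hX0 hm0.ne']
    have hodd : Odd (pr X * m) := by
      rw [Nat.odd_iff]
      omega
    rw [jacobiSym.at_neg_one hodd]
    exact ZMod.χ₄_nat_three_mod_four (by omega)
  -- the sum with `Nr X 19`
  have h19 : ∑ u ∈ un m, jacobiSym u m * Nr X 19 u m =
      jacobiSym (-1) m * ∑ u ∈ un m, jacobiSym u m * Nr X 11 u m := by
    rw [sum_rf hm0 (fun u => jacobiSym u m * Nr X 11 u m), Finset.mul_sum]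
    refine Finset.sum_congr rfl fun u hu => ?_
    have hum : u < m := mem_range.1 (mem_filter.1 hu).1
    rw [Nr_neg, Nr_rf X hX hum, jac_rf hum, ← mul_assoc, ← mul_assoc]
    congr 1
    rw [hsq, one_mul]
  have hsum : ∑ u ∈ un m, jacobiSym u m * Fx X u m =
      2 * ∑ u ∈ un m, jacobiSym u m * Nr X 11 u m := by
    have e : ∀ u ∈ un m, jacobiSym u m * Fx X u m = jacobiSym u m * Nr X 11 u m -
        jacobiSym (-1) (pr X) * (jacobiSym u m * Nr X 19 u m) := by
      intro u _
      unfold Fx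
      ring
    rw [Finset.sum_congr rfl e, Finset.sum_sub_distrib, ← Finset.mul_sum, h19, ← mul_assoc, hj]
    ring
  constructor
  · rw [hsum, hA]
  · rw [← hB, h19, hsum]
    linear_combination (-2 * ∑ u ∈ un m, jacobiSym u m * Nr X 11 u m) * hsq

theorem t_C1 (h1 : S_C1A) (_h2 : S_PARI) : S_C1 := t_C1' h1

end Pool.Agent.XV
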