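import Pool.Agent.XV.Defs

/-!
# Project XV, job XV-05: forms and cusps as factorizations (helper2)

Adapted from `Pool/Agent/NH2/C1A.lean`.
-/

set_option autoImplicit false

namespace Pool.Agent.XV.C1A

open Finset
open Pool.Agent.Z700 (pr un)
open Pool.Agent.NH2 (w1 w2 wp ev cx)

/-- the conditions -/
structure Gm (X : Finset ℕ) (m : ℕ) : Prop where
  hX : Pq X
  pos : 0 < m
  nd : ∀ p ∈ X, ¬ p ∣ m

theorem pr_pos {X : Finset ℕ} (h : Pq X) : 0 < pr X := Finset.prod_pos fun p hp => (h p hp).1.pos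

theorem pr_odd {X : Finset ℕ} (h : Pq X) : pr X % 2 = 1 := by
  by_contra hn
  have h2 : 2 ∣ pr X := by omega
  obtain ⟨p, hp, h3⟩ := (Nat.prime_two.prime.dvd_finsetProd_iff _).1 h2
  exact (h p hp).2.1 ((Nat.prime_dvd_prime_iff_eq Nat.prime_two (h p hp).1).1 h3).symm

theorem pr_three {X : Finset ℕ} (h : Pq X) : ¬ 3 ∣ pr X := by
  intro h2
  obtain ⟨p, hp, h3⟩ := (Nat.prime_three.prime.dvd_finsetProd_iff _).1 h2
  exact (h p hp).2.2.1 ((Nat.prime_dvd_prime_iff_eq Nat.prime_three (h p hp).1).1 h3).symm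

theorem pr_five {X : Finset ℕ} (h : Pq X) : ¬ 5 ∣ pr X := by
  intro h2
  obtain ⟨p, hp, h3⟩ := (Nat.prime_five.prime.dvd_finsetProd_iff _).1 h2
  exact (h p hp).2.2.2 ((Nat.prime_dvd_prime_iff_eq Nat.prime_five (h p hp).1).1 h3).symm

/-- the forms -/
def SS (X : Finset ℕ) (k x M : ℤ) : Set (ℤ × ℤ × ℤ) := {q | Fm X k q ∧ 0 < q.1 ∧ ev q x M < 0}

theorem SS_fin (X : Finset ℕ) (k x M : ℤ) (hM : 0 < M) : (SS X k x M).Finite := by
  obtain ⟨d, hd0⟩ : ∃ d : ℤ, d = (pr X : ℤ) := ⟨_, rfl⟩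
  have h1 : ((Set.Icc (0:ℤ) (d ^ 2 * M^2)) ×ˢ
      (Set.Icc (-(d ^ 2 * M^2)) (d ^ 2 * M^2))).Finite :=
    (Set.finite_Icc _ _).prod (Set.finite_Icc _ _)
  refine Set.Finite.of_injOn (f := fun q : ℤ×ℤ×ℤ => (q.1, 2 * q.1 * x + q.2.1 * M)) ?_ ?_ h1
  · rintro ⟨A, B, C⟩ ⟨⟨hd, _, _⟩, hA, hN⟩
    unfold ev at hN
    simp only at hd hA hN
    rw [← hd0] at hd
    have key : (2*A*x+B*M)^2 = 4*A*(A*x^2+B*x*M+C*M^2) + d ^ 2*M^2 := by
      linear_combination M^2 * hd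
    have h2 : A * (A*x^2+B*x*M+C*M^2) ≤ -A := by nlinarith
    have h3 : 0 ≤ (2*A*x+B*M)^2 := sq_nonneg _
    have h4 : (2*A*x+B*M)^2 ≤ d ^ 2*M^2 := by nlinarith
    have h5 : |2*A*x+B*M| ≤ (2*A*x+B*M)^2 := by
      rw [← sq_abs]
      exact Int.le_self_sq _
    have h6 := abs_le.1 (h5.trans h4)
    simp only [Set.mem_prod, Set.mem_Icc]
    refine ⟨⟨hA.le, by nlinarith⟩, h6.1, h6.2⟩
  · rintro ⟨A, B, C⟩ ⟨⟨hd, _, _⟩, hA, hN⟩ ⟨A', B', C'⟩ ⟨⟨hd', _, _⟩, hA', hN'⟩ h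
    simp only [Prod.mk.injEq] at h hd hd' hA hA'
    obtain ⟨rfl, h2⟩ := h
    have h3 : B * M = B' * M := by linarith
    have h4 : B = B' := mul_right_cancel₀ hM.ne' h3
    subst h4
    have h5 : A * C = A * C' := by linarith
    have h6 : C = C' := mul_left_cancel₀ hA.ne' h5
    rw [h6]

theorem Nr_eq (X : Finset ℕ) (k x M : ℤ) (hM : 0 < M) :
    Nr X k x M = ∑ q ∈ (SS_fin X k x M hM).toFinset, cx X q := by
  classical
  unfold Nr
  rw [finsum_eq_sum_of_support_subset (s := (SS_fin X k x M hM).toFinset)]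
  · refine Finset.sum_congr rfl fun q hq => ?_
    have hq' : q ∈ SS X k x M := by simpa using hq
    exact if_pos hq'
  · intro q hq
    rw [Function.mem_support] at hq
    have : q ∈ SS X k x M := by
      by_contra hn
      exact hq (if_neg hn)
    simpa using this

/-- the set of factorization data -/
def Ov (u v N : ℕ) : Finset (Σ _ : ℕ, ℕ × ℕ) :=
  ((range N).filter (fun T => v ∣ T)).sigma fun T =>
    ((N - T).divisors.filter (u ∣ ·)) ×ˢ (T.divisors.filter (v ∣ ·))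

/-- the condition on the cusp -/
def Cd (N m : ℕ) (x : ℤ) (w : Σ _ : ℕ, ℕ × ℕ) : Prop :=
  (m : ℤ) ∣ (w.2.1 : ℤ) * x - ((w.1 / w.2.2 : ℕ) : ℤ) ∧
  (m : ℤ) ∣ (w.2.2 : ℤ) * x + (((N - w.1) / w.2.1 : ℕ) : ℤ)

/-- the form attached to the data -/
def fw (N m : ℕ) (x : ℤ) (w : Σ _ : ℕ, ℕ × ℕ) : ℤ × ℤ × ℤ :=
  ((w.2.1 : ℤ) * w.2.2,
    w.2.1 * ((-(((N - w.1) / w.2.1 : ℕ) : ℤ) - (w.2.2 : ℤ) * x) / m) +
      w.2.2 * ((((w.1 / w.2.2 : ℕ) : ℤ) - (w.2.1 : ℤ) * x) / m),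
    ((((w.1 / w.2.2 : ℕ) : ℤ) - (w.2.1 : ℤ) * x) / m) *
      ((-(((N - w.1) / w.2.1 : ℕ) : ℤ) - (w.2.2 : ℤ) * x) / m))

/-- the facts about the data: `b` and `b'` are the second coefficients of the linear factors -/
structure Fc (u v d m : ℕ) (x : ℤ) (T a a' : ℕ) (U V : ℕ) (b b' : ℤ) : Prop where
  hU : T / a' = U
  hV : (d * m - T) / a = V
  hT : T = a' * U
  hS : d * m - T = a * V
  h3 : (a : ℤ) * V + a' * U = d * m
  pa : 0 < a
  pa' : 0 < a'
  pU : 0 < U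
  pV : 0 < V
  ha : u ∣ a
  ha' : v ∣ a'
  hb : (U : ℤ) - a * x = m * b
  hb' : -(V : ℤ) - a' * x = m * b'
  dt : (a' : ℤ) * b - a * b' = d

theorem facts (u v d m : ℕ) (hm : 0 < m) (x : ℤ) (T a a' : ℕ)
    (h : (⟨T, (a, a')⟩ : Σ _ : ℕ, ℕ × ℕ) ∈ Ov u v (d * m))
    (hC : Cd (d * m) m x ⟨T, (a, a')⟩) : ∃ U V : ℕ, ∃ b b' : ℤ, Fc u v d m x T a a' U V b b' ∧
      fw (d * m) m x ⟨T, (a, a')⟩ = ((a : ℤ) * a', a * b' + a' * b, b * b') := by
  unfold Ov at h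
  simp only [Finset.mem_sigma, Finset.mem_filter, Finset.mem_range, Finset.mem_product,
    Nat.mem_divisors] at h
  obtain ⟨⟨hT, h7⟩, ⟨⟨h1, h2⟩, h3⟩, ⟨h4, h5⟩, h6⟩ := h
  obtain ⟨V, hV⟩ := h1
  obtain ⟨U, hU⟩ := h4
  have pa : 0 < a := by
    rcases Nat.eq_zero_or_pos a with h | h
    · subst h; simp at hV; omega
    · exact h
  have pa' : 0 < a' := by
    rcases Nat.eq_zero_or_pos a' with h | h
    · subst h; simp at hU; exact absurd hU h5
    · exact h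
  have eU : T / a' = U := by rw [hU]; exact Nat.mul_div_cancel_left _ pa'
  have eV : (d * m - T) / a = V := by rw [hV]; exact Nat.mul_div_cancel_left _ pa
  have pU : 0 < U := by
    rcases Nat.eq_zero_or_pos U with h | h
    · subst h; simp at hU; exact absurd hU h5
    · exact h
  have pV : 0 < V := by
    rcases Nat.eq_zero_or_pos V with h | h
    · subst h; simp at hV; omega
    · exact h
  have e3 : (a : ℤ) * V + a' * U = d * m := by
    have : a * V + a' * U = d * m := by omega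
    exact_mod_cast this
  unfold Cd at hC
  simp only at hC
  rw [eU, eV] at hC
  obtain ⟨⟨k, hk⟩, ⟨k', hk'⟩⟩ := hC
  have hb : (U : ℤ) - a * x = m * (-k) := by linear_combination -hk
  have hb' : -(V : ℤ) - a' * x = m * (-k') := by linear_combination -hk'
  have hm' : (m : ℤ) ≠ 0 := by exact_mod_cast hm.ne'
  refine ⟨U, V, -k, -k', ⟨eU, eV, hU, hV, e3, pa, pa', pU, pV, h3, h6, hb, hb', ?_⟩, ?_⟩
  · apply mul_left_cancel₀ hm'
    linear_combination e3 - a' * hb + a * hb'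
  · unfold fw
    simp only
    rw [eU, eV, hb, hb', Int.mul_ediv_cancel_left _ hm', Int.mul_ediv_cancel_left _ hm']

theorem fwd_mem {u v : ℕ} {k : ℤ} (huv : UV u v k) {X : Finset ℕ} {m : ℕ} (g : Gm X m) {x : ℤ}
    {T a a' U V : ℕ} {b b' : ℤ} (f : Fc u v (pr X) m x T a a' U V b b') :
    ((a : ℤ) * a', a * b' + a' * b, b * b') ∈ SS X k x m := by
  have hd2 : pr X % 2 = 1 := pr_odd g.hX
  have h4 : (30 : ℤ) ∣ (a * b' + a' * b) - k * pr X := by
    obtain ⟨i, hi⟩ := f.ha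
    obtain ⟨l, hl⟩ := f.ha'
    have dt := f.dt
    obtain ⟨s, hs⟩ : ∃ s : ℤ, s = (i : ℤ) * b' := ⟨_, rfl⟩
    obtain ⟨r, hr⟩ : ∃ r : ℤ, r = (l : ℤ) * b := ⟨_, rfl⟩
    have e1 : (a : ℤ) * b' = u * s := by rw [hs, hi]; push_cast; ring
    have e2 : (a' : ℤ) * b = v * r := by rw [hr, hl]; push_cast; ring
    rw [e1, e2] at dt ⊢
    rcases huv with ⟨rfl, rfl, rfl⟩ | ⟨rfl, rfl, rfl⟩
    · push_cast at dt ⊢
      omega
    · push_cast at dt ⊢
      omega
  refine ⟨⟨?_, ?_, ?_⟩, ?_, ?_⟩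
  · simp only
    linear_combination (a' * b - a * b' + pr X) * f.dt
  · simp only
    obtain ⟨k, hk⟩ := f.ha
    obtain ⟨l, hl⟩ := f.ha'
    rcases huv with ⟨rfl, rfl, -⟩ | ⟨rfl, rfl, -⟩
    · exact ⟨k * l, by rw [hk, hl]; push_cast; ring⟩
    · exact ⟨k * l, by rw [hk, hl]; push_cast; ring⟩
  · exact h4
  · simp only
    exact mul_pos (by exact_mod_cast f.pa) (by exact_mod_cast f.pa')
  · unfold ev
    simp only
    have h1 : (a : ℤ) * a' * x ^ 2 + (a * b' + a' * b) * x * m + b * b' * m ^ 2 = -(U * V) := by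
      linear_combination (-(a' : ℤ) * x - m * b') * f.hb - (U : ℤ) * f.hb'
    rw [h1]
    have : (0 : ℤ) < U * V := mul_pos (by exact_mod_cast f.pU) (by exact_mod_cast f.pV)
    linarith

theorem jac_zero {p : ℕ} (hp : p.Prime) {n : ℤ} (h : (p : ℤ) ∣ n) : jacobiSym n p = 0 := by
  have : NeZero p := ⟨hp.ne_zero⟩
  rw [jacobiSym.eq_zero_iff_not_coprime]
  intro hg
  have h1 : (p : ℤ) ∣ Int.gcd n p := Int.dvd_coe_gcd h (dvd_refl _)
  rw [hg] at h1
  exact hp.one_lt.ne' (by exact_mod_cast Int.eq_one_of_dvd_one (by positivity) h1)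

theorem jac_ne {p : ℕ} (hp : p.Prime) {n : ℤ} (h : ¬ (p : ℤ) ∣ n) : jacobiSym n p ≠ 0 := by
  have : NeZero p := ⟨hp.ne_zero⟩
  rw [Ne, jacobiSym.eq_zero_iff_not_coprime, not_not]
  have h1 : IsCoprime (p : ℤ) n := (Nat.prime_iff_prime_int.1 hp).coprime_iff_not_dvd.2 h
  exact Int.isCoprime_iff_gcd_eq_one.1 h1.symm

theorem jac_congr {p : ℕ} {n k : ℤ} (h : (p : ℤ) ∣ n - k) : jacobiSym n p = jacobiSym k p :=
  jacobiSym.mod_left' (Int.emod_eq_emod_iff_emod_sub_eq_zero.2 (Int.emod_eq_zero_of_dvd h))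

theorem w1_ne {X : Finset ℕ} {a a' U V : ℕ} (h0 : ∏ p ∈ X, w1 p a a' U V ≠ 0) {p : ℕ}
    (hp : p ∈ X) : w1 p a a' U V ≠ 0 := Finset.prod_ne_zero_iff.1 h0 p hp

theorem gen_cop {X : Finset ℕ} (hX : Pq X) {r s : ℤ} (h : ∃ t w : ℤ, r * t + s * w = pr X)
    (hn : ∀ p ∈ X, ¬ ((p : ℤ) ∣ r ∧ (p : ℤ) ∣ s)) : IsCoprime r s := by
  obtain ⟨t, w, h⟩ := h
  rw [Int.isCoprime_iff_gcd_eq_one]
  by_contra hg
  obtain ⟨p, hp, hpd⟩ := Nat.exists_prime_and_dvd hg
  have h1 : (p : ℤ) ∣ r := (Int.natCast_dvd_natCast.2 hpd).trans (Int.gcd_dvd_left ..)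
  have h2 : (p : ℤ) ∣ s := (Int.natCast_dvd_natCast.2 hpd).trans (Int.gcd_dvd_right ..)
  have h3 : (p : ℤ) ∣ (pr X : ℤ) := by
    rw [← h]
    exact dvd_add (Dvd.dvd.mul_right h1 _) (Dvd.dvd.mul_right h2 _)
  have h4 : p ∣ pr X := by exact_mod_cast h3
  obtain ⟨q, hq, h5⟩ := (hp.prime.dvd_finsetProd_iff _).1 h4
  have h6 := (Nat.prime_dvd_prime_iff_eq hp (hX q hq).1).1 h5
  subst h6
  exact hn p hq ⟨h1, h2⟩

theorem prim {u v : ℕ} {X : Finset ℕ} {m : ℕ} (g : Gm X m) {x : ℤ} {T a a' U V : ℕ} {b b' : ℤ}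
    (f : Fc u v (pr X) m x T a a' U V b b') (h0 : ∏ p ∈ X, w1 p a a' U V ≠ 0) :
    IsCoprime (a : ℤ) b ∧ IsCoprime (a' : ℤ) b' := by
  have key1 : ∀ p ∈ X, ¬ ((p : ℤ) ∣ a ∧ (p : ℤ) ∣ b) := by
    rintro p hp ⟨h1, h2⟩
    have hpp := (g.hX p hp).1
    apply w1_ne h0 hp
    unfold w1
    have h1' : p ∣ a := by exact_mod_cast h1
    by_cases h3 : p ∣ a'
    · rw [if_pos ⟨h1', h3⟩]
      apply jac_zero hpp
      have h4 : (p : ℤ) ∣ U := by
        have : (U : ℤ) = m * b + a * x := by linear_combination f.hb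
        rw [this]
        exact dvd_add (Dvd.dvd.mul_left h2 _) (Dvd.dvd.mul_right h1 _)
      push_cast
      exact dvd_neg.2 (Dvd.dvd.mul_right h4 _)
    · rw [if_neg (fun h => h3 h.2)]
      apply jac_zero hpp
      push_cast
      exact Dvd.dvd.mul_right h1 _
  have key2 : ∀ p ∈ X, ¬ ((p : ℤ) ∣ a' ∧ (p : ℤ) ∣ b') := by
    rintro p hp ⟨h1, h2⟩
    have hpp := (g.hX p hp).1
    apply w1_ne h0 hp
    unfold w1
    have h1' : p ∣ a' := by exact_mod_cast h1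
    by_cases h3 : p ∣ a
    · rw [if_pos ⟨h3, h1'⟩]
      apply jac_zero hpp
      have h4 : (p : ℤ) ∣ V := by
        have : (V : ℤ) = -(m * b') - a' * x := by linear_combination -f.hb'
        rw [this]
        exact dvd_sub (dvd_neg.2 (Dvd.dvd.mul_left h2 _)) (Dvd.dvd.mul_right h1 _)
      push_cast
      exact dvd_neg.2 (Dvd.dvd.mul_left h4 _)
    · rw [if_neg (fun h => h3 h.1)]
      apply jac_zero hpp
      push_cast
      exact Dvd.dvd.mul_left h1 _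
  exact ⟨gen_cop g.hX ⟨-b', a', by linear_combination f.dt⟩ key1,
    gen_cop g.hX ⟨b, -a, by linear_combination f.dt⟩ key2⟩

theorem fwd_val {u v : ℕ} {X : Finset ℕ} {m : ℕ} (g : Gm X m) {x : ℤ} {T a a' U V : ℕ} {b b' : ℤ}
    (f : Fc u v (pr X) m x T a a' U V b b') (h0 : ∏ p ∈ X, w1 p a a' U V ≠ 0) :
    ∏ p ∈ X, w1 p a a' U V = cx X ((a : ℤ) * a', a * b' + a' * b, b * b') := by
  unfold cx
  refine Finset.prod_congr rfl fun p hp => ?_
  have hpp := (g.hX p hp).1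
  have hw := w1_ne h0 hp
  unfold w1 at hw ⊢
  simp only
  by_cases h : p ∣ a ∧ p ∣ a'
  · rw [if_pos h]
    obtain ⟨⟨k, hk⟩, ⟨l, hl⟩⟩ := h
    rw [if_pos (by rw [hk]; push_cast; rw [mul_assoc]; exact dvd_mul_right _ _)]
    have e1 : (U : ℤ) = m * b + a * x := by linear_combination f.hb
    have e2 : (V : ℤ) = -(m * b') - a' * x := by linear_combination -f.hb'
    have h1 : jacobiSym (-((U * V : ℕ) : ℤ)) p = jacobiSym ((m : ℤ) ^ 2 * (b * b')) p := by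
      apply jac_congr
      push_cast
      rw [e1, e2, hk, hl]
      push_cast
      exact ⟨m * b * l * x + k * x * (m * b' + p * l * x), by ring⟩
    rw [h1, jacobiSym.mul_left, jacobiSym.sq_one' (a := (m : ℤ)), one_mul]
    have h2 : ¬ (p : ℤ) ∣ m := by
      intro h3
      exact g.nd p hp (by exact_mod_cast h3)
    exact Int.isCoprime_iff_gcd_eq_one.1
      ((Nat.prime_iff_prime_int.1 hpp).coprime_iff_not_dvd.2 h2).symm
  · rw [if_neg h] at hw ⊢
    have h1 : ¬ (p : ℤ) ∣ (a * a' : ℕ) := fun h => hw (jac_zero hpp h)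
    push_cast at h1
    rw [if_neg h1]
    push_cast
    rfl

theorem inj_aux {u v : ℕ} {X : Finset ℕ} {m : ℕ} (g : Gm X m) {x : ℤ} {T a a' U V : ℕ} {b b' : ℤ}
    (f : Fc u v (pr X) m x T a a' U V b b') (h0 : ∏ p ∈ X, w1 p a a' U V ≠ 0) :
    (a' : ℤ) = Int.gcd ((a : ℤ) * a') (a' * b) := by
  rw [mul_comm (a : ℤ) a', Int.gcd_mul_left]
  rw [Int.isCoprime_iff_gcd_eq_one.1 (prim g f h0).1]
  simp

theorem inj {u v : ℕ} {X : Finset ℕ} {m : ℕ} (g : Gm X m) {x : ℤ} {T a a' U V : ℕ} {b b' : ℤ}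
    (f : Fc u v (pr X) m x T a a' U V b b') (h0 : ∏ p ∈ X, w1 p a a' U V ≠ 0)
    {T1 a1 a1' U1 V1 : ℕ} {b1 b1' : ℤ}
    (f1 : Fc u v (pr X) m x T1 a1 a1' U1 V1 b1 b1') (h01 : ∏ p ∈ X, w1 p a1 a1' U1 V1 ≠ 0)
    (e : ((a : ℤ) * a', a * b' + a' * b, b * b') =
      (((a1 : ℤ) * a1', a1 * b1' + a1' * b1, b1 * b1') : ℤ × ℤ × ℤ)) :
      T = T1 ∧ a = a1 ∧ a' = a1' := by
  simp only [Prod.mk.injEq] at e
  obtain ⟨e1, e2, e3⟩ := e
  have e4 : (a' : ℤ) * b = a1' * b1 := by linarith [f.dt, f1.dt]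
  have k1 := inj_aux g f h0
  have k2 := inj_aux g f1 h01
  rw [e1, e4, ← k2] at k1
  have k3 : a' = a1' := by exact_mod_cast k1
  subst k3
  have p := f.pa'
  have k4 : (a : ℤ) = a1 := mul_right_cancel₀ (by exact_mod_cast p.ne') e1
  have k5 : a = a1 := by exact_mod_cast k4
  subst k5
  refine ⟨?_, rfl, rfl⟩
  have p' : (a' : ℤ) ≠ 0 := by exact_mod_cast p.ne'
  have k6 : b = b1 := mul_left_cancel₀ p' e4
  subst k6
  have k7 : U = U1 := by
    have h1 := f.hb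
    have h2 := f1.hb
    have : (U : ℤ) = U1 := by linarith
    exact_mod_cast this
  rw [f.hT, f1.hT, k7]

theorem surj {u v : ℕ} {k : ℤ} (huv : UV u v k) {X : Finset ℕ} {m : ℕ} (g : Gm X m) {x : ℤ}
    {q : ℤ × ℤ × ℤ} (hq : q ∈ SS X k x m)
    (h0 : cx X q ≠ 0) : ∃ w ∈ Ov u v (pr X * m), Cd (pr X * m) m x w ∧
      ∏ p ∈ X, w1 p w.2.1 w.2.2 (w.1 / w.2.2) ((pr X * m - w.1) / w.2.1) ≠ 0 ∧
      fw (pr X * m) m x w = q := by
  obtain ⟨A, B, C⟩ := q
  obtain ⟨⟨hd, h14, h28⟩, hA, hN⟩ := hq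
  unfold ev at hN
  simp only at hd h14 hA hN h28
  have hX := g.hX
  obtain ⟨d, hdX⟩ : ∃ d, d = pr X := ⟨_, rfl⟩
  have hd2 : d % 2 = 1 := by rw [hdX]; exact pr_odd hX
  have hd3 : ¬ 3 ∣ d := by rw [hdX]; exact pr_three hX
  have hd5 : ¬ 5 ∣ d := by rw [hdX]; exact pr_five hX
  have hdpos : 0 < d := by rw [hdX]; exact pr_pos hX
  rw [← hdX] at hd h28 ⊢
  have hB2 : (2 : ℤ) ∣ B + d := by
    rcases huv with ⟨-, -, rfl⟩ | ⟨-, -, rfl⟩ <;> omega
  obtain ⟨γ, hγ⟩ : ∃ γ, B = 2 * γ - d := ⟨(B + d) / 2, by omega⟩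
  subst hγ
  have hAC : A * C = γ * (γ - d) := by linarith
  have hm := g.pos
  -- the gcd
  have hvA : (v : ℤ) ∣ A := by
    rcases huv with ⟨-, rfl, -⟩ | ⟨-, rfl, -⟩ <;> push_cast <;> omega
  have hvg : (v : ℤ) ∣ γ := by
    rcases huv with ⟨-, rfl, rfl⟩ | ⟨-, rfl, rfl⟩ <;> push_cast <;> omega
  obtain ⟨a', ha'⟩ : ∃ a' : ℕ, a' = Int.gcd A γ := ⟨_, rfl⟩
  have hd1 : (a' : ℤ) ∣ A := by rw [ha']; exact Int.gcd_dvd_left ..
  have hd2' : (a' : ℤ) ∣ γ := by rw [ha']; exact Int.gcd_dvd_right ..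
  have hd7 : (v : ℤ) ∣ a' := by
    rw [ha']
    exact Int.dvd_coe_gcd hvA hvg
  have hud : ¬ (u : ℤ) ∣ a' := by
    intro h
    have h1 : (u : ℤ) ∣ γ := h.trans hd2'
    rcases huv with ⟨rfl, -, rfl⟩ | ⟨rfl, -, rfl⟩ <;> push_cast at h1 <;> omega
  obtain ⟨a, ha⟩ := hd1
  obtain ⟨b, hb⟩ := hd2'
  have pa' : (0 : ℤ) < a' := by
    rcases Nat.eq_zero_or_pos a' with h | h
    · rw [h] at ha; simp at ha; omega
    · exact_mod_cast h
  have pa : 0 < a := by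
    rw [ha] at hA
    exact (mul_pos_iff_of_pos_left pa').1 hA
  have hcop : IsCoprime a b := by
    rw [Int.isCoprime_iff_gcd_eq_one]
    have h1 : a' = a' * Int.gcd a b := by
      conv_lhs => rw [ha', ha, hb, Int.gcd_mul_left]
      simp
    have h2 : 0 < a' := by exact_mod_cast pa'
    exact (Nat.eq_of_mul_eq_mul_left h2 (by rw [← h1, mul_one])).symm
  have h1 : a * C = b * (γ - d) := by
    apply mul_left_cancel₀ pa'.ne'
    rw [← mul_assoc, ← ha, hAC, ← mul_assoc, ← hb]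
  have h2 : a ∣ γ - d := by
    have : a ∣ b * (γ - d) := ⟨C, h1.symm⟩
    exact hcop.dvd_of_dvd_mul_left this
  obtain ⟨b', hb'⟩ := h2
  have hC : C = b * b' := by
    apply mul_left_cancel₀ pa.ne'
    rw [h1, hb']
    ring
  have dt : a' * b - a * b' = d := by rw [← hb', ← hb]; ring
  lift a to ℕ using pa.le with a hae
  -- U and V
  obtain ⟨U, hU⟩ : ∃ U : ℤ, U = a * x + b * m := ⟨_, rfl⟩
  obtain ⟨V, hV⟩ : ∃ V : ℤ, V = -(a' * x + b' * m) := ⟨_, rfl⟩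
  have hUV : 0 < U * V := by
    have : U * V = -(A * x ^ 2 + (2 * γ - d) * x * m + C * m ^ 2) := by
      rw [hU, hV, hC, ha]
      linear_combination (x * m) * hb + (x * m) * hb'
    rw [this]
    linarith
  have h3 : (a : ℤ) * V + a' * U = d * m := by
    rw [hU, hV]
    linear_combination (m : ℤ) * dt
  have hdm : (0 : ℤ) < d * m := mul_pos (by exact_mod_cast hdpos) (by exact_mod_cast hm)
  have hpos : 0 < U ∧ 0 < V := by
    rcases pos_and_pos_or_neg_and_neg_of_mul_pos hUV with h | h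
    · exact h
    · exfalso
      have e1 : (a : ℤ) * V < 0 := mul_neg_of_pos_of_neg pa h.2
      have e2 : (a' : ℤ) * U < 0 := mul_neg_of_pos_of_neg pa' h.1
      linarith
  obtain ⟨pU, pV⟩ := hpos
  lift U to ℕ using pU.le with U hUe
  lift V to ℕ using pV.le with V hVe
  have h3' : a * V + a' * U = d * m := by exact_mod_cast h3
  have na : 0 < a := by exact_mod_cast pa
  have na' : 0 < a' := by exact_mod_cast pa'
  have nU : 0 < U := by exact_mod_cast pU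
  have nV : 0 < V := by exact_mod_cast pV
  have ea : u ∣ a := by
    have h5 : (u : ℤ) ∣ a' * a := by
      rw [← ha]
      rcases huv with ⟨rfl, -, -⟩ | ⟨rfl, -, -⟩ <;> push_cast <;> omega
    have h6 : u ∣ a' * a := by exact_mod_cast h5
    have hu : u.Prime := by
      rcases huv with ⟨rfl, -, -⟩ | ⟨rfl, -, -⟩
      · exact Nat.prime_five
      · exact Nat.prime_three
    rcases (Nat.Prime.dvd_mul hu).1 h6 with h | h
    · exact absurd (by exact_mod_cast h) hud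
    · exact h
  have d7 : v ∣ a' := by exact_mod_cast hd7
  have eS : d * m - a' * U = a * V := by omega
  have e1 : (d * m - a' * U) / a = V := by rw [eS]; exact Nat.mul_div_cancel_left _ na
  have e2 : a' * U / a' = U := Nat.mul_div_cancel_left _ na'
  have e3 : (U : ℤ) - a * x = m * b := by rw [hU]; ring
  have e4 : -(V : ℤ) - a' * x = m * b' := by rw [hV]; ring
  have hm' : (m : ℤ) ≠ 0 := by exact_mod_cast hm.ne'
  have pUa : 0 < a' * U := Nat.mul_pos na' nU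
  have pVa : 0 < a * V := Nat.mul_pos na nV
  refine ⟨⟨a' * U, (a, a')⟩, ?_, ?_, ?_, ?_⟩
  · unfold Ov
    simp only [Finset.mem_sigma, Finset.mem_filter, Finset.mem_range, Finset.mem_product,
      Nat.mem_divisors]
    rw [eS]
    refine ⟨⟨by omega, Dvd.dvd.mul_right d7 _⟩, ⟨⟨Dvd.intro _ rfl, by omega⟩, ea⟩,
      ⟨Dvd.intro _ rfl, by omega⟩, d7⟩
  · unfold Cd
    simp only
    rw [e1, e2]
    exact ⟨⟨-b, by linear_combination -e3⟩, ⟨-b', by linear_combination -e4⟩⟩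
  · simp only
    rw [e1, e2, Finset.prod_ne_zero_iff]
    intro p hp
    have hpp := (hX p hp).1
    have hpi : Prime (p : ℤ) := Nat.prime_iff_prime_int.1 hpp
    unfold cx at h0
    have h0' := Finset.prod_ne_zero_iff.1 h0 p hp
    simp only at h0'
    have hpd : (p : ℤ) ∣ d := by
      rw [hdX]
      exact_mod_cast Finset.dvd_prod_of_mem (fun p => p) hp
    unfold w1
    by_cases h5 : (p : ℤ) ∣ A
    · rw [if_pos h5] at h0'
      have h6 : ¬ (p : ℤ) ∣ C := fun h => h0' (jac_zero hpp h)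
      rw [hC] at h6
      have n1 : ¬ (p : ℤ) ∣ b := fun h => h6 (Dvd.dvd.mul_right h _)
      have n2 : ¬ (p : ℤ) ∣ b' := fun h => h6 (Dvd.dvd.mul_left h _)
      have h8 : (p : ℤ) ∣ γ := by
        have h7 : (p : ℤ) ∣ γ ^ 2 := by
          have : γ ^ 2 = A * C + γ * d := by linear_combination -hAC
          rw [this]
          exact dvd_add (Dvd.dvd.mul_right h5 _) (Dvd.dvd.mul_left hpd _)
        exact hpi.dvd_of_dvd_pow h7
      have h9 : (p : ℤ) ∣ a' := by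
        rw [hb] at h8
        exact (hpi.dvd_or_dvd h8).resolve_right n1
      have h10 : (p : ℤ) ∣ a := by
        have : (p : ℤ) ∣ a * b' := by
          rw [← hb']
          exact dvd_sub h8 hpd
        exact (hpi.dvd_or_dvd this).resolve_right n2
      rw [if_pos ⟨by exact_mod_cast h10, by exact_mod_cast h9⟩]
      apply jac_ne hpp
      push_cast
      rw [dvd_neg]
      intro h11
      have nm : ¬ (p : ℤ) ∣ m := fun h => g.nd p hp (by exact_mod_cast h)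
      rcases hpi.dvd_or_dvd h11 with h | h
      · have : (p : ℤ) ∣ m * b := by
          rw [← e3]
          exact dvd_sub h (Dvd.dvd.mul_right h10 _)
        rcases hpi.dvd_or_dvd this with h | h
        · exact nm h
        · exact n1 h
      · have : (p : ℤ) ∣ m * b' := by
          rw [← e4]
          exact dvd_sub (dvd_neg.2 h) (Dvd.dvd.mul_right h9 _)
        rcases hpi.dvd_or_dvd this with h | h
        · exact nm h
        · exact n2 h
    · have n3 : ¬ (p : ℤ) ∣ (a * a' : ℕ) := by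
        push_cast
        rw [mul_comm, ← ha]
        exact h5
      rw [if_neg]
      · exact jac_ne hpp n3
      · rintro ⟨h, _⟩
        apply n3
        have : (p : ℤ) ∣ a := by exact_mod_cast h
        push_cast
        exact Dvd.dvd.mul_right this _
  · unfold fw
    simp only
    rw [e1, e2, e3, e4, Int.mul_ediv_cancel_left _ hm', Int.mul_ediv_cancel_left _ hm', ← hb, ← hb',
      ← hC, mul_comm (a : ℤ), ← ha]
    simp only [Prod.mk.injEq, and_true, true_and]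
    ring

open Classical in
theorem Nr_sum {u v : ℕ} {k : ℤ} (huv : UV u v k) {X : Finset ℕ} {m : ℕ} (g : Gm X m) (x : ℤ) :
    Nr X k x m = ∑ w ∈ Ov u v (pr X * m), if Cd (pr X * m) m x w then
      ∏ p ∈ X, w1 p w.2.1 w.2.2 (w.1 / w.2.2) ((pr X * m - w.1) / w.2.1) else 0 := by
  have hm : (0 : ℤ) < m := by exact_mod_cast g.pos
  rw [Nr_eq X k x m hm]
  symm
  have key : ∀ w ∈ Ov u v (pr X * m), (if Cd (pr X * m) m x w then
      ∏ p ∈ X, w1 p w.2.1 w.2.2 (w.1 / w.2.2) ((pr X * m - w.1) / w.2.1) else 0) ≠ 0 →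
    ∃ U V : ℕ, ∃ b b' : ℤ, Fc u v (pr X) m x w.1 w.2.1 w.2.2 U V b b' ∧
      fw (pr X * m) m x w = ((w.2.1 : ℤ) * w.2.2, w.2.1 * b' + w.2.2 * b, b * b') ∧
      (if Cd (pr X * m) m x w then
        ∏ p ∈ X, w1 p w.2.1 w.2.2 (w.1 / w.2.2) ((pr X * m - w.1) / w.2.1) else 0) =
      ∏ p ∈ X, w1 p w.2.1 w.2.2 U V ∧ ∏ p ∈ X, w1 p w.2.1 w.2.2 U V ≠ 0 := by
    intro w hw hne
    by_cases hC : Cd (pr X * m) m x w
    · rw [if_pos hC] at hne
      obtain ⟨T, a, a'⟩ := w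
      obtain ⟨U, V, b, b', f, hf⟩ := facts u v (pr X) m g.pos x T a a' hw hC
      refine ⟨U, V, b, b', f, hf, ?_, ?_⟩
      · rw [if_pos hC]
        simp only
        rw [f.hU, f.hV]
      · simp only at hne
        rw [f.hU, f.hV] at hne
        exact hne
    · rw [if_neg hC] at hne
      exact absurd rfl hne
  refine Finset.sum_bij_ne_zero (fun w _ _ => fw (pr X * m) m x w) ?_ ?_ ?_ ?_
  · intro w hw hne
    obtain ⟨U, V, b, b', f, hf, -, -⟩ := key w hw hne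
    rw [hf]
    have := fwd_mem huv g f
    simpa using this
  · intro w hw hne w1 hw1 hne1 e
    obtain ⟨U, V, b, b', f, hf, -, h0⟩ := key w hw hne
    obtain ⟨U1, V1, b1, b1', f1, hf1, -, h01⟩ := key w1 hw1 hne1
    rw [hf, hf1] at e
    obtain ⟨k1, k2, k3⟩ := inj g f h0 f1 h01 e
    obtain ⟨T, a, a'⟩ := w
    obtain ⟨T1, a1, a1'⟩ := w1
    simp only at k1 k2 k3
    subst k1 k2 k3
    rfl
  · intro q hq hne
    have h1' : q ∈ SS X k x m := by simpa using hq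
    obtain ⟨w, hw, hC, hp, hf⟩ := surj huv g h1' hne
    exact ⟨w, hw, by rw [if_pos hC]; exact hp, hf⟩
  · intro w hw hne
    obtain ⟨U, V, b, b', f, hf, e, h0⟩ := key w hw hne
    rw [e, hf]
    exact fwd_val g f h0

end Pool.Agent.XV.C1A

namespace Pool.Agent.XV

open Finset C1A
open Pool.Agent.Z700 (pr un)
open Pool.Agent.NH2 (w1 w2 wp ev cx)

/-- C1A -/
theorem t_C1A : S_C1A := by
  classical
  intro u v k huv X Z hXZ hdis hZne
  have hX : Pq X := fun p hp => hXZ p (Finset.mem_union_left _ hp)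
  have hZ : Pq Z := fun p hp => hXZ p (Finset.mem_union_right _ hp)
  have g : Gm X (pr Z) := by
    refine ⟨hX, pr_pos hZ, ?_⟩
    intro p hp hd
    obtain ⟨q, hq, h5⟩ := ((hX p hp).1.prime.dvd_finsetProd_iff _).1 hd
    have h6 := (Nat.prime_dvd_prime_iff_eq (hX p hp).1 (hZ q hq).1).1 h5
    subst h6
    exact Finset.disjoint_left.1 hdis hp hq
  obtain ⟨m, hm⟩ : ∃ m, m = pr Z := ⟨_, rfl⟩
  rw [← hm] at g ⊢
  have rhs1 : ∀ t ∈ un m, jacobiSym t m * Nr X k t m = ∑ w ∈ Ov u v (pr X * m),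
      (if Cd (pr X * m) m t w then
        (∏ p ∈ X, w1 p w.2.1 w.2.2 (w.1 / w.2.2) ((pr X * m - w.1) / w.2.1)) *
          jacobiSym t m else 0) := by
    intro t _
    rw [Nr_sum huv g, Finset.mul_sum]
    refine Finset.sum_congr rfl fun w _ => ?_
    split_ifs
    · ring
    · ring
  rw [Finset.sum_congr rfl rhs1, Finset.sum_comm]
  unfold Ov
  rw [Finset.sum_sigma]
  refine Finset.sum_congr rfl fun T _ => ?_
  rw [Finset.sum_product]
  refine Finset.sum_congr rfl fun a _ => ?_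
  refine Finset.sum_congr rfl fun a' _ => ?_
  rw [Finset.mul_sum, Finset.sum_filter]
  refine Finset.sum_congr rfl fun t _ => ?_
  unfold Cd
  simp only

end Pool.Agent.XV
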