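import Pool.Agent.XV.Defs2
import Pool.Agent.NH2.C2

/-!
# XV-C2: evaluation of the divisor sums (helper68)

Adaptation of the proofs of helper574, helper275, helper949 and helper51 (`NH2/C2.lean`) to two
arbitrary auxiliary primes `u`, `v` and the general factor at `2`.
-/

set_option autoImplicit false

namespace Pool.Agent.XV.C2n

open Finset
open Pool.Agent.Z700 (pr hh)
open Pool.Agent.NH2 (w1 w2 wp)
open Pool.Agent.Y687.N (psn)
open Pool.Agent.Y574.Z7 (sum_local chp chp_mul chp_one chp_self chp_nd chp_sq jac_eq jac_prod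
  dvd_fac alt_sum one_sum two_pt)
open Pool.Agent.Y275.N (Pn Pn_mul Pn_fac Pn_pm Pn_nd wn psn_eq dvd_iff' facn_self not_dvd_of
  chi_sq alt_zero)
open Pool.Agent.NH2.C2 (wx w1_eq gw)

/-! ### the number `n` -/

/-- the hypotheses on the two sets and on the auxiliary primes -/
structure Hy (u v : ℕ) (X Z : Finset ℕ) (n : ℕ) : Prop where
  pm : Pq (X ∪ Z)
  dj : Disjoint X Z
  eq : n = pr X * pr Z
  m4 : n % 4 = 3
  up : u.Prime
  un : ¬ u ∣ n
  uP : Pn n u = -1
  vp : v = 1 ∨ (v.Prime ∧ ¬ v ∣ n ∧ Pn n v = 1)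
  uv : u ≠ v

variable {u v : ℕ}

theorem Hy.pr {X Z : Finset ℕ} {n : ℕ} (h : Hy u v X Z n) : n = ∏ p ∈ X ∪ Z, p := by
  rw [h.eq, prod_union h.dj]
  rfl

theorem Hy.pf {X Z : Finset ℕ} {n : ℕ} (h : Hy u v X Z n) : n.primeFactors = X ∪ Z := by
  rw [h.pr]
  exact Nat.primeFactors_prod fun p hp => (h.pm p hp).1

theorem sq_prod : ∀ s : Finset ℕ, (∀ p ∈ s, p.Prime) → Squarefree (∏ p ∈ s, p) := by
  intro s
  induction s using Finset.induction_on with
  | empty => intro _; rw [prod_empty]; exact squarefree_one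
  | insert a s ha ih =>
    intro hs
    rw [prod_insert ha]
    have ha' := hs a (mem_insert_self a s)
    refine (Nat.squarefree_mul ?_).2 ⟨ha'.squarefree, ih fun p hp => hs p (mem_insert_of_mem hp)⟩
    rw [Nat.coprime_prod_right_iff]
    intro q hq
    exact (Nat.coprime_primes ha' (hs q (mem_insert_of_mem hq))).2 fun h => ha (h ▸ hq)

theorem Hy.sq {X Z : Finset ℕ} {n : ℕ} (h : Hy u v X Z n) : Squarefree n := by
  rw [h.pr]
  exact sq_prod _ fun p hp => (h.pm p hp).1

theorem ne_two {n : ℕ} (h4 : n % 4 = 3) {q : ℕ} (hq : q ∈ n.primeFactors) : q ≠ 2 := by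
  rintro rfl
  have := Nat.dvd_of_mem_primeFactors hq
  omega

/-- the value of the symbol away from `n` -/
theorem Pn_l {n l : ℕ} (hn : Squarefree n) (hl : l.Prime) (h : l ∉ n.primeFactors) :
    Pn n l = jacobiSym l n := by
  apply Pn_nd hn
  intro q hq hd
  rw [(Nat.prime_dvd_prime_iff_eq (Nat.prime_of_mem_primeFactors hq) hl).1 hd] at hq
  exact h hq

/-- reciprocity for the primes of `n` -/
theorem Pn_self {n l : ℕ} (hn : Squarefree n) (h4 : n % 4 = 3) (hl : l ∈ n.primeFactors) :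
    Pn n l = chp l n := by
  have hp := Nat.prime_of_mem_primeFactors hl
  obtain ⟨k, hk⟩ := Nat.dvd_of_mem_primeFactors hl
  have hk0 : k ≠ 0 := by rintro rfl; omega
  have hlk : ¬ l ∣ k := by
    intro h
    have h1 : l * l ∣ n := by rw [hk]; exact Nat.mul_dvd_mul_left l h
    exact hp.one_lt.ne' (Nat.isUnit_iff.1 (hn l h1))
  have hkn : Squarefree k := hn.squarefree_of_dvd ⟨l, by rw [hk]; ring⟩
  have hodd : Odd (l * k) := by rw [← hk, Nat.odd_iff]; omega
  have hlo : Odd l := (Nat.odd_mul.1 hodd).1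
  have hko : Odd k := (Nat.odd_mul.1 hodd).2
  have e0 : n.primeFactors = insert l k.primeFactors := by
    rw [hk, Nat.primeFactors_mul hp.ne_zero hk0, hp.primeFactors]
    rfl
  have hlk' : l ∉ k.primeFactors := fun h => hlk (Nat.dvd_of_mem_primeFactors h)
  have e1 : Pn n l = jacobiSym l k := by
    unfold Pool.Agent.Y275.N.Pn
    rw [e0, Finset.prod_insert hlk', chp_self hp, one_mul]
    have e2 := Pn_nd (n := k) (m := l) hkn (by
      intro q hq hd
      have h3 := (Nat.prime_dvd_prime_iff_eq (Nat.prime_of_mem_primeFactors hq) hp).1 hd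
      rw [h3] at hq
      exact hlk' hq)
    exact e2
  have e2 : chp l n = jacobiSym k l := by
    rw [hk, chp_mul, chp_self hp, one_mul, chp_nd hlk]
  rw [e1, e2]
  have h4 : (l * k) % 4 = 3 := by rw [← hk]; omega
  have h5 : l % 4 = 1 ∨ l % 4 = 3 := by
    rw [Nat.odd_iff] at hlo; omega
  have h6 : k % 4 = 1 ∨ k % 4 = 3 := by
    rw [Nat.odd_iff] at hko; omega
  rcases h5 with h5 | h5
  · exact jacobiSym.quadratic_reciprocity_one_mod_four h5 hko
  · rcases h6 with h6 | h6
    · exact jacobiSym.quadratic_reciprocity_one_mod_four' hlo h6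
    · exfalso
      rw [Nat.mul_mod, h5, h6] at h4
      omega

/-! ### the local weights -/

/-- the excluded primes -/
def ex (u v : ℕ) : Finset ℕ := if v = 1 then {u} else {u, v}

theorem mem_ex {l : ℕ} : l ∈ ex u v ↔ l = u ∨ (l = v ∧ v ≠ 1) := by
  unfold ex
  split_ifs with h
  · simp [h]
  · simp [h]

/-- all the primes -/
def QQ (u v n S T : ℕ) : Finset ℕ := ex u v ∪ (n.primeFactors ∪ (S * T).primeFactors)

theorem ex_QQ {n S T : ℕ} : ex u v ⊆ QQ u v n S T := subset_union_left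

theorem sub_QQ {n S T : ℕ} : n.primeFactors ⊆ QQ u v n S T := fun _ hq =>
  mem_union_right _ (mem_union_left _ hq)

theorem pf_QQ {n S T : ℕ} : (S * T).primeFactors ⊆ QQ u v n S T := fun _ hq =>
  mem_union_right _ (mem_union_right _ hq)

theorem QQ_prime {X Z : Finset ℕ} {n S T : ℕ} (h : Hy u v X Z n) :
    ∀ l ∈ QQ u v n S T, l.Prime := by
  intro l hl
  unfold QQ at hl
  rcases Finset.mem_union.1 hl with hl | hl
  · rcases mem_ex.1 hl with rfl | ⟨rfl, h1⟩
    · exact h.up
    · rcases h.vp with h2 | h2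
      · exact absurd h2 h1
      · exact h2.1
  rcases Finset.mem_union.1 hl with hl | hl
  · exact Nat.prime_of_mem_primeFactors hl
  · exact Nat.prime_of_mem_primeFactors hl

/-- the local weights -/
def Wl (u v : ℕ) (X : Finset ℕ) (n S T l i j : ℕ) : ℤ :=
  Pn n l ^ (i + j) * (if l ∈ n.primeFactors then gw X S T l i j else 1) *
    (if l = u then (if 1 ≤ i then 1 else 0) else 1) * (if l = v then (if 1 ≤ j then 1 else 0) else 1)

theorem term_eq {X Z : Finset ℕ} {n S T : ℕ} (h : Hy u v X Z n) (hS : S ≠ 0) (hT : T ≠ 0)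
    (hST : S + T = n) {a a' : ℕ} (ha : a ∣ S) (ha' : a' ∣ T) :
    (if u ∣ a then (if v ∣ a' then
      (∏ p ∈ X, w1 p a a' (T / a') (S / a)) * ∏ p ∈ Z, w2 p a a' (T / a') (S / a) else 0)
        else 0) =
      ∏ l ∈ QQ u v n S T, Wl u v X n S T l (a.factorization l) (a'.factorization l) := by
  classical
  have h4 := h.m4
  have a0 : a ≠ 0 := by rintro rfl; exact hS (zero_dvd_iff.1 ha)
  have b0 : a' ≠ 0 := by rintro rfl; exact hT (zero_dvd_iff.1 ha')
  have hsa : a.primeFactors ⊆ QQ u v n S T :=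
    (Nat.primeFactors_mono (ha.mul_right T) (mul_ne_zero hS hT)).trans pf_QQ
  have hsb : a'.primeFactors ⊆ QQ u v n S T :=
    (Nat.primeFactors_mono (ha'.mul_left S) (mul_ne_zero hS hT)).trans pf_QQ
  unfold Wl
  rw [Finset.prod_mul_distrib, Finset.prod_mul_distrib, Finset.prod_mul_distrib]
  have e1 : ∏ l ∈ QQ u v n S T, Pn n l ^ (a.factorization l + a'.factorization l) =
      Pn n a * Pn n a' := by
    rw [Pn_fac n (QQ u v n S T) a a0 hsa, Pn_fac n (QQ u v n S T) a' b0 hsb,
      ← Finset.prod_mul_distrib]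
    exact Finset.prod_congr rfl fun l _ => pow_add _ _ _
  have e2 : ∏ l ∈ QQ u v n S T, (if l ∈ n.primeFactors then
      gw X S T l (a.factorization l) (a'.factorization l) else 1) =
      ∏ l ∈ n.primeFactors, gw X S T l (a.factorization l) (a'.factorization l) := by
    rw [Finset.prod_ite_mem, Finset.inter_eq_right.2 sub_QQ]
  have e3 : ∏ l ∈ QQ u v n S T, (if l = u then (if 1 ≤ a.factorization l then (1 : ℤ) else 0)
      else 1) = if u ∣ a then 1 else 0 := by
    rw [Finset.prod_ite_eq' (QQ u v n S T) u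
      (fun l => if 1 ≤ a.factorization l then (1 : ℤ) else 0),
      if_pos (ex_QQ (mem_ex.2 (Or.inl rfl)))]
    simp only [dvd_fac h.up a0]
  have e4 : ∏ l ∈ QQ u v n S T, (if l = v then
      (if 1 ≤ a'.factorization l then (1 : ℤ) else 0) else 1) =
      if v ∣ a' then 1 else 0 := by
    rcases h.vp with h1 | h1
    · rw [if_pos (by rw [h1]; exact one_dvd _)]
      refine Finset.prod_eq_one fun l hl => ?_
      have := (QQ_prime h l hl).one_lt
      rw [if_neg (by omega)]
    · rw [Finset.prod_ite_eq' (QQ u v n S T) v (fun l =>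
        (if 1 ≤ a'.factorization l then (1 : ℤ) else 0)),
        if_pos (ex_QQ (mem_ex.2 (Or.inr ⟨rfl, h1.1.one_lt.ne'⟩)))]
      simp only [dvd_fac h1.1 b0]
  rw [e1, e2, e3, e4]
  have e5 : (∏ p ∈ X, w1 p a a' (T / a') (S / a)) * ∏ p ∈ Z, w2 p a a' (T / a') (S / a) =
      Pn n a * Pn n a' *
        ∏ l ∈ n.primeFactors, gw X S T l (a.factorization l) (a'.factorization l) := by
    unfold Pool.Agent.Y275.N.Pn
    rw [h.pf, ← Finset.prod_mul_distrib, ← Finset.prod_mul_distrib, Finset.prod_union h.dj]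
    congr 1
    · refine Finset.prod_congr rfl fun p hp => ?_
      have hpn : p ∈ n.primeFactors := by
        rw [h.pf]
        exact mem_union_left _ hp
      rw [w1_eq (Nat.prime_of_mem_primeFactors hpn) (ne_two h4 hpn) hS hT (dvd_iff' hST hpn) ha ha']
      unfold Pool.Agent.NH2.C2.gw
      rw [if_pos hp]
    · refine Finset.prod_congr rfl fun p hp => ?_
      have hpX : p ∉ X := fun h' => (Finset.disjoint_left.1 h.dj h') hp
      have hpn : p ∈ n.primeFactors := by
        rw [h.pf]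
        exact mem_union_right _ hp
      have e6 : w2 p a a' (T / a') (S / a) = psn p a a' (S / a) (T / a') := rfl
      rw [e6, psn_eq (Nat.prime_of_mem_primeFactors hpn) (ne_two h4 hpn) hS hT (dvd_iff' hST hpn) ha ha']
      unfold Pool.Agent.NH2.C2.gw
      rw [if_neg hpX]
  rw [e5]
  split_ifs <;> simp

/-- the sum of the local weights -/
def Ls (u v : ℕ) (X : Finset ℕ) (n S T l : ℕ) : ℤ :=
  ∑ i ∈ range (S.factorization l + 1), ∑ j ∈ range (T.factorization l + 1), Wl u v X n S T l i j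

theorem WW_eq {X Z : Finset ℕ} {n S T : ℕ} (h : Hy u v X Z n) (hS : S ≠ 0) (hT : T ≠ 0)
    (hST : S + T = n) : WW u v X Z T = ∏ l ∈ QQ u v n S T, Ls u v X n S T l := by
  have hnT : pr X * pr Z - T = S := by rw [← h.eq]; omega
  unfold Ls
  rw [← sum_local (Wl u v X n S T) (QQ u v n S T) (QQ_prime h) S T hS hT
    (fun l hl hd => pf_QQ (Nat.mem_primeFactors.2 ⟨hl, hd.mul_right T, mul_ne_zero hS hT⟩))
    (fun l hl hd => pf_QQ (Nat.mem_primeFactors.2 ⟨hl, hd.mul_left S, mul_ne_zero hS hT⟩))]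
  unfold WW
  rw [hnT, Finset.sum_filter]
  refine Finset.sum_congr rfl fun a ha => ?_
  rw [Finset.sum_filter]
  have ha1 := Nat.dvd_of_mem_divisors ha
  have h1 : ∀ a' ∈ T.divisors,
      ∏ l ∈ QQ u v n S T, Wl u v X n S T l (a.factorization l) (a'.factorization l) =
      (if u ∣ a then (if v ∣ a' then
      (∏ p ∈ X, w1 p a a' (T / a') (S / a)) * ∏ p ∈ Z, w2 p a a' (T / a') (S / a) else 0)
        else 0) :=
    fun a' ha' => (term_eq h hS hT hST ha1 (Nat.dvd_of_mem_divisors ha')).symm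
  rw [Finset.sum_congr rfl h1]
  by_cases h2 : u ∣ a
  · simp only [if_pos h2]
  · simp only [if_neg h2, Finset.sum_const_zero]

/-! ### the local factors -/

theorem fac_D {S T : ℕ} (hS : S ≠ 0) (hT : T ≠ 0) (l : ℕ) :
    (T * S).factorization l = S.factorization l + T.factorization l := by
  rw [Nat.factorization_mul hT hS, Finsupp.add_apply, add_comm]

theorem mem_D {S T l : ℕ} (hS : S ≠ 0) (hT : T ≠ 0) (hl : l.Prime) :
    l ∈ (T * S).primeFactors ↔ l ∣ S ∨ l ∣ T := by
  rw [Nat.mem_primeFactors, Nat.Prime.dvd_mul hl]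
  constructor
  · rintro ⟨_, h | h, _⟩
    · exact Or.inr h
    · exact Or.inl h
  · exact fun h => ⟨hl, h.symm, mul_ne_zero hT hS⟩

theorem hh_eq {n S T l : ℕ} (hn : Squarefree n) (h4 : n % 4 = 3) (hS : S ≠ 0) (hT : T ≠ 0)
    (hl : l ∈ n.primeFactors) : hh n (T * S) l =
      ZMod.χ₄ l * (Pn n l) ^ (S.factorization l + T.factorization l) * (chp l S * chp l T) := by
  have hp := Nat.prime_of_mem_primeFactors hl
  have h2 : l ≠ 2 := ne_two h4 hl
  have hodd := hp.odd_of_ne_two h2
  have hsq : chp l n * chp l n = 1 := chp_sq hp hn.ne_zero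
  have hm : chp l n = jacobiSym ((n / l : ℕ) : ℤ) l := by
    unfold Pool.Agent.Y574.Z7.chp
    rw [facn_self hn hl, pow_one]
  have hD : jacobiSym ((T * S / l ^ (T * S).factorization l : ℕ) : ℤ) l = chp l S * chp l T := by
    have : jacobiSym ((T * S / l ^ (T * S).factorization l : ℕ) : ℤ) l = chp l (T * S) := rfl
    rw [this, chp_mul, mul_comm]
  unfold Pool.Agent.Z700.hh
  rw [Pn_self hn h4 hl, jacobiSym.neg _ hodd, jacobiSym.neg _ hodd, Nat.cast_mul, jacobiSym.mul_left,
    hD, ← hm, ← fac_D hS hT l]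
  split_ifs with h
  · obtain ⟨k, hk⟩ := h
    rw [hk, ← two_mul, pow_mul, sq, hsq, one_pow]
    ring
  · rw [Nat.not_even_iff_odd] at h
    obtain ⟨k, hk⟩ := h
    rw [hk, pow_succ, pow_mul, sq, hsq, one_pow]
    ring

theorem facp_eq {n S T l : ℕ} (hn : Squarefree n) (h4 : n % 4 = 3) (hS : S ≠ 0) (hT : T ≠ 0)
    (hl : l ∈ n.primeFactors) : fc n (T * S) l =
      1 + ZMod.χ₄ l * (Pn n l) ^ (S.factorization l + T.factorization l) * (chp l S * chp l T) := by
  unfold fc
  rw [if_pos (Nat.dvd_of_mem_primeFactors hl), hh_eq hn h4 hS hT hl]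

theorem facg_eq {n S T l : ℕ} (hn : Squarefree n) (hS : S ≠ 0) (hT : T ≠ 0)
    (hp : l.Prime) (hl : l ∉ n.primeFactors) : fc n (T * S) l =
      ∑ j ∈ range (S.factorization l + T.factorization l + 1), Pn n l ^ j := by
  unfold fc
  rw [if_neg (not_dvd_of hn hp hl), fac_D hS hT, Pn_l hn hp hl]

/-! ### the local sums -/

theorem Ls_u {X Z : Finset ℕ} {n S T : ℕ} (h : Hy u v X Z n) (hST : S + T = n) :
    Ls u v X n S T u = if Odd (S.factorization u) then -1 else 0 := by
  have hu : u ∉ n.primeFactors := fun h' => h.un (Nat.dvd_of_mem_primeFactors h')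
  unfold Ls
  by_cases hd : u ∣ S
  · have hT : ¬ u ∣ T := fun h' => h.un (hST ▸ dvd_add hd h')
    rw [Nat.factorization_eq_zero_of_not_dvd hT, zero_add, ← alt_sum]
    refine Finset.sum_congr rfl fun i _ => ?_
    rw [Finset.sum_range_one]
    unfold Wl
    rw [if_neg hu, if_pos rfl, if_neg h.uv, h.uP, add_zero]
    ring
  · rw [Nat.factorization_eq_zero_of_not_dvd hd, zero_add, Finset.sum_range_one,
      if_neg (by decide)]
    refine Finset.sum_eq_zero fun j _ => ?_
    unfold Wl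
    rw [if_pos rfl, if_neg (by norm_num : ¬ 1 ≤ 0)]
    ring

theorem Ls_v {X Z : Finset ℕ} {n S T : ℕ} (h : Hy u v X Z n) (hST : S + T = n) (hv : v ≠ 1) :
    Ls u v X n S T v = (T.factorization v : ℤ) := by
  obtain ⟨hvp, hvn, hvP⟩ := h.vp.resolve_left hv
  have hv' : v ∉ n.primeFactors := fun h' => hvn (Nat.dvd_of_mem_primeFactors h')
  unfold Ls
  by_cases hd : v ∣ T
  · have hS : ¬ v ∣ S := fun h' => hvn (hST ▸ dvd_add h' hd)
    rw [Nat.factorization_eq_zero_of_not_dvd hS, zero_add, Finset.sum_range_one, ← one_sum]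
    refine Finset.sum_congr rfl fun j _ => ?_
    unfold Wl
    rw [if_neg hv', if_pos rfl, if_neg (fun h' => h.uv h'.symm), hvP, one_pow]
    ring
  · rw [Nat.factorization_eq_zero_of_not_dvd hd, zero_add, Nat.cast_zero]
    refine Finset.sum_eq_zero fun i _ => ?_
    rw [Finset.sum_range_one]
    unfold Wl
    rw [if_pos (rfl : v = v), if_neg (by norm_num : ¬ 1 ≤ 0)]
    ring

theorem Wl_ex {X : Finset ℕ} {n S T l : ℕ} (hp : l.Prime) (hl : l ∉ ex u v) (i j : ℕ) :
    Wl u v X n S T l i j = Pn n l ^ (i + j) *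
      (if l ∈ n.primeFactors then gw X S T l i j else 1) := by
  rw [mem_ex] at hl
  push Not at hl
  unfold Wl
  have hlv : l ≠ v := by
    intro h
    have h1 := hl.2 h
    exact hp.one_lt.ne' (h.trans h1)
  rw [if_neg hl.1, mul_one, if_neg hlv, mul_one]

theorem Ls_gen {X Z : Finset ℕ} {n S T l : ℕ} (h : Hy u v X Z n) (hS : S ≠ 0) (hT : T ≠ 0)
    (hST : S + T = n) (hp : l.Prime) (hex : l ∉ ex u v) (hl : l ∉ n.primeFactors) :
    Ls u v X n S T l = fc n (T * S) l := by
  rw [facg_eq h.sq hS hT hp hl]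
  unfold Ls
  simp only [Wl_ex hp hex, if_neg hl, mul_one]
  have h0 : S.factorization l = 0 ∨ T.factorization l = 0 := by
    by_contra h'
    push Not at h'
    have h1 := (dvd_fac hp hS).2 (by omega)
    have h2 := (dvd_fac hp hT).2 (by omega)
    exact not_dvd_of h.sq hp hl (hST ▸ dvd_add h1 h2)
  rcases h0 with h0 | h0
  · rw [h0, zero_add, Finset.sum_range_one, zero_add]
    exact Finset.sum_congr rfl fun j _ => by rw [zero_add]
  · rw [h0, zero_add, add_zero]
    exact Finset.sum_congr rfl fun i _ => by rw [Finset.sum_range_one, add_zero]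

theorem Ls_X {X Z : Finset ℕ} {n S T : ℕ} (h : Hy u v X Z n) (hS : S ≠ 0) (hT : T ≠ 0)
    (hST : S + T = n) {p : ℕ} (hp : p ∈ n.primeFactors) (hpX : p ∈ X) (hex : p ∉ ex u v) :
    Ls u v X n S T p = if p ∣ T then fc n (T * S) p else 1 := by
  have hd := dvd_iff' hST hp
  have hpp := Nat.prime_of_mem_primeFactors hp
  unfold Ls
  simp only [Wl_ex hpp hex, if_pos hp]
  unfold Pool.Agent.NH2.C2.gw Pool.Agent.NH2.C2.wx
  simp only [if_pos hpX]
  by_cases h' : p ∣ T
  · rw [if_pos h', facp_eq h.sq h.m4 hS hT hp]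
    simp only [if_pos h']
    have s1 := (dvd_fac hpp hS).1 (hd.2 h')
    have t1 := (dvd_fac hpp hT).1 h'
    rw [two_pt (S.factorization p) (T.factorization p) 0 0 (S.factorization p) (T.factorization p)
      (Nat.zero_le _) (Nat.zero_le _) le_rfl le_rfl (Or.inl (by omega)) 1
      (ZMod.χ₄ p * (chp p S * chp p T)) (fun i j => Pn n p ^ (i + j))]
    ring
  · rw [if_neg h']
    simp only [if_neg h']
    rw [Nat.factorization_eq_zero_of_not_dvd h', Nat.factorization_eq_zero_of_not_dvd (fun h1 => h' (hd.1 h1))]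
    simp

theorem Ls_Z {X Z : Finset ℕ} {n S T : ℕ} (h : Hy u v X Z n) (hS : S ≠ 0) (hT : T ≠ 0)
    (hST : S + T = n) {p : ℕ} (hp : p ∈ n.primeFactors) (hpX : p ∉ X) (hex : p ∉ ex u v) :
    Ls u v X n S T p = (Pn n p ^ T.factorization p * chp p T) *
      (if p ∣ T then fc n (T * S) p else 1) := by
  have hd := dvd_iff' hST hp
  have hpp := Nat.prime_of_mem_primeFactors hp
  unfold Ls
  simp only [Wl_ex hpp hex, if_pos hp]
  unfold Pool.Agent.NH2.C2.gw Pool.Agent.Y275.N.wn
  simp only [if_neg hpX]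
  by_cases h' : p ∣ T
  · rw [if_pos h', facp_eq h.sq h.m4 hS hT hp]
    simp only [if_pos h']
    have s1 := (dvd_fac hpp hS).1 (hd.2 h')
    have t1 := (dvd_fac hpp hT).1 h'
    rw [two_pt (S.factorization p) (T.factorization p) (S.factorization p) 0 0 (T.factorization p)
      le_rfl (Nat.zero_le _) (Nat.zero_le _) le_rfl (Or.inl (by omega)) (ZMod.χ₄ p * chp p S)
      (chp p T) (fun i j => Pn n p ^ (i + j))]
    simp only [add_zero, zero_add]
    have c1 := chp_sq hpp hT
    have c2 : Pn n p ^ T.factorization p * Pn n p ^ T.factorization p = 1 := by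
      rw [← mul_pow]
      rcases Pn_pm (n := n) hpp.ne_zero with h | h <;> rw [h] <;> norm_num
    rw [pow_add]
    linear_combination (-(ZMod.χ₄ p * Pn n p ^ S.factorization p * chp p S *
      (chp p T * chp p T))) * c2 -
      (ZMod.χ₄ p * Pn n p ^ S.factorization p * chp p S) * c1
  · rw [if_neg h']
    simp only [if_neg h']
    rw [Nat.factorization_eq_zero_of_not_dvd h', Nat.factorization_eq_zero_of_not_dvd (fun h1 => h' (hd.1 h1))]
    simp only [zero_add, Finset.sum_range_one, pow_zero, one_mul, mul_one]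

/-- the local factor or one -/
def Ff (n S T l : ℕ) : ℤ := if l ∈ (T * S).primeFactors then fc n (T * S) l else 1

/-- the local sums away from the excluded primes -/
theorem Ls_Q' {X Z : Finset ℕ} {n S T : ℕ} (h : Hy u v X Z n) (hS : S ≠ 0) (hT : T ≠ 0)
    (hST : S + T = n) {l : ℕ} (hl : l ∈ QQ u v n S T \ ex u v) :
    Ls u v X n S T l = (if l ∈ Z then Pn n l ^ T.factorization l * chp l T else 1) *
      Ff n S T l := by
  obtain ⟨hl1, hex⟩ := Finset.mem_sdiff.1 hl
  have hp := QQ_prime h l hl1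
  have hD := mem_D hS hT hp
  by_cases hlP : l ∈ n.primeFactors
  · have hd := dvd_iff' hST hlP
    have hD' : l ∈ (T * S).primeFactors ↔ l ∣ T := by rw [hD, hd, or_self]
    by_cases h3 : l ∈ X
    · have hlZ : l ∉ Z := fun h' => (Finset.disjoint_left.1 h.dj h3) h'
      rw [if_neg hlZ, one_mul, Ls_X h hS hT hST hlP h3 hex]
      unfold Ff
      simp only [hD']
    · have hlZ : l ∈ Z := by
        rw [h.pf] at hlP
        exact (Finset.mem_union.1 hlP).resolve_left h3
      rw [if_pos hlZ, Ls_Z h hS hT hST hlP h3 hex]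
      unfold Ff
      simp only [hD']
  · have hlZ : l ∉ Z := fun h' => hlP (by
      rw [h.pf]
      exact Finset.mem_union_right _ h')
    rw [if_neg hlZ, one_mul, Ls_gen h hS hT hST hp hex hlP]
    unfold Ff
    split_ifs with h'
    · rfl
    · rw [facg_eq h.sq hS hT hp hlP]
      rw [hD] at h'
      push Not at h'
      rw [Nat.factorization_eq_zero_of_not_dvd h'.1, Nat.factorization_eq_zero_of_not_dvd h'.2]
      simp

/-- the product of the local factors -/
theorem prod_Ff {n S T : ℕ} (hS : S ≠ 0) (hT : T ≠ 0) :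
    ∏ l ∈ QQ u v n S T \ ex u v, Ff n S T l =
      ∏ l ∈ (T * S).primeFactors \ ex u v, fc n (T * S) l := by
  classical
  unfold Ff
  rw [Finset.prod_ite_mem]
  refine Finset.prod_congr ?_ fun _ _ => rfl
  ext l
  rw [Finset.mem_inter, Finset.mem_sdiff, Finset.mem_sdiff]
  constructor
  · rintro ⟨h1, h2⟩
    exact ⟨h2, h1.2⟩
  · rintro ⟨h1, h2⟩
    exact ⟨⟨pf_QQ (by rwa [mul_comm S T]), h2⟩, h1⟩

/-- the sign -/
theorem sign_eq {X Z : Finset ℕ} {n S T : ℕ} (h : Hy u v X Z n) (hS : S ≠ 0) (hT : T ≠ 0)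
    (hTu : ¬ u ∣ T) (hST : S + T = n) (hF : ∀ l ∈ QQ u v n S T \ ex u v, Ff n S T l ≠ 0) :
    ∏ l ∈ n.primeFactors, (Pn n l ^ T.factorization l * chp l T) = 1 := by
  classical
  have hn := h.sq
  have hsub : T.primeFactors ⊆ QQ u v n S T :=
    (Nat.primeFactors_mono (dvd_mul_left T S) (mul_ne_zero hS hT)).trans pf_QQ
  have e2 : Pn n T = ∏ l ∈ n.primeFactors, Pn n l ^ T.factorization l := by
    rw [Pn_fac n (QQ u v n S T) T hT hsub]
    symm
    refine Finset.prod_subset sub_QQ fun l hl hlP => ?_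
    have hp := QQ_prime h l hl
    by_cases hex : l ∈ ex u v
    · rcases mem_ex.1 hex with h' | ⟨h', h''⟩
      · rw [h', Nat.factorization_eq_zero_of_not_dvd hTu, pow_zero]
      · rw [h', (h.vp.resolve_left h'').2.2, one_pow]
    · have h5 := hF l (Finset.mem_sdiff.2 ⟨hl, hex⟩)
      by_cases hlT : l ∣ T
      · have h4 : l ∈ (T * S).primeFactors := (mem_D hS hT hp).2 (Or.inr hlT)
        unfold Ff at h5
        rw [if_pos h4, facg_eq hn hS hT hp hlP] at h5
        have hS0 : S.factorization l = 0 := by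
          apply Nat.factorization_eq_zero_of_not_dvd
          intro h
          exact not_dvd_of hn hp hlP (hST ▸ dvd_add h hlT)
        rw [hS0, zero_add] at h5
        rcases Pn_pm (n := n) hp.ne_zero with h6 | h6
        · rw [h6, one_pow]
        · rw [h6] at h5 ⊢
          rcases Nat.even_or_odd (T.factorization l) with h7 | h7
          · exact h7.neg_one_pow
          · exfalso
            apply h5
            obtain ⟨k, hk⟩ := h7
            rw [hk]
            exact alt_zero k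
      · rw [Nat.factorization_eq_zero_of_not_dvd hlT, pow_zero]
  rw [Finset.prod_mul_distrib, ← e2]
  have e3 : ∏ l ∈ n.primeFactors, chp l T = Pn n T := rfl
  rw [e3]
  rcases Pn_pm (n := n) hT with h | h <;> rw [h] <;> norm_num

/-! ### the weights of the pairs -/

theorem wp_eq {X Z : Finset ℕ} {n S T : ℕ} (h : Hy u v X Z n) (hST : S + T = n) {p : ℕ}
    (hp : p ∈ n.primeFactors) : wp p n T = chp p S * Pn n p ^ S.factorization p := by
  have hpp := Nat.prime_of_mem_primeFactors hp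
  have hnT : n - T = S := by omega
  have hm : chp p n = jacobiSym ((n / p : ℕ) : ℤ) p := by
    unfold Pool.Agent.Y574.Z7.chp
    rw [facn_self h.sq hp, pow_one]
  have hsq : chp p n * chp p n = 1 := chp_sq hpp h.sq.ne_zero
  unfold Pool.Agent.NH2.wp
  rw [hnT, Pn_self h.sq h.m4 hp, Nat.cast_mul, jacobiSym.mul_left, ← hm]
  have hc : jacobiSym ((S / p ^ S.factorization p : ℕ) : ℤ) p = chp p S := rfl
  rw [hc]
  split_ifs with he
  · obtain ⟨k, hk⟩ := he
    rw [hk, ← two_mul, pow_mul, sq, hsq, one_pow, mul_one]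
  · rw [Nat.not_even_iff_odd] at he
    obtain ⟨k, hk⟩ := he
    rw [hk, pow_succ, pow_mul, sq, hsq, one_pow, one_mul]

/-- comparison of the weights -/
theorem cmp {X Z : Finset ℕ} {n S T : ℕ} (h : Hy u v X Z n) (hS : S ≠ 0) (hT : T ≠ 0)
    (hST : S + T = n) {p : ℕ} (hp : p ∈ n.primeFactors) (hF : Ff n S T p ≠ 0) :
    Pn n p ^ T.factorization p * chp p T = ZMod.χ₄ p * wp p n T := by
  have hpp := Nat.prime_of_mem_primeFactors hp
  have h2 := ne_two h.m4 hp
  have hd := dvd_iff' hST hp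
  have hodd := hpp.odd_of_ne_two h2
  rw [wp_eq h hST hp]
  have c0 := chi_sq hodd
  have c1 := chp_sq hpp hT
  have c2 : Pn n p ^ T.factorization p * Pn n p ^ T.factorization p = 1 := by
    rw [← mul_pow]
    rcases Pn_pm (n := n) hpp.ne_zero with h | h <;> rw [h] <;> norm_num
  have c3 := chp_sq hpp hS
  have c4 : Pn n p ^ S.factorization p * Pn n p ^ S.factorization p = 1 := by
    rw [← mul_pow]
    rcases Pn_pm (n := n) hpp.ne_zero with h | h <;> rw [h] <;> norm_num
  by_cases h' : p ∣ T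
  · unfold Ff at hF
    rw [if_pos ((mem_D hS hT hpp).2 (Or.inr h')), facp_eq h.sq h.m4 hS hT hp, pow_add] at hF
    have c5 : ZMod.χ₄ p * (Pn n p ^ S.factorization p * Pn n p ^ T.factorization p) *
        (chp p S * chp p T) = 1 := by
      have c6 : ZMod.χ₄ p * (Pn n p ^ S.factorization p * Pn n p ^ T.factorization p) *
        (chp p S * chp p T) = 1 ∨ ZMod.χ₄ p * (Pn n p ^ S.factorization p *
        Pn n p ^ T.factorization p) * (chp p S * chp p T) = -1 := by
        apply mul_self_eq_one_iff.1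
        generalize Pn n p ^ S.factorization p = A at *
        generalize Pn n p ^ T.factorization p = B at *
        generalize (ZMod.χ₄ p : ℤ) = c at *
        generalize chp p S = s at *
        generalize chp p T = t at *
        have : c * (A * B) * (s * t) * (c * (A * B) * (s * t)) =
          (c * c) * (A * A) * (B * B) * (s * s) * (t * t) := by ring
        rw [this, c0, c1, c2, c3, c4]
        norm_num
      rcases c6 with c6 | c6
      · exact c6
      · exact absurd (by rw [c6]; norm_num) hF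
    generalize Pn n p ^ S.factorization p = A at *
    generalize Pn n p ^ T.factorization p = B at *
    generalize (ZMod.χ₄ p : ℤ) = c at *
    generalize chp p S = s at *
    generalize chp p T = t at *
    have e1 : c * (s * A) = (c * (A * B) * (s * t)) * (B * t) - c * s * A * ((B * B) * (t * t) - 1) := by
      ring
    rw [e1, c5, c1, c2]
    ring
  · have hS' : ¬ p ∣ S := fun h1 => h' (hd.1 h1)
    rw [Nat.factorization_eq_zero_of_not_dvd h', Nat.factorization_eq_zero_of_not_dvd hS', pow_zero,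
      one_mul, mul_one, chp_nd h', chp_nd hS']
    have e1 : jacobiSym (S : ℤ) p = ZMod.χ₄ p * jacobiSym (T : ℤ) p := by
      rw [← jacobiSym.neg _ hodd]
      apply jacobiSym.mod_left'
      have h3 := Nat.dvd_of_mem_primeFactors hp
      have h4 : (p : ℤ) ∣ (S : ℤ) - (-(T : ℤ)) := by
        have : ((S : ℤ) - (-(T : ℤ))) = ((n : ℕ) : ℤ) := by rw [← hST]; push_cast; ring
        rw [this]
        exact_mod_cast h3
      exact Int.emod_eq_emod_iff_emod_sub_eq_zero.2 (Int.emod_eq_zero_of_dvd h4)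
    rw [e1, ← mul_assoc, c0, one_mul]

/-- the divisor sums -/
theorem main {X Z : Finset ℕ} {n S T : ℕ} (h : Hy u v X Z n) (hS : S ≠ 0) (hT : T ≠ 0)
    (hST : S + T = n) : WW u v X Z T = - jacobiSym (-1) (pr X) * (∏ p ∈ X, wp p n T) *
      (if Odd (S.factorization u) then (if v = 1 then 1 else (T.factorization v : ℤ)) *
        ∏ l ∈ (T * S).primeFactors \ ex u v, fc n (T * S) l else 0) := by
  classical
  have h4 := h.m4
  have hsq := h.sq
  rw [WW_eq h hS hT hST]
  have hE : ∏ l ∈ ex u v, Ls u v X n S T l = (if Odd (S.factorization u) then -1 else 0) *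
      (if v = 1 then 1 else (T.factorization v : ℤ)) := by
    unfold ex
    by_cases hv : v = 1
    · rw [if_pos hv, if_pos hv, Finset.prod_singleton, Ls_u h hST, mul_one]
    · rw [if_neg hv, if_neg hv, Finset.prod_pair h.uv, Ls_u h hST, Ls_v h hST hv]
  have hPs : n.primeFactors ⊆ QQ u v n S T \ ex u v := by
    intro l hl'
    refine Finset.mem_sdiff.2 ⟨sub_QQ hl', fun h' => ?_⟩
    rcases mem_ex.1 h' with h' | ⟨h', h''⟩
    · rw [h'] at hl'
      exact h.un (Nat.dvd_of_mem_primeFactors hl')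
    · rw [h'] at hl'
      exact (h.vp.resolve_left h'').2.1 (Nat.dvd_of_mem_primeFactors hl')
  have hPsub : Z ⊆ QQ u v n S T \ ex u v := fun l hl => hPs (by
    rw [h.pf]
    exact Finset.mem_union_right _ hl)
  have e1 : ∏ l ∈ QQ u v n S T \ ex u v, Ls u v X n S T l =
      (∏ l ∈ Z, (Pn n l ^ T.factorization l * chp l T)) *
        ∏ l ∈ QQ u v n S T \ ex u v, Ff n S T l := by
    rw [Finset.prod_congr rfl fun l (hl : l ∈ QQ u v n S T \ ex u v) => Ls_Q' h hS hT hST hl,
      Finset.prod_mul_distrib, Finset.prod_ite_mem, Finset.inter_eq_right.2 hPsub]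
  have hneg : jacobiSym (-1) (pr X) = ∏ p ∈ X, (ZMod.χ₄ (p : ZMod 4) : ℤ) := by
    unfold Pool.Agent.Z700.pr
    have h0 : ∀ q ∈ X, q ≠ 0 := fun q hq => (h.pm q (mem_union_left _ hq)).1.ne_zero
    rw [jac_prod _ _ h0]
    refine Finset.prod_congr rfl fun p hp => ?_
    have hp' := h.pm p (mem_union_left _ hp)
    exact jacobiSym.at_neg_one (hp'.1.odd_of_ne_two hp'.2.1)
  rw [← Finset.prod_sdiff (ex_QQ (u := u) (v := v) (n := n) (S := S) (T := T)), hE, e1,
    ← prod_Ff hS hT]
  by_cases hodd : Odd (S.factorization u)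
  · rw [if_pos hodd, if_pos hodd]
    have huS : u ∣ S := by
      rw [dvd_fac h.up hS]
      exact hodd.pos
    have huT : ¬ u ∣ T := fun h' => h.un (hST ▸ dvd_add huS h')
    by_cases hF : ∀ l ∈ QQ u v n S T \ ex u v, Ff n S T l ≠ 0
    · have hs := sign_eq h hS hT huT hST hF
      rw [h.pf, Finset.prod_union h.dj] at hs
      have hX : ∏ l ∈ X, (Pn n l ^ T.factorization l * chp l T) =
          jacobiSym (-1) (pr X) * ∏ p ∈ X, wp p n T := by
        rw [hneg, ← Finset.prod_mul_distrib]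
        refine Finset.prod_congr rfl fun p hp => ?_
        have hpn : p ∈ n.primeFactors := by
          rw [h.pf]
          exact Finset.mem_union_left _ hp
        exact cmp h hS hT hST hpn (hF p (hPs hpn))
      have hZ : (∏ l ∈ Z, (Pn n l ^ T.factorization l * chp l T)) *
          (∏ l ∈ Z, (Pn n l ^ T.factorization l * chp l T)) = 1 := by
        rw [← Finset.prod_mul_distrib]
        refine Finset.prod_eq_one fun p hp => ?_
        have hpn : p ∈ n.primeFactors := by
          rw [h.pf]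
          exact Finset.mem_union_right _ hp
        have hpp := Nat.prime_of_mem_primeFactors hpn
        have c1 := chp_sq hpp hT
        have c2 : Pn n p ^ T.factorization p * Pn n p ^ T.factorization p = 1 := by
          rw [← mul_pow]
          rcases Pn_pm (n := n) hpp.ne_zero with h | h <;> rw [h] <;> norm_num
        have : Pn n p ^ T.factorization p * chp p T * (Pn n p ^ T.factorization p * chp p T) =
          (Pn n p ^ T.factorization p * Pn n p ^ T.factorization p) * (chp p T * chp p T) := by ring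
        rw [this, c1, c2, one_mul]
      have hX' : -jacobiSym (-1) (pr X) * ∏ p ∈ X, wp p n T =
          -(∏ l ∈ X, (Pn n l ^ T.factorization l * chp l T)) := by
        rw [hX, neg_mul]
      rw [hX']
      generalize ∏ l ∈ X, (Pn n l ^ T.factorization l * chp l T) = A at hs ⊢
      generalize ∏ l ∈ Z, (Pn n l ^ T.factorization l * chp l T) = B at hs hZ ⊢
      have hAB : A = B := by
        calc A = A * (B * B) := by rw [hZ, mul_one]
          _ = (A * B) * B := by ring
          _ = B := by rw [hs, one_mul]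
      rw [hAB]
      ring
    · push Not at hF
      obtain ⟨l, hl, hl0⟩ := hF
      rw [Finset.prod_eq_zero hl hl0]
      ring
  · rw [if_neg hodd, if_neg hodd]
    ring

/-! ### the two classes -/

theorem jac_five {n : ℕ} (hn : Odd n) (h : n % 5 = 2 ∨ n % 5 = 3) : jacobiSym 5 n = -1 := by
  have h1 := jacobiSym.quadratic_reciprocity_one_mod_four' (a := n) (b := 5) hn (by norm_num)
  rw [show ((5 : ℕ) : ℤ) = 5 from rfl] at h1
  rw [← h1, jacobiSym.mod_left]
  have h' : (n : ℤ) % ((5 : ℕ) : ℤ) = 2 ∨ (n : ℤ) % ((5 : ℕ) : ℤ) = 3 := by omega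
  rcases h' with h' | h' <;> rw [h'] <;> norm_num

theorem jac_five' {n : ℕ} (hn : Odd n) (h : n % 5 = 1 ∨ n % 5 = 4) : jacobiSym 5 n = 1 := by
  have h1 := jacobiSym.quadratic_reciprocity_one_mod_four' (a := n) (b := 5) hn (by norm_num)
  rw [show ((5 : ℕ) : ℤ) = 5 from rfl] at h1
  rw [← h1, jacobiSym.mod_left]
  have h' : (n : ℤ) % ((5 : ℕ) : ℤ) = 1 ∨ (n : ℤ) % ((5 : ℕ) : ℤ) = 4 := by omega
  rcases h' with h' | h' <;> rw [h'] <;> norm_num

theorem jac_three {n : ℕ} (hn : n % 4 = 3) (h : n % 3 = 1) : jacobiSym 3 n = -1 := by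
  have h1 := jacobiSym.quadratic_reciprocity_three_mod_four (a := n) (b := 3) hn (by norm_num)
  rw [show ((3 : ℕ) : ℤ) = 3 from rfl] at h1
  have h2 : jacobiSym (n : ℤ) 3 = 1 := by
    rw [jacobiSym.mod_left]
    have h' : (n : ℤ) % ((3 : ℕ) : ℤ) = 1 := by omega
    rw [h']
    norm_num
  rw [h2] at h1
  omega

theorem jac_three' {n : ℕ} (hn : n % 4 = 3) (h : n % 3 = 2) : jacobiSym 3 n = 1 := by
  have h1 := jacobiSym.quadratic_reciprocity_three_mod_four (a := n) (b := 3) hn (by norm_num)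
  rw [show ((3 : ℕ) : ℤ) = 3 from rfl] at h1
  have h2 : jacobiSym (n : ℤ) 3 = -1 := by
    rw [jacobiSym.mod_left]
    have h' : (n : ℤ) % ((3 : ℕ) : ℤ) = 2 := by omega
    rw [h']
    norm_num
  rw [h2] at h1
  omega

theorem hyb {X Z : Finset ℕ} {n : ℕ} (hpm : Pq (X ∪ Z)) (hdj : Disjoint X Z)
    (hn : n = pr X * pr Z) (hk : Kb n) : Hy 5 3 X Z n ∧ Hy 5 1 X Z n := by
  have h4 : n % 4 = 3 := by unfold Kb at hk; omega
  have h5 : n % 5 = 2 ∨ n % 5 = 3 := by unfold Kb at hk; omega
  have h3 : n % 3 = 2 := by unfold Kb at hk; omega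
  have hodd : Odd n := by rw [Nat.odd_iff]; omega
  have hsq : Squarefree n := by
    rw [hn]
    have := sq_prod (X ∪ Z) fun p hp => (hpm p hp).1
    rw [prod_union hdj] at this
    exact this
  have n5 : ¬ 5 ∣ n := by omega
  have n3 : ¬ 3 ∣ n := by omega
  have p5 : Pn n 5 = -1 := by
    rw [Pn_l hsq (by norm_num) fun h => n5 (Nat.dvd_of_mem_primeFactors h)]
    exact_mod_cast jac_five hodd h5
  have p3 : Pn n 3 = 1 := by
    rw [Pn_l hsq (by norm_num) fun h => n3 (Nat.dvd_of_mem_primeFactors h)]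
    exact_mod_cast jac_three' h4 h3
  exact ⟨⟨hpm, hdj, hn, h4, by norm_num, n5, p5, Or.inr ⟨by norm_num, n3, p3⟩, by norm_num⟩,
    ⟨hpm, hdj, hn, h4, by norm_num, n5, p5, Or.inl rfl, by norm_num⟩⟩

theorem hyd {X Z : Finset ℕ} {n : ℕ} (hpm : Pq (X ∪ Z)) (hdj : Disjoint X Z)
    (hn : n = pr X * pr Z) (hk : Kd n) : Hy 3 5 X Z n ∧ Hy 3 1 X Z n := by
  have h4 : n % 4 = 3 := by unfold Kd at hk; omega
  have h5 : n % 5 = 1 ∨ n % 5 = 4 := by unfold Kd at hk; omega
  have h3 : n % 3 = 1 := by unfold Kd at hk; omega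
  have hodd : Odd n := by rw [Nat.odd_iff]; omega
  have hsq : Squarefree n := by
    rw [hn]
    have := sq_prod (X ∪ Z) fun p hp => (hpm p hp).1
    rw [prod_union hdj] at this
    exact this
  have n5 : ¬ 5 ∣ n := by omega
  have n3 : ¬ 3 ∣ n := by omega
  have p5 : Pn n 5 = 1 := by
    rw [Pn_l hsq (by norm_num) fun h => n5 (Nat.dvd_of_mem_primeFactors h)]
    exact_mod_cast jac_five' hodd h5
  have p3 : Pn n 3 = -1 := by
    rw [Pn_l hsq (by norm_num) fun h => n3 (Nat.dvd_of_mem_primeFactors h)]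
    exact_mod_cast jac_three h4 h3
  exact ⟨⟨hpm, hdj, hn, h4, by norm_num, n3, p3, Or.inr ⟨by norm_num, n5, p5⟩, by norm_num⟩,
    ⟨hpm, hdj, hn, h4, by norm_num, n3, p3, Or.inl rfl, by norm_num⟩⟩

theorem main_loc {X Z : Finset ℕ} {n T : ℕ} (h : Hy u v X Z n) (hT : 0 < T) (hlt : T < n)
    (hv : v ≠ 1) : WW u v X Z T = - jacobiSym (-1) (pr X) * (∏ p ∈ X, wp p n T) *
      loc u v n T := by
  rw [main h (S := n - T) (by omega) (by omega) (by omega), if_neg hv]
  unfold loc
  congr 1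
  refine if_congr Iff.rfl ?_ rfl
  congr 1
  refine Finset.prod_congr ?_ fun _ _ => rfl
  ext l
  rw [Finset.mem_sdiff, mem_ex, Finset.mem_erase, Finset.mem_erase]
  constructor
  · rintro ⟨h1, h2⟩
    exact ⟨fun h => h2 (Or.inr ⟨h, hv⟩), fun h => h2 (Or.inl h), h1⟩
  · rintro ⟨h1, h2, h3⟩
    refine ⟨h3, ?_⟩
    rintro (h | ⟨h, _⟩)
    · exact h2 h
    · exact h1 h

theorem main_loc1 {N : Finset ℕ} {T : ℕ} (h : Hy u 1 ∅ N (pr N)) (hT : 0 < T)
    (hlt : T < pr N) : WW u 1 ∅ N T = - loc1 u (pr N) T := by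
  rw [main h (S := pr N - T) (by omega) (by omega) (by omega), if_pos rfl]
  have e : jacobiSym (-1) (pr ∅) = 1 := by
    unfold Pool.Agent.Z700.pr
    rw [Finset.prod_empty]
    exact jacobiSym.one_right _
  rw [e, Finset.prod_empty, mul_one, neg_one_mul, neg_inj]
  unfold loc1
  refine if_congr Iff.rfl ?_ rfl
  rw [one_mul]
  refine Finset.prod_congr ?_ fun _ _ => rfl
  ext l
  rw [Finset.mem_sdiff, mem_ex, Finset.mem_erase]
  constructor
  · rintro ⟨h1, h2⟩
    exact ⟨fun h => h2 (Or.inl h), h1⟩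
  · rintro ⟨h1, h2⟩
    refine ⟨h2, ?_⟩
    rintro (h | ⟨_, h⟩)
    · exact h1 h
    · exact h rfl

end Pool.Agent.XV.C2n

namespace Pool.Agent.XV

open Pool.Agent.Z700 (pr)
open Pool.Agent.XV.C2n

/-- C2 -/
theorem t_C2 : S_C2 := by
  intro X Z hpm hdj T hT hlt
  exact ⟨fun hk => main_loc (hyb hpm hdj rfl hk).1 hT hlt (by norm_num),
    fun hk => main_loc (hyd hpm hdj rfl hk).1 hT hlt (by norm_num)⟩

/-- C20 -/
theorem t_C20 : S_C20 := by
  intro N hpm T hT hlt
  have h1 : pr N = pr ∅ * pr N := by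
    have : pr ∅ = 1 := rfl
    rw [this, one_mul]
  have hpm' : Pq (∅ ∪ N) := by rwa [Finset.empty_union]
  exact ⟨fun hk => main_loc1 (hyb hpm' (Finset.disjoint_empty_left _) h1 hk).2 hT hlt,
    fun hk => main_loc1 (hyd hpm' (Finset.disjoint_empty_left _) h1 hk).2 hT hlt⟩

end Pool.Agent.XV
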