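import Pool.Agent.XV.CardA

/-!
# XV-18: the numbers of vectors and the class number
-/

set_option autoImplicit false
set_option linter.style.haveILetI false

open Finset

namespace Pool.Agent.XV.Card

open Pool.Agent.Z700 (V3 pr un)
open Pool.Agent.NH2 (w2)
open Pool.Agent.Y687 (saw ded)
open Pool.Agent.Y687.N (Cd)

/-! ### the forms -/

theorem bl5 (v w : V3) : bl 5 v w = 3 * (v 0 * w 0) + 7 * (v 1 * w 1) + 7 * (v 2 * w 2) -
    (v 0 * w 1 + v 1 * w 0) + (v 0 * w 2 + v 2 * w 0) + 3 * (v 1 * w 2 + v 2 * w 1) := by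
  unfold bl
  rw [if_pos rfl]

theorem bl3 (v w : V3) : bl 3 v w = 3 * (v 0 * w 0) + 4 * (v 1 * w 1) + 4 * (v 2 * w 2) +
    2 * (v 1 * w 2 + v 2 * w 1) := by
  unfold bl
  rw [if_neg (by norm_num)]

/-- basic properties of the form -/
structure Gd (q : ℕ) : Prop where
  box : ∀ v : V3, ∀ i, v i ^ 2 ≤ bl q v v
  sub : ∀ v w : V3, bl q (v - w) (v - w) = bl q v v - 2 * bl q v w + bl q w w
  add : ∀ v w : V3, bl q (v + w) (v + w) = bl q v v + 2 * bl q v w + bl q w w
  par : ∀ v w : V3, Odd (bl q v v) → Odd (bl q w w) → Odd (bl q v w)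

theorem gd5 : Gd 5 where
  box := by
    intro v i
    rw [bl5]
    fin_cases i
    · show v 0 ^ 2 ≤ _
      nlinarith [sq_nonneg (v 0 - 2 * v 1 + 2 * v 2), sq_nonneg (v 1 + v 2), sq_nonneg (v 0)]
    · show v 1 ^ 2 ≤ _
      nlinarith [sq_nonneg (3 * v 0 - v 1 + v 2), sq_nonneg (v 1 + v 2), sq_nonneg (v 1),
        sq_nonneg (v 2)]
    · show v 2 ^ 2 ≤ _
      nlinarith [sq_nonneg (3 * v 0 - v 1 + v 2), sq_nonneg (v 1 + v 2), sq_nonneg (v 1),
        sq_nonneg (v 2)]
  sub := by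
    intro v w
    rw [bl5, bl5, bl5, bl5]
    simp only [Pi.sub_apply]
    ring
  add := by
    intro v w
    rw [bl5, bl5, bl5, bl5]
    simp only [Pi.add_apply]
    ring
  par := by
    intro v w h1 h2
    have e : ∀ v w : V3, bl 5 v w = (v 0 + v 1 + v 2) * (w 0 + w 1 + w 2) +
        2 * (v 0 * w 0 + 3 * (v 1 * w 1) + 3 * (v 2 * w 2) - (v 0 * w 1 + v 1 * w 0) +
          (v 1 * w 2 + v 2 * w 1)) := by
      intro v w
      rw [bl5]
      ring
    have o : ∀ v : V3, Odd (bl 5 v v) → Odd (v 0 + v 1 + v 2) := by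
      intro v hv
      by_contra h
      rw [Int.not_odd_iff_even] at h
      refine (Int.not_even_iff_odd.2 hv) ?_
      rw [e]
      exact (h.mul_right _).add (even_two_mul _)
    rw [e]
    exact ((o v h1).mul (o w h2)).add_even (even_two_mul _)

theorem gd3 : Gd 3 where
  box := by
    intro v i
    rw [bl3]
    fin_cases i
    · show v 0 ^ 2 ≤ _
      nlinarith [sq_nonneg (v 1 + v 2), sq_nonneg (v 0), sq_nonneg (v 1), sq_nonneg (v 2)]
    · show v 1 ^ 2 ≤ _
      nlinarith [sq_nonneg (v 1 + v 2), sq_nonneg (v 0), sq_nonneg (v 1), sq_nonneg (v 2)]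
    · show v 2 ^ 2 ≤ _
      nlinarith [sq_nonneg (v 1 + v 2), sq_nonneg (v 0), sq_nonneg (v 1), sq_nonneg (v 2)]
  sub := by
    intro v w
    rw [bl3, bl3, bl3, bl3]
    simp only [Pi.sub_apply]
    ring
  add := by
    intro v w
    rw [bl3, bl3, bl3, bl3]
    simp only [Pi.add_apply]
    ring
  par := by
    intro v w h1 h2
    have e : ∀ v w : V3, bl 3 v w = v 0 * w 0 +
        2 * (v 0 * w 0 + 2 * (v 1 * w 1) + 2 * (v 2 * w 2) + (v 1 * w 2 + v 2 * w 1)) := by
      intro v w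
      rw [bl3]
      ring
    have o : ∀ v : V3, Odd (bl 3 v v) → Odd (v 0) := by
      intro v hv
      by_contra h
      rw [Int.not_odd_iff_even] at h
      refine (Int.not_even_iff_odd.2 hv) ?_
      rw [e]
      exact (h.mul_right _).add (even_two_mul _)
    rw [e]
    exact ((o v h1).mul (o w h2)).add_even (even_two_mul _)

variable {q : ℕ}

theorem mem_vec (hq : Gd q) {n : ℤ} {v : V3} : v ∈ vec q n ↔ bl q v v = n := by
  unfold vec
  rw [mem_filter, Fintype.mem_piFinset]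
  refine ⟨fun h => h.2, fun h => ⟨fun i => ?_, h⟩⟩
  have h1 := hq.box v i
  rw [h] at h1
  rw [mem_Icc]
  constructor
  · nlinarith [sq_nonneg (v i + 1), sq_nonneg (v i)]
  · nlinarith [sq_nonneg (v i - 1), sq_nonneg (v i)]

theorem eq_zero (hq : Gd q) {v : V3} (h : bl q v v = 0) : v = 0 := by
  funext i
  have h1 := hq.box v i
  rw [h] at h1
  have h2 : v i ^ 2 = 0 := le_antisymm h1 (sq_nonneg _)
  exact pow_eq_zero_iff (two_ne_zero) |>.1 h2

theorem nonneg (hq : Gd q) (v : V3) : 0 ≤ bl q v v := (sq_nonneg (v 0)).trans (hq.box v 0)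

theorem bounds (hq : Gd q) {n : ℤ} {v w : V3} (hv : bl q v v = n) (hw : bl q w w = n) :
    -n ≤ bl q v w ∧ bl q v w ≤ n := by
  have h1 := nonneg hq (v - w)
  have h2 := nonneg hq (v + w)
  rw [hq.sub, hv, hw] at h1
  rw [hq.add, hv, hw] at h2
  constructor <;> linarith

/-- the sum of the numbers of pairs -/
theorem sum_cpa (hq : Gd q) {n : ℕ} (hn : Odd n) :
    (vec q (n : ℤ)).card ^ 2 = ∑ T ∈ range (n + 1), cpa q n T := by
  classical
  have hno : Odd (n : ℤ) := by exact_mod_cast hn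
  have h0 : (vec q (n : ℤ)).card ^ 2 = (vec q (n : ℤ) ×ˢ vec q (n : ℤ)).card := by
    rw [card_product, sq]
  have hb : ∀ x ∈ vec q (n : ℤ) ×ˢ vec q (n : ℤ), ∃ T : ℕ, T < n + 1 ∧
      bl q x.1 x.2 = (n : ℤ) - 2 * T := by
    intro x hx
    rw [mem_product, mem_vec hq, mem_vec hq] at hx
    obtain ⟨h1, h2⟩ := bounds hq hx.1 hx.2
    have h3 := hq.par x.1 x.2 (by rw [hx.1]; exact hno) (by rw [hx.2]; exact hno)
    obtain ⟨a, ha⟩ := h3
    obtain ⟨b, hb⟩ := hno
    refine ⟨(b - a).toNat, by omega, by omega⟩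
  rw [h0, card_eq_sum_card_fiberwise (f := fun x : V3 × V3 => (((n : ℤ) - bl q x.1 x.2) / 2).toNat)
    (t := range (n + 1))]
  · refine sum_congr rfl fun T hT => ?_
    unfold cpa
    congr 1
    refine filter_congr fun x hx => ?_
    obtain ⟨T', h1, h2⟩ := hb x hx
    rw [h2]
    constructor
    · intro h
      omega
    · intro h
      omega
  · intro x hx
    obtain ⟨T', h1, h2⟩ := hb x hx
    simp only [coe_range, Set.mem_Iio]
    rw [h2]
    omega

theorem cpa_zero (hq : Gd q) (n : ℕ) : cpa q n 0 = (vec q (n : ℤ)).card := by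
  classical
  unfold cpa
  refine card_nbij' (fun x => x.1) (fun v => (v, v)) ?_ ?_ ?_ ?_
  · intro x hx
    simp only [coe_filter, mem_product, Set.mem_ofPred_eq] at hx
    exact hx.1.1
  · intro v hv
    have hv' := (mem_vec hq).1 hv
    simp only [coe_filter, mem_product, Set.mem_ofPred_eq]
    exact ⟨⟨hv, hv⟩, by rw [hv']; simp⟩
  · intro x hx
    simp only [coe_filter, mem_product, Set.mem_ofPred_eq] at hx
    obtain ⟨⟨h1, h2⟩, h3⟩ := hx
    rw [mem_vec hq] at h1 h2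
    have h4 : bl q (x.1 - x.2) (x.1 - x.2) = 0 := by
      rw [hq.sub, h1, h2, h3]
      push_cast
      ring
    have h5 := eq_zero hq h4
    exact Prod.ext rfl (sub_eq_zero.1 h5)
  · intro v _
    rfl

theorem neg_mem (hq : Gd q) {n : ℤ} {v : V3} (hv : v ∈ vec q n) : -v ∈ vec q n := by
  rw [mem_vec hq] at hv ⊢
  have h1 := hq.add v (-v)
  have h2 := hq.sub v (-v)
  have h3 := hq.sub 0 v
  have h4 := hq.add 0 v
  have h5 := hq.sub 0 0
  rw [add_neg_cancel] at h1
  rw [sub_zero] at h5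
  rw [zero_sub] at h3
  rw [zero_add] at h4
  have h6 : bl q (0 : V3) (0 : V3) = 0 := by linarith
  rw [h3]
  linarith

theorem cpa_last (hq : Gd q) (n : ℕ) : cpa q n n = (vec q (n : ℤ)).card := by
  classical
  unfold cpa
  refine card_nbij' (fun x => x.1) (fun v => (v, -v)) ?_ ?_ ?_ ?_
  · intro x hx
    simp only [coe_filter, mem_product, Set.mem_ofPred_eq] at hx
    exact hx.1.1
  · intro v hv
    have hv' := (mem_vec hq).1 hv
    have hv'' := (mem_vec hq).1 (neg_mem hq hv)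
    simp only [coe_filter, mem_product, Set.mem_ofPred_eq]
    refine ⟨⟨hv, neg_mem hq hv⟩, ?_⟩
    have h1 := hq.add v (-v)
    have h5 := hq.sub 0 0
    rw [sub_zero] at h5
    rw [add_neg_cancel, hv', hv''] at h1
    linarith
  · intro x hx
    simp only [coe_filter, mem_product, Set.mem_ofPred_eq] at hx
    obtain ⟨⟨h1, h2⟩, h3⟩ := hx
    rw [mem_vec hq] at h1 h2
    have h4 : bl q (x.1 + x.2) (x.1 + x.2) = 0 := by
      rw [hq.add, h1, h2, h3]
      ring
    have h5 := eq_zero hq h4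
    exact Prod.ext rfl (neg_eq_of_add_eq_zero_right h5)
  · intro v _
    rfl

theorem sum_split {n : ℕ} (hn : 0 < n) (f : ℕ → ℤ) :
    ∑ T ∈ range (n + 1), f T = f 0 + f n + ∑ T ∈ Ioo 0 n, f T := by
  have h1 : range (n + 1) = insert 0 (insert n (Ioo 0 n)) := by
    ext T
    simp only [mem_range, mem_insert, mem_Ioo]
    omega
  rw [h1, sum_insert, sum_insert]
  · ring
  · simp
  · simp only [mem_insert, mem_Ioo]
    omega

theorem card_sq (hq : Gd q) {n : ℕ} (hn : Odd n) :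
    ((vec q (n : ℤ)).card : ℤ) ^ 2 = 2 * (vec q (n : ℤ)).card + ∑ T ∈ Ioo 0 n, (cpa q n T : ℤ) := by
  have h1 := sum_cpa hq hn
  have h2 : ((vec q (n : ℤ)).card : ℤ) ^ 2 = ∑ T ∈ range (n + 1), (cpa q n T : ℤ) := by
    exact_mod_cast h1
  rw [h2, sum_split hn.pos (fun T => (cpa q n T : ℤ)), cpa_zero hq, cpa_last hq]
  ring

/-! ### folding -/

theorem fold {u n : ℕ} (hu : u.Prime) (hun : ¬ u ∣ n) :
    ∑ T ∈ Ioo 0 n, (if Odd ((T * (n - T)).factorization u) then pf u n T else 0) =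
      2 * ∑ T ∈ Ioo 0 n, loc1 u n T := by
  classical
  have h1 : ∀ T ∈ Ioo 0 n, (if Odd ((T * (n - T)).factorization u) then pf u n T else 0) =
      loc1 u n T + loc1 u n (n - T) := by
    intro T hT
    rw [mem_Ioo] at hT
    have hT0 : T ≠ 0 := by omega
    have hT1 : n - T ≠ 0 := by omega
    have hT2 : n - (n - T) = T := by omega
    have h2 : (T * (n - T)).factorization u = T.factorization u + (n - T).factorization u := by
      rw [Nat.factorization_mul hT0 hT1, Finsupp.add_apply]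
    have h3 : T.factorization u = 0 ∨ (n - T).factorization u = 0 := by
      by_contra hcon
      push Not at hcon
      have h4 : u ∣ T := (hu.dvd_iff_one_le_factorization hT0).2 (Nat.pos_of_ne_zero hcon.1)
      have h5 : u ∣ n - T := (hu.dvd_iff_one_le_factorization hT1).2 (Nat.pos_of_ne_zero hcon.2)
      apply hun
      have h6 := dvd_add h4 h5
      rwa [Nat.add_sub_cancel' hT.2.le] at h6
    unfold loc1 pf
    rw [hT2, h2, mul_comm (n - T) T]
    rcases h3 with h3 | h3 <;> rw [h3] <;> simp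
  rw [sum_congr rfl h1, sum_add_distrib, two_mul]
  congr 1
  refine sum_nbij' (fun T => n - T) (fun T => n - T) ?_ ?_ ?_ ?_ ?_
  · intro T hT
    rw [mem_Ioo] at hT ⊢
    omega
  · intro T hT
    rw [mem_Ioo] at hT ⊢
    omega
  · intro T hT
    rw [mem_Ioo] at hT
    show n - (n - T) = T
    omega
  · intro T hT
    rw [mem_Ioo] at hT
    show n - (n - T) = T
    omega
  · intro T hT
    rfl

theorem sqf {N : Finset ℕ} (h : Pq N) : Squarefree (pr N) := by
  unfold Pool.Agent.Z700.pr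
  induction N using Finset.induction_on with
  | empty => simp
  | insert p N hp ih =>
    rw [prod_insert hp]
    have h1 := ih fun p' hp' => h p' (mem_insert_of_mem hp')
    have h2 := (h p (mem_insert_self p N)).1
    refine (Nat.squarefree_mul ?_).2 ⟨h2.squarefree, h1⟩
    refine Nat.Coprime.prod_right fun p' hp' => ?_
    refine (Nat.coprime_primes h2 (h p' (mem_insert_of_mem hp')).1).2 ?_
    rintro rfl
    exact hp hp'

/-! ### the class number -/

theorem pf_pr {N : Finset ℕ} (h : Pq N) : (pr N).primeFactors = N := by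
  unfold Pool.Agent.Z700.pr
  exact Nat.primeFactors_prod fun p hp => (h p hp).1

theorem Nq_congr {u v n : ℕ} {x y : ℤ} (h : (n : ℤ) ∣ x - y) : Nq u v n x = Nq u v n y := by
  unfold Nq
  congr 2
  exact filter_congr fun w _ => Cd_congr h w

theorem jneg {n : ℕ} (h : n % 4 = 3) : jacobiSym (-1) n = -1 := by
  rw [jacobiSym.at_neg_one (Nat.odd_iff.2 (by omega))]
  exact ZMod.χ₄_nat_three_mod_four h

theorem sum_neg {u v n : ℕ} (h : n % 4 = 3) :
    ∑ t ∈ un n, (jacobiSym (t : ℤ) n) * (Nq u v n (-t)) =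
      - ∑ t ∈ un n, (jacobiSym (t : ℤ) n) * (Nq u v n t) := by
  rw [← sum_neg_distrib]
  have hmem : ∀ t : ℕ, t ∈ un n → t < n ∧ Nat.Coprime t n ∧ 0 < t := by
    intro t ht
    have hu := Pool.Agent.Y687.mem_rr.1 (show t ∈ Pool.Agent.Y687.rr n from ht)
    refine ⟨hu.1, hu.2, ?_⟩
    rcases Nat.eq_zero_or_pos t with h0 | h0
    · subst h0
      have := hu.2
      rw [Nat.coprime_zero_left] at this
      omega
    · exact h0
  have hmap : ∀ t ∈ un n, n - t ∈ un n := by
    intro t ht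
    obtain ⟨h1, h2, h3⟩ := hmem t ht
    refine Pool.Agent.Y687.mem_rr.2 ⟨by omega, ?_⟩
    rw [Nat.coprime_comm]
    exact (Nat.coprime_self_sub_right h1.le).2 h2.symm
  refine sum_nbij' (fun t => n - t) (fun t => n - t) hmap hmap ?_ ?_ ?_
  · intro t ht
    have := hmem t ht
    show n - (n - t) = t
    omega
  · intro t ht
    have := hmem t ht
    show n - (n - t) = t
    omega
  · intro t ht
    have hu := hmem t ht
    have e : ((n - t : ℕ) : ℤ) = n - t := by
      rw [Nat.cast_sub hu.1.le]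
    rw [e, Nq_congr (x := -(t : ℤ)) (y := (n : ℤ) - t) ⟨-1, by ring⟩]
    have e2 : jacobiSym ((n : ℤ) - t) n = -jacobiSym (t : ℤ) n := by
      rw [jac_congr (x := (n : ℤ) - t) (y := (-1) * t) ⟨1, by ring⟩,
        jacobiSym.mul_left, jneg h]
      ring
    rw [e2]
    ring

/-- the counting side -/
theorem sum_Nq {N : Finset ℕ} (hN : Pq N) (ho : Odd (pr N)) (l : ℕ) :
    ∑ t ∈ un (pr N), (jacobiSym (t : ℤ) (pr N)) * (Nq l 1 (pr N) t) =
      ∑ T ∈ range (pr N), WW l 1 ∅ N T := by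
  classical
  have h1 : ∀ t ∈ un (pr N), (jacobiSym (t : ℤ) (pr N)) * (Nq l 1 (pr N) t) =
      ∑ w ∈ Om l 1 (pr N), if Cd (pr N) t w then jacobiSym (t : ℤ) (pr N) else 0 := by
    intro t _
    unfold Nq
    rw [← sum_filter, sum_const, nsmul_eq_mul]
    ring
  rw [sum_congr rfl h1, sum_comm]
  unfold Om
  rw [sum_sigma]
  refine sum_congr rfl fun T hT => ?_
  have hp0 : pr (∅ : Finset ℕ) = 1 := by
    unfold Pool.Agent.Z700.pr
    simp
  unfold WW
  rw [hp0, one_mul, sum_product]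
  refine sum_congr rfl fun a ha => ?_
  refine sum_congr rfl fun a' ha' => ?_
  rw [mem_filter, Nat.mem_divisors] at ha ha'
  have hT := mem_range.1 hT
  rw [← sum_filter, prod_empty, one_mul]
  have h2 := c1b (sqf hN) ho a a' (T / a') ((pr N - T) / a) (by
    rw [Nat.mul_div_cancel' ha.1.1, Nat.mul_div_cancel' ha'.1.1]
    omega)
  rw [pf_pr hN] at h2
  exact h2

theorem sum_WW {N : Finset ℕ} (l : ℕ) (hpos : 0 < pr N)
    (h : ∀ T, 0 < T → T < pr N → WW l 1 ∅ N T = - loc1 l (pr N) T) :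
    ∑ T ∈ range (pr N), WW l 1 ∅ N T = - ∑ T ∈ Ioo 0 (pr N), loc1 l (pr N) T := by
  have h1 : range (pr N) = insert 0 (Ioo 0 (pr N)) := by
    ext T
    simp only [mem_range, mem_insert, mem_Ioo]
    omega
  have h0 : WW l 1 ∅ N 0 = 0 := by
    unfold WW
    simp
  rw [h1, sum_insert (by simp), h0, zero_add, ← sum_neg_distrib]
  refine sum_congr rfl fun T hT => ?_
  rw [mem_Ioo] at hT
  exact h T hT.1 hT.2

/-- the class number relation -/
theorem relation (hL : S_LVL) {N : Finset ℕ} (hN : Pq N) (h4 : pr N % 4 = 3) {l : ℕ}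
    (hl : l = 3 ∨ l = 5) (hc : Nat.Coprime (pr N) l) (hj : jacobiSym l (pr N) = -1)
    (hW : ∀ T, 0 < T → T < pr N → WW l 1 ∅ N T = - loc1 l (pr N) T) :
    (2 : ℚ) * ((∑ T ∈ Ioo 0 (pr N), loc1 l (pr N) T : ℤ) : ℚ) =
      24 / ((l : ℚ) - 1) * HH (pr N) ^ 2 + 2 * HH (pr N) := by
  obtain ⟨n, hn⟩ : ∃ n, n = pr N := ⟨_, rfl⟩
  have hodd : Odd n := Nat.odd_iff.2 (by omega)
  have hsq : Squarefree n := hn ▸ sqf hN
  have hpos : 0 < n := hodd.pos
  obtain ⟨z, hz⟩ : ∃ z : ℤ, (n : ℤ) ∣ l * z - 1 := by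
    have h1 : IsCoprime (n : ℤ) (l : ℤ) := Nat.isCoprime_iff_coprime.2 (hn ▸ hc)
    obtain ⟨a, b, hab⟩ := h1
    exact ⟨b, ⟨-a, by linarith⟩⟩
  have hjz : jacobiSym z n = -1 := by
    have h1 : jacobiSym (l * z) n = 1 := by
      rw [jac_congr (y := 1) hz, jacobiSym.one_left]
    rw [jacobiSym.mul_left, hn, hj, ← hn] at h1
    omega
  have e1 : ((∑ t ∈ un n, (jacobiSym (t : ℤ) n) * (Nq l 1 n (-t) - Nq l 1 n t) : ℤ) : ℚ) =
      24 / ((l : ℚ) - 1) * HH n ^ 2 + 2 * HH n := by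
    push_cast
    have h1 : ∀ t ∈ un n, (jacobiSym (t : ℤ) n : ℚ) * ((Nq l 1 n (-t) : ℚ) - (Nq l 1 n t : ℚ)) =
        12 / ((l : ℚ) - 1) * ((jacobiSym (t : ℤ) n : ℚ) * ded (1 * t) n) -
        12 / ((l : ℚ) - 1) * ((jacobiSym (t : ℤ) n : ℚ) * ded (l * t) n)
        + (jacobiSym (t : ℤ) n : ℚ) * saw n (1 * t) -
        (jacobiSym (t : ℤ) n : ℚ) * saw n (z * (((t : ZMod n)⁻¹).val : ℤ)) := by
      intro t ht
      have h2 := hL l n hl hpos (hn ▸ hc) t (((t : ZMod n)⁻¹).val : ℤ) z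
        (un_dvd ht) hz
      push_cast at h2
      rw [h2, one_mul]
      ring
    rw [sum_congr rfl h1, sum_sub_distrib, sum_add_distrib, sum_sub_distrib, ← mul_sum, ← mul_sum,
      sum_un hsq.ne_zero (fun t => ded (1 * (t : ℤ)) n),
      sum_un hsq.ne_zero (fun t => ded (l * (t : ℤ)) n),
      sum_un hsq.ne_zero (fun t => saw n (1 * (t : ℤ))),
      char_inv hodd hsq, char_ded hodd hsq,
      char_ded hodd hsq, char_saw hodd hsq, hjz,
      jacobiSym.one_left, hn, hj]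
    push_cast
    ring
  have e2 : ∑ t ∈ un n, (jacobiSym (t : ℤ) n) * (Nq l 1 n (-t) - Nq l 1 n t) =
      2 * ∑ T ∈ Ioo 0 n, loc1 l n T := by
    simp_rw [mul_sub]
    rw [sum_sub_distrib, sum_neg (hn ▸ h4), hn, sum_Nq hN (hn ▸ hodd), sum_WW l (hn ▸ hpos) hW]
    ring
  rw [← hn, ← e1, e2]
  push_cast
  ring

/-! ### three divides the number of vectors -/

theorem three_dvd {S : Finset V3} (R : V3 → V3) (h1 : ∀ v ∈ S, R v ∈ S)
    (h2 : ∀ v, R (R (R v)) = v) (h3 : ∀ v ∈ S, R v ≠ v) : 3 ∣ S.card := by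
  haveI : Fact (Nat.Prime 3) := ⟨by norm_num⟩
  obtain ⟨f, hf⟩ : ∃ f : Function.End S, ∀ v : S, (f v : V3) = R v :=
    ⟨fun v => ⟨R v, h1 v v.2⟩, fun _ => rfl⟩
  have hf3 : f ^ 3 ^ 1 = 1 := by
    rw [pow_one, pow_succ, pow_two]
    funext v
    apply Subtype.ext
    show ((f (f (f v)) : S) : V3) = v
    rw [hf, hf, hf, h2]
  have h := Equiv.Perm.card_fixedPoints_modEq hf3
  have h0 : IsEmpty (Function.fixedPoints f) := by
    refine ⟨fun v => h3 v.1.1 v.1.2 ?_⟩
    have h4 : f v.1 = v.1 := v.2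
    rw [← hf, h4]
  have h5 : Fintype.card S ≡ 0 [MOD 3] := by
    refine h.trans ?_
    have h6 : ∀ I : Fintype (Function.fixedPoints f), @Fintype.card _ I = 0 :=
      fun I => @Fintype.card_eq_zero _ I h0
    exact congrArg (fun k => k % 3) (h6 _)
  rw [Fintype.card_coe] at h5
  exact (Nat.modEq_zero_iff_dvd).1 h5

theorem dvd5 {n : ℕ} (h : ¬ 3 ∣ n) : 3 ∣ (vec 5 (n : ℤ)).card := by
  refine three_dvd (fun v => ![v 0 + v 2, v 2, -v 1 - v 2]) ?_ ?_ ?_
  · intro v hv
    rw [mem_vec gd5] at hv ⊢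
    rw [← hv, bl5, bl5]
    simp
    ring
  · intro v
    funext i
    fin_cases i <;> simp <;> ring
  · intro v hv h0
    rw [mem_vec gd5, bl5] at hv
    have e0 : v 0 + v 2 = v 0 := congrFun h0 0
    have e1 : v 2 = v 1 := congrFun h0 1
    have e2 : v 2 = 0 := by linarith
    rw [e2] at e1
    rw [e2, ← e1] at hv
    apply h
    have h3 : (3 : ℤ) ∣ n := ⟨v 0 * v 0, by linarith⟩
    exact_mod_cast h3

theorem dvd3 {n : ℕ} (h : ¬ 3 ∣ n) : 3 ∣ (vec 3 (n : ℤ)).card := by
  refine three_dvd (fun v => ![v 0, -v 1 - v 2, v 1]) ?_ ?_ ?_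
  · intro v hv
    rw [mem_vec gd3] at hv ⊢
    rw [← hv, bl3, bl3]
    simp
    ring
  · intro v
    funext i
    fin_cases i <;> simp
    ring
  · intro v hv h0
    rw [mem_vec gd3, bl3] at hv
    have e1 : -v 1 - v 2 = v 1 := congrFun h0 1
    have e2 : v 1 = v 2 := congrFun h0 2
    have e3 : v 2 = 0 := by omega
    rw [e2, e3] at hv
    apply h
    have h3 : (3 : ℤ) ∣ n := ⟨v 0 * v 0, by linarith⟩
    exact_mod_cast h3

/-- twice the product is an integer -/
theorem HH_int {n : ℕ} (hn : 0 < n) : ∃ k : ℤ, 2 * n * HH n = k := by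
  have hn0 : (n : ℚ) ≠ 0 := by positivity
  refine ⟨∑ u ∈ range n, jacobiSym (u : ℤ) n * (if (n : ℤ) ∣ u then 0 else 2 * (u : ℤ) - (n : ℤ)), ?_⟩
  unfold HH
  rw [mul_sum]
  push_cast
  refine sum_congr rfl fun u hu => ?_
  have hu := mem_range.1 hu
  unfold Pool.Agent.Y687.saw
  by_cases hd : (n : ℤ) ∣ (u : ℤ)
  · rw [if_pos hd, if_pos hd]
    simp
  · rw [if_neg hd, if_neg hd, Int.emod_eq_of_lt (by positivity) (by exact_mod_cast hu)]
    push_cast
    field_simp

/-- the choice of the sign -/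
theorem sign_of {n V : ℕ} (h3 : ¬ 3 ∣ n) (hV : 3 ∣ V) (c : ℤ) {H : ℚ} {k : ℤ}
    (hk : 2 * n * H = k) (h : ((V : ℚ) - 2 - 6 * c * H) * (V + 6 * c * H) = 0) :
    (V : ℚ) = -(6 * c) * H := by
  rcases mul_eq_zero.1 h with h8 | h8
  · exfalso
    have h9 : (n : ℚ) * V = 2 * n + 3 * c * k := by
      rw [← hk]
      linear_combination (n : ℚ) * h8
    have h10 : (n : ℤ) * V = 2 * n + 3 * c * k := by exact_mod_cast h9
    obtain ⟨m, hm⟩ := hV
    apply h3
    have h11 : (3 : ℤ) ∣ 2 * n := ⟨n * m - c * k, by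
      rw [hm] at h10
      push_cast at h10
      linarith⟩
    omega
  · linarith

end Pool.Agent.XV.Card

namespace Pool.Agent.XV

open Pool.Agent.Z700 (pr)

/-- **CARD.** -/
theorem t_CARD (h : S_PC) : S_CARD := by
  intro N hN
  have hs := Card.sqf hN
  constructor
  · intro hb
    have hb' := hb
    unfold Kb at hb'
    rw [Card.card_sq Card.gd5 (Nat.odd_iff.2 (by omega))]
    congr 1
    rw [show (12 : ℤ) = 6 * 2 by norm_num, mul_assoc, ← Card.fold (by norm_num) (by omega), mul_sum]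
    refine sum_congr rfl fun T hT => ?_
    rw [mem_Ioo] at hT
    rw [(h (pr N) hs T hT.1 hT.2).1 hb, mul_ite, mul_zero]
  · intro hd
    have hd' := hd
    unfold Kd at hd'
    rw [Card.card_sq Card.gd3 (Nat.odd_iff.2 (by omega))]
    congr 1
    rw [show (24 : ℤ) = 12 * 2 by norm_num, mul_assoc, ← Card.fold (by norm_num) (by omega), mul_sum]
    refine sum_congr rfl fun T hT => ?_
    rw [mem_Ioo] at hT
    rw [(h (pr N) hs T hT.1 hT.2).2 hd, mul_ite, mul_zero]

/-- **CLS.** -/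
theorem t_CLS (h1 : S_CARD) (h2 : S_LVL) (h3 : S_C20) : S_CLS := by
  intro N hN
  have hsum : ∑ t ∈ Pool.Agent.Z700.un (pr N), (jacobiSym t (pr N) : ℚ) *
      Pool.Agent.Y687.saw (pr N) t = Card.HH (pr N) :=
    Card.sum_un (Card.sqf hN).ne_zero (fun t => Pool.Agent.Y687.saw (pr N) (t : ℤ))
  constructor
  · intro hb
    have hb' := hb
    unfold Kb at hb'
    have hpos : 0 < pr N := by omega
    have h30 : ¬ 3 ∣ pr N := by omega
    have hj : jacobiSym (5 : ℕ) (pr N) = -1 := by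
      rw [jacobiSym.mod_right' 5 (Nat.odd_iff.2 (by omega))]
      have : pr N % (4 * 5) = 3 ∨ pr N % (4 * 5) = 7 := by omega
      rcases this with h | h <;> rw [h] <;> norm_num
    have hr := Card.relation h2 hN (by omega) (Or.inr rfl)
      ((Nat.coprime_comm.1 ((Nat.Prime.coprime_iff_not_dvd (by norm_num)).2 (by omega))))
      (by exact_mod_cast hj) fun T hT0 hT1 => ((h3 N hN T hT0 hT1).1 hb)
    obtain ⟨k, hk⟩ := Card.HH_int hpos
    have hq := congrArg (fun z : ℤ => (z : ℚ)) ((h1 N hN).1 hb)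
    rw [hsum]
    have := Card.sign_of h30 (Card.dvd5 h30) 1 hk (by
      push_cast at hq hr ⊢
      linear_combination hq + 6 * hr)
    push_cast at this ⊢
    linear_combination this
  · intro hd
    have hd' := hd
    unfold Kd at hd'
    have hpos : 0 < pr N := by omega
    have h30 : ¬ 3 ∣ pr N := by omega
    have hj : jacobiSym (3 : ℕ) (pr N) = -1 := by
      rw [jacobiSym.mod_right' 3 (Nat.odd_iff.2 (by omega))]
      have : pr N % (4 * 3) = 7 := by omega
      rw [this]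
      norm_num
    have hr := Card.relation h2 hN (by omega) (Or.inl rfl)
      ((Nat.coprime_comm.1 ((Nat.Prime.coprime_iff_not_dvd (by norm_num)).2 (by omega))))
      (by exact_mod_cast hj) fun T hT0 hT1 => ((h3 N hN T hT0 hT1).2 hd)
    obtain ⟨k, hk⟩ := Card.HH_int hpos
    have hq := congrArg (fun z : ℤ => (z : ℚ)) ((h1 N hN).2 hd)
    rw [hsum]
    have := Card.sign_of h30 (Card.dvd3 h30) 2 hk (by
      push_cast at hq hr ⊢
      linear_combination hq + 12 * hr)
    push_cast at this ⊢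
    linear_combination this

end Pool.Agent.XV
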