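import Pool.Agent.XV.Defs

/-! `S_CNT5`: the parity of the numbers of the vectors of `L 5` with given characters. -/

set_option autoImplicit false

namespace Pool.Agent.XV.Cnt5H

open Finset
open Pool.Agent.Z700 (V3 pr)
open Pool.Agent.NH1 (lz rd)

/-! ### the combinatorial step -/

/-- composition of the moves -/
lemma comb_T {α : Type*} (S : Finset α) (N : Finset ℕ) (ν : α → ℕ → ℤ) (σ : α → (p : ℕ) → ZMod p)
    (ε : ℕ → ℕ → ℤˣ)
    (hE : ∀ q ∈ N, ∀ s ∈ S, ∃ s' ∈ S, ∀ p ∈ N, σ s' p = (if p = q then -σ s p else σ s p) ∧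
      ν s' p = ν s p * (ε q p : ℤ)) (T : Finset ℕ) (hT : T ⊆ N) :
    ∀ s ∈ S, ∃ s' ∈ S, ∀ p ∈ N, σ s' p = (if p ∈ T then -σ s p else σ s p) ∧
      ν s' p = ν s p * ((∏ q ∈ T, ε q p : ℤˣ) : ℤ) := by
  classical
  induction T using Finset.induction_on with
  | empty => exact fun s hs => ⟨s, hs, fun p _ => ⟨by simp, by simp⟩⟩
  | insert q T hq ih =>
    intro s hs
    obtain ⟨s1, hs1, h1⟩ := ih (fun x hx => hT (mem_insert_of_mem hx)) s hs
    obtain ⟨s2, hs2, h2⟩ := hE q (hT (mem_insert_self q T)) s1 hs1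
    refine ⟨s2, hs2, fun p hp => ⟨?_, ?_⟩⟩
    · rw [(h2 p hp).1, (h1 p hp).1]
      by_cases hpq : p = q
      · subst hpq
        simp [hq]
      · simp [hpq]
    · rw [(h2 p hp).2, (h1 p hp).2, prod_insert hq]
      push_cast
      ring

theorem comb {α : Type*} (S : Finset α) (N : Finset ℕ) (ν : α → ℕ → ℤ)
    (σ : α → (p : ℕ) → ZMod p) (ε : ℕ → ℕ → ℤˣ)
    (hU : ∀ s ∈ S, ∀ s' ∈ S, (∀ p ∈ N, σ s p = σ s' p) → s = s')
    (hne : ∀ s ∈ S, ∀ p ∈ N, -σ s p ≠ σ s p)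
    (hE : ∀ q ∈ N, ∀ s ∈ S, ∃ s' ∈ S, ∀ p ∈ N, σ s' p = (if p = q then -σ s p else σ s p) ∧
      ν s' p = ν s p * (ε q p : ℤ)) (γ γ' : ℕ → ℤ) (hγ : ∀ p ∈ N, γ p = 1 ∨ γ p = -1)
    (hγ' : ∀ p ∈ N, γ' p = 1 ∨ γ' p = -1) [DecidablePred fun s => ∀ p ∈ N, ν s p = γ p]
    [DecidablePred fun s => ∀ p ∈ N, ν s p = γ' p] :
    (S.filter fun s => ∀ p ∈ N, ν s p = γ p).card % 2 =
      (S.filter fun s => ∀ p ∈ N, ν s p = γ' p).card % 2 := by
  classical
  have hT := comb_T S N ν σ ε hE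
  choose! κ hκS hκ using hT
  -- the linear map
  let φ : N.powerset → (N → ℤˣ) := fun T p => ∏ q ∈ T.1, ε q p
  have hcard : Fintype.card N.powerset = Fintype.card (N → ℤˣ) := by
    rw [Fintype.card_coe, card_powerset, Fintype.card_fun, Fintype.card_coe]
    rfl
  by_cases hinj : Function.Injective φ
  · have hsurj : Function.Surjective φ :=
      ((Fintype.bijective_iff_injective_and_card φ).mpr ⟨hinj, hcard⟩).2
    -- the units of `γ γ'`
    have hu : ∀ p ∈ N, ∃ u : ℤˣ, γ' p = γ p * (u : ℤ) := by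
      intro p hp
      rcases hγ p hp with h | h <;> rcases hγ' p hp with h' | h'
      · exact ⟨1, by simp [h, h']⟩
      · exact ⟨-1, by simp [h, h']⟩
      · exact ⟨-1, by simp [h, h']⟩
      · exact ⟨1, by simp [h, h']⟩
    choose! u hu using hu
    obtain ⟨T, hTφ⟩ := hsurj fun p => u p
    have hTN : T.1 ⊆ N := mem_powerset.mp T.2
    have hpu : ∀ p ∈ N, ∏ q ∈ T.1, ε q p = u p := fun p hp => congrFun hTφ ⟨p, hp⟩
    have huu : ∀ v : ℤˣ, (v : ℤ) * v = 1 := fun v => by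
      rw [← Units.val_mul, Int.units_mul_self, Units.val_one]
    congr 1
    refine card_bij' (fun s _ => κ T.1 s) (fun s _ => κ T.1 s) ?_ ?_ ?_ ?_
    · intro s hs
      rw [mem_filter] at hs ⊢
      refine ⟨hκS T.1 hTN s hs.1, fun p hp => ?_⟩
      rw [(hκ T.1 hTN s hs.1 p hp).2, hpu p hp, hs.2 p hp, hu p hp]
    · intro s hs
      rw [mem_filter] at hs ⊢
      refine ⟨hκS T.1 hTN s hs.1, fun p hp => ?_⟩
      rw [(hκ T.1 hTN s hs.1 p hp).2, hpu p hp, hs.2 p hp, hu p hp, mul_assoc, huu, mul_one]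
    · intro s hs
      have hs1 := (mem_filter.mp hs).1
      have h2 := hκS T.1 hTN s hs1
      refine hU _ (hκS T.1 hTN _ h2) _ hs1 fun p hp => ?_
      rw [(hκ T.1 hTN _ h2 p hp).1, (hκ T.1 hTN s hs1 p hp).1]
      split_ifs <;> simp
    · intro s hs
      have hs1 := (mem_filter.mp hs).1
      have h2 := hκS T.1 hTN s hs1
      refine hU _ (hκS T.1 hTN _ h2) _ hs1 fun p hp => ?_
      rw [(hκ T.1 hTN _ h2 p hp).1, (hκ T.1 hTN s hs1 p hp).1]
      split_ifs <;> simp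
  · -- a fixed point free involution
    have h0 : ∃ T1 T2 : N.powerset, φ T1 = φ T2 ∧ T1 ≠ T2 := by
      simpa [Function.Injective, not_forall] using hinj
    obtain ⟨T1, T2, h12, hT12⟩ := h0
    have hT1 : T1.1 ⊆ N := mem_powerset.mp T1.2
    have hT2 : T2.1 ⊆ N := mem_powerset.mp T2.2
    have hne12 : ∃ p ∈ N, ¬ (p ∈ T1.1 ↔ p ∈ T2.1) := by
      by_contra hc
      push Not at hc
      apply hT12
      apply Subtype.ext
      ext p
      constructor
      · exact fun h => (hc p (hT1 h)).mp h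
      · exact fun h => (hc p (hT2 h)).mpr h
    obtain ⟨p0, hp0, hp0'⟩ := hne12
    set μ : α → α := fun s => κ T2.1 (κ T1.1 s) with hμ
    have hμS : ∀ s ∈ S, μ s ∈ S := fun s hs => hκS _ hT2 _ (hκS _ hT1 _ hs)
    have hμσ : ∀ s ∈ S, ∀ p ∈ N, σ (μ s) p = if (p ∈ T1.1 ↔ p ∈ T2.1) then σ s p else -σ s p := by
      intro s hs p hp
      rw [hμ]
      simp only
      rw [(hκ T2.1 hT2 _ (hκS _ hT1 _ hs) p hp).1, (hκ T1.1 hT1 s hs p hp).1]
      by_cases h1 : p ∈ T1.1 <;> by_cases h2 : p ∈ T2.1 <;> simp [h1, h2]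
    have hμν : ∀ s ∈ S, ∀ p ∈ N, ν (μ s) p = ν s p := by
      intro s hs p hp
      rw [hμ]
      simp only
      rw [(hκ T2.1 hT2 _ (hκS _ hT1 _ hs) p hp).2, (hκ T1.1 hT1 s hs p hp).2]
      have h3 : ∏ q ∈ T1.1, ε q p = ∏ q ∈ T2.1, ε q p := congrFun h12 ⟨p, hp⟩
      rw [h3, mul_assoc, ← Units.val_mul, Int.units_mul_self, Units.val_one, mul_one]
    have hμμ : ∀ s ∈ S, μ (μ s) = s := by
      intro s hs
      refine hU _ (hμS _ (hμS s hs)) _ hs fun p hp => ?_
      rw [hμσ _ (hμS s hs) p hp, hμσ s hs p hp]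
      split_ifs <;> simp
    have hμne : ∀ s ∈ S, μ s ≠ s := by
      intro s hs h
      have h1 := hμσ s hs p0 hp0
      rw [if_neg hp0', h] at h1
      exact hne s hs p0 hp0 h1.symm
    have key : ∀ δ : ℕ → ℤ, (S.filter fun s => ∀ p ∈ N, ν s p = δ p).card % 2 = 0 := by
      intro δ
      have h1 : (∑ s ∈ S.filter (fun s => ∀ p ∈ N, ν s p = δ p), (1 : ZMod 2)) = 0 := by
        refine sum_involution (fun s _ => μ s) ?_ ?_ ?_ ?_
        · intro s _; decide
        · intro s hs _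
          exact hμne s (mem_filter.mp hs).1
        · intro s hs
          rw [mem_filter] at hs ⊢
          exact ⟨hμS s hs.1, fun p hp => by rw [hμν s hs.1 p hp]; exact hs.2 p hp⟩
        · intro s hs
          exact hμμ s (mem_filter.mp hs).1
      rw [sum_const, nsmul_eq_mul, mul_one] at h1
      have h2 := (ZMod.natCast_eq_zero_iff _ _).mp h1
      exact Nat.mod_eq_zero_of_dvd h2
    have e1 := key γ
    have e2 := key γ'
    convert e1.trans e2.symm

/-- parity by an involution -/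
lemma card_mod_two {α : Type*} [DecidableEq α] (S : Finset α) (f : α → α) (hf : ∀ s ∈ S, f s ∈ S)
    (hff : ∀ s ∈ S, f (f s) = s) : S.card % 2 = (S.filter fun s => f s = s).card % 2 := by
  have h1 : (∑ s ∈ S.filter (fun s => ¬ f s = s), (1 : ZMod 2)) = 0 := by
    refine sum_involution (fun s _ => f s) ?_ ?_ ?_ ?_
    · intro s _; decide
    · intro s hs _
      exact (mem_filter.mp hs).2
    · intro s hs
      rw [mem_filter] at hs ⊢
      refine ⟨hf s hs.1, fun h => hs.2 ?_⟩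
      rw [hff s hs.1] at h
      exact h.symm
    · intro s hs
      exact hff s (mem_filter.mp hs).1
  rw [sum_const, nsmul_eq_mul, mul_one] at h1
  have h2 := (ZMod.natCast_eq_zero_iff _ _).mp h1
  have h3 := card_filter_add_card_filter_not (s := S) (fun s => f s = s)
  omega

/-! ### the symbols -/

section
variable {p : ℕ} [Fact p.Prime]

lemma lz_eq (c : ZMod p) : lz p c = quadraticChar (ZMod p) c := by
  unfold lz
  rw [← jacobiSym.legendreSym.to_jacobiSym, legendreSym]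
  congr 1
  rw [Int.cast_natCast, ZMod.natCast_zmod_val]

lemma lz_mul (a b : ZMod p) : lz p (a * b) = lz p a * lz p b := by
  rw [lz_eq, lz_eq, lz_eq, map_mul]

lemma lz_sq {a : ZMod p} (ha : a ≠ 0) : lz p (a * a) = 1 := by
  rw [lz_eq, ← sq, quadraticChar_sq_one' ha]

lemma lz_pm {a : ZMod p} (ha : a ≠ 0) : lz p a = 1 ∨ lz p a = -1 := by
  rw [lz_eq]
  exact quadraticChar_dichotomy ha

lemma lz_int (a : ℤ) : lz p (a : ZMod p) = jacobiSym a p := by
  rw [lz_eq, ← jacobiSym.legendreSym.to_jacobiSym, legendreSym]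

end

lemma Kb_odd {p : ℕ} (h : Kb p) : Odd p := by
  rw [Nat.odd_iff]
  rcases h with h | h <;> omega

lemma J15 {p : ℕ} (h : Kb p) : jacobiSym (-15) p = 1 := by
  rw [jacobiSym.mod_right (-15) (Kb_odd h)]
  have e : 4 * (-15 : ℤ).natAbs = 60 := rfl
  rw [e]
  rcases h with h | h <;> rw [h] <;> norm_num

lemma J5 {p : ℕ} (h : Kb p) : jacobiSym 5 p = -1 := by
  rw [jacobiSym.mod_right 5 (Kb_odd h)]
  have e : 4 * (5 : ℤ).natAbs = 20 := rfl
  rw [e]
  have h1 : p % 20 = 3 ∨ p % 20 = 7 := by rcases h with h | h <;> omega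
  rcases h1 with h1 | h1 <;> rw [h1] <;> norm_num

lemma Jm1 {p : ℕ} (h : Kb p) : jacobiSym (-1) p = -1 := by
  rw [jacobiSym.mod_right (-1) (Kb_odd h)]
  have e : 4 * (-1 : ℤ).natAbs = 4 := rfl
  rw [e]
  have h1 : p % 4 = 3 := by rcases h with h | h <;> omega
  rw [h1]
  norm_num

/-- the numbers which are units modulo the primes of class `b` -/
lemma ne_of_Kb {p : ℕ} (h : Kb p) :
    (2 : ZMod p) ≠ 0 ∧ (3 : ZMod p) ≠ 0 ∧ (5 : ZMod p) ≠ 0 := by
  have h23 : 23 ≤ p := by rcases h with h | h <;> omega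
  have key : ∀ n : ℕ, 0 < n → n < 23 → (n : ZMod p) ≠ 0 := fun n h0 hn h1 => by
    rw [ZMod.natCast_eq_zero_iff] at h1
    exact absurd (Nat.le_of_dvd h0 h1) (by omega)
  exact ⟨by exact_mod_cast key 2 (by norm_num) (by norm_num),
    by exact_mod_cast key 3 (by norm_num) (by norm_num),
    by exact_mod_cast key 5 (by norm_num) (by norm_num)⟩

lemma lzm60 {p : ℕ} [Fact p.Prime] (h : Kb p) : lz p (-60 : ZMod p) = 1 := by
  have e : (-60 : ZMod p) = ((-15 : ℤ) : ZMod p) * (2 * 2) := by push_cast; ring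
  rw [e, lz_mul, lz_int, J15 h, lz_sq (ne_of_Kb h).1, one_mul]

lemma lz80 {p : ℕ} [Fact p.Prime] (h : Kb p) : lz p (80 : ZMod p) = -1 := by
  have e : (80 : ZMod p) = ((5 : ℤ) : ZMod p) * (4 * 4) := by push_cast; ring
  have h4 : (4 : ZMod p) ≠ 0 := by
    have h2 := (ne_of_Kb h).1
    have : (4 : ZMod p) = 2 * 2 := by norm_num
    rw [this]
    exact mul_ne_zero h2 h2
  rw [e, lz_mul, lz_int, J5 h, lz_sq h4, mul_one]

lemma lzm1 {p : ℕ} [Fact p.Prime] (h : Kb p) : lz p (-1 : ZMod p) = -1 := by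
  have e : (-1 : ZMod p) = ((-1 : ℤ) : ZMod p) := by push_cast; ring
  rw [e, lz_int, Jm1 h]

/-! ### the form `3 a² + 20 b²` -/

/-- reduction of the forms of discriminant `-240` -/
lemma reduce : ∀ m : ℕ, ∀ q A B C : ℤ, A.toNat = m → 0 < A → A * C - B ^ 2 = 60 →
    (∃ x y : ℤ, q = A * x ^ 2 + 2 * B * x * y + C * y ^ 2) →
    ∃ A' B' C' : ℤ, 0 < A' ∧ A' * C' - B' ^ 2 = 60 ∧ 2 * |B'| ≤ A' ∧ A' ≤ C' ∧
      ∃ x y : ℤ, q = A' * x ^ 2 + 2 * B' * x * y + C' * y ^ 2 := by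
  intro m
  induction m using Nat.strong_induction_on with
  | _ m ih =>
    intro q A B C hm hA hd hq
    obtain ⟨x, y, hxy⟩ := hq
    -- reduce `B` modulo `A`
    obtain ⟨j, hj⟩ : ∃ j : ℤ, 2 * |B + j * A| ≤ A := by
      refine ⟨-round ((B : ℚ) / A), ?_⟩
      have h1 := abs_sub_round ((B : ℚ) / A)
      have hA' : (0 : ℚ) < A := by exact_mod_cast hA
      have h2 : |(B : ℚ) - round ((B : ℚ) / A) * A| ≤ A / 2 := by
        have h3 : (B : ℚ) - round ((B : ℚ) / A) * A =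
            ((B : ℚ) / A - round ((B : ℚ) / A)) * A := by
          field_simp
        rw [h3, abs_mul, abs_of_pos hA']
        nlinarith
      have h4 : (2 : ℚ) * |(B : ℚ) + -round ((B : ℚ) / A) * A| ≤ A := by
        have h5 : (B : ℚ) + -round ((B : ℚ) / A) * A = (B : ℚ) - round ((B : ℚ) / A) * A := by ring
        rw [h5]
        linarith
      exact_mod_cast h4
    set B1 := B + j * A with hB1
    set C1 := C + 2 * j * B + j ^ 2 * A with hC1
    have hd1 : A * C1 - B1 ^ 2 = 60 := by rw [hB1, hC1]; linear_combination hd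
    have hq1 : q = A * (x - j * y) ^ 2 + 2 * B1 * (x - j * y) * y + C1 * y ^ 2 := by
      rw [hxy, hB1, hC1]; ring
    by_cases hAC : A ≤ C1
    · exact ⟨A, B1, C1, hA, hd1, hj, hAC, x - j * y, y, hq1⟩
    · push Not at hAC
      have hC1p : 0 < C1 := by
        by_contra hc
        push Not at hc
        nlinarith [sq_nonneg B1]
      refine ih C1.toNat (by omega) q C1 B1 A rfl hC1p (by linear_combination hd1)
        ⟨y, x - j * y, by rw [hq1]; ring⟩

/-- the primes of class `b` are represented by `3 a² + 20 b²` -/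
lemma rep {q : ℕ} (hq : q.Prime) (h : Kb q) : ∃ a b : ℤ, (q : ℤ) = 3 * a ^ 2 + 20 * b ^ 2 := by
  haveI : Fact q.Prime := ⟨hq⟩
  have hsq : IsSquare (-60 : ZMod q) := by
    have h1 := lzm60 h
    rw [lz_eq] at h1
    have hne : (-60 : ZMod q) ≠ 0 := by
      intro h0
      rw [h0, MulChar.map_zero] at h1
      exact absurd h1 (by norm_num)
    exact (quadraticChar_one_iff_isSquare hne).mp h1
  obtain ⟨r, hr⟩ := hsq
  have hr2 : (q : ℤ) ∣ (r.val : ℤ) ^ 2 + 60 := by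
    rw [← ZMod.intCast_zmod_eq_zero_iff_dvd]
    push_cast
    rw [ZMod.natCast_zmod_val, sq, ← hr]
    ring
  obtain ⟨c, hc⟩ := hr2
  have hq0 : (0 : ℤ) < q := by exact_mod_cast hq.pos
  obtain ⟨A, B, C, hA, hd, hB, hAC, x, y, hxy⟩ := reduce _ (q : ℤ) q r.val c rfl hq0
    (by linear_combination -hc) ⟨1, 0, by ring⟩
  have hB2 : 4 * B ^ 2 ≤ A ^ 2 := by
    have h1 : (2 * |B|) ^ 2 ≤ A ^ 2 := pow_le_pow_left₀ (by positivity) hB 2
    rw [mul_pow, sq_abs] at h1
    linarith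
  have hA8 : A ≤ 8 := by nlinarith
  have hBa : -4 ≤ B ∧ B ≤ 4 := by
    have := abs_le.mp (show |B| ≤ 4 by linarith)
    exact this
  have hq60 : (q : ℤ) % 60 = 23 ∨ (q : ℤ) % 60 = 47 := by
    rcases h with h | h
    · left; exact_mod_cast h
    · right; exact_mod_cast h
  have sq4 : ∀ z : ℤ, z ^ 2 % 4 = 0 ∨ z ^ 2 % 4 = 1 := fun z => by
    rcases Int.even_or_odd z with ⟨k, hk⟩ | ⟨k, hk⟩
    · left; rw [hk]; ring_nf; omega
    · right; rw [hk]; ring_nf; omega
  have sq3 : ∀ z : ℤ, z ^ 2 % 3 = 0 ∨ z ^ 2 % 3 = 1 := fun z => by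
    have h1 : z % 3 = 0 ∨ z % 3 = 1 ∨ z % 3 = 2 := by omega
    rcases h1 with h1 | h1 | h1 <;> simp [pow_two, Int.mul_emod, h1]
  have hX4 := sq4 x
  have hX3 := sq3 x
  have hY4 := sq4 y
  have hY3 := sq3 y
  have hxy2 : (q : ℤ) = A * x ^ 2 + 2 * B * (x * y) + C * y ^ 2 := by rw [hxy]; ring
  have key : A = 3 ∧ B = 0 ∧ C = 20 := by
    generalize x ^ 2 = X at *
    generalize y ^ 2 = Y at *
    generalize x * y = Z at *
    have hd' : A * C - B * B = 60 := by rw [← hd]; ring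
    have hBA : -A ≤ 2 * B ∧ 2 * B ≤ A := by
      have h1 : |2 * B| ≤ A := by rw [abs_mul]; simpa using hB
      exact abs_le.mp h1
    obtain ⟨hBA1, hBA2⟩ := hBA
    clear hxy hc hr sq4 sq3 hB2 hB hd
    obtain ⟨hB1, hB2⟩ := hBa
    interval_cases A <;> interval_cases B <;> first
      | (exfalso; omega)
      | (have hC : C = 20 := by omega
         subst hC; exact ⟨rfl, rfl, rfl⟩)
      | (exfalso
         have hC : C = 60 := by omega
         subst hC; omega)
      | (exfalso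
         have hC : C = 30 := by omega
         subst hC; omega)
      | (exfalso
         have hC : C = 15 := by omega
         subst hC; omega)
      | (exfalso
         have hC : C = 16 := by omega
         subst hC; omega)
      | (exfalso
         have hC : C = 12 := by omega
         subst hC; omega)
      | (exfalso
         have hC : C = 10 := by omega
         subst hC; omega)
      | (exfalso
         have hC : C = 8 := by omega
         subst hC; omega)
  obtain ⟨rfl, rfl, rfl⟩ := key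
  exact ⟨x, y, by rw [hxy]; ring⟩

/-! ### the vectors -/

lemma bl5 {R : Type*} [CommRing R] (v w : Fin 3 → R) : bl 5 v w =
    3 * (v 0 * w 0) + 7 * (v 1 * w 1) + 7 * (v 2 * w 2) - (v 0 * w 1 + v 1 * w 0) +
    (v 0 * w 2 + v 2 * w 0) + 3 * (v 1 * w 2 + v 2 * w 1) := by
  unfold bl
  rw [if_pos rfl]

lemma mem_vec5 {n : ℤ} {v : V3} : v ∈ vec 5 n ↔ bl 5 v v = n := by
  unfold vec
  rw [mem_filter, Fintype.mem_piFinset]
  refine ⟨fun h => h.2, fun h => ⟨?_, h⟩⟩
  have h' := h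
  rw [bl5] at h'
  have hsq : ∀ z : ℤ, -z ^ 2 ≤ z ∧ z ≤ z ^ 2 := fun z => by
    constructor
    · rcases le_or_gt 0 z with hz | hz <;> nlinarith
    · rcases le_or_gt z 0 with hz | hz <;> nlinarith
  have h0 : v 0 ^ 2 ≤ n := by
    nlinarith [sq_nonneg (v 0 - v 1), sq_nonneg (v 0 + v 2), sq_nonneg (v 1 + v 2),
      sq_nonneg (v 1), sq_nonneg (v 2)]
  have h1 : v 1 ^ 2 ≤ n := by
    nlinarith [sq_nonneg (v 0 - v 1), sq_nonneg (v 0 + v 2), sq_nonneg (v 1 + v 2),
      sq_nonneg (v 1), sq_nonneg (v 2), sq_nonneg (v 0)]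
  have h2 : v 2 ^ 2 ≤ n := by
    nlinarith [sq_nonneg (v 0 - v 1), sq_nonneg (v 0 + v 2), sq_nonneg (v 1 + v 2),
      sq_nonneg (v 1), sq_nonneg (v 2), sq_nonneg (v 0)]
  intro i
  rw [mem_Icc]
  have hi : v i ^ 2 ≤ n := by fin_cases i <;> assumption
  have := hsq (v i)
  constructor <;> linarith

lemma pr_erase {N : Finset ℕ} {p : ℕ} (hp : p ∈ N) : pr N = p * pr (N.erase p) := by
  unfold pr
  exact (mul_prod_erase N (fun x => x) hp).symm

lemma not_dvd_pr {N : Finset ℕ} (hN : Pq N) {p : ℕ} (hp : p.Prime) (hpN : p ∉ N) :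
    ¬ p ∣ pr N := by
  unfold pr
  rw [Prime.dvd_finsetProd_iff hp.prime]
  rintro ⟨r, hr, hpr⟩
  have := (Nat.prime_dvd_prime_iff_eq hp (hN r hr).1).mp hpr
  exact hpN (this ▸ hr)

lemma Pq_erase {N : Finset ℕ} (hN : Pq N) (p : ℕ) : Pq (N.erase p) := fun q hq =>
  hN q (mem_of_mem_erase hq)

/-- the plane -/
def pv {R : Type*} [CommRing R] (x k : R) : Fin 3 → R := ![x + k, k, -2 * k]

lemma bl_pv {R : Type*} [CommRing R] (x k x' k' : R) :
    bl 5 (pv x k) (pv x' k') = 3 * (x * x') + 20 * (k * k') := by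
  rw [bl5]
  simp only [pv, Matrix.cons_val_zero, Matrix.cons_val_one, Matrix.cons_val]
  ring

lemma rd_pv (p : ℕ) (x k : ℤ) : rd p (pv x k) = pv (x : ZMod p) (k : ZMod p) := by
  funext i
  fin_cases i <;> simp [rd, pv]

lemma eq_pv {v : V3} (h : v 2 = -2 * v 1) : v = pv (v 0 - v 1) (v 1) := by
  funext i
  fin_cases i
  · simp [pv]
  · simp [pv]
  · simpa [pv] using h

/-- the solutions of `3 x² + 20 k² = n` -/
def Sl (n β : ℤ) (x k : ℤ) : Prop := 3 * x ^ 2 + 20 * k ^ 2 = n ∧ (3 : ℤ) ∣ k - β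

section
variable {N : Finset ℕ} {β : ℤ}

/-- `x` and `k` are units modulo the primes of `N` -/
lemma nz (hN : Pq N) (hb : ∀ p ∈ N, Kb p) {x k : ℤ} (h : Sl (pr N) β x k) {p : ℕ} (hp : p ∈ N) :
    (x : ZMod p) ≠ 0 ∧ (k : ZMod p) ≠ 0 ∧ 3 * (x : ZMod p) ^ 2 + 20 * (k : ZMod p) ^ 2 = 0 := by
  have hpp := (hN p hp).1
  haveI : Fact p.Prime := ⟨hpp⟩
  obtain ⟨h2, h3, h5⟩ := ne_of_Kb (hb p hp)
  have hpr := pr_erase hp
  have hnd : ¬ p ∣ pr (N.erase p) := not_dvd_pr (Pq_erase hN p) hpp (notMem_erase p N)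
  have hz : 3 * (x : ZMod p) ^ 2 + 20 * (k : ZMod p) ^ 2 = 0 := by
    have h1 := congrArg (Int.cast : ℤ → ZMod p) h.1
    push_cast at h1
    rw [h1, hpr]
    push_cast
    rw [ZMod.natCast_self]
    ring
  have both : ¬ ((x : ZMod p) = 0 ∧ (k : ZMod p) = 0) := by
    rintro ⟨hx, hk⟩
    obtain ⟨x1, hx1⟩ := (ZMod.intCast_zmod_eq_zero_iff_dvd x p).mp hx
    obtain ⟨k1, hk1⟩ := (ZMod.intCast_zmod_eq_zero_iff_dvd k p).mp hk
    apply hnd
    have hp0 : (p : ℤ) ≠ 0 := by exact_mod_cast hpp.ne_zero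
    have h4 : (p : ℤ) * (p * (3 * x1 ^ 2 + 20 * k1 ^ 2)) = p * (pr (N.erase p) : ℤ) := by
      have h5 := h.1
      rw [hpr, hx1, hk1] at h5
      push_cast at h5
      linear_combination h5
    have h6 := mul_left_cancel₀ hp0 h4
    have h7 : (p : ℤ) ∣ (pr (N.erase p) : ℤ) := ⟨_, h6.symm⟩
    exact_mod_cast h7
  have h20 : (20 : ZMod p) ≠ 0 := by
    have : (20 : ZMod p) = 2 * 2 * 5 := by norm_num
    rw [this]
    exact mul_ne_zero (mul_ne_zero h2 h2) h5
  refine ⟨fun hx => both ⟨hx, ?_⟩, fun hk => both ⟨?_, hk⟩, hz⟩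
  · rw [hx] at hz
    have : 20 * (k : ZMod p) ^ 2 = 0 := by linear_combination hz
    exact pow_eq_zero_iff (two_ne_zero) |>.mp ((mul_eq_zero.mp this).resolve_left h20)
  · rw [hk] at hz
    have : 3 * (x : ZMod p) ^ 2 = 0 := by linear_combination hz
    exact pow_eq_zero_iff (two_ne_zero) |>.mp ((mul_eq_zero.mp this).resolve_left h3)

/-- same or opposite lines -/
lemma same_or {F : Type*} [Field F] {x k x' k' : F} (h3 : (3 : F) ≠ 0) (h : 3 * x ^ 2 + 20 * k ^ 2 = 0)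
    (h' : 3 * x' ^ 2 + 20 * k' ^ 2 = 0) : x' * k = x * k' ∨ x' * k = -(x * k') := by
  have e : 3 * ((x' * k - x * k') * (x' * k + x * k')) = 0 := by
    linear_combination k ^ 2 * h' - k' ^ 2 * h
  rcases mul_eq_zero.mp ((mul_eq_zero.mp e).resolve_left h3) with h1 | h1
  · left; linear_combination h1
  · right; linear_combination h1

/-- the characters of the vectors of the plane -/
lemma ph_rel (h1 : S_PHI) {p : ℕ} (hp : p.Prime) (hp' : p ≠ 2 ∧ p ≠ 3 ∧ p ≠ 5) (hb : Kb p)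
    {x k x' k' : ZMod p} (hx : x ≠ 0) (hk : k ≠ 0) (hk' : k' ≠ 0)
    (h : 3 * x ^ 2 + 20 * k ^ 2 = 0) (h' : 3 * x' ^ 2 + 20 * k' ^ 2 = 0) :
    ph 5 p (pv x k) * ph 5 p (pv x' k') = lz p (x * x') := by
  haveI : Fact p.Prime := ⟨hp⟩
  obtain ⟨h2, h3, h5⟩ := ne_of_Kb hb
  have hf := ph_spec h1 (Or.inr rfl) hp hp'.1 hp'.2.2
  have hv0 : pv x k ≠ 0 := fun h0 => hk (by simpa [pv] using congrFun h0 1)
  have hiso : bl 5 (pv x k) (pv x k) = 0 := by rw [bl_pv]; linear_combination h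
  have hiso' : bl 5 (pv x' k') (pv x' k') = 0 := by rw [bl_pv]; linear_combination h'
  rcases same_or h3 h h' with hs | hs
  · have e1 : pv x' k' = (k' / k) • pv x k := by
      have e2 : x' = k' / k * x := by field_simp; linear_combination hs
      funext i
      fin_cases i
      · simp only [pv, Fin.zero_eta, Matrix.cons_val_zero, Pi.smul_apply, smul_eq_mul]
        rw [e2]; field_simp
      · simp only [pv, Fin.mk_one, Matrix.cons_val_one, Matrix.cons_val_zero, Pi.smul_apply,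
          smul_eq_mul]
        field_simp
      · simp only [pv, Fin.reduceFinMk, Matrix.cons_val, Pi.smul_apply, smul_eq_mul]
        field_simp
    have e3 : x * x' = x * x * (k' / k) := by
      field_simp; linear_combination hs
    rw [e1, hf.smul _ _ (div_ne_zero hk' hk), e3, lz_mul, lz_sq hx, one_mul]
    rcases hf.pm _ hiso hv0 with h6 | h6 <;> rw [h6] <;> ring
  · have hbl : bl 5 (pv x k) (pv x' k') = 40 * (k * k') := by
      rw [bl_pv]
      have e4 : 3 * (x * x') * k = 20 * (k * k') * k := by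
        linear_combination 3 * x * hs - k' * h
      have e5 := mul_right_cancel₀ hk e4
      rw [e5]; ring
    have h40 : (40 : ZMod p) ≠ 0 := by
      have : (40 : ZMod p) = 2 * 2 * 2 * 5 := by norm_num
      rw [this]
      exact mul_ne_zero (mul_ne_zero (mul_ne_zero h2 h2) h2) h5
    have hblne : bl 5 (pv x k) (pv x' k') ≠ 0 := by
      rw [hbl]; exact mul_ne_zero h40 (mul_ne_zero hk hk')
    rw [hf.mul _ _ hiso hiso' hblne, hbl]
    have e6 : (2 : ZMod p) * (40 * (k * k')) = 80 * (k * k') := by ring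
    have e7 : x * x' * (k * k) = -1 * (k * k') * (x * x) := by linear_combination x * k * hs
    have e8 : lz p (x * x') = -1 * lz p (k * k') := by
      calc lz p (x * x') = lz p (x * x' * (k * k)) := by
            rw [lz_mul (x * x') (k * k), lz_sq hk, mul_one]
        _ = lz p (-1 * (k * k') * (x * x)) := by rw [e7]
        _ = -1 * lz p (k * k') := by
            rw [lz_mul (-1 * (k * k')) (x * x), lz_sq hx, mul_one, lz_mul (-1) (k * k'), lzm1 hb]
    rw [e6, lz_mul, lz80 hb, e8]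

/-- `3` does not divide `β` -/
lemma beta3 (hN : Pq N) (hβ : (3 : ℤ) ∣ β ^ 2 + pr N) : ¬ (3 : ℤ) ∣ β := by
  intro h
  have h1 : (3 : ℤ) ∣ (pr N : ℤ) := by
    have h2 : (3 : ℤ) ∣ β ^ 2 := dvd_pow h two_ne_zero
    exact (dvd_add_right h2).mp hβ
  have h3 : 3 ∣ pr N := by exact_mod_cast h1
  refine not_dvd_pr hN Nat.prime_three (fun hm => ?_) h3
  exact (hN 3 hm).2.2.1 rfl

/-- uniqueness -/
lemma uniq (hN : Pq N) (hβ : (3 : ℤ) ∣ β ^ 2 + pr N) {x k x' k' : ℤ} (h : Sl (pr N) β x k)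
    (h' : Sl (pr N) β x' k') (hd : ∀ p ∈ N, (p : ℤ) ∣ x' * k - x * k') : x = x' ∧ k = k' := by
  have h3 := beta3 hN hβ
  have hn0 : (0 : ℤ) < pr N := by
    have : 0 < pr N := prod_pos fun p hp => (hN p hp).1.pos
    exact_mod_cast this
  have hdvd : (pr N : ℤ) ∣ x' * k - x * k' := by
    have h1 : pr N ∣ (x' * k - x * k').natAbs := by
      unfold pr
      refine Finset.prod_primes_dvd _ (fun p hp => (hN p hp).1.prime) fun p hp => ?_
      exact Int.natCast_dvd.mp (hd p hp)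
    exact Int.natCast_dvd.mpr h1
  have hk0 : ∀ z : ℤ, (3 : ℤ) ∣ z - β → z ≠ 0 := fun z hz h0 => h3 (by rw [h0] at hz; omega)
  have hB : x' * k - x * k' = 0 := by
    obtain ⟨c, hc⟩ := hdvd
    by_contra hne
    have hc0 : c ≠ 0 := by
      rintro rfl
      exact hne (by rw [hc, mul_zero])
    have hc1 : 1 ≤ c ^ 2 := by
      have : 0 < c ^ 2 := by positivity
      omega
    have hid : (3 * (x * x') + 20 * (k * k')) ^ 2 + 60 * (x' * k - x * k') ^ 2 =
        (pr N : ℤ) ^ 2 := by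
      linear_combination (3 * x' ^ 2 + 20 * k' ^ 2) * h.1 + (pr N : ℤ) * h'.1
    rw [hc] at hid
    nlinarith [sq_nonneg (3 * (x * x') + 20 * (k * k')), mul_pos hn0 hn0]
  have hkk : k ^ 2 = k' ^ 2 := by
    have h1 : (pr N : ℤ) * (k ^ 2 - k' ^ 2) = 0 := by
      linear_combination (-k ^ 2) * h'.1 + k' ^ 2 * h.1 + 3 * (x' * k + x * k') * hB
    rcases mul_eq_zero.mp h1 with h2 | h2
    · omega
    · linarith
  have hkk' : k = k' := by
    rcases sq_eq_sq_iff_eq_or_eq_neg.mp hkk with h1 | h1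
    · exact h1
    · exfalso
      apply h3
      have h4 := h.2
      have h5 := h'.2
      rw [h1] at h4
      omega
  refine ⟨?_, hkk'⟩
  subst hkk'
  have h1 : (x' - x) * k = 0 := by linear_combination hB
  have := (mul_eq_zero.mp h1).resolve_right (hk0 k h.2)
  linarith

/-- the move at `q` -/
def Mv (q : ℕ) (u w0 : ℤ) (x k x' k' : ℤ) : Prop :=
  ∃ w : ℤ, w ^ 2 = w0 ^ 2 ∧ (q : ℤ) * x' = x * u - 20 * k * w ∧ (q : ℤ) * k' = k * u + 3 * x * w

/-- existence of the moves -/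
lemma exists_move (hN : Pq N) (hb : ∀ p ∈ N, Kb p) {q : ℕ} (hq : q ∈ N) :
    ∃ u w0 : ℤ, u ^ 2 + 60 * w0 ^ 2 = (q : ℤ) ^ 2 ∧ ¬ (q : ℤ) ∣ u ∧ ¬ (q : ℤ) ∣ w0 ∧
      ∀ x k : ℤ, Sl (pr N) β x k → ∃ x' k' : ℤ, Sl (pr N) β x' k' ∧ Mv q u w0 x k x' k' := by
  have hqp := (hN q hq).1
  obtain ⟨a, b, hab⟩ := rep hqp (hb q hq)
  have hqI : Prime (q : ℤ) := Nat.prime_iff_prime_int.mp hqp
  have hq0 : (q : ℤ) ≠ 0 := hqI.ne_zero
  have hq23 : (23 : ℤ) ≤ q := by
    have : 23 ≤ q := by rcases hb q hq with h | h <;> omega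
    exact_mod_cast this
  have hsmall : ∀ n : ℤ, 0 < n → n < 23 → ¬ (q : ℤ) ∣ n := fun n h0 h1 hd => by
    have := Int.le_of_dvd h0 hd
    omega
  have hab0 : ¬ (q : ℤ) ∣ a ∧ ¬ (q : ℤ) ∣ b := by
    have both : ¬ ((q : ℤ) ∣ a ∧ (q : ℤ) ∣ b) := by
      rintro ⟨⟨a1, ha1⟩, ⟨b1, hb1⟩⟩
      have h1 : (q : ℤ) * (q * (3 * a1 ^ 2 + 20 * b1 ^ 2)) = q * 1 := by
        rw [ha1, hb1] at hab
        linear_combination -hab
      have h2 := mul_left_cancel₀ hq0 h1
      have h3 : (q : ℤ) ∣ 1 := ⟨_, h2.symm⟩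
      exact hsmall 1 (by norm_num) (by norm_num) h3
    constructor
    · intro ha
      refine both ⟨ha, ?_⟩
      have h1 : (q : ℤ) ∣ 20 * b ^ 2 := by
        have h2 : (20 : ℤ) * b ^ 2 = q - 3 * a ^ 2 := by linarith
        rw [h2]
        exact dvd_sub dvd_rfl (dvd_mul_of_dvd_right (dvd_pow ha two_ne_zero) _)
      exact hqI.dvd_of_dvd_pow ((hqI.dvd_or_dvd h1).resolve_left (hsmall 20 (by norm_num) (by norm_num)))
    · intro hb'
      refine both ⟨?_, hb'⟩
      have h1 : (q : ℤ) ∣ 3 * a ^ 2 := by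
        have h2 : (3 : ℤ) * a ^ 2 = q - 20 * b ^ 2 := by linarith
        rw [h2]
        exact dvd_sub dvd_rfl (dvd_mul_of_dvd_right (dvd_pow hb' two_ne_zero) _)
      exact hqI.dvd_of_dvd_pow ((hqI.dvd_or_dvd h1).resolve_left (hsmall 3 (by norm_num) (by norm_num)))
  refine ⟨20 * b ^ 2 - 3 * a ^ 2, 2 * a * b, by rw [hab]; ring, ?_, ?_, ?_⟩
  · intro hd
    have h1 : (q : ℤ) ∣ 6 * a ^ 2 := by
      have h2 : (6 : ℤ) * a ^ 2 = q - (20 * b ^ 2 - 3 * a ^ 2) := by linarith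
      rw [h2]
      exact dvd_sub dvd_rfl hd
    exact hab0.1 (hqI.dvd_of_dvd_pow
      ((hqI.dvd_or_dvd h1).resolve_left (hsmall 6 (by norm_num) (by norm_num))))
  · intro hd
    rcases hqI.dvd_or_dvd hd with h1 | h1
    · rcases hqI.dvd_or_dvd h1 with h2 | h2
      · exact hsmall 2 (by norm_num) (by norm_num) h2
      · exact hab0.1 h2
    · exact hab0.2 h1
  · intro x k h
    set u : ℤ := 20 * b ^ 2 - 3 * a ^ 2 with hu
    set w0 : ℤ := 2 * a * b with hw0
    have huw : u ^ 2 + 60 * w0 ^ 2 = (q : ℤ) ^ 2 := by rw [hab, hu, hw0]; ring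
    have hqn : (q : ℤ) ∣ 3 * x ^ 2 + 20 * k ^ 2 := by
      rw [h.1, pr_erase hq]; push_cast; exact dvd_mul_right _ _
    have hqk : ¬ (q : ℤ) ∣ k := by
      intro hd
      exact (nz hN hb h hq).2.1 ((ZMod.intCast_zmod_eq_zero_iff_dvd k q).mpr hd)
    have hprod : (q : ℤ) ∣ (k * u + 3 * x * w0) * (k * u - 3 * x * w0) := by
      have e : (k * u + 3 * x * w0) * (k * u - 3 * x * w0) =
          k ^ 2 * (u ^ 2 + 60 * w0 ^ 2) - 3 * w0 ^ 2 * (3 * x ^ 2 + 20 * k ^ 2) := by ring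
      rw [e, huw]
      exact dvd_sub (dvd_mul_of_dvd_right (dvd_pow_self _ two_ne_zero) _)
        (dvd_mul_of_dvd_right hqn _)
    obtain ⟨w, hw2, hwd⟩ : ∃ w : ℤ, w ^ 2 = w0 ^ 2 ∧ (q : ℤ) ∣ k * u + 3 * x * w := by
      rcases hqI.dvd_or_dvd hprod with h1 | h1
      · exact ⟨w0, rfl, h1⟩
      · refine ⟨-w0, by ring, ?_⟩
        have e : k * u + 3 * x * -w0 = k * u - 3 * x * w0 := by ring
        rwa [e]
    have hwx : (q : ℤ) ∣ x * u - 20 * k * w := by
      have h1 : (q : ℤ) ∣ k * (x * u - 20 * k * w) := by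
        have e : k * (x * u - 20 * k * w) = x * (k * u + 3 * x * w) -
            w * (3 * x ^ 2 + 20 * k ^ 2) := by ring
        rw [e]
        exact dvd_sub (dvd_mul_of_dvd_right hwd _) (dvd_mul_of_dvd_right hqn _)
      exact (hqI.dvd_or_dvd h1).resolve_left hqk
    obtain ⟨k', hk'⟩ := hwd
    obtain ⟨x', hx'⟩ := hwx
    refine ⟨x', k', ⟨?_, ?_⟩, w, hw2, hx'.symm, hk'.symm⟩
    · have h1 : (q : ℤ) ^ 2 * (3 * x' ^ 2 + 20 * k' ^ 2) = (q : ℤ) ^ 2 * pr N := by
        have h2 : (3 : ℤ) * (x * u - 20 * k * w) ^ 2 + 20 * (k * u + 3 * x * w) ^ 2 =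
            (3 * x ^ 2 + 20 * k ^ 2) * (u ^ 2 + 60 * w ^ 2) := by ring
        rw [hx', hk', h.1, hw2, huw] at h2
        linear_combination h2
      exact mul_left_cancel₀ (pow_ne_zero 2 hq0) h1
    · have h3q : ¬ (3 : ℤ) ∣ q := by
        intro h3
        have h4 : 3 ∣ q := by exact_mod_cast h3
        exact (hN q hq).2.2.1 ((Nat.prime_dvd_prime_iff_eq Nat.prime_three hqp).mp h4).symm
      have h5 : (3 : ℤ) ∣ q * (k' - k) := by
        have e : (q : ℤ) * (k' - k) = 3 * (x * w - 2 * k * a ^ 2) := by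
          have : (q : ℤ) * k' = k * u + 3 * x * w := hk'.symm
          rw [mul_sub, this, hu]
          have h6 := hab
          linear_combination (-k) * h6
        rw [e]
        exact dvd_mul_right _ _
      have h6 := (Int.prime_three.dvd_or_dvd h5).resolve_left h3q
      have h7 := h.2
      omega

/-- the lines after a move -/
lemma move_lines (hN : Pq N) (hb : ∀ p ∈ N, Kb p) {q : ℕ} (hq : q ∈ N) {u w0 x k x' k' : ℤ}
    (hw : ¬ (q : ℤ) ∣ w0) (h : Sl (pr N) β x k) (h' : Sl (pr N) β x' k')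
    (hm : Mv q u w0 x k x' k') {p : ℕ} (hp : p ∈ N) :
    (x' : ZMod p) * (k' : ZMod p)⁻¹ =
      if p = q then -((x : ZMod p) * (k : ZMod p)⁻¹) else (x : ZMod p) * (k : ZMod p)⁻¹ := by
  obtain ⟨w, hw2, hx', hk'⟩ := hm
  have hpp := (hN p hp).1
  haveI : Fact p.Prime := ⟨hpp⟩
  have hqp := (hN q hq).1
  have hqI : Prime (q : ℤ) := Nat.prime_iff_prime_int.mp hqp
  have hq0 : (q : ℤ) ≠ 0 := hqI.ne_zero
  obtain ⟨hx0, hk0, hz⟩ := nz hN hb h hp
  obtain ⟨hx0', hk0', hz'⟩ := nz hN hb h' hp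
  obtain ⟨h2, h3, h5⟩ := ne_of_Kb (hb p hp)
  have hB : x' * k - x * k' = -(w * (pr (N.erase q) : ℤ)) := by
    have h1 : (q : ℤ) * (x' * k - x * k') = q * (-(w * (pr (N.erase q) : ℤ))) := by
      have h2 := h.1
      rw [pr_erase hq] at h2
      push_cast at h2
      linear_combination k * hx' - x * hk' - w * h2
    exact mul_left_cancel₀ hq0 h1
  have hi : (k : ZMod p) * (k : ZMod p)⁻¹ = 1 := mul_inv_cancel₀ hk0
  have hi' : (k' : ZMod p) * (k' : ZMod p)⁻¹ = 1 := mul_inv_cancel₀ hk0'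
  by_cases hpq : p = q
  · subst hpq
    rw [if_pos rfl]
    rcases same_or h3 hz hz' with h4 | h4
    · exfalso
      have h6 : (p : ℤ) ∣ w * (pr (N.erase p) : ℤ) := by
        rw [← ZMod.intCast_zmod_eq_zero_iff_dvd]
        have := congrArg (Int.cast : ℤ → ZMod p) hB
        push_cast at this ⊢
        linear_combination this - h4
      rcases hqI.dvd_or_dvd h6 with h7 | h7
      · apply hw
        have h8 : (p : ℤ) ∣ w0 ^ 2 := by rw [← hw2]; exact dvd_pow h7 two_ne_zero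
        exact hqI.dvd_of_dvd_pow h8
      · have h8 : p ∣ pr (N.erase p) := by exact_mod_cast h7
        exact not_dvd_pr (Pq_erase hN p) hpp (notMem_erase p N) h8
    · linear_combination (k : ZMod p)⁻¹ * (k' : ZMod p)⁻¹ * h4 - (x' : ZMod p) * (k' : ZMod p)⁻¹ * hi
        - (x : ZMod p) * (k : ZMod p)⁻¹ * hi'
  · rw [if_neg hpq]
    have h6 : (pr (N.erase q) : ZMod p) = 0 := by
      rw [ZMod.natCast_eq_zero_iff]
      exact dvd_prod_of_mem (fun x => x) (mem_erase.mpr ⟨hpq, hp⟩)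
    have h7 := congrArg (Int.cast : ℤ → ZMod p) hB
    push_cast at h7
    rw [h6, mul_zero, neg_zero] at h7
    linear_combination (k : ZMod p)⁻¹ * (k' : ZMod p)⁻¹ * h7 - (x' : ZMod p) * (k' : ZMod p)⁻¹ * hi
        + (x : ZMod p) * (k : ZMod p)⁻¹ * hi'

/-- the symbols change by a factor which does not depend on the solution -/
lemma move_symbol (hN : Pq N) (hb : ∀ p ∈ N, Kb p) {q : ℕ} (hq : q ∈ N) {u w0 : ℤ}
    (huw : u ^ 2 + 60 * w0 ^ 2 = (q : ℤ) ^ 2) (hw : ¬ (q : ℤ) ∣ w0) {p : ℕ} (hp : p ∈ N) :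
    ∃ e : ℤˣ, ∀ x k x' k' : ℤ, Sl (pr N) β x k → Sl (pr N) β x' k' → Mv q u w0 x k x' k' →
      lz p ((x : ZMod p) * (x' : ZMod p)) = e := by
  have hpp := (hN p hp).1
  haveI : Fact p.Prime := ⟨hpp⟩
  have hqp := (hN q hq).1
  have hqI : Prime (q : ℤ) := Nat.prime_iff_prime_int.mp hqp
  have hq0 : (q : ℤ) ≠ 0 := hqI.ne_zero
  obtain ⟨h2, h3, h5⟩ := ne_of_Kb (hb p hp)
  -- the symbols of two moves agree
  have key : ∀ x k x' k' y l y' l' : ℤ, Sl (pr N) β x k → Sl (pr N) β x' k' →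
      Mv q u w0 x k x' k' → Sl (pr N) β y l → Sl (pr N) β y' l' → Mv q u w0 y l y' l' →
      lz p ((x : ZMod p) * (x' : ZMod p)) = lz p ((y : ZMod p) * (y' : ZMod p)) := by
    by_cases hpq : p = q
    · subst hpq
      have h6 : (6 : ZMod p) ≠ 0 := by
        have : (6 : ZMod p) = 2 * 3 := by norm_num
        rw [this]; exact mul_ne_zero h2 h3
      have one : ∀ x k x' k' : ℤ, Sl (pr N) β x k → Sl (pr N) β x' k' → Mv p u w0 x k x' k' →
          lz p ((x : ZMod p) * (x' : ZMod p)) =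
            lz p (6 * ((u : ZMod p) * (pr (N.erase p) : ZMod p))) := by
        intro x k x' k' h h' hm
        obtain ⟨hx0, hk0, hz⟩ := nz hN hb h hp
        obtain ⟨hx0', hk0', hz'⟩ := nz hN hb h' hp
        have hl := move_lines hN hb hq hw h h' hm hp
        rw [if_pos rfl] at hl
        obtain ⟨w, hw2, hx', hk'⟩ := hm
        have hA : 3 * (x * x') + 20 * (k * k') = u * (pr (N.erase p) : ℤ) := by
          have h1 : (p : ℤ) * (3 * (x * x') + 20 * (k * k')) =
              p * (u * (pr (N.erase p) : ℤ)) := by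
            have h2 := h.1
            rw [pr_erase hq] at h2
            push_cast at h2
            linear_combination 3 * x * hx' + 20 * k * hk' + u * h2
          exact mul_left_cancel₀ hq0 h1
        have hA' := congrArg (Int.cast : ℤ → ZMod p) hA
        push_cast at hA'
        have hi : (k : ZMod p) * (k : ZMod p)⁻¹ = 1 := mul_inv_cancel₀ hk0
        have hi' : (k' : ZMod p) * (k' : ZMod p)⁻¹ = 1 := mul_inv_cancel₀ hk0'
        have hl' : (x' : ZMod p) * k = -(x * k') := by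
          linear_combination (k : ZMod p) * (k' : ZMod p) * hl - (x' : ZMod p) * (k : ZMod p) * hi'
            - (x : ZMod p) * (k' : ZMod p) * hi
        have e1 : (u : ZMod p) * (pr (N.erase p) : ZMod p) = 6 * (x * x') := by
          rw [← hA']
          have e2 : (3 * ((x : ZMod p) * x') + 20 * (k * k')) * k = 6 * (x * x') * k := by
            linear_combination (-3 * (x : ZMod p)) * hl' + (k' : ZMod p) * hz
          exact mul_right_cancel₀ hk0 e2
        rw [e1]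
        have e3 : (6 : ZMod p) * (6 * ((x : ZMod p) * x')) = (6 * 6) * (x * x') := by ring
        rw [e3, lz_mul (6 * 6), lz_sq h6, one_mul]
      intro x k x' k' y l y' l' h h' hm g g' gm
      rw [one x k x' k' h h' hm, one y l y' l' g g' gm]
    · have hqz : (q : ZMod p) ≠ 0 := by
        intro h0
        rw [ZMod.natCast_eq_zero_iff] at h0
        exact hpq ((Nat.prime_dvd_prime_iff_eq hpp hqp).mp h0)
      have one : ∀ x k x' k' : ℤ, Sl (pr N) β x k → Sl (pr N) β x' k' → Mv q u w0 x k x' k' →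
          ∃ z : ZMod p, z ^ 2 = -60 * (w0 : ZMod p) ^ 2 ∧
          lz p ((x : ZMod p) * (x' : ZMod p)) = lz p (q * (u - z)) := by
        intro x k x' k' h h' hm
        obtain ⟨hx0, hk0, hz⟩ := nz hN hb h hp
        obtain ⟨w, hw2, hx', hk'⟩ := hm
        have hw2' := congrArg (Int.cast : ℤ → ZMod p) hw2
        have hx'' := congrArg (Int.cast : ℤ → ZMod p) hx'
        push_cast at hw2' hx''
        refine ⟨20 * k * w / x, ?_, ?_⟩
        · rw [div_pow, div_eq_iff (pow_ne_zero 2 hx0)]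
          linear_combination 20 * (w : ZMod p) ^ 2 * hz - 60 * (x : ZMod p) ^ 2 * hw2'
        · have e1 : (x : ZMod p) * x' * (q * q) = x * x * (q * (u - 20 * k * w / x)) := by
            field_simp
            linear_combination hx''
          calc lz p ((x : ZMod p) * (x' : ZMod p)) =
                lz p ((x : ZMod p) * (x' : ZMod p) * ((q : ZMod p) * (q : ZMod p))) := by
                rw [lz_mul ((x : ZMod p) * (x' : ZMod p)) ((q : ZMod p) * (q : ZMod p)), lz_sq hqz,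
                  mul_one]
            _ = lz p (x * x * (q * (u - 20 * k * w / x))) := by rw [e1]
            _ = lz p (q * (u - 20 * k * w / x)) := by
                rw [lz_mul ((x : ZMod p) * (x : ZMod p)), lz_sq hx0, one_mul]
      intro x k x' k' y l y' l' h h' hm g g' gm
      obtain ⟨z, hz2, hz⟩ := one x k x' k' h h' hm
      obtain ⟨z', hz2', hz'⟩ := one y l y' l' g g' gm
      rw [hz, hz', lz_mul, lz_mul]
      have huw' := congrArg (Int.cast : ℤ → ZMod p) huw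
      push_cast at huw'
      have hzz : (z' - z) * (z' + z) = 0 := by linear_combination hz2' - hz2
      rcases mul_eq_zero.mp hzz with h7 | h7
      · have : z' = z := by linear_combination h7
        rw [this]
      · have e2 : z' = -z := by linear_combination h7
        have e3 : ((u : ZMod p) - z) * (u - z') = q * q := by
          rw [e2]; linear_combination huw' - hz2
        have e4 : lz p ((u : ZMod p) - z) * lz p (u - z') = 1 := by
          rw [← lz_mul, e3, lz_sq hqz]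
        have h8 : (u : ZMod p) - z ≠ 0 := by
          intro h0
          rw [h0, zero_mul] at e3
          exact hqz (mul_self_eq_zero.mp e3.symm)
        have e5 : lz p ((u : ZMod p) - z') = lz p ((u : ZMod p) - z) := by
          rcases lz_pm h8 with h9 | h9 <;> rw [h9] at e4 ⊢ <;> linarith
        rw [e5]
  by_cases hex : ∃ x k x' k' : ℤ, Sl (pr N) β x k ∧ Sl (pr N) β x' k' ∧ Mv q u w0 x k x' k'
  · obtain ⟨x, k, x', k', h, h', hm⟩ := hex
    have hx0 := (nz hN hb h hp).1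
    have hx0' := (nz hN hb h' hp).1
    rcases lz_pm (mul_ne_zero hx0 hx0') with h1 | h1
    · refine ⟨1, fun y l y' l' g g' gm => ?_⟩
      rw [key y l y' l' x k x' k' g g' gm h h' hm, h1, Units.val_one]
    · refine ⟨-1, fun y l y' l' g g' gm => ?_⟩
      rw [key y l y' l' x k x' k' g g' gm h h' hm, h1, Units.val_neg, Units.val_one]
  · refine ⟨1, fun y l y' l' g g' gm => ?_⟩
    exact absurd ⟨y, l, y', l', g, g', gm⟩ hex

end

/-! ### the reflection -/

/-- the reflection in `(1, 3, 0)` -/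
def rf (v : V3) : V3 := ![v 0 - (2 * v 1 + v 2) / 3, -v 1 - v 2, v 2]

lemma rf_spec {v : V3} {β : ℤ} (hv : LN 5 β v) : ∃ c : ℤ, 2 * v 1 + v 2 = 3 * c ∧
    rf v = ![v 0 - c, -v 1 - v 2, v 2] := by
  unfold LN at hv
  rw [if_pos rfl] at hv
  obtain ⟨c, hc⟩ : (3 : ℤ) ∣ 2 * v 1 + v 2 := by omega
  refine ⟨c, hc, ?_⟩
  unfold rf
  rw [hc, Int.mul_ediv_cancel_left c (by norm_num)]

lemma rf_LN {v : V3} {β : ℤ} (hv : LN 5 β v) : LN 5 β (rf v) := by
  obtain ⟨c, hc, hr⟩ := rf_spec hv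
  rw [hr]
  unfold LN at hv ⊢
  rw [if_pos rfl] at hv ⊢
  simp only [Matrix.cons_val_one, Matrix.cons_val_zero, Matrix.cons_val]
  omega

lemma rf_rf {v : V3} {β : ℤ} (hv : LN 5 β v) : rf (rf v) = v := by
  obtain ⟨c, hc, hr⟩ := rf_spec hv
  obtain ⟨c', hc', hr'⟩ := rf_spec (rf_LN hv)
  rw [hr']
  rw [hr] at hc' ⊢
  simp only [Matrix.cons_val_one, Matrix.cons_val_zero, Matrix.cons_val] at hc' ⊢
  funext i
  fin_cases i
  · simp only [Fin.zero_eta, Matrix.cons_val_zero]; omega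
  · simp only [Fin.mk_one, Matrix.cons_val_one, Matrix.cons_val_zero]; omega
  · simp

lemma rf_bl {v : V3} {β : ℤ} (hv : LN 5 β v) : bl 5 (rf v) (rf v) = bl 5 v v := by
  obtain ⟨c, hc, hr⟩ := rf_spec hv
  rw [hr, bl5, bl5]
  simp only [Matrix.cons_val_one, Matrix.cons_val_zero, Matrix.cons_val]
  have : v 2 = 3 * c - 2 * v 1 := by linarith
  rw [this]
  ring

lemma rf_ph (h1 : S_PHI) (h2 : S_REF) {p : ℕ} (hp : p.Prime) (hp' : p ≠ 2 ∧ p ≠ 3 ∧ p ≠ 5)
    (hb : Kb p) {v : V3} {β : ℤ} (hv : LN 5 β v) :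
    ph 5 p (rd p (rf v)) = ph 5 p (rd p v) := by
  haveI : Fact p.Prime := ⟨hp⟩
  obtain ⟨c, hc, hr⟩ := rf_spec hv
  obtain ⟨h2', h3, h5⟩ := ne_of_Kb hb
  have hf := ph_spec h1 (Or.inr rfl) hp hp'.1 hp'.2.2
  set g : Fin 3 → ZMod p := ![1, 3, 0] with hg
  have hgg : bl 5 g g = 60 := by
    rw [bl5, hg]
    simp only [Matrix.cons_val_one, Matrix.cons_val_zero, Matrix.cons_val]
    ring
  have h60 : (60 : ZMod p) ≠ 0 := by
    have : (60 : ZMod p) = 2 * 2 * 3 * 5 := by norm_num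
    rw [this]
    exact mul_ne_zero (mul_ne_zero (mul_ne_zero h2' h2') h3) h5
  have hgv : bl 5 g (rd p v) = 30 * (c : ZMod p) := by
    have hc' := congrArg (Int.cast : ℤ → ZMod p) hc
    push_cast at hc'
    rw [bl5, hg]
    simp only [Matrix.cons_val_one, Matrix.cons_val_zero, Matrix.cons_val, rd]
    linear_combination 10 * hc'
  have key := h2 5 (Or.inr rfl) p hp hp'.1 hp'.2.2 (ph 5 p) hf g (rd p v) (rd p (rf v))
    (by rw [hgg]; exact h60) (by
      have hc' := congrArg (Int.cast : ℤ → ZMod p) hc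
      push_cast at hc'
      intro i
      rw [hgg, hgv, hr]
      fin_cases i
      · simp only [rd, hg, Fin.zero_eta, Matrix.cons_val_zero]
        push_cast
        ring
      · simp only [rd, hg, Fin.mk_one, Matrix.cons_val_one, Matrix.cons_val_zero]
        push_cast
        linear_combination -60 * hc'
      · simp only [rd, hg, Fin.reduceFinMk, Matrix.cons_val]
        ring)
  rw [key, hgg, lzm60 hb, one_mul]

end Pool.Agent.XV.Cnt5H

namespace Pool.Agent.XV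

open Finset Cnt5H
open Pool.Agent.Z700 (V3 pr)
open Pool.Agent.NH1 (lz rd)

theorem t_CNT5 (h1 : S_PHI) (h2 : S_REF) : S_CNT5 := by
  classical
  intro N hN hb _ β hβ γ γ' hγ hγ'
  -- the fixed points of the reflection
  set S : Finset V3 := (vec 5 (pr N : ℤ)).filter fun v => LN 5 β v ∧ v 2 = -2 * v 1 with hS
  have step1 : ∀ δ : ℕ → ℤ, AC 5 N β δ % 2 =
      (S.filter fun v => ∀ p ∈ N, ph 5 p (rd p v) = δ p).card % 2 := by
    intro δ
    unfold AC
    rw [card_mod_two _ rf]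
    · congr 2
      ext v
      rw [hS, mem_filter, mem_filter, mem_filter, mem_filter]
      constructor
      · rintro ⟨⟨hv, hl, hd⟩, hr⟩
        refine ⟨⟨hv, hl, ?_⟩, hd⟩
        have h3 := congrFun hr 1
        simp only [rf, Matrix.cons_val_one, Matrix.cons_val_zero] at h3
        linarith
      · rintro ⟨⟨hv, hl, h3⟩, hd⟩
        refine ⟨⟨hv, hl, hd⟩, ?_⟩
        obtain ⟨c, hc, hr⟩ := rf_spec hl
        have hc0 : c = 0 := by omega
        rw [hr, hc0]
        funext i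
        fin_cases i
        · simp
        · simp only [Fin.mk_one, Matrix.cons_val_one, Matrix.cons_val_zero]; omega
        · simp
    · intro v hv
      rw [mem_filter] at hv ⊢
      obtain ⟨hv, hl, hd⟩ := hv
      refine ⟨?_, rf_LN hl, fun p hp => ?_⟩
      · rw [mem_vec5] at hv ⊢
        rw [rf_bl hl, hv]
      · rw [rf_ph h1 h2 (hN p hp).1 (hN p hp).2 (hb p hp) hl]
        exact hd p hp
    · intro v hv
      exact rf_rf (mem_filter.mp hv).2.1
  rw [step1, step1]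
  -- the vectors of `S` are the solutions
  have mS : ∀ v : V3, v ∈ S ↔ v 2 = -2 * v 1 ∧ Sl (pr N) β (v 0 - v 1) (v 1) := by
    intro v
    rw [hS, mem_filter, mem_vec5]
    unfold LN Sl
    rw [if_pos rfl]
    constructor
    · rintro ⟨hv, ⟨hl1, hl2⟩, h3⟩
      refine ⟨h3, ?_, hl1⟩
      rw [eq_pv h3, bl_pv] at hv
      linear_combination hv
    · rintro ⟨h3, hv, hl1⟩
      refine ⟨?_, ⟨hl1, ?_⟩, h3⟩
      · rw [eq_pv h3, bl_pv]
        linear_combination hv
      · rw [h3]; omega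
  have hmv := fun q (hq : q ∈ N) => exists_move (β := β) hN hb hq
  have hphr : ∀ v ∈ S, ∀ v' ∈ S, ∀ p ∈ N, ph 5 p (rd p v) * ph 5 p (rd p v') =
      lz p (((v 0 - v 1 : ℤ) : ZMod p) * ((v' 0 - v' 1 : ℤ) : ZMod p)) := by
    intro v hv v' hv' p hp
    obtain ⟨e1, s1⟩ := (mS v).mp hv
    obtain ⟨e2, s2⟩ := (mS v').mp hv'
    obtain ⟨hx, hk, hz⟩ := nz hN hb s1 hp
    obtain ⟨hx', hk', hz'⟩ := nz hN hb s2 hp
    have r1 : rd p v = pv ((v 0 - v 1 : ℤ) : ZMod p) ((v 1 : ℤ) : ZMod p) := by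
      conv_lhs => rw [eq_pv e1]
      exact rd_pv p _ _
    have r2 : rd p v' = pv ((v' 0 - v' 1 : ℤ) : ZMod p) ((v' 1 : ℤ) : ZMod p) := by
      conv_lhs => rw [eq_pv e2]
      exact rd_pv p _ _
    rw [r1, r2]
    exact ph_rel h1 (hN p hp).1 (hN p hp).2 (hb p hp) hx hk hk' hz hz'
  have hpm : ∀ v ∈ S, ∀ p ∈ N, ph 5 p (rd p v) * ph 5 p (rd p v) = 1 := by
    intro v hv p hp
    haveI : Fact p.Prime := ⟨(hN p hp).1⟩
    rw [hphr v hv v hv p hp]
    exact lz_sq (nz hN hb ((mS v).mp hv).2 hp).1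
  have hsym := fun q (hq : q ∈ N) => hmv q hq
  choose u w0 huw hu hw hex using hsym
  have hee : ∀ q (hq : q ∈ N), ∀ p ∈ N, ∃ e : ℤˣ, ∀ x k x' k' : ℤ, Sl (pr N) β x k →
      Sl (pr N) β x' k' → Mv q (u q hq) (w0 q hq) x k x' k' →
      lz p ((x : ZMod p) * (x' : ZMod p)) = e :=
    fun q hq p hp => move_symbol hN hb hq (huw q hq) (hw q hq) hp
  choose! ε hε using hee
  refine comb S N (fun v p => ph 5 p (rd p v))
    (fun v p => ((v 0 - v 1 : ℤ) : ZMod p) * ((v 1 : ℤ) : ZMod p)⁻¹)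
    ε ?_ ?_ ?_ γ γ' hγ hγ'
  · -- uniqueness
    intro v hv v' hv' hσ
    obtain ⟨e1, s1⟩ := (mS v).mp hv
    obtain ⟨e2, s2⟩ := (mS v').mp hv'
    obtain ⟨hx, hk⟩ := uniq hN hβ s1 s2 fun p hp => by
      haveI : Fact p.Prime := ⟨(hN p hp).1⟩
      have hk := (nz hN hb s1 hp).2.1
      have hk' := (nz hN hb s2 hp).2.1
      have h3 := hσ p hp
      have hi : ((v 1 : ℤ) : ZMod p) * ((v 1 : ℤ) : ZMod p)⁻¹ = 1 := mul_inv_cancel₀ hk
      have hi' : ((v' 1 : ℤ) : ZMod p) * ((v' 1 : ℤ) : ZMod p)⁻¹ = 1 := mul_inv_cancel₀ hk'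
      rw [← ZMod.intCast_zmod_eq_zero_iff_dvd]
      beta_reduce at h3
      rw [Int.cast_sub, Int.cast_mul, Int.cast_mul]
      generalize ((v 0 - v 1 : ℤ) : ZMod p) = X at *
      generalize ((v' 0 - v' 1 : ℤ) : ZMod p) = X' at *
      generalize ((v 1 : ℤ) : ZMod p) = K at *
      generalize ((v' 1 : ℤ) : ZMod p) = K' at *
      linear_combination (-K * K') * h3 - X' * K * hi' + X * K' * hi
    rw [eq_pv e1, eq_pv e2, hx, hk]
  · intro v hv p hp h3
    haveI : Fact p.Prime := ⟨(hN p hp).1⟩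
    obtain ⟨hx, hk, -⟩ := nz hN hb ((mS v).mp hv).2 hp
    have h4 : (2 : ZMod p) * (((v 0 - v 1 : ℤ) : ZMod p) * ((v 1 : ℤ) : ZMod p)⁻¹) = 0 := by
      linear_combination -h3
    exact (mul_ne_zero (ne_of_Kb (hb p hp)).1 (mul_ne_zero hx (inv_ne_zero hk))) h4
  · intro q hq v hv
    obtain ⟨e1, s1⟩ := (mS v).mp hv
    obtain ⟨x', k', s2, hm⟩ := hex q hq _ _ s1
    have e2 : (pv x' k' : V3) 0 - (pv x' k' : V3) 1 = x' := by simp [pv]
    have e3 : (pv x' k' : V3) 1 = k' := by simp [pv]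
    have hv' : (pv x' k' : V3) ∈ S := by
      rw [mS, e2, e3]
      exact ⟨by simp [pv], s2⟩
    refine ⟨pv x' k', hv', fun p hp => ⟨?_, ?_⟩⟩
    · beta_reduce
      rw [e2, e3]
      exact move_lines hN hb hq (hw q hq) s1 s2 hm hp
    · have h3 := hphr v hv _ hv' p hp
      rw [e2, hε q hq p hp _ _ _ _ s1 s2 hm] at h3
      have h4 := hpm v hv p hp
      calc ph 5 p (rd p (pv x' k')) = ph 5 p (rd p v) * (ph 5 p (rd p v) * ph 5 p (rd p (pv x' k')))
            := by rw [← mul_assoc, h4, one_mul]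
        _ = _ := by rw [h3]

end Pool.Agent.XV
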