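import Pool.Agent.XV.Defs

/-!
# The counting functions of the forms are cocycles
-/

set_option autoImplicit false

namespace Pool.Agent.XV

open Finset Matrix
open Pool.Agent.Z700 (pr)
open Pool.Agent.NH2 (w1 w2 wp ev cx)

namespace CocA

noncomputable section

/-! ### the number `pr X` -/

theorem pr_pos {X : Finset ℕ} (h : Pq X) : 0 < pr X :=
  Finset.prod_pos fun p hp => (h p hp).1.pos

theorem not_dvd_pr {X : Finset ℕ} (h : Pq X) {l : ℕ} (hl : l.Prime) (hX : l ∉ X) :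
    ¬ l ∣ pr X := by
  intro h1
  obtain ⟨p, hp, h2⟩ := (hl.prime.dvd_finsetProd_iff _).1 h1
  have h3 := (Nat.prime_dvd_prime_iff_eq hl (h p hp).1).1 h2
  rw [h3] at hX
  exact hX hp

theorem three_pr {X : Finset ℕ} (h : Pq X) : ¬ (3 : ℤ) ∣ (pr X : ℤ) := by
  intro h1
  have h2 : 3 ∣ pr X := by exact_mod_cast h1
  exact not_dvd_pr h Nat.prime_three (fun h3 => (h 3 h3).2.2.1 rfl) h2

theorem five_pr {X : Finset ℕ} (h : Pq X) : ¬ (5 : ℤ) ∣ (pr X : ℤ) := by
  intro h1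
  have h2 : 5 ∣ pr X := by exact_mod_cast h1
  exact not_dvd_pr h Nat.prime_five (fun h3 => (h 5 h3).2.2.2 rfl) h2

theorem prZ_pos {X : Finset ℕ} (h : Pq X) : 0 < (pr X : ℤ) := by exact_mod_cast pr_pos h

theorem dvd_pr {X : Finset ℕ} {p : ℕ} (hp : p ∈ X) : (p : ℤ) ∣ (pr X : ℤ) := by
  exact_mod_cast Finset.dvd_prod_of_mem (fun p => p) hp

/-! ### substitution -/

/-- substitution -/
def act (a b c d : ℤ) (q : ℤ × ℤ × ℤ) : ℤ × ℤ × ℤ :=
  (q.1 * a ^ 2 + q.2.1 * a * c + q.2.2 * c ^ 2,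
   2 * q.1 * a * b + q.2.1 * (a * d + b * c) + 2 * q.2.2 * c * d,
   q.1 * b ^ 2 + q.2.1 * b * d + q.2.2 * d ^ 2)

theorem ev_act (a b c d : ℤ) (q : ℤ × ℤ × ℤ) (x M : ℤ) :
    ev (act a b c d q) x M = ev q (a * x + b * M) (c * x + d * M) := by
  unfold ev act
  simp only
  ring

theorem act_inv {a b c d : ℤ} (h : a * d - b * c = 1) (q : ℤ × ℤ × ℤ) :
    act d (-b) (-c) a (act a b c d q) = q := by
  obtain ⟨A, B, C⟩ := q
  unfold act
  simp only [Prod.mk.injEq]
  refine ⟨?_, ?_, ?_⟩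
  · linear_combination A * (a * d - b * c + 1) * h
  · linear_combination B * (a * d - b * c + 1) * h
  · linear_combination C * (a * d - b * c + 1) * h

/-- the substitution as an equivalence -/
def eqv (a b c d : ℤ) (h : a * d - b * c = 1) : (ℤ × ℤ × ℤ) ≃ (ℤ × ℤ × ℤ) where
  toFun := act a b c d
  invFun := act d (-b) (-c) a
  left_inv := act_inv h
  right_inv := by
    intro q
    have h' : d * a - (-b) * (-c) = 1 := by linear_combination h
    have := act_inv h' q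
    simpa only [neg_neg] using this

theorem disc_act {a b c d : ℤ} (h : a * d - b * c = 1) (q : ℤ × ℤ × ℤ) :
    (act a b c d q).2.1 ^ 2 - 4 * (act a b c d q).1 * (act a b c d q).2.2 =
      q.2.1 ^ 2 - 4 * q.1 * q.2.2 := by
  obtain ⟨A, B, C⟩ := q
  unfold act
  simp only
  linear_combination (B ^ 2 - 4 * A * C) * (a * d - b * c + 1) * h

theorem Fm_act {X : Finset ℕ} {k : ℤ} {a b c d : ℤ} (h : a * d - b * c = 1) (hc : (15 : ℤ) ∣ c)
    {q : ℤ × ℤ × ℤ} (hq : Fm X k q) : Fm X k (act a b c d q) := by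
  refine ⟨(disc_act h q).trans hq.1, ?_, ?_⟩
  · obtain ⟨A, B, C⟩ := q
    obtain ⟨c1, rfl⟩ := hc
    obtain ⟨h1, ⟨A1, h2⟩, h3⟩ := hq
    simp only at h1 h2 h3
    unfold act
    simp only
    exact ⟨A1 * a ^ 2 + B * a * c1 + C * c1 ^ 2 * 15, by rw [h2]; ring⟩
  · obtain ⟨A, B, C⟩ := q
    obtain ⟨c1, rfl⟩ := hc
    obtain ⟨h1, ⟨A1, h2⟩, ⟨k1, h3⟩⟩ := hq
    simp only at h1 h2 h3
    unfold act
    simp only
    have h4 : 2 * A * a * b + B * (a * d + b * (15 * c1)) + 2 * C * (15 * c1) * d =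
        B + 30 * (A1 * a * b + B * b * c1 + C * c1 * d) := by
      rw [h2]; linear_combination B * h
    rw [h4]
    exact ⟨k1 + (A1 * a * b + B * b * c1 + C * c1 * d), by linear_combination h3⟩

theorem Fm_act_iff {X : Finset ℕ} {k : ℤ} {a b c d : ℤ} (h : a * d - b * c = 1)
    (hc : (15 : ℤ) ∣ c) {q : ℤ × ℤ × ℤ} : Fm X k (act a b c d q) ↔ Fm X k q := by
  refine ⟨fun hq => ?_, Fm_act h hc⟩
  have h' : d * a - (-b) * (-c) = 1 := by linear_combination h
  have h1 := Fm_act h' (hc.neg_right) hq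
  rwa [act_inv h] at h1

/-! ### the genus character -/

/-- the local character -/
def cp1 (p : ℕ) (q : ℤ × ℤ × ℤ) : ℤ := if (p : ℤ) ∣ q.1 then jacobiSym q.2.2 p
  else jacobiSym q.1 p

theorem cx_eq (X : Finset ℕ) (q : ℤ × ℤ × ℤ) : cx X q = ∏ p ∈ X, cp1 p q := rfl

theorem js_zero {p : ℕ} (hp : p.Prime) {a : ℤ} (h : (p : ℤ) ∣ a) : jacobiSym a p = 0 := by
  have : NeZero p := ⟨hp.ne_zero⟩
  rw [jacobiSym.eq_zero_iff_not_coprime]
  intro h1
  have h2 := (Int.isCoprime_iff_gcd_eq_one.2 h1).isUnit_of_dvd' h (dvd_refl _)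
  have := hp.two_le
  rw [Int.isUnit_iff] at h2
  omega

theorem js_cop {p : ℕ} (hp : p.Prime) {a : ℤ} (h : ¬ (p : ℤ) ∣ a) : Int.gcd a p = 1 := by
  rw [Int.gcd_comm]
  have h1 := (Int.prime_iff_natAbs_prime.2 (by simpa using hp) : Prime (p : ℤ))
  exact Int.isCoprime_iff_gcd_eq_one.1 ((Irreducible.coprime_iff_not_dvd h1.irreducible).2 h)

theorem js_sq {p : ℕ} (hp : p.Prime) {a : ℤ} (h : ¬ (p : ℤ) ∣ a) :
    jacobiSym (a ^ 2) p = 1 := by
  rw [jacobiSym.pow_left, jacobiSym.sq_one (js_cop hp h)]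

theorem js_congr {p : ℕ} {a b : ℤ} (h : (p : ℤ) ∣ a - b) : jacobiSym a p = jacobiSym b p := by
  refine jacobiSym.mod_left' ?_
  exact ((Int.modEq_iff_dvd.2 h).symm)

theorem pZ {p : ℕ} (hp : p.Prime) : Prime (p : ℤ) := Nat.prime_iff_prime_int.1 hp

/-- The local character is the symbol of every value that is prime to `p`. -/
theorem cp1_val {p : ℕ} (hp : p.Prime) (hp2 : p ≠ 2) {q : ℤ × ℤ × ℤ}
    (hd : (p : ℤ) ∣ q.2.1 ^ 2 - 4 * q.1 * q.2.2) {x M : ℤ} (h : ¬ (p : ℤ) ∣ ev q x M) :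
    cp1 p q = jacobiSym (ev q x M) p := by
  obtain ⟨A, B, C⟩ := q
  have : NeZero p := ⟨hp.ne_zero⟩
  simp only at hd
  unfold cp1 ev at *
  simp only at *
  have n2 : ¬ (p : ℤ) ∣ 2 := by
    intro h2
    have h3 : p ∣ 2 := by exact_mod_cast h2
    exact hp2 ((Nat.prime_dvd_prime_iff_eq hp Nat.prime_two).1 h3)
  by_cases hA : (p : ℤ) ∣ A
  · rw [if_pos hA]
    have hB : (p : ℤ) ∣ B := by
      refine (pZ hp).dvd_of_dvd_pow (n := 2) ?_
      have h1 := dvd_add hd (Dvd.dvd.mul_left hA (4 * C))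
      have h2 : B ^ 2 - 4 * A * C + 4 * C * A = B ^ 2 := by ring
      rwa [h2] at h1
    have h1 : (p : ℤ) ∣ (A * x ^ 2 + B * x * M + C * M ^ 2) - C * M ^ 2 := by
      have h2 := dvd_add (Dvd.dvd.mul_right hA (x ^ 2)) (Dvd.dvd.mul_right hB (x * M))
      have h3 : (A * x ^ 2 + B * x * M + C * M ^ 2) - C * M ^ 2 = A * x ^ 2 + B * (x * M) := by ring
      rwa [h3]
    have hM : ¬ (p : ℤ) ∣ M := by
      intro hM
      apply h
      have h2 := dvd_add h1 (Dvd.dvd.mul_left (dvd_pow hM two_ne_zero) C)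
      rwa [sub_add_cancel] at h2
    rw [js_congr h1, jacobiSym.mul_left, js_sq hp hM, mul_one]
  · rw [if_neg hA]
    have h1 : (p : ℤ) ∣ (2 ^ 2 * (A * (A * x ^ 2 + B * x * M + C * M ^ 2))) -
        (2 * A * x + B * M) ^ 2 := by
      have h2 := Dvd.dvd.mul_left hd (-(M ^ 2))
      have h3 : (2 ^ 2 * (A * (A * x ^ 2 + B * x * M + C * M ^ 2))) -
        (2 * A * x + B * M) ^ 2 = -(M ^ 2) * (B ^ 2 - 4 * A * C) := by ring
      rwa [h3]
    have hne : ¬ (p : ℤ) ∣ 2 * A * x + B * M := by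
      intro h2
      have h3 := dvd_add h1 (dvd_pow h2 two_ne_zero)
      rw [sub_add_cancel] at h3
      rcases (pZ hp).dvd_mul.1 h3 with h4 | h4
      · exact n2 ((pZ hp).dvd_of_dvd_pow h4)
      · rcases (pZ hp).dvd_mul.1 h4 with h5 | h5
        · exact hA h5
        · exact h h5
    have h4 := js_congr h1
    rw [js_sq hp hne, jacobiSym.mul_left, js_sq hp n2, one_mul, jacobiSym.mul_left] at h4
    have h5 := js_sq hp hA
    rw [sq, jacobiSym.mul_left] at h5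
    have h6 : jacobiSym A p ≠ 0 := left_ne_zero_of_mul_eq_one h5
    exact mul_left_cancel₀ h6 (h5.trans h4.symm)

theorem cp1_act {p : ℕ} (hp : p.Prime) (hp2 : p ≠ 2) {a b c d : ℤ} (h : a * d - b * c = 1)
    {q : ℤ × ℤ × ℤ} (hd : (p : ℤ) ∣ q.2.1 ^ 2 - 4 * q.1 * q.2.2) :
    cp1 p (act a b c d q) = cp1 p q := by
  have e1 : (act a b c d q).1 = ev q a c := by unfold act ev; ring
  have e2 : (act a b c d q).2.2 = ev q b d := by unfold act ev; ring
  by_cases h1 : (p : ℤ) ∣ (act a b c d q).1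
  · by_cases h2 : (p : ℤ) ∣ (act a b c d q).2.2
    · have h3 : (p : ℤ) ∣ (act a b c d q).2.1 := by
        refine (pZ hp).dvd_of_dvd_pow (n := 2) ?_
        have h4 := hd
        rw [← disc_act h] at h4
        have h5 := dvd_add h4 (Dvd.dvd.mul_left h1 (4 * (act a b c d q).2.2))
        have h6 : (act a b c d q).2.1 ^ 2 - 4 * (act a b c d q).1 * (act a b c d q).2.2 +
            4 * (act a b c d q).2.2 * (act a b c d q).1 = (act a b c d q).2.1 ^ 2 := by ring
        rwa [h6] at h5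
      have hl : cp1 p (act a b c d q) = 0 := by
        unfold cp1
        rw [if_pos h1, js_zero hp h2]
      have h7 := act_inv h q
      have h8 : (p : ℤ) ∣ q.2.2 := by
        rw [← h7]
        generalize act a b c d q = r at h1 h2 h3 ⊢
        unfold act
        simp only
        exact dvd_add (dvd_add (Dvd.dvd.mul_right h1 _)
          (Dvd.dvd.mul_right (Dvd.dvd.mul_right h3 _) _)) (Dvd.dvd.mul_right h2 _)
      have h9 : (p : ℤ) ∣ q.1 := by
        rw [← h7]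
        generalize act a b c d q = r at h1 h2 h3 ⊢
        unfold act
        simp only
        exact dvd_add (dvd_add (Dvd.dvd.mul_right h1 _)
          (Dvd.dvd.mul_right (Dvd.dvd.mul_right h3 _) _)) (Dvd.dvd.mul_right h2 _)
      rw [hl]
      unfold cp1
      rw [if_pos h9, js_zero hp h8]
    · rw [cp1_val hp hp2 hd (x := b) (M := d) (by rwa [← e2])]
      unfold cp1
      rw [if_pos h1, e2]
  · rw [cp1_val hp hp2 hd (x := a) (M := c) (by rwa [← e1])]
    unfold cp1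
    rw [if_neg h1, e1]

theorem cx_act {X : Finset ℕ} (hX : Pq X) {k : ℤ} {a b c d : ℤ} (h : a * d - b * c = 1)
    {q : ℤ × ℤ × ℤ} (hq : Fm X k q) : cx X (act a b c d q) = cx X q := by
  rw [cx_eq, cx_eq]
  refine Finset.prod_congr rfl fun p hp => cp1_act (hX p hp).1 (hX p hp).2.1 h ?_
  rw [hq.1]
  exact dvd_pow (dvd_pr hp) two_ne_zero

theorem eps_eq {X : Finset ℕ} (hX : Pq X) : jacobiSym (-1) (pr X) = ∏ p ∈ X, jacobiSym (-1) p := by
  classical
  unfold pr
  induction X using Finset.induction_on with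
  | empty => simp
  | insert a s ha ih =>
    have h1 : Pq s := fun p hp => hX p (Finset.mem_insert_of_mem hp)
    have : NeZero a := ⟨(hX a (Finset.mem_insert_self a s)).1.ne_zero⟩
    have : NeZero (∏ p ∈ s, p) := ⟨(pr_pos h1).ne'⟩
    rw [Finset.prod_insert ha, Finset.prod_insert ha, jacobiSym.mul_right, ih h1]

theorem eps_sq {X : Finset ℕ} : jacobiSym (-1) (pr X) * jacobiSym (-1) (pr X) = 1 := by
  rw [← jacobiSym.mul_left]
  norm_num

theorem cp1_neg (p : ℕ) (q : ℤ × ℤ × ℤ) : cp1 p (-q) = jacobiSym (-1) p * cp1 p q := by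
  unfold cp1
  simp only [Prod.fst_neg, Prod.snd_neg, dvd_neg]
  split_ifs
  · rw [← jacobiSym.mul_left, neg_one_mul]
  · rw [← jacobiSym.mul_left, neg_one_mul]

theorem cx_neg {X : Finset ℕ} (hX : Pq X) (q : ℤ × ℤ × ℤ) :
    cx X (-q) = jacobiSym (-1) (pr X) * cx X q := by
  rw [cx_eq, cx_eq, eps_eq hX, ← Finset.prod_mul_distrib]
  exact Finset.prod_congr rfl fun p _ => cp1_neg p q

/-! ### the full sum -/

open Classical in
/-- the difference of the signs at two points -/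
def T (X : Finset ℕ) (x M y N : ℤ) (q : ℤ × ℤ × ℤ) : ℤ :=
  if Fm X 11 q then cx X q * (Int.sign (ev q x M) - Int.sign (ev q y N)) else 0

/-- the counting function -/
def G (X : Finset ℕ) (x M : ℤ) : ℤ := ∑ᶠ q, T X x M 1 0 q

theorem T_act {X : Finset ℕ} (hX : Pq X) {a b c d : ℤ} (h : a * d - b * c = 1)
    (hc : (15 : ℤ) ∣ c) (x M y N : ℤ) (q : ℤ × ℤ × ℤ) :
    T X (a * x + b * M) (c * x + d * M) (a * y + b * N) (c * y + d * N) q =
      T X x M y N (act a b c d q) := by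
  unfold T
  by_cases hq : Fm X 11 q
  · rw [if_pos hq, if_pos (Fm_act h hc hq), cx_act hX h hq, ev_act, ev_act]
  · rw [if_neg hq, if_neg (fun h1 => hq ((Fm_act_iff h hc).1 h1))]

theorem T_add (X : Finset ℕ) (x M y N z L : ℤ) (q : ℤ × ℤ × ℤ) :
    T X x M z L q = T X x M y N q + T X y N z L q := by
  unfold T
  split_ifs
  · ring
  · ring

/-- no form vanishes at the point -/
def NV (X : Finset ℕ) (x M : ℤ) : Prop := ∀ q, Fm X 11 q → ev q x M ≠ 0

theorem ev10 (q : ℤ × ℤ × ℤ) : ev q 1 0 = q.1 := by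
  unfold ev; ring

theorem no_zero {X : Finset ℕ} (hX : Pq X) {B : ℤ} (h1 : B ^ 2 = (pr X : ℤ) ^ 2)
    (h2 : (30 : ℤ) ∣ B - 11 * pr X) : False := by
  have h3 := three_pr hX
  have h4 := five_pr hX
  rcases sq_eq_sq_iff_eq_or_eq_neg.1 h1 with h5 | h5
  · apply h3
    omega
  · apply h4
    omega

theorem A_ne {X : Finset ℕ} (hX : Pq X) {q : ℤ × ℤ × ℤ} (hq : Fm X 11 q) : q.1 ≠ 0 := by
  intro h0
  obtain ⟨h1, -, h3⟩ := hq
  rw [h0] at h1
  exact no_zero hX (by linear_combination h1) h3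

theorem C_ne {X : Finset ℕ} (hX : Pq X) {q : ℤ × ℤ × ℤ} (hq : Fm X 11 q) : q.2.2 ≠ 0 := by
  intro h0
  obtain ⟨h1, -, h3⟩ := hq
  rw [h0] at h1
  exact no_zero hX (by linear_combination h1) h3

theorem NV_act {X : Finset ℕ} {a b c d : ℤ} (h : a * d - b * c = 1) (hc : (15 : ℤ) ∣ c)
    {x M : ℤ} (hN : NV X x M) : NV X (a * x + b * M) (c * x + d * M) := by
  intro q hq
  rw [← ev_act]
  exact hN _ (Fm_act h hc hq)

theorem NV_inf0 {X : Finset ℕ} (hX : Pq X) : NV X 1 0 := by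
  intro q hq
  rw [ev10]
  exact A_ne hX hq

theorem NV_inf {X : Finset ℕ} (hX : Pq X) {a b c d : ℤ} (h : a * d - b * c = 1)
    (hc : (15 : ℤ) ∣ c) : NV X a c := by
  have h1 := NV_act h hc (NV_inf0 hX)
  simpa using h1

theorem NV_zero {X : Finset ℕ} (hX : Pq X) : NV X 0 1 := by
  intro q hq
  have h1 := C_ne hX hq
  have h2 : ev q 0 1 = q.2.2 := by unfold ev; ring
  rwa [h2]

theorem NV_cop {X : Finset ℕ} (hX : Pq X) {x M : ℤ} (h : IsCoprime (15 * x) M) : NV X x M := by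
  intro q hq h0
  obtain ⟨h1, ⟨A1, h2⟩, ⟨B1, h3⟩⟩ := hq
  have hB : q.2.1 = 30 * B1 + 11 * pr X := by linear_combination h3
  have h4 : (2 * q.1 * x + q.2.1 * M - pr X * M) * (2 * q.1 * x + q.2.1 * M + pr X * M) = 0 := by
    unfold ev at h0
    linear_combination 4 * q.1 * h0 + M ^ 2 * h1
  rw [h2, hB] at h4
  have n3 : ¬ (3 : ℤ) ∣ M := by
    intro h5
    have h6 : (3 : ℤ) ∣ 15 * x := ⟨5 * x, by ring⟩
    have h7 := h.isUnit_of_dvd' h6 h5
    rw [Int.isUnit_iff] at h7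
    omega
  have n5 : ¬ (5 : ℤ) ∣ M := by
    intro h5
    have h6 : (5 : ℤ) ∣ 15 * x := ⟨3 * x, by ring⟩
    have h7 := h.isUnit_of_dvd' h6 h5
    rw [Int.isUnit_iff] at h7
    omega
  rcases mul_eq_zero.1 h4 with h5 | h5
  · have h6 : (3 : ℤ) ∣ (pr X * M) := ⟨-(A1 * x + B1 * M), by linarith⟩
    rcases Int.prime_three.dvd_mul.1 h6 with h9 | h9
    · exact three_pr hX h9
    · exact n3 h9
  · have h6 : (5 : ℤ) ∣ 2 * (pr X * M) := ⟨-(A1 * x + B1 * M), by linarith⟩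
    have h7 : IsCoprime (5 : ℤ) 2 := ⟨1, -2, by norm_num⟩
    have h8 := h7.dvd_of_dvd_mul_left h6
    have hp5 : Prime (5 : ℤ) := by exact_mod_cast pZ (by norm_num : Nat.Prime 5)
    rcases hp5.dvd_mul.1 h8 with h9 | h9
    · exact five_pr hX h9
    · exact n5 h9

theorem key {m : ℤ} {q : ℤ × ℤ × ℤ} (h : q.2.1 ^ 2 - 4 * q.1 * q.2.2 = m ^ 2) (x M : ℤ) :
    4 * (q.1 * ev q x M) = (2 * q.1 * x + q.2.1 * M) ^ 2 - m ^ 2 * M ^ 2 := by
  unfold ev
  linear_combination -(M ^ 2) * h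

theorem T_ne {X : Finset ℕ} (hX : Pq X) {x M : ℤ} (hNV : NV X x M) {q : ℤ × ℤ × ℤ}
    (h : T X x M 1 0 q ≠ 0) : Fm X 11 q ∧ q.1 * ev q x M < 0 := by
  unfold T at h
  by_cases hq : Fm X 11 q
  · refine ⟨hq, ?_⟩
    rw [if_pos hq, ev10] at h
    have h1 : Int.sign (ev q x M) ≠ Int.sign q.1 := by
      intro h2
      apply h
      rw [h2, sub_self, mul_zero]
    have h2 := A_ne hX hq
    have h3 := hNV q hq
    rcases lt_or_gt_of_ne h2 with h4 | h4
    · rcases lt_or_gt_of_ne h3 with h5 | h5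
      · exact absurd (by rw [Int.sign_eq_neg_one_of_neg h4, Int.sign_eq_neg_one_of_neg h5]) h1
      · exact mul_neg_of_neg_of_pos h4 h5
    · rcases lt_or_gt_of_ne h3 with h5 | h5
      · exact mul_neg_of_pos_of_neg h4 h5
      · exact absurd (by rw [Int.sign_eq_one_of_pos h4, Int.sign_eq_one_of_pos h5]) h1
  · rw [if_neg hq] at h
    exact absurd rfl h

theorem bound {m x M : ℤ} (hm : 0 < m) {q : ℤ × ℤ × ℤ}
    (hd : q.2.1 ^ 2 - 4 * q.1 * q.2.2 = m ^ 2) (h : q.1 * ev q x M < 0) :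
    4 * |q.1| ≤ m ^ 2 * M ^ 2 ∧ |2 * q.1 * x + q.2.1 * M| < m * |M| := by
  have h1 := key hd x M
  have h2 : (2 * q.1 * x + q.2.1 * M) ^ 2 < (m * M) ^ 2 := by nlinarith
  have h3 := sq_lt_sq.1 h2
  rw [abs_mul m M, abs_of_pos hm] at h3
  refine ⟨?_, h3⟩
  have h4 : ev q x M ≠ 0 := by
    intro h5; rw [h5, mul_zero] at h; exact lt_irrefl _ h
  have h5 : 1 ≤ |ev q x M| := Int.one_le_abs h4
  have h6 : |q.1| * |ev q x M| = -(q.1 * ev q x M) := by
    rw [← abs_mul, abs_of_neg h]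
  have h7 : |q.1| ≤ |q.1| * |ev q x M| := le_mul_of_one_le_right (abs_nonneg _) h5
  nlinarith [sq_nonneg (2 * q.1 * x + q.2.1 * M)]

theorem fin_T {X : Finset ℕ} (hX : Pq X) {x M : ℤ} (hNV : NV X x M) :
    (Function.support (T X x M 1 0)).Finite := by
  have hm := prZ_pos hX
  set m : ℤ := (pr X : ℤ) with hmdef
  rcases eq_or_ne M 0 with rfl | hM
  · have : Function.support (T X x 0 1 0) = ∅ := by
      rw [Set.eq_empty_iff_forall_notMem]
      intro q hq
      have h1 := T_ne hX hNV hq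
      have h2 := (bound hm h1.1.1 h1.2).2
      rw [abs_zero, mul_zero] at h2
      exact absurd (abs_nonneg _) (not_le.2 h2)
    rw [this]
    exact Set.finite_empty
  · set K : ℤ := m ^ 2 * M ^ 2 with hK
    set L : ℤ := m * |M| + 2 * K * |x| with hL
    set R : ℤ := L ^ 2 + m ^ 2 with hR
    refine ((Set.finite_Icc (-K) K).prod ((Set.finite_Icc (-L) L).prod
      (Set.finite_Icc (-R) R))).subset ?_
    intro q hq
    have h1 := T_ne hX hNV hq
    obtain ⟨h2, h3⟩ := bound hm h1.1.1 h1.2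
    have hA : |q.1| ≤ K := by
      have := abs_nonneg q.1
      omega
    have hM1 : 1 ≤ |M| := Int.one_le_abs hM
    have hB : |q.2.1| ≤ L := by
      have h4 : |q.2.1 * M| ≤ |2 * q.1 * x + q.2.1 * M| + |2 * q.1 * x| := by
        have h5 : q.2.1 * M = (2 * q.1 * x + q.2.1 * M) - 2 * q.1 * x := by ring
        calc |q.2.1 * M| = |(2 * q.1 * x + q.2.1 * M) - 2 * q.1 * x| := by rw [← h5]
          _ ≤ _ := abs_sub _ _
      have h6 : |2 * q.1 * x| ≤ 2 * K * |x| := by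
        rw [abs_mul, abs_mul]
        have : |(2:ℤ)| = 2 := rfl
        rw [this]
        have := abs_nonneg x
        nlinarith
      have h7 : |q.2.1| ≤ |q.2.1 * M| := by
        rw [abs_mul]
        exact le_mul_of_one_le_right (abs_nonneg _) hM1
      rw [hL]
      linarith
    have hC : |q.2.2| ≤ R := by
      have h4 : 4 * (q.1 * q.2.2) = q.2.1 ^ 2 - m ^ 2 := by
        have := h1.1.1
        linarith
      have hm2 : 0 ≤ m ^ 2 := sq_nonneg m
      have h5 : 4 * (|q.1| * |q.2.2|) ≤ q.2.1 ^ 2 + m ^ 2 := by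
        rw [← abs_mul]
        rcases abs_cases (q.1 * q.2.2) with ⟨h6, _⟩ | ⟨h6, _⟩ <;> rw [h6] <;>
          nlinarith [sq_nonneg q.2.1]
      have h6 : q.2.1 ^ 2 ≤ L ^ 2 := by
        rw [← sq_abs q.2.1]
        exact pow_le_pow_left₀ (abs_nonneg _) hB 2
      have h7 : 1 ≤ |q.1| := Int.one_le_abs (A_ne hX h1.1)
      have h8 : |q.2.2| ≤ |q.1| * |q.2.2| := le_mul_of_one_le_left (abs_nonneg _) h7
      have h9 := abs_nonneg q.2.2
      rw [hR]
      linarith
    refine ⟨?_, ?_, ?_⟩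
    · exact abs_le.1 hA
    · exact abs_le.1 hB
    · exact abs_le.1 hC

theorem G_coc {X : Finset ℕ} (hX : Pq X) {a b c d : ℤ} (h : a * d - b * c = 1)
    (hc : (15 : ℤ) ∣ c) {x M : ℤ} (hNV : NV X x M) :
    G X (a * x + b * M) (c * x + d * M) = G X x M + G X a c := by
  unfold G
  have h1 : ∀ q, T X (a * x + b * M) (c * x + d * M) 1 0 q =
      T X x M 1 0 (eqv a b c d h q) + T X a c 1 0 q := by
    intro q
    rw [T_add X _ _ a c 1 0 q]
    congr 1
    have h2 := T_act hX h hc x M 1 0 q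
    simp only [mul_one, mul_zero, add_zero] at h2
    exact h2
  have hf1 : (Function.support fun q => T X x M 1 0 (eqv a b c d h q)).Finite := by
    have := (fin_T hX hNV).preimage ((eqv a b c d h).injective.injOn)
    exact this
  rw [finsum_congr h1, finsum_add_distrib hf1 (fin_T hX (NV_inf hX h hc)),
    finsum_comp_equiv (eqv a b c d h) (f := T X x M 1 0)]

theorem G_aff {X : Finset ℕ} (hX : Pq X) {a b c d : ℤ} (h : a * d - b * c = 1)
    (hc : (15 : ℤ) ∣ c) {x M : ℤ} (hNV : NV X x M) :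
    G X (a * x + b * M) (c * x + d * M) = G X x M + G X b d - G X 0 1 := by
  have h1 := G_coc hX h hc (x := 0) (M := 1) (NV_zero hX)
  simp only [mul_zero, mul_one, zero_add] at h1
  rw [G_coc hX h hc hNV, h1]
  ring

/-! ### the two classes -/

open Classical in
/-- the part of one class -/
def fk (X : Finset ℕ) (k : ℤ) (x M : ℤ) (q : ℤ × ℤ × ℤ) : ℤ :=
  if Fm X k q ∧ 0 < q.1 ∧ ev q x M < 0 then cx X q else 0

theorem Nr_eq (X : Finset ℕ) (k x M : ℤ) : Nr X k x M = ∑ᶠ q, fk X k x M q := rfl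

theorem ev_neg (q : ℤ × ℤ × ℤ) (x M : ℤ) : ev (-q) x M = - ev q x M := by
  unfold ev
  simp only [Prod.fst_neg, Prod.snd_neg]
  ring

theorem Fm_neg (X : Finset ℕ) (q : ℤ × ℤ × ℤ) : Fm X 19 (-q) ↔ Fm X 11 q := by
  obtain ⟨A, B, C⟩ := q
  unfold Fm
  simp only [Prod.fst_neg, Prod.snd_neg]
  constructor
  · rintro ⟨h1, h2, h3⟩
    exact ⟨by linear_combination h1, (dvd_neg).1 h2, by omega⟩
  · rintro ⟨h1, h2, h3⟩
    exact ⟨by linear_combination h1, (dvd_neg).2 h2, by omega⟩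

theorem T_split {X : Finset ℕ} (hX : Pq X) {x M : ℤ} (hNV : NV X x M) (q : ℤ × ℤ × ℤ) :
    T X x M 1 0 q = (-2) * fk X 11 x M q +
      (2 * jacobiSym (-1) (pr X)) * fk X 19 x M (-q) := by
  unfold T fk
  rw [ev_neg, cx_neg hX, ev10]
  simp only [Prod.fst_neg]
  have he := eps_sq (X := X)
  by_cases hq : Fm X 11 q
  · rw [if_pos hq]
    have hq' := (Fm_neg X q).2 hq
    have h2 := A_ne hX hq
    have h3 := hNV q hq
    rcases lt_or_gt_of_ne h2 with h4 | h4
    · have n1 : ¬ (Fm X 11 q ∧ 0 < q.1 ∧ ev q x M < 0) := fun h => by linarith [h.2.1]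
      rw [if_neg n1, Int.sign_eq_neg_one_of_neg h4]
      rcases lt_or_gt_of_ne h3 with h5 | h5
      · have n2 : ¬ (Fm X 19 (-q) ∧ 0 < -q.1 ∧ -ev q x M < 0) := fun h => by linarith [h.2.2]
        rw [if_neg n2, Int.sign_eq_neg_one_of_neg h5]
        ring
      · have n2 : (Fm X 19 (-q) ∧ 0 < -q.1 ∧ -ev q x M < 0) := ⟨hq', by linarith, by linarith⟩
        rw [if_pos n2, Int.sign_eq_one_of_pos h5]
        linear_combination (-2 * cx X q) * he
    · have n1 : ¬ (Fm X 19 (-q) ∧ 0 < -q.1 ∧ -ev q x M < 0) := fun h => by linarith [h.2.1]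
      rw [if_neg n1, Int.sign_eq_one_of_pos h4]
      rcases lt_or_gt_of_ne h3 with h5 | h5
      · have n2 : (Fm X 11 q ∧ 0 < q.1 ∧ ev q x M < 0) := ⟨hq, h4, h5⟩
        rw [if_pos n2, Int.sign_eq_neg_one_of_neg h5]
        ring
      · have n2 : ¬ (Fm X 11 q ∧ 0 < q.1 ∧ ev q x M < 0) := fun h => by linarith [h.2.2]
        rw [if_neg n2, Int.sign_eq_one_of_pos h5]
        ring
  · have n1 : ¬ (Fm X 11 q ∧ 0 < q.1 ∧ ev q x M < 0) := fun h => hq h.1
    have n2 : ¬ (Fm X 19 (-q) ∧ 0 < -q.1 ∧ -ev q x M < 0) := fun h => hq ((Fm_neg X q).1 h.1)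
    rw [if_neg hq, if_neg n1, if_neg n2]
    ring

theorem fk_ne {X : Finset ℕ} {k x M : ℤ} {q : ℤ × ℤ × ℤ} (h : fk X k x M q ≠ 0) :
    Fm X k q ∧ 0 < q.1 ∧ ev q x M < 0 := by
  unfold fk at h
  by_contra h6
  rw [if_neg h6] at h
  exact h rfl

theorem eps_ne (X : Finset ℕ) : jacobiSym (-1) (pr X) ≠ 0 :=
  left_ne_zero_of_mul_eq_one (eps_sq (X := X))

theorem fin13 {X : Finset ℕ} (hX : Pq X) {x M : ℤ} (hNV : NV X x M) :
    (Function.support (fk X 11 x M)).Finite := by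
  refine (fin_T hX hNV).subset ?_
  intro q hq
  have h1 : fk X 11 x M q ≠ 0 := hq
  have h2 : fk X 19 x M (-q) = 0 := by
    by_contra h3
    have h4 := (fk_ne h3).2.1
    rw [Prod.fst_neg] at h4
    linarith [(fk_ne h1).2.1]
  rw [Function.mem_support, T_split hX hNV, h2]
  intro h3
  apply h1
  linarith

theorem fin15' {X : Finset ℕ} (hX : Pq X) {x M : ℤ} (hNV : NV X x M) :
    (Function.support (fun q => fk X 19 x M (-q))).Finite := by
  refine (fin_T hX hNV).subset ?_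
  intro q hq
  have h1 : fk X 19 x M (-q) ≠ 0 := hq
  have h2 : fk X 11 x M q = 0 := by
    by_contra h3
    have h4 := (fk_ne h1).2.1
    rw [Prod.fst_neg] at h4
    linarith [(fk_ne h3).2.1]
  rw [Function.mem_support, T_split hX hNV, h2, mul_zero, zero_add]
  exact mul_ne_zero (mul_ne_zero two_ne_zero (eps_ne X)) h1

theorem G_eq {X : Finset ℕ} (hX : Pq X) {x M : ℤ} (hNV : NV X x M) :
    G X x M = -2 * Fx X x M := by
  have h2 : ∑ᶠ q, fk X 19 x M (-q) = ∑ᶠ q, fk X 19 x M q :=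
    finsum_comp_equiv (Equiv.neg (ℤ × ℤ × ℤ)) (f := fk X 19 x M)
  have h3 : G X x M = (-2) * (∑ᶠ q, fk X 11 x M q) +
      (2 * jacobiSym (-1) (pr X)) * (∑ᶠ q, fk X 19 x M (-q)) := by
    unfold G
    rw [finsum_congr (T_split hX hNV), finsum_add_distrib, mul_finsum, mul_finsum]
    · exact (fin13 hX hNV).subset (Function.support_mul_subset_right _ _)
    · exact (fin15' hX hNV).subset (Function.support_mul_subset_right _ _)
  unfold Fx
  rw [h3, h2, Nr_eq, Nr_eq]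
  ring

theorem ev_neg2 (q : ℤ × ℤ × ℤ) (x M : ℤ) : ev q (-x) (-M) = ev q x M := by unfold ev; ring

theorem Nr_neg2 (X : Finset ℕ) (k x M : ℤ) : Nr X k (-x) (-M) = Nr X k x M := by
  rw [Nr_eq, Nr_eq]
  refine finsum_congr fun q => ?_
  unfold fk
  rw [ev_neg2]

theorem Nr_per {X : Finset ℕ} (hX : Pq X) (k x M : ℤ) : Nr X k (x + M) M = Nr X k x M := by
  rw [Nr_eq, Nr_eq]
  have hdet : (1 : ℤ) * 1 - 1 * 0 = 1 := by ring
  rw [← finsum_comp_equiv (eqv 1 1 0 1 hdet) (f := fk X k x M)]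
  refine finsum_congr fun q => ?_
  have e1 : (eqv 1 1 0 1 hdet) q = act 1 1 0 1 q := rfl
  rw [e1]
  unfold fk
  have e2 : ev (act 1 1 0 1 q) x M = ev q (x + M) M := by
    rw [ev_act]
    congr 1 <;> ring
  have e3 : (act 1 1 0 1 q).1 = q.1 := by unfold act; ring
  rw [e2, e3]
  by_cases hq : Fm X k q
  · rw [cx_act hX hdet hq]
    have hq' := Fm_act hdet (dvd_zero _) hq
    simp only [hq, hq', true_and]
  · have hq' : ¬ Fm X k (act 1 1 0 1 q) := fun h => hq ((Fm_act_iff hdet (dvd_zero _)).1 h)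
    rw [if_neg (fun h => hq h.1), if_neg (fun h => hq' h.1)]

/-- the reflection -/
def refl : (ℤ × ℤ × ℤ) ≃ (ℤ × ℤ × ℤ) where
  toFun q := (q.1, -q.2.1, q.2.2)
  invFun q := (q.1, -q.2.1, q.2.2)
  left_inv q := by simp
  right_inv q := by simp

theorem Nr_refl (X : Finset ℕ) {k k' : ℤ} (hk : k + k' = 30) (x M : ℤ) :
    Nr X k (-x) M = Nr X k' x M := by
  rw [Nr_eq, Nr_eq, ← finsum_comp_equiv refl (f := fk X k' x M)]
  refine finsum_congr fun q => ?_
  obtain ⟨A, B, C⟩ := q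
  have hr : refl (A, B, C) = (A, -B, C) := rfl
  rw [hr]
  unfold fk
  have e1 : ev (A, -B, C) x M = ev (A, B, C) (-x) M := by
    unfold ev; simp only; ring
  have e2 : cx X (A, -B, C) = cx X (A, B, C) := rfl
  have e3 : Fm X k' (A, -B, C) ↔ Fm X k (A, B, C) := by
    obtain rfl : k' = 30 - k := by linarith
    unfold Fm
    simp only
    constructor
    · rintro ⟨h1, h2, ⟨u, h3⟩⟩
      exact ⟨by linear_combination h1, h2, ⟨pr X * 1 - pr X * 2 - u + pr X * 1 - pr X * 1 + 0, by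
        linear_combination -h3⟩⟩
    · rintro ⟨h1, h2, ⟨u, h3⟩⟩
      exact ⟨by linear_combination h1, h2, ⟨-u - pr X, by linear_combination -h3⟩⟩
  rw [e1, e2]
  by_cases h : Fm X k (A, B, C)
  · have h' := e3.2 h
    by_cases h2 : 0 < A ∧ ev (A, B, C) (-x) M < 0
    · rw [if_pos ⟨h, h2⟩, if_pos ⟨h', h2⟩]
    · rw [if_neg (fun h3 => h2 h3.2), if_neg (fun h3 => h2 h3.2)]
  · have h' : ¬ Fm X k' (A, -B, C) := fun h3 => h (e3.1 h3)
    rw [if_neg (fun h3 => h h3.1), if_neg (fun h3 => h' h3.1)]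

end

end CocA

open CocA

/-- The counting functions are cocycles. -/
theorem t_COC : S_COC := by
  intro X hX
  refine ⟨fun x M => ?_, fun x M => ?_, fun a b c d h hc x M hcop => ?_⟩
  · unfold Fx
    rw [Nr_neg2, Nr_neg2]
  · unfold Fx
    rw [Nr_per hX, Nr_per hX]
  · have hN := NV_cop hX hcop
    have h1 := G_aff hX h hc hN
    have hbd : NV X b d := by
      have := NV_act h hc (NV_zero hX)
      simpa using this
    rw [G_eq hX hN, G_eq hX hbd, G_eq hX (NV_zero hX), G_eq hX (NV_act h hc hN)] at h1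
    linarith

/-- The parity of the counting functions. -/
theorem t_PARI : S_PARI := by
  intro X _ x M
  unfold Fx
  rw [Nr_refl X (k := 11) (k' := 19) (by norm_num), Nr_refl X (k := 19) (k' := 11) (by norm_num)]
  have he := eps_sq (X := X)
  linear_combination (-(Nr X 19 x M)) * he


end Pool.Agent.XV
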