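import Pool.Agent.XV.Defs
import Pool.Agent.Y687.N.Defs
import Pool.Agent.Y687.K2.Three

/-!
# Project XV: intermediate statements
-/

set_option autoImplicit false

namespace Pool.Agent.XV

open Finset
open Pool.Agent.Z700 (V3 pr un hh)
open Pool.Agent.NH1 (lz rd)
open Pool.Agent.NH2 (w1 w2 wp ev cx)
open Pool.Agent.Y687 (SS saw ded psi)

noncomputable section

/-! ### pairs of vectors -/

/-- the product of the local factors away from `u` -/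
def pf (u N T : ℕ) : ℤ := ∏ l ∈ (T * (N - T)).primeFactors.erase u, fc N (T * (N - T)) l

/-- PC: the number of pairs of vectors with given inner product -/
def S_PC : Prop := ∀ n : ℕ, Squarefree n → ∀ T : ℕ, 0 < T → T < n →
  (Kb n → (cpa 5 n T : ℤ) = if Odd ((T * (n - T)).factorization 5) then 6 * pf 5 n T else 0) ∧
  (Kd n → (cpa 3 n T : ℤ) = if Odd ((T * (n - T)).factorization 3) then 12 * pf 3 n T else 0)

/-- the determinant -/
def d3 (u v w : V3) : ℤ := u 0 * (v 1 * w 2 - v 2 * w 1) - u 1 * (v 0 * w 2 - v 2 * w 0) +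
  u 2 * (v 0 * w 1 - v 1 * w 0)

/-- `v` has the eigenvalue `β` on the line `n` modulo `rl q` (`LN q β` is `OnL q ![1,0,0] β` for `q = 5`,
`OnL q ![1,1,1] β` for `q = 3`) -/
def OnL (q : ℕ) (n : V3) (β : ℤ) (v : V3) : Prop := ∀ w : V3, rl q ∣ d3 v n w + β * bl q n w

/-- a common line -/
def Com (q : ℕ) (β : ℤ) (v w : V3) : Prop :=
  ∃ n : V3, ¬ (∀ i, rl q ∣ n i) ∧ OnL q n β v ∧ OnL q n β w

open Classical in
/-- the number of pairs with a common line and given inner product -/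
def cpl (q N T : ℕ) (β : ℤ) : ℕ := ((vec q (N : ℤ) ×ˢ vec q (N : ℤ)).filter fun x =>
  bl q x.1 x.2 = (N : ℤ) - 2 * T ∧ Com q β x.1 x.2).card

/-- PS: the number of pairs with a common line -/
def S_PS : Prop := ∀ n : ℕ, Squarefree n → ∀ β : ℤ, ∀ T : ℕ, 0 < T → T < n →
  (Kb n → (3 : ℤ) ∣ β ^ 2 + n → (cpl 5 n T β : ℤ) = if Odd ((T * (n - T)).factorization 5) then
    6 * (T.factorization 3 : ℤ) * ∏ l ∈ ((T * (n - T)).primeFactors.erase 5).erase 3,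
      fc n (T * (n - T)) l else 0) ∧
  (Kd n → (5 : ℤ) ∣ β ^ 2 + n → (cpl 3 n T β : ℤ) = if Odd ((T * (n - T)).factorization 3) then
    12 * (T.factorization 5 : ℤ) * ∏ l ∈ ((T * (n - T)).primeFactors.erase 3).erase 5,
      fc n (T * (n - T)) l else 0)

/-! ### uniqueness with rational values -/

/-- rational valued functions on the cusps equivalent to `0` that come from cocycles of `Γ₀(15)` -/
structure CocQ (f : ℤ → ℤ → ℚ) : Prop where
  neg2 : ∀ x M : ℤ, f (-x) (-M) = f x M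
  per : ∀ x M : ℤ, f (x + M) M = f x M
  aff : ∀ a b c d : ℤ, a * d - b * c = 1 → (15 : ℤ) ∣ c → ∀ x M : ℤ, IsCoprime (15 * x) M →
    f (a * x + b * M) (c * x + d * M) = f x M + f b d - f 0 1

/-- the conditions only for the cusps equivalent to `0` -/
structure CocR (f : ℤ → ℤ → ℚ) : Prop where
  neg2 : ∀ x M : ℤ, M ≠ 0 → f (-x) (-M) = f x M
  per : ∀ x M : ℤ, M ≠ 0 → f (x + M) M = f x M
  aff : ∀ a b c d : ℤ, a * d - b * c = 1 → (15 : ℤ) ∣ c → ∀ x M : ℤ, IsCoprime (15 * x) M →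
    M ≠ 0 → c * x + d * M ≠ 0 → f (a * x + b * M) (c * x + d * M) = f x M + f b d - f 0 1

/-- UOD with rational values -/
def S_UODQ : Prop := ∀ f g : ℤ → ℤ → ℚ, CocR f → CocR g → (∀ x M : ℤ, M ≠ 0 → f (-x) M = - f x M) →
  (∀ x M : ℤ, M ≠ 0 → g (-x) M = - g x M) → f 5 16 = 0 → g 5 16 = 0 →
  ∀ x M : ℤ, 0 < M → IsCoprime (15 * x) M → f x M * g 1 4 = g x M * f 1 4

theorem uod_of (h : S_UODQ) : S_UOD := by
  intro f g hf hg of og f5 g5 x M hM hc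
  have e := h (fun x M => (f x M : ℚ)) (fun x M => (g x M : ℚ))
    ⟨fun x M _ => by exact_mod_cast hf.neg2 x M, fun x M _ => by exact_mod_cast hf.per x M,
      fun a b c d h1 h2 x M h3 _ _ => by exact_mod_cast hf.aff a b c d h1 h2 x M h3⟩
    ⟨fun x M _ => by exact_mod_cast hg.neg2 x M, fun x M _ => by exact_mod_cast hg.per x M,
      fun a b c d h1 h2 x M h3 _ _ => by exact_mod_cast hg.aff a b c d h1 h2 x M h3⟩
    (fun x M _ => by exact_mod_cast of x M) (fun x M _ => by exact_mod_cast og x M)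
    (by exact_mod_cast f5) (by exact_mod_cast g5) x M hM hc
  exact_mod_cast e

/-! ### the case `X = ∅` -/

/-- the Dedekind symbol -/
def EM (x M : ℤ) : ℚ :=
  (1 / 96) * (psi x M - 7 * psi (3 * x) M + 7 * psi (5 * x) M - psi (15 * x) M)

/-- EMC: the Dedekind symbol is a cocycle -/
def S_EMC : Prop := CocR EM ∧ (∀ x M : ℤ, M ≠ 0 → EM (-x) M = - EM x M) ∧ EM 5 16 = 1 ∧ EM 1 4 = 1 / 4

/-- FE: the counting function for `X = ∅` -/
def S_FE : Prop := ∀ (s : ℚ → ℤ) (a : ℕ → ℤ), SyM s a → ∀ x M : ℤ, 0 < M → IsCoprime (15 * x) M →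
  4 * (s (1 / 4) : ℚ) * ((Fx ∅ x M : ℚ) - EM x M) = - (s ((x : ℚ) / M) : ℚ)

/-- the factorization data -/
def Om (u v n : ℕ) : Finset (Σ _ : ℕ, ℕ × ℕ) :=
  (range n).sigma fun T => ((n - T).divisors.filter (u ∣ ·)) ×ˢ (T.divisors.filter (v ∣ ·))

/-- the number of factorizations belonging to the cusp -/
def Nq (u v n : ℕ) (x : ℤ) : ℤ :=
  (((Om u v n).filter fun w => Pool.Agent.Y687.N.Cd n x w).card : ℤ)

/-- LVL: the crossing number of level `l` is a Dedekind sum -/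
def S_LVL : Prop := ∀ l n : ℕ, (l = 3 ∨ l = 5) → 0 < n → Nat.Coprime n l → ∀ x y z : ℤ,
  (n : ℤ) ∣ x * y - 1 → (n : ℤ) ∣ l * z - 1 →
  ((Nq l 1 n (-x) - Nq l 1 n x : ℤ) : ℚ) =
    12 / ((l : ℚ) - 1) * (ded x n - ded (l * x) n) + saw n x - saw n (z * y)

/-- C20: evaluation of the divisor sums of level `l` -/
def S_C20 : Prop := ∀ N : Finset ℕ, Pq N → ∀ T : ℕ, 0 < T → T < pr N →
  (Kb (pr N) → WW 5 1 ∅ N T = - loc1 5 (pr N) T) ∧
  (Kd (pr N) → WW 3 1 ∅ N T = - loc1 3 (pr N) T)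

/-- CLS: the number of vectors and the class number -/
def S_CLS : Prop := ∀ N : Finset ℕ, Pq N →
  (Kb (pr N) → ((vec 5 (pr N : ℤ)).card : ℚ) =
    -6 * ∑ t ∈ un (pr N), (jacobiSym t (pr N) : ℚ) * saw (pr N) t) ∧
  (Kd (pr N) → ((vec 3 (pr N : ℤ)).card : ℚ) =
    -12 * ∑ t ∈ un (pr N), (jacobiSym t (pr N) : ℚ) * saw (pr N) t)

/-! ### the squares -/

/-- the twisted sum of the counting function -/
def Wt (X Z : Finset ℕ) : ℤ := ∑ t ∈ un (pr Z), jacobiSym t (pr Z) * Fx X t (pr Z)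

/-- DIA: the twisted sums are squares -/
def S_DIA : Prop := ∀ P Z : Finset ℕ, Pq (P ∪ Z) → Disjoint P Z → Z.Nonempty →
  (Kb (pr (P ∪ Z)) → ∀ β : ℤ, (3 : ℤ) ∣ β ^ 2 + pr (P ∪ Z) →
    (P = ∅ → 72 * Wt P Z = - (S5 ∅ (pr Z) β ^ 2 + 3 * ((vec 5 (pr Z : ℤ)).card : ℤ) ^ 2)) ∧
    (P.Nonempty → Ka (pr P) → 72 * Wt P Z = - S5 P (pr (P ∪ Z)) β ^ 2) ∧
    (P.Nonempty → Kc (pr P) → 72 * Wt P Z = S5 Z (pr (P ∪ Z)) β ^ 2)) ∧
  (Kd (pr (P ∪ Z)) → ∀ β : ℤ, (5 : ℤ) ∣ β ^ 2 + pr (P ∪ Z) →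
    (P = ∅ → 72 * Wt P Z = ((vec 3 (pr Z : ℤ)).card : ℤ) ^ 2 - 36 * A 3 Z (pr Z) β ^ 2) ∧
    (P.Nonempty → Kc (pr P) → 2 * Wt P Z = A 3 P (pr (P ∪ Z)) β ^ 2) ∧
    (P.Nonempty → Ka (pr P) → 2 * Wt P Z = - A 3 Z (pr (P ∪ Z)) β ^ 2))

end

end Pool.Agent.XV
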