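import Pool.Agent.XV.Defs2

/-!
# Project XV: the twisted sums are squares (port of `Pool.Agent.NH2.Dia`)
-/

set_option autoImplicit false

namespace Pool.Agent.XV

open Finset
open Pool.Agent.Z700 (V3 pr un hh)
open Pool.Agent.NH1 (lz rd)
open Pool.Agent.NH2 (w1 w2 wp ev cx)

namespace DIA

lemma wp_val (p N T : ℕ) : wp p N T = 0 ∨ wp p N T = 1 ∨ wp p N T = -1 := by
  unfold wp
  split_ifs
  · exact jacobiSym.trichotomy _ _
  · exact jacobiSym.trichotomy _ _

lemma prod_wp_pm {P : Finset ℕ} {N T : ℕ} : (∏ p ∈ P, wp p N T) = 0 ∨ (∏ p ∈ P, wp p N T) = 1 ∨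
    (∏ p ∈ P, wp p N T) = -1 := by
  classical
  induction P using Finset.induction_on with
  | empty => right; left; simp
  | insert p P hp ih =>
    rw [Finset.prod_insert hp]
    rcases wp_val p N T with h | h | h <;> rcases ih with h' | h' | h' <;> rw [h, h'] <;> norm_num

lemma jac3 {n : ℕ} (h : Kb n) : jacobiSym ((3 : ℕ) : ℤ) n = 1 := by
  have h4 : n % 4 = 3 := by unfold Kb at h; omega
  have h3 : (n : ℤ) % (3 : ℕ) = 2 := by unfold Kb at h; push_cast; omega
  rw [jacobiSym.quadratic_reciprocity_three_mod_four (by norm_num) h4, jacobiSym.mod_left, h3]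
  norm_num

lemma jac5 {n : ℕ} (h : Kd n) : jacobiSym ((5 : ℕ) : ℤ) n = 1 := by
  have h2 : Odd n := by
    rw [Nat.odd_iff]; unfold Kd at h; omega
  have h5 : (n : ℤ) % (5 : ℕ) = 4 ∨ (n : ℤ) % (5 : ℕ) = 1 := by
    unfold Kd at h; push_cast; omega
  rw [jacobiSym.quadratic_reciprocity_one_mod_four (by norm_num) h2, jacobiSym.mod_left]
  rcases h5 with h5 | h5 <;> rw [h5] <;> norm_num

lemma fc_ne {n D l : ℕ} (h : ¬ l ∣ n) (hj : jacobiSym (l : ℤ) n = 1) : fc n D l ≠ 0 := by
  unfold fc
  rw [if_neg h, hj]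
  simp only [one_pow, sum_const, card_range, nsmul_eq_mul, mul_one]
  exact Nat.cast_ne_zero.2 (Nat.succ_ne_zero (D.factorization l))

/-- the weights of complementary sets are opposite -/
lemma opp {P Z : Finset ℕ} (hd : Disjoint P Z) {u v n T : ℕ}
    (hv : ∀ D, fc n D v ≠ 0)
    (hw : 0 < T → Odd ((n - T).factorization u) →
      ∏ l ∈ (T * (n - T)).primeFactors.erase u, fc n (T * (n - T)) l ≠ 0 →
      ∏ p ∈ P ∪ Z, wp p n T = -1) :
    (∏ p ∈ P, wp p n T) * loc u v n T = -((∏ p ∈ Z, wp p n T) * loc u v n T) := by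
  by_cases hl : loc u v n T = 0
  · rw [hl]; simp
  · have h5 : ∏ p ∈ P ∪ Z, wp p n T = -1 := by
      unfold loc at hl
      by_cases ho : Odd ((n - T).factorization u)
      · rw [if_pos ho] at hl
        have hT : 0 < T := by
          rcases Nat.eq_zero_or_pos T with h0 | h0
          · exfalso
            apply hl
            rw [h0]
            simp
          · exact h0
        refine hw hT ho ?_
        have h6 := right_ne_zero_of_mul hl
        by_cases hvm : v ∈ (T * (n - T)).primeFactors.erase u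
        · rw [← Finset.mul_prod_erase _ _ hvm]
          exact mul_ne_zero (hv _) h6
        · rw [Finset.erase_eq_of_notMem hvm] at h6
          exact h6
      · rw [if_neg ho] at hl
        exact absurd rfl hl
    rw [Finset.prod_union hd] at h5
    have h6 : (∏ p ∈ P, wp p n T) = -(∏ p ∈ Z, wp p n T) := by
      rcases prod_wp_pm (P := P) (N := n) (T := T) with a | a | a <;>
        rcases prod_wp_pm (P := Z) (N := n) (T := T) with b | b | b <;>
        rw [a, b] at h5 ⊢ <;> omega
    rw [h6]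
    ring

lemma WW_zero (u v : ℕ) (X Z : Finset ℕ) : WW u v X Z 0 = 0 := by
  unfold WW
  simp

lemma loc_zero (u v N : ℕ) : loc u v N 0 = 0 := by
  unfold loc
  split_ifs <;> simp

lemma chi_one {m : ℕ} (h : m % 4 = 1) : jacobiSym (-1) m = 1 := by
  rw [jacobiSym.at_neg_one (Nat.odd_iff.2 (by omega)), ZMod.χ₄_nat_one_mod_four h]

lemma chi_three {m : ℕ} (h : m % 4 = 3) : jacobiSym (-1) m = -1 := by
  rw [jacobiSym.at_neg_one (Nat.odd_iff.2 (by omega)), ZMod.χ₄_nat_three_mod_four h]

lemma cls1 {x y : ℕ} (h1 : Kc x) (h2 : Kb (x * y)) : Kd y := by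
  unfold Kc at h1; unfold Kb at h2; unfold Kd
  rw [Nat.mul_mod] at h2
  have hy : y % 60 < 60 := Nat.mod_lt _ (by norm_num)
  rcases h1 with h1 | h1 <;> rw [h1] at h2 <;> generalize y % 60 = z at * <;>
    interval_cases z <;> omega

lemma cls2 {x y : ℕ} (h1 : Ka x) (h2 : Kd (x * y)) : Kd y := by
  unfold Ka at h1; unfold Kd at h2 ⊢
  rw [Nat.mul_mod] at h2
  have hy : y % 60 < 60 := Nat.mod_lt _ (by norm_num)
  rcases h1 with h1 | h1 <;> rw [h1] at h2 <;> generalize y % 60 = z at * <;>
    interval_cases z <;> omega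

end DIA

open DIA

theorem t_DIA (c1 : S_C1) (c2 : S_C2) (sq : S_SQ) (wpn : S_WPN) : S_DIA := by
  classical
  intro P Z hPZ hd hZ
  obtain ⟨n, hn⟩ : ∃ n, n = pr P * pr Z := ⟨_, rfl⟩
  have hprU : pr (P ∪ Z) = n := by
    rw [hn]
    exact Finset.prod_union hd
  have hdiff1 : (P ∪ Z) \ P = Z := by
    rw [Finset.union_sdiff_left]
    exact Finset.sdiff_eq_self_of_disjoint hd.symm
  have hdiff2 : (P ∪ Z) \ Z = P := by
    rw [Finset.union_sdiff_right]
    exact Finset.sdiff_eq_self_of_disjoint hd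
  have hwp := wpn (P ∪ Z) hPZ
  simp only [hprU] at hwp
  constructor
  · intro hK β hβ
    rw [hprU] at hK hβ ⊢
    have hn4 : n % 4 = 3 := by unfold Kb at hK; omega
    obtain ⟨SR, hSR⟩ : ∃ SR : Finset ℕ → ℤ, ∀ R, SR R =
      ∑ T ∈ (range n).filter (fun T => 3 ∣ T), (∏ p ∈ R, wp p n T) * loc 5 3 n T :=
      ⟨_, fun _ => rfl⟩
    have hWt : Wt P Z = - 2 * jacobiSym (-1) (pr P) * SR P := by
      have h1 := (c1 P Z hPZ hd hZ (by rw [← hn]; exact hn4)).1
      unfold Wt
      rw [h1, hSR, ← hn]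
      have e1 : ∑ T ∈ (range n).filter (fun T => 3 ∣ T), WW 5 3 P Z T =
          - jacobiSym (-1) (pr P) * ∑ T ∈ (range n).filter (fun T => 3 ∣ T),
            (∏ p ∈ P, wp p n T) * loc 5 3 n T := by
        rw [Finset.mul_sum]
        refine Finset.sum_congr rfl fun T hT => ?_
        rw [Finset.mem_filter, Finset.mem_range] at hT
        rcases Nat.eq_zero_or_pos T with h0 | h0
        · rw [h0, WW_zero, loc_zero]; ring
        · rw [(c2 P Z hPZ hd T h0 (by rw [← hn]; exact hT.1)).1 (by rw [← hn]; exact hK), ← hn]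
          ring
      rw [e1]
      ring
    have hopp : SR Z = - SR P := by
      rw [hSR, hSR, ← Finset.sum_neg_distrib]
      refine Finset.sum_congr rfl fun T hT => ?_
      rw [Finset.mem_filter, Finset.mem_range] at hT
      have h3 : ¬ 3 ∣ n := by unfold Kb at hK; omega
      have h6 := opp hd (u := 5) (v := 3) (n := n) (T := T) (fun D => fc_ne h3 (jac3 hK))
        (fun hT0 ho hne => ((hwp T hT0 hT.1).1 hK hne).1 ho)
      rw [h6]
      ring
    have hsq := (sq (P ∪ Z) hPZ).1 (by rw [hprU]; exact hK) β (by rw [hprU]; exact hβ)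
    rw [hprU] at hsq
    simp only [← hSR] at hsq
    refine ⟨fun hP => ?_, fun hP ha => ?_, fun hP hc => ?_⟩
    · have h7 := hsq ∅ (Finset.empty_subset _) (Or.inl rfl)
      have hnZ : n = pr Z := by
        rw [hn, hP]
        unfold Pool.Agent.Z700.pr
        simp
      have hpr1 : jacobiSym (-1) (pr P) = 1 := by
        rw [hP]
        unfold Pool.Agent.Z700.pr
        simp
      rw [if_pos rfl] at h7
      rw [hWt, hpr1, hP, ← hnZ, h7]
      ring
    · have h7 := hsq P Finset.subset_union_left (Or.inr (Or.inl ha))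
      rw [if_neg hP.ne_empty, add_zero] at h7
      have hpr1 : jacobiSym (-1) (pr P) = 1 := chi_one (by unfold Ka at ha; omega)
      rw [hWt, hpr1, h7]
      ring
    · have hdZ : Kd (pr Z) := cls1 hc (by rw [← hn]; exact hK)
      have h7 := hsq Z Finset.subset_union_right (Or.inr (Or.inr hdZ))
      rw [if_neg hZ.ne_empty, add_zero] at h7
      have hpr1 : jacobiSym (-1) (pr P) = 1 := chi_one (by unfold Kc at hc; omega)
      rw [hWt, hpr1, h7, hopp]
      ring
  · intro hK β hβ
    rw [hprU] at hK hβ ⊢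
    have hn4 : n % 4 = 3 := by unfold Kd at hK; omega
    obtain ⟨SR, hSR⟩ : ∃ SR : Finset ℕ → ℤ, ∀ R, SR R =
      ∑ T ∈ (range n).filter (fun T => 5 ∣ T), (∏ p ∈ R, wp p n T) * loc 3 5 n T :=
      ⟨_, fun _ => rfl⟩
    have hWt : Wt P Z = 2 * SR P := by
      have h1 := (c1 P Z hPZ hd hZ (by rw [← hn]; exact hn4)).2
      unfold Wt
      rw [h1, hSR, ← hn]
      have e1 : ∑ T ∈ (range n).filter (fun T => 5 ∣ T), WW 3 5 P Z T =
          - jacobiSym (-1) (pr P) * ∑ T ∈ (range n).filter (fun T => 5 ∣ T),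
            (∏ p ∈ P, wp p n T) * loc 3 5 n T := by
        rw [Finset.mul_sum]
        refine Finset.sum_congr rfl fun T hT => ?_
        rw [Finset.mem_filter, Finset.mem_range] at hT
        rcases Nat.eq_zero_or_pos T with h0 | h0
        · rw [h0, WW_zero, loc_zero]; ring
        · rw [(c2 P Z hPZ hd T h0 (by rw [← hn]; exact hT.1)).2 (by rw [← hn]; exact hK), ← hn]
          ring
      have e2 : jacobiSym (-1) (pr P) * jacobiSym (-1) (pr Z) = -1 := by
        have hPo : pr P ≠ 0 := by
          intro h0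
          rw [h0, zero_mul] at hn
          rw [hn] at hn4
          norm_num at hn4
        have hZo : pr Z ≠ 0 := by
          intro h0
          rw [h0, mul_zero] at hn
          rw [hn] at hn4
          norm_num at hn4
        have : NeZero (pr P) := ⟨hPo⟩
        have : NeZero (pr Z) := ⟨hZo⟩
        rw [← jacobiSym.mul_right, ← hn]
        exact chi_three hn4
      rw [e1]
      calc 2 * jacobiSym (-1) (pr Z) * (-jacobiSym (-1) (pr P) *
            ∑ T ∈ (range n).filter (fun T => 5 ∣ T), (∏ p ∈ P, wp p n T) * loc 3 5 n T)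
          = -2 * (jacobiSym (-1) (pr P) * jacobiSym (-1) (pr Z)) *
            ∑ T ∈ (range n).filter (fun T => 5 ∣ T), (∏ p ∈ P, wp p n T) * loc 3 5 n T := by
            ring
        _ = _ := by rw [e2]; ring
    have hopp : SR Z = - SR P := by
      rw [hSR, hSR, ← Finset.sum_neg_distrib]
      refine Finset.sum_congr rfl fun T hT => ?_
      rw [Finset.mem_filter, Finset.mem_range] at hT
      have h5 : ¬ 5 ∣ n := by unfold Kd at hK; omega
      have h6 := opp hd (u := 3) (v := 5) (n := n) (T := T) (fun D => fc_ne h5 (jac5 hK))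
        (fun hT0 ho hne => ((hwp T hT0 hT.1).2 hK hne).1 ho)
      rw [h6]
      ring
    have hsq := (sq (P ∪ Z) hPZ).2 (by rw [hprU]; exact hK) β (by rw [hprU]; exact hβ)
    rw [hprU] at hsq
    simp only [← hSR] at hsq
    refine ⟨fun hP => ?_, fun hP hc => ?_, fun hP ha => ?_⟩
    · have hnZ : n = pr Z := by
        rw [hn, hP]
        unfold Pool.Agent.Z700.pr
        simp
      have hPZe : P ∪ Z = Z := by rw [hP, Finset.empty_union]
      have h7 := hsq Z Finset.subset_union_right (Or.inr (by rw [← hnZ]; exact hK))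
      rw [if_pos hPZe.symm, hdiff2, hP] at h7
      rw [hWt, hP, ← hnZ]
      linarith
    · have h7 := hsq P Finset.subset_union_left (Or.inl hc)
      have hne : ¬ P = P ∪ Z := by
        intro h
        have h8 : Z ⊆ P := by rw [h]; exact Finset.subset_union_right
        obtain ⟨z, hz⟩ := hZ
        exact Finset.disjoint_left.1 hd (h8 hz) hz
      rw [if_neg hne, hdiff1, hopp] at h7
      rw [hWt]
      linarith
    · have hdZ : Kd (pr Z) := cls2 ha (by rw [← hn]; exact hK)
      have h7 := hsq Z Finset.subset_union_right (Or.inr hdZ)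
      have hne : ¬ Z = P ∪ Z := by
        intro h
        have h8 : P ⊆ Z := by rw [h]; exact Finset.subset_union_left
        obtain ⟨z, hz⟩ := hP
        exact Finset.disjoint_left.1 hd hz (h8 hz)
      rw [if_neg hne, hdiff2] at h7
      rw [hWt]
      linarith

end Pool.Agent.XV
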