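import Pool.Agent.XV.Defs2
import Pool.Agent.Y687.N.Char

/-!
# Project XV, job XV-20: the final formulas
-/

set_option autoImplicit false
set_option linter.style.haveILetI false

namespace Pool.Agent.XV

open Finset
open Pool.Agent.Z700 (V3 pr un hh)
open Pool.Agent.Y687 (SS saw ded psi)
open Pool.Agent.Y687.N (HH char_ded)

noncomputable section

namespace EF

theorem pr_pos {P : Finset ℕ} (hP : Pq P) : 0 < pr P :=
  Finset.prod_pos fun p hp => (hP p hp).1.pos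

theorem pr_union {P Z : Finset ℕ} (h : Disjoint P Z) : pr (P ∪ Z) = pr P * pr Z :=
  Finset.prod_union h

theorem Pq_left {P Z : Finset ℕ} (h : Pq (P ∪ Z)) : Pq P := fun p hp => h p (mem_union_left _ hp)

theorem Pq_right {P Z : Finset ℕ} (h : Pq (P ∪ Z)) : Pq Z := fun p hp => h p (mem_union_right _ hp)

theorem pr_sqf {P : Finset ℕ} (hP : Pq P) : Squarefree (pr P) := by
  unfold Pool.Agent.Z700.pr
  refine Finset.squarefree_prod_of_pairwise_isCoprime ?_ fun p hp => (hP p hp).1.prime.squarefree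
  intro p hp q hq hpq
  exact Nat.coprime_iff_isRelPrime.1 ((Nat.coprime_primes (hP p hp).1 (hP q hq).1).2 hpq)

theorem cop15 {P : Finset ℕ} (hP : Pq P) : Nat.Coprime 15 (pr P) := by
  unfold Pool.Agent.Z700.pr
  refine Nat.Coprime.prod_right fun p hp => ?_
  obtain ⟨h1, h2, h3, h5⟩ := hP p hp
  have e1 : Nat.Coprime 3 p := (Nat.coprime_primes Nat.prime_three h1).2 (Ne.symm h3)
  have e2 : Nat.Coprime 5 p := (Nat.coprime_primes Nat.prime_five h1).2 (Ne.symm h5)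
  have := e1.mul_left e2
  simpa using this

theorem odd_pr {P : Finset ℕ} (hP : Pq P) : Odd (pr P) := by
  unfold Pool.Agent.Z700.pr
  refine Finset.prod_induction _ Odd (fun _ _ => Odd.mul) odd_one fun p hp => ?_
  exact (hP p hp).1.odd_of_ne_two (hP p hp).2.1

theorem cop_un {P : Finset ℕ} (hP : Pq P) {u : ℕ} (hu : u ∈ un (pr P)) :
    IsCoprime (15 * (u : ℤ)) ((pr P : ℕ) : ℤ) := by
  unfold Pool.Agent.Z700.un at hu
  rw [mem_filter] at hu
  have h1 : Nat.Coprime (15 * u) (pr P) := Nat.Coprime.mul_left (cop15 hP) hu.2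
  exact_mod_cast (Nat.isCoprime_iff_coprime.2 h1)

theorem SS_un (s : ℚ → ℤ) (P : Finset ℕ) : SS s (pr P) (pr P) =
    ∑ u ∈ un (pr P), jacobiSym (u : ℤ) (pr P) * s ((u : ℚ) / (pr P : ℕ)) := rfl

/-- sums over the units and over all residues -/
theorem sum_un {n : ℕ} (hn : n ≠ 0) (f : ℕ → ℚ) :
    ∑ u ∈ un n, (jacobiSym (u : ℤ) n : ℚ) * f u = ∑ u ∈ range n, (jacobiSym (u : ℤ) n : ℚ) * f u := by
  unfold Pool.Agent.Z700.un
  rw [sum_filter]
  refine sum_congr rfl fun u _ => ?_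
  split_ifs with h
  · rfl
  · rw [Pool.Agent.Y687.N.jac_zero hn h]
    simp

theorem char_psi {n : ℕ} (hn : Odd n) (hs : Squarefree n) (d : ℤ) :
    ∑ u ∈ un n, (jacobiSym (u : ℤ) n : ℚ) * psi (d * u) n = 12 * (jacobiSym d n * HH n ^ 2) := by
  have hn0 : n ≠ 0 := hs.ne_zero
  rw [sum_un hn0 (fun u => psi (d * u) n), ← char_ded hn hs d, mul_sum]
  refine sum_congr rfl fun u _ => ?_
  unfold Pool.Agent.Y687.psi
  have h1 : ((n : ℤ).sign : ℚ) = 1 := by
    rw [Int.sign_natCast_of_ne_zero hn0]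
    norm_num
  rw [h1, Int.natAbs_natCast]
  ring

theorem char_saw {n : ℕ} (hs : Squarefree n) :
    ∑ u ∈ un n, (jacobiSym (u : ℤ) n : ℚ) * saw n u = HH n :=
  sum_un hs.ne_zero (fun u => saw n u)

/-- the sum of the Dedekind symbols -/
theorem char_EM {n : ℕ} (hn : Odd n) (hs : Squarefree n) :
    ∑ u ∈ un n, (jacobiSym (u : ℤ) n : ℚ) * EM u n =
      (1 / 8) * (1 - 7 * jacobiSym 3 n + 7 * jacobiSym 5 n - jacobiSym 15 n) * HH n ^ 2 := by
  have h1 := char_psi hn hs 1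
  have h3 := char_psi hn hs 3
  have h5 := char_psi hn hs 5
  have h15 := char_psi hn hs 15
  have e : ∑ u ∈ un n, (jacobiSym (u : ℤ) n : ℚ) * EM u n =
      (1 / 96) * (∑ u ∈ un n, (jacobiSym (u : ℤ) n : ℚ) * psi (1 * u) n
        - 7 * ∑ u ∈ un n, (jacobiSym (u : ℤ) n : ℚ) * psi (3 * u) n
        + 7 * ∑ u ∈ un n, (jacobiSym (u : ℤ) n : ℚ) * psi (5 * u) n
        - ∑ u ∈ un n, (jacobiSym (u : ℤ) n : ℚ) * psi (15 * u) n) := by
    rw [mul_sum, mul_sum, ← sum_sub_distrib, ← sum_add_distrib, ← sum_sub_distrib, mul_sum]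
    refine sum_congr rfl fun u _ => ?_
    unfold EM
    rw [one_mul]
    ring
  rw [e, h1, h3, h5, h15, jacobiSym.one_left]
  push_cast
  ring

/-- the relation with the Dedekind symbol -/
theorem rel0 (fe : S_FE) {s : ℚ → ℤ} {a : ℕ → ℤ} (hs : SyM s a) {Z : Finset ℕ} (hZ : Pq Z) :
    4 * (s (1 / 4) : ℚ) * ((Wt ∅ Z : ℚ) -
      ∑ u ∈ un (pr Z), (jacobiSym (u : ℤ) (pr Z) : ℚ) * EM u (pr Z)) =
      -(SS s (pr Z) (pr Z) : ℚ) := by
  rw [SS_un]
  unfold Wt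
  push_cast
  rw [← sum_sub_distrib, mul_sum, ← sum_neg_distrib]
  refine sum_congr rfl fun u hu => ?_
  have h := fe s a hs u (pr Z) (by exact_mod_cast pr_pos hZ) (cop_un hZ hu)
  push_cast at h
  linear_combination (jacobiSym (u : ℤ) (pr Z) : ℚ) * h

/-- the relation with the symbol -/
theorem rel1 (uod : S_UODQ) (parb : S_PARB) (coc : S_COC) (pari : S_PARI) (cm : S_CM)
    {s : ℚ → ℤ} {a : ℕ → ℤ} (hs : SyM s a) {P Z : Finset ℕ} (hP : Pq P) (hPn : P.Nonempty)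
    (hP4 : pr P % 4 = 1) (hZ : Pq Z) :
    Wt P Z * s (1 / 4) = SS s (pr Z) (pr Z) * Fx P 1 4 := by
  obtain ⟨c1, c2, c3⟩ := cm s a hs
  have hj : jacobiSym (-1) (pr P) = 1 := by
    rw [jacobiSym.at_neg_one (odd_pr hP)]
    exact ZMod.χ₄_nat_one_mod_four hP4
  have hod : ∀ x M : ℤ, Fx P (-x) M = -Fx P x M := by
    intro x M
    rw [pari P hP x M, hj]
    ring
  rw [SS_un, sum_mul]
  unfold Wt
  rw [sum_mul]
  refine sum_congr rfl fun u hu => ?_
  have e3 : s (((5 : ℤ) : ℚ) / ((16 : ℤ) : ℚ)) = 0 := by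
    rw [← c3]
    norm_num
  have h := uod_of uod (Fx P) (fun x M => s ((x : ℚ) / M)) (coc P hP) c1 hod c2
    (parb P hP hPn hP4) e3 u (pr Z) (by exact_mod_cast pr_pos hZ) (cop_un hZ hu)
  have e1 : s (((1 : ℤ) : ℚ) / ((4 : ℤ) : ℚ)) = s (1 / 4) := by norm_num
  rw [e1] at h
  push_cast at h
  linear_combination jacobiSym (u : ℤ) (pr Z) * h

theorem mod4_of {n : ℕ} (h : Ka n ∨ Kc n) : n % 4 = 1 := by
  unfold Ka Kc at h
  omega

theorem ne_of_class {Z : Finset ℕ} (h : Kb (pr Z) ∨ Kd (pr Z)) : Z.Nonempty := by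
  rw [nonempty_iff_ne_empty]
  rintro rfl
  have h1 : pr (∅ : Finset ℕ) = 1 := rfl
  rw [h1] at h
  revert h
  decide

theorem j3 {n : ℕ} (h4 : n % 4 = 3) : jacobiSym 3 n = -jacobiSym n 3 := by
  have h := jacobiSym.quadratic_reciprocity_three_mod_four (a := 3) (b := n) (by norm_num) h4
  exact_mod_cast h

theorem j5 {n : ℕ} (hn : Odd n) : jacobiSym 5 n = jacobiSym n 5 := by
  have h := jacobiSym.quadratic_reciprocity_one_mod_four (a := 5) (b := n) (by norm_num) hn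
  exact_mod_cast h

theorem jm3 (n r : ℕ) (h : n % 3 = r % 3) : jacobiSym n 3 = jacobiSym r 3 :=
  jacobiSym.mod_left' (by exact_mod_cast h)

theorem jm5 (n r : ℕ) (h : n % 5 = r % 5) : jacobiSym n 5 = jacobiSym r 5 :=
  jacobiSym.mod_left' (by exact_mod_cast h)

theorem jb {n : ℕ} (h : Kb n) : jacobiSym 3 n = 1 ∧ jacobiSym 5 n = -1 ∧ jacobiSym 15 n = -1 := by
  unfold Kb at h
  have h3 : jacobiSym 3 n = 1 := by
    rw [j3 (by omega), jm3 n 2 (by omega)]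
    norm_num
  have h5 : jacobiSym 5 n = -1 := by
    rw [j5 (Nat.odd_iff.2 (by omega))]
    rcases h with h | h
    · rw [jm5 n 3 (by omega)]
      norm_num
    · rw [jm5 n 2 (by omega)]
      norm_num
  refine ⟨h3, h5, ?_⟩
  have : (15 : ℤ) = 3 * 5 := by norm_num
  rw [this, jacobiSym.mul_left, h3, h5]
  norm_num

theorem jd {n : ℕ} (h : Kd n) : jacobiSym 3 n = -1 ∧ jacobiSym 5 n = 1 ∧ jacobiSym 15 n = -1 := by
  unfold Kd at h
  have h3 : jacobiSym 3 n = -1 := by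
    rw [j3 (by omega), jm3 n 1 (by omega)]
    norm_num
  have h5 : jacobiSym 5 n = 1 := by
    rw [j5 (Nat.odd_iff.2 (by omega))]
    rcases h with h | h
    · rw [jm5 n 4 (by omega)]
      norm_num
    · rw [jm5 n 1 (by omega)]
      norm_num
  refine ⟨h3, h5, ?_⟩
  have : (15 : ℤ) = 3 * 5 := by norm_num
  rw [this, jacobiSym.mul_left, h3, h5]
  norm_num

theorem mod60 {m n : ℕ} (a b : ℕ) (h1 : m % 60 = a) (h2 : n % 60 = b) :
    m * n % 60 = a * b % 60 := by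
  rw [Nat.mul_mod, h1, h2]

theorem Kab {m n : ℕ} (h1 : Ka m) (h2 : Kb n) : Kb (m * n) := by
  unfold Ka at h1
  unfold Kb at h2 ⊢
  rcases h1 with h1 | h1 <;> rcases h2 with h2 | h2 <;> rw [mod60 _ _ h1 h2] <;> decide

theorem Kcb {m n : ℕ} (h1 : Kc m) (h2 : Kb n) : Kd (m * n) := by
  unfold Kc at h1
  unfold Kb at h2
  unfold Kd
  rcases h1 with h1 | h1 <;> rcases h2 with h2 | h2 <;> rw [mod60 _ _ h1 h2] <;> decide

theorem Kad {m n : ℕ} (h1 : Ka m) (h2 : Kd n) : Kd (m * n) := by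
  unfold Ka at h1
  unfold Kd at h2 ⊢
  rcases h1 with h1 | h1 <;> rcases h2 with h2 | h2 <;> rw [mod60 _ _ h1 h2] <;> decide

theorem Kcd {m n : ℕ} (h1 : Kc m) (h2 : Kd n) : Kb (m * n) := by
  unfold Kc at h1
  unfold Kd at h2
  unfold Kb
  rcases h1 with h1 | h1 <;> rcases h2 with h2 | h2 <;> rw [mod60 _ _ h1 h2] <;> decide

end EF

open EF

/-- E56: the values of the class `b` and of the class `d` -/
theorem t_E56 (dia : S_DIA) (fe : S_FE) (cls : S_CLS) (_cm : S_CM) : S_E56 := by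
  intro s a hs Z hZ
  have hodd := odd_pr hZ
  have hsq := pr_sqf hZ
  have hr := rel0 fe hs hZ
  rw [char_EM hodd hsq] at hr
  have hZ' : Pq (∅ ∪ Z) := by rwa [empty_union]
  refine ⟨fun hb β hβ => ?_, fun hd β hβ => ?_⟩
  · have hne := ne_of_class (Or.inl hb)
    have h1 := ((dia ∅ Z hZ' (disjoint_empty_left _) hne).1 (by rwa [empty_union]) β
      (by rwa [empty_union])).1 rfl
    rw [(jb hb).1, (jb hb).2.1, (jb hb).2.2] at hr
    have h2 := (cls Z hZ).1 hb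
    have h3 := char_saw hsq
    rw [h3] at h2
    have h1' : 72 * (Wt ∅ Z : ℚ) = -((S5 ∅ (pr Z) β : ℚ) ^ 2 +
        3 * ((vec 5 (pr Z : ℤ)).card : ℚ) ^ 2) := by exact_mod_cast h1
    rw [h2] at h1'
    have key : ((S5 ∅ (pr Z) β : ℚ)) ^ 2 * (s (1 / 4) : ℚ) = 18 * (SS s (pr Z) (pr Z) : ℚ) := by
      push_cast at hr
      linear_combination (s (1 / 4) : ℚ) * h1' - 18 * hr
    exact_mod_cast key
  · have hne := ne_of_class (Or.inr hd)
    have h1 := ((dia ∅ Z hZ' (disjoint_empty_left _) hne).2 (by rwa [empty_union]) β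
      (by rwa [empty_union])).1 rfl
    rw [(jd hd).1, (jd hd).2.1, (jd hd).2.2] at hr
    have h2 := (cls Z hZ).2 hd
    have h3 := char_saw hsq
    rw [h3] at h2
    have h1' : 72 * (Wt ∅ Z : ℚ) = ((vec 3 (pr Z : ℤ)).card : ℚ) ^ 2 -
        36 * (A 3 Z (pr Z) β : ℚ) ^ 2 := by exact_mod_cast h1
    rw [h2] at h1'
    have key : 2 * ((A 3 Z (pr Z) β : ℚ)) ^ 2 * (s (1 / 4) : ℚ) = (SS s (pr Z) (pr Z) : ℚ) := by
      push_cast at hr
      linear_combination ((s (1 / 4) : ℚ) / 18) * h1' - hr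
    exact_mod_cast key

/-- E14: the formulas for two sets -/
theorem t_E14 (dia : S_DIA) (e56 : S_E56) (uod : S_UODQ) (parb : S_PARB) (coc : S_COC)
    (pari : S_PARI) (cm : S_CM) (sy : ∃ (s : ℚ → ℤ) (a : ℕ → ℤ), SyM s a ∧ s (1 / 4) ≠ 0) :
    S_E14 := by
  intro P Z hPZ hd hPn hZn
  obtain ⟨s, a, hs, hs4⟩ := sy
  have hP := Pq_left hPZ
  have hZ := Pq_right hPZ
  have hdia := dia P Z hPZ hd hZn
  obtain ⟨e5, e3⟩ := e56 s a hs Z hZ
  have hu := pr_union hd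
  refine ⟨fun ha hb β β' hβ hβ' => ?_, fun hc hb β β' hβ hβ' => ?_,
    fun ha hd' β β' hβ hβ' => ?_, fun hc hd' β β' hβ hβ' => ?_⟩
  · have h1 := (hdia.1 (by rw [hu]; exact Kab ha hb) β hβ).2.1 hPn ha
    have h2 := rel1 uod parb coc pari cm hs hP hPn (mod4_of (Or.inl ha)) hZ
    have h3 := e5 hb β' hβ'
    refine mul_right_cancel₀ hs4 ?_
    linear_combination s (1 / 4) * h1 - 72 * h2 + 4 * Fx P 1 4 * h3
  · have h1 := (hdia.2 (by rw [hu]; exact Kcb hc hb) β hβ).2.1 hPn hc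
    have h2 := rel1 uod parb coc pari cm hs hP hPn (mod4_of (Or.inr hc)) hZ
    have h3 := e5 hb β' hβ'
    refine mul_right_cancel₀ hs4 ?_
    linear_combination (-9 * s (1 / 4)) * h1 + 18 * h2 - Fx P 1 4 * h3
  · have h1 := (hdia.2 (by rw [hu]; exact Kad ha hd') β hβ).2.2 hPn ha
    have h2 := rel1 uod parb coc pari cm hs hP hPn (mod4_of (Or.inl ha)) hZ
    have h3 := e3 hd' β' hβ'
    refine mul_right_cancel₀ hs4 ?_
    linear_combination s (1 / 4) * h1 - 2 * h2 + 2 * Fx P 1 4 * h3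
  · have h1 := (hdia.1 (by rw [hu]; exact Kcd hc hd') β hβ).2.2 hPn hc
    have h2 := rel1 uod parb coc pari cm hs hP hPn (mod4_of (Or.inr hc)) hZ
    have h3 := e3 hd' β' hβ'
    refine mul_right_cancel₀ hs4 ?_
    linear_combination (-s (1 / 4)) * h1 + 72 * h2 - 72 * Fx P 1 4 * h3

end

end Pool.Agent.XV
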