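import Pool.Agent.XV.MainA

/-!
# XV-17: the structure theorem
-/

set_option autoImplicit false

namespace Pool.Agent.XV.Mn

open Finset
open Pool.Agent.Z700 (V3 pr un hh)
open Pool.Agent.NH1 (lz rd)

/-! ### divisibility of the terms -/

theorem dvd_of_sq {m : ℕ} {x : ℤ} (h : (4 : ℤ) ^ m ∣ x ^ 2) : (2 : ℤ) ^ m ∣ x := by
  have h1 : ((2 : ℤ) ^ m) ^ 2 = 4 ^ m := by
    rw [← pow_mul, mul_comm, pow_mul]
    norm_num
  rw [← h1] at h
  exact (Int.pow_dvd_pow_iff two_ne_zero).1 h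

theorem sq_dvd {m : ℕ} {x : ℤ} (h : (2 : ℤ) ^ m ∣ x) : (4 : ℤ) ^ m ∣ x ^ 2 := by
  have h1 : ((2 : ℤ) ^ m) ^ 2 = 4 ^ m := by
    rw [← pow_mul, mul_comm, pow_mul]
    norm_num
  rw [← h1]
  exact pow_dvd_pow_of_dvd h 2

/-- class `a` in class `b` -/
theorem t_a (hE : S_E14) {N Q : Finset ℕ} (hN : Pq N) (hQ : Q ⊆ N) (h0 : Q.Nonempty)
    (ha : Ka (pr Q)) (hb : Kb (pr (N \ Q))) {k l : ℕ} (hF : (4 : ℤ) ^ k ∣ Fx Q 1 4)
    (hB : ∀ β : ℤ, (3 : ℤ) ∣ β ^ 2 + pr (N \ Q) → (2 : ℤ) ^ l ∣ S5 ∅ (pr (N \ Q)) β)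
    {β : ℤ} (hβ : (3 : ℤ) ∣ β ^ 2 + pr N) : (2 : ℤ) ^ (k + l + 1) ∣ S5 Q (pr N) β := by
  obtain ⟨β', hβ'⟩ := ex_b hb
  have hu : Q ∪ (N \ Q) = N := Finset.union_sdiff_of_subset hQ
  have h1 := (hE Q (N \ Q) (by rw [hu]; exact hN) Finset.disjoint_sdiff h0 (ne_of_b hb)).1 ha hb
    β β' (by rw [hu]; exact hβ) hβ'
  rw [hu] at h1
  apply dvd_of_sq
  rw [h1]
  obtain ⟨x, hx⟩ := hF
  obtain ⟨y, hy⟩ := sq_dvd (hB β' hβ')
  rw [hx, hy]
  exact ⟨-(x * y), by ring⟩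

/-- class `d` in class `b` -/
theorem t_d5 (hE : S_E14) {N Q : Finset ℕ} (hN : Pq N) (hQ : Q ⊆ N)
    (hd : Kd (pr Q)) (hc : Kc (pr (N \ Q))) {k l : ℕ} (hF : (4 : ℤ) ^ k ∣ Fx (N \ Q) 1 4)
    (hD : ∀ β : ℤ, (5 : ℤ) ∣ β ^ 2 + pr Q → (2 : ℤ) ^ l ∣ A 3 Q (pr Q) β)
    {β : ℤ} (hβ : (3 : ℤ) ∣ β ^ 2 + pr N) : (2 : ℤ) ^ (k + l + 2) ∣ S5 Q (pr N) β := by
  obtain ⟨β', hβ'⟩ := ex_d hd
  have hu : (N \ Q) ∪ Q = N := Finset.sdiff_union_of_subset hQ
  have h1 := (hE (N \ Q) Q (by rw [hu]; exact hN) Finset.sdiff_disjoint (ne_of_c hc)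
    (ne_of_d hd)).2.2.2 hc hd β β' (by rw [hu]; exact hβ) hβ'
  rw [hu] at h1
  apply dvd_of_sq
  rw [h1]
  obtain ⟨x, hx⟩ := hF
  obtain ⟨y, hy⟩ := sq_dvd (hD β' hβ')
  rw [hx, hy]
  exact ⟨9 * (x * y), by ring⟩

/-- class `c` in class `d` -/
theorem t_c (hE : S_E14) {N Q : Finset ℕ} (hN : Pq N) (hQ : Q ⊆ N)
    (hc : Kc (pr Q)) (hb : Kb (pr (N \ Q))) {k l : ℕ} (hF : (4 : ℤ) ^ k ∣ Fx Q 1 4)
    (hB : ∀ β : ℤ, (3 : ℤ) ∣ β ^ 2 + pr (N \ Q) → (2 : ℤ) ^ l ∣ S5 ∅ (pr (N \ Q)) β)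
    {β : ℤ} (hβ : (5 : ℤ) ∣ β ^ 2 + pr N) : (2 : ℤ) ^ (k + l) ∣ A 3 Q (pr N) β := by
  obtain ⟨β', hβ'⟩ := ex_b hb
  have hu : Q ∪ (N \ Q) = N := Finset.union_sdiff_of_subset hQ
  have h1 := (hE Q (N \ Q) (by rw [hu]; exact hN) Finset.disjoint_sdiff (ne_of_c hc)
    (ne_of_b hb)).2.1 hc hb β β' (by rw [hu]; exact hβ) hβ'
  rw [hu] at h1
  have h2 : (4 : ℤ) ^ (k + l) ∣ (3 * A 3 Q (pr N) β) ^ 2 := by
    rw [mul_pow, show (3 : ℤ) ^ 2 = 9 by norm_num, h1]
    obtain ⟨x, hx⟩ := hF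
    obtain ⟨y, hy⟩ := sq_dvd (hB β' hβ')
    rw [hx, hy]
    exact ⟨x * y, by ring⟩
  have h3 := dvd_of_sq h2
  have h4 : IsCoprime ((2 : ℤ) ^ (k + l)) 3 := IsCoprime.pow_left ⟨-1, 1, by norm_num⟩
  exact h4.dvd_of_dvd_mul_left h3

/-- class `d` in class `d` -/
theorem t_d3 (hE : S_E14) {N Q : Finset ℕ} (hN : Pq N) (hQ : Q ⊆ N) (h0 : (N \ Q).Nonempty)
    (hd : Kd (pr Q)) (ha : Ka (pr (N \ Q))) {k l : ℕ} (hF : (4 : ℤ) ^ k ∣ Fx (N \ Q) 1 4)
    (hD : ∀ β : ℤ, (5 : ℤ) ∣ β ^ 2 + pr Q → (2 : ℤ) ^ l ∣ A 3 Q (pr Q) β)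
    {β : ℤ} (hβ : (5 : ℤ) ∣ β ^ 2 + pr N) : (2 : ℤ) ^ (k + l + 1) ∣ A 3 Q (pr N) β := by
  obtain ⟨β', hβ'⟩ := ex_d hd
  have hu : (N \ Q) ∪ Q = N := Finset.sdiff_union_of_subset hQ
  have h1 := (hE (N \ Q) Q (by rw [hu]; exact hN) Finset.sdiff_disjoint h0
    (ne_of_d hd)).2.2.1 ha hd β β' (by rw [hu]; exact hβ) hβ'
  rw [hu] at h1
  apply dvd_of_sq
  rw [h1]
  obtain ⟨x, hx⟩ := hF
  obtain ⟨y, hy⟩ := sq_dvd (hD β' hβ')
  rw [hx, hy]
  exact ⟨-(x * y), by ring⟩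

/-! ### the claims -/

/-- the claim for `Fx` -/
def CF (n : ℕ) : Prop := ∀ P : Finset ℕ, Pq P → P.card = n → P.Nonempty →
  (Ka (pr P) ∨ Kc (pr P)) → (4 : ℤ) ^ n ∣ Fx P 1 4

/-- the claim for the class `b` -/
def CB (n : ℕ) : Prop := ∀ N : Finset ℕ, Pq N → N.card = n → Kb (pr N) → ∀ β : ℤ,
  (3 : ℤ) ∣ β ^ 2 + pr N → (2 : ℤ) ^ (n + 1) ∣ S5 ∅ (pr N) β + (vec 5 (pr N : ℤ)).card

/-- the claim for the class `d` -/
def CD (n : ℕ) : Prop := ∀ N : Finset ℕ, Pq N → N.card = n → Kd (pr N) → ∀ β : ℤ,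
  (5 : ℤ) ∣ β ^ 2 + pr N → (2 : ℤ) ^ n ∣ A 3 N (pr N) β

theorem CB.dvd (v5 : S_V5) {n : ℕ} (h : CB n) {N : Finset ℕ} (hN : Pq N) (hn : N.card = n)
    (hb : Kb (pr N)) (β : ℤ) (hβ : (3 : ℤ) ∣ β ^ 2 + pr N) : (2 : ℤ) ^ n ∣ S5 ∅ (pr N) β := by
  obtain ⟨k, hk⟩ := h N hN hn hb β hβ
  obtain ⟨T, hT, -⟩ := v5 N hN hb
  rw [hn] at hT
  rw [hT] at hk
  refine ⟨2 * k - T, ?_⟩
  rw [mul_sub, ← mul_assoc, ← pow_succ, ← hk]
  ring

/-- good sets in class `b`: all terms of the right size are divisible -/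
theorem good5 (hE : S_E14) (h5 : S_VAN5) {N Q : Finset ℕ} (hN : Pq N)
    (hb : Kb (pr N)) {β : ℤ} (hβ : (3 : ℤ) ∣ β ^ 2 + pr N) (hQ : Q ⊆ N) (h0 : Q.Nonempty)
    (hFa : Ka (pr Q) → (4 : ℤ) ^ Q.card ∣ Fx Q 1 4)
    (hFc : Kc (pr (N \ Q)) → (4 : ℤ) ^ (N \ Q).card ∣ Fx (N \ Q) 1 4)
    (hB : Kb (pr (N \ Q)) → ∀ β : ℤ, (3 : ℤ) ∣ β ^ 2 + pr (N \ Q) →
      (2 : ℤ) ^ (N \ Q).card ∣ S5 ∅ (pr (N \ Q)) β)
    (hD : Kd (pr Q) → ∀ β : ℤ, (5 : ℤ) ∣ β ^ 2 + pr Q → (2 : ℤ) ^ Q.card ∣ A 3 Q (pr Q) β) :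
    (2 : ℤ) ^ (N.card + 1) ∣ S5 Q (pr N) β := by
  have hs := pr_split hQ
  have hc := card_split hQ
  by_cases ha : Ka (pr Q)
  · have hb' : Kb (pr (N \ Q)) := q_ab ha (by rw [hs]; exact hb)
    have := t_a hE hN hQ h0 ha hb' (hFa ha) (hB hb') hβ
    rwa [hc] at this
  · by_cases hd : Kd (pr Q)
    · have hc' : Kc (pr (N \ Q)) := q_db hd (by rw [hs]; exact hb)
      have := t_d5 hE hN hQ hd hc' (hFc hc') (hD hd) hβ
      rw [add_comm (N \ Q).card, hc] at this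
      exact (pow_dvd_pow _ (by omega)).trans this
    · rw [S5_ne h0, h5 N hN hb β hβ Q hQ h0 ha hd, mul_zero]
      exact dvd_zero _

/-- good sets in class `d` -/
theorem good3 (hE : S_E14) (h3 : S_VAN3) {N Q : Finset ℕ} (hN : Pq N)
    (hd : Kd (pr N)) {β : ℤ} (hβ : (5 : ℤ) ∣ β ^ 2 + pr N) (hQ : Q ⊆ N) (h0 : Q.Nonempty)
    (h1 : (N \ Q).Nonempty)
    (hFc : Kc (pr Q) → (4 : ℤ) ^ Q.card ∣ Fx Q 1 4)
    (hFa : Ka (pr (N \ Q)) → (4 : ℤ) ^ ((N \ Q).card - 1) ∣ Fx (N \ Q) 1 4)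
    (hB : Kb (pr (N \ Q)) → ∀ β : ℤ, (3 : ℤ) ∣ β ^ 2 + pr (N \ Q) →
      (2 : ℤ) ^ (N \ Q).card ∣ S5 ∅ (pr (N \ Q)) β)
    (hD : Kd (pr Q) → ∀ β : ℤ, (5 : ℤ) ∣ β ^ 2 + pr Q → (2 : ℤ) ^ Q.card ∣ A 3 Q (pr Q) β) :
    (2 : ℤ) ^ N.card ∣ A 3 Q (pr N) β := by
  have hs := pr_split hQ
  have hc := card_split hQ
  have h2 : 0 < (N \ Q).card := Finset.card_pos.2 h1
  by_cases hcc : Kc (pr Q)
  · have hb' : Kb (pr (N \ Q)) := q_cd hcc (by rw [hs]; exact hd)
    have := t_c hE hN hQ hcc hb' (hFc hcc) (hB hb') hβ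
    rwa [hc] at this
  · by_cases hdd : Kd (pr Q)
    · have ha' : Ka (pr (N \ Q)) := q_dd hdd (by rw [hs]; exact hd)
      have := t_d3 hE hN hQ h1 hdd ha' (hFa ha') (hD hdd) hβ
      rwa [show (N \ Q).card - 1 + Q.card + 1 = N.card by omega] at this
    · rw [h3 N hN hd β hβ Q hQ h0 hcc hdd]
      exact dvd_zero _

theorem sdiff_ne {N Q : Finset ℕ} (hQ : Q ⊆ N) (h : Q ≠ N) : (N \ Q).Nonempty :=
  Finset.sdiff_nonempty.2 fun h' => h (Finset.Subset.antisymm hQ h')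

/-- step for the class `b` -/
theorem step_B (hE : S_E14) (h5 : S_VAN5) (v5 : S_V5) (hph : S_PHI) {n : ℕ}
    (ih : ∀ k < n, CF k ∧ CB k ∧ CD k) : CB n := by
  intro N hN hn hb β hβ
  have h1 := total5 hph hN β
  rw [← Finset.add_sum_erase _ _ (Finset.empty_mem_powerset N)] at h1
  have h2 : (2 : ℤ) ^ (n + 1) ∣ ∑ P ∈ N.powerset.erase ∅, S5 P (pr N) β := by
    refine Finset.dvd_sum fun Q hQ => ?_
    rw [mem_erase, mem_powerset] at hQ
    have h0 : Q.Nonempty := Finset.nonempty_iff_ne_empty.2 hQ.1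
    have hc := card_split hQ.2
    have hq0 := Finset.card_pos.2 h0
    by_cases hQN : Q = N
    · subst hQN
      have ha : ¬ Ka (pr Q) := fun h => nab h hb
      have hd : ¬ Kd (pr Q) := fun h => nbd hb h
      rw [S5_ne h0, h5 Q hN hb β hβ Q hQ.2 h0 ha hd, mul_zero]
      exact dvd_zero _
    · have h1' := sdiff_ne hQ.2 hQN
      have hq1 := Finset.card_pos.2 h1'
      rw [← hn]
      exact good5 hE h5 hN hb hβ hQ.2 h0
        (fun ha => (ih Q.card (by omega)).1 Q (Pq_sub hN hQ.2) rfl h0 (Or.inl ha))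
        (fun hc' => (ih (N \ Q).card (by omega)).1 (N \ Q) (Pq_sub hN Finset.sdiff_subset) rfl h1'
          (Or.inr hc'))
        (fun hb' => (ih (N \ Q).card (by omega)).2.1.dvd v5 (Pq_sub hN Finset.sdiff_subset) rfl hb')
        (fun hd => (ih Q.card (by omega)).2.2 Q (Pq_sub hN hQ.2) rfl hd)
  obtain ⟨k, hk⟩ := h2
  rw [hk, hn] at h1
  refine ⟨2 * AC 5 N β (fun _ => 1) - k, ?_⟩
  have : S5 ∅ (pr N) β + (vec 5 (pr N : ℤ)).card =
      2 ^ (n + 2) * AC 5 N β (fun _ => 1) - 2 ^ (n + 1) * k := by linarith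
  rw [this]
  ring

/-- step for the class `d` -/
theorem step_D (hE : S_E14) (h3 : S_VAN3) (v5 : S_V5) (v3 : S_V3) (q3 : S_EQ3) (hph : S_PHI)
    {n : ℕ} (ih : ∀ k < n, CF k ∧ CB k ∧ CD k) : CD n := by
  intro N hN hn hd β hβ
  have h1 := total hph (Or.inl rfl) hN β
  have hN0 : N.Nonempty := ne_of_d hd
  have hmem : N ∈ N.powerset.erase ∅ := by
    rw [mem_erase, mem_powerset]
    exact ⟨Finset.nonempty_iff_ne_empty.1 hN0, Finset.Subset.refl _⟩
  rw [← Finset.add_sum_erase _ _ (Finset.empty_mem_powerset N),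
    ← Finset.add_sum_erase _ _ hmem] at h1
  have h2 : (2 : ℤ) ^ n ∣ ∑ P ∈ (N.powerset.erase ∅).erase N, A 3 P (pr N) β := by
    refine Finset.dvd_sum fun Q hQ => ?_
    rw [mem_erase, mem_erase, mem_powerset] at hQ
    have h0 : Q.Nonempty := Finset.nonempty_iff_ne_empty.2 hQ.2.1
    have hc := card_split hQ.2.2
    have hq0 := Finset.card_pos.2 h0
    have h1' := sdiff_ne hQ.2.2 hQ.1
    have hq1 := Finset.card_pos.2 h1'
    rw [← hn]
    exact good3 hE h3 hN hd hβ hQ.2.2 h0 h1'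
      (fun hc' => (ih Q.card (by omega)).1 Q (Pq_sub hN hQ.2.2) rfl h0 (Or.inr hc'))
      (fun ha' => (pow_dvd_pow _ (by omega)).trans ((ih (N \ Q).card (by omega)).1 (N \ Q)
        (Pq_sub hN Finset.sdiff_subset) rfl h1' (Or.inl ha')))
      (fun hb' => (ih (N \ Q).card (by omega)).2.1.dvd v5 (Pq_sub hN Finset.sdiff_subset) rfl hb')
      (fun hd' => (ih Q.card (by omega)).2.2 Q (Pq_sub hN hQ.2.2) rfl hd')
  obtain ⟨k, hk⟩ := h2
  obtain ⟨T, hT⟩ := v3 N hN hd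
  have h6 := q3 N hN hd β hβ
  have h7 : A 3 ∅ (pr N) β = 2 ^ n * T := by
    rw [hn] at hT
    have : 6 * A 3 ∅ (pr N) β = 6 * (2 ^ n * T) := by rw [← h6, hT]; ring
    linarith
  rw [hk, hn, h7] at h1
  refine ⟨AC 3 N β (fun _ => 1) - T - k, ?_⟩
  linear_combination h1

/-- the value at a prime of the class `b` -/
theorem z_val (v5 : S_V5) {n : ℕ} (hn : n = 1) (h : CB n) {z : ℕ} (hz : Pq {z}) (hb : Kb z)
    (β : ℤ) (hβ : (3 : ℤ) ∣ β ^ 2 + pr {z}) : ∃ u : ℤ, Odd u ∧ S5 ∅ (pr {z}) β = 2 * u := by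
  subst hn
  have hb' : Kb (pr {z}) := by rw [pr_single]; exact hb
  obtain ⟨k, hk⟩ := h {z} hz (Finset.card_singleton z) hb' β hβ
  obtain ⟨T, hT, hodd⟩ := v5 {z} hz hb'
  have hKr : Kr {z} := by
    intro D hD _
    exact Finset.subset_singleton_iff.1 hD
  have hTo := hodd.2 hKr
  rw [Finset.card_singleton, pow_one] at hT
  rw [hT] at hk
  norm_num at hk
  refine ⟨2 * k - T, ?_, by linarith⟩
  obtain ⟨m, hm⟩ := hTo
  exact ⟨k - m - 1, by rw [hm]; ring⟩

/-- Dirichlet -/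
theorem ex_z (P : Finset ℕ) : ∃ z, z ∉ P ∧ Pq {z} ∧ Kb z := by
  obtain ⟨z, hz, hp, hm⟩ := Nat.forall_exists_prime_gt_and_eq_mod (q := 60)
    (a := ((23 : ℕ) : ZMod 60)) ((ZMod.isUnit_iff_coprime 23 60).2 (by norm_num)) (P.sup id + 5)
  have hm' : z % 60 = 23 := by
    have := congrArg ZMod.val hm
    rw [ZMod.val_natCast, ZMod.val_natCast] at this
    exact this
  refine ⟨z, fun h => ?_, fun p hp' => ?_, Or.inl hm'⟩
  · have := Finset.le_sup (f := id) h
    simp only [id] at this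
    omega
  · rw [mem_singleton] at hp'
    subst hp'
    exact ⟨hp, by omega, by omega, by omega⟩

theorem odd_cop {m : ℕ} {u : ℤ} (hu : Odd u) : IsCoprime ((4 : ℤ) ^ m) (u ^ 2) := by
  refine IsCoprime.pow_left (IsCoprime.pow_right ?_)
  obtain ⟨k, hk⟩ := hu
  have h1 : IsCoprime (2 : ℤ) u := ⟨-k, 1, by rw [hk]; ring⟩
  have h2 := h1.pow_left (m := 2)
  norm_num at h2
  exact h2

/-- the end for the class `a` -/
theorem fin_a (hE : S_E14) {P : Finset ℕ} {z : ℕ} (hP : P.Nonempty) (hz : z ∉ P)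
    (hN : Pq (insert z P)) (ha : Ka (pr P)) (hb : Kb z) {u β β' : ℤ} (hu : Odd u)
    (hβ : (3 : ℤ) ∣ β ^ 2 + pr (insert z P)) (hβ' : (3 : ℤ) ∣ β' ^ 2 + pr {z})
    (h2 : S5 ∅ (pr {z}) β' = 2 * u) {m : ℕ}
    (hS : (2 : ℤ) ^ (m + 2) ∣ S5 P (pr (insert z P)) β) : (4 : ℤ) ^ m ∣ Fx P 1 4 := by
  have hu' : P ∪ {z} = insert z P := by
    rw [Finset.union_comm]
    rfl
  have h1 := (hE P {z} (by rw [hu']; exact hN) (Finset.disjoint_singleton_right.2 hz) hP
    (Finset.singleton_nonempty z)).1 ha (by rw [pr_single]; exact hb) β β'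
    (by rw [hu']; exact hβ) hβ'
  rw [hu', h2] at h1
  obtain ⟨y, hy⟩ := sq_dvd hS
  rw [hy] at h1
  have h3 : Fx P 1 4 * u ^ 2 = 4 ^ m * (-y) := by
    rw [pow_add] at h1
    norm_num at h1
    linarith
  exact (odd_cop hu).dvd_of_dvd_mul_right ⟨-y, h3⟩

/-- the end for the class `c` -/
theorem fin_c (hE : S_E14) {P : Finset ℕ} {z : ℕ} (hP : P.Nonempty) (hz : z ∉ P)
    (hN : Pq (insert z P)) (hc : Kc (pr P)) (hb : Kb z) {u β β' : ℤ} (hu : Odd u)
    (hβ : (5 : ℤ) ∣ β ^ 2 + pr (insert z P)) (hβ' : (3 : ℤ) ∣ β' ^ 2 + pr {z})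
    (h2 : S5 ∅ (pr {z}) β' = 2 * u) {m : ℕ}
    (hS : (2 : ℤ) ^ (m + 1) ∣ A 3 P (pr (insert z P)) β) : (4 : ℤ) ^ m ∣ Fx P 1 4 := by
  have hu' : P ∪ {z} = insert z P := by
    rw [Finset.union_comm]
    rfl
  have h1 := (hE P {z} (by rw [hu']; exact hN) (Finset.disjoint_singleton_right.2 hz) hP
    (Finset.singleton_nonempty z)).2.1 hc (by rw [pr_single]; exact hb) β β'
    (by rw [hu']; exact hβ) hβ'
  rw [hu', h2] at h1
  obtain ⟨y, hy⟩ := sq_dvd hS
  rw [hy] at h1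
  have h3 : Fx P 1 4 * u ^ 2 = 4 ^ m * (9 * y) := by
    rw [pow_add] at h1
    norm_num at h1
    linarith
  exact (odd_cop hu).dvd_of_dvd_mul_right ⟨9 * y, h3⟩

/-! ### the induction step -/

theorem GX_sub {N Q : Finset ℕ} {i j : ℕ} (h : Q ∈ GX N i j) : Q ⊆ N :=
  mem_powerset.1 (mem_filter.1 h).1

theorem one_missing {N Q : Finset ℕ} {n : ℕ} (hN : N.card = n + 1) (hQ : Q ⊆ N)
    (hc : Q.card = n) : ∃ k ∈ N, Q = N.erase k := by
  have h1 := card_split hQ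
  have h2 : (N \ Q).card = 1 := by omega
  obtain ⟨k, hk⟩ := Finset.card_eq_one.1 h2
  have hkm : k ∈ N \ Q := by rw [hk]; exact mem_singleton_self k
  refine ⟨k, (mem_sdiff.1 hkm).1, ?_⟩
  rw [← Finset.sdiff_singleton_eq_erase, ← hk, Finset.sdiff_sdiff_eq_self hQ]

theorem GX_n {N Q : Finset ℕ} {i j n : ℕ} (hi : i ∈ N) (hj : j ∈ N) (hN : N.card = n + 1)
    (h : Q ∈ GX N i j) (hc : Q.card = n) : Q = N.erase i ∨ Q = N.erase j := by
  obtain ⟨k, _, rfl⟩ := one_missing hN (GX_sub h) hc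
  have h1 := (mem_filter.1 h).2
  by_contra h2
  push Not at h2
  apply h1
  have hki : i ≠ k := fun e => h2.1 (by rw [e])
  have hkj : j ≠ k := fun e => h2.2 (by rw [e])
  simp only [mem_erase]
  tauto

theorem GX_one {N Q : Finset ℕ} {i j : ℕ} (h : Q ∈ GX N i j) (hc : Q.card = 1) :
    Q = {i} ∨ Q = {j} := by
  obtain ⟨k, rfl⟩ := Finset.card_eq_one.1 hc
  have h1 := (mem_filter.1 h).2
  by_contra h2
  push Not at h2
  apply h1
  have hki : i ≠ k := fun e => h2.1 (by rw [e])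
  have hkj : j ≠ k := fun e => h2.2 (by rw [e])
  simp only [mem_singleton]
  tauto

theorem sdiff_erase' {N : Finset ℕ} {k : ℕ} (hk : k ∈ N) : N \ N.erase k = {k} := by
  rw [← Finset.sdiff_singleton_eq_erase,
    Finset.sdiff_sdiff_eq_self (Finset.singleton_subset_iff.2 hk)]

/-- the relation for two elements, weak form -/
theorem weak_pair (hE : S_E14) (h5 : S_VAN5) (v5 : S_V5) (hph : S_PHI) {n : ℕ} (hn2 : 2 ≤ n)
    (ih : ∀ k < n, CF k ∧ CB k ∧ CD k) {N : Finset ℕ} (hN : Pq N)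
    (hc : N.card = n + 1) (hb : Kb (pr N)) {β : ℤ} (hβ : (3 : ℤ) ∣ β ^ 2 + pr N) {i j : ℕ}
    (hi : i ∈ N) (hj : j ∈ N) (hij : i ≠ j) :
    (2 : ℤ) ^ (n + 2) ∣ (S5 (N.erase i) (pr N) β + S5 {i} (pr N) β) +
      (S5 (N.erase j) (pr N) β + S5 {j} (pr N) β) := by
  have h1 := pair5 hph hN β i j
  set T : Finset (Finset ℕ) := {N.erase i, N.erase j, {i}, {j}} with hT
  have ci : (N.erase i).card = n := by rw [card_erase_of_mem hi]; omega
  have cj : (N.erase j).card = n := by rw [card_erase_of_mem hj]; omega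
  have hTsub : T ⊆ GX N i j := by
    intro Q hQ
    rw [hT] at hQ
    simp only [mem_insert, mem_singleton] at hQ
    unfold GX
    rw [mem_filter, mem_powerset]
    rcases hQ with rfl | rfl | rfl | rfl
    · refine ⟨erase_subset _ _, ?_⟩
      simp only [mem_erase]
      tauto
    · refine ⟨erase_subset _ _, ?_⟩
      simp only [mem_erase]
      tauto
    · refine ⟨Finset.singleton_subset_iff.2 hi, ?_⟩
      simp only [mem_singleton]
      tauto
    · refine ⟨Finset.singleton_subset_iff.2 hj, ?_⟩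
      simp only [mem_singleton]
      tauto
  have hrest : (2 : ℤ) ^ (n + 2) ∣ ∑ Q ∈ GX N i j \ T, S5 Q (pr N) β := by
    refine Finset.dvd_sum fun Q hQ => ?_
    rw [mem_sdiff] at hQ
    have hQs := GX_sub hQ.1
    have h0 := GX_ne hQ.1
    have h0' := sdiff_ne hQs (GX_ne' hi hj hQ.1)
    have hcs := card_split hQs
    have hq0 := Finset.card_pos.2 h0
    have hq1 := Finset.card_pos.2 h0'
    have hne1 : Q.card ≠ n := by
      intro h
      apply hQ.2
      rw [hT]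
      rcases GX_n hi hj hc hQ.1 h with h | h <;> rw [h] <;> simp
    have hne2 : Q.card ≠ 1 := by
      intro h
      apply hQ.2
      rw [hT]
      rcases GX_one hQ.1 h with h | h <;> rw [h] <;> simp
    have hg := good5 hE h5 hN hb hβ hQs h0
      (fun ha => (ih Q.card (by omega)).1 Q (Pq_sub hN hQs) rfl h0 (Or.inl ha))
      (fun hc' => (ih (N \ Q).card (by omega)).1 (N \ Q) (Pq_sub hN Finset.sdiff_subset) rfl h0'
        (Or.inr hc'))
      (fun hb' => (ih (N \ Q).card (by omega)).2.1.dvd v5 (Pq_sub hN Finset.sdiff_subset) rfl hb')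
      (fun hd => (ih Q.card (by omega)).2.2 Q (Pq_sub hN hQs) rfl hd)
    rwa [hc] at hg
  have hsum := Finset.sum_sdiff (f := fun Q => S5 Q (pr N) β) hTsub
  have hTs : ∑ Q ∈ T, S5 Q (pr N) β = S5 (N.erase i) (pr N) β + (S5 (N.erase j) (pr N) β +
      (S5 {i} (pr N) β + S5 {j} (pr N) β)) := by
    have d1 : N.erase i ≠ N.erase j := by
      intro e
      have : i ∈ N.erase j := mem_erase.2 ⟨hij, hi⟩
      rw [← e] at this
      exact (mem_erase.1 this).1 rfl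
    have d2 : ∀ k : ℕ, N.erase i ≠ {k} := fun k e => by
      have := congrArg Finset.card e
      rw [ci, card_singleton] at this
      omega
    have d3 : ∀ k : ℕ, N.erase j ≠ {k} := fun k e => by
      have := congrArg Finset.card e
      rw [cj, card_singleton] at this
      omega
    have d4 : ({i} : Finset ℕ) ≠ {j} := fun e => hij (Finset.singleton_injective e)
    rw [hT, Finset.sum_insert, Finset.sum_insert, Finset.sum_insert, Finset.sum_singleton]
    · simp only [mem_singleton]; exact d4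
    · simp only [mem_insert, mem_singleton, not_or]; exact ⟨d3 i, d3 j⟩
    · simp only [mem_insert, mem_singleton, not_or]; exact ⟨d1, d2 i, d2 j⟩
  have h2 : (2 : ℤ) ^ (n + 2) ∣ ∑ Q ∈ GX N i j, S5 Q (pr N) β := by
    rw [h1, hc]
    exact Dvd.intro _ rfl
  rw [← hsum, dvd_add_right hrest, hTs] at h2
  have e : (S5 (N.erase i) (pr N) β + S5 {i} (pr N) β) +
      (S5 (N.erase j) (pr N) β + S5 {j} (pr N) β) = S5 (N.erase i) (pr N) β +
      (S5 (N.erase j) (pr N) β + (S5 {i} (pr N) β + S5 {j} (pr N) β)) := by ring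
  rw [e]
  exact h2

theorem Pq_insert {P : Finset ℕ} {z : ℕ} (hP : Pq P) (hz : Pq {z}) : Pq (insert z P) := by
  intro p hp
  rcases mem_insert.1 hp with h | h
  · exact hz p (mem_singleton.2 h)
  · exact hP p h

/-- the weak bound for the class `a` -/
theorem weak_a (hE : S_E14) (h5 : S_VAN5) (v5 : S_V5) (hph : S_PHI) {n : ℕ}
    (ih : ∀ k < n, CF k ∧ CB k ∧ CD k) {P : Finset ℕ} (hP : Pq P)
    (hn : P.card = n) (h0 : P.Nonempty) (ha : Ka (pr P)) : (4 : ℤ) ^ (n - 1) ∣ Fx P 1 4 := by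
  have hn0 : 0 < n := hn ▸ Finset.card_pos.2 h0
  rcases Nat.lt_or_ge n 2 with h | hn2
  · rw [show n - 1 = 0 by omega, pow_zero]
    exact one_dvd _
  obtain ⟨z, hzP, hz, hzb⟩ := ex_z P
  have hN := Pq_insert hP hz
  have hprN : pr (insert z P) = pr P * z := pr_insert hzP
  have hb : Kb (pr (insert z P)) := by rw [hprN]; exact m_ab ha hzb
  have hc : (insert z P).card = n + 1 := by rw [card_insert_of_notMem hzP, hn]
  obtain ⟨β, hβ⟩ := ex_b hb
  have hzb' : Kb (pr {z}) := by rw [pr_single]; exact hzb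
  obtain ⟨β', hβ'⟩ := ex_b hzb'
  have hB1 : CB 1 := (ih 1 (by omega)).2.1
  obtain ⟨u, hu, hS⟩ := z_val v5 rfl hB1 hz hzb β' hβ'
  have hcard2 : 1 < P.card := by omega
  obtain ⟨i, hi, j, hj, hij⟩ := Finset.one_lt_card.1 hcard2
  have hzi : z ≠ i := fun e => hzP (e ▸ hi)
  have hzj : z ≠ j := fun e => hzP (e ▸ hj)
  have mz : z ∈ insert z P := mem_insert_self z P
  have mi : i ∈ insert z P := mem_insert_of_mem hi
  have mj : j ∈ insert z P := mem_insert_of_mem hj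
  have r1 := weak_pair hE h5 v5 hph hn2 ih hN hc hb hβ mz mi hzi
  have r2 := weak_pair hE h5 v5 hph hn2 ih hN hc hb hβ mz mj hzj
  have r3 := weak_pair hE h5 v5 hph hn2 ih hN hc hb hβ mi mj hij
  have hez : (insert z P).erase z = P := erase_insert hzP
  have hz0 : S5 {z} (pr (insert z P)) β = 0 := by
    rw [S5_ne (Finset.singleton_nonempty z), h5 _ hN hb β hβ {z}
      (Finset.singleton_subset_iff.2 mz) (Finset.singleton_nonempty z)
      (fun h => nab h hzb') (fun h => nbd hzb' h), mul_zero]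
  rw [hez, hz0, add_zero] at r1 r2
  have r4 : (2 : ℤ) ^ (n + 1 + 1) ∣ 2 * S5 P (pr (insert z P)) β := by
    have := dvd_sub (dvd_add r1 r2) r3
    have e : S5 P (pr (insert z P)) β + (S5 ((insert z P).erase i) (pr (insert z P)) β +
        S5 {i} (pr (insert z P)) β) + (S5 P (pr (insert z P)) β +
        (S5 ((insert z P).erase j) (pr (insert z P)) β + S5 {j} (pr (insert z P)) β)) -
        (S5 ((insert z P).erase i) (pr (insert z P)) β + S5 {i} (pr (insert z P)) β +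
        (S5 ((insert z P).erase j) (pr (insert z P)) β + S5 {j} (pr (insert z P)) β)) =
        2 * S5 P (pr (insert z P)) β := by ring
    rw [e] at this
    exact this
  rw [pow_succ' (2 : ℤ) (n + 1)] at r4
  have r5 : (2 : ℤ) ^ (n + 1) ∣ S5 P (pr (insert z P)) β :=
    (mul_dvd_mul_iff_left (by norm_num)).1 r4
  exact fin_a hE h0 hzP hN ha hzb hu hβ hβ' hS (by rwa [show n - 1 + 2 = n + 1 by omega])

theorem prod_b {P : Finset ℕ} (h : ∀ p ∈ P, Kb p) :
    (Even P.card → Ka (pr P)) ∧ (Odd P.card → Kb (pr P)) := by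
  induction P using Finset.induction_on with
  | empty =>
    rw [pr_empty]
    refine ⟨fun _ => by unfold Ka; omega, fun h => ?_⟩
    simp at h
  | insert z P hz ih =>
    obtain ⟨h1, h2⟩ := ih fun p hp => h p (mem_insert_of_mem hp)
    have hb := h z (mem_insert_self z P)
    rw [card_insert_of_notMem hz, pr_insert hz]
    constructor
    · intro he
      refine m_bb (h2 ?_) hb
      rw [Nat.even_add_one, Nat.not_even_iff_odd] at he
      exact he
    · intro ho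
      refine m_ab (h1 ?_) hb
      rw [Nat.odd_add_one, Nat.not_odd_iff_even] at ho
      exact ho

/-- the sharp bound for the class `c` -/
theorem sharp_c (hE : S_E14) (h5 : S_VAN5) (h3 : S_VAN3) (v5 : S_V5) (e3 : S_EV3) (hph : S_PHI)
    {n : ℕ} (ih : ∀ k < n, CF k ∧ CB k ∧ CD k) (hB : CB n) (hD : CD n) {P : Finset ℕ} (hP : Pq P)
    (hn : P.card = n) (hcl : Kc (pr P)) : (4 : ℤ) ^ n ∣ Fx P 1 4 := by
  have h0 := ne_of_c hcl
  have hn0 : 0 < n := hn ▸ Finset.card_pos.2 h0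
  obtain ⟨z, hzP, hz, hzb⟩ := ex_z P
  have hN := Pq_insert hP hz
  have hprN : pr (insert z P) = pr P * z := pr_insert hzP
  have hd : Kd (pr (insert z P)) := by rw [hprN]; exact m_cb hcl hzb
  have hc : (insert z P).card = n + 1 := by rw [card_insert_of_notMem hzP, hn]
  obtain ⟨β, hβ⟩ := ex_d hd
  have hzb' : Kb (pr {z}) := by rw [pr_single]; exact hzb
  obtain ⟨β', hβ'⟩ := ex_b hzb'
  have hB1 : CB 1 := by
    rcases Nat.lt_or_ge 1 n with h | h
    · exact (ih 1 h).2.1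
    · rwa [show n = 1 by omega] at hB
  obtain ⟨u, hu, hS⟩ := z_val v5 rfl hB1 hz hzb β' hβ'
  have hex : ∃ j ∈ P, ¬ Kb j := by
    by_contra hcon
    push Not at hcon
    have := prod_b hcon
    rcases Nat.even_or_odd P.card with h | h
    · exact nac (this.1 h) hcl
    · exact nbc (this.2 h) hcl
  obtain ⟨j, hj, hjb⟩ := hex
  have mz : z ∈ insert z P := mem_insert_self z P
  have mj : j ∈ insert z P := mem_insert_of_mem hj
  have hez : (insert z P).erase z = P := erase_insert hzP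
  have hmem : P ∈ GX (insert z P) z j := by
    unfold GX
    rw [mem_filter, mem_powerset]
    exact ⟨subset_insert z P, fun h => hzP (h.2 hj)⟩
  have h1 := pair hph (Or.inl rfl) hN β z j
  obtain ⟨x, hx⟩ := e3 _ hN hd β hβ (fun _ => 1)
  obtain ⟨y, hy⟩ := e3 _ hN hd β hβ (gm z j)
  rw [hx, hy, hc, ← Finset.add_sum_erase _ _ hmem] at h1
  have h2 : (2 : ℤ) ^ (n + 1) ∣ ∑ Q ∈ (GX (insert z P) z j).erase P,
      A 3 Q (pr (insert z P)) β := by
    refine Finset.dvd_sum fun Q hQ => ?_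
    rw [mem_erase] at hQ
    have hQs := GX_sub hQ.2
    have hq := GX_ne hQ.2
    have hq' := sdiff_ne hQs (GX_ne' mz mj hQ.2)
    have hcs := card_split hQs
    have hq0 := Finset.card_pos.2 hq
    have hq1 := Finset.card_pos.2 hq'
    rw [← hc]
    refine good3 hE h3 hN hd hβ hQs hq hq' (fun hc' => ?_) (fun ha' => ?_) (fun hb' => ?_)
      (fun hd' => ?_)
    · rcases Nat.lt_or_ge Q.card n with h | h
      · exact (ih Q.card h).1 Q (Pq_sub hN hQs) rfl hq (Or.inr hc')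
      · exfalso
        rcases GX_n mz mj hc hQ.2 (by omega) with h | h
        · rw [hez] at h
          exact hQ.1 h
        · have hs := pr_split hQs
          have hb' : Kb (pr (insert z P \ Q)) := q_cd hc' (by rw [hs]; exact hd)
          rw [h, sdiff_erase' mj, pr_single] at hb'
          exact hjb hb'
    · rcases Nat.lt_or_ge (insert z P \ Q).card n with h | h
      · exact (pow_dvd_pow _ (by omega)).trans ((ih _ h).1 _
          (Pq_sub hN Finset.sdiff_subset) rfl hq' (Or.inl ha'))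
      · have he : (insert z P \ Q).card = n := by omega
        have := weak_a hE h5 v5 hph ih (Pq_sub hN Finset.sdiff_subset) he hq' ha'
        rwa [he]
    · rcases Nat.lt_or_ge (insert z P \ Q).card n with h | h
      · exact (ih _ h).2.1.dvd v5 (Pq_sub hN Finset.sdiff_subset) rfl hb'
      · have he : (insert z P \ Q).card = n := by omega
        rw [he]
        exact hB.dvd v5 (Pq_sub hN Finset.sdiff_subset) he hb'
    · rcases Nat.lt_or_ge Q.card n with h | h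
      · exact (ih _ h).2.2 Q (Pq_sub hN hQs) rfl hd'
      · have he : Q.card = n := by omega
        rw [he]
        exact hD Q (Pq_sub hN hQs) he hd'
  obtain ⟨k, hk⟩ := h2
  rw [hk] at h1
  have h4 : (2 : ℤ) ^ (n + 1) ∣ A 3 P (pr (insert z P)) β := by
    refine ⟨x - y - k, ?_⟩
    push_cast at h1
    linarith
  exact fin_c hE h0 hzP hN hcl hzb hu hβ hβ' hS h4

/-- the sharp bound for the class `a` -/
theorem sharp_a (hE : S_E14) (h5 : S_VAN5) (h3 : S_VAN3) (v5 : S_V5) (e3 : S_EV3) (c5 : S_CNT5)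
    (hph : S_PHI)
    {n : ℕ} (ih : ∀ k < n, CF k ∧ CB k ∧ CD k) (hB : CB n) (hD : CD n) {P : Finset ℕ} (hP : Pq P)
    (hn : P.card = n) (h0 : P.Nonempty) (ha : Ka (pr P)) : (4 : ℤ) ^ n ∣ Fx P 1 4 := by
  have hn0 : 0 < n := hn ▸ Finset.card_pos.2 h0
  obtain ⟨z, hzP, hz, hzb⟩ := ex_z P
  have hN := Pq_insert hP hz
  have hprN : pr (insert z P) = pr P * z := pr_insert hzP
  have hb : Kb (pr (insert z P)) := by rw [hprN]; exact m_ab ha hzb
  have hc : (insert z P).card = n + 1 := by rw [card_insert_of_notMem hzP, hn]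
  obtain ⟨β, hβ⟩ := ex_b hb
  have hzb' : Kb (pr {z}) := by rw [pr_single]; exact hzb
  obtain ⟨β', hβ'⟩ := ex_b hzb'
  have hB1 : CB 1 := by
    rcases Nat.lt_or_ge 1 n with h | h
    · exact (ih 1 h).2.1
    · rwa [show n = 1 by omega] at hB
  obtain ⟨u, hu, hS⟩ := z_val v5 rfl hB1 hz hzb β' hβ'
  have mz : z ∈ insert z P := mem_insert_self z P
  have hez : (insert z P).erase z = P := erase_insert hzP
  -- all sets are good, except those of class `a` and of size `n`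
  have good : ∀ Q ⊆ insert z P, Q.Nonempty → Q ≠ insert z P → (Ka (pr Q) → Q.card < n) →
      (2 : ℤ) ^ (n + 2) ∣ S5 Q (pr (insert z P)) β := by
    intro Q hQs hq hQN hsmall
    have hq' := sdiff_ne hQs hQN
    have hcs := card_split hQs
    have hq0 := Finset.card_pos.2 hq
    have hq1 := Finset.card_pos.2 hq'
    rw [show n + 2 = (insert z P).card + 1 by omega]
    refine good5 hE h5 hN hb hβ hQs hq (fun ha' => ?_) (fun hc' => ?_) (fun hb' => ?_)
      (fun hd' => ?_)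
    · exact (ih Q.card (hsmall ha')).1 Q (Pq_sub hN hQs) rfl hq (Or.inl ha')
    · rcases Nat.lt_or_ge (insert z P \ Q).card n with h | h
      · exact (ih _ h).1 _ (Pq_sub hN Finset.sdiff_subset) rfl hq' (Or.inr hc')
      · have he : (insert z P \ Q).card = n := by omega
        rw [he]
        exact sharp_c hE h5 h3 v5 e3 hph ih hB hD (Pq_sub hN Finset.sdiff_subset) he hc'
    · rcases Nat.lt_or_ge (insert z P \ Q).card n with h | h
      · exact (ih _ h).2.1.dvd v5 (Pq_sub hN Finset.sdiff_subset) rfl hb'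
      · have he : (insert z P \ Q).card = n := by omega
        rw [he]
        exact hB.dvd v5 (Pq_sub hN Finset.sdiff_subset) he hb'
    · rcases Nat.lt_or_ge Q.card n with h | h
      · exact (ih _ h).2.2 Q (Pq_sub hN hQs) rfl hd'
      · have he : Q.card = n := by omega
        rw [he]
        exact hD Q (Pq_sub hN hQs) he hd'
  have hfin : (2 : ℤ) ^ (n + 2) ∣ S5 P (pr (insert z P)) β := by
    by_cases hall : ∀ p ∈ P, Kb p
    · -- all primes are of class `b`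
      have hev : Even n := by
        by_contra hodd
        rw [Nat.not_even_iff_odd] at hodd
        exact nab ha ((prod_b hall).2 (by rw [hn]; exact hodd))
      have hn2 : 1 < P.card := by
        obtain ⟨m, hm⟩ := hev
        omega
      obtain ⟨i, hi, j, hj, hij⟩ := Finset.one_lt_card.1 hn2
      have mi : i ∈ insert z P := mem_insert_of_mem hi
      have mj : j ∈ insert z P := mem_insert_of_mem hj
      have hallN : ∀ p ∈ insert z P, Kb p := by
        intro p hp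
        rcases mem_insert.1 hp with h | h
        · rw [h]; exact hzb
        · exact hall p h
      have hoddN : Odd (insert z P).card := by
        rw [hc]
        exact hev.add_one
      have hpar : ∀ i j : ℕ, (2 : ℤ) ^ (n + 3) ∣ ∑ Q ∈ GX (insert z P) i j,
          S5 Q (pr (insert z P)) β := by
        intro i j
        rw [pair5 hph hN β i j, hc]
        have h1 := c5 _ hN hallN hoddN β hβ (fun _ => 1) (gm i j) (fun _ _ => Or.inl rfl)
          (fun p _ => gm_pm i j p)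
        have h2 : (2 : ℤ) ∣ (AC 5 (insert z P) β (fun _ => 1) : ℤ) -
            AC 5 (insert z P) β (gm i j) := by omega
        obtain ⟨w, hw⟩ := h2
        exact ⟨w, by rw [hw]; ring⟩
      set KK := (insert z P).powerset.filter fun Q => (i ∈ Q ↔ j ∈ Q) ∧ ¬ (z ∈ Q ↔ i ∈ Q) with hKK
      have hid : ∑ Q ∈ GX (insert z P) z i, S5 Q (pr (insert z P)) β +
          ∑ Q ∈ GX (insert z P) z j, S5 Q (pr (insert z P)) β =
          2 * ∑ Q ∈ KK, S5 Q (pr (insert z P)) β +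
          ∑ Q ∈ GX (insert z P) i j, S5 Q (pr (insert z P)) β := by
        rw [hKK]
        unfold GX
        rw [Finset.sum_filter, Finset.sum_filter, Finset.sum_filter, Finset.sum_filter,
          Finset.mul_sum, ← Finset.sum_add_distrib, ← Finset.sum_add_distrib]
        refine Finset.sum_congr rfl fun Q _ => ?_
        by_cases c1 : z ∈ Q <;> by_cases c2 : i ∈ Q <;> by_cases c3 : j ∈ Q <;>
          simp [c1, c2, c3] <;> ring
      have h2 : (2 : ℤ) ^ (n + 2 + 1) ∣ 2 * ∑ Q ∈ KK, S5 Q (pr (insert z P)) β := by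
        have := dvd_sub (dvd_add (hpar z i) (hpar z j)) (hpar i j)
        rw [hid, add_sub_cancel_right] at this
        exact this
      rw [pow_succ' (2 : ℤ) (n + 2)] at h2
      have h3' : (2 : ℤ) ^ (n + 2) ∣ ∑ Q ∈ KK, S5 Q (pr (insert z P)) β :=
        (mul_dvd_mul_iff_left (by norm_num)).1 h2
      have hmem : P ∈ KK := by
        rw [hKK, mem_filter, mem_powerset]
        exact ⟨subset_insert z P, ⟨fun _ => hj, fun _ => hi⟩, fun h => hzP (h.2 hi)⟩
      rw [← Finset.add_sum_erase _ _ hmem] at h3'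
      refine (dvd_add_left (Finset.dvd_sum fun Q hQ => ?_)).1 h3'
      rw [mem_erase, hKK, mem_filter, mem_powerset] at hQ
      obtain ⟨hQP, hQs, hQ1, hQ2⟩ := hQ
      refine good Q hQs ?_ ?_ ?_
      · rw [Finset.nonempty_iff_ne_empty]
        rintro rfl
        simp at hQ2
      · rintro rfl
        exact hQ2 ⟨fun _ => mi, fun _ => mz⟩
      · intro _
        have hcs := card_split hQs
        have hne : Q ≠ insert z P := by
          rintro rfl
          exact hQ2 ⟨fun _ => mi, fun _ => mz⟩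
        have hq1 := Finset.card_pos.2 (sdiff_ne hQs hne)
        by_contra hlt
        obtain ⟨k, hk, rfl⟩ := one_missing hc hQs (by omega)
        have hkz : k ≠ z := by
          rintro rfl
          exact hQP hez
        simp only [mem_erase] at hQ1 hQ2
        have hzi : z ≠ i := fun e => hzP (e ▸ hi)
        by_cases hki : k = i
        · subst hki
          have : ¬ (j ≠ k ∧ j ∈ insert z P) := fun h => (hQ1.2 h).1 rfl
          exact this ⟨hij.symm, mj⟩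
        · exact hQ2 ⟨fun _ => ⟨fun e => hki e.symm, mi⟩, fun _ => ⟨fun e => hkz e.symm, mz⟩⟩
    · push Not at hall
      obtain ⟨j, hj, hjb⟩ := hall
      have mj : j ∈ insert z P := mem_insert_of_mem hj
      have hmem : P ∈ GX (insert z P) z j := by
        unfold GX
        rw [mem_filter, mem_powerset]
        exact ⟨subset_insert z P, fun h => hzP (h.2 hj)⟩
      have h1 := pair5 hph hN β z j
      have h2 : (2 : ℤ) ^ (n + 2) ∣ ∑ Q ∈ GX (insert z P) z j, S5 Q (pr (insert z P)) β := by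
        rw [h1, hc]
        exact Dvd.intro _ rfl
      rw [← Finset.add_sum_erase _ _ hmem] at h2
      refine (dvd_add_left (Finset.dvd_sum fun Q hQ => ?_)).1 h2
      rw [mem_erase] at hQ
      have hQs := GX_sub hQ.2
      have hQN := GX_ne' mz mj hQ.2
      refine good Q hQs (GX_ne hQ.2) hQN fun ha' => ?_
      have hcs := card_split hQs
      have hq1 := Finset.card_pos.2 (sdiff_ne hQs hQN)
      by_contra hlt
      rcases GX_n mz mj hc hQ.2 (by omega) with h | h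
      · rw [hez] at h
        exact hQ.1 h
      · have hs := pr_split hQs
        have hb' : Kb (pr (insert z P \ Q)) := q_ab ha' (by rw [hs]; exact hb)
        rw [h, sdiff_erase' mj, pr_single] at hb'
        exact hjb hb'
  exact fin_a hE h0 hzP hN ha hzb hu hβ hβ' hS hfin

theorem all_claims (hE : S_E14) (h5 : S_VAN5) (h3 : S_VAN3) (v5 : S_V5) (v3 : S_V3) (q3 : S_EQ3)
    (e3 : S_EV3) (c5 : S_CNT5) (hph : S_PHI) (n : ℕ) : CF n ∧ CB n ∧ CD n := by
  induction n using Nat.strong_induction_on with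
  | _ n ih =>
    have hB := step_B hE h5 v5 hph ih
    have hD := step_D hE h3 v5 v3 q3 hph ih
    refine ⟨fun P hP hn h0 hcl => ?_, hB, hD⟩
    rcases hcl with h | h
    · exact sharp_a hE h5 h3 v5 e3 c5 hph ih hB hD hP hn h0 h
    · exact sharp_c hE h5 h3 v5 e3 hph ih hB hD hP hn h

end Pool.Agent.XV.Mn

namespace Pool.Agent.XV

open Finset
open Pool.Agent.Z700 (V3 pr un hh)

/-- **XV-17**: the structure theorem from the relations -/
theorem t_MAIN (hE : S_E14) (h5 : S_VAN5) (h3 : S_VAN3) (v5 : S_V5) (v3 : S_V3) (q3 : S_EQ3)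
    (e3 : S_EV3) (c5 : S_CNT5) (hph : S_PHI) : S_MAIN := by
  intro N hN
  obtain ⟨hF, hB, hD⟩ := Mn.all_claims hE h5 h3 v5 v3 q3 e3 c5 hph N.card
  refine ⟨fun hb β hβ => ?_, fun hd β hβ => hD N hN rfl hd β hβ, fun h0 hcl => hF N hN rfl h0 hcl⟩
  obtain ⟨T, hT, -⟩ := v5 N hN hb
  obtain ⟨k, hk⟩ := hB N hN rfl hb β hβ
  refine ⟨T, k - T, hT, ?_⟩
  rw [hT] at hk
  rw [pow_succ] at hk
  linear_combination hk

end Pool.Agent.XV
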