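import Pool.Agent.XV.Defs

/-!
# XV-17, part A: classes, characters, relations
-/

set_option autoImplicit false

namespace Pool.Agent.XV.Mn

open Finset
open Pool.Agent.Z700 (V3 pr un hh)
open Pool.Agent.NH1 (lz rd)

/-! ### classes -/

theorem q_ab {x y : ℕ} (hx : Ka x) (h : Kb (x * y)) : Kb y := by
  unfold Ka Kb at *
  rw [Nat.mul_mod] at h
  have := Nat.mod_lt y (by norm_num : 0 < 60)
  rcases hx with hx | hx <;> rw [hx] at h <;> omega

theorem q_db {x y : ℕ} (hx : Kd x) (h : Kb (x * y)) : Kc y := by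
  unfold Kd Kb Kc at *
  rw [Nat.mul_mod] at h
  have := Nat.mod_lt y (by norm_num : 0 < 60)
  rcases hx with hx | hx <;> rw [hx] at h <;> omega

theorem q_cd {x y : ℕ} (hx : Kc x) (h : Kd (x * y)) : Kb y := by
  unfold Kd Kb Kc at *
  rw [Nat.mul_mod] at h
  have := Nat.mod_lt y (by norm_num : 0 < 60)
  rcases hx with hx | hx <;> rw [hx] at h <;> omega

theorem q_dd {x y : ℕ} (hx : Kd x) (h : Kd (x * y)) : Ka y := by
  unfold Kd Ka at *
  rw [Nat.mul_mod] at h
  have := Nat.mod_lt y (by norm_num : 0 < 60)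
  rcases hx with hx | hx <;> rw [hx] at h <;> omega

theorem m_ab {x y : ℕ} (hx : Ka x) (hy : Kb y) : Kb (x * y) := by
  unfold Ka Kb at *
  rw [Nat.mul_mod]
  rcases hx with hx | hx <;> rcases hy with hy | hy <;> rw [hx, hy] <;> omega

theorem m_bb {x y : ℕ} (hx : Kb x) (hy : Kb y) : Ka (x * y) := by
  unfold Ka Kb at *
  rw [Nat.mul_mod]
  rcases hx with hx | hx <;> rcases hy with hy | hy <;> rw [hx, hy] <;> omega

theorem m_cb {x y : ℕ} (hx : Kc x) (hy : Kb y) : Kd (x * y) := by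
  unfold Kc Kb Kd at *
  rw [Nat.mul_mod]
  rcases hx with hx | hx <;> rcases hy with hy | hy <;> rw [hx, hy] <;> omega

theorem nab {x : ℕ} (h : Ka x) (h' : Kb x) : False := by unfold Ka Kb at *; omega
theorem nac {x : ℕ} (h : Ka x) (h' : Kc x) : False := by unfold Ka Kc at *; omega
theorem nad {x : ℕ} (h : Ka x) (h' : Kd x) : False := by unfold Ka Kd at *; omega
theorem nbc {x : ℕ} (h : Kb x) (h' : Kc x) : False := by unfold Kb Kc at *; omega
theorem nbd {x : ℕ} (h : Kb x) (h' : Kd x) : False := by unfold Kb Kd at *; omega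
theorem ncd {x : ℕ} (h : Kc x) (h' : Kd x) : False := by unfold Kc Kd at *; omega

theorem ex_b {n : ℕ} (h : Kb n) : ∃ β : ℤ, (3 : ℤ) ∣ β ^ 2 + n := ⟨1, by unfold Kb at h; omega⟩

theorem ex_d {n : ℕ} (h : Kd n) : ∃ β : ℤ, (5 : ℤ) ∣ β ^ 2 + n := by
  unfold Kd at h
  rcases h with h | h
  · exact ⟨1, by omega⟩
  · exact ⟨2, by omega⟩

theorem pr_empty : pr ∅ = 1 := by unfold pr; simp

theorem pr_single (z : ℕ) : pr {z} = z := by unfold pr; simp

theorem pr_insert {z : ℕ} {P : Finset ℕ} (h : z ∉ P) : pr (insert z P) = pr P * z := by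
  unfold pr
  rw [prod_insert h, mul_comm]

theorem pr_split {N Q : Finset ℕ} (h : Q ⊆ N) : pr Q * pr (N \ Q) = pr N := by
  unfold pr
  rw [mul_comm]
  exact Finset.prod_sdiff h

theorem card_split {N Q : Finset ℕ} (h : Q ⊆ N) : Q.card + (N \ Q).card = N.card := by
  rw [add_comm]
  exact Finset.card_sdiff_add_card_eq_card h

theorem ne_of_b {Q : Finset ℕ} (h : Kb (pr Q)) : Q.Nonempty := by
  rw [Finset.nonempty_iff_ne_empty]
  rintro rfl
  rw [pr_empty] at h
  unfold Kb at h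
  omega

theorem ne_of_c {Q : Finset ℕ} (h : Kc (pr Q)) : Q.Nonempty := by
  rw [Finset.nonempty_iff_ne_empty]
  rintro rfl
  rw [pr_empty] at h
  unfold Kc at h
  omega

theorem ne_of_d {Q : Finset ℕ} (h : Kd (pr Q)) : Q.Nonempty := by
  rw [Finset.nonempty_iff_ne_empty]
  rintro rfl
  rw [pr_empty] at h
  unfold Kd at h
  omega

theorem Pq_sub {N Q : Finset ℕ} (h : Pq N) (hQ : Q ⊆ N) : Pq Q := fun p hp => h p (hQ hp)

/-! ### the characters are signs -/

theorem bl_rd (q p : ℕ) (v w : V3) : bl q (rd p v) (rd p w) = ((bl q v w : ℤ) : ZMod p) := by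
  unfold bl rd
  split_ifs <;> push_cast <;> ring

theorem sq_not_dvd {N : Finset ℕ} (hN : Pq N) {p : ℕ} (hp : p ∈ N) :
    ¬ ((p : ℤ) ^ 2 ∣ (pr N : ℤ)) := by
  intro h
  have hpp := (hN p hp).1
  have h1 : p ^ 2 ∣ pr N := by exact_mod_cast h
  have h2 : pr N = p * pr (N.erase p) := by
    unfold pr
    exact (Finset.mul_prod_erase N (fun p => p) hp).symm
  rw [h2, pow_two] at h1
  have h3 : p ∣ pr (N.erase p) := Nat.dvd_of_mul_dvd_mul_left hpp.pos h1
  unfold pr at h3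
  obtain ⟨r, hr, h4⟩ := (hpp.prime.dvd_finsetProd_iff _).1 h3
  have hr' := Finset.mem_erase.1 hr
  exact hr'.1 ((Nat.prime_dvd_prime_iff_eq hpp (hN r hr'.2).1).1 h4).symm

theorem ph_pm (hph : S_PHI) {q : ℕ} (hq : q = 3 ∨ q = 5) {N : Finset ℕ} (hN : Pq N) {v : V3}
    (hv : v ∈ vec q (pr N : ℤ)) {p : ℕ} (hp : p ∈ N) :
    ph q p (rd p v) = 1 ∨ ph q p (rd p v) = -1 := by
  obtain ⟨hpp, hp2, hp3, hp5⟩ := hN p hp
  have hpq : p ≠ q := by rcases hq with rfl | rfl <;> assumption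
  have hs := ph_spec hph hq hpp hp2 hpq
  unfold vec at hv
  have hv1 := (mem_filter.1 hv).2
  have hdvd : p ∣ pr N := by
    unfold pr
    exact Finset.dvd_prod_of_mem (fun p => p) hp
  apply hs.pm
  · rw [bl_rd, hv1]
    have := (ZMod.natCast_eq_zero_iff (pr N) p).2 hdvd
    exact_mod_cast this
  · intro h0
    have h1 : ∀ i, (p : ℤ) ∣ v i := fun i => by
      have := congrFun h0 i
      unfold rd at this
      exact (ZMod.intCast_zmod_eq_zero_iff_dvd (v i) p).1 this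
    choose w hw using h1
    have hvw : v = fun i => (p : ℤ) * w i := funext hw
    apply sq_not_dvd hN hp
    rw [← hv1]
    refine ⟨bl q w w, ?_⟩
    rw [hvw]
    unfold bl
    split_ifs <;> ring

/-! ### Fourier transform -/

theorem prod_sign {N : Finset ℕ} {γ e : ℕ → ℤ} (hγ : ∀ p ∈ N, γ p = 1 ∨ γ p = -1)
    (he : ∀ p ∈ N, e p = 1 ∨ e p = -1) [Decidable (∀ p ∈ N, e p = γ p)] :
    ∏ p ∈ N, (1 + γ p * e p) = if ∀ p ∈ N, e p = γ p then 2 ^ N.card else 0 := by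
  split_ifs with h
  · rw [Finset.prod_congr rfl (g := fun _ => (2:ℤ)), Finset.prod_const]
    intro p hp
    rw [h p hp]
    rcases hγ p hp with h1 | h1 <;> rw [h1] <;> norm_num
  · push Not at h
    obtain ⟨p, hp, hne⟩ := h
    refine Finset.prod_eq_zero hp ?_
    rcases hγ p hp with h1 | h1 <;> rcases he p hp with h2 | h2
    · exact absurd (h2.trans h1.symm) hne
    · rw [h1, h2]; norm_num
    · rw [h1, h2]; norm_num
    · exact absurd (h2.trans h1.symm) hne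

theorem four (hph : S_PHI) {q : ℕ} (hq : q = 3 ∨ q = 5) {N : Finset ℕ} (hN : Pq N) (β : ℤ)
    {γ : ℕ → ℤ} (hγ : ∀ p ∈ N, γ p = 1 ∨ γ p = -1) :
    ∑ P ∈ N.powerset, (∏ p ∈ P, γ p) * A q P (pr N) β = 2 ^ N.card * AC q N β γ := by
  classical
  have h1 : ∀ P ∈ N.powerset, (∏ p ∈ P, γ p) * A q P (pr N) β =
      ∑ v ∈ (vec q (pr N : ℤ)).filter (LN q β), ∏ p ∈ P, (γ p * ph q p (rd p v)) := by
    intro P _
    unfold A Ph
    rw [Finset.mul_sum]
    exact Finset.sum_congr rfl fun v _ => (Finset.prod_mul_distrib).symm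
  rw [Finset.sum_congr rfl h1, Finset.sum_comm]
  have h2 : ∀ v ∈ (vec q (pr N : ℤ)).filter (LN q β),
      ∑ P ∈ N.powerset, ∏ p ∈ P, (γ p * ph q p (rd p v)) =
        if ∀ p ∈ N, ph q p (rd p v) = γ p then 2 ^ N.card else 0 := by
    intro v hv
    rw [← Finset.prod_one_add]
    exact prod_sign hγ fun p hp => ph_pm hph hq hN (mem_filter.1 hv).1 hp
  rw [Finset.sum_congr rfl h2, ← Finset.sum_filter, Finset.sum_const, nsmul_eq_mul, mul_comm]
  have h3 : (((vec q (pr N : ℤ)).filter (LN q β)).filter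
      fun v => ∀ p ∈ N, ph q p (rd p v) = γ p).card = AC q N β γ := by
    unfold AC
    refine congrArg Finset.card (Finset.ext fun v => ?_)
    simp only [mem_filter, and_assoc]
  rw [h3]

/-- the sign at two elements -/
def gm (i j : ℕ) (p : ℕ) : ℤ := (if p = i then -1 else 1) * (if p = j then -1 else 1)

theorem gm_pm (i j p : ℕ) : gm i j p = 1 ∨ gm i j p = -1 := by
  unfold gm
  split_ifs <;> norm_num

theorem prod_gm (i j : ℕ) (P : Finset ℕ) :
    ∏ p ∈ P, gm i j p = (if i ∈ P then -1 else 1) * (if j ∈ P then -1 else 1) := by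
  unfold gm
  rw [Finset.prod_mul_distrib, Finset.prod_ite_eq' P i (fun _ => (-1:ℤ)),
    Finset.prod_ite_eq' P j (fun _ => (-1:ℤ))]

/-- the subsets which contain exactly one of two elements -/
def GX (N : Finset ℕ) (i j : ℕ) : Finset (Finset ℕ) :=
  N.powerset.filter fun P => ¬ (i ∈ P ↔ j ∈ P)

theorem pair (hph : S_PHI) {q : ℕ} (hq : q = 3 ∨ q = 5) {N : Finset ℕ} (hN : Pq N) (β : ℤ)
    (i j : ℕ) : 2 * ∑ P ∈ GX N i j, A q P (pr N) β =
      2 ^ N.card * ((AC q N β (fun _ => 1) : ℤ) - AC q N β (gm i j)) := by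
  have h1 := four hph hq hN β (γ := fun _ => 1) (fun p _ => Or.inl rfl)
  have h2 := four hph hq hN β (γ := gm i j) (fun p _ => gm_pm i j p)
  rw [mul_sub, ← h1, ← h2, ← Finset.sum_sub_distrib]
  unfold GX
  rw [Finset.sum_filter, Finset.mul_sum]
  refine Finset.sum_congr rfl fun P _ => ?_
  rw [prod_gm, Finset.prod_const_one]
  by_cases hi : i ∈ P <;> by_cases hj : j ∈ P <;> simp [hi, hj] <;> ring

theorem total (hph : S_PHI) {q : ℕ} (hq : q = 3 ∨ q = 5) {N : Finset ℕ} (hN : Pq N) (β : ℤ) :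
    ∑ P ∈ N.powerset, A q P (pr N) β = 2 ^ N.card * AC q N β (fun _ => 1) := by
  rw [← four hph hq hN β (γ := fun _ => 1) (fun p _ => Or.inl rfl)]
  refine Finset.sum_congr rfl fun P _ => ?_
  rw [Finset.prod_const_one, one_mul]

theorem S5_ne {P : Finset ℕ} (h : P.Nonempty) (N β : ℤ) : S5 P N β = 4 * A 5 P N β := by
  unfold S5
  rw [if_neg (Finset.nonempty_iff_ne_empty.1 h), sub_zero]

theorem GX_ne {N P : Finset ℕ} {i j : ℕ} (h : P ∈ GX N i j) : P.Nonempty := by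
  have h1 := (mem_filter.1 h).2
  rw [Finset.nonempty_iff_ne_empty]
  rintro rfl
  simp at h1

theorem GX_ne' {N P : Finset ℕ} {i j : ℕ} (hi : i ∈ N) (hj : j ∈ N) (h : P ∈ GX N i j) :
    P ≠ N := by
  have h1 := (mem_filter.1 h).2
  rintro rfl
  exact h1 ⟨fun _ => hj, fun _ => hi⟩

/-- R5J -/
theorem pair5 (hph : S_PHI) {N : Finset ℕ} (hN : Pq N) (β : ℤ) (i j : ℕ) :
    ∑ P ∈ GX N i j, S5 P (pr N) β =
      2 ^ (N.card + 1) * ((AC 5 N β (fun _ => 1) : ℤ) - AC 5 N β (gm i j)) := by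
  have h1 := pair hph (Or.inr rfl) hN β i j
  have h2 : ∑ P ∈ GX N i j, S5 P (pr N) β = 2 * (2 * ∑ P ∈ GX N i j, A 5 P (pr N) β) := by
    rw [Finset.mul_sum, Finset.mul_sum]
    refine Finset.sum_congr rfl fun P hP => ?_
    rw [S5_ne (GX_ne hP)]
    ring
  rw [h2, h1]
  ring

/-- R5 -/
theorem total5 (hph : S_PHI) {N : Finset ℕ} (hN : Pq N) (β : ℤ) :
    ∑ P ∈ N.powerset, S5 P (pr N) β =
      2 ^ (N.card + 2) * AC 5 N β (fun _ => 1) - (vec 5 (pr N : ℤ)).card := by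
  have h1 := total hph (Or.inr rfl) hN β
  unfold S5
  rw [Finset.sum_sub_distrib, ← Finset.mul_sum, h1, Finset.sum_ite_eq',
    if_pos (Finset.empty_mem_powerset N)]
  ring

end Pool.Agent.XV.Mn
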