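import Pool.Agent.XV.PCStm
import Pool.Agent.Y288.Z7.Cnt

/-!
# Project XV: parametrization of the pairs of vectors with given Gram matrix (XV-14, S_PCC)

Port of `Pool.Agent.Y288.Z7.Cnt` to the lattices `L q`.
-/

set_option autoImplicit false
set_option linter.all false

namespace Pool.Agent.XV

open Finset Matrix
open Pool.Agent.Z700 (V3)
open Pool.Agent.Y288.Z7 (crs dt dd3 cols crs0 crs1 crs2 ext3 cramer3 small parallel content bez dcross
  crs_lin crs_sub crs_sub_smul crs_smul dt_crs_left dt_crs_right dt_add dt_sub dt_smul smul_dt dt_comm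
  dd3_eq dd3_eq' cols_eq det_cols)

namespace PCC

/-- the dual quadratic form -/
def Qd (q : ℕ) (c : V3) : ℤ :=
  if q = 5 then 2 * c 0 ^ 2 + c 1 ^ 2 + c 2 ^ 2 + c 0 * c 1 - c 0 * c 2 - c 1 * c 2
  else c 0 ^ 2 + c 1 ^ 2 + c 2 ^ 2 - c 1 * c 2

/-- the dual bilinear form -/
def Fd (q : ℕ) (c d : V3) : ℤ :=
  if q = 5 then 4 * (c 0 * d 0) + 2 * (c 1 * d 1) + 2 * (c 2 * d 2) + (c 0 * d 1 + c 1 * d 0) -
    (c 0 * d 2 + c 2 * d 0) - (c 1 * d 2 + c 2 * d 1)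
  else 2 * (c 0 * d 0) + 2 * (c 1 * d 1) + 2 * (c 2 * d 2) - (c 1 * d 2 + c 2 * d 1)

section forms

variable {q : ℕ}

theorem bl_comm (q : ℕ) (v w : V3) : bl q v w = bl q w v := by
  unfold bl
  split_ifs <;> ring

theorem bl_add (q : ℕ) (v w u : V3) : bl q v (w + u) = bl q v w + bl q v u := by
  unfold bl
  split_ifs <;> simp only [Pi.add_apply] <;> ring

theorem bl_sub (q : ℕ) (v w u : V3) : bl q v (w - u) = bl q v w - bl q v u := by
  unfold bl
  split_ifs <;> simp only [Pi.sub_apply] <;> ring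

theorem bl_smul (q : ℕ) (v w : V3) (a : ℤ) : bl q v (a • w) = a * bl q v w := by
  unfold bl
  split_ifs <;> simp only [Pi.smul_apply, smul_eq_mul] <;> ring

theorem smul_bl (q : ℕ) (v w : V3) (a : ℤ) : bl q (a • v) w = a * bl q v w := by
  rw [bl_comm, bl_smul, bl_comm]

theorem add_bl (q : ℕ) (v w u : V3) : bl q (v + w) u = bl q v u + bl q w u := by
  rw [bl_comm, bl_add, bl_comm q u v, bl_comm q u w]

theorem sub_bl (q : ℕ) (v w u : V3) : bl q (v - w) u = bl q v u - bl q w u := by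
  rw [bl_comm, bl_sub, bl_comm q u v, bl_comm q u w]

theorem L1 (hq : q = 3 ∨ q = 5) (v w : V3) :
    bl q v v * bl q w w - bl q v w ^ 2 = 4 * q * Qd q (crs v w) := by
  rcases hq with rfl | rfl
  · unfold bl Qd
    rw [if_neg (by norm_num), if_neg (by norm_num), if_neg (by norm_num), if_neg (by norm_num)]
    simp only [crs0, crs1, crs2]
    push_cast
    ring
  · unfold bl Qd
    rw [if_pos rfl, if_pos rfl, if_pos rfl, if_pos rfl]
    simp only [crs0, crs1, crs2]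
    push_cast
    ring

theorem L2 (hq : q = 3 ∨ q = 5) (v w z : V3) :
    bl q v v * bl q w z - bl q v w * bl q v z = 2 * q * Fd q (crs v w) (crs v z) := by
  rcases hq with rfl | rfl
  · unfold bl Fd
    simp only [if_neg (by norm_num : ¬ ((3 : ℕ) = 5))]
    simp only [crs0, crs1, crs2]
    push_cast
    ring
  · unfold bl Fd
    simp only [if_true]
    simp only [crs0, crs1, crs2]
    push_cast
    ring

theorem L3 (hq : q = 3 ∨ q = 5) (c d : V3) :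
    4 * Qd q c * Qd q d - Fd q c d ^ 2 = bl q (crs c d) (crs c d) := by
  rcases hq with rfl | rfl
  · unfold bl Fd Qd
    simp only [if_neg (by norm_num : ¬ ((3 : ℕ) = 5))]
    simp only [crs0, crs1, crs2]
    ring
  · unfold bl Fd Qd
    simp only [if_true]
    simp only [crs0, crs1, crs2]
    ring

theorem L4 (v w z : V3) : crs (crs v w) (crs v z) = dd3 v w z • v := by
  apply ext3 <;> simp only [dd3, crs0, crs1, crs2, Pi.smul_apply, smul_eq_mul] <;> ring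

/-- the form is larger than the sum of the squares -/
theorem dt_le (hq : q = 3 ∨ q = 5) (v : V3) : dt v v ≤ bl q v v := by
  rcases hq with rfl | rfl
  · unfold bl dt
    rw [if_neg (by norm_num)]
    nlinarith [mul_self_nonneg (v 0), mul_self_nonneg (v 1), mul_self_nonneg (v 2),
      mul_self_nonneg (v 1 + v 2)]
  · unfold bl dt
    rw [if_pos rfl]
    nlinarith [mul_self_nonneg (v 0), mul_self_nonneg (v 1), mul_self_nonneg (v 2),
      mul_self_nonneg (v 1 + v 2), mul_self_nonneg (v 0 - v 1), mul_self_nonneg (v 0 + v 2)]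

theorem mem_vec (hq : q = 3 ∨ q = 5) (n : ℤ) (v : V3) : v ∈ vec q n ↔ bl q v v = n := by
  rw [vec, Finset.mem_filter, Fintype.mem_piFinset]
  constructor
  · exact fun h => h.2
  · intro h
    refine ⟨fun i => ?_, h⟩
    have h1 := dt_le hq v
    rw [h, dt] at h1
    have key : ∀ x : ℤ, x ≤ x * x ∧ -x ≤ x * x := fun x => by
      constructor <;> rcases le_total 0 x with hx | hx <;> rcases eq_or_ne x 0 with h0 | h0
      · rw [h0]; simp
      · have : 1 ≤ x := by omega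
        nlinarith
      · rw [h0]; simp
      · nlinarith [mul_self_nonneg x]
      · rw [h0]; simp
      · nlinarith [mul_self_nonneg x]
      · rw [h0]; simp
      · have : x ≤ -1 := by omega
        nlinarith
    have k0 := key (v 0)
    have k1 := key (v 1)
    have k2 := key (v 2)
    have s0 := mul_self_nonneg (v 0)
    have s1 := mul_self_nonneg (v 1)
    have s2 := mul_self_nonneg (v 2)
    rw [Finset.mem_Icc]
    fin_cases i
    · exact ⟨by show -n ≤ v 0; linarith, by show v 0 ≤ n; linarith⟩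
    · exact ⟨by show -n ≤ v 1; linarith, by show v 1 ≤ n; linarith⟩
    · exact ⟨by show -n ≤ v 2; linarith, by show v 2 ≤ n; linarith⟩

/-- divisibility of the form -/
theorem dvd_bl (q : ℕ) (v : V3) (g : ℤ) (hg : ∀ i, g ∣ v i) : g * g ∣ bl q v v := by
  choose u hu using hg
  have hv : v = g • u := funext fun i => by rw [hu i]; rfl
  rw [hv, bl_smul, smul_bl]
  exact ⟨bl q u u, by ring⟩

theorem prim_of_sqfree {n : ℕ} (hn : Squarefree n) {v : V3} (h : bl q v v = n) :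
    ∃ y, dt v y = 1 := by
  apply bez
  intro g hg
  have h1 : ((g * g : ℕ) : ℤ) ∣ (n : ℤ) := by
    rw [← h]; push_cast
    exact dvd_bl q v g hg
  have h2 : g * g ∣ n := by exact_mod_cast h1
  exact Nat.isUnit_iff.1 (hn g h2)

/-- the Gram matrix of three columns -/
theorem gram_bl (hq : q = 3 ∨ q = 5) (v w z : V3) (i j : Fin 3) :
    ((cols v w z)ᵀ * GG q * cols v w z) i j = bl q (![v, w, z] i) (![v, w, z] j) := by
  rcases hq with rfl | rfl
  · unfold GG bl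
    rw [if_neg (by norm_num), if_neg (by norm_num)]
    simp only [Matrix.mul_apply, Fin.sum_univ_three, Matrix.transpose_apply, cols, Matrix.of_apply]
    fin_cases i <;> fin_cases j <;> simp <;> ring
  · unfold GG bl
    rw [if_pos rfl, if_pos rfl]
    simp only [Matrix.mul_apply, Fin.sum_univ_three, Matrix.transpose_apply, cols, Matrix.of_apply]
    fin_cases i <;> fin_cases j <;> simp <;> ring

theorem gram_iff (hq : q = 3 ∨ q = 5) (v w z : V3) (M : Matrix (Fin 3) (Fin 3) ℤ) (hM : Mᵀ = M) :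
    (cols v w z)ᵀ * GG q * cols v w z = M ↔ bl q v v = M 0 0 ∧ bl q v w = M 0 1 ∧
      bl q v z = M 0 2 ∧ bl q w w = M 1 1 ∧ bl q w z = M 1 2 ∧ bl q z z = M 2 2 := by
  have h10 : M 1 0 = M 0 1 := congrFun (congrFun hM 0) 1
  have h20 : M 2 0 = M 0 2 := congrFun (congrFun hM 0) 2
  have h21 : M 2 1 = M 1 2 := congrFun (congrFun hM 1) 2
  constructor
  · intro h
    have hh : ∀ i j, bl q (![v, w, z] i) (![v, w, z] j) = M i j := fun i j => by
      rw [← h, gram_bl hq]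
    exact ⟨hh 0 0, hh 0 1, hh 0 2, hh 1 1, hh 1 2, hh 2 2⟩
  · rintro ⟨h1, h2, h3, h4, h5, h6⟩
    ext i j
    rw [gram_bl hq]
    fin_cases i <;> fin_cases j
    · exact h1
    · exact h2
    · exact h3
    · exact (bl_comm _ _ _).trans (h2.trans h10.symm)
    · exact h4
    · exact h5
    · exact (bl_comm _ _ _).trans (h3.trans h20.symm)
    · exact (bl_comm _ _ _).trans (h5.trans h21.symm)
    · exact h6

end forms

/-! ### the parameters -/

/-- the conditions defining the set of parameters, with the quotients named -/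
structure Wt (q n : ℕ) (b : ℤ) (D e μ β ν D2 d ee g f : ℕ) : Prop where
  he : 0 < e
  hD : D = q * e ^ 2 * D2
  hβ : β < 2 * D2
  hμ : μ < n
  hν : ν < n
  hb : (n : ℤ) ∣ e * μ - b
  hd : n * d = μ ^ 2 + 4 * q * D2
  hg : 4 * D2 * g = β ^ 2 + n
  hee : n * ee = 2 * q * β + μ * ν
  hf : n * f = 4 * q * g + ν ^ 2

theorem wit_of_mem {q n D : ℕ} {b : ℤ} {e μ β ν : ℕ} (h : (e, μ, β, ν) ∈ XQ q n b D) :
    Wt q n b D e μ β ν (D / (q * e ^ 2)) ((μ ^ 2 + 4 * q * (D / (q * e ^ 2))) / n)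
      ((2 * q * β + μ * ν) / n) ((β ^ 2 + n) / (4 * (D / (q * e ^ 2))))
      ((4 * q * ((β ^ 2 + n) / (4 * (D / (q * e ^ 2)))) + ν ^ 2) / n) := by
  simp only [XQ, Finset.mem_filter, Finset.mem_product, Finset.mem_range] at h
  obtain ⟨⟨h1, h2, h3, h4⟩, h5, h6, h7, h8, h9, h10, h11, h12⟩ := h
  exact ⟨h5, (Nat.mul_div_cancel' h6).symm, h7, h2, h4, h8, Nat.mul_div_cancel' h9,
    Nat.mul_div_cancel' h10, Nat.mul_div_cancel' h11, Nat.mul_div_cancel' h12⟩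

theorem mem_of_wit {q n D : ℕ} {b : ℤ} {e μ β ν D2 d ee g f : ℕ} (hq0 : 0 < q) (hD0 : 0 < D)
    (h : Wt q n b D e μ β ν D2 d ee g f) : (e, μ, β, ν) ∈ XQ q n b D ∧ D / (q * e ^ 2) = D2 ∧
      (μ ^ 2 + 4 * q * (D / (q * e ^ 2))) / n = d ∧ (2 * q * β + μ * ν) / n = ee ∧
      (β ^ 2 + n) / (4 * (D / (q * e ^ 2))) = g ∧
      (4 * q * ((β ^ 2 + n) / (4 * (D / (q * e ^ 2)))) + ν ^ 2) / n = f := by
  obtain ⟨he, hD, hβ, hμ, hν, hb, hd, hg, hee, hf⟩ := h
  have he2 : 0 < e ^ 2 := pow_pos he 2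
  have hqe : 0 < q * e ^ 2 := Nat.mul_pos hq0 he2
  have hn : 0 < n := by omega
  have hD' : 0 < D2 := by omega
  have e1 : D / (q * e ^ 2) = D2 := by rw [hD]; exact Nat.mul_div_cancel_left _ hqe
  have e2 : (β ^ 2 + n) / (4 * (D / (q * e ^ 2))) = g := by
    rw [e1, ← hg]; exact Nat.mul_div_cancel_left _ (by omega)
  refine ⟨?_, e1, ?_, ?_, e2, ?_⟩
  · simp only [XQ, Finset.mem_filter, Finset.mem_product, Finset.mem_range]
    rw [e2, e1]
    refine ⟨⟨?_, hμ, ?_, hν⟩, he, ⟨D2, hD⟩, hβ, hb, ⟨d, hd.symm⟩, ⟨g, hg.symm⟩, ⟨ee, hee.symm⟩,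
      ⟨f, hf.symm⟩⟩
    · have h1 : e ≤ e ^ 2 := Nat.le_self_pow two_ne_zero e
      have h2 : e ^ 2 ≤ q * e ^ 2 := Nat.le_mul_of_pos_left _ hq0
      have h3 : q * e ^ 2 * 1 ≤ q * e ^ 2 * D2 := Nat.mul_le_mul_left _ hD'
      omega
    · have h2 : 1 * D2 ≤ q * e ^ 2 * D2 := Nat.mul_le_mul_right _ hqe
      omega
  · rw [e1, ← hd]; exact Nat.mul_div_cancel_left _ hn
  · rw [← hee]; exact Nat.mul_div_cancel_left _ hn
  · rw [e2, ← hf]; exact Nat.mul_div_cancel_left _ hn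

/-- the Gram matrix of a tuple of parameters -/
def mm (q n D : ℕ) (x : ℕ × ℕ × ℕ × ℕ) : Matrix (Fin 3) (Fin 3) ℤ :=
  !![(n : ℤ), (x.2.1 : ℤ), (x.2.2.2 : ℤ);
     (x.2.1 : ℤ), (((x.2.1 ^ 2 + 4 * q * (D / (q * x.1 ^ 2))) / n : ℕ) : ℤ),
       (((2 * q * x.2.2.1 + x.2.1 * x.2.2.2) / n : ℕ) : ℤ);
     (x.2.2.2 : ℤ), (((2 * q * x.2.2.1 + x.2.1 * x.2.2.2) / n : ℕ) : ℤ),
       (((4 * q * ((x.2.2.1 ^ 2 + n) / (4 * (D / (q * x.1 ^ 2)))) + x.2.2.2 ^ 2) / n : ℕ) : ℤ)]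

theorem mm_symm (q n D : ℕ) (x : ℕ × ℕ × ℕ × ℕ) : (mm q n D x)ᵀ = mm q n D x := by
  ext i j
  fin_cases i <;> fin_cases j <;> rfl

/-- the matrices of the parameters belong to the genus, in terms of the entries -/
theorem pos_of {q : ℕ} (hq0 : 0 < q) {n μ ν d ee f β D2 g : ℤ} (hn : 0 < n) (hD2 : 0 < D2)
    (hc : IsCoprime (4 * (q : ℤ)) n)
    (hd : n * d = μ ^ 2 + 4 * q * D2) (hg : 4 * D2 * g = β ^ 2 + n)
    (hee : n * ee = 2 * q * β + μ * ν) (hf : n * f = 4 * q * g + ν ^ 2) :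
    PosQ q !![n, μ, ν; μ, d, ee; ν, ee, f] := by
  have hn0 : n ≠ 0 := hn.ne'
  have hc2 : IsCoprime (2 * (q : ℤ)) n := by
    obtain ⟨a, b, hab⟩ := hc
    exact ⟨2 * a, b, by linarith⟩
  have hq' : (0 : ℤ) < q := by exact_mod_cast hq0
  -- the entries of the adjugate
  have a33 : n * d - μ ^ 2 = 4 * q * D2 := by linarith
  have a23 : n * ee - μ * ν = 2 * q * β := by linarith
  have a22 : n * f - ν ^ 2 = 4 * q * g := by linarith
  have a13 : (2 * q : ℤ) ∣ μ * ee - ν * d := by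
    refine hc2.dvd_of_dvd_mul_left ⟨μ * β - 2 * ν * D2, ?_⟩
    linear_combination μ * hee - ν * hd
  have a12 : (2 * q : ℤ) ∣ μ * f - ν * ee := by
    refine hc2.dvd_of_dvd_mul_left ⟨2 * μ * g - ν * β, ?_⟩
    linear_combination μ * hf - ν * hee
  have a11 : (4 * q : ℤ) ∣ d * f - ee * ee := by
    have h1 : (4 * q : ℤ) ∣ n * (n * (d * f - ee * ee)) := by
      refine ⟨μ ^ 2 * g + ν ^ 2 * D2 - β * μ * ν + q * n, ?_⟩
      have e1 : n * (n * (d * f - ee * ee)) = (n * d) * (n * f) - (n * ee) ^ 2 := by ring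
      rw [e1, hd, hf, hee]
      linear_combination (4 * (q : ℤ) ^ 2) * hg
    exact hc.dvd_of_dvd_mul_left (hc.dvd_of_dvd_mul_left h1)
  have h24 : (2 * q : ℤ) ∣ 4 * q := ⟨2, by ring⟩
  refine ⟨?_, ?_, ?_, ?_, ?_, ?_⟩
  · ext i j
    fin_cases i <;> fin_cases j <;> rfl
  · exact hn
  · show 0 < n * d - μ ^ 2
    rw [a33]
    positivity
  · rw [det_fin_three]
    show n * d * f - n * ee * ee - μ * μ * f + μ * ee * ν + ν * μ * ee - ν * d * ν = 4 * (q : ℤ) ^ 2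
    apply mul_left_cancel₀ hn0
    have e1 : n * (n * d * f - n * ee * ee - μ * μ * f + μ * ee * ν + ν * μ * ee - ν * d * ν) =
        (n * d - μ ^ 2) * (n * f - ν ^ 2) - (n * ee - μ * ν) ^ 2 := by ring
    rw [e1, a33, a22, a23]
    linear_combination (4 * (q : ℤ) ^ 2) * hg
  · intro i j
    rw [adjugate_fin_three]
    fin_cases i <;> fin_cases j
    · show (2 * q : ℤ) ∣ d * f - ee * ee
      exact h24.trans a11
    · show (2 * q : ℤ) ∣ -(μ * f) + ν * ee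
      have := a12.neg_right
      rwa [neg_sub, sub_eq_add_neg, add_comm] at this
    · show (2 * q : ℤ) ∣ μ * ee - ν * d
      exact a13
    · show (2 * q : ℤ) ∣ -(μ * f) + ee * ν
      have := a12.neg_right
      rwa [neg_sub, sub_eq_add_neg, add_comm, mul_comm ν ee] at this
    · show (2 * q : ℤ) ∣ n * f - ν * ν
      have e : n * f - ν * ν = 4 * q * g := by rw [← a22]; ring
      rw [e]
      exact h24.trans (Dvd.intro _ rfl)
    · show (2 * q : ℤ) ∣ -(n * ee) + ν * μ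
      have e : -(n * ee) + ν * μ = 2 * q * (-β) := by linear_combination -a23
      rw [e]
      exact Dvd.intro _ rfl
    · show (2 * q : ℤ) ∣ μ * ee - d * ν
      rw [mul_comm d ν]
      exact a13
    · show (2 * q : ℤ) ∣ -(n * ee) + μ * ν
      have e : -(n * ee) + μ * ν = 2 * q * (-β) := by linear_combination -a23
      rw [e]
      exact Dvd.intro _ rfl
    · show (2 * q : ℤ) ∣ n * d - μ * μ
      have e : n * d - μ * μ = 4 * q * D2 := by rw [← a33]; ring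
      rw [e]
      exact h24.trans (Dvd.intro _ rfl)
  · intro i
    rw [adjugate_fin_three]
    fin_cases i
    · show (4 * q : ℤ) ∣ d * f - ee * ee
      exact a11
    · show (4 * q : ℤ) ∣ n * f - ν * ν
      have e : n * f - ν * ν = 4 * q * g := by rw [← a22]; ring
      rw [e]
      exact Dvd.intro _ rfl
    · show (4 * q : ℤ) ∣ n * d - μ * μ
      have e : n * d - μ * μ = 4 * q * D2 := by rw [← a33]; ring
      rw [e]
      exact Dvd.intro _ rfl

theorem mm_pos {q n D : ℕ} (hq0 : 0 < q) (hc : IsCoprime (4 * (q : ℤ)) n) {b : ℤ} {e μ β ν : ℕ}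
    (h : (e, μ, β, ν) ∈ XQ q n b D) : PosQ q (mm q n D (e, μ, β, ν)) := by
  obtain ⟨he, hD, hβ, hμ, hν, hb, hd, hg, hee, hf⟩ := wit_of_mem h
  show PosQ q !![(n : ℤ), (μ : ℤ), (ν : ℤ);
     (μ : ℤ), (((μ ^ 2 + 4 * q * (D / (q * e ^ 2))) / n : ℕ) : ℤ),
       (((2 * q * β + μ * ν) / n : ℕ) : ℤ);
     (ν : ℤ), (((2 * q * β + μ * ν) / n : ℕ) : ℤ),
       (((4 * q * ((β ^ 2 + n) / (4 * (D / (q * e ^ 2)))) + ν ^ 2) / n : ℕ) : ℤ)]
  generalize (μ ^ 2 + 4 * q * (D / (q * e ^ 2))) / n = d at *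
  generalize (2 * q * β + μ * ν) / n = ee at *
  generalize (4 * q * ((β ^ 2 + n) / (4 * (D / (q * e ^ 2)))) + ν ^ 2) / n = f at *
  generalize (β ^ 2 + n) / (4 * (D / (q * e ^ 2))) = g at *
  generalize D / (q * e ^ 2) = D2 at *
  exact pos_of hq0 (n := n) (μ := μ) (ν := ν) (d := d) (ee := ee) (f := f) (β := β) (D2 := D2)
    (g := g) (by exact_mod_cast (by omega : 0 < n)) (by exact_mod_cast (by omega : 0 < D2)) hc
    (by exact_mod_cast hd) (by exact_mod_cast hg) (by exact_mod_cast hee) (by exact_mod_cast hf)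

theorem gram_mm {q n D : ℕ} (hq : q = 3 ∨ q = 5) {e μ β ν : ℕ} {A : Matrix (Fin 3) (Fin 3) ℤ}
    (hA : Aᵀ * GG q * A = mm q n D (e, μ, β, ν)) {v w z : V3} (hc : A = cols v w z) :
    bl q v v = n ∧ bl q v w = μ ∧ bl q v z = ν ∧
      bl q w w = (((μ ^ 2 + 4 * q * (D / (q * e ^ 2))) / n : ℕ) : ℤ) ∧
      bl q w z = (((2 * q * β + μ * ν) / n : ℕ) : ℤ) ∧
      bl q z z = (((4 * q * ((β ^ 2 + n) / (4 * (D / (q * e ^ 2)))) + ν ^ 2) / n : ℕ) : ℤ) := by
  rw [hc, gram_iff hq v w z _ (mm_symm _ _ _ _)] at hA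
  exact hA

/-- the pairs -/
abbrev Pairs (q n : ℕ) (b m : ℤ) : Type :=
  {p : V3 × V3 // bl q p.1 p.1 = n ∧ bl q p.2 p.2 = m ∧ bl q p.1 p.2 = b}

theorem card_pairs {q : ℕ} (hq : q = 3 ∨ q = 5) (n : ℕ) (b m : ℤ) :
    Nat.card (Pairs q n b m) = cpg q n b m := by
  rw [cpg]
  apply Nat.subtype_card
  intro p
  rw [Finset.mem_filter, Finset.mem_product, mem_vec hq, mem_vec hq, and_assoc]

/-- the parameters and the frames -/
abbrev Fr (q n : ℕ) (b : ℤ) (D : ℕ) : Type :=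
  Σ x : {x : ℕ × ℕ × ℕ × ℕ // x ∈ XQ q n b D},
    {A : Matrix (Fin 3) (Fin 3) ℤ // Aᵀ * GG q * A = mm q n D x.1 ∧ A.det = 1}

theorem rot_pos (q : ℕ) : rot q ≠ 0 := by
  unfold rot
  split_ifs <;> norm_num

theorem card_fr (h : S_PCT) {q : ℕ} (hq : q = 3 ∨ q = 5) (n : ℕ) (hc : IsCoprime (4 * (q : ℤ)) n)
    (b : ℤ) (D : ℕ) : Nat.card (Fr q n b D) = rot q * (XQ q n b D).card := by
  have hq0 : 0 < q := by omega
  have h1 : ∀ x : {x : ℕ × ℕ × ℕ × ℕ // x ∈ XQ q n b D},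
      Nat.card {A : Matrix (Fin 3) (Fin 3) ℤ // Aᵀ * GG q * A = mm q n D x.1 ∧ A.det = 1} =
        rot q := by
    rintro ⟨⟨e, μ, β, ν⟩, hx⟩
    exact h q hq _ (mm_pos hq0 hc hx)
  haveI : ∀ x : {x : ℕ × ℕ × ℕ × ℕ // x ∈ XQ q n b D},
      Finite {A : Matrix (Fin 3) (Fin 3) ℤ // Aᵀ * GG q * A = mm q n D x.1 ∧ A.det = 1} := fun x =>
    Nat.finite_of_card_ne_zero (by rw [h1 x]; exact rot_pos q)
  rw [Nat.card_sigma, Finset.sum_congr rfl (fun x _ => h1 x), Finset.sum_const, smul_eq_mul,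
    Finset.card_univ, Fintype.card_coe, mul_comm]

/-- the pair attached to a frame -/
def toPair (b : ℤ) (n : ℕ) (x : ℕ × ℕ × ℕ × ℕ) (A : Matrix (Fin 3) (Fin 3) ℤ) : V3 × V3 :=
  (fun i => A i 0, (x.1 : ℤ) • (fun i => A i 1) + ((b - x.1 * x.2.1) / n) • (fun i => A i 0))

theorem toPair_mem {q n D : ℕ} (hq : q = 3 ∨ q = 5) {b m : ℤ}
    (hDD : 4 * (D : ℤ) = n * m - b ^ 2)
    {e μ β ν : ℕ} (hx : (e, μ, β, ν) ∈ XQ q n b D) {A : Matrix (Fin 3) (Fin 3) ℤ}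
    (hA : Aᵀ * GG q * A = mm q n D (e, μ, β, ν)) :
    bl q (toPair b n (e, μ, β, ν) A).1 (toPair b n (e, μ, β, ν) A).1 = n ∧
      bl q (toPair b n (e, μ, β, ν) A).2 (toPair b n (e, μ, β, ν) A).2 = m ∧
      bl q (toPair b n (e, μ, β, ν) A).1 (toPair b n (e, μ, β, ν) A).2 = b := by
  obtain ⟨h1, h2, h3, h4, h5, h6⟩ := gram_mm hq hA (cols_eq A)
  have hw := wit_of_mem hx
  simp only [toPair]
  generalize (fun i => A i 0) = v at *
  generalize (fun i => A i 1) = w at *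
  have hn : (n : ℤ) ≠ 0 := by
    have := hw.hμ
    exact_mod_cast (by omega : n ≠ 0)
  obtain ⟨k, hk⟩ := hw.hb
  have hk' : (b - e * μ) / (n : ℤ) = -k := by
    rw [show b - (e : ℤ) * μ = n * (-k) by linarith]
    exact Int.mul_ediv_cancel_left _ hn
  rw [hk']
  refine ⟨h1, ?_, ?_⟩
  · have e1 : bl q ((e : ℤ) • w + (-k) • v) ((e : ℤ) • w + (-k) • v) =
        e ^ 2 * bl q w w - 2 * e * k * bl q v w + k ^ 2 * bl q v v := by
      rw [bl_add, add_bl, add_bl, bl_smul, bl_smul, smul_bl, smul_bl, bl_smul, bl_smul,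
        smul_bl, smul_bl, bl_comm q w v]
      ring
    rw [e1, h1, h2, h4]
    have k1 : (n : ℤ) * (((μ ^ 2 + 4 * q * (D / (q * e ^ 2))) / n : ℕ) : ℤ) =
        μ ^ 2 + 4 * q * ((D / (q * e ^ 2) : ℕ) : ℤ) := by
      exact_mod_cast hw.hd
    have k2 : (D : ℤ) = q * e ^ 2 * ((D / (q * e ^ 2) : ℕ) : ℤ) := by exact_mod_cast hw.hD
    generalize (((μ ^ 2 + 4 * q * (D / (q * e ^ 2))) / n : ℕ) : ℤ) = d at *
    generalize ((D / (q * e ^ 2) : ℕ) : ℤ) = D2 at *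
    apply mul_left_cancel₀ hn
    have e2 : (n : ℤ) * (e ^ 2 * d - 2 * e * k * μ + k ^ 2 * n) =
        e ^ 2 * (n * d) - 2 * (e * μ) * (n * k) + (n * k) ^ 2 := by ring
    rw [e2, k1, ← hk]
    have e3 : (e : ℤ) ^ 2 * (μ ^ 2 + 4 * q * D2) - 2 * (e * μ) * (e * μ - b) + (e * μ - b) ^ 2 =
        4 * (q * e ^ 2 * D2) + b ^ 2 := by ring
    rw [e3, ← k2, hDD]
    ring
  · rw [bl_add, bl_smul, bl_smul, h1, h2]
    linarith

theorem toPair_inj {q n D : ℕ} (hq : q = 3 ∨ q = 5) {b : ℤ} {e μ β ν e' μ' β' ν' : ℕ}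
    (hx : (e, μ, β, ν) ∈ XQ q n b D) (hx' : (e', μ', β', ν') ∈ XQ q n b D)
    {A A' : Matrix (Fin 3) (Fin 3) ℤ} (hA : Aᵀ * GG q * A = mm q n D (e, μ, β, ν))
    (hd : A.det = 1)
    (hA' : A'ᵀ * GG q * A' = mm q n D (e', μ', β', ν')) (hd' : A'.det = 1)
    (h : toPair b n (e, μ, β, ν) A = toPair b n (e', μ', β', ν') A') :
    (e, μ, β, ν) = (e', μ', β', ν') ∧ A = A' := by
  have hq0 : (0 : ℤ) < q := by rcases hq with rfl | rfl <;> norm_num
  obtain ⟨h1, h2, h3, h4, h5, h6⟩ := gram_mm hq hA (cols_eq A)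
  obtain ⟨h1', h2', h3', h4', h5', h6'⟩ := gram_mm hq hA' (cols_eq A')
  rw [cols_eq A, det_cols] at hd
  rw [cols_eq A', det_cols] at hd'
  have hw := wit_of_mem hx
  have hw' := wit_of_mem hx'
  simp only [toPair, Prod.mk.injEq] at h
  obtain ⟨hv, hwv⟩ := h
  rw [cols_eq A, cols_eq A']
  rw [← hv] at h1' h2' h3' hd' hwv ⊢
  generalize (fun i => A i 0) = v at *
  generalize (fun i => A i 1) = w at *
  generalize (fun i => A i 2) = z at *
  generalize (fun i => A' i 1) = w' at *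
  generalize (fun i => A' i 2) = z' at *
  generalize (b - (e : ℤ) * μ) / (n : ℤ) = k at hwv
  generalize (b - (e' : ℤ) * μ') / (n : ℤ) = k' at hwv
  -- the content
  have c1 := congrArg (crs v) hwv
  rw [crs_lin, crs_lin] at c1
  rw [dd3_eq] at hd hd'
  have c2 := congrArg (fun u => dt u z) c1
  have c3 := congrArg (fun u => dt u z') c1
  simp only [smul_dt, hd, hd', mul_one] at c2 c3
  have hee : e = e' := by
    apply Nat.dvd_antisymm
    · have : (e : ℤ) ∣ e' := ⟨_, c3.symm⟩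
      exact_mod_cast this
    · have : (e' : ℤ) ∣ e := ⟨_, c2⟩
      exact_mod_cast this
  subst hee
  have he0 : (e : ℤ) ≠ 0 := by exact_mod_cast hw.he.ne'
  have c4 : crs v w = crs v w' := smul_right_injective _ he0 c1
  have hyv : dt (crs w z) v = 1 := by rw [dt_comm, ← dd3_eq', dd3_eq, hd]
  have c5 : crs v (w' - w) = 0 := by rw [crs_sub, c4, sub_self]
  have c6 := parallel hyv c5
  generalize dt (crs w z) (w' - w) = α at c6
  have c7 := congrArg (bl q v) c6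
  rw [bl_sub, bl_smul, h1, h2, h2'] at c7
  have hα : α = 0 := by
    have b1 : (μ : ℤ) < n := by exact_mod_cast hw.hμ
    have b2 : (μ' : ℤ) < n := by exact_mod_cast hw'.hμ
    have b3 : (0 : ℤ) ≤ μ := by positivity
    have b4 : (0 : ℤ) ≤ μ' := by positivity
    exact small c7 (by linarith) (by linarith)
  rw [hα, zero_smul, sub_eq_zero] at c6
  subst c6
  have hμ : μ = μ' := by
    rw [h2] at h2'
    exact_mod_cast h2'
  subst hμ
  -- the third vector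
  have c8 : dt (crs v w') (z' - z) = 0 := by rw [dt_sub, hd, hd', sub_self]
  have c9 := cramer3 v w' z (z' - z)
  rw [dd3_eq, hd, one_smul, dt_comm (z' - z) (crs v w'), c8, zero_smul, add_zero] at c9
  generalize dt (z' - z) (crs w' z) = p at c9
  generalize dt (z' - z) (crs z v) = t at c9
  have d1 := congrArg (bl q v) c9
  have d2 := congrArg (bl q w') c9
  rw [bl_sub, bl_add, bl_smul, bl_smul, h1, h2, h3, h3'] at d1
  rw [bl_sub, bl_add, bl_smul, bl_smul, bl_comm q w' v, h2, h4, h5, h5'] at d2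
  obtain ⟨he, hD, hβ, hμ, hν, hb, hd1, hg, hee, hf⟩ := hw
  obtain ⟨-, -, hβ', -, hν', -, -, hg', hee', hf'⟩ := hw'
  have k1 : (n : ℤ) * (((μ ^ 2 + 4 * q * (D / (q * e ^ 2))) / n : ℕ) : ℤ) =
      μ ^ 2 + 4 * q * ((D / (q * e ^ 2) : ℕ) : ℤ) := by
    exact_mod_cast hd1
  have k3 : (n : ℤ) * (((2 * q * β + μ * ν) / n : ℕ) : ℤ) = 2 * q * β + μ * ν := by
    exact_mod_cast hee
  have k3' : (n : ℤ) * (((2 * q * β' + μ * ν') / n : ℕ) : ℤ) = 2 * q * β' + μ * ν' := by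
    exact_mod_cast hee'
  have b1 : (β : ℤ) < 2 * ((D / (q * e ^ 2) : ℕ) : ℤ) := by exact_mod_cast hβ
  have b2 : (β' : ℤ) < 2 * ((D / (q * e ^ 2) : ℕ) : ℤ) := by exact_mod_cast hβ'
  have b3 : (0 : ℤ) ≤ β := by positivity
  have b4 : (0 : ℤ) ≤ β' := by positivity
  have b5 : (ν : ℤ) < n := by exact_mod_cast hν
  have b6 : (ν' : ℤ) < n := by exact_mod_cast hν'
  have b7 : (0 : ℤ) ≤ ν := by positivity
  have b8 : (0 : ℤ) ≤ ν' := by positivity
  generalize (((μ ^ 2 + 4 * q * (D / (q * e ^ 2))) / n : ℕ) : ℤ) = dd at *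
  generalize (((2 * q * β + μ * ν) / n : ℕ) : ℤ) = ee at *
  generalize (((2 * q * β' + μ * ν') / n : ℕ) : ℤ) = ee' at *
  generalize ((D / (q * e ^ 2) : ℕ) : ℤ) = D2 at *
  have hq1 : (β' : ℤ) - β = t * (2 * D2) := by
    have : (2 * (q : ℤ)) * (β' - β) = (2 * q) * (t * (2 * D2)) := by
      linear_combination (n : ℤ) * d2 - (μ : ℤ) * d1 + k3 - k3' + t * k1
    exact mul_left_cancel₀ (by positivity) this
  have hq0 : t = 0 := small hq1 (by linarith) (by linarith)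
  rw [hq0, zero_mul, add_zero] at d1
  have hp0 : p = 0 := small d1 (by linarith) (by linarith)
  rw [hq0, zero_mul] at hq1
  rw [hp0, zero_mul] at d1
  rw [hp0, hq0, zero_smul, zero_smul, add_zero, sub_eq_zero] at c9
  have e1 : β = β' := by exact_mod_cast (by linarith : (β : ℤ) = β')
  have e2 : ν = ν' := by exact_mod_cast (by linarith : (ν : ℤ) = ν')
  rw [e1, e2, c9]
  exact ⟨rfl, rfl⟩

theorem Fd_sub_smul (q : ℕ) (c d d' : V3) (t : ℤ) :
    Fd q c (d - t • d') = Fd q c d - t * Fd q c d' := by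
  unfold Fd
  split_ifs <;> simp only [Pi.sub_apply, Pi.smul_apply, smul_eq_mul] <;> ring

theorem Fd_self (q : ℕ) (c : V3) : Fd q c c = 2 * Qd q c := by
  unfold Fd Qd
  split_ifs <;> ring

theorem Qd_smul (q : ℕ) (c : V3) (t : ℤ) : Qd q (t • c) = t ^ 2 * Qd q c := by
  unfold Qd
  split_ifs <;> simp only [Pi.smul_apply, smul_eq_mul] <;> ring

theorem Qd_zero (q : ℕ) : Qd q 0 = 0 := by
  unfold Qd
  split_ifs <;> simp

theorem bl_self_nonneg {q : ℕ} (hq : q = 3 ∨ q = 5) (v : V3) : 0 ≤ bl q v v := by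
  have h1 := dt_le hq v
  rw [dt] at h1
  have := mul_self_nonneg (v 0)
  have := mul_self_nonneg (v 1)
  have := mul_self_nonneg (v 2)
  linarith

theorem toPair_surj {q n D : ℕ} (hq : q = 3 ∨ q = 5) {b m : ℤ} (hs : Squarefree n) (hD0 : 0 < D)
    (hDD : 4 * (D : ℤ) = n * m - b ^ 2) {v w : V3} (hv : bl q v v = n) (hw : bl q w w = m)
    (hvw : bl q v w = b) : ∃ (x : ℕ × ℕ × ℕ × ℕ) (A : Matrix (Fin 3) (Fin 3) ℤ),
      x ∈ XQ q n b D ∧ (Aᵀ * GG q * A = mm q n D x ∧ A.det = 1) ∧ toPair b n x A = (v, w) := by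
  have hq0 : 0 < q := by omega
  have hqZ : (0 : ℤ) < q := by exact_mod_cast hq0
  have hn0 : 0 < n := Nat.pos_of_ne_zero hs.ne_zero
  have hn : (0 : ℤ) < n := by exact_mod_cast hn0
  obtain ⟨y, hy⟩ := prim_of_sqfree (q := q) hs hv
  have hcc : (q : ℤ) * Qd q (crs v w) = D := by
    have h1 := L1 hq v w
    rw [hv, hw, hvw, ← hDD] at h1
    linarith
  have hc0 : crs v w ≠ 0 := by
    intro h0
    rw [h0, Qd_zero, mul_zero] at hcc
    have : D = 0 := by exact_mod_cast hcc.symm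
    omega
  obtain ⟨e, c, z0, he, hce, hz0⟩ := content (crs v w) hc0
  have heZ : (0 : ℤ) < e := by exact_mod_cast he
  have hcv : dt c v = 0 := by
    have h1 := dt_crs_left v w
    rw [hce, smul_dt] at h1
    exact (mul_eq_zero.1 h1).resolve_left heZ.ne'
  -- the second vector
  obtain ⟨w0, hw0⟩ : ∃ w0, w0 = crs c y := ⟨_, rfl⟩
  have hvw0 : crs v w0 = c := by
    rw [hw0, dcross, hy, dt_comm v c, hcv, one_smul, zero_smul, sub_zero]
  obtain ⟨w1, hw1⟩ : ∃ w1, w1 = w0 - (bl q v w0 / n) • v := ⟨_, rfl⟩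
  have hvw1 : crs v w1 = c := by rw [hw1, crs_sub_smul, hvw0]
  have hm : bl q v w1 = bl q v w0 % n := by
    rw [hw1, bl_sub, bl_smul, hv]
    have := Int.emod_add_mul_ediv (bl q v w0) n
    linarith
  have hm0 : 0 ≤ bl q v w1 := by rw [hm]; exact Int.emod_nonneg _ hn.ne'
  have hm1 : bl q v w1 < n := by rw [hm]; exact Int.emod_lt_of_pos _ hn
  -- the determinant
  have hDc : (q : ℤ) * e ^ 2 * Qd q c = D := by
    rw [← hcc, hce, Qd_smul]; ring
  have hc2 : n * bl q w1 w1 - bl q v w1 ^ 2 = 4 * q * Qd q c := by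
    have h1 := L1 hq v w1
    rw [hvw1, hv] at h1
    exact h1
  have hcpos : 0 < Qd q c := by
    have h1 : 0 < (q : ℤ) * e ^ 2 * Qd q c := by
      rw [hDc]
      exact_mod_cast hD0
    have h2 : 0 < (q : ℤ) * e ^ 2 := by positivity
    exact (mul_pos_iff_of_pos_left h2).1 h1
  have hcw1 : dt c w1 = 0 := by rw [← hvw1]; exact dt_crs_right v w1
  -- the third vector
  obtain ⟨B0, hB0⟩ : ∃ B0, B0 = Fd q c (crs v z0) := ⟨_, rfl⟩
  obtain ⟨z1, hz1⟩ : ∃ z1, z1 = z0 - (B0 / (2 * Qd q c)) • w1 := ⟨_, rfl⟩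
  obtain ⟨z2, hz2⟩ : ∃ z2, z2 = z1 - (bl q v z1 / n) • v := ⟨_, rfl⟩
  have hcz : dt c z2 = 1 := by
    rw [hz2, dt_sub, dt_smul, hcv, hz1, dt_sub, dt_smul, hcw1, hz0]; ring
  have hN : bl q v z2 = bl q v z1 % n := by
    rw [hz2, bl_sub, bl_smul, hv]
    have := Int.emod_add_mul_ediv (bl q v z1) n
    linarith
  have hN0 : 0 ≤ bl q v z2 := by rw [hN]; exact Int.emod_nonneg _ hn.ne'
  have hN1 : bl q v z2 < n := by rw [hN]; exact Int.emod_lt_of_pos _ hn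
  have hvz : crs v z2 = crs v z0 - (B0 / (2 * Qd q c)) • c := by
    rw [hz2, crs_sub_smul, hz1, crs_sub, crs_smul, hvw1]
  have hB : Fd q c (crs v z2) = B0 % (2 * Qd q c) := by
    rw [hvz, Fd_sub_smul, Fd_self, ← hB0]
    have h1 := Int.emod_add_mul_ediv B0 (2 * Qd q c)
    linarith
  have h2c : 0 < 2 * Qd q c := by linarith
  have hβ0 : 0 ≤ Fd q c (crs v z2) := by
    rw [hB]; exact Int.emod_nonneg _ h2c.ne'
  have hβ1 : Fd q c (crs v z2) < 2 * Qd q c := by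
    rw [hB]; exact Int.emod_lt_of_pos _ h2c
  have hdet : dd3 v w1 z2 = 1 := by rw [dd3_eq, hvw1, hcz]
  have hL3 : 4 * Qd q c * Qd q (crs v z2) - Fd q c (crs v z2) ^ 2 = n := by
    rw [L3 hq c (crs v z2), ← hvw1, L4, hdet, one_smul, hv]
  have hL2 : n * bl q w1 z2 - bl q v w1 * bl q v z2 = 2 * q * Fd q c (crs v z2) := by
    have h1 := L2 hq v w1 z2
    rw [hvw1, hv] at h1
    exact h1
  have hL1 : n * bl q z2 z2 - bl q v z2 ^ 2 = 4 * q * Qd q (crs v z2) := by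
    have h1 := L1 hq v z2
    rw [hv] at h1
    exact h1
  have hg0 : 0 ≤ Qd q (crs v z2) := by
    by_contra hcon
    push Not at hcon
    have h1 : 4 * Qd q c * Qd q (crs v z2) < 0 := mul_neg_of_pos_of_neg (by linarith) hcon
    have h2 := sq_nonneg (Fd q c (crs v z2))
    linarith
  -- the coefficient of `v` in `w`
  have hu : crs v (w - (e : ℤ) • w1) = 0 := by
    rw [crs_sub, crs_smul, hvw1, hce, sub_self]
  have hk := parallel (y := y) (by rw [dt_comm, hy]) hu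
  obtain ⟨k, hkdef⟩ : ∃ k, k = dt y (w - (e : ℤ) • w1) := ⟨_, rfl⟩
  rw [← hkdef] at hk
  have hbk : b - e * bl q v w1 = n * k := by
    have h1 := congrArg (bl q v) hk
    rw [bl_sub, bl_smul, bl_smul, hv, hvw] at h1
    linarith
  have hee0 : 0 ≤ bl q w1 z2 := by
    by_contra hcon
    push Not at hcon
    have h1 : (n : ℤ) * bl q w1 z2 < 0 := mul_neg_of_pos_of_neg hn hcon
    have h2 := mul_nonneg hm0 hN0
    have h3 : 0 ≤ 2 * (q : ℤ) * Fd q c (crs v z2) := by positivity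
    linarith
  -- natural numbers
  obtain ⟨μ, hμ⟩ : ∃ μ : ℕ, (μ : ℤ) = bl q v w1 := ⟨_, Int.toNat_of_nonneg hm0⟩
  obtain ⟨ν, hν⟩ : ∃ ν : ℕ, (ν : ℤ) = bl q v z2 := ⟨_, Int.toNat_of_nonneg hN0⟩
  obtain ⟨β, hβ⟩ : ∃ β : ℕ, (β : ℤ) = Fd q c (crs v z2) := ⟨_, Int.toNat_of_nonneg hβ0⟩
  obtain ⟨D2, hD2⟩ : ∃ D2 : ℕ, (D2 : ℤ) = Qd q c := ⟨_, Int.toNat_of_nonneg hcpos.le⟩
  obtain ⟨d, hd⟩ : ∃ d : ℕ, (d : ℤ) = bl q w1 w1 := ⟨_, Int.toNat_of_nonneg (bl_self_nonneg hq w1)⟩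
  obtain ⟨f, hf⟩ : ∃ f : ℕ, (f : ℤ) = bl q z2 z2 := ⟨_, Int.toNat_of_nonneg (bl_self_nonneg hq z2)⟩
  obtain ⟨ee, hee⟩ : ∃ ee : ℕ, (ee : ℤ) = bl q w1 z2 := ⟨_, Int.toNat_of_nonneg hee0⟩
  obtain ⟨g, hg⟩ : ∃ g : ℕ, (g : ℤ) = Qd q (crs v z2) := ⟨_, Int.toNat_of_nonneg hg0⟩
  have hW : Wt q n b D e μ β ν D2 d ee g f := by
    refine ⟨he, ?_, ?_, ?_, ?_, ?_, ?_, ?_, ?_, ?_⟩
    · rw [← hD2] at hDc
      exact_mod_cast hDc.symm
    · have : (β : ℤ) < 2 * D2 := by rw [hβ, hD2]; exact hβ1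
      exact_mod_cast this
    · have : (μ : ℤ) < n := by rw [hμ]; exact hm1
      exact_mod_cast this
    · have : (ν : ℤ) < n := by rw [hν]; exact hN1
      exact_mod_cast this
    · refine ⟨-k, ?_⟩
      rw [hμ]
      linarith
    · have : (n : ℤ) * d = μ ^ 2 + 4 * q * D2 := by rw [hd, hμ, hD2]; linarith
      exact_mod_cast this
    · have : 4 * (D2 : ℤ) * g = β ^ 2 + n := by rw [hD2, hg, hβ]; linarith
      exact_mod_cast this
    · have : (n : ℤ) * ee = 2 * q * β + μ * ν := by rw [hee, hβ, hμ, hν]; linarith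
      exact_mod_cast this
    · have : (n : ℤ) * f = 4 * q * g + ν ^ 2 := by rw [hf, hg, hν]; linarith
      exact_mod_cast this
  obtain ⟨hmem, e1, e2, e3, e4, e5⟩ := mem_of_wit hq0 hD0 hW
  refine ⟨(e, μ, β, ν), cols v w1 z2, hmem, ⟨?_, ?_⟩, ?_⟩
  · rw [gram_iff hq v w1 z2 _ (mm_symm _ _ _ _)]
    refine ⟨hv, hμ.symm, hν.symm, ?_, ?_, ?_⟩
    · show bl q w1 w1 = (((μ ^ 2 + 4 * q * (D / (q * e ^ 2))) / n : ℕ) : ℤ)
      rw [e2, hd]
    · show bl q w1 z2 = (((2 * q * β + μ * ν) / n : ℕ) : ℤ)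
      rw [e3, hee]
    · show bl q z2 z2 = (((4 * q * ((β ^ 2 + n) / (4 * (D / (q * e ^ 2)))) + ν ^ 2) / n : ℕ) : ℤ)
      rw [e5, hf]
  · rw [det_cols, hdet]
  · have hkk : (b - (e : ℤ) * μ) / n = k := by
      rw [hμ, hbk]
      exact Int.mul_ediv_cancel_left _ hn.ne'
    refine Prod.ext rfl ?_
    show (e : ℤ) • w1 + ((b - (e : ℤ) * μ) / n) • v = w
    rw [hkk, ← hk]
    abel

end PCC

open PCC in
/-- PCC -/
theorem t_PCC (h : S_PCT) : S_PCC := by
  intro q n m b D hK hs hD0 hDD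
  have hq : q = 3 ∨ q = 5 := by
    rcases hK with ⟨h1, _⟩ | ⟨h1, _⟩
    · exact Or.inr h1
    · exact Or.inl h1
  have hc : IsCoprime (4 * (q : ℤ)) n := by
    have h1 : Nat.Coprime (4 * q) n := by
      rcases hK with ⟨rfl, h2⟩ | ⟨rfl, h2⟩
      · unfold Kb at h2
        have h3 : n % 20 = 3 ∨ n % 20 = 7 := by omega
        show Nat.gcd 20 n = 1
        rw [Nat.gcd_rec]
        rcases h3 with h3 | h3 <;> rw [h3] <;> decide
      · unfold Kd at h2
        have h3 : n % 12 = 7 := by omega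
        show Nat.gcd 12 n = 1
        rw [Nat.gcd_rec, h3]
        decide
    have h2 := Nat.isCoprime_iff_coprime.2 h1
    exact_mod_cast h2
  rw [← card_fr h hq n hc b D, ← card_pairs hq]
  symm
  refine Nat.card_eq_of_bijective (fun p : Fr q n b D => (⟨toPair b n p.1.1 p.2.1,
    toPair_mem hq hDD p.1.2 p.2.2.1⟩ : Pairs q n b m)) ⟨?_, ?_⟩
  · rintro ⟨⟨⟨e, μ, β, ν⟩, hx⟩, ⟨A, hA⟩⟩ ⟨⟨⟨e', μ', β', ν'⟩, hx'⟩, ⟨A', hA'⟩⟩ heq
    have h1 := congrArg Subtype.val heq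
    obtain ⟨h2, h3⟩ := toPair_inj hq hx hx' hA.1 hA.2 hA'.1 hA'.2 h1
    simp only [Prod.mk.injEq] at h2
    obtain ⟨rfl, rfl, rfl, rfl⟩ := h2
    subst h3
    rfl
  · rintro ⟨⟨v, w⟩, hv, hw, hvw⟩
    obtain ⟨x, A, hx, hA, hp⟩ := toPair_surj hq hs hD0 hDD hv hw hvw
    exact ⟨⟨⟨x, hx⟩, ⟨A, hA⟩⟩, Subtype.ext hp⟩

end Pool.Agent.XV
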