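import Pool.Agent.XV.PCStm

/-!
# Project XV: the number of pairs of vectors for general binary forms
-/

set_option autoImplicit false

namespace Pool.Agent.XV

open Finset
open Pool.Agent.Z700 (V3 pr un hh)

noncomputable section

/-- PCG: the number of pairs of vectors with a given Gram matrix -/
def S_PCG : Prop := ∀ n : ℕ, Squarefree n → ∀ b m : ℤ, ∀ D : ℕ, 0 < D →
  4 * (D : ℤ) = n * m - b ^ 2 →
  (Kb n → (cpg 5 n b m : ℤ) =
    if Odd (D.factorization 5) then 6 * ∏ l ∈ D.primeFactors.erase 5, fc n D l else 0) ∧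
  (Kd n → (cpg 3 n b m : ℤ) =
    if Odd (D.factorization 3) then 12 * ∏ l ∈ D.primeFactors.erase 3, fc n D l else 0)

theorem cpa_eq (q n T : ℕ) : cpa q n T = cpg q n ((n : ℤ) - 2 * T) n := rfl

theorem pcg_ofq (h : S_PCGq) : S_PCG := by
  intro n hn b m D hD hDD
  refine ⟨fun hk => ?_, fun hk => ?_⟩
  · have h2 := h 5 n m b D (Or.inl ⟨rfl, hk⟩) hn hD hDD
    have h4 : (rot 5 : ℤ) = 6 := by
      unfold rot
      rw [if_pos rfl]
      norm_num
    rw [h2, h4]
  · have h2 := h 3 n m b D (Or.inr ⟨rfl, hk⟩) hn hD hDD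
    have h4 : (rot 3 : ℤ) = 12 := by
      unfold rot
      rw [if_neg (by norm_num)]
      norm_num
    rw [h2, h4]

end

end Pool.Agent.XV
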