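import Pool.Agent.XV.Defs2

/-!
# Project XV: the number of pairs of vectors with given Gram matrix (XV-14)

Statements. `n` is squarefree, of the class `b` (`q = 5`) or `d` (`q = 3`).  The pairs `(v, w)` of vectors of
`L q` with Gram matrix `(n, b; b, m)`, `4 D = n m - b²`, are parametrized by the matrices of the genus of
`GG q` in a normal form (`XQ`) and by the rotations.
-/

set_option autoImplicit false

namespace Pool.Agent.XV

open Finset Matrix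
open Pool.Agent.Z700 (V3)

noncomputable section

/-- the Gram matrix of `L q` -/
def GG (q : ℕ) : Matrix (Fin 3) (Fin 3) ℤ :=
  if q = 5 then !![3, -1, 1; -1, 7, 3; 1, 3, 7] else !![3, 0, 0; 0, 4, 2; 0, 2, 4]

/-- the number of the rotations of `L q` -/
def rot (q : ℕ) : ℕ := if q = 5 then 6 else 12

/-- the matrices of the genus of `GG q`: the adjugate is `2 q` times an even matrix -/
structure PosQ (q : ℕ) (M : Matrix (Fin 3) (Fin 3) ℤ) : Prop where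
  symm : Mᵀ = M
  pos1 : 0 < M 0 0
  pos2 : 0 < M 0 0 * M 1 1 - M 0 1 ^ 2
  det : M.det = 4 * (q : ℤ) ^ 2
  adj : ∀ i j, (2 * q : ℤ) ∣ M.adjugate i j
  ev : ∀ i, (4 * q : ℤ) ∣ M.adjugate i i

/-- PCT: the genus of `L q` has one class, and the number of the rotations -/
def S_PCT : Prop := ∀ q : ℕ, (q = 3 ∨ q = 5) → ∀ M : Matrix (Fin 3) (Fin 3) ℤ, PosQ q M →
  Nat.card {A : Matrix (Fin 3) (Fin 3) ℤ // Aᵀ * GG q * A = M ∧ A.det = 1} = rot q

/-- the parameters of the pairs with Gram matrix `(n, b; b, m)`, `4 D = n m - b²`: tuples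
`(e, μ, β, ν)` -/
def XQ (q n : ℕ) (b : ℤ) (D : ℕ) : Finset (ℕ × ℕ × ℕ × ℕ) :=
  (range (D + 1) ×ˢ range n ×ˢ range (2 * D) ×ˢ range n).filter fun x =>
    0 < x.1 ∧ q * x.1 ^ 2 ∣ D ∧ x.2.2.1 < 2 * (D / (q * x.1 ^ 2)) ∧
    (n : ℤ) ∣ x.1 * x.2.1 - b ∧ n ∣ x.2.1 ^ 2 + 4 * q * (D / (q * x.1 ^ 2)) ∧
    4 * (D / (q * x.1 ^ 2)) ∣ x.2.2.1 ^ 2 + n ∧ n ∣ 2 * q * x.2.2.1 + x.2.1 * x.2.2.2 ∧
    n ∣ 4 * q * ((x.2.2.1 ^ 2 + n) / (4 * (D / (q * x.1 ^ 2)))) + x.2.2.2 ^ 2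

/-- the class of `n` which belongs to `L q` -/
def Kq (q n : ℕ) : Prop := (q = 5 ∧ Kb n) ∨ (q = 3 ∧ Kd n)

/-- the number of the pairs of vectors with given Gram matrix -/
def cpg (q : ℕ) (n b m : ℤ) : ℕ := ((vec q n ×ˢ vec q m).filter fun x => bl q x.1 x.2 = b).card

/-- PCC: the pairs are parametrized by `XQ` and the rotations -/
def S_PCC : Prop := ∀ (q n : ℕ) (m b : ℤ) (D : ℕ), Kq q n → Squarefree n → 0 < D →
  4 * (D : ℤ) = n * m - b ^ 2 → cpg q n b m = rot q * (XQ q n b D).card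

/-- PCX: evaluation of the number of the parameters -/
def S_PCX : Prop := ∀ (q n : ℕ) (m b : ℤ) (D : ℕ), Kq q n → Squarefree n → 0 < D →
  4 * (D : ℤ) = n * m - b ^ 2 →
  ((XQ q n b D).card : ℤ) = if Odd (D.factorization q) then ∏ l ∈ D.primeFactors.erase q, fc n D l
    else 0

/-- PCG: the number of pairs of vectors with given Gram matrix -/
def S_PCGq : Prop := ∀ (q n : ℕ) (m b : ℤ) (D : ℕ), Kq q n → Squarefree n → 0 < D →
  4 * (D : ℤ) = n * m - b ^ 2 →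
  (cpg q n b m : ℤ) = if Odd (D.factorization q) then
    (rot q : ℤ) * ∏ l ∈ D.primeFactors.erase q, fc n D l else 0

theorem pcg_of (h1 : S_PCC) (h2 : S_PCX) : S_PCGq := by
  intro q n m b D hq hn hD hDD
  rw [h1 q n m b D hq hn hD hDD]
  push_cast
  rw [h2 q n m b D hq hn hD hDD]
  split_ifs with h
  · rfl
  · simp

theorem pc_of (h : S_PCGq) : S_PC := by
  intro n hn T hT hTn
  have h0 : 0 < T * (n - T) := Nat.mul_pos hT (by omega)
  have h1 : 4 * ((T * (n - T) : ℕ) : ℤ) = (n : ℤ) * (n : ℤ) - ((n : ℤ) - 2 * T) ^ 2 := by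
    rw [Nat.cast_mul, Nat.cast_sub hTn.le]
    ring
  refine ⟨fun hk => ?_, fun hk => ?_⟩
  · have h2 := h 5 n n ((n : ℤ) - 2 * T) (T * (n - T)) (Or.inl ⟨rfl, hk⟩) hn h0 h1
    have h3 : cpa 5 n T = cpg 5 n ((n : ℤ) - 2 * T) n := rfl
    rw [h3, h2, pf]
    have h4 : (rot 5 : ℤ) = 6 := by
      unfold rot
      rw [if_pos rfl]
      norm_num
    rw [h4]
  · have h2 := h 3 n n ((n : ℤ) - 2 * T) (T * (n - T)) (Or.inr ⟨rfl, hk⟩) hn h0 h1
    have h3 : cpa 3 n T = cpg 3 n ((n : ℤ) - 2 * T) n := rfl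
    rw [h3, h2, pf]
    have h4 : (rot 3 : ℤ) = 12 := by
      unfold rot
      rw [if_neg (by norm_num)]
      norm_num
    rw [h4]

end

end Pool.Agent.XV
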