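import Pool.Agent.XV.PSA

/-!
# Project XV: pairs of vectors with a common line
-/

set_option autoImplicit false

namespace Pool.Agent.XV.PSB

open Finset
open Pool.Agent.Z700 (V3)
open Pool.Agent.XV.PSA (L Co)

/-! ### the isometries -/

/-- an isometry with the standard form modulo `r` -/
structure Tr (q r : ℕ) (C Ci : V3 → V3) : Prop where
  rq : rl q = (r : ℤ)
  dot : ∀ v w : V3, (r : ℤ) ∣ C v 0 * C w 0 + C v 1 * C w 1 + C v 2 * C w 2 - bl q v w
  det : ∀ u v w : V3, d3 (C u) (C v) (C w) = d3 u v w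
  inv : ∀ y : V3, C (Ci y) = y
  inv' : ∀ v : V3, Ci (C v) = v
  sub : ∀ (v w : V3) (i : Fin 3), C (v - w) i = C v i - C w i
  dv : ∀ v : V3, (∀ i, (r : ℤ) ∣ v i) → ∀ i, (r : ℤ) ∣ C v i
  dvi : ∀ v : V3, (∀ i, (r : ℤ) ∣ v i) → ∀ i, (r : ℤ) ∣ Ci v i
  vecm : ∀ (m : ℤ) (v : V3), v ∈ vec q m ↔ bl q v v = m

/-- the isometry for `q = 5` -/
def C5 (v : V3) : V3 := ![-v 0 - v 2, -v 0, -v 0 + v 1]

/-- its inverse -/
def D5 (y : V3) : V3 := ![-y 1, -y 1 + y 2, -y 0 + y 1]

/-- the isometry for `q = 3` -/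
def C3 (v : V3) : V3 := ![-v 0 - 2 * v 1 + v 2, -v 0 - 2 * v 1 + 2 * v 2, -v 0 - v 1 + 2 * v 2]

/-- its inverse -/
def D3 (y : V3) : V3 := ![-2 * y 0 + 3 * y 1 - 2 * y 2, -y 1 + y 2, -y 0 + y 1]

theorem box {q : ℕ} (h : ∀ v : V3, v 0 * v 0 + v 1 * v 1 + v 2 * v 2 ≤ bl q v v) (m : ℤ) (v : V3) :
    v ∈ vec q m ↔ bl q v v = m := by
  unfold vec
  rw [Finset.mem_filter]
  constructor
  · exact fun h => h.2
  · intro hm
    refine ⟨?_, hm⟩
    rw [Fintype.mem_piFinset]
    intro i
    rw [Finset.mem_Icc]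
    have hh := h v
    rw [hm] at hh
    have h0 := mul_self_nonneg (v 0)
    have h1 := mul_self_nonneg (v 1)
    have h2 := mul_self_nonneg (v 2)
    have key : v i * v i ≤ m := by
      fin_cases i
      · show v 0 * v 0 ≤ m
        linarith
      · show v 1 * v 1 ≤ m
        linarith
      · show v 2 * v 2 ≤ m
        linarith
    have k2 : v i ≤ v i * v i := by
      rcases le_or_gt (v i) 0 with h | h
      · nlinarith [mul_self_nonneg (v i)]
      · nlinarith
    have k3 : -v i ≤ v i * v i := by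
      rcases le_or_gt 0 (v i) with h | h
      · nlinarith [mul_self_nonneg (v i)]
      · nlinarith
    constructor <;> linarith

theorem tr5 : Tr 5 3 C5 D5 where
  rq := rfl
  dot v w := by
    refine ⟨-2 * (v 1 * w 1) - (v 1 * w 2 + v 2 * w 1) - 2 * (v 2 * w 2), ?_⟩
    simp only [C5, bl, if_true, Matrix.cons_val_zero, Matrix.cons_val_one, Matrix.cons_val]
    push_cast
    ring
  det u v w := by
    simp only [C5, d3, Matrix.cons_val_zero, Matrix.cons_val_one, Matrix.cons_val]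
    ring
  inv y := by
    ext i
    fin_cases i <;> simp [C5, D5]
  inv' y := by
    ext i
    fin_cases i <;> simp [C5, D5]
  sub v w i := by
    fin_cases i <;> simp [C5] <;> ring
  dv v h i := by
    obtain ⟨a, ha⟩ := h 0
    obtain ⟨b, hb⟩ := h 1
    obtain ⟨c, hc⟩ := h 2
    fin_cases i <;> simp only [C5, Fin.zero_eta, Fin.mk_one, Fin.reduceFinMk,
      Matrix.cons_val_zero, Matrix.cons_val_one, Matrix.cons_val] <;> push_cast at * <;> omega
  dvi v h i := by
    obtain ⟨a, ha⟩ := h 0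
    obtain ⟨b, hb⟩ := h 1
    obtain ⟨c, hc⟩ := h 2
    fin_cases i <;> simp only [D5, Fin.zero_eta, Fin.mk_one, Fin.reduceFinMk,
      Matrix.cons_val_zero, Matrix.cons_val_one, Matrix.cons_val] <;> push_cast at * <;> omega
  vecm := box fun v => by
    have : bl 5 v v = v 0 * v 0 + v 1 * v 1 + v 2 * v 2 + ((v 0 - v 1 + v 2) ^ 2 + v 0 ^ 2 +
        4 * (v 1 + v 2) ^ 2 + v 1 ^ 2 + v 2 ^ 2) := by
      simp only [bl, if_true]
      ring
    rw [this]
    have := sq_nonneg (v 0 - v 1 + v 2)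
    have := sq_nonneg (v 0)
    have := sq_nonneg (v 1 + v 2)
    have := sq_nonneg (v 1)
    have := sq_nonneg (v 2)
    linarith

theorem tr3 : Tr 3 5 C3 D3 where
  rq := rfl
  dot v w := by
    refine ⟨(v 0 * w 1 + v 1 * w 0) - (v 0 * w 2 + v 2 * w 0) + v 1 * w 1 -
      2 * (v 1 * w 2 + v 2 * w 1) + v 2 * w 2, ?_⟩
    simp only [C3, bl, if_neg (by norm_num : ¬ (3 : ℕ) = 5), Matrix.cons_val_zero,
      Matrix.cons_val_one, Matrix.cons_val]
    push_cast
    ring
  det u v w := by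
    simp only [C3, d3, Matrix.cons_val_zero, Matrix.cons_val_one, Matrix.cons_val]
    ring
  inv y := by
    ext i
    fin_cases i <;> simp [C3, D3] <;> ring
  inv' y := by
    ext i
    fin_cases i <;> simp [C3, D3] <;> ring
  sub v w i := by
    fin_cases i <;> simp [C3] <;> ring
  dv v h i := by
    obtain ⟨a, ha⟩ := h 0
    obtain ⟨b, hb⟩ := h 1
    obtain ⟨c, hc⟩ := h 2
    fin_cases i <;> simp only [C3, Fin.zero_eta, Fin.mk_one, Fin.reduceFinMk,
      Matrix.cons_val_zero, Matrix.cons_val_one, Matrix.cons_val] <;> push_cast at * <;> omega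
  dvi v h i := by
    obtain ⟨a, ha⟩ := h 0
    obtain ⟨b, hb⟩ := h 1
    obtain ⟨c, hc⟩ := h 2
    fin_cases i <;> simp only [D3, Fin.zero_eta, Fin.mk_one, Fin.reduceFinMk,
      Matrix.cons_val_zero, Matrix.cons_val_one, Matrix.cons_val] <;> push_cast at * <;> omega
  vecm := box fun v => by
    have : bl 3 v v = v 0 * v 0 + v 1 * v 1 + v 2 * v 2 + (2 * v 0 ^ 2 +
        2 * (v 1 + v 2) ^ 2 + v 1 ^ 2 + v 2 ^ 2) := by
      simp only [bl, if_neg (by norm_num : ¬ (3 : ℕ) = 5)]
      ring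
    rw [this]
    have := sq_nonneg (v 0)
    have := sq_nonneg (v 1 + v 2)
    have := sq_nonneg (v 1)
    have := sq_nonneg (v 2)
    linarith

/-! ### transport -/

/-- reduction modulo `r` -/
def cst (r : ℕ) (v : V3) : Fin 3 → ZMod r := fun i => (v i : ZMod r)

section

variable {q r : ℕ} [hrp : Fact r.Prime] {C Ci : V3 → V3}

theorem zd (x : ℤ) : (r : ℤ) ∣ x ↔ (x : ZMod r) = 0 := (ZMod.intCast_zmod_eq_zero_iff_dvd x r).symm

theorem onl_iff (h : Tr q r C Ci) (n v : V3) (β : ℤ) :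
    OnL q n β v ↔ L (cst r (C v)) (cst r (C n)) (-(β : ZMod r)) := by
  unfold OnL
  rw [h.rq]
  constructor
  · intro H
    have key : ∀ y : V3, (d3 (C v) (C n) y + β * (C n 0 * y 0 + C n 1 * y 1 + C n 2 * y 2) : ℤ) =
        (0 : ZMod r) := by
      intro y
      rw [← zd]
      have h1 := H (Ci y)
      have h2 := h.dot n (Ci y)
      have h3 := h.det v n (Ci y)
      rw [h.inv] at h2 h3
      rw [h3]
      have h4 := dvd_add h1 (h2.mul_left β)
      have : d3 v n (Ci y) + β * bl q n (Ci y) + β * (C n 0 * y 0 + C n 1 * y 1 + C n 2 * y 2 -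
          bl q n (Ci y)) = d3 v n (Ci y) + β * (C n 0 * y 0 + C n 1 * y 1 + C n 2 * y 2) := by ring
      rwa [this] at h4
    have k0 := key ![1, 0, 0]
    have k1 := key ![0, 1, 0]
    have k2 := key ![0, 0, 1]
    simp only [d3, Matrix.cons_val_zero, Matrix.cons_val_one, Matrix.cons_val] at k0 k1 k2
    push_cast at k0 k1 k2
    refine ⟨?_, ?_, ?_⟩ <;> simp only [cst]
    · linear_combination k0
    · linear_combination k1
    · linear_combination k2
  · rintro ⟨h0, h1, h2⟩ w
    simp only [cst] at h0 h1 h2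
    rw [← h.det v n w]
    have h3 := h.dot n w
    have h4 : (r : ℤ) ∣ d3 (C v) (C n) (C w) + β * (C n 0 * C w 0 + C n 1 * C w 1 + C n 2 * C w 2) := by
      rw [zd]
      simp only [d3]
      push_cast
      linear_combination (C w 0 : ZMod r) * h0 + (C w 1 : ZMod r) * h1 + (C w 2 : ZMod r) * h2
    have h5 := dvd_sub h4 (h3.mul_left β)
    have : d3 (C v) (C n) (C w) + β * (C n 0 * C w 0 + C n 1 * C w 1 + C n 2 * C w 2) -
        β * (C n 0 * C w 0 + C n 1 * C w 1 + C n 2 * C w 2 - bl q n w) =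
        d3 (C v) (C n) (C w) + β * bl q n w := by ring
    rwa [this] at h5

theorem com_iff (h : Tr q r C Ci) (v w : V3) (β : ℤ) :
    Com q β v w ↔ Co (cst r (C v)) (cst r (C w)) (-(β : ZMod r)) (-(β : ZMod r)) := by
  unfold Com
  constructor
  · rintro ⟨n, hn, h1, h2⟩
    refine ⟨cst r (C n), ?_, (onl_iff h n v β).1 h1, (onl_iff h n w β).1 h2⟩
    intro h0
    apply hn
    rw [h.rq, ← h.inv' n]
    refine h.dvi _ fun i => ?_
    rw [zd]
    exact congrFun h0 i
  · rintro ⟨n, hn, h1, h2⟩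
    have e : cst r (C (Ci fun i => ((n i).val : ℤ))) = n := by
      rw [h.inv]
      funext i
      simp only [cst]
      push_cast
      exact ZMod.natCast_zmod_val (n i)
    refine ⟨Ci fun i => ((n i).val : ℤ), ?_, ?_, ?_⟩
    · intro h0
      apply hn
      rw [← e]
      rw [h.rq] at h0
      funext i
      have := h.dv _ h0 i
      rw [zd] at this
      exact this
    · rw [onl_iff h, e]
      exact h1
    · rw [onl_iff h, e]
      exact h2

theorem dot_cast (h : Tr q r C Ci) (v w : V3) :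
    ((bl q v w : ℤ) : ZMod r) = cst r (C v) 0 * cst r (C w) 0 + cst r (C v) 1 * cst r (C w) 1 +
      cst r (C v) 2 * cst r (C w) 2 := by
  have := h.dot v w
  rw [zd] at this
  push_cast at this
  simp only [cst]
  linear_combination -this

omit hrp in
theorem com_neg (v w : V3) (β : ℤ) (h : Com q β v w) : Com q (-β) (-v) (-w) := by
  obtain ⟨n, hn, h1, h2⟩ := h
  have key : ∀ u : V3, OnL q n β u → OnL q n (-β) (-u) := by
    intro u hu y
    have := hu y
    have e : d3 (-u) n y + -β * bl q n y = -(d3 u n y + β * bl q n y) := by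
      simp only [d3, Pi.neg_apply]
      ring
    rw [e]
    exact (dvd_neg).2 this
  exact ⟨n, hn, key v h1, key w h2⟩

omit hrp in
theorem bl_neg (v w : V3) : bl q (-v) (-w) = bl q v w := by
  unfold bl
  split_ifs <;> simp only [Pi.neg_apply] <;> ring

end

end Pool.Agent.XV.PSB
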