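import Pool.Agent.XV.Defs2
import Pool.Agent.NH2.Parb

/-!
# Project XV: the value of the counting function at a parabolic element (helper80)
-/

set_option autoImplicit false

namespace Pool.Agent.XV

open Finset
open Pool.Agent.Z700 (pr)
open Pool.Agent.NH2 (ev cx)
open Pool.Agent.NH2.Parb (act ev_act act_inv eqv lo lo_act cx_eq_lo dvd_pr prod_jac jac_m1 fin_pair
  ev10 ev01 ev_neg)

noncomputable section

namespace Parb

/-! ### the character sum -/

theorem exists_neg {X : Finset ℕ} (hX : Pq X) (hne : X.Nonempty) :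
    ∃ u : ℤ, jacobiSym u (pr X) = -1 := by
  classical
  obtain ⟨p, hp⟩ := hne
  obtain ⟨hp1, hp2, -⟩ := hX p hp
  have : Fact p.Prime := ⟨hp1⟩
  have hcop : Nat.Coprime p (∏ q ∈ X.erase p, q) := by
    apply Nat.Coprime.prod_right
    intro q hq
    rw [Finset.mem_erase] at hq
    exact (Nat.coprime_primes hp1 (hX q hq.2).1).2 (Ne.symm hq.1)
  have hpr : pr X = p * ∏ q ∈ X.erase p, q := by
    unfold pr
    rw [Finset.mul_prod_erase X (fun q => q) hp]
  obtain ⟨r, hr⟩ : ∃ r : ZMod p, ¬ IsSquare r := by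
    have := FiniteField.exists_nonsquare (F := ZMod p) (by rw [ZMod.ringChar_zmod_n]; exact hp2)
    exact this
  obtain ⟨u, hu1, hu2⟩ := Nat.chineseRemainder hcop r.val 1
  refine ⟨(u : ℤ), ?_⟩
  have : NeZero p := ⟨hp1.ne_zero⟩
  have hne0 : (∏ q ∈ X.erase p, q) ≠ 0 := by
    rw [Finset.prod_ne_zero_iff]
    intro q hq
    exact (hX q (Finset.mem_of_mem_erase hq)).1.ne_zero
  have : NeZero (∏ q ∈ X.erase p, q) := ⟨hne0⟩
  rw [hpr, jacobiSym.mul_right]
  have e1 : jacobiSym (u : ℤ) (∏ q ∈ X.erase p, q) = 1 := by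
    rw [jacobiSym.mod_left]
    have h1 : ((u : ℤ) % ((∏ q ∈ X.erase p, q : ℕ) : ℤ)) = (1 : ℤ) % ((∏ q ∈ X.erase p, q : ℕ) : ℤ) := by
      have := hu2
      unfold Nat.ModEq at this
      exact_mod_cast this
    rw [h1, ← jacobiSym.mod_left, jacobiSym.one_left]
  have e2 : jacobiSym (u : ℤ) p = -1 := by
    rw [← jacobiSym.legendreSym.to_jacobiSym]
    rw [legendreSym.eq_neg_one_iff]
    have h1 : ((u : ℤ) : ZMod p) = r := by
      have h2 := (ZMod.natCast_eq_natCast_iff u r.val p).2 hu1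
      rw [ZMod.natCast_val, ZMod.cast_id', id] at h2
      rw [Int.cast_natCast, h2]
    rw [h1]
    exact hr
  rw [e1, e2]
  norm_num

theorem pr_odd {X : Finset ℕ} (hX : Pq X) : ((pr X : ℕ) : ℤ) % 2 = 1 := by
  have hodd : Odd (pr X) := by
    unfold pr
    apply Finset.prod_induction _ Odd (fun a b => Odd.mul) odd_one
    intro p hp
    obtain ⟨h1, h2, -⟩ := hX p hp
    exact h1.odd_of_ne_two h2
  rw [Nat.odd_iff] at hodd
  omega

theorem pr_3 {X : Finset ℕ} (hX : Pq X) : ((pr X : ℕ) : ℤ) % 3 ≠ 0 := by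
  intro h
  have h1 : 3 ∣ pr X := by omega
  unfold pr at h1
  rw [(Nat.prime_iff.1 (by norm_num : Nat.Prime 3)).dvd_finsetProd_iff] at h1
  obtain ⟨p, hp, h2⟩ := h1
  obtain ⟨h3, -, h4, -⟩ := hX p hp
  exact h4 ((Nat.prime_dvd_prime_iff_eq (by norm_num) h3).1 h2).symm

theorem pr_5 {X : Finset ℕ} (hX : Pq X) : ((pr X : ℕ) : ℤ) % 5 ≠ 0 := by
  intro h
  have h1 : 5 ∣ pr X := by omega
  unfold pr at h1
  rw [(Nat.prime_iff.1 (by norm_num : Nat.Prime 5)).dvd_finsetProd_iff] at h1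
  obtain ⟨p, hp, h2⟩ := h1
  obtain ⟨h3, -, -, h4⟩ := hX p hp
  exact h4 ((Nat.prime_dvd_prime_iff_eq (by norm_num) h3).1 h2).symm

theorem sum_jac {X : Finset ℕ} (hX : Pq X) (hne : X.Nonempty) (r : ℕ) :
    ∑ c ∈ range (pr X), jacobiSym (5 * (c : ℤ) + r) (pr X) = 0 := by
  obtain ⟨u, hu⟩ := exists_neg hX hne
  have hodd : Odd (pr X) := by
    unfold pr
    apply Finset.prod_induction _ Odd (fun a b => Odd.mul) odd_one
    intro p hp
    obtain ⟨h1, h2, -⟩ := hX p hp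
    exact h1.odd_of_ne_two h2
  have hm0 : pr X ≠ 0 := by
    intro h; rw [h] at hodd; exact absurd hodd (by decide)
  set m := pr X with hm
  have : NeZero m := ⟨hm0⟩
  set f : ZMod m → ℤ := fun x => jacobiSym (x.val : ℤ) m with hf
  have hfi : ∀ a : ℤ, f ((a : ℤ) : ZMod m) = jacobiSym a m := by
    intro a
    rw [hf]
    simp only
    rw [ZMod.val_intCast, ← jacobiSym.mod_left]
  have hsurj : ∀ x : ZMod m, ∃ a : ℤ, (a : ZMod m) = x := fun x => ZMod.intCast_surjective x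
  have hmul : ∀ x : ZMod m, f ((u : ZMod m) * x) = - f x := by
    intro x
    obtain ⟨a, rfl⟩ := hsurj x
    rw [← Int.cast_mul, hfi, hfi, jacobiSym.mul_left, hu]
    ring
  have hcopu : IsUnit (u : ZMod m) := by
    have h1 : u.gcd (m : ℤ) = 1 := by
      by_contra h2
      have h3 := jacobiSym.eq_zero_iff_not_coprime.2 h2
      rw [h3] at hu
      norm_num at hu
    have h2 : IsCoprime u (m : ℤ) := Int.isCoprime_iff_gcd_eq_one.2 h1
    obtain ⟨s, t, hst⟩ := h2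
    refine IsUnit.of_mul_eq_one (s : ZMod m) ?_
    have := congrArg (fun z : ℤ => (z : ZMod m)) hst
    push_cast at this
    rw [ZMod.natCast_self, mul_zero, add_zero] at this
    rw [mul_comm]; exact this
  have hcop2 : IsUnit (5 : ZMod m) := by
    have h1 : Nat.Coprime 5 m := by
      rw [Nat.Prime.coprime_iff_not_dvd (by norm_num)]
      intro h2
      have := pr_5 hX
      omega
    have := (ZMod.isUnit_iff_coprime 5 m).2 h1
    simpa using this
  have hsum : ∑ x : ZMod m, f x = 0 := by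
    have hb : Function.Bijective (fun x : ZMod m => (u : ZMod m) * x) :=
      Finite.injective_iff_bijective.1 hcopu.mul_right_injective
    have h1 : ∑ x : ZMod m, f ((u : ZMod m) * x) = ∑ x : ZMod m, f x := hb.sum_comp f
    rw [Finset.sum_congr rfl (fun x _ => hmul x), Finset.sum_neg_distrib] at h1
    linarith
  have hb2 : Function.Bijective (fun x : ZMod m => (5 : ZMod m) * x + r) := by
    apply Finite.injective_iff_bijective.1
    intro x y hxy
    simp only at hxy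
    exact hcop2.mul_right_injective (add_right_cancel hxy)
  have h2 : ∑ x : ZMod m, f ((5 : ZMod m) * x + r) = 0 := by
    rw [hb2.sum_comp f, hsum]
  rw [← h2]
  refine Finset.sum_nbij' (fun c => (c : ZMod m)) (fun x => x.val) ?_ ?_ ?_ ?_ ?_
  · intro c _
    exact Finset.mem_univ _
  · intro x _
    rw [Finset.mem_range]
    exact ZMod.val_lt x
  · intro c hc
    rw [Finset.mem_range] at hc
    exact ZMod.val_cast_of_lt hc
  · intro x _
    exact ZMod.natCast_zmod_val x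
  · intro c _
    have := hfi (5 * (c : ℤ) + r)
    push_cast at this
    rw [this]

/-! ### the substitution -/

theorem Fm_act {X : Finset ℕ} {k a b c d : ℤ} (h : a * d - b * c = 1) (hc : (15 : ℤ) ∣ c)
    {q : ℤ × ℤ × ℤ} (hq : Fm X k q) : Fm X k (act a b c d q) := by
  obtain ⟨A, B, C⟩ := q
  obtain ⟨c1, rfl⟩ := hc
  obtain ⟨h1, ⟨A1, h2⟩, ⟨B1, h3⟩⟩ := hq
  simp only at h1 h2 h3
  refine ⟨?_, ?_, ?_⟩
  · unfold act
    simp only
    linear_combination (a * d - b * (15 * c1)) ^ 2 * h1 +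
      (pr X : ℤ) ^ 2 * (a * d - b * (15 * c1) + 1) * h
  · unfold act
    simp only
    exact ⟨A1 * a ^ 2 + B * a * c1 + C * c1 ^ 2 * 15, by rw [h2]; ring⟩
  · unfold act
    simp only
    refine ⟨B1 + A1 * a * b + B * b * c1 + C * c1 * d, ?_⟩
    rw [h2]
    linear_combination B * h + h3

theorem Fm_act_iff {X : Finset ℕ} {k a b c d : ℤ} (h : a * d - b * c = 1) (hc : (15 : ℤ) ∣ c)
    {q : ℤ × ℤ × ℤ} : Fm X k (act a b c d q) ↔ Fm X k q := by
  refine ⟨fun hq => ?_, Fm_act h hc⟩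
  have h' : d * a - (-b) * (-c) = 1 := by linear_combination h
  have h1 := Fm_act h' (hc.neg_right) hq
  rwa [act_inv h] at h1

/-! ### the genus character -/

theorem cx_act {X : Finset ℕ} (hX : Pq X) {k a b c d : ℤ} (h : a * d - b * c = 1)
    {q : ℤ × ℤ × ℤ} (hq : Fm X k q) : cx X (act a b c d q) = cx X q := by
  rw [cx_eq_lo, cx_eq_lo]
  apply Finset.prod_congr rfl
  intro p hp
  obtain ⟨h1, h2, -⟩ := hX p hp
  apply lo_act h1 h2 h
  rw [hq.1]
  exact dvd_pow (dvd_pr hp) (by norm_num)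

theorem pm_ne {X : Finset ℕ} (hX : Pq X) : ∀ p ∈ X, p ≠ 0 := fun p hp => (hX p hp).1.ne_zero

theorem cx_neg {X : Finset ℕ} (hX : Pq X) (hm : pr X % 4 = 1) (q : ℤ × ℤ × ℤ) :
    cx X (-q) = cx X q := by
  have h1 : ∀ p ∈ X, lo p (-q.1) (-q.2.2) = jacobiSym (-1) p * lo p q.1 q.2.2 := by
    intro p _
    have h2 : ∀ z : ℤ, jacobiSym (-z) p = jacobiSym (-1) p * jacobiSym z p := by
      intro z
      rw [← jacobiSym.mul_left]
      congr 1
      ring
    unfold lo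
    by_cases h : (p : ℤ) ∣ q.1
    · rw [if_pos h, if_pos ((dvd_neg).2 h), h2]
    · rw [if_neg h, if_neg (fun h3 => h ((dvd_neg).1 h3)), h2]
  have h3 : cx X (-q) = ∏ p ∈ X, lo p (-q.1) (-q.2.2) := rfl
  rw [h3, Finset.prod_congr rfl h1, Finset.prod_mul_distrib, cx_eq_lo, prod_jac (pm_ne hX),
    jac_m1 hm, one_mul]

/-! ### the signs -/

open Classical in
/-- the difference of the signs at two points -/
def T (X : Finset ℕ) (x M y N : ℤ) (q : ℤ × ℤ × ℤ) : ℤ :=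
  if Fm X 11 q then cx X q * (Int.sign (ev q x M) - Int.sign (ev q y N)) else 0

theorem T_act {X : Finset ℕ} (hX : Pq X) {a b c d : ℤ} (h : a * d - b * c = 1)
    (hc : (15 : ℤ) ∣ c) (x M y N : ℤ) (q : ℤ × ℤ × ℤ) :
    T X (a * x + b * M) (c * x + d * M) (a * y + b * N) (c * y + d * N) q =
      T X x M y N (act a b c d q) := by
  unfold T
  by_cases hq : Fm X 11 q
  · rw [if_pos hq, if_pos (Fm_act h hc hq), cx_act hX h hq, ev_act, ev_act]
  · rw [if_neg hq, if_neg (fun h1 => hq ((Fm_act_iff h hc).1 h1))]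

theorem T_add (X : Finset ℕ) (x M y N z L : ℤ) (q : ℤ × ℤ × ℤ) :
    T X x M z L q = T X x M y N q + T X y N z L q := by
  unfold T
  split_ifs
  · ring
  · ring

theorem A_ne {X : Finset ℕ} (hX : Pq X) {q : ℤ × ℤ × ℤ} (hq : Fm X 11 q) : q.1 ≠ 0 := by
  intro h0
  obtain ⟨h1, -, h3⟩ := hq
  have i1 := pr_odd hX
  have i2 := pr_3 hX
  have i3 := pr_5 hX
  rw [h0] at h1
  have h4 : (q.2.1 - pr X) * (q.2.1 + pr X) = 0 := by linear_combination h1
  rcases mul_eq_zero.1 h4 with h5 | h5 <;> omega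

theorem C_ne {X : Finset ℕ} (hX : Pq X) {q : ℤ × ℤ × ℤ} (hq : Fm X 11 q) : q.2.2 ≠ 0 := by
  intro h0
  obtain ⟨h1, -, h3⟩ := hq
  have i1 := pr_odd hX
  have i2 := pr_3 hX
  have i3 := pr_5 hX
  rw [h0] at h1
  have h4 : (q.2.1 - pr X) * (q.2.1 + pr X) = 0 := by linear_combination h1
  rcases mul_eq_zero.1 h4 with h5 | h5 <;> omega

theorem hγ : (-14 : ℤ) * 16 - 5 * (-45) = 1 := by norm_num

theorem hγ' : (15 : ℤ) ∣ -45 := ⟨-3, by norm_num⟩

theorem ev516 {X : Finset ℕ} (hX : Pq X) {q : ℤ × ℤ × ℤ} (hq : Fm X 11 q) : ev q 5 16 ≠ 0 := by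
  have h1 := C_ne hX (Fm_act hγ hγ' hq)
  rw [← ev01, ev_act] at h1
  norm_num at h1
  exact h1

/-! ### finiteness -/

theorem T_supp {X : Finset ℕ} {x M y N : ℤ} {q : ℤ × ℤ × ℤ} (h : T X x M y N q ≠ 0)
    (h1 : Fm X 11 q → ev q x M ≠ 0) (h2 : Fm X 11 q → ev q y N ≠ 0) :
    q.2.1 ^ 2 - 4 * q.1 * q.2.2 = (pr X : ℤ) ^ 2 ∧ ev q x M * ev q y N < 0 := by
  unfold T at h
  by_cases hq : Fm X 11 q
  · rw [if_pos hq] at h
    refine ⟨hq.1, ?_⟩
    have h3 := h1 hq
    have h4 := h2 hq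
    have h5 : Int.sign (ev q x M) ≠ Int.sign (ev q y N) := by
      intro h6
      rw [h6, sub_self, mul_zero] at h
      exact h rfl
    rcases lt_or_gt_of_ne h3 with h6 | h6 <;> rcases lt_or_gt_of_ne h4 with h7 | h7
    · exact absurd (by rw [Int.sign_eq_neg_one_of_neg h6, Int.sign_eq_neg_one_of_neg h7]) h5
    · exact mul_neg_of_neg_of_pos h6 h7
    · exact mul_neg_of_pos_of_neg h6 h7
    · exact absurd (by rw [Int.sign_eq_one_of_pos h6, Int.sign_eq_one_of_pos h7]) h5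
  · rw [if_neg hq] at h
    exact absurd rfl h

theorem fin_T {X : Finset ℕ} {x M y N : ℤ} (hΔ : x * N - y * M ≠ 0)
    (h1 : ∀ q, Fm X 11 q → ev q x M ≠ 0) (h2 : ∀ q, Fm X 11 q → ev q y N ≠ 0) :
    (Function.support (T X x M y N)).Finite := by
  refine (fin_pair ((pr X : ℤ) ^ 2) x M y N hΔ).subset ?_
  intro q hq
  exact T_supp hq (h1 q) (h2 q)

/-! ### the counting function as a sum of signs -/

theorem Fm_neg (X : Finset ℕ) (q : ℤ × ℤ × ℤ) : Fm X 19 (-q) ↔ Fm X 11 q := by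
  obtain ⟨A, B, C⟩ := q
  unfold Fm
  simp only [Prod.fst_neg, Prod.snd_neg]
  constructor
  · rintro ⟨h1, h2, h3⟩
    refine ⟨by linear_combination h1, (dvd_neg).1 h2, ?_⟩
    obtain ⟨k, hk⟩ := h3
    exact ⟨-k - pr X, by linear_combination -hk⟩
  · rintro ⟨h1, h2, h3⟩
    refine ⟨by linear_combination h1, (dvd_neg).2 h2, ?_⟩
    obtain ⟨k, hk⟩ := h3
    exact ⟨-k - pr X, by linear_combination -hk⟩

open Classical in
/-- the summands -/
def fk (X : Finset ℕ) (k : ℤ) (x M : ℤ) (q : ℤ × ℤ × ℤ) : ℤ :=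
  if Fm X k q ∧ 0 < q.1 ∧ ev q x M < 0 then cx X q else 0

theorem T_split {X : Finset ℕ} (hX : Pq X) (hm : pr X % 4 = 1) {x M : ℤ} {q : ℤ × ℤ × ℤ}
    (hNV : Fm X 11 q → ev q x M ≠ 0) :
    T X 1 0 x M q = 2 * fk X 11 x M q + (-2) * fk X 19 x M (-q) := by
  unfold T fk
  rw [ev_neg, cx_neg hX hm, ev10]
  simp only [Prod.fst_neg]
  by_cases hq : Fm X 11 q
  · rw [if_pos hq]
    have h2 := A_ne hX hq
    have h3 := hNV hq
    have hq' := (Fm_neg X q).2 hq
    rcases lt_or_gt_of_ne h2 with h4 | h4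
    · have n1 : ¬ (Fm X 11 q ∧ 0 < q.1 ∧ ev q x M < 0) := fun h => by linarith [h.2.1]
      rw [if_neg n1, Int.sign_eq_neg_one_of_neg h4]
      rcases lt_or_gt_of_ne h3 with h5 | h5
      · have n2 : ¬ (Fm X 19 (-q) ∧ 0 < -q.1 ∧ -ev q x M < 0) := fun h => by linarith [h.2.2]
        rw [if_neg n2, Int.sign_eq_neg_one_of_neg h5]
        ring
      · have n2 : (Fm X 19 (-q) ∧ 0 < -q.1 ∧ -ev q x M < 0) := ⟨hq', by linarith, by linarith⟩
        rw [if_pos n2, Int.sign_eq_one_of_pos h5]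
        ring
    · have n2 : ¬ (Fm X 19 (-q) ∧ 0 < -q.1 ∧ -ev q x M < 0) := fun h => by linarith [h.2.1]
      rw [if_neg n2, Int.sign_eq_one_of_pos h4]
      rcases lt_or_gt_of_ne h3 with h5 | h5
      · have n1 : (Fm X 11 q ∧ 0 < q.1 ∧ ev q x M < 0) := ⟨hq, h4, h5⟩
        rw [if_pos n1, Int.sign_eq_neg_one_of_neg h5]
        ring
      · have n1 : ¬ (Fm X 11 q ∧ 0 < q.1 ∧ ev q x M < 0) := fun h => by linarith [h.2.2]
        rw [if_neg n1, Int.sign_eq_one_of_pos h5]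
        ring
  · have n1 : ¬ (Fm X 11 q ∧ 0 < q.1 ∧ ev q x M < 0) := fun h => hq h.1
    have n2 : ¬ (Fm X 19 (-q) ∧ 0 < -q.1 ∧ -ev q x M < 0) := fun h => hq ((Fm_neg X q).1 h.1)
    rw [if_neg hq, if_neg n1, if_neg n2]
    ring

theorem fin_fk (X : Finset ℕ) (k : ℤ) {x M : ℤ} (hM : M ≠ 0) :
    (Function.support (fk X k x M)).Finite := by
  refine (fin_pair ((pr X : ℤ) ^ 2) 1 0 x M (by simpa using hM)).subset ?_
  intro q hq
  have h1 : Fm X k q ∧ 0 < q.1 ∧ ev q x M < 0 := by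
    by_contra h2
    apply hq
    unfold fk
    rw [if_neg h2]
  refine ⟨h1.1.1, ?_⟩
  rw [ev10]
  exact mul_neg_of_pos_of_neg h1.2.1 h1.2.2

theorem Fx_eq {X : Finset ℕ} (hX : Pq X) (hm : pr X % 4 = 1) {x M : ℤ} (hM : M ≠ 0)
    (hNV : ∀ q, Fm X 11 q → ev q x M ≠ 0) : ∑ᶠ q, T X 1 0 x M q = 2 * Fx X x M := by
  have h2 : ∑ᶠ q, fk X 19 x M (-q) = ∑ᶠ q, fk X 19 x M q :=
    finsum_comp_equiv (Equiv.neg (ℤ × ℤ × ℤ)) (f := fk X 19 x M)
  have hf : (Function.support (fun q => fk X 19 x M (-q))).Finite :=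
    (fin_fk X 19 hM).preimage ((neg_injective (G := ℤ × ℤ × ℤ)).injOn)
  have h3 : ∑ᶠ q, T X 1 0 x M q = 2 * (∑ᶠ q, fk X 11 x M q) +
      (-2) * (∑ᶠ q, fk X 19 x M (-q)) := by
    rw [finsum_congr (fun q => T_split hX hm (hNV q)), finsum_add_distrib, mul_finsum, mul_finsum]
    · exact (fin_fk X 11 hM).subset (Function.support_mul_subset_right _ _)
    · exact hf.subset (Function.support_mul_subset_right _ _)
  have h4 : Fx X x M = ∑ᶠ q, fk X 11 x M q - jacobiSym (-1) (pr X) * ∑ᶠ q, fk X 19 x M q := rfl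
  rw [h3, h2, h4, jac_m1 hm]
  ring

/-! ### the forms with a root at `1 / 3` -/

open Classical in
/-- the part of the sum with a root at `1 / 3` -/
def U (X : Finset ℕ) (q : ℤ × ℤ × ℤ) : ℤ := if ev q 1 3 = 0 then T X 0 1 5 16 q else 0

open Classical in
/-- the part of the sum without a root at `1 / 3` -/
def V (X : Finset ℕ) (q : ℤ × ℤ × ℤ) : ℤ := if ev q 1 3 = 0 then 0 else T X 0 1 1 3 q

/-- the forms with a root at `1 / 3` -/
def g (m C : ℤ) : ℤ × ℤ × ℤ := (3 * m + 9 * C, -m - 6 * C, C)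

theorem T_UV {X : Finset ℕ} (hX : Pq X) (q : ℤ × ℤ × ℤ) :
    T X 0 1 5 16 q = V X q + (- V X (eqv (-14) 5 (-45) 16 hγ q) + U X q) := by
  have h0 : (eqv (-14) 5 (-45) 16 hγ q) = act (-14) 5 (-45) 16 q := rfl
  have h1 : ev (act (-14) 5 (-45) 16 q) 1 3 = ev q 1 3 := by
    rw [ev_act]; norm_num
  have h2 := T_act hX hγ hγ' 0 1 1 3 q
  norm_num at h2
  unfold U V
  rw [h0, h1]
  by_cases h : ev q 1 3 = 0
  · rw [if_pos h, if_pos h, if_pos h]
    ring
  · rw [if_neg h, if_neg h, if_neg h, ← h2, T_add X 0 1 1 3 5 16 q]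
    have h3 : T X 1 3 5 16 q = - T X 5 16 1 3 q := by
      unfold T
      split_ifs
      · ring
      · ring
    rw [h3]
    ring

theorem fin_V {X : Finset ℕ} (hX : Pq X) : (Function.support (V X)).Finite := by
  refine (fin_pair ((pr X : ℤ) ^ 2) 0 1 1 3 (by norm_num)).subset ?_
  intro q hq
  have hq' : V X q ≠ 0 := hq
  unfold V at hq'
  by_cases h : ev q 1 3 = 0
  · rw [if_pos h] at hq'
    exact absurd rfl hq'
  · rw [if_neg h] at hq'
    exact T_supp hq' (fun h1 => by rw [ev01]; exact C_ne hX h1) (fun _ => h)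

theorem fin_0516 {X : Finset ℕ} (hX : Pq X) : (Function.support (T X 0 1 5 16)).Finite :=
  fin_T (by norm_num) (fun q hq => by rw [ev01]; exact C_ne hX hq) (fun q hq => ev516 hX hq)

theorem fin_U {X : Finset ℕ} (hX : Pq X) : (Function.support (U X)).Finite := by
  refine (fin_0516 hX).subset ?_
  intro q hq
  have hq' : U X q ≠ 0 := hq
  unfold U at hq'
  by_cases h : ev q 1 3 = 0
  · rwa [if_pos h] at hq'
  · rw [if_neg h] at hq'
    exact absurd rfl hq'

theorem Fm_g {X : Finset ℕ} {C : ℤ} (hC : (C + 2 * pr X) % 5 = 0) :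
    Fm X 11 (g (pr X) C) := by
  unfold g
  refine ⟨?_, ?_, ?_⟩
  · simp only
    ring
  · simp only
    omega
  · simp only
    omega

theorem g_of {X : Finset ℕ} (hX : Pq X) {q : ℤ × ℤ × ℤ} (hq : Fm X 11 q) (h : ev q 1 3 = 0) :
    q = g (pr X) q.2.2 ∧ (q.2.2 + 2 * pr X) % 5 = 0 := by
  obtain ⟨A, B, C⟩ := q
  have i1 := pr_odd hX
  have i2 := pr_3 hX
  obtain ⟨h1, h2, h3⟩ := hq
  unfold ev at h
  simp only at h h1 h2 h3
  have h4 : (B + 6 * C - pr X) * (B + 6 * C + pr X) = 0 := by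
    linear_combination h1 + 4 * C * h
  unfold g
  rcases mul_eq_zero.1 h4 with h5 | h5
  · omega
  · simp only [Prod.mk.injEq]
    refine ⟨⟨?_, ?_, ?_⟩, ?_⟩ <;> first | trivial | omega

theorem cx_g {X : Finset ℕ} (hX : Pq X) (C : ℤ) : cx X (g (pr X) C) = jacobiSym C (pr X) := by
  rw [← prod_jac (pm_ne hX), cx_eq_lo]
  apply Finset.prod_congr rfl
  intro p hp
  obtain ⟨h1, h2, h3, -⟩ := hX p hp
  have hpi : Prime (p : ℤ) := Nat.prime_iff_prime_int.1 h1
  have h77 : ¬ (p : ℤ) ∣ 3 := by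
    intro h4
    have : p ∣ 3 := by exact_mod_cast h4
    exact h3 ((Nat.prime_dvd_prime_iff_eq h1 (by norm_num)).1 this)
  have hd := dvd_pr hp
  unfold lo g
  simp only
  split_ifs with h
  · rfl
  · have e1 : jacobiSym (3 * (pr X : ℤ) + 9 * C) p = jacobiSym (3 ^ 2 * C) p := by
      rw [jacobiSym.mod_left (3 * (pr X : ℤ) + 9 * C), jacobiSym.mod_left (3 ^ 2 * C)]
      congr 1
      apply Int.emod_eq_emod_iff_emod_sub_eq_zero.2
      apply Int.emod_eq_zero_of_dvd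
      have : 3 * (pr X : ℤ) + 9 * C - 3 ^ 2 * C = 3 * pr X := by ring
      rw [this]
      exact hd.mul_left _
    have e2 : (3 : ℤ).gcd p = 1 := by
      rw [Int.gcd_comm]
      exact Int.isCoprime_iff_gcd_eq_one.1 ((hpi.coprime_iff_not_dvd).2 h77)
    rw [e1, jacobiSym.mul_left, jacobiSym.sq_one' e2, one_mul]

theorem ev_g (m C : ℤ) : ev (g m C) 5 16 = C - 5 * m := by
  unfold ev g
  ring

theorem ev_g0 (m C : ℤ) : ev (g m C) 0 1 = C := by
  unfold ev g
  ring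

theorem ev_g3 (m C : ℤ) : ev (g m C) 1 3 = 0 := by
  unfold ev g
  ring

theorem sum_U {X : Finset ℕ} (hX : Pq X) (hne : X.Nonempty) : ∑ᶠ q, U X q = 0 := by
  classical
  have i5 := pr_5 hX
  obtain ⟨r, hr⟩ : ∃ r : ℕ, r = (3 * pr X) % 5 := ⟨_, rfl⟩
  have hr0 : 0 < r := by
    have h0 : pr X % 5 = 1 ∨ pr X % 5 = 2 ∨ pr X % 5 = 3 ∨ pr X % 5 = 4 := by omega
    rcases h0 with h0 | h0 | h0 | h0 <;> omega
  have hs : Function.support (U X) ⊆
      (((range (pr X)).image (fun c : ℕ => g (pr X) (5 * (c : ℤ) + r)) : Finset (ℤ × ℤ × ℤ)) :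
        Set (ℤ × ℤ × ℤ)) := by
    intro q hq
    have hq' : U X q ≠ 0 := hq
    unfold U at hq'
    by_cases h : ev q 1 3 = 0
    · rw [if_pos h] at hq'
      have hF : Fm X 11 q := by
        by_contra h1
        unfold T at hq'
        rw [if_neg h1] at hq'
        exact hq' rfl
      obtain ⟨h1, h2⟩ := g_of hX hF h
      have h3 := (T_supp hq' (fun h1 => by rw [ev01]; exact C_ne hX h1)
        (fun h1 => ev516 hX h1)).2
      rw [h1, ev_g, ev_g0] at h3
      have h4 : 0 < q.2.2 ∧ q.2.2 < 5 * pr X := by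
        rcases mul_neg_iff.1 h3 with ⟨h5, h6⟩ | ⟨h5, h6⟩ <;> constructor <;> omega
      rw [Finset.coe_image]
      refine ⟨(q.2.2 / 5).toNat, ?_, ?_⟩
      · rw [Finset.mem_coe, Finset.mem_range]
        omega
      · have h5 : 5 * (((q.2.2 / 5).toNat : ℕ) : ℤ) + r = q.2.2 := by omega
        simp only
        rw [h5, ← h1]
    · rw [if_neg h] at hq'
      exact absurd rfl hq'
  rw [finsum_eq_sum_of_support_subset _ hs, Finset.sum_image]
  · have h1 : ∀ c ∈ range (pr X), U X (g (pr X) (5 * (c : ℤ) + r)) =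
        2 * jacobiSym (5 * (c : ℤ) + r) (pr X) := by
      intro c hc
      rw [Finset.mem_range] at hc
      unfold U T
      rw [if_pos (ev_g3 _ _), if_pos (Fm_g (by omega)), cx_g hX, ev_g, ev_g0,
        Int.sign_eq_one_of_pos (by omega), Int.sign_eq_neg_one_of_neg (by omega)]
      ring
    rw [Finset.sum_congr rfl h1, ← Finset.mul_sum, sum_jac hX hne r, mul_zero]
  · intro a _ b _ hab
    have h1 := congrArg (fun q : ℤ × ℤ × ℤ => q.2.2) hab
    unfold g at h1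
    simp only at h1
    omega

theorem sum_0516 {X : Finset ℕ} (hX : Pq X) (hne : X.Nonempty) :
    ∑ᶠ q, T X 0 1 5 16 q = 0 := by
  have hf1 : (Function.support fun q => V X (eqv (-14) 5 (-45) 16 hγ q)).Finite :=
    (fin_V hX).preimage ((eqv (-14) 5 (-45) 16 hγ).injective.injOn)
  have hf2 : (Function.support fun q => -V X (eqv (-14) 5 (-45) 16 hγ q)).Finite := by
    refine hf1.subset ?_
    intro q hq
    exact neg_ne_zero.1 hq
  have hf3 : (Function.support fun q => (-V X (eqv (-14) 5 (-45) 16 hγ q) + U X q)).Finite :=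
    (hf2.union (fin_U hX)).subset (Function.support_add _ _)
  rw [finsum_congr (fun q => T_UV hX q), finsum_add_distrib (fin_V hX) hf3,
    finsum_add_distrib hf2 (fin_U hX), finsum_neg_distrib,
    finsum_comp_equiv (eqv (-14) 5 (-45) 16 hγ) (f := V X), sum_U hX hne]
  ring

end Parb

open Parb in
theorem t_PARB (_h : S_COC) (hp : S_PARI) : S_PARB := by
  intro X hX hne hm
  have h1 : Fx X 0 1 = 0 := by
    have h2 := hp X hX 0 1
    rw [jac_m1 hm, neg_zero] at h2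
    linarith
  have nv0 : ∀ q, Fm X 11 q → ev q 0 1 ≠ 0 := fun q hq => by rw [ev01]; exact C_ne hX hq
  have nvi : ∀ q, Fm X 11 q → ev q 1 0 ≠ 0 := fun q hq => by rw [ev10]; exact A_ne hX hq
  have nv2 : ∀ q, Fm X 11 q → ev q 5 16 ≠ 0 := fun q hq => ev516 hX hq
  have h2 := Fx_eq hX hm (x := 0) (M := 1) (by norm_num) nv0
  have h3 := Fx_eq hX hm (x := 5) (M := 16) (by norm_num) nv2
  have h4 : ∑ᶠ q, T X 1 0 5 16 q = ∑ᶠ q, T X 1 0 0 1 q + ∑ᶠ q, T X 0 1 5 16 q := by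
    rw [← finsum_add_distrib (fin_T (by norm_num) nvi nv0) (fin_0516 hX)]
    exact finsum_congr (fun q => T_add X 1 0 0 1 5 16 q)
  rw [sum_0516 hX hne, h2, h3, h1] at h4
  linarith

end

end Pool.Agent.XV
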