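import Pool.Agent.XV.Defs2

/-!
# XV-16: the squares of the sums over the vectors
-/

set_option autoImplicit false

namespace Pool.Agent.XV.SqW

open Finset
open Pool.Agent.Z700 (V3 pr)
open Pool.Agent.NH1 (lz rd)
open Pool.Agent.NH2 (wp)

/-! ### the Legendre symbol -/

theorem lz_quad {p : ℕ} [Fact p.Prime] (c : ZMod p) : lz p c = quadraticChar (ZMod p) c := by
  unfold lz
  rw [← jacobiSym.legendreSym.to_jacobiSym]
  unfold legendreSym
  congr 1
  rw [Int.cast_natCast, ZMod.natCast_val, ZMod.cast_id', id_eq]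

theorem lz_mul {p : ℕ} (hp : p.Prime) (a b : ZMod p) : lz p (a * b) = lz p a * lz p b := by
  have : Fact p.Prime := ⟨hp⟩
  rw [lz_quad, lz_quad, lz_quad, map_mul]

theorem lz_pm {p : ℕ} (hp : p.Prime) {a : ZMod p} (ha : a ≠ 0) : lz p a = 1 ∨ lz p a = -1 := by
  have : Fact p.Prime := ⟨hp⟩
  rw [lz_quad]
  exact quadraticChar_dichotomy ha

/-! ### the bilinear forms -/

section ring

variable {R : Type*} [CommRing R]

theorem bl5 (v w : Fin 3 → R) : bl 5 v w = 3 * (v 0 * w 0) + 7 * (v 1 * w 1) + 7 * (v 2 * w 2) -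
    (v 0 * w 1 + v 1 * w 0) + (v 0 * w 2 + v 2 * w 0) + 3 * (v 1 * w 2 + v 2 * w 1) := by
  unfold bl; rw [if_pos rfl]

theorem bl3 (v w : Fin 3 → R) : bl 3 v w = 3 * (v 0 * w 0) + 4 * (v 1 * w 1) + 4 * (v 2 * w 2) +
    2 * (v 1 * w 2 + v 2 * w 1) := by
  unfold bl; rw [if_neg (by norm_num)]

end ring

theorem bl_cast (q p : ℕ) (v w : V3) : bl q (rd p v) (rd p w) = ((bl q v w : ℤ) : ZMod p) := by
  unfold bl rd
  split_ifs <;> push_cast <;> ring

theorem mem_vec {q : ℕ} (hq : q = 3 ∨ q = 5) {n : ℤ} {v : V3} : v ∈ vec q n ↔ bl q v v = n := by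
  unfold vec
  rw [mem_filter, Fintype.mem_piFinset]
  refine ⟨fun h => h.2, fun h => ⟨fun i => ?_, h⟩⟩
  have key : ∀ x : ℤ, x ^ 2 ≤ n → x ∈ Icc (-n) n := by
    intro x hx
    rw [mem_Icc]
    rcases le_or_gt 0 x with h0 | h0
    · have : x ≤ x ^ 2 := by
        rcases eq_or_lt_of_le h0 with h1 | h1
        · rw [← h1]; norm_num
        · nlinarith
      constructor <;> linarith
    · have : -x ≤ x ^ 2 := by nlinarith
      constructor <;> linarith
  rcases hq with rfl | rfl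
  · rw [bl3] at h
    fin_cases i
    · refine key _ ?_
      simp only [Fin.zero_eta]
      nlinarith [sq_nonneg (v 1 + v 2), sq_nonneg (v 1), sq_nonneg (v 2), sq_nonneg (v 0)]
    · refine key _ ?_
      simp only [Fin.mk_one]
      nlinarith [sq_nonneg (v 1 + v 2), sq_nonneg (v 1), sq_nonneg (v 2), sq_nonneg (v 0)]
    · refine key _ ?_
      simp only [Fin.reduceFinMk]
      nlinarith [sq_nonneg (v 1 + v 2), sq_nonneg (v 1), sq_nonneg (v 2), sq_nonneg (v 0)]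
  · rw [bl5] at h
    fin_cases i
    · refine key _ ?_
      simp only [Fin.zero_eta]
      nlinarith [sq_nonneg (v 1 + v 2), sq_nonneg (v 1), sq_nonneg (v 2), sq_nonneg (v 0),
        sq_nonneg (v 0 - v 1), sq_nonneg (v 0 + v 2)]
    · refine key _ ?_
      simp only [Fin.mk_one]
      nlinarith [sq_nonneg (v 1 + v 2), sq_nonneg (v 1), sq_nonneg (v 2), sq_nonneg (v 0),
        sq_nonneg (v 0 - v 1), sq_nonneg (v 0 + v 2)]
    · refine key _ ?_
      simp only [Fin.reduceFinMk]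
      nlinarith [sq_nonneg (v 1 + v 2), sq_nonneg (v 1), sq_nonneg (v 2), sq_nonneg (v 0),
        sq_nonneg (v 0 - v 1), sq_nonneg (v 0 + v 2)]

theorem bl_pos {q : ℕ} (hq : q = 3 ∨ q = 5) (v : V3) : 0 ≤ bl q v v := by
  rcases hq with rfl | rfl
  · rw [bl3]
    nlinarith [sq_nonneg (v 1 + v 2), sq_nonneg (v 1), sq_nonneg (v 2), sq_nonneg (v 0)]
  · rw [bl5]
    nlinarith [sq_nonneg (v 1 + v 2), sq_nonneg (v 1), sq_nonneg (v 2), sq_nonneg (v 0),
      sq_nonneg (v 0 - v 1), sq_nonneg (v 0 + v 2)]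

theorem bl_def {q : ℕ} (hq : q = 3 ∨ q = 5) (v : V3) (h : bl q v v = 0) : v = 0 := by
  have h0 : v 0 ^ 2 ≤ 0 ∧ v 1 ^ 2 ≤ 0 ∧ v 2 ^ 2 ≤ 0 := by
    rcases hq with rfl | rfl
    · rw [bl3] at h
      refine ⟨?_, ?_, ?_⟩ <;>
      nlinarith [sq_nonneg (v 1 + v 2), sq_nonneg (v 1), sq_nonneg (v 2), sq_nonneg (v 0)]
    · rw [bl5] at h
      refine ⟨?_, ?_, ?_⟩ <;>
      nlinarith [sq_nonneg (v 1 + v 2), sq_nonneg (v 1), sq_nonneg (v 2), sq_nonneg (v 0),
        sq_nonneg (v 0 - v 1), sq_nonneg (v 0 + v 2)]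
  obtain ⟨a, b, c⟩ := h0
  funext i
  fin_cases i
  · exact pow_eq_zero_iff (two_ne_zero) |>.1 (le_antisymm a (sq_nonneg _))
  · exact pow_eq_zero_iff (two_ne_zero) |>.1 (le_antisymm b (sq_nonneg _))
  · exact pow_eq_zero_iff (two_ne_zero) |>.1 (le_antisymm c (sq_nonneg _))

theorem bl_sub_sub (q : ℕ) (v w : V3) :
    bl q (v - w) (v - w) = bl q v v - 2 * bl q v w + bl q w w := by
  unfold bl
  split_ifs <;> simp only [Pi.sub_apply] <;> ring

theorem bl_add_add (q : ℕ) (v w : V3) :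
    bl q (v + w) (v + w) = bl q v v + 2 * bl q v w + bl q w w := by
  unfold bl
  split_ifs <;> simp only [Pi.add_apply] <;> ring

/-- the parity of the inner product -/
theorem bl_odd {q : ℕ} (hq : q = 3 ∨ q = 5) {v w : V3} (hv : Odd (bl q v v)) (hw : Odd (bl q w w)) :
    Odd (bl q v w) := by
  rcases hq with rfl | rfl
  · rw [bl3] at *
    have e : ∀ a b : V3, 3 * (a 0 * b 0) + 4 * (a 1 * b 1) + 4 * (a 2 * b 2) +
        2 * (a 1 * b 2 + a 2 * b 1) = a 0 * b 0 + 2 * (a 0 * b 0 + 2 * (a 1 * b 1) +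
          2 * (a 2 * b 2) + (a 1 * b 2 + a 2 * b 1)) := fun a b => by ring
    rw [e] at hv hw ⊢
    have k : ∀ a b : V3, Odd (a 0 * b 0 + 2 * (a 0 * b 0 + 2 * (a 1 * b 1) +
          2 * (a 2 * b 2) + (a 1 * b 2 + a 2 * b 1))) ↔ Odd (a 0) ∧ Odd (b 0) := by
      intro a b
      rw [← Int.odd_mul]
      constructor
      · intro h
        rcases Int.even_or_odd (a 0 * b 0) with h2 | h2
        · exfalso
          have := h2.add (even_two_mul (a 0 * b 0 + 2 * (a 1 * b 1) +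
            2 * (a 2 * b 2) + (a 1 * b 2 + a 2 * b 1)))
          exact (Int.not_even_iff_odd.mpr h) this
        · exact h2
      · intro h
        exact h.add_even (even_two_mul _)
    rw [k] at hv hw ⊢
    exact ⟨hv.1, hw.1⟩
  · rw [bl5] at *
    have e : ∀ a b : V3, 3 * (a 0 * b 0) + 7 * (a 1 * b 1) + 7 * (a 2 * b 2) -
        (a 0 * b 1 + a 1 * b 0) + (a 0 * b 2 + a 2 * b 0) + 3 * (a 1 * b 2 + a 2 * b 1) =
        (a 0 + a 1 + a 2) * (b 0 + b 1 + b 2) + 2 * (a 0 * b 0 + 3 * (a 1 * b 1) +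
          3 * (a 2 * b 2) - (a 0 * b 1 + a 1 * b 0) + (a 1 * b 2 + a 2 * b 1)) :=
      fun a b => by ring
    rw [e] at hv hw ⊢
    have k : ∀ a b : V3, Odd ((a 0 + a 1 + a 2) * (b 0 + b 1 + b 2) +
        2 * (a 0 * b 0 + 3 * (a 1 * b 1) +
          3 * (a 2 * b 2) - (a 0 * b 1 + a 1 * b 0) + (a 1 * b 2 + a 2 * b 1))) ↔
        Odd (a 0 + a 1 + a 2) ∧ Odd (b 0 + b 1 + b 2) := by
      intro a b
      rw [← Int.odd_mul]
      constructor
      · intro h
        rcases Int.even_or_odd ((a 0 + a 1 + a 2) * (b 0 + b 1 + b 2)) with h2 | h2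
        · exfalso
          have := h2.add (even_two_mul (a 0 * b 0 + 3 * (a 1 * b 1) +
            3 * (a 2 * b 2) - (a 0 * b 1 + a 1 * b 0) + (a 1 * b 2 + a 2 * b 1)))
          exact (Int.not_even_iff_odd.mpr h) this
        · exact h2
      · intro h
        exact h.add_even (even_two_mul _)
    rw [k] at hv hw ⊢
    exact ⟨hv.1, hw.1⟩

/-! ### the lines -/

/-- the isotropic lines modulo `3` -/
def n5 : Fin 4 → V3 := ![![1, 0, 0], ![1, 0, 1], ![1, 2, 0], ![1, 2, 1]]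

/-- the isotropic lines modulo `5` -/
def n3 : Fin 6 → V3 := ![![1, 1, 1], ![1, 1, 3], ![1, 2, 4], ![1, 3, 1], ![1, 4, 2], ![1, 4, 4]]

/-- the condition to lie on a line, over a ring, `q = 5` -/
def E5 {R : Type*} [CommRing R] (n : Fin 3 → R) (β : R) (v : Fin 3 → R) : Prop :=
  v 1 * n 2 - v 2 * n 1 + β * (3 * n 0 - n 1 + n 2) = 0 ∧
  v 2 * n 0 - v 0 * n 2 + β * (-n 0 + 7 * n 1 + 3 * n 2) = 0 ∧
  v 0 * n 1 - v 1 * n 0 + β * (n 0 + 3 * n 1 + 7 * n 2) = 0

/-- the condition to lie on a line, over a ring, `q = 3` -/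
def E3 {R : Type*} [CommRing R] (n : Fin 3 → R) (β : R) (v : Fin 3 → R) : Prop :=
  v 1 * n 2 - v 2 * n 1 + β * (3 * n 0) = 0 ∧
  v 2 * n 0 - v 0 * n 2 + β * (4 * n 1 + 2 * n 2) = 0 ∧
  v 0 * n 1 - v 1 * n 0 + β * (2 * n 1 + 4 * n 2) = 0

instance {R : Type*} [CommRing R] [DecidableEq R] (n : Fin 3 → R) (β : R) (v : Fin 3 → R) :
    Decidable (E5 n β v) := by unfold E5; infer_instance

instance {R : Type*} [CommRing R] [DecidableEq R] (n : Fin 3 → R) (β : R) (v : Fin 3 → R) :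
    Decidable (E3 n β v) := by unfold E3; infer_instance

theorem onl5 (n : V3) (β : ℤ) (v : V3) :
    OnL 5 n β v ↔ E5 (rd 3 n) (β : ZMod 3) (rd 3 v) := by
  have hz : ∀ x : ℤ, ((x : ℤ) : ZMod 3) = 0 ↔ (3 : ℤ) ∣ x :=
    fun x => ZMod.intCast_zmod_eq_zero_iff_dvd x 3
  have e1 : rl 5 = 3 := by unfold rl; rw [if_pos rfl]
  have e2 : E5 (rd 3 n) (β : ZMod 3) (rd 3 v) ↔
      (3 : ℤ) ∣ v 1 * n 2 - v 2 * n 1 + β * (3 * n 0 - n 1 + n 2) ∧
      (3 : ℤ) ∣ v 2 * n 0 - v 0 * n 2 + β * (-n 0 + 7 * n 1 + 3 * n 2) ∧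
      (3 : ℤ) ∣ v 0 * n 1 - v 1 * n 0 + β * (n 0 + 3 * n 1 + 7 * n 2) := by
    unfold E5 rd
    rw [← hz, ← hz, ← hz]
    push_cast
    rfl
  rw [e2]
  unfold OnL
  rw [e1]
  constructor
  · intro h
    have h0 := h ![1, 0, 0]
    have h1 := h ![0, 1, 0]
    have h2 := h ![0, 0, 1]
    rw [bl5] at h0 h1 h2
    unfold d3 at h0 h1 h2
    simp only [Matrix.cons_val_zero, Matrix.cons_val_one, Matrix.cons_val] at h0 h1 h2
    refine ⟨?_, ?_, ?_⟩
    · convert h0 using 1; ring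
    · convert h1 using 1; ring
    · convert h2 using 1; ring
  · rintro ⟨⟨a, h0⟩, ⟨b, h1⟩, ⟨c, h2⟩⟩ w
    refine ⟨w 0 * a + w 1 * b + w 2 * c, ?_⟩
    rw [bl5]
    unfold d3
    linear_combination w 0 * h0 + w 1 * h1 + w 2 * h2

theorem onl3 (n : V3) (β : ℤ) (v : V3) :
    OnL 3 n β v ↔ E3 (rd 5 n) (β : ZMod 5) (rd 5 v) := by
  have hz : ∀ x : ℤ, ((x : ℤ) : ZMod 5) = 0 ↔ (5 : ℤ) ∣ x :=
    fun x => ZMod.intCast_zmod_eq_zero_iff_dvd x 5
  have e1 : rl 3 = 5 := by unfold rl; rw [if_neg (by norm_num)]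
  have e2 : E3 (rd 5 n) (β : ZMod 5) (rd 5 v) ↔
      (5 : ℤ) ∣ v 1 * n 2 - v 2 * n 1 + β * (3 * n 0) ∧
      (5 : ℤ) ∣ v 2 * n 0 - v 0 * n 2 + β * (4 * n 1 + 2 * n 2) ∧
      (5 : ℤ) ∣ v 0 * n 1 - v 1 * n 0 + β * (2 * n 1 + 4 * n 2) := by
    unfold E3 rd
    rw [← hz, ← hz, ← hz]
    push_cast
    rfl
  rw [e2]
  unfold OnL
  rw [e1]
  constructor
  · intro h
    have h0 := h ![1, 0, 0]
    have h1 := h ![0, 1, 0]
    have h2 := h ![0, 0, 1]
    rw [bl3] at h0 h1 h2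
    unfold d3 at h0 h1 h2
    simp only [Matrix.cons_val_zero, Matrix.cons_val_one, Matrix.cons_val] at h0 h1 h2
    refine ⟨?_, ?_, ?_⟩
    · convert h0 using 1; ring
    · convert h1 using 1; ring
    · convert h2 using 1; ring
  · rintro ⟨⟨a, h0⟩, ⟨b, h1⟩, ⟨c, h2⟩⟩ w
    refine ⟨w 0 * a + w 1 * b + w 2 * c, ?_⟩
    rw [bl3]
    unfold d3
    linear_combination w 0 * h0 + w 1 * h1 + w 2 * h2

theorem ln5 (β : ℤ) (v : V3) : LN 5 β v ↔ OnL 5 (n5 0) β v := by
  have e1 : rl 5 = 3 := by unfold rl; rw [if_pos rfl]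
  unfold LN OnL
  rw [if_pos rfl, e1]
  constructor
  · rintro ⟨⟨a, h1⟩, ⟨b, h2⟩⟩ w
    refine ⟨β * w 0 + w 1 * b - w 2 * a, ?_⟩
    rw [bl5]
    unfold d3 n5
    simp
    linear_combination w 1 * h2 - w 2 * h1
  · intro h
    have h1 := h ![0, 1, 0]
    have h2 := h ![0, 0, 1]
    rw [bl5] at h1 h2
    unfold d3 n5 at h1 h2
    simp at h1 h2
    constructor
    · have : v 1 - β = -(-v 1 + β) := by ring
      rw [this, dvd_neg]
      exact h2
    · exact h1

theorem ln3 (β : ℤ) (v : V3) : LN 3 β v ↔ OnL 3 (n3 0) β v := by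
  have e1 : rl 3 = 5 := by unfold rl; rw [if_neg (by norm_num)]
  unfold LN OnL
  rw [if_neg (by norm_num), e1]
  constructor
  · rintro ⟨⟨a, h1⟩, ⟨b, h2⟩⟩ w
    refine ⟨w 0 * (a - b + β) + w 1 * (b + β) + w 2 * (-a + β), ?_⟩
    rw [bl3]
    unfold d3 n3
    simp
    linear_combination (w 0 - w 2) * h1 + (w 1 - w 0) * h2
  · intro h
    have h1 := h ![0, 1, 0]
    have h2 := h ![0, 0, 1]
    rw [bl3] at h1 h2
    unfold d3 n3 at h1 h2
    simp at h1 h2
    omega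

/-- the properties of the lines -/
structure Lns (q k : ℕ) (nn : Fin k → V3) : Prop where
  uniq : ∀ (β : ℤ) (v : V3), ¬ rl q ∣ β → rl q ∣ β ^ 2 + bl q v v →
    ∃! i, OnL q (nn i) β v
  cls : ∀ (n : V3) (β : ℤ) (v : V3), ¬ (∀ i, rl q ∣ n i) → OnL q n β v → ¬ rl q ∣ β →
    ∃ i, ∀ u, OnL q n β u → OnL q (nn i) β u
  ne : ∀ i, ¬ ∀ j, rl q ∣ nn i j
  opp : ∀ i β v, ¬ rl q ∣ β → OnL q (nn i) β v → ¬ OnL q (nn i) β (-v)

theorem rd_eta (p : ℕ) (v : V3) : rd p v = ![(v 0 : ZMod p), (v 1 : ZMod p), (v 2 : ZMod p)] := by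
  funext i
  fin_cases i <;> rfl

theorem u5 : ∀ β a b c : ZMod 3, β ≠ 0 → β ^ 2 + bl 5 ![a, b, c] ![a, b, c] = 0 →
    ∃ i : Fin 4, E5 (rd 3 (n5 i)) β ![a, b, c] ∧ ∀ j : Fin 4, E5 (rd 3 (n5 j)) β ![a, b, c] →
      j = i := by
  decide +kernel

theorem u3 : ∀ β a b c : ZMod 5, β ≠ 0 → β ^ 2 + bl 3 ![a, b, c] ![a, b, c] = 0 →
    ∃ i : Fin 6, E3 (rd 5 (n3 i)) β ![a, b, c] ∧ ∀ j : Fin 6, E3 (rd 5 (n3 j)) β ![a, b, c] →
      j = i := by
  decide +kernel

theorem c5 : ∀ a b c : ZMod 3, (a ≠ 0 ∨ b ≠ 0 ∨ c ≠ 0) → bl 5 ![a, b, c] ![a, b, c] = 0 →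
    ∃ i : Fin 4, ∃ k : ZMod 3, k ≠ 0 ∧ a = k * rd 3 (n5 i) 0 ∧ b = k * rd 3 (n5 i) 1 ∧
      c = k * rd 3 (n5 i) 2 := by
  decide +kernel

theorem c3 : ∀ a b c : ZMod 5, (a ≠ 0 ∨ b ≠ 0 ∨ c ≠ 0) → bl 3 ![a, b, c] ![a, b, c] = 0 →
    ∃ i : Fin 6, ∃ k : ZMod 5, k ≠ 0 ∧ a = k * rd 5 (n3 i) 0 ∧ b = k * rd 5 (n3 i) 1 ∧
      c = k * rd 5 (n3 i) 2 := by
  decide +kernel

theorem o5 : ∀ (i : Fin 4) (β a b c : ZMod 3), β ≠ 0 → E5 (rd 3 (n5 i)) β ![a, b, c] →
    ¬ E5 (rd 3 (n5 i)) β ![-a, -b, -c] := by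
  decide +kernel

theorem o3 : ∀ (i : Fin 6) (β a b c : ZMod 5), β ≠ 0 → E3 (rd 5 (n3 i)) β ![a, b, c] →
    ¬ E3 (rd 5 (n3 i)) β ![-a, -b, -c] := by
  decide +kernel

theorem rl5 : rl 5 = 3 := by unfold rl; rw [if_pos rfl]

theorem rl3 : rl 3 = 5 := by unfold rl; rw [if_neg (by norm_num)]

theorem d3_self (v n : V3) : d3 v n n = 0 := by unfold d3; ring

theorem lns5 : Lns 5 4 n5 := by
  have hz : ∀ x : ℤ, ((x : ℤ) : ZMod 3) = 0 ↔ (3 : ℤ) ∣ x :=
    fun x => ZMod.intCast_zmod_eq_zero_iff_dvd x 3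
  have : Fact (Nat.Prime 3) := ⟨by norm_num⟩
  constructor
  · intro β v hβ h
    rw [rl5] at hβ h
    have h1 : (β : ZMod 3) ≠ 0 := by rwa [Ne, hz]
    have h2 : (β : ZMod 3) ^ 2 + bl 5 ![(v 0 : ZMod 3), (v 1 : ZMod 3), (v 2 : ZMod 3)]
        ![(v 0 : ZMod 3), (v 1 : ZMod 3), (v 2 : ZMod 3)] = 0 := by
      rw [← rd_eta, bl_cast, ← Int.cast_pow, ← Int.cast_add, hz]
      exact h
    obtain ⟨i, hi, hj⟩ := u5 _ _ _ _ h1 h2
    rw [← rd_eta] at hi hj
    refine ⟨i, (onl5 _ _ _).2 hi, fun j hj' => hj j ((onl5 _ _ _).1 hj')⟩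
  · intro n β v hn hv hβ
    rw [rl5] at hn hβ
    have h1 : (β : ZMod 3) ≠ 0 := by rwa [Ne, hz]
    have h0 := hv n
    rw [d3_self, zero_add, rl5] at h0
    have h3 : (3 : ℤ) ∣ bl 5 n n := by
      rcases Int.prime_three.dvd_or_dvd h0 with h | h
      · exact absurd h hβ
      · exact h
    have h4 : bl 5 ![(n 0 : ZMod 3), (n 1 : ZMod 3), (n 2 : ZMod 3)]
        ![(n 0 : ZMod 3), (n 1 : ZMod 3), (n 2 : ZMod 3)] = 0 := by
      rw [← rd_eta, bl_cast, hz]
      exact h3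
    have h5 : (n 0 : ZMod 3) ≠ 0 ∨ (n 1 : ZMod 3) ≠ 0 ∨ (n 2 : ZMod 3) ≠ 0 := by
      by_contra hc
      push Not at hc
      obtain ⟨c0, c1, c2⟩ := hc
      rw [hz] at c0 c1 c2
      exact hn fun i => by fin_cases i <;> assumption
    obtain ⟨i, k, hk, e0, e1, e2⟩ := c5 _ _ _ h5 h4
    refine ⟨i, fun u hu => ?_⟩
    rw [onl5] at hu ⊢
    obtain ⟨a, b, c⟩ := hu
    have r0 : rd 3 n 0 = k * rd 3 (n5 i) 0 := e0
    have r1 : rd 3 n 1 = k * rd 3 (n5 i) 1 := e1
    have r2 : rd 3 n 2 = k * rd 3 (n5 i) 2 := e2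
    rw [r0, r1, r2] at a b c
    refine ⟨mul_left_cancel₀ hk ?_, mul_left_cancel₀ hk ?_, mul_left_cancel₀ hk ?_⟩
    · linear_combination a
    · linear_combination b
    · linear_combination c
  · rw [rl5]
    intro i hi
    have := hi 0
    fin_cases i <;> simp [n5] at this
  · intro i β v hβ h1 h2
    rw [rl5] at hβ
    have h3 : (β : ZMod 3) ≠ 0 := by rwa [Ne, hz]
    rw [onl5, rd_eta 3 v] at h1
    rw [onl5, rd_eta 3 (-v)] at h2
    refine o5 i _ _ _ _ h3 h1 ?_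
    simpa using h2

theorem lns3 : Lns 3 6 n3 := by
  have hz : ∀ x : ℤ, ((x : ℤ) : ZMod 5) = 0 ↔ (5 : ℤ) ∣ x :=
    fun x => ZMod.intCast_zmod_eq_zero_iff_dvd x 5
  have : Fact (Nat.Prime 5) := ⟨by norm_num⟩
  constructor
  · intro β v hβ h
    rw [rl3] at hβ h
    have h1 : (β : ZMod 5) ≠ 0 := by rwa [Ne, hz]
    have h2 : (β : ZMod 5) ^ 2 + bl 3 ![(v 0 : ZMod 5), (v 1 : ZMod 5), (v 2 : ZMod 5)]
        ![(v 0 : ZMod 5), (v 1 : ZMod 5), (v 2 : ZMod 5)] = 0 := by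
      rw [← rd_eta, bl_cast, ← Int.cast_pow, ← Int.cast_add, hz]
      exact h
    obtain ⟨i, hi, hj⟩ := u3 _ _ _ _ h1 h2
    rw [← rd_eta] at hi hj
    refine ⟨i, (onl3 _ _ _).2 hi, fun j hj' => hj j ((onl3 _ _ _).1 hj')⟩
  · intro n β v hn hv hβ
    rw [rl3] at hn hβ
    have h1 : (β : ZMod 5) ≠ 0 := by rwa [Ne, hz]
    have h0 := hv n
    rw [d3_self, zero_add, rl3] at h0
    have h3 : (5 : ℤ) ∣ bl 3 n n := by
      rcases (Int.prime_iff_natAbs_prime.2 (by norm_num : Nat.Prime (5 : ℤ).natAbs)).dvd_or_dvd h0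
        with h | h
      · exact absurd h hβ
      · exact h
    have h4 : bl 3 ![(n 0 : ZMod 5), (n 1 : ZMod 5), (n 2 : ZMod 5)]
        ![(n 0 : ZMod 5), (n 1 : ZMod 5), (n 2 : ZMod 5)] = 0 := by
      rw [← rd_eta, bl_cast, hz]
      exact h3
    have h5 : (n 0 : ZMod 5) ≠ 0 ∨ (n 1 : ZMod 5) ≠ 0 ∨ (n 2 : ZMod 5) ≠ 0 := by
      by_contra hc
      push Not at hc
      obtain ⟨c0, c1, c2⟩ := hc
      rw [hz] at c0 c1 c2
      exact hn fun i => by fin_cases i <;> assumption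
    obtain ⟨i, k, hk, e0, e1, e2⟩ := c3 _ _ _ h5 h4
    refine ⟨i, fun u hu => ?_⟩
    rw [onl3] at hu ⊢
    obtain ⟨a, b, c⟩ := hu
    have r0 : rd 5 n 0 = k * rd 5 (n3 i) 0 := e0
    have r1 : rd 5 n 1 = k * rd 5 (n3 i) 1 := e1
    have r2 : rd 5 n 2 = k * rd 5 (n3 i) 2 := e2
    rw [r0, r1, r2] at a b c
    refine ⟨mul_left_cancel₀ hk ?_, mul_left_cancel₀ hk ?_, mul_left_cancel₀ hk ?_⟩
    · linear_combination a
    · linear_combination b
    · linear_combination c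
  · rw [rl3]
    intro i hi
    have := hi 0
    fin_cases i <;> simp [n3] at this
  · intro i β v hβ h1 h2
    rw [rl3] at hβ
    have h3 : (β : ZMod 5) ≠ 0 := by rwa [Ne, hz]
    rw [onl3, rd_eta 5 v] at h1
    rw [onl3, rd_eta 5 (-v)] at h2
    refine o3 i _ _ _ _ h3 h1 ?_
    simpa using h2

/-! ### the characters -/

theorem pr_sq {N : Finset ℕ} (hN : Pq N) {p : ℕ} (hp : p ∈ N) :
    (p : ℤ) ∣ (pr N : ℤ) ∧ ¬ (p : ℤ) ^ 2 ∣ (pr N : ℤ) := by
  have e : pr N = p * ∏ l ∈ N.erase p, l := by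
    unfold Pool.Agent.Z700.pr
    rw [mul_prod_erase N (fun l => l) hp]
  obtain ⟨hpp, -, -, -⟩ := hN p hp
  constructor
  · rw [e]
    exact_mod_cast dvd_mul_right _ _
  · intro h
    have h2 : p ^ 2 ∣ pr N := by exact_mod_cast h
    rw [e, sq] at h2
    have h3 := Nat.dvd_of_mul_dvd_mul_left hpp.pos h2
    rw [hpp.prime.dvd_finsetProd_iff] at h3
    obtain ⟨l, hl, hpl⟩ := h3
    rw [mem_erase] at hl
    exact hl.1 ((Nat.prime_dvd_prime_iff_eq hpp (hN l hl.2).1).1 hpl).symm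

theorem pq_ne {q : ℕ} (hq : q = 3 ∨ q = 5) {N : Finset ℕ} (hN : Pq N) {p : ℕ} (hp : p ∈ N) :
    p ≠ q := by
  obtain ⟨-, -, h3, h5⟩ := hN p hp
  rcases hq with rfl | rfl <;> assumption

theorem Ph_sq (h : S_PHI) {q : ℕ} (hq : q = 3 ∨ q = 5) {N : Finset ℕ} (hN : Pq N) {P : Finset ℕ}
    (hP : P ⊆ N) {v : V3} (hv : bl q v v = (pr N : ℤ)) : Ph q P v * Ph q P v = 1 := by
  have h1 : ∀ p ∈ P, ph q p (rd p v) * ph q p (rd p v) = 1 := by
    intro p hp
    obtain ⟨hpp, hp2, -, -⟩ := hN p (hP hp)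
    obtain ⟨d1, d2⟩ := pr_sq hN (hP hp)
    have hf := ph_spec h hq hpp hp2 (pq_ne hq hN (hP hp))
    have rv : bl q (rd p v) (rd p v) = 0 := by
      rw [bl_cast, hv, ZMod.intCast_zmod_eq_zero_iff_dvd]
      exact d1
    have rne : rd p v ≠ 0 := by
      intro h0
      apply d2
      have h3 : ∀ i, (p : ℤ) ∣ v i := fun i =>
        (ZMod.intCast_zmod_eq_zero_iff_dvd _ p).1 (congrFun h0 i)
      obtain ⟨a, ha⟩ := h3 0
      obtain ⟨b, hb⟩ := h3 1
      obtain ⟨d, hd⟩ := h3 2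
      rw [← hv]
      refine ⟨bl q ![a, b, d] ![a, b, d], ?_⟩
      unfold bl
      rw [ha, hb, hd]
      split_ifs <;> simp <;> ring
    rcases hf.pm _ rv rne with h | h <;> rw [h] <;> norm_num
  unfold Ph
  rw [← Finset.prod_mul_distrib, Finset.prod_congr rfl h1, Finset.prod_const_one]

/-! ### the sum of the squares -/

open Classical in
/-- the sum over the vectors of a line -/
noncomputable def al (q : ℕ) (P : Finset ℕ) (n : ℤ) (m : V3) (β : ℤ) : ℤ :=
  ∑ v ∈ (vec q n).filter (fun v => OnL q m β v), Ph q P v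

theorem al5 (P : Finset ℕ) (n β : ℤ) : A 5 P n β = al 5 P n (n5 0) β := by
  classical
  unfold A al
  congr 1
  ext v
  rw [mem_filter, mem_filter, ln5]

theorem al3 (P : Finset ℕ) (n β : ℤ) : A 3 P n β = al 3 P n (n3 0) β := by
  classical
  unfold A al
  congr 1
  ext v
  rw [mem_filter, mem_filter, ln3]

section main

variable {q k : ℕ} {nn : Fin k → V3}

theorem com_iff (hL : Lns q k nn) {β : ℤ} (hβ : ¬ rl q ∣ β) (v w : V3) :
    Com q β v w ↔ ∃ i, OnL q (nn i) β v ∧ OnL q (nn i) β w := by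
  constructor
  · rintro ⟨n, hn, hv, hw⟩
    obtain ⟨i, hi⟩ := hL.cls n β v hn hv hβ
    exact ⟨i, hi v hv, hi w hw⟩
  · rintro ⟨i, hv, hw⟩
    exact ⟨nn i, hL.ne i, hv, hw⟩

/-- the sum over all lines -/
theorem sum_al (hL : Lns q k nn) (hq : q = 3 ∨ q = 5) {β n : ℤ} (hβ : ¬ rl q ∣ β)
    (hn : rl q ∣ β ^ 2 + n) (P : Finset ℕ) :
    ∑ i, al q P n (nn i) β = ∑ v ∈ vec q n, Ph q P v := by
  classical
  unfold al
  simp only [sum_filter]
  rw [sum_comm]
  refine sum_congr rfl fun v hv => ?_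
  rw [mem_vec hq] at hv
  obtain ⟨i, hi, hj⟩ := hL.uniq β v hβ (by rw [hv]; exact hn)
  rw [sum_eq_single i, if_pos hi]
  · intro j _ hji
    rw [if_neg fun h => hji (hj j h)]
  · intro h
    exact absurd (mem_univ i) h

open Classical in
theorem sum_sq1 (hL : Lns q k nn) (hq : q = 3 ∨ q = 5) {β n : ℤ} (hβ : ¬ rl q ∣ β)
    (hn : rl q ∣ β ^ 2 + n) (P : Finset ℕ) :
    ∑ i, al q P n (nn i) β ^ 2 =
      ∑ x ∈ (vec q n ×ˢ vec q n).filter (fun x => Com q β x.1 x.2), Ph q P x.1 * Ph q P x.2 := by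
  have e : ∀ i, al q P n (nn i) β ^ 2 = ∑ x ∈ vec q n ×ˢ vec q n,
      (if OnL q (nn i) β x.1 then Ph q P x.1 else 0) *
        (if OnL q (nn i) β x.2 then Ph q P x.2 else 0) := by
    intro i
    unfold al
    rw [sum_filter, sq, sum_mul_sum, ← sum_product']
  rw [sum_congr rfl fun i _ => e i, sum_comm, sum_filter]
  refine sum_congr rfl fun x hx => ?_
  rw [mem_product, mem_vec hq, mem_vec hq] at hx
  obtain ⟨i, hi, hj⟩ := hL.uniq β x.1 hβ (by rw [hx.1]; exact hn)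
  have hs : ∑ j, (if OnL q (nn j) β x.1 then Ph q P x.1 else 0) *
      (if OnL q (nn j) β x.2 then Ph q P x.2 else 0) =
      (if OnL q (nn i) β x.1 then Ph q P x.1 else 0) *
      (if OnL q (nn i) β x.2 then Ph q P x.2 else 0) := by
    refine sum_eq_single i ?_ ?_
    · intro j _ hji
      rw [if_neg fun h => hji (hj j h), zero_mul]
    · intro h
      exact absurd (mem_univ i) h
  rw [hs, if_pos hi]
  by_cases hc : Com q β x.1 x.2
  · rw [if_pos hc]
    obtain ⟨j, hj1, hj2⟩ := (com_iff hL hβ _ _).1 hc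
    have : j = i := hj j hj1
    subst this
    rw [if_pos hj2]
  · rw [if_neg hc, if_neg, mul_zero]
    intro h
    exact hc ((com_iff hL hβ _ _).2 ⟨i, hi, h⟩)

/-- the inner products -/
theorem com_dot (hL : Lns q k nn) (hq : q = 3 ∨ q = 5) {β : ℤ} {n : ℕ} (hβ : ¬ rl q ∣ β)
    (hodd : Odd n) {x : V3 × V3} (h1 : bl q x.1 x.1 = n) (h2 : bl q x.2 x.2 = n)
    (hc : Com q β x.1 x.2) :
    (((n : ℤ) - bl q x.1 x.2) / 2).toNat ∈ range n ∧
      bl q x.1 x.2 = (n : ℤ) - 2 * (((((n : ℤ) - bl q x.1 x.2) / 2).toNat : ℕ) : ℤ) := by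
  have ho : Odd ((n : ℤ)) := by exact_mod_cast hodd
  have h3 : Odd (bl q x.1 x.2) := bl_odd hq (by rw [h1]; exact ho) (by rw [h2]; exact ho)
  have h4 := bl_pos hq (x.1 - x.2)
  have h5 := bl_pos hq (x.1 + x.2)
  rw [bl_sub_sub, h1, h2] at h4
  have h6 : bl q (x.1 + x.2) (x.1 + x.2) ≠ 0 := by
    intro h0
    have h7 := bl_def hq _ h0
    have h8 : x.2 = -x.1 := by
      rw [eq_neg_iff_add_eq_zero, add_comm]
      exact h7
    obtain ⟨i, a, b⟩ := (com_iff hL hβ _ _).1 hc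
    rw [h8] at b
    exact hL.opp i β x.1 hβ a b
  have h7 : 0 < bl q (x.1 + x.2) (x.1 + x.2) := lt_of_le_of_ne h5 (Ne.symm h6)
  rw [bl_add_add, h1, h2] at h7
  generalize bl q x.1 x.2 = d at h3 h4 h7 ⊢
  obtain ⟨a, ha⟩ := ho
  obtain ⟨b, hb⟩ := h3
  rw [mem_range]
  omega

theorem main_sq (hL : Lns q k nn) (hq : q = 3 ∨ q = 5) (hPhi : S_PHI) (hW : S_WTV)
    {N : Finset ℕ} (hN : Pq N) (hodd : Odd (pr N)) {β : ℤ} (hβ : ¬ rl q ∣ β)
    (hn : rl q ∣ β ^ 2 + pr N) {P : Finset ℕ} (hP : P ⊆ N) :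
    ∑ i, al q P (pr N) (nn i) β ^ 2 = ((vec q (pr N : ℤ)).card : ℤ) +
      ∑ T ∈ Ioo 0 (pr N), (∏ p ∈ P, wp p (pr N) T) * cpl q (pr N) T β := by
  classical
  rw [sum_sq1 hL hq hβ hn P]
  set n : ℕ := pr N with hnn
  have hmem : ∀ x ∈ (vec q (n : ℤ) ×ˢ vec q (n : ℤ)).filter (fun x => Com q β x.1 x.2),
      bl q x.1 x.1 = n ∧ bl q x.2 x.2 = n ∧ Com q β x.1 x.2 := by
    intro x hx
    rw [mem_filter, mem_product, mem_vec hq, mem_vec hq] at hx
    exact ⟨hx.1.1, hx.1.2, hx.2⟩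
  have hmap : ∀ x ∈ (vec q (n : ℤ) ×ˢ vec q (n : ℤ)).filter (fun x => Com q β x.1 x.2),
      (((n : ℤ) - bl q x.1 x.2) / 2).toNat ∈ range n := fun x hx =>
    (com_dot hL hq hβ hodd (hmem x hx).1 (hmem x hx).2.1 (hmem x hx).2.2).1
  rw [← sum_fiberwise_of_maps_to hmap]
  have hn0 : 0 < n := hodd.pos
  have hr : range n = insert 0 (Ioo 0 n) := by
    ext T
    rw [mem_insert, mem_Ioo, mem_range]
    omega
  rw [hr, sum_insert (by simp)]
  congr 1
  · have e1 : ∀ v ∈ vec q (n : ℤ), Ph q P v * Ph q P v = 1 := fun v hv =>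
      Ph_sq hPhi hq hN hP ((mem_vec hq).1 hv)
    have e2 : ((vec q (n : ℤ)).card : ℤ) = ∑ v ∈ vec q (n : ℤ), Ph q P v * Ph q P v := by
      rw [sum_congr rfl e1, sum_const, nsmul_eq_mul, mul_one]
    rw [e2]
    refine sum_nbij' (fun x => x.1) (fun v => (v, v)) ?_ ?_ ?_ ?_ ?_
    · intro x hx
      rw [mem_filter] at hx
      rw [mem_vec hq]
      exact (hmem x hx.1).1
    · intro v hv
      rw [mem_vec hq] at hv
      rw [mem_filter, mem_filter, mem_product, mem_vec hq]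
      refine ⟨⟨⟨hv, hv⟩, ?_⟩, ?_⟩
      · rw [com_iff hL hβ]
        obtain ⟨i, hi, -⟩ := hL.uniq β v hβ (by rw [hv]; exact hn)
        exact ⟨i, hi, hi⟩
      · simp only
        rw [hv, sub_self]
        rfl
    · intro x hx
      rw [mem_filter] at hx
      obtain ⟨h1, h2, h3⟩ := hmem x hx.1
      have h4 := (com_dot hL hq hβ hodd h1 h2 h3).2
      rw [hx.2] at h4
      have h5 : bl q (x.1 - x.2) (x.1 - x.2) = 0 := by
        rw [bl_sub_sub, h1, h2, h4]
        push_cast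
        ring
      have h6 := bl_def hq _ h5
      exact Prod.ext rfl (sub_eq_zero.1 h6)
    · intro v _
      rfl
    · intro x hx
      rw [mem_filter] at hx
      obtain ⟨h1, h2, h3⟩ := hmem x hx.1
      have h4 := (com_dot hL hq hβ hodd h1 h2 h3).2
      rw [hx.2] at h4
      have h5 : bl q (x.1 - x.2) (x.1 - x.2) = 0 := by
        rw [bl_sub_sub, h1, h2, h4]
        push_cast
        ring
      have h6 := bl_def hq _ h5
      rw [sub_eq_zero.1 h6]
  · refine sum_congr rfl fun T hT => ?_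
    rw [mem_Ioo] at hT
    have hset : ((vec q (n : ℤ) ×ˢ vec q (n : ℤ)).filter (fun x => Com q β x.1 x.2)).filter
        (fun x => (((n : ℤ) - bl q x.1 x.2) / 2).toNat = T) =
        (vec q (n : ℤ) ×ˢ vec q (n : ℤ)).filter fun x =>
          bl q x.1 x.2 = (n : ℤ) - 2 * T ∧ Com q β x.1 x.2 := by
      ext x
      constructor
      · intro hx
        rw [mem_filter] at hx
        obtain ⟨h1, h2, h3⟩ := hmem x hx.1
        have h4 := (com_dot hL hq hβ hodd h1 h2 h3).2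
        rw [hx.2] at h4
        rw [mem_filter]
        exact ⟨(mem_filter.1 hx.1).1, h4, h3⟩
      · intro hx
        rw [mem_filter] at hx
        rw [mem_filter, mem_filter]
        refine ⟨⟨hx.1, hx.2.2⟩, ?_⟩
        rw [hx.2.1]
        omega
    rw [hset]
    have hterm : ∀ x ∈ (vec q (n : ℤ) ×ˢ vec q (n : ℤ)).filter (fun x =>
        bl q x.1 x.2 = (n : ℤ) - 2 * T ∧ Com q β x.1 x.2),
        Ph q P x.1 * Ph q P x.2 = ∏ p ∈ P, wp p n T := by
      intro x hx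
      rw [mem_filter, mem_product] at hx
      exact hW q hq N hN P hP x.1 hx.1.1 x.2 hx.1.2 T hT.2 hx.2.1
    rw [sum_congr rfl hterm, sum_const, nsmul_eq_mul, mul_comm]
    congr 2

end main

/-! ### the half-turns -/

theorem ph_rot (hPhi : S_PHI) (hRef : S_REF) {q p : ℕ} (hq : q = 3 ∨ q = 5) (hp : p.Prime)
    (h2 : p ≠ 2) (hpq : p ≠ q) {e v w : V3} (he : ((bl q e e : ℤ) : ZMod p) ≠ 0)
    (h : ∀ i, bl q e e * w i = -(bl q e e * v i - 2 * bl q e v * e i)) :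
    ph q p (rd p w) = lz p ((bl q e e : ℤ) : ZMod p) * ph q p (rd p v) := by
  have : Fact p.Prime := ⟨hp⟩
  have hf := ph_spec hPhi hq hp h2 hpq
  have hr := hRef q hq p hp h2 hpq (ph q p) hf (rd p e) (rd p v) (-(rd p w))
    (by rw [bl_cast]; exact he) (by
      intro i
      rw [bl_cast, bl_cast]
      have h3 : ((bl q e e * w i : ℤ) : ZMod p) = ((-(bl q e e * v i - 2 * bl q e v * e i) : ℤ) :
        ZMod p) := by rw [h i]
      push_cast at h3
      simp only [Pi.neg_apply]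
      unfold rd
      linear_combination -h3)
  have hs := hf.smul (-1) (rd p w) (neg_ne_zero.2 one_ne_zero)
  rw [neg_one_smul] at hs
  rw [bl_cast] at hr
  have h4 : lz p (-((bl q e e : ℤ) : ZMod p)) = lz p (-1) * lz p ((bl q e e : ℤ) : ZMod p) := by
    rw [← lz_mul hp, neg_one_mul]
  have h5 : lz p (-1) * lz p (-1) = 1 := by
    rcases lz_pm hp (a := -1) (neg_ne_zero.2 one_ne_zero) with h | h <;> rw [h] <;> norm_num
  rw [hs, h4] at hr
  linear_combination lz p (-1) * hr - (ph q p (rd p w) -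
    lz p ((bl q e e : ℤ) : ZMod p) * ph q p (rd p v)) * h5

/-- the sign of a half-turn -/
noncomputable def cc (P : Finset ℕ) (m : ℤ) : ℤ := ∏ p ∈ P, lz p ((m : ℤ) : ZMod p)

theorem sm_ne {m : ℤ} (hm : m = 3 ∨ m = 4 ∨ m = 12 ∨ m = 20) {p : ℕ} (hp : p.Prime) (h2 : p ≠ 2)
    (h3 : p ≠ 3) (h5 : p ≠ 5) : ((m : ℤ) : ZMod p) ≠ 0 := by
  rw [Ne, ZMod.intCast_zmod_eq_zero_iff_dvd]
  intro h
  have h60 : (p : ℤ) ∣ 60 := by
    rcases hm with rfl | rfl | rfl | rfl
    · exact h.trans ⟨20, by norm_num⟩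
    · exact h.trans ⟨15, by norm_num⟩
    · exact h.trans ⟨5, by norm_num⟩
    · exact h.trans ⟨3, by norm_num⟩
  have h61 : p ∣ 2 * 2 * 3 * 5 := by exact_mod_cast h60
  rw [hp.dvd_mul, hp.dvd_mul, hp.dvd_mul] at h61
  have l2 := Nat.prime_dvd_prime_iff_eq hp Nat.prime_two
  have l3 := Nat.prime_dvd_prime_iff_eq hp Nat.prime_three
  have l5 := Nat.prime_dvd_prime_iff_eq hp Nat.prime_five
  tauto

theorem cc_sq {N P : Finset ℕ} (hN : Pq N) (hP : P ⊆ N) {m : ℤ}
    (hm : m = 3 ∨ m = 4 ∨ m = 12 ∨ m = 20) : cc P m * cc P m = 1 := by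
  unfold cc
  rw [← prod_mul_distrib]
  refine prod_eq_one fun p hp => ?_
  obtain ⟨hpp, a, b, c⟩ := hN p (hP hp)
  rcases lz_pm hpp (sm_ne hm hpp a b c) with h | h <;> rw [h] <;> norm_num

theorem al_rot (hPhi : S_PHI) (hRef : S_REF) {q : ℕ} (hq : q = 3 ∨ q = 5) {N P : Finset ℕ}
    (hN : Pq N) (hP : P ⊆ N) {m : ℤ} (hm : m = 3 ∨ m = 4 ∨ m = 12 ∨ m = 20) {e : V3}
    (he : bl q e e = m) (r : V3 → V3) (hr : ∀ v, r (r v) = v)
    (hb : ∀ v, bl q (r v) (r v) = bl q v v)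
    (h : ∀ v i, m * r v i = -(m * v i - 2 * bl q e v * e i)) {l l' : V3} {β : ℤ}
    (h1 : ∀ v, OnL q l β v → OnL q l' β (r v)) (h2 : ∀ v, OnL q l' β v → OnL q l β (r v)) (n : ℤ) :
    al q P n l' β = cc P m * al q P n l β := by
  classical
  have hPh : ∀ v, Ph q P (r v) = cc P m * Ph q P v := by
    intro v
    unfold Ph cc
    rw [← prod_mul_distrib]
    refine prod_congr rfl fun p hp => ?_
    obtain ⟨hpp, a, b, c⟩ := hN p (hP hp)
    have h3 := ph_rot hPhi hRef hq hpp a (pq_ne hq hN (hP hp)) (e := e) (v := v) (w := r v)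
      (by rw [he]; exact sm_ne hm hpp a b c) (by intro i; rw [he]; exact h v i)
    rw [he] at h3
    exact h3
  unfold al
  rw [mul_sum]
  symm
  refine sum_nbij' r r ?_ ?_ ?_ ?_ ?_
  · intro v hv
    rw [mem_filter, mem_vec hq] at hv ⊢
    exact ⟨by rw [hb]; exact hv.1, h1 v hv.2⟩
  · intro v hv
    rw [mem_filter, mem_vec hq] at hv ⊢
    exact ⟨by rw [hb]; exact hv.1, h2 v hv.2⟩
  · intro v _
    exact hr v
  · intro v _
    exact hr v
  · intro v _
    rw [hPh]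

theorem r5a1 : ∀ β a b c : ZMod 3, (E5 (rd 3 (n5 1)) β ![a, b, c] →
    E5 (rd 3 (n5 3)) β ![-a - c, -b - c, c]) ∧ (E5 (rd 3 (n5 3)) β ![a, b, c] →
    E5 (rd 3 (n5 1)) β ![-a - c, -b - c, c]) := by decide +kernel

theorem r5b1 : ∀ β a b c : ZMod 3, (E5 (rd 3 (n5 1)) β ![a, b, c] →
    E5 (rd 3 (n5 2)) β ![-a, c, b]) ∧ (E5 (rd 3 (n5 2)) β ![a, b, c] →
    E5 (rd 3 (n5 1)) β ![-a, c, b]) := by decide +kernel

theorem r5c1 : ∀ β a b c : ZMod 3, (E5 (rd 3 (n5 2)) β ![a, b, c] →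
    E5 (rd 3 (n5 3)) β ![-a + b, b, -b - c]) ∧ (E5 (rd 3 (n5 3)) β ![a, b, c] →
    E5 (rd 3 (n5 2)) β ![-a + b, b, -b - c]) := by decide +kernel

/-- the three other lines -/
theorem a5 (hPhi : S_PHI) (hRef : S_REF) {N P : Finset ℕ} (hN : Pq N) (hP : P ⊆ N) (n β : ℤ) :
    al 5 P n (n5 2) β = al 5 P n (n5 1) β ∧ al 5 P n (n5 3) β = al 5 P n (n5 1) β := by
  have hq : (5 : ℕ) = 3 ∨ (5 : ℕ) = 5 := Or.inr rfl
  have hm : (20 : ℤ) = 3 ∨ (20 : ℤ) = 4 ∨ (20 : ℤ) = 12 ∨ (20 : ℤ) = 20 := by norm_num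
  have e1 : al 5 P n (n5 3) β = cc P 20 * al 5 P n (n5 1) β := by
    refine al_rot hPhi hRef hq hN hP hm (e := ![1, 1, -2]) (by rw [bl5]; simp)
      (fun v => ![-v 0 - v 2, -v 1 - v 2, v 2]) ?_ ?_ ?_ ?_ ?_ n
    · intro v
      funext i
      fin_cases i <;> simp
    · intro v
      rw [bl5, bl5]
      simp
      ring
    · intro v i
      rw [bl5]
      fin_cases i <;> simp <;> ring
    · intro v hv
      rw [onl5] at hv ⊢
      rw [rd_eta] at hv
      have := (r5a1 _ _ _ _).1 hv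
      rw [rd_eta 3 ![-v 0 - v 2, -v 1 - v 2, v 2]]
      simpa using this
    · intro v hv
      rw [onl5] at hv ⊢
      rw [rd_eta] at hv
      have := (r5a1 _ _ _ _).2 hv
      rw [rd_eta 3 ![-v 0 - v 2, -v 1 - v 2, v 2]]
      simpa using this
  have e2 : al 5 P n (n5 2) β = cc P 20 * al 5 P n (n5 1) β := by
    refine al_rot hPhi hRef hq hN hP hm (e := ![0, 1, 1]) (by rw [bl5]; simp)
      (fun v => ![-v 0, v 2, v 1]) ?_ ?_ ?_ ?_ ?_ n
    · intro v
      funext i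
      fin_cases i <;> simp
    · intro v
      rw [bl5, bl5]
      simp
      ring
    · intro v i
      rw [bl5]
      fin_cases i <;> simp <;> ring
    · intro v hv
      rw [onl5] at hv ⊢
      rw [rd_eta] at hv
      have := (r5b1 _ _ _ _).1 hv
      rw [rd_eta 3 ![-v 0, v 2, v 1]]
      simpa using this
    · intro v hv
      rw [onl5] at hv ⊢
      rw [rd_eta] at hv
      have := (r5b1 _ _ _ _).2 hv
      rw [rd_eta 3 ![-v 0, v 2, v 1]]
      simpa using this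
  have e3 : al 5 P n (n5 3) β = cc P 20 * al 5 P n (n5 2) β := by
    refine al_rot hPhi hRef hq hN hP hm (e := ![1, 2, -1]) (by rw [bl5]; simp)
      (fun v => ![-v 0 + v 1, v 1, -v 1 - v 2]) ?_ ?_ ?_ ?_ ?_ n
    · intro v
      funext i
      fin_cases i <;> simp
    · intro v
      rw [bl5, bl5]
      simp
      ring
    · intro v i
      rw [bl5]
      fin_cases i <;> simp <;> ring
    · intro v hv
      rw [onl5] at hv ⊢
      rw [rd_eta] at hv
      have := (r5c1 _ _ _ _).1 hv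
      rw [rd_eta 3 ![-v 0 + v 1, v 1, -v 1 - v 2]]
      simpa using this
    · intro v hv
      rw [onl5] at hv ⊢
      rw [rd_eta] at hv
      have := (r5c1 _ _ _ _).2 hv
      rw [rd_eta 3 ![-v 0 + v 1, v 1, -v 1 - v 2]]
      simpa using this
  have hc := cc_sq hN hP hm
  constructor
  · linear_combination e2 - e1 + e3 + cc P 20 * e2 + al 5 P n (n5 1) β * hc
  · linear_combination e3 + cc P 20 * e2 + al 5 P n (n5 1) β * hc

theorem r3_1 : ∀ β a b c : ZMod 5, (E3 (rd 5 (n3 0)) β ![a, b, c] →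
    E3 (rd 5 (n3 1)) β ![-a, -b, b + c]) ∧ (E3 (rd 5 (n3 1)) β ![a, b, c] →
    E3 (rd 5 (n3 0)) β ![-a, -b, b + c]) := by decide +kernel

theorem r3_2 : ∀ β a b c : ZMod 5, (E3 (rd 5 (n3 0)) β ![a, b, c] →
    E3 (rd 5 (n3 2)) β ![-a, -b - c, c]) ∧ (E3 (rd 5 (n3 2)) β ![a, b, c] →
    E3 (rd 5 (n3 0)) β ![-a, -b - c, c]) := by decide +kernel

theorem r3_3 : ∀ β a b c : ZMod 5, (E3 (rd 5 (n3 0)) β ![a, b, c] →
    E3 (rd 5 (n3 3)) β ![-a, b + c, -c]) ∧ (E3 (rd 5 (n3 3)) β ![a, b, c] →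
    E3 (rd 5 (n3 0)) β ![-a, b + c, -c]) := by decide +kernel

theorem r3_4 : ∀ β a b c : ZMod 5, (E3 (rd 5 (n3 0)) β ![a, b, c] →
    E3 (rd 5 (n3 4)) β ![-a, b, -b - c]) ∧ (E3 (rd 5 (n3 4)) β ![a, b, c] →
    E3 (rd 5 (n3 0)) β ![-a, b, -b - c]) := by decide +kernel

theorem r3_5 : ∀ β a b c : ZMod 5, (E3 (rd 5 (n3 0)) β ![a, b, c] →
    E3 (rd 5 (n3 5)) β ![-a, c, b]) ∧ (E3 (rd 5 (n3 5)) β ![a, b, c] →
    E3 (rd 5 (n3 0)) β ![-a, c, b]) := by decide +kernel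

/-- the six lines -/
theorem a3 (hPhi : S_PHI) (hRef : S_REF) {N P : Finset ℕ} (hN : Pq N) (hP : P ⊆ N) (n β : ℤ)
    (i : Fin 6) : al 3 P n (n3 i) β ^ 2 = al 3 P n (n3 0) β ^ 2 := by
  have hq : (3 : ℕ) = 3 ∨ (3 : ℕ) = 5 := Or.inl rfl
  have h4 : (4 : ℤ) = 3 ∨ (4 : ℤ) = 4 ∨ (4 : ℤ) = 12 ∨ (4 : ℤ) = 20 := by norm_num
  have h12 : (12 : ℤ) = 3 ∨ (12 : ℤ) = 4 ∨ (12 : ℤ) = 12 ∨ (12 : ℤ) = 20 := by norm_num
  have fin : ∀ (m : ℤ) (_ : m = 3 ∨ m = 4 ∨ m = 12 ∨ m = 20) (x y : ℤ), x = cc P m * y →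
      x ^ 2 = y ^ 2 := by
    intro m hm x y h
    have := cc_sq hN hP hm
    rw [h]
    linear_combination y ^ 2 * this
  have e1 : al 3 P n (n3 1) β = cc P 4 * al 3 P n (n3 0) β := by
    refine al_rot hPhi hRef hq hN hP h4 (e := ![0, 0, 1]) (by rw [bl3]; simp)
      (fun v => ![-v 0, -v 1, v 1 + v 2]) ?_ ?_ ?_ ?_ ?_ n
    · intro v
      funext i
      fin_cases i <;> simp
    · intro v
      rw [bl3, bl3]
      simp
      ring
    · intro v i
      rw [bl3]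
      fin_cases i <;> simp <;> ring
    · intro v hv
      rw [onl3] at hv ⊢
      rw [rd_eta] at hv
      have := (r3_1 _ _ _ _).1 hv
      rw [rd_eta 5 ![-v 0, -v 1, v 1 + v 2]]
      simpa using this
    · intro v hv
      rw [onl3] at hv ⊢
      rw [rd_eta] at hv
      have := (r3_1 _ _ _ _).2 hv
      rw [rd_eta 5 ![-v 0, -v 1, v 1 + v 2]]
      simpa using this
  have e2 : al 3 P n (n3 2) β = cc P 12 * al 3 P n (n3 0) β := by
    refine al_rot hPhi hRef hq hN hP h12 (e := ![0, 1, -2]) (by rw [bl3]; simp)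
      (fun v => ![-v 0, -v 1 - v 2, v 2]) ?_ ?_ ?_ ?_ ?_ n
    · intro v
      funext i
      fin_cases i <;> simp
    · intro v
      rw [bl3, bl3]
      simp
      ring
    · intro v i
      rw [bl3]
      fin_cases i <;> simp <;> ring
    · intro v hv
      rw [onl3] at hv ⊢
      rw [rd_eta] at hv
      have := (r3_2 _ _ _ _).1 hv
      rw [rd_eta 5 ![-v 0, -v 1 - v 2, v 2]]
      simpa using this
    · intro v hv
      rw [onl3] at hv ⊢
      rw [rd_eta] at hv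
      have := (r3_2 _ _ _ _).2 hv
      rw [rd_eta 5 ![-v 0, -v 1 - v 2, v 2]]
      simpa using this
  have e3 : al 3 P n (n3 3) β = cc P 4 * al 3 P n (n3 0) β := by
    refine al_rot hPhi hRef hq hN hP h4 (e := ![0, 1, 0]) (by rw [bl3]; simp)
      (fun v => ![-v 0, v 1 + v 2, -v 2]) ?_ ?_ ?_ ?_ ?_ n
    · intro v
      funext i
      fin_cases i <;> simp
    · intro v
      rw [bl3, bl3]
      simp
      ring
    · intro v i
      rw [bl3]
      fin_cases i <;> simp <;> ring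
    · intro v hv
      rw [onl3] at hv ⊢
      rw [rd_eta] at hv
      have := (r3_3 _ _ _ _).1 hv
      rw [rd_eta 5 ![-v 0, v 1 + v 2, -v 2]]
      simpa using this
    · intro v hv
      rw [onl3] at hv ⊢
      rw [rd_eta] at hv
      have := (r3_3 _ _ _ _).2 hv
      rw [rd_eta 5 ![-v 0, v 1 + v 2, -v 2]]
      simpa using this
  have e4 : al 3 P n (n3 4) β = cc P 12 * al 3 P n (n3 0) β := by
    refine al_rot hPhi hRef hq hN hP h12 (e := ![0, 2, -1]) (by rw [bl3]; simp)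
      (fun v => ![-v 0, v 1, -v 1 - v 2]) ?_ ?_ ?_ ?_ ?_ n
    · intro v
      funext i
      fin_cases i <;> simp
    · intro v
      rw [bl3, bl3]
      simp
      ring
    · intro v i
      rw [bl3]
      fin_cases i <;> simp <;> ring
    · intro v hv
      rw [onl3] at hv ⊢
      rw [rd_eta] at hv
      have := (r3_4 _ _ _ _).1 hv
      rw [rd_eta 5 ![-v 0, v 1, -v 1 - v 2]]
      simpa using this
    · intro v hv
      rw [onl3] at hv ⊢
      rw [rd_eta] at hv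
      have := (r3_4 _ _ _ _).2 hv
      rw [rd_eta 5 ![-v 0, v 1, -v 1 - v 2]]
      simpa using this
  have e5 : al 3 P n (n3 5) β = cc P 12 * al 3 P n (n3 0) β := by
    refine al_rot hPhi hRef hq hN hP h12 (e := ![0, 1, 1]) (by rw [bl3]; simp)
      (fun v => ![-v 0, v 2, v 1]) ?_ ?_ ?_ ?_ ?_ n
    · intro v
      funext i
      fin_cases i <;> simp
    · intro v
      rw [bl3, bl3]
      simp
      ring
    · intro v i
      rw [bl3]
      fin_cases i <;> simp <;> ring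
    · intro v hv
      rw [onl3] at hv ⊢
      rw [rd_eta] at hv
      have := (r3_5 _ _ _ _).1 hv
      rw [rd_eta 5 ![-v 0, v 2, v 1]]
      simpa using this
    · intro v hv
      rw [onl3] at hv ⊢
      rw [rd_eta] at hv
      have := (r3_5 _ _ _ _).2 hv
      rw [rd_eta 5 ![-v 0, v 2, v 1]]
      simpa using this
  fin_cases i
  · rfl
  · exact fin 4 h4 _ _ e1
  · exact fin 12 h12 _ _ e2
  · exact fin 4 h4 _ _ e3
  · exact fin 12 h12 _ _ e4
  · exact fin 12 h12 _ _ e5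

/-! ### the local factors -/

theorem fc_ne {n D l : ℕ} (hl : ¬ l ∣ n) (hj : jacobiSym l n = 1) : fc n D l ≠ 0 := by
  unfold fc
  rw [if_neg hl, hj]
  simp only [one_pow, sum_const, card_range, nsmul_eq_mul, mul_one]
  positivity

theorem key {u v : ℕ} (hv : v.Prime) (huv : u ≠ v) {N P : Finset ℕ} (hP : P ⊆ N)
    (hun : ¬ u ∣ pr N) (hvn : ¬ v ∣ pr N) (hj : jacobiSym v (pr N) = 1) {T : ℕ} (hT : 0 < T)
    (hTn : T < pr N) {cp K : ℤ}
    (hc : cp = if Odd ((T * (pr N - T)).factorization u) then K * (T.factorization v : ℤ) *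
      ∏ l ∈ ((T * (pr N - T)).primeFactors.erase u).erase v, fc (pr N) (T * (pr N - T)) l else 0)
    (hw : ∏ l ∈ (T * (pr N - T)).primeFactors.erase u, fc (pr N) (T * (pr N - T)) l ≠ 0 →
      (Odd ((pr N - T).factorization u) → ∏ p ∈ N, wp p (pr N) T = -1) ∧
      (Odd (T.factorization u) → ∏ p ∈ N, wp p (pr N) T = 1)) :
    ((∏ p ∈ P, wp p (pr N) T) - ∏ p ∈ N \ P, wp p (pr N) T) * cp =
      2 * K * ((∏ p ∈ P, wp p (pr N) T) * loc u v (pr N) T) := by
  set n := pr N with hn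
  set D := T * (n - T) with hD
  have hnT : n - T ≠ 0 := by omega
  have hD0 : D ≠ 0 := mul_ne_zero hT.ne' hnT
  have hf : D.factorization u = T.factorization u + (n - T).factorization u := by
    rw [hD, Nat.factorization_mul hT.ne' hnT, Finsupp.add_apply]
  have hz : T.factorization u = 0 ∨ (n - T).factorization u = 0 := by
    by_contra hcon
    push Not at hcon
    have h1 := Nat.dvd_of_factorization_pos hcon.1
    have h2 := Nat.dvd_of_factorization_pos hcon.2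
    apply hun
    have := dvd_add h2 h1
    rwa [Nat.sub_add_cancel hTn.le] at this
  set wP := ∏ p ∈ P, wp p n T with hwP
  set wQ := ∏ p ∈ N \ P, wp p n T with hwQ
  have hprod : wQ * wP = ∏ p ∈ N, wp p n T := prod_sdiff hP
  by_cases ho : Odd (D.factorization u)
  · rw [if_pos ho] at hc
    set G := ∏ l ∈ (D.primeFactors.erase u).erase v, fc n D l with hG
    by_cases hzero : (T.factorization v : ℤ) * G = 0
    · have h1 : cp = 0 := by rw [hc, mul_assoc, hzero, mul_zero]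
      have h2 : loc u v n T = 0 := by
        unfold loc
        split_ifs
        · exact hzero
        · rfl
      rw [h1, h2]
      ring
    · have hvT : T.factorization v ≠ 0 := by
        intro h
        apply hzero
        rw [h]
        simp
      have hG0 : G ≠ 0 := fun h => hzero (by rw [h, mul_zero])
      have hvd := Nat.dvd_of_factorization_pos hvT
      have hmem : v ∈ D.primeFactors.erase u := by
        rw [mem_erase, Nat.mem_primeFactors]
        exact ⟨huv.symm, hv, hvd.mul_right _, hD0⟩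
      have hne : ∏ l ∈ D.primeFactors.erase u, fc n D l ≠ 0 := by
        rw [← mul_prod_erase _ _ hmem]
        exact mul_ne_zero (fc_ne hvn hj) hG0
      obtain ⟨w1, w2⟩ := hw hne
      by_cases h3 : Odd ((n - T).factorization u)
      · have h4 := w1 h3
        rw [← hprod] at h4
        have hloc : loc u v n T = (T.factorization v : ℤ) * G := by
          unfold loc
          rw [if_pos h3]
        have h5 : wQ = -wP := by
          rcases Int.mul_eq_neg_one_iff_eq_one_or_neg_one.1 h4 with ⟨a, b⟩ | ⟨a, b⟩ <;>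
            rw [a, b]
          norm_num
        rw [hloc, hc, h5]
        ring
      · have h3' : Odd (T.factorization u) := by
          rw [hf] at ho
          rcases hz with h | h
          · rw [h, zero_add] at ho
            exact absurd ho h3
          · rw [h, add_zero] at ho
            exact ho
        have h4 := w2 h3'
        rw [← hprod] at h4
        have hloc : loc u v n T = 0 := by
          unfold loc
          rw [if_neg h3]
        have h5 : wQ = wP := by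
          rcases Int.mul_eq_one_iff_eq_one_or_neg_one.1 h4 with ⟨a, b⟩ | ⟨a, b⟩ <;>
            rw [a, b]
        rw [hloc, h5]
        ring
  · rw [if_neg ho] at hc
    have h3 : ¬ Odd ((n - T).factorization u) := by
      intro h
      apply ho
      rcases hz with h1 | h1
      · rw [hf, h1, zero_add]
        exact h
      · rw [h1] at h
        exact absurd h (by decide)
    have hloc : loc u v n T = 0 := by
      unfold loc
      rw [if_neg h3]
    rw [hc, hloc]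
    ring

theorem sum_loc (u v n : ℕ) (f : ℕ → ℤ) :
    ∑ T ∈ (range n).filter (fun T => v ∣ T), f T * loc u v n T =
      ∑ T ∈ Ioo 0 n, f T * loc u v n T := by
  have h0 : ∀ T : ℕ, T.factorization v = 0 → f T * loc u v n T = 0 := by
    intro T h
    have : loc u v n T = 0 := by
      unfold loc
      rw [h]
      split_ifs <;> simp
    rw [this, mul_zero]
  rw [sum_filter]
  symm
  have hsub : Ioo 0 n ⊆ range n := by
    intro T hT
    rw [mem_Ioo] at hT
    exact mem_range.2 hT.2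
  rw [← sum_subset hsub]
  · refine sum_congr rfl fun T _ => ?_
    split_ifs with h
    · rfl
    · exact h0 T (Nat.factorization_eq_zero_of_not_dvd h)
  · intro T hT hT2
    rw [mem_range] at hT
    rw [mem_Ioo] at hT2
    have : T = 0 := by omega
    subst this
    rw [if_pos (dvd_zero v)]
    exact h0 0 (by simp)

end Pool.Agent.XV.SqW

namespace Pool.Agent.XV

open Finset
open Pool.Agent.Z700 (V3 pr)
open Pool.Agent.NH1 (lz rd)
open Pool.Agent.NH2 (wp)
open SqW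

theorem sqf {N : Finset ℕ} (hN : Pq N) : Squarefree (pr N) := by
  rw [Nat.squarefree_iff_prime_squarefree]
  intro p hp hpp
  have hpd : p ∣ pr N := (dvd_mul_right p p).trans hpp
  have hmem : p ∈ N := by
    unfold Pool.Agent.Z700.pr at hpd
    rw [hp.prime.dvd_finsetProd_iff] at hpd
    obtain ⟨q, hq, hpq⟩ := hpd
    rw [(Nat.prime_dvd_prime_iff_eq hp (hN q hq).1).1 hpq]
    exact hq
  exact (pr_sq hN hmem).2 (by
    rw [sq]
    exact_mod_cast hpp)

theorem pr_sdiff {N P : Finset ℕ} (hP : P ⊆ N) : pr (N \ P) * pr P = pr N := by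
  unfold Pool.Agent.Z700.pr
  exact prod_sdiff hP

theorem pr_empty : pr ∅ = 1 := rfl

theorem mod_mul {a b n x y : ℕ} (h : a * b = n) (ha : a % 60 = x) (hb : b % 60 = y) :
    n % 60 = (x * y) % 60 := by
  rw [← h, Nat.mul_mod, ha, hb]

/-- **SQ** -/
theorem t_SQ (h1 : S_PHI) (h2 : S_REF) (v4 : S_V4) (v5 : S_VAN5) (v3 : S_VAN3) (e3 : S_EQ3)
    (w : S_WTV) (wpn : S_WPN) (ps : S_PS) : S_SQ := by
  classical
  intro N hN
  have hsf := sqf hN
  constructor
  · intro hK β hβ P hP hPc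
    have hq : (5 : ℕ) = 3 ∨ (5 : ℕ) = 5 := Or.inr rfl
    have hodd : Odd (pr N) := by
      rw [Nat.odd_iff]
      unfold Kb at hK
      omega
    have h3n : ¬ 3 ∣ pr N := by
      unfold Kb at hK
      omega
    have h5n : ¬ 5 ∣ pr N := by
      unfold Kb at hK
      omega
    have hj : jacobiSym (3 : ℕ) (pr N) = 1 := by
      rw [jacobiSym.mod_right _ hodd]
      have h12 : pr N % (4 * ((3 : ℕ) : ℤ).natAbs) = 11 := by
        unfold Kb at hK
        simp only [Int.natAbs_natCast]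
        omega
      rw [h12]
      norm_num
    have hβ3 : ¬ (3 : ℤ) ∣ β := by
      intro h
      apply h3n
      have h4 : (3 : ℤ) ∣ β ^ 2 := dvd_pow h two_ne_zero
      exact_mod_cast (dvd_add_right h4).1 hβ
    have hrl : ¬ rl 5 ∣ β := by rw [rl5]; exact hβ3
    have hrn : rl 5 ∣ β ^ 2 + pr N := by rw [rl5]; exact hβ
    have hP' : N \ P ⊆ N := sdiff_subset
    have m1 := main_sq lns5 hq h1 w hN hodd hrl hrn hP
    have m2 := main_sq lns5 hq h1 w hN hodd hrl hrn hP'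
    have s1 := sum_al lns5 hq hrl hrn P
    have s2 := sum_al lns5 hq hrl hrn (N \ P)
    obtain ⟨a2, a3⟩ := a5 h1 h2 hN hP (pr N) β
    obtain ⟨b2, b3⟩ := a5 h1 h2 hN hP' (pr N) β
    rw [Fin.sum_univ_four] at m1 m2 s1 s2
    rw [a2, a3] at m1 s1
    rw [b2, b3] at m2 s2
    have hpp := pr_sdiff hP
    have hcls : ¬ Ka (pr (N \ P)) ∧ ¬ Kd (pr (N \ P)) := by
      have hPm : pr P % 60 = 1 ∨ pr P % 60 = 49 ∨ pr P % 60 = 19 ∨ pr P % 60 = 31 := by
        rcases hPc with h | h | h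
        · left
          rw [h, pr_empty]
        · rcases h with h | h <;> simp [h]
        · rcases h with h | h <;> simp [h]
      constructor
      · intro h
        unfold Kb at hK
        rcases h with h | h <;> rcases hPm with h' | h' | h' | h' <;>
          · have := mod_mul hpp h h'
            norm_num at this
            omega
      · intro h
        unfold Kb at hK
        rcases h with h | h <;> rcases hPm with h' | h' | h' | h' <;>
          · have := mod_mul hpp h h'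
            norm_num at this
            omega
    have hne : (N \ P).Nonempty := by
      rw [nonempty_iff_ne_empty]
      intro h
      apply hcls.1
      rw [h, pr_empty]
      left
      rfl
    have z0 : al 5 (N \ P) (pr N) (n5 0) β = 0 := by
      rw [← al5]
      exact v5 N hN hK β hβ _ hP' hne hcls.1 hcls.2
    have z1 := v4 5 hq N hN (fun _ => hK) (fun h => absurd h (by norm_num)) _ hP' hne
    rw [z1, z0] at s2
    have z2 : al 5 (N \ P) (pr N) (n5 1) β = 0 := by linarith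
    rw [z0, z2] at m2
    have hk : ∑ T ∈ Ioo 0 (pr N), ((∏ p ∈ P, wp p (pr N) T) - ∏ p ∈ N \ P, wp p (pr N) T) *
        (cpl 5 (pr N) T β : ℤ) = 2 * 6 * ∑ T ∈ Ioo 0 (pr N), ((∏ p ∈ P, wp p (pr N) T) *
          loc 5 3 (pr N) T) := by
      rw [mul_sum]
      refine sum_congr rfl fun T hT => ?_
      rw [mem_Ioo] at hT
      exact key Nat.prime_three (by norm_num) hP h5n h3n hj hT.1 hT.2
        ((ps (pr N) hsf β T hT.1 hT.2).1 hK hβ) ((wpn N hN T hT.1 hT.2).1 hK)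
    simp only [sub_mul, sum_sub_distrib] at hk
    rw [sum_loc]
    unfold S5
    rw [al5]
    by_cases he : P = ∅
    · rw [if_pos he, if_pos he]
      have s3 : ∑ v ∈ vec 5 (pr N : ℤ), Ph 5 P v = ((vec 5 (pr N : ℤ)).card : ℤ) := by
        rw [he]
        simp [Ph]
      rw [s3] at s1
      rw [← s1]
      linear_combination 12 * m1 - 12 * m2 + 12 * hk
    · rw [if_neg he, if_neg he]
      have s3 := v4 5 hq N hN (fun _ => hK) (fun h => absurd h (by norm_num)) _ hP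
        (nonempty_iff_ne_empty.2 he)
      rw [s3] at s1
      have s4 : al 5 P (pr N) (n5 0) β = -3 * al 5 P (pr N) (n5 1) β := by linarith
      rw [s4] at m1 ⊢
      linear_combination 12 * m1 - 12 * m2 + 12 * hk
  · intro hK β hβ Q hQ hQc
    have hq : (3 : ℕ) = 3 ∨ (3 : ℕ) = 5 := Or.inl rfl
    have hodd : Odd (pr N) := by
      rw [Nat.odd_iff]
      unfold Kd at hK
      omega
    have h3n : ¬ 3 ∣ pr N := by
      unfold Kd at hK
      omega
    have h5n : ¬ 5 ∣ pr N := by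
      unfold Kd at hK
      omega
    have hj : jacobiSym (5 : ℕ) (pr N) = 1 := by
      rw [jacobiSym.mod_right _ hodd]
      have h12 : pr N % (4 * ((5 : ℕ) : ℤ).natAbs) = 11 ∨
          pr N % (4 * ((5 : ℕ) : ℤ).natAbs) = 19 := by
        unfold Kd at hK
        simp only [Int.natAbs_natCast]
        omega
      rcases h12 with h12 | h12 <;> rw [h12] <;> norm_num
    have hβ3 : ¬ (5 : ℤ) ∣ β := by
      intro h
      apply h5n
      have h4 : (5 : ℤ) ∣ β ^ 2 := dvd_pow h two_ne_zero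
      exact_mod_cast (dvd_add_right h4).1 hβ
    have hrl : ¬ rl 3 ∣ β := by rw [rl3]; exact hβ3
    have hrn : rl 3 ∣ β ^ 2 + pr N := by rw [rl3]; exact hβ
    have hP : N \ Q ⊆ N := sdiff_subset
    have hPQ : N \ (N \ Q) = Q := Finset.sdiff_sdiff_eq_self hQ
    have m1 := main_sq lns3 hq h1 w hN hodd hrl hrn hQ
    have m2 := main_sq lns3 hq h1 w hN hodd hrl hrn hP
    rw [sum_congr rfl fun i _ => a3 h1 h2 hN hQ (pr N) β i, sum_const, card_univ,
      Fintype.card_fin, nsmul_eq_mul] at m1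
    rw [sum_congr rfl fun i _ => a3 h1 h2 hN hP (pr N) β i, sum_const, card_univ,
      Fintype.card_fin, nsmul_eq_mul] at m2
    push_cast at m1 m2
    have hpp := pr_sdiff hQ
    have hk : ∑ T ∈ Ioo 0 (pr N), ((∏ p ∈ N \ Q, wp p (pr N) T) - ∏ p ∈ Q, wp p (pr N) T) *
        (cpl 3 (pr N) T β : ℤ) = 2 * 12 * ∑ T ∈ Ioo 0 (pr N), ((∏ p ∈ N \ Q, wp p (pr N) T) *
          loc 3 5 (pr N) T) := by
      rw [mul_sum]
      refine sum_congr rfl fun T hT => ?_
      rw [mem_Ioo] at hT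
      have := key Nat.prime_five (by norm_num) hP h3n h5n hj hT.1 hT.2
        ((ps (pr N) hsf β T hT.1 hT.2).2 hK hβ) ((wpn N hN T hT.1 hT.2).2 hK)
      rw [hPQ] at this
      exact this
    simp only [sub_mul, sum_sub_distrib] at hk
    rw [sum_loc, al3]
    by_cases he : Q = N
    · rw [if_pos he]
      have h0 : N \ Q = ∅ := by rw [he, sdiff_self]; rfl
      have h4 := e3 N hN hK β hβ
      rw [al3] at h4
      rw [h0] at m2 hk ⊢
      rw [h4] at m1 m2 ⊢
      linear_combination 6 * m1 - 6 * m2 - 6 * hk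
    · rw [if_neg he]
      have hne : (N \ Q).Nonempty := by
        rw [nonempty_iff_ne_empty]
        intro h
        exact he (subset_antisymm hQ (sdiff_eq_empty_iff_subset.1 h))
      have hcls : ¬ Kc (pr (N \ Q)) ∧ ¬ Kd (pr (N \ Q)) := by
        have hPm : pr Q % 60 = 17 ∨ pr Q % 60 = 53 ∨ pr Q % 60 = 19 ∨ pr Q % 60 = 31 := by
          rcases hQc with h | h
          · rcases h with h | h <;> simp [h]
          · rcases h with h | h <;> simp [h]
        constructor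
        · intro h
          unfold Kd at hK
          rcases h with h | h <;> rcases hPm with h' | h' | h' | h' <;>
            · have := mod_mul hpp h h'
              norm_num at this
              omega
        · intro h
          unfold Kd at hK
          rcases h with h | h <;> rcases hPm with h' | h' | h' | h' <;>
            · have := mod_mul hpp h h'
              norm_num at this
              omega
      have z0 : al 3 (N \ Q) (pr N) (n3 0) β = 0 := by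
        rw [← al3]
        exact v3 N hN hK β hβ _ hP hne hcls.1 hcls.2
      rw [z0] at m2
      linear_combination 6 * m1 - 6 * m2 - 6 * hk

end Pool.Agent.XV
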