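import Pool.Agent.XV.Defs

set_option autoImplicit false

/-!
# Project XV: symmetries of the line sublattices (VAN5, VAN3, EQ3, EV3)
-/

namespace Pool.Agent.XV

open Finset
open Pool.Agent.Z700 (V3 pr)
open Pool.Agent.NH1 (lz rd)

namespace Van

/-! ### general facts -/

lemma lz_int {p : ℕ} (hp : p.Prime) (x : ℤ) : lz p ((x : ℤ) : ZMod p) = jacobiSym x p := by
  have : NeZero p := ⟨hp.ne_zero⟩
  unfold lz
  rw [ZMod.val_intCast, ← jacobiSym.mod_left]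

lemma bl_cast (q p : ℕ) (v w : V3) : bl q (rd p v) (rd p w) = ((bl q v w : ℤ) : ZMod p) := by
  unfold bl rd
  split_ifs <;> push_cast <;> ring

lemma pr_ne {P : Finset ℕ} (hP : Pq P) : pr P ≠ 0 := by
  unfold pr
  exact Finset.prod_ne_zero_iff.2 fun p hp => (hP p hp).1.ne_zero

lemma pr_pos {P : Finset ℕ} (hP : Pq P) : (0 : ℤ) < pr P := by
  exact_mod_cast Nat.pos_of_ne_zero (pr_ne hP)

lemma jac_pr (a : ℤ) (P : Finset ℕ) (hP : Pq P) : jacobiSym a (pr P) = ∏ p ∈ P, jacobiSym a p := by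
  classical
  revert hP
  unfold pr
  induction P using Finset.induction_on with
  | empty => intro _; simp
  | insert x s hx ih =>
    intro hP
    rw [prod_insert hx, prod_insert hx]
    have h1 : x ≠ 0 := (hP x (mem_insert_self _ _)).1.ne_zero
    have hs : Pq s := fun p hp => hP p (mem_insert_of_mem hp)
    have h2 : (∏ p ∈ s, p) ≠ 0 := Finset.prod_ne_zero_iff.2 fun p hp => (hs p hp).1.ne_zero
    have : NeZero x := ⟨h1⟩
    have : NeZero (∏ p ∈ s, p) := ⟨h2⟩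
    rw [jacobiSym.mul_right, ih hs]

lemma pr_cop {P : Finset ℕ} (hP : Pq P) : pr P % 2 = 1 ∧ pr P % 3 ≠ 0 ∧ pr P % 5 ≠ 0 := by
  have key : ∀ q : ℕ, q.Prime → q ∣ pr P → ∃ p ∈ P, p = q := by
    intro q hq hd
    unfold pr at hd
    obtain ⟨p, hp, h⟩ := (Prime.dvd_finsetProd_iff hq.prime _).1 hd
    exact ⟨p, hp, ((Nat.prime_dvd_prime_iff_eq hq (hP p hp).1).1 h).symm⟩
  refine ⟨?_, fun h => ?_, fun h => ?_⟩
  · by_contra h
    obtain ⟨p, hp, rfl⟩ := key 2 Nat.prime_two (by omega)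
    exact (hP _ hp).2.1 rfl
  · obtain ⟨p, hp, rfl⟩ := key 3 Nat.prime_three (by omega)
    exact (hP _ hp).2.2.1 rfl
  · obtain ⟨p, hp, rfl⟩ := key 5 Nat.prime_five (by omega)
    exact (hP _ hp).2.2.2 rfl

lemma mem5 {n : ℤ} {v : V3} : v ∈ vec 5 n ↔ bl 5 v v = n := by
  unfold vec
  rw [mem_filter, Fintype.mem_piFinset]
  constructor
  · exact fun h => h.2
  · intro h
    refine ⟨?_, h⟩
    have h2 : bl 5 v v = 3 * (v 0 * v 0) + 7 * (v 1 * v 1) + 7 * (v 2 * v 2) - 2 * (v 0 * v 1) + 2 * (v 0 * v 2) +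
        6 * (v 1 * v 2) := by
      unfold bl; rw [if_pos rfl]; ring
    have a0 : v 0 ^ 2 ≤ n := by
      nlinarith [sq_nonneg (v 0 - v 1 + v 2), sq_nonneg (v 1 + v 2), sq_nonneg (v 0), sq_nonneg (v 1), sq_nonneg (v 2),
        sq_nonneg (v 0 - v 1), sq_nonneg (v 0 + v 2)]
    have a1 : v 1 ^ 2 ≤ n := by
      nlinarith [sq_nonneg (v 0 - v 1 + v 2), sq_nonneg (v 1 + v 2), sq_nonneg (v 0), sq_nonneg (v 1), sq_nonneg (v 2),
        sq_nonneg (v 0 - v 1), sq_nonneg (v 0 + v 2)]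
    have a2 : v 2 ^ 2 ≤ n := by
      nlinarith [sq_nonneg (v 0 - v 1 + v 2), sq_nonneg (v 1 + v 2), sq_nonneg (v 0), sq_nonneg (v 1), sq_nonneg (v 2),
        sq_nonneg (v 0 - v 1), sq_nonneg (v 0 + v 2)]
    have key : ∀ x : ℤ, x ^ 2 ≤ n → x ∈ Icc (-n) n := by
      intro x hx
      rw [mem_Icc]
      constructor <;> nlinarith [sq_nonneg (x - 1), sq_nonneg (x + 1), sq_nonneg x]
    intro i
    fin_cases i
    · exact key _ a0
    · exact key _ a1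
    · exact key _ a2

lemma mem3 {n : ℤ} {v : V3} : v ∈ vec 3 n ↔ bl 3 v v = n := by
  unfold vec
  rw [mem_filter, Fintype.mem_piFinset]
  constructor
  · exact fun h => h.2
  · intro h
    refine ⟨?_, h⟩
    have h2 : bl 3 v v = 3 * (v 0 * v 0) + 4 * (v 1 * v 1) + 4 * (v 2 * v 2) + 4 * (v 1 * v 2) := by
      unfold bl; rw [if_neg (by norm_num)]; ring
    have a0 : v 0 ^ 2 ≤ n := by
      nlinarith [sq_nonneg (v 1 + v 2), sq_nonneg (v 0), sq_nonneg (v 1), sq_nonneg (v 2)]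
    have a1 : v 1 ^ 2 ≤ n := by
      nlinarith [sq_nonneg (v 1 + v 2), sq_nonneg (v 0), sq_nonneg (v 1), sq_nonneg (v 2)]
    have a2 : v 2 ^ 2 ≤ n := by
      nlinarith [sq_nonneg (v 1 + v 2), sq_nonneg (v 0), sq_nonneg (v 1), sq_nonneg (v 2)]
    have key : ∀ x : ℤ, x ^ 2 ≤ n → x ∈ Icc (-n) n := by
      intro x hx
      rw [mem_Icc]
      constructor <;> nlinarith [sq_nonneg (x - 1), sq_nonneg (x + 1), sq_nonneg x]
    intro i
    fin_cases i
    · exact key _ a0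
    · exact key _ a1
    · exact key _ a2

/-- the characters and the reflections, for integral vectors -/
lemma refl (h1 : S_PHI) (h2 : S_REF) {q : ℕ} (hq : q = 3 ∨ q = 5) {P : Finset ℕ} (hP : Pq P) (e v w : V3)
    (he : ∀ p ∈ P, ¬ (p : ℤ) ∣ bl q e e)
    (hw : ∀ i, bl q e e * w i = bl q e e * v i - 2 * bl q e v * e i) :
    Ph q P w = jacobiSym (-bl q e e) (pr P) * Ph q P v := by
  rw [jac_pr _ P hP]
  unfold Ph
  rw [← prod_mul_distrib]
  refine prod_congr rfl fun p hp => ?_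
  obtain ⟨k1, k2, k3, k5⟩ := hP p hp
  have hpq : p ≠ q := by rcases hq with rfl | rfl <;> assumption
  have : Fact p.Prime := ⟨k1⟩
  have h := h2 q hq p k1 k2 hpq _ (ph_spec h1 hq k1 k2 hpq) (rd p e) (rd p v) (rd p w)
    (by
      rw [bl_cast]
      intro h0
      exact he p hp ((ZMod.intCast_zmod_eq_zero_iff_dvd _ _).1 h0))
    (fun i => by
      rw [bl_cast, bl_cast]
      have := congrArg (fun z : ℤ => (z : ZMod p)) (hw i)
      push_cast at this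
      unfold rd
      linear_combination this)
  rw [h, bl_cast, ← lz_int k1 (-bl q e e)]
  congr 2
  push_cast
  rfl

/-- change of sign -/
lemma neg (h1 : S_PHI) {q : ℕ} (hq : q = 3 ∨ q = 5) {P : Finset ℕ} (hP : Pq P) (v w : V3) (hw : ∀ i, w i = - v i) :
    Ph q P w = jacobiSym (-1) (pr P) * Ph q P v := by
  rw [jac_pr _ P hP]
  unfold Ph
  rw [← prod_mul_distrib]
  refine prod_congr rfl fun p hp => ?_
  obtain ⟨k1, k2, k3, k5⟩ := hP p hp
  have hpq : p ≠ q := by rcases hq with rfl | rfl <;> assumption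
  have : Fact p.Prime := ⟨k1⟩
  have h := (ph_spec h1 hq k1 k2 hpq).smul (-1) (rd p v) (neg_ne_zero.2 one_ne_zero)
  have e : rd p w = (-1 : ZMod p) • rd p v := by
    funext i
    unfold rd
    rw [Pi.smul_apply, hw i]
    push_cast
    simp
  rw [e, h, ← lz_int k1 (-1)]
  congr 2
  push_cast
  rfl

/-- a sign changing involution -/
lemma sum_zero {s : Finset V3} (φ : V3 → ℤ) (g : V3 → V3) (hg : ∀ v ∈ s, g v ∈ s) (hgg : ∀ v ∈ s, g (g v) = v)
    (hφ : ∀ v ∈ s, φ (g v) = - φ v) : ∑ v ∈ s, φ v = 0 := by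
  have h : ∑ v ∈ s, φ v = ∑ v ∈ s, φ (g v) :=
    Finset.sum_nbij' (fun v => g v) (fun v => g v) hg hg hgg hgg fun v hv => by rw [hgg v hv]
  have h2 : ∑ v ∈ s, φ (g v) = - ∑ v ∈ s, φ v := by
    rw [← sum_neg_distrib]
    exact sum_congr rfl hφ
  linarith

/-- a prime of the set does not divide a number with small prime factors -/
lemma not_dvd {P : Finset ℕ} (hP : Pq P) {a : ℕ} (ha : ∀ p : ℕ, p.Prime → p ∣ a → p = 2 ∨ p = 3 ∨ p = 5) :
    ∀ p ∈ P, ¬ (p : ℤ) ∣ (a : ℤ) := by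
  intro p hp hd
  have h := ha p (hP p hp).1 (by exact_mod_cast hd)
  have := hP p hp
  tauto

lemma pd3 : ∀ p : ℕ, p.Prime → p ∣ 3 → p = 2 ∨ p = 3 ∨ p = 5 := fun _ hp h =>
  Or.inr (Or.inl ((Nat.prime_dvd_prime_iff_eq hp Nat.prime_three).1 h))

lemma pd60 {a : ℕ} (ha : a ∣ 3600) : ∀ p : ℕ, p.Prime → p ∣ a → p = 2 ∨ p = 3 ∨ p = 5 := by
  intro p hp h
  have h1 : p ∣ 60 ^ 2 := (h.trans ha).trans (by norm_num)
  have h2 : p ∣ 60 := hp.dvd_of_dvd_pow h1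
  have h3 : p ∣ 2 * 2 * 3 * 5 := by simpa using h2
  rcases hp.dvd_mul.1 h3 with h4 | h4
  · rcases hp.dvd_mul.1 h4 with h5 | h5
    · rcases hp.dvd_mul.1 h5 with h6 | h6 <;>
        exact Or.inl ((Nat.prime_dvd_prime_iff_eq hp Nat.prime_two).1 h6)
    · exact Or.inr (Or.inl ((Nat.prime_dvd_prime_iff_eq hp Nat.prime_three).1 h5))
  · exact Or.inr (Or.inr ((Nat.prime_dvd_prime_iff_eq hp Nat.prime_five).1 h4))

lemma pm1 {a : ℤ} {b : ℕ} (h : Int.gcd a b = 1) (h2 : jacobiSym a b ≠ 1) : jacobiSym a b = -1 :=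
  (jacobiSym.eq_one_or_neg_one h).resolve_left h2

/-- the symbol modulo `60` -/
lemma jac_mod {a : ℤ} {m : ℕ} (hm : Odd m) : jacobiSym a m = jacobiSym a (m % (4 * a.natAbs)) :=
  jacobiSym.mod_right a hm

/-- squares -/
lemma jac_sq {a : ℤ} {P : Finset ℕ} (hP : Pq P) (ha : ∀ p ∈ P, ¬ (p : ℤ) ∣ a) : jacobiSym (a * a) (pr P) = 1 := by
  rw [jac_pr _ P hP]
  refine prod_eq_one fun p hp => ?_
  rw [← pow_two]
  refine jacobiSym.sq_one' ?_
  have h := (Nat.prime_iff_prime_int.1 (hP p hp).1).coprime_iff_not_dvd.2 (ha p hp)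
  exact Int.isCoprime_iff_gcd_eq_one.1 h.symm

lemma cls5 {m : ℕ} (h2 : m % 2 = 1) (h3 : m % 3 ≠ 0) (h5 : m % 5 ≠ 0) :
    Ka m ∨ Kd m ∨ jacobiSym (-3) m = -1 ∨ jacobiSym (-15) m = -1 := by
  have hm : Odd m := Nat.odd_iff.2 h2
  have e1 : jacobiSym (-3) m = jacobiSym (-3) (m % 12) := jac_mod hm
  have e2 : jacobiSym (-15) m = jacobiSym (-15) (m % 60) := jac_mod hm
  rw [e1, e2]
  unfold Ka Kd
  obtain ⟨r, hr⟩ : ∃ r, r = m % 60 := ⟨_, rfl⟩
  have e3 : m % 12 = r % 12 := by omega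
  have h2' : r % 2 = 1 := by omega
  have h3' : r % 3 ≠ 0 := by omega
  have h5' : r % 5 ≠ 0 := by omega
  have hr60 : r < 60 := by omega
  rw [e3, ← hr]
  clear e1 e2 e3 hr h2 h3 h5 hm
  interval_cases r <;> first | omega | (norm_num; done)

lemma cls3 {m : ℕ} (h2 : m % 2 = 1) (h3 : m % 3 ≠ 0) (h5 : m % 5 ≠ 0) :
    Kc m ∨ Kd m ∨ jacobiSym (-15) m = -1 ∨ jacobiSym 3 m = 1 := by
  have hm : Odd m := Nat.odd_iff.2 h2
  have e1 : jacobiSym 3 m = jacobiSym 3 (m % 12) := jac_mod hm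
  have e2 : jacobiSym (-15) m = jacobiSym (-15) (m % 60) := jac_mod hm
  rw [e1, e2]
  unfold Kc Kd
  obtain ⟨r, hr⟩ : ∃ r, r = m % 60 := ⟨_, rfl⟩
  have e3 : m % 12 = r % 12 := by omega
  have h2' : r % 2 = 1 := by omega
  have h3' : r % 3 ≠ 0 := by omega
  have h5' : r % 5 ≠ 0 := by omega
  have hr60 : r < 60 := by omega
  rw [e3, ← hr]
  clear e1 e2 e3 hr h2 h3 h5 hm
  interval_cases r <;> first | omega | (norm_num; done)

/-! ### the lattice `L 5` -/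

/-- the reflection in `(1,0,0)` -/
def g1 (v : V3) : V3 := ![-v 0 + 2 * ((v 1 - v 2) / 3), v 1, v 2]

/-- the reflection in `(1,3,0)` -/
def g2 (v : V3) : V3 := ![v 0 - (2 * v 1 + v 2) / 3, -v 1 - v 2, v 2]

lemma g1_spec {β : ℤ} {v : V3} (h : LN 5 β v) : 3 * g1 v 0 = -3 * v 0 + 2 * (v 1 - v 2) ∧ g1 v 1 = v 1 ∧ g1 v 2 = v 2 := by
  unfold LN at h
  rw [if_pos rfl] at h
  unfold g1
  refine ⟨?_, rfl, rfl⟩
  show 3 * (-v 0 + 2 * ((v 1 - v 2) / 3)) = _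
  have : (3 : ℤ) ∣ v 1 - v 2 := by have := dvd_sub h.1 h.2; rwa [sub_sub_sub_cancel_right] at this
  have := Int.mul_ediv_cancel' this
  linarith

lemma g2_spec {β : ℤ} {v : V3} (h : LN 5 β v) : 3 * g2 v 0 = 3 * v 0 - (2 * v 1 + v 2) ∧ g2 v 1 = -v 1 - v 2 ∧
    g2 v 2 = v 2 := by
  unfold LN at h
  rw [if_pos rfl] at h
  unfold g2
  refine ⟨?_, rfl, rfl⟩
  show 3 * (v 0 - (2 * v 1 + v 2) / 3) = _
  have : (3 : ℤ) ∣ 2 * v 1 + v 2 := by
    obtain ⟨⟨a, ha⟩, b, hb⟩ := h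
    exact ⟨2 * a + b + β, by linarith⟩
  have := Int.mul_ediv_cancel' this
  linarith

lemma ext3 {v w : V3} (h0 : v 0 = w 0) (h1 : v 1 = w 1) (h2 : v 2 = w 2) : v = w := by
  funext i
  fin_cases i
  · exact h0
  · exact h1
  · exact h2

lemma bl5 (v w : V3) : bl 5 v w = 3 * (v 0 * w 0) + 7 * (v 1 * w 1) + 7 * (v 2 * w 2) - (v 0 * w 1 + v 1 * w 0) +
    (v 0 * w 2 + v 2 * w 0) + 3 * (v 1 * w 2 + v 2 * w 1) := by
  unfold bl; rw [if_pos rfl]

lemma bl3 (v w : V3) : bl 3 v w = 3 * (v 0 * w 0) + 4 * (v 1 * w 1) + 4 * (v 2 * w 2) + 2 * (v 1 * w 2 + v 2 * w 1) := by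
  unfold bl; rw [if_neg (by norm_num)]

lemma LN5 (β : ℤ) (v : V3) : LN 5 β v ↔ (3 : ℤ) ∣ v 1 - β ∧ (3 : ℤ) ∣ v 2 - β := by
  unfold LN; rw [if_pos rfl]

lemma LN3 (β : ℤ) (v : V3) : LN 3 β v ↔ (5 : ℤ) ∣ v 1 - v 0 - β ∧ (5 : ℤ) ∣ v 2 - v 0 + β := by
  unfold LN; rw [if_neg (by norm_num)]

lemma van5a (h1 : S_PHI) (h2 : S_REF) {P : Finset ℕ} (hP : Pq P) {n β : ℤ} (hj : jacobiSym (-3) (pr P) = -1) :
    A 5 P n β = 0 := by
  unfold A
  refine sum_zero _ g1 (fun v hv => ?_) (fun v hv => ?_) (fun v hv => ?_)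
  · rw [mem_filter, mem5] at hv ⊢
    obtain ⟨k0, k1, k2⟩ := g1_spec hv.2
    constructor
    · have h := hv.1
      rw [bl5] at h ⊢
      rw [k1, k2]
      linear_combination h + (g1 v 0 - v 0) * k0
    · have h := hv.2
      rw [LN5] at h ⊢
      rwa [k1, k2]
  · rw [mem_filter] at hv
    obtain ⟨k0, k1, k2⟩ := g1_spec hv.2
    have h' : LN 5 β (g1 v) := by
      have h := hv.2
      rw [LN5] at h ⊢
      rwa [k1, k2]
    obtain ⟨l0, l1, l2⟩ := g1_spec h'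
    exact ext3 (by rw [k1, k2] at l0; linarith) (by rw [l1, k1]) (by rw [l2, k2])
  · rw [mem_filter] at hv
    obtain ⟨k0, k1, k2⟩ := g1_spec hv.2
    have hb : bl 5 (![1, 0, 0] : V3) ![1, 0, 0] = 3 := by rw [bl5]; simp
    have hv' : bl 5 (![1, 0, 0] : V3) v = 3 * v 0 - v 1 + v 2 := by rw [bl5]; simp <;> ring
    have h := refl h1 h2 (Or.inr rfl) hP ![1, 0, 0] v (g1 v) (by rw [hb]; exact not_dvd hP (a := 3) pd3)
      (fun i => by
        rw [hb, hv']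
        fin_cases i
        · show 3 * g1 v 0 = 3 * v 0 - 2 * (3 * v 0 - v 1 + v 2) * 1
          linarith
        · show 3 * g1 v 1 = 3 * v 1 - 2 * (3 * v 0 - v 1 + v 2) * 0
          rw [k1]; ring
        · show 3 * g1 v 2 = 3 * v 2 - 2 * (3 * v 0 - v 1 + v 2) * 0
          rw [k2]; ring)
    rw [h, hb, hj]
    ring

lemma jac_mul {a b : ℤ} {m : ℕ} : jacobiSym (a * b) m = jacobiSym a m * jacobiSym b m := jacobiSym.mul_left a b m

lemma van5b (h1 : S_PHI) (h2 : S_REF) {P : Finset ℕ} (hP : Pq P) {n β : ℤ} (hj : jacobiSym (-15) (pr P) = -1) :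
    A 5 P n β = 0 := by
  unfold A
  have hL : ∀ v, LN 5 β v → LN 5 β (g2 v) := by
    intro v h
    obtain ⟨k0, k1, k2⟩ := g2_spec h
    rw [LN5] at h ⊢
    rw [k1, k2]
    refine ⟨?_, h.2⟩
    obtain ⟨⟨a, ha⟩, b, hb⟩ := h
    exact ⟨-a - b - β, by linarith⟩
  refine sum_zero _ g2 (fun v hv => ?_) (fun v hv => ?_) (fun v hv => ?_)
  · rw [mem_filter, mem5] at hv ⊢
    obtain ⟨k0, k1, k2⟩ := g2_spec hv.2
    refine ⟨?_, hL v hv.2⟩
    have h := hv.1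
    rw [bl5] at h ⊢
    rw [k1, k2]
    linear_combination h + (g2 v 0 + v 0 + v 2) * k0
  · rw [mem_filter] at hv
    obtain ⟨k0, k1, k2⟩ := g2_spec hv.2
    obtain ⟨l0, l1, l2⟩ := g2_spec (hL v hv.2)
    exact ext3 (by rw [k1, k2] at l0; linarith) (by rw [l1, k1, k2]; ring) (by rw [l2, k2])
  · rw [mem_filter] at hv
    obtain ⟨k0, k1, k2⟩ := g2_spec hv.2
    have hb : bl 5 (![1, 3, 0] : V3) ![1, 3, 0] = 60 := by rw [bl5]; simp
    have hv' : bl 5 (![1, 3, 0] : V3) v = 20 * v 1 + 10 * v 2 := by rw [bl5]; simp; ring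
    have h := refl h1 h2 (Or.inr rfl) hP ![1, 3, 0] v (g2 v)
      (by rw [hb]; exact not_dvd hP (a := 60) (pd60 (by norm_num)))
      (fun i => by
        rw [hb, hv']
        fin_cases i
        · show 60 * g2 v 0 = 60 * v 0 - 2 * (20 * v 1 + 10 * v 2) * 1
          linarith
        · show 60 * g2 v 1 = 60 * v 1 - 2 * (20 * v 1 + 10 * v 2) * 3
          rw [k1]; ring
        · show 60 * g2 v 2 = 60 * v 2 - 2 * (20 * v 1 + 10 * v 2) * 0
          rw [k2]; ring)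
    rw [h, hb]
    have e : (-60 : ℤ) = -15 * (2 * 2) := by norm_num
    rw [e, jac_mul, hj, jac_sq (a := 2) hP (not_dvd hP (a := 2) (pd60 (by norm_num)))]
    ring

/-! ### the lattice `L 3` -/

/-- the reflection in `(1,1,1)` -/
def g3 (v : V3) : V3 := ![v 0 - 2 * ((v 0 + 2 * v 1 + 2 * v 2) / 5), v 1 - 2 * ((v 0 + 2 * v 1 + 2 * v 2) / 5),
  v 2 - 2 * ((v 0 + 2 * v 1 + 2 * v 2) / 5)]

lemma van3a (h1 : S_PHI) (h2 : S_REF) {P : Finset ℕ} (hP : Pq P) {n β : ℤ} (hj : jacobiSym (-15) (pr P) = -1) :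
    A 3 P n β = 0 := by
  unfold A
  have hS : ∀ v, LN 3 β v → ∃ t : ℤ, 5 * t = v 0 + 2 * v 1 + 2 * v 2 ∧ g3 v 0 = v 0 - 2 * t ∧ g3 v 1 = v 1 - 2 * t ∧
      g3 v 2 = v 2 - 2 * t := by
    intro v h
    rw [LN3] at h
    have hd : (5 : ℤ) ∣ v 0 + 2 * v 1 + 2 * v 2 := by
      obtain ⟨⟨a, ha⟩, b, hb⟩ := h
      exact ⟨2 * a + 2 * b + v 0, by linarith⟩
    exact ⟨(v 0 + 2 * v 1 + 2 * v 2) / 5, Int.mul_ediv_cancel' hd, rfl, rfl, rfl⟩
  have hL : ∀ v, LN 3 β v → LN 3 β (g3 v) := by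
    intro v h
    obtain ⟨t, k, k0, k1, k2⟩ := hS v h
    rw [LN3] at h ⊢
    rw [k0, k1, k2]
    have e1 : v 1 - 2 * t - (v 0 - 2 * t) - β = v 1 - v 0 - β := by ring
    have e2 : v 2 - 2 * t - (v 0 - 2 * t) + β = v 2 - v 0 + β := by ring
    rwa [e1, e2]
  refine sum_zero _ g3 (fun v hv => ?_) (fun v hv => ?_) (fun v hv => ?_)
  · rw [mem_filter, mem3] at hv ⊢
    obtain ⟨t, k, k0, k1, k2⟩ := hS v hv.2
    refine ⟨?_, hL v hv.2⟩
    have h := hv.1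
    rw [bl3] at h ⊢
    rw [k0, k1, k2]
    linear_combination h + 12 * t * k
  · rw [mem_filter] at hv
    obtain ⟨t, k, k0, k1, k2⟩ := hS v hv.2
    obtain ⟨t', l, l0, l1, l2⟩ := hS _ (hL v hv.2)
    have e : t' = -t := by
      rw [k0, k1, k2] at l
      linarith
    exact ext3 (by rw [l0, k0, e]; ring) (by rw [l1, k1, e]; ring) (by rw [l2, k2, e]; ring)
  · rw [mem_filter] at hv
    obtain ⟨t, k, k0, k1, k2⟩ := hS v hv.2
    have hb : bl 3 (![1, 1, 1] : V3) ![1, 1, 1] = 15 := by rw [bl3]; simp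
    have hv' : bl 3 (![1, 1, 1] : V3) v = 3 * v 0 + 6 * v 1 + 6 * v 2 := by rw [bl3]; simp <;> ring
    have h := refl h1 h2 (Or.inl rfl) hP ![1, 1, 1] v (g3 v)
      (by rw [hb]; exact not_dvd hP (a := 15) (pd60 (by norm_num)))
      (fun i => by
        rw [hb, hv']
        fin_cases i
        · show 15 * g3 v 0 = 15 * v 0 - 2 * (3 * v 0 + 6 * v 1 + 6 * v 2) * 1
          rw [k0]; linarith
        · show 15 * g3 v 1 = 15 * v 1 - 2 * (3 * v 0 + 6 * v 1 + 6 * v 2) * 1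
          rw [k1]; linarith
        · show 15 * g3 v 2 = 15 * v 2 - 2 * (3 * v 0 + 6 * v 1 + 6 * v 2) * 1
          rw [k2]; linarith)
    rw [h, hb, hj]
    ring

/-- the rotation of order six -/
def rho (v : V3) : V3 := ![v 0, -v 2, v 1 + v 2]

lemma rho_Ph (h1 : S_PHI) (h2 : S_REF) {P : Finset ℕ} (hP : Pq P) (hj : jacobiSym 3 (pr P) = 1) (v : V3) :
    Ph 3 P (rho v) = Ph 3 P v := by
  have hb : bl 3 (![0, 1, 1] : V3) ![0, 1, 1] = 12 := by rw [bl3]; simp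
  have hv' : bl 3 (![0, 1, 1] : V3) v = 6 * v 1 + 6 * v 2 := by rw [bl3]; simp <;> ring
  have e1 := refl h1 h2 (Or.inl rfl) hP ![0, 1, 1] v ![v 0, -v 2, -v 1]
      (by rw [hb]; exact not_dvd hP (a := 12) (pd60 (by norm_num)))
      (fun i => by
        rw [hb, hv']
        fin_cases i
        · show 12 * v 0 = 12 * v 0 - 2 * (6 * v 1 + 6 * v 2) * 0
          ring
        · show 12 * (-v 2) = 12 * v 1 - 2 * (6 * v 1 + 6 * v 2) * 1
          ring
        · show 12 * (-v 1) = 12 * v 2 - 2 * (6 * v 1 + 6 * v 2) * 1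
          ring)
  have hb2 : bl 3 (![0, 0, 1] : V3) ![0, 0, 1] = 4 := by rw [bl3]; simp
  have hv2 : bl 3 (![0, 0, 1] : V3) (![v 0, -v 2, -v 1] : V3) = -4 * v 1 - 2 * v 2 := by rw [bl3]; simp <;> ring
  have e2 := refl h1 h2 (Or.inl rfl) hP ![0, 0, 1] (![v 0, -v 2, -v 1] : V3) (rho v)
      (by rw [hb2]; exact not_dvd hP (a := 4) (pd60 (by norm_num)))
      (fun i => by
        rw [hb2, hv2]
        fin_cases i
        · show 4 * v 0 = 4 * v 0 - 2 * (-4 * v 1 - 2 * v 2) * 0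
          ring
        · show 4 * (-v 2) = 4 * (-v 2) - 2 * (-4 * v 1 - 2 * v 2) * 0
          ring
        · show 4 * (v 1 + v 2) = 4 * (-v 1) - 2 * (-4 * v 1 - 2 * v 2) * 1
          ring)
  rw [e2, e1, hb, hb2, ← mul_assoc, ← jac_mul]
  have e3 : (-4 : ℤ) * -12 = 3 * (4 * 4) := by norm_num
  rw [e3, jac_mul, hj, jac_sq (a := 4) hP (not_dvd hP (a := 4) (pd60 (by norm_num)))]
  ring

/-- sums over the rotated vectors -/
lemma sum_rho (n : ℤ) (φ : V3 → ℤ) : ∑ v ∈ vec 3 n, φ (rho v) = ∑ v ∈ vec 3 n, φ v := by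
  refine Finset.sum_nbij' (fun v => rho v) (fun v : V3 => (![v 0, v 1 + v 2, -v 1] : V3)) ?_ ?_ ?_ ?_ ?_
  · intro v hv
    rw [mem3] at hv ⊢
    rw [← hv, bl3, bl3]
    show 3 * (v 0 * v 0) + 4 * (-v 2 * -v 2) + 4 * ((v 1 + v 2) * (v 1 + v 2)) + 2 * (-v 2 * (v 1 + v 2) + (v 1 + v 2) * -v 2) = _
    ring
  · intro v hv
    rw [mem3] at hv ⊢
    rw [← hv, bl3, bl3]
    show 3 * (v 0 * v 0) + 4 * ((v 1 + v 2) * (v 1 + v 2)) + 4 * (-v 1 * -v 1) + 2 * ((v 1 + v 2) * -v 1 + -v 1 * (v 1 + v 2)) = _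
    ring
  · intro v _
    refine ext3 rfl ?_ ?_
    · show -v 2 + (v 1 + v 2) = v 1
      ring
    · show - -v 2 = v 2
      ring
  · intro v _
    refine ext3 rfl ?_ ?_
    · show - -v 1 = v 1
      ring
    · show v 1 + v 2 + -v 1 = v 2
      ring
  · intro v _
    rfl

lemma sum_rhok (n : ℤ) (φ : V3 → ℤ) (k : ℕ) : ∑ v ∈ vec 3 n, φ (rho^[k] v) = ∑ v ∈ vec 3 n, φ v := by
  induction k generalizing φ with
  | zero => rfl
  | succ k ih =>
    have : ∀ v, φ (rho^[k + 1] v) = (fun w => φ (rho w)) (rho^[k] v) := fun v => by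
      rw [Function.iterate_succ_apply']
    rw [sum_congr rfl fun v _ => this v, ih (fun w => φ (rho w)), sum_rho]

/-- the conditions modulo `5` -/
def c5 (b x y z : ZMod 5) : ℕ := if y - x - b = 0 ∧ z - x + b = 0 then 1 else 0

lemma c5_sum : ∀ b x y z : ZMod 5, b ≠ 0 → b ^ 2 + (3 * (x * x) + 4 * (y * y) + 4 * (z * z) + 2 * (y * z + z * y)) = 0 →
    c5 b x y z + c5 b x (-z) (y + z) + c5 b x (-(y + z)) y + c5 b x (-y) (-z) + c5 b x z (-(y + z)) +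
      c5 b x (y + z) (-y) = 1 := by
  unfold c5
  decide +kernel

lemma c5_LN (β : ℤ) (v : V3) : (if LN 3 β v then 1 else 0 : ℕ) = c5 (β : ZMod 5) (v 0 : ZMod 5) (v 1 : ZMod 5) (v 2 : ZMod 5) := by
  unfold c5
  refine if_congr ?_ rfl rfl
  rw [LN3]
  have key : ∀ a : ℤ, (5 : ℤ) ∣ a ↔ ((a : ℤ) : ZMod 5) = 0 := fun a => (ZMod.intCast_zmod_eq_zero_iff_dvd a 5).symm
  rw [key, key]
  push_cast
  rfl

lemma count {n β : ℤ} (hn : ¬ (5 : ℤ) ∣ n) (hβ : (5 : ℤ) ∣ β ^ 2 + n) {v : V3} (hv : bl 3 v v = n) :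
    ∑ k ∈ range 6, (if LN 3 β (rho^[k] v) then 1 else 0 : ℕ) = 1 := by
  have hb : ((β : ℤ) : ZMod 5) ≠ 0 := by
    intro h
    rw [ZMod.intCast_zmod_eq_zero_iff_dvd] at h
    have h2 : (5 : ℤ) ∣ β ^ 2 := dvd_pow h two_ne_zero
    exact hn ((dvd_add_right h2).1 hβ)
  have hq : ((β : ℤ) : ZMod 5) ^ 2 + (3 * (((v 0 : ℤ) : ZMod 5) * (v 0 : ℤ)) + 4 * (((v 1 : ℤ) : ZMod 5) * (v 1 : ℤ)) +
      4 * (((v 2 : ℤ) : ZMod 5) * (v 2 : ℤ)) + 2 * (((v 1 : ℤ) : ZMod 5) * (v 2 : ℤ) + ((v 2 : ℤ) : ZMod 5) * (v 1 : ℤ))) = 0 := by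
    have h : ((β ^ 2 + bl 3 v v : ℤ) : ZMod 5) = 0 := by
      rw [hv]
      exact (ZMod.intCast_zmod_eq_zero_iff_dvd _ 5).2 hβ
    rw [bl3] at h
    push_cast at h
    exact h
  have h := c5_sum _ _ _ _ hb hq
  refine Eq.trans ?_ h
  rw [sum_congr rfl fun k _ => c5_LN β (rho^[k] v)]
  rw [sum_range_succ, sum_range_succ, sum_range_succ, sum_range_succ, sum_range_succ, sum_range_one]
  have r0 : rho^[0] v = v := rfl
  have r1 : rho^[1] v = ![v 0, -v 2, v 1 + v 2] := rfl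
  have r2 : rho^[2] v = ![v 0, -(v 1 + v 2), v 1] := by
    rw [Function.iterate_succ_apply', r1]
    refine ext3 rfl rfl ?_
    show -v 2 + (v 1 + v 2) = v 1
    ring
  have r3 : rho^[3] v = ![v 0, -v 1, -v 2] := by
    rw [Function.iterate_succ_apply', r2]
    refine ext3 rfl rfl ?_
    show -(v 1 + v 2) + v 1 = -v 2
    ring
  have r4 : rho^[4] v = ![v 0, v 2, -(v 1 + v 2)] := by
    rw [Function.iterate_succ_apply', r3]
    refine ext3 rfl ?_ ?_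
    · show - -v 2 = v 2
      ring
    · show -v 1 + -v 2 = -(v 1 + v 2)
      ring
  have r5 : rho^[5] v = ![v 0, v 1 + v 2, -v 1] := by
    rw [Function.iterate_succ_apply', r4]
    refine ext3 rfl ?_ ?_
    · show - -(v 1 + v 2) = v 1 + v 2
      ring
    · show v 2 + -(v 1 + v 2) = -v 1
      ring
  rw [r0, r1, r2, r3, r4, r5]
  simp

lemma six {n β : ℤ} (hn : ¬ (5 : ℤ) ∣ n) (hβ : (5 : ℤ) ∣ β ^ 2 + n) (φ : V3 → ℤ) (hφ : ∀ v, φ (rho v) = φ v) :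
    ∑ v ∈ vec 3 n, φ v = 6 * ∑ v ∈ (vec 3 n).filter (LN 3 β), φ v := by
  have hk : ∀ (k : ℕ) (v : V3), φ (rho^[k] v) = φ v := by
    intro k
    induction k with
    | zero => intro v; rfl
    | succ k ih =>
      intro v
      rw [Function.iterate_succ_apply', hφ, ih]
  have e1 : ∑ v ∈ vec 3 n, φ v = ∑ v ∈ vec 3 n, ∑ k ∈ range 6, (if LN 3 β (rho^[k] v) then φ (rho^[k] v) else 0) := by
    refine sum_congr rfl fun v hv => ?_
    rw [mem3] at hv
    have h := count hn hβ hv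
    have e : ∑ k ∈ range 6, (if LN 3 β (rho^[k] v) then φ (rho^[k] v) else 0) =
        ((∑ k ∈ range 6, (if LN 3 β (rho^[k] v) then 1 else 0 : ℕ) : ℕ) : ℤ) * φ v := by
      rw [Nat.cast_sum, sum_mul]
      refine sum_congr rfl fun k _ => ?_
      rw [hk]
      split_ifs <;> simp
    rw [e, h]
    simp
  rw [e1, sum_comm]
  have e2 : ∀ k ∈ range 6, ∑ v ∈ vec 3 n, (if LN 3 β (rho^[k] v) then φ (rho^[k] v) else 0) =
      ∑ v ∈ (vec 3 n).filter (LN 3 β), φ v := by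
    intro k _
    rw [sum_rhok n (fun v => if LN 3 β v then φ v else 0) k, sum_filter]
  rw [sum_congr rfl e2, sum_const, card_range, nsmul_eq_mul]
  norm_num

end Van

theorem t_VAN5 (h1 : S_PHI) (h2 : S_REF) : S_VAN5 := by
  intro N hN hb β hβ P hPN hPe ha hd
  have hP : Pq P := fun p hp => hN p (hPN hp)
  obtain ⟨k2, k3, k5⟩ := Van.pr_cop hP
  rcases Van.cls5 k2 k3 k5 with h | h | h | h
  · exact absurd h ha
  · exact absurd h hd
  · exact Van.van5a h1 h2 hP h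
  · exact Van.van5b h1 h2 hP h

theorem t_EQ3 : S_EQ3 := by
  intro N hN hd β hβ
  have h5 : ¬ (5 : ℤ) ∣ (pr N : ℤ) := by
    have := (Van.pr_cop hN).2.2
    omega
  have h := Van.six h5 hβ (fun _ => 1) (fun _ => rfl)
  have e1 : ((vec 3 (pr N : ℤ)).card : ℤ) = ∑ v ∈ vec 3 (pr N : ℤ), (1 : ℤ) := by simp
  have e2 : A 3 ∅ (pr N) β = ∑ v ∈ (vec 3 (pr N : ℤ)).filter (LN 3 β), (1 : ℤ) := by
    unfold A Ph
    simp
  rw [e1, e2]
  exact h

theorem t_VAN3 (h1 : S_PHI) (h2 : S_REF) (h4 : S_V4) : S_VAN3 := by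
  intro N hN hd β hβ P hPN hPe hc hd'
  have hP : Pq P := fun p hp => hN p (hPN hp)
  have h5 : ¬ (5 : ℤ) ∣ (pr N : ℤ) := by
    have := (Van.pr_cop hN).2.2
    omega
  obtain ⟨k2, k3, k5⟩ := Van.pr_cop hP
  rcases Van.cls3 k2 k3 k5 with h | h | h | h
  · exact absurd h hc
  · exact absurd h hd'
  · exact Van.van3a h1 h2 hP h
  · have e := Van.six h5 hβ (fun v => Ph 3 P v) (fun v => Van.rho_Ph h1 h2 hP h v)
    have e2 := h4 3 (Or.inl rfl) N hN (fun h => absurd h (by norm_num)) (fun _ => hd) P hPN hPe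
    rw [e2] at e
    unfold A
    omega

theorem t_EV3 (h1 : S_PHI) (h2 : S_REF) : S_EV3 := by
  classical
  intro N hN hd β hβ γ
  have hodd := (Van.pr_cop hN).1
  unfold AC
  set s := (vec 3 (pr N : ℤ)).filter fun v => LN 3 β v ∧ ∀ p ∈ N, ph 3 p (rd p v) = γ p with hs
  have key : ∑ _v ∈ s, (1 : ZMod 2) = 0 := by
    refine Finset.sum_involution (fun v _ => (![-v 0, -v 2, -v 1] : V3)) (fun v hv => by decide) ?_ ?_ ?_
    · intro v hv _ he
      rw [hs, mem_filter, Van.mem3, Van.bl3] at hv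
      have e0 : -v 0 = v 0 := congrFun he 0
      have e1 : -v 2 = v 1 := congrFun he 1
      have k0 : v 0 = 0 := by linarith
      have h := hv.1
      rw [k0, ← e1] at h
      have h3 : (pr N : ℤ) = 4 * (v 2 * v 2) := by rw [← h]; ring
      omega
    · intro v hv
      rw [hs, mem_filter, Van.mem3, Van.bl3] at hv ⊢
      obtain ⟨h, hL, hγ⟩ := hv
      refine ⟨?_, ?_, fun p hp => ?_⟩
      · rw [← h]
        show 3 * (-v 0 * -v 0) + 4 * (-v 2 * -v 2) + 4 * (-v 1 * -v 1) + 2 * (-v 2 * -v 1 + -v 1 * -v 2) = _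
        ring
      · rw [Van.LN3] at hL ⊢
        show (5 : ℤ) ∣ -v 2 - -v 0 - β ∧ (5 : ℤ) ∣ -v 1 - -v 0 + β
        have e1 : -v 2 - -v 0 - β = -(v 2 - v 0 + β) := by ring
        have e2 : -v 1 - -v 0 + β = -(v 1 - v 0 - β) := by ring
        rw [e1, e2, dvd_neg, dvd_neg]
        exact ⟨hL.2, hL.1⟩
      · rw [← hγ p hp]
        have hP : Pq {p} := fun q hq => by rw [mem_singleton.1 hq]; exact hN p hp
        have hb : bl 3 (![0, 1, -1] : V3) ![0, 1, -1] = 4 := by rw [Van.bl3]; simp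
        have hv' : bl 3 (![0, 1, -1] : V3) v = 2 * v 1 - 2 * v 2 := by rw [Van.bl3]; simp <;> ring
        have e1 := Van.refl h1 h2 (Or.inl rfl) hP ![0, 1, -1] v ![v 0, v 2, v 1]
          (by rw [hb]; exact Van.not_dvd hP (a := 4) (Van.pd60 (by norm_num)))
          (fun i => by
            rw [hb, hv']
            fin_cases i
            · show 4 * v 0 = 4 * v 0 - 2 * (2 * v 1 - 2 * v 2) * 0
              ring
            · show 4 * v 2 = 4 * v 1 - 2 * (2 * v 1 - 2 * v 2) * 1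
              ring
            · show 4 * v 1 = 4 * v 2 - 2 * (2 * v 1 - 2 * v 2) * (-1)
              ring)
        have e2 := Van.neg h1 (Or.inl rfl) hP (![v 0, v 2, v 1] : V3) (![-v 0, -v 2, -v 1] : V3) (fun i => by
          fin_cases i <;> rfl)
        rw [e1, hb, ← mul_assoc, ← Van.jac_mul] at e2
        have e3 : (-1 : ℤ) * -4 = 2 * 2 := by norm_num
        rw [e3, Van.jac_sq (a := 2) hP (Van.not_dvd hP (a := 2) (Van.pd60 (by norm_num))), one_mul] at e2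
        unfold Ph at e2
        rwa [prod_singleton, prod_singleton] at e2
    · intro v hv
      refine Van.ext3 ?_ ?_ ?_
      · show - -v 0 = v 0
        ring
      · show - -v 1 = v 1
        ring
      · show - -v 2 = v 2
        ring
  rw [sum_const, nsmul_eq_mul, mul_one] at key
  exact (ZMod.natCast_eq_zero_iff_even).1 key

end Pool.Agent.XV
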