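import Pool.Agent.XV.Defs
import Pool.Agent.NH1.Prod

/-!
# Project XV: the weights of the pairs of vectors, and the product of all the weights
-/

set_option autoImplicit false

namespace Pool.Agent.XV.Wt

open Finset
open Pool.Agent.Z700 (V3 pr un hh)
open Pool.Agent.NH1 (lz rd)
open Pool.Agent.NH2 (wp)
open Pool.Agent.NH1

/-! ### the bilinear forms -/

lemma bl5 {R : Type} [CommRing R] (v w : Fin 3 → R) :
    bl 5 v w = 3 * (v 0 * w 0) + 7 * (v 1 * w 1) + 7 * (v 2 * w 2) - (v 0 * w 1 + v 1 * w 0) +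
    (v 0 * w 2 + v 2 * w 0) + 3 * (v 1 * w 2 + v 2 * w 1) := by
  unfold bl
  rw [if_pos rfl]

lemma bl3 {R : Type} [CommRing R] (v w : Fin 3 → R) :
    bl 3 v w = 3 * (v 0 * w 0) + 4 * (v 1 * w 1) + 4 * (v 2 * w 2) +
    2 * (v 1 * w 2 + v 2 * w 1) := by
  unfold bl
  rw [if_neg (by norm_num)]

lemma bl_symm {R : Type} [CommRing R] (r : ℕ) (v w : Fin 3 → R) : bl r v w = bl r w v := by
  unfold bl
  split_ifs <;> ring

lemma bl_right {R : Type} [CommRing R] (r : ℕ) {x y z v : Fin 3 → R} {s t : R}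
    (h : ∀ i, z i = s * x i + t * y i) : bl r v z = s * bl r v x + t * bl r v y := by
  unfold bl
  rw [h 0, h 1, h 2]
  split_ifs <;> ring

lemma bl_left {R : Type} [CommRing R] (r : ℕ) {x y z v : Fin 3 → R} {s t : R}
    (h : ∀ i, z i = s * x i + t * y i) : bl r z v = s * bl r x v + t * bl r y v := by
  rw [bl_symm, bl_right r h, bl_symm r v x, bl_symm r v y]

lemma bl_lin {R : Type} [CommRing R] (r : ℕ) {x y z : Fin 3 → R} {s t : R}
    (h : ∀ i, z i = s * x i + t * y i) :
    bl r z z = s ^ 2 * bl r x x + 2 * s * t * bl r x y + t ^ 2 * bl r y y := by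
  unfold bl
  rw [h 0, h 1, h 2]
  split_ifs <;> ring

lemma rd_bl (r p : ℕ) (v w : V3) : bl r (rd p v) (rd p w) = ((bl r v w : ℤ) : ZMod p) := by
  unfold bl rd
  split_ifs <;> push_cast <;> ring

/-! ### linear algebra -/

section field

variable {F : Type} [Field F]

/-- the general identity -/
lemma gen_id (A B C D E G : F) (a b : Fin 3 → F) (ha : a ≠ 0)
    (hdet : A * B * C + 2 * D * E * G - A * G ^ 2 - B * E ^ 2 - C * D ^ 2 ≠ 0)
    (haa : A * (a 0 * a 0) + B * (a 1 * a 1) + C * (a 2 * a 2) + D * (a 0 * a 1 + a 1 * a 0) +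
      E * (a 0 * a 2 + a 2 * a 0) + G * (a 1 * a 2 + a 2 * a 1) = 0)
    (hab : A * (a 0 * b 0) + B * (a 1 * b 1) + C * (a 2 * b 2) + D * (a 0 * b 1 + a 1 * b 0) +
      E * (a 0 * b 2 + a 2 * b 0) + G * (a 1 * b 2 + a 2 * b 1) = 0) :
    ∃ t : F, t ^ 2 * (A * B * C + 2 * D * E * G - A * G ^ 2 - B * E ^ 2 - C * D ^ 2) =
      -(A * (b 0 * b 0) + B * (b 1 * b 1) + C * (b 2 * b 2) + D * (b 0 * b 1 + b 1 * b 0) +
      E * (b 0 * b 2 + b 2 * b 0) + G * (b 1 * b 2 + b 2 * b 1)) ∧
      (t = 0 → ∃ s, ∀ i, b i = s * a i) := by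
  set al : Fin 3 → F := ![A * a 0 + D * a 1 + E * a 2, D * a 0 + B * a 1 + G * a 2,
    E * a 0 + G * a 1 + C * a 2] with hal
  have l0 : al 0 = A * a 0 + D * a 1 + E * a 2 := rfl
  have l1 : al 1 = D * a 0 + B * a 1 + G * a 2 := rfl
  have l2 : al 2 = E * a 0 + G * a 1 + C * a 2 := rfl
  set m : Fin 3 → F := ![b 1 * a 2 - b 2 * a 1, b 2 * a 0 - b 0 * a 2, b 0 * a 1 - b 1 * a 0]
    with hm
  have m0 : m 0 = b 1 * a 2 - b 2 * a 1 := rfl
  have m1 : m 1 = b 2 * a 0 - b 0 * a 2 := rfl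
  have m2 : m 2 = b 0 * a 1 - b 1 * a 0 := rfl
  have hex : ∃ i, a i ≠ 0 := by
    by_contra h
    push Not at h
    exact ha (funext h)
  obtain ⟨i, hi⟩ := hex
  have hal0 : al ≠ 0 := by
    intro h
    have z0 : A * a 0 + D * a 1 + E * a 2 = 0 := by rw [← l0, h]; rfl
    have z1 : D * a 0 + B * a 1 + G * a 2 = 0 := by rw [← l1, h]; rfl
    have z2 : E * a 0 + G * a 1 + C * a 2 = 0 := by rw [← l2, h]; rfl
    have key : ∀ i, a i * (A * B * C + 2 * D * E * G - A * G ^ 2 - B * E ^ 2 - C * D ^ 2) = 0 := by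
      intro i
      fin_cases i <;> simp only [Fin.zero_eta, Fin.mk_one, Fin.reduceFinMk]
      · linear_combination (B * C - G ^ 2) * z0 + (E * G - C * D) * z1 + (D * G - B * E) * z2
      · linear_combination (E * G - C * D) * z0 + (A * C - E ^ 2) * z1 + (D * E - A * G) * z2
      · linear_combination (D * G - B * E) * z0 + (D * E - A * G) * z1 + (A * B - D ^ 2) * z2
    exact hi ((mul_eq_zero.1 (key i)).resolve_right hdet)
  obtain ⟨t, ht⟩ := PP.par al m hal0
    (by rw [m0, m1, l0, l1]; linear_combination b 2 * haa - a 2 * hab)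
    (by rw [m0, m2, l0, l2]; linear_combination -b 1 * haa + a 1 * hab)
    (by rw [m1, m2, l1, l2]; linear_combination b 0 * haa - a 0 * hab)
  have h0 := ht 0
  have h1 := ht 1
  have h2 := ht 2
  rw [m0, l0] at h0
  rw [m1, l1] at h1
  rw [m2, l2] at h2
  refine ⟨t, ?_, ?_⟩
  · have key : ∀ i, a i * (t ^ 2 * (A * B * C + 2 * D * E * G - A * G ^ 2 - B * E ^ 2 -
        C * D ^ 2)) = a i * -(A * (b 0 * b 0) + B * (b 1 * b 1) + C * (b 2 * b 2) +
        D * (b 0 * b 1 + b 1 * b 0) + E * (b 0 * b 2 + b 2 * b 0) +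
        G * (b 1 * b 2 + b 2 * b 1)) := by
      intro i
      fin_cases i <;> simp only [Fin.zero_eta, Fin.mk_one, Fin.reduceFinMk]
      · linear_combination b 0 * hab - (D * b 0 + B * b 1 + G * b 2) * h2 +
          (E * b 0 + G * b 1 + C * b 2) * h1 - t * ((B * C - G ^ 2) * h0 +
          (E * G - C * D) * h1 + (D * G - B * E) * h2)
      · linear_combination b 1 * hab - (E * b 0 + G * b 1 + C * b 2) * h0 +
          (A * b 0 + D * b 1 + E * b 2) * h2 - t * ((E * G - C * D) * h0 +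
          (A * C - E ^ 2) * h1 + (D * E - A * G) * h2)
      · linear_combination b 2 * hab - (A * b 0 + D * b 1 + E * b 2) * h1 +
          (D * b 0 + B * b 1 + G * b 2) * h0 - t * ((D * G - B * E) * h0 +
          (D * E - A * G) * h1 + (A * B - D ^ 2) * h2)
    exact mul_left_cancel₀ hi (key i)
  · intro ht0
    rw [ht0, zero_mul] at h0 h1 h2
    exact PP.par a b ha (by linear_combination -h2) (by linear_combination h1)
      (by linear_combination -h0)

end field

/-- if `b` is orthogonal to the isotropic vector `a` then `-bl b b` is a square -/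
lemma lemQ {r p : ℕ} [Fact p.Prime] (hr : r = 3 ∨ r = 5) (h2 : p ≠ 2) (h3 : p ≠ 3) (h5 : p ≠ 5)
    (a b : Fin 3 → ZMod p) (ha : a ≠ 0) (haa : bl r a a = 0) (hab : bl r a b = 0) :
    ∃ t : ZMod p, t ^ 2 = -(bl r b b) ∧ (t = 0 → ∃ s, ∀ i, b i = s * a i) := by
  have hp : p.Prime := Fact.out
  have n2 : (2 : ZMod p) ≠ 0 := by
    intro h
    have : ((2 : ℕ) : ZMod p) = 0 := by exact_mod_cast h
    rw [ZMod.natCast_eq_zero_iff] at this
    exact h2 ((Nat.prime_dvd_prime_iff_eq hp Nat.prime_two).1 this)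
  have n3 : (3 : ZMod p) ≠ 0 := by
    intro h
    have : ((3 : ℕ) : ZMod p) = 0 := by exact_mod_cast h
    rw [ZMod.natCast_eq_zero_iff] at this
    exact h3 ((Nat.prime_dvd_prime_iff_eq hp Nat.prime_three).1 this)
  have n5 : (5 : ZMod p) ≠ 0 := by
    intro h
    have : ((5 : ℕ) : ZMod p) = 0 := by exact_mod_cast h
    rw [ZMod.natCast_eq_zero_iff] at this
    exact h5 ((Nat.prime_dvd_prime_iff_eq hp Nat.prime_five).1 this)
  rcases hr with rfl | rfl
  · rw [bl3] at haa hab ⊢
    have hd : (3 : ZMod p) * 4 * 4 + 2 * 0 * 0 * 2 - 3 * 2 ^ 2 - 4 * 0 ^ 2 - 4 * 0 ^ 2 =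
      (2 * 3) ^ 2 := by ring
    obtain ⟨t, ht, ht0⟩ := gen_id (3 : ZMod p) 4 4 0 0 2 a b ha (by
      rw [hd]; exact pow_ne_zero 2 (mul_ne_zero n2 n3)) (by linear_combination haa)
      (by linear_combination hab)
    refine ⟨t * (2 * 3), ?_, fun h => ht0 ?_⟩
    · rw [hd] at ht
      linear_combination ht
    · exact (mul_eq_zero.1 h).resolve_right (mul_ne_zero n2 n3)
  · rw [bl5] at haa hab ⊢
    have hd : (3 : ZMod p) * 7 * 7 + 2 * (-1) * 1 * 3 - 3 * 3 ^ 2 - 7 * 1 ^ 2 - 7 * (-1) ^ 2 =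
      (2 * 5) ^ 2 := by ring
    obtain ⟨t, ht, ht0⟩ := gen_id (3 : ZMod p) 7 7 (-1) 1 3 a b ha (by
      rw [hd]; exact pow_ne_zero 2 (mul_ne_zero n2 n5)) (by linear_combination haa)
      (by linear_combination hab)
    refine ⟨t * (2 * 5), ?_, fun h => ht0 ?_⟩
    · rw [hd] at ht
      linear_combination ht
    · exact (mul_eq_zero.1 h).resolve_right (mul_ne_zero n2 n5)

/-- orthogonal isotropic vectors are proportional -/
lemma prop_iso {r p : ℕ} [Fact p.Prime] (hr : r = 3 ∨ r = 5) (h2 : p ≠ 2) (h3 : p ≠ 3)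
    (h5 : p ≠ 5) (a b : Fin 3 → ZMod p) (ha : a ≠ 0) (haa : bl r a a = 0) (hbb : bl r b b = 0)
    (hab : bl r a b = 0) : ∃ t, ∀ i, b i = t * a i := by
  obtain ⟨t, ht, ht0⟩ := lemQ hr h2 h3 h5 a b ha haa hab
  rw [hbb, neg_zero] at ht
  exact ht0 ((pow_eq_zero_iff two_ne_zero).1 ht)

/-! ### the local computation -/

/-- the character of a nonzero multiple -/
lemma f_mult {r p : ℕ} [NeZero p] {f : (Fin 3 → ZMod p) → ℤ} (hf : XV.IsPhi r p f) {v w : V3}
    {L : ℤ} (hL : ¬ (p : ℤ) ∣ L) (h : ∀ i, (p : ℤ) ∣ w i - L * v i) :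
    f (rd p w) = jacobiSym L p * f (rd p v) := by
  have h1 : rd p w = (L : ZMod p) • rd p v := by
    funext i
    have h2 := (ZMod.intCast_zmod_eq_zero_iff_dvd _ p).2 (h i)
    push_cast at h2
    simp only [rd, Pi.smul_apply, smul_eq_mul]
    linear_combination h2
  have h0 : (L : ZMod p) ≠ 0 := fun h2 => hL ((ZMod.intCast_zmod_eq_zero_iff_dvd _ p).1 h2)
  rw [h1, hf.smul _ _ h0, PP.lz_int]

lemma loc_main {r p : ℕ} (hr : r = 3 ∨ r = 5) (hp : p.Prime) (h2 : p ≠ 2) (h3 : p ≠ 3)
    (h5 : p ≠ 5) {f : (Fin 3 → ZMod p) → ℤ} (hf : XV.IsPhi r p f)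
    {v w u : V3} {c q n : ℤ} (hv : bl r v v = n) (hw : bl r w w = n)
    (hu : ∀ i, v i + w i = c * u i)
    (hq : bl r u u = q) (hc : c ≠ 0) (hpn : (p : ℤ) ∣ n) (hpn2 : ¬ (p : ℤ) ^ 2 ∣ n)
    (hu0 : ∃ i, ¬ (p : ℤ) ∣ u i) :
    (¬ (p : ℤ) ∣ q → f (rd p v) * f (rd p w) = jacobiSym q p) ∧
    ((p : ℤ) ∣ q → ¬ (p : ℤ) ^ 2 ∣ q ∧
      f (rd p v) * f (rd p w) = jacobiSym (q / p * (n / p)) p) := by
  have : NeZero p := ⟨hp.ne_zero⟩
  have : Fact p.Prime := ⟨hp⟩
  have hpi : Prime (p : ℤ) := Nat.prime_iff_prime_int.1 hp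
  have hp0 : (p : ℤ) ≠ 0 := hpi.ne_zero
  have hp2 : ¬ (p : ℤ) ∣ 2 := by
    intro h
    have h3 : p ∣ 2 := by exact_mod_cast h
    exact h2 ((Nat.prime_dvd_prime_iff_eq hp Nat.prime_two).1 h3)
  have hp1 : ¬ (p : ℤ) ∣ -1 := by
    intro h
    rw [dvd_neg] at h
    exact hpi.not_dvd_one h
  -- integral identities
  have hwi : ∀ i, w i = c * u i + (-1) * v i := fun i => by linear_combination hu i
  set vu : ℤ := bl r v u with hvu
  have e1 : 2 * vu = c * q := by
    have h3 : c * (2 * vu) = c * (c * q) := by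
      have h4 := bl_lin r hwi
      rw [hw, hq, hv, bl_symm r u v, ← hvu] at h4
      linear_combination h4
    exact mul_left_cancel₀ hc h3
  set vw : ℤ := bl r v w with hvw
  have e2 : 2 * n + 2 * vw = c ^ 2 * q := by
    have h4 := bl_right r (v := v) hwi
    rw [← hvw, ← hvu, hv] at h4
    rw [h4]
    linear_combination c * e1
  -- reductions
  have hz : ∀ x : ℤ, ((x : ℤ) : ZMod p) = 0 ↔ (p : ℤ) ∣ x :=
    fun x => ZMod.intCast_zmod_eq_zero_iff_dvd x p
  have rv : bl r (rd p v) (rd p v) = 0 := by rw [rd_bl, hv, hz]; exact hpn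
  have rw' : bl r (rd p w) (rd p w) = 0 := by rw [rd_bl, hw, hz]; exact hpn
  have rne : ∀ x : V3, bl r x x = n → rd p x ≠ 0 := by
    intro x hx h0
    apply hpn2
    have h3 : ∀ i, (p : ℤ) ∣ x i := fun i => (hz _).1 (congrFun h0 i)
    choose y hy using h3
    have h4 := bl_lin r (x := y) (y := y) (s := (p : ℤ)) (t := 0) (z := x)
      (fun i => by rw [hy i]; ring)
    rw [hx] at h4
    exact ⟨bl r y y, by rw [h4]; ring⟩
  have hvne := rne v hv
  have hwne := rne w hw
  have rune : rd p u ≠ 0 := by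
    intro h0
    obtain ⟨i, hi⟩ := hu0
    exact hi ((hz _).1 (congrFun h0 i))
  have hfv : f (rd p v) * f (rd p v) = 1 := by
    rcases hf.pm _ rv hvne with h | h <;> rw [h] <;> norm_num
  -- the case of an opposite vector
  have hopp : (p : ℤ) ∣ c → f (rd p v) * f (rd p w) = jacobiSym (-1) p := by
    intro h
    have h3 : ∀ i, (p : ℤ) ∣ w i - (-1) * v i := by
      intro i
      have h4 : w i - (-1) * v i = c * u i := by linear_combination hu i
      rw [h4]
      exact Dvd.dvd.mul_right h _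
    rw [f_mult hf hp1 h3]
    linear_combination jacobiSym (-1) p * hfv
  constructor
  · intro hpq
    by_cases hpc : (p : ℤ) ∣ c
    · rw [hopp hpc]
      have h3' : bl r (rd p v) (rd p u) = 0 := by
        rw [rd_bl, hz]
        have h4 : (p : ℤ) ∣ 2 * vu := by rw [e1]; exact Dvd.dvd.mul_right hpc _
        exact (hpi.dvd_or_dvd h4).resolve_left hp2
      obtain ⟨t, ht, -⟩ := lemQ hr h2 h3 h5 _ _ hvne rv h3'
      rw [rd_bl, hq] at ht
      have h5 : ¬ (p : ℤ) ∣ -q := by rwa [dvd_neg]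
      have h6 := PP.jac_of_sq hp h5 (t := t) (by push_cast; exact ht)
      have h7 : jacobiSym (-q) p = jacobiSym (-1) p * jacobiSym q p := by
        rw [← jacobiSym.mul_left]
        congr 1
        ring
      rw [h7] at h6
      rcases PP.jac_pm hp hp1 with h | h <;> rcases PP.jac_pm hp hpq with h' | h' <;>
        rw [h, h'] at h6 ⊢ <;> norm_num at h6
    · have h3 : ¬ (p : ℤ) ∣ vw := by
        intro h4
        have h5 : (p : ℤ) ∣ c ^ 2 * q := by
          rw [← e2]
          exact dvd_add (Dvd.dvd.mul_left hpn _) (Dvd.dvd.mul_left h4 _)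
        rcases hpi.dvd_or_dvd h5 with h6 | h6
        · exact hpc (hpi.dvd_of_dvd_pow h6)
        · exact hpq h6
      have h4 : bl r (rd p v) (rd p w) ≠ 0 := by
        rw [rd_bl, Ne, hz]
        exact h3
      rw [hf.mul _ _ rv rw' h4, rd_bl, ← hvw]
      have h5 : (2 * ((vw : ℤ) : ZMod p)) = ((2 * vw : ℤ) : ZMod p) := by push_cast; ring
      rw [h5, PP.lz_int]
      have h6 : (p : ℤ) ∣ 2 * vw - c ^ 2 * q := by
        have : 2 * vw - c ^ 2 * q = -(2 * n) := by linear_combination e2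
        rw [this, dvd_neg]
        exact Dvd.dvd.mul_left hpn _
      rw [PP.jac_congr h6, jacobiSym.mul_left, PP.jac_sq hp hpc, one_mul]
  · rintro ⟨q', hq2⟩
    obtain ⟨n', hn2⟩ := hpn
    have hn' : ¬ (p : ℤ) ∣ n' := by
      rintro ⟨a, ha⟩
      exact hpn2 ⟨a, by rw [hn2, ha]; ring⟩
    have eq1 : q / p = q' := by rw [hq2, Int.mul_ediv_cancel_left _ hp0]
    have en1 : n / p = n' := by rw [hn2, Int.mul_ediv_cancel_left _ hp0]
    rw [eq1, en1]
    -- it is enough to find a relation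
    suffices H : ∃ A B : ℤ, ¬ (p : ℤ) ∣ A ∧ ¬ (p : ℤ) ∣ B ∧
        (∃ C : ℤ, ¬ (p : ℤ) ∣ C ∧ (p : ℤ) ∣ A * C ^ 2 * q' - n' * B ^ 2) ∧
        f (rd p v) * f (rd p w) = jacobiSym A p by
      obtain ⟨A, B, hA, hB, ⟨C, hC, hrel⟩, hff⟩ := H
      have hr2 : ¬ (p : ℤ) ∣ n' * B ^ 2 := by
        intro h
        rcases hpi.dvd_or_dvd h with h | h
        · exact hn' h
        · exact hB (hpi.dvd_of_dvd_pow h)
      have hq3 : ¬ (p : ℤ) ∣ q' := by
        intro h
        apply hr2
        have h3 : n' * B ^ 2 = A * C ^ 2 * q' - (A * C ^ 2 * q' - n' * B ^ 2) := by ring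
        rw [h3]
        exact dvd_sub (Dvd.dvd.mul_left h _) hrel
      refine ⟨?_, ?_⟩
      · rintro ⟨a, ha⟩
        apply hq3
        refine ⟨a, ?_⟩
        have : (p : ℤ) * q' = p * (p * a) := by rw [← hq2, ha]; ring
        exact mul_left_cancel₀ hp0 this
      · rw [hff]
        have h3 := PP.jac_congr hrel
        rw [jacobiSym.mul_left, jacobiSym.mul_left, jacobiSym.mul_left, PP.jac_sq hp hC,
          PP.jac_sq hp hB, mul_one, mul_one] at h3
        rw [jacobiSym.mul_left]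
        rcases PP.jac_pm hp hA with h | h <;> rcases PP.jac_pm hp hq3 with h' | h' <;>
          rcases PP.jac_pm hp hn' with h'' | h'' <;> rw [h, h', h''] at h3 <;> rw [h, h', h''] <;>
          omega
    by_cases hpc : (p : ℤ) ∣ c
    · obtain ⟨c', hc'⟩ := hpc
      have hru : bl r (rd p u) (rd p u) = 0 := by
        rw [rd_bl, hq, hz]
        exact ⟨q', hq2⟩
      have h3' : bl r (rd p v) (rd p u) = 0 := by
        rw [rd_bl, hz]
        have h4 : (p : ℤ) ∣ 2 * vu := by
          rw [e1, hc', mul_assoc]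
          exact Dvd.intro _ rfl
        exact (hpi.dvd_or_dvd h4).resolve_left hp2
      obtain ⟨t, ht⟩ := prop_iso hr h2 h3 h5 _ _ hvne rv hru h3'
      set M : ℤ := (t.val : ℤ) with hM
      have hMt : ((M : ℤ) : ZMod p) = t := PP.lift_z t
      have hM0 : ¬ (p : ℤ) ∣ M := by
        intro h4
        apply rune
        funext i
        rw [ht i, ← hMt, (hz M).2 h4, zero_mul]
        rfl
      have hy : ∀ i, (p : ℤ) ∣ u i - M * v i := by
        intro i
        rw [← hz]
        push_cast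
        have := ht i
        simp only [rd] at this
        rw [this, hMt]
        ring
      choose y hy using hy
      refine ⟨-1, M, hp1, hM0, ⟨1, by rw [Int.natCast_dvd]; simpa using hp.one_lt.ne', ?_⟩,
        hopp ⟨c', hc'⟩⟩
      have huy : ∀ i, u i = M * v i + (p : ℤ) * y i := fun i => by linear_combination hy i
      -- `q' = - M² n' + p (...)`
      have e4 : 2 * (-1 * 1 ^ 2 * q' - n' * M ^ 2) * p =
          p * (-2 * M * c' * q' * p - 2 * p * bl r y y) := by
        have k1 := bl_lin r huy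
        rw [hq, hv] at k1
        have k2 := bl_right r (v := v) huy
        rw [← hvu, hv] at k2
        have k3 : q = -M ^ 2 * n + 2 * M * vu + p ^ 2 * bl r y y := by
          rw [k1, k2]
          ring
        have k4 : 2 * M * vu = M * (p * c') * (p * q') := by
          rw [← hc', ← hq2]
          linear_combination M * e1
        rw [k4] at k3
        rw [hn2] at k3
        rw [hq2] at k3
        linear_combination -2 * k3
      have e5 : 2 * (-1 * 1 ^ 2 * q' - n' * M ^ 2) =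
          p * (-2 * M * c' * q' - 2 * bl r y y) := by
        apply mul_right_cancel₀ hp0
        linear_combination e4
      have e6 : (p : ℤ) ∣ 2 * (-1 * 1 ^ 2 * q' - n' * M ^ 2) := ⟨_, e5⟩
      exact (hpi.dvd_or_dvd e6).resolve_left hp2
    · have h3' : bl r (rd p v) (rd p w) = 0 := by
        rw [rd_bl, ← hvw, hz]
        have h4 : (p : ℤ) ∣ 2 * vw := by
          have : 2 * vw = c ^ 2 * q - 2 * n := by linear_combination e2
          rw [this, hq2, hn2]
          exact ⟨c ^ 2 * q' - 2 * n', by ring⟩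
        exact (hpi.dvd_or_dvd h4).resolve_left hp2
      obtain ⟨t, ht⟩ := prop_iso hr h2 h3 h5 _ _ hvne rv rw' h3'
      set L : ℤ := (t.val : ℤ) with hL
      have hLt : ((L : ℤ) : ZMod p) = t := PP.lift_z t
      have hL0 : ¬ (p : ℤ) ∣ L := by
        intro h4
        apply hwne
        funext i
        rw [ht i, ← hLt, (hz L).2 h4, zero_mul]
        rfl
      have hy : ∀ i, (p : ℤ) ∣ w i - L * v i := by
        intro i
        rw [← hz]
        push_cast
        have := ht i
        simp only [rd] at this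
        rw [this, hLt]
        ring
      have hL1 : ¬ (p : ℤ) ∣ L + 1 := by
        intro h4
        apply rune
        have h5 : ((c : ℤ) : ZMod p) ≠ 0 := by rw [Ne, hz]; exact hpc
        funext i
        apply mul_left_cancel₀ h5
        have h6 : ((c : ℤ) : ZMod p) * rd p u i = ((v i + w i : ℤ) : ZMod p) := by
          rw [hu i]
          push_cast
          rfl
        rw [h6, Pi.zero_apply, mul_zero, hz]
        have h7 : v i + w i = (L + 1) * v i + (w i - L * v i) := by ring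
        rw [h7]
        exact dvd_add (Dvd.dvd.mul_right h4 _) (hy i)
      have hff : f (rd p v) * f (rd p w) = jacobiSym L p := by
        rw [f_mult hf hL0 hy]
        linear_combination jacobiSym L p * hfv
      choose z hzz using hy
      refine ⟨L, L + 1, hL0, hL1, ⟨c, hpc, ?_⟩, hff⟩
      have hwz : ∀ i, w i = L * v i + (p : ℤ) * z i := fun i => by linear_combination hzz i
      have k1 := bl_right r (v := v) hwz
      rw [← hvw, hv] at k1
      have k2 := bl_lin r hwz
      rw [hw, hv] at k2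
      have k3 : L * (c ^ 2 * q) = n * (L + 1) ^ 2 - p ^ 2 * bl r z z := by
        rw [← e2, k1]
        linear_combination -k2
      rw [hq2] at k3
      rw [hn2] at k3
      have k4 : L * c ^ 2 * q' - n' * (L + 1) ^ 2 = p * (-bl r z z) := by
        apply mul_left_cancel₀ hp0
        linear_combination k3
      exact ⟨_, k4⟩

/-! ### the product formula -/

lemma jprod (s : Finset ℕ) (f : ℕ → ℕ) (m : ℕ) :
    jacobiSym ((∏ l ∈ s, f l : ℕ) : ℤ) m = ∏ l ∈ s, jacobiSym (f l : ℤ) m := by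
  classical
  induction s using Finset.induction_on with
  | empty => simp
  | insert a s ha ih =>
    rw [Finset.prod_insert ha, Finset.prod_insert ha, Nat.cast_mul, jacobiSym.mul_left, ih]

/-- the product of the weights of all the primes -/
lemma wprod (N : Finset ℕ) (hN : ∀ p ∈ N, p.Prime ∧ p ≠ 2) (h4 : pr N % 4 = 3) (T : ℕ)
    (hT : T < pr N) :
    ∏ p ∈ N, wp p (pr N) T = ∏ l ∈ (pr N - T).primeFactors.filter (· ∉ N),
      jacobiSym (l : ℤ) (pr N) ^ (pr N - T).factorization l := by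
  classical
  set S := pr N - T with hS
  have hS0 : S ≠ 0 := (Nat.sub_pos_of_lt hT).ne'
  set S2 := ∏ l ∈ S.primeFactors.filter (· ∉ N), l ^ S.factorization l with hS2
  set A := N.filter fun p => Odd (S.factorization p) with hA
  set B := N.filter fun p => ¬ Odd (S.factorization p) with hB
  set R := ∏ p ∈ N, p ^ (S.factorization p / 2) with hR
  have mA : ∀ p ∈ A, p ∈ N ∧ Odd (S.factorization p) := fun p hp => Finset.mem_filter.1 hp
  have mB : ∀ p ∈ B, p ∈ N ∧ ¬ Odd (S.factorization p) := fun p hp => Finset.mem_filter.1 hp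
  have hNAB : pr N = pr A * pr B := by
    unfold Pool.Agent.Z700.pr
    exact (Finset.prod_filter_mul_prod_filter_not N _ (fun p => p)).symm
  have hodd : Odd (pr N) := by
    rw [Nat.odd_iff]
    omega
  have hoddA : Odd (pr A) := (Nat.odd_mul.1 (hNAB ▸ hodd)).1
  have hoddB : Odd (pr B) := (Nat.odd_mul.1 (hNAB ▸ hodd)).2
  -- the decomposition
  have hdec : S = pr A * R ^ 2 * S2 := by
    have e1 : S = (∏ p ∈ N, p ^ S.factorization p) * S2 := by
      have e2 : ∏ l ∈ S.primeFactors.filter (· ∈ N), l ^ S.factorization l =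
          ∏ p ∈ N, p ^ S.factorization p := by
        refine Finset.prod_subset (fun x hx => (Finset.mem_filter.1 hx).2) fun x hx hx' => ?_
        have : S.factorization x = 0 := by
          by_contra hcon
          apply hx'
          refine Finset.mem_filter.2 ⟨?_, hx⟩
          rw [← Nat.support_factorization]
          exact Finsupp.mem_support_iff.2 hcon
        rw [this, pow_zero]
      rw [← e2, hS2, Finset.prod_filter_mul_prod_filter_not]
      conv_lhs => rw [← Nat.prod_factorization_pow_eq_self hS0]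
      rfl
    have e3 : ∏ p ∈ N, p ^ S.factorization p = pr A * R ^ 2 := by
      have e4 : pr A = ∏ p ∈ N, if Odd (S.factorization p) then p else 1 := by
        unfold Pool.Agent.Z700.pr
        rw [hA, Finset.prod_filter]
      rw [e4, hR, ← Finset.prod_pow, ← Finset.prod_mul_distrib]
      refine Finset.prod_congr rfl fun p _ => ?_
      by_cases ho : Odd (S.factorization p)
      · rw [if_pos ho, ← pow_mul, ← pow_succ']
        congr 1
        obtain ⟨k, hk⟩ := ho
        omega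
      · rw [if_neg ho, one_mul, ← pow_mul]
        congr 1
        rw [Nat.not_odd_iff_even] at ho
        obtain ⟨k, hk⟩ := ho
        omega
    rw [← e3]
    exact e1
  -- the local computations
  have hRdec : ∀ p ∈ N, ∃ R', R = p ^ (S.factorization p / 2) * R' ∧ ¬ p ∣ R' := by
    intro p hp
    refine ⟨∏ x ∈ N.erase p, x ^ (S.factorization x / 2), ?_, ?_⟩
    · rw [hR]
      exact (Finset.mul_prod_erase N (fun x => x ^ (S.factorization x / 2)) hp).symm
    · intro h
      obtain ⟨x, hx, hpx⟩ := (hN p hp).1.prime.exists_mem_finset_dvd h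
      have hx' := Finset.mem_of_mem_erase hx
      have h1 := (Nat.prime_dvd_prime_iff_eq (hN p hp).1 (hN x hx').1).1
        ((hN p hp).1.dvd_of_dvd_pow hpx)
      exact (Finset.ne_of_mem_erase hx) h1.symm
  have hS2p : ∀ p ∈ N, ¬ p ∣ S2 := by
    intro p hp h
    obtain ⟨x, hx, hpx⟩ := (hN p hp).1.prime.exists_mem_finset_dvd h
    obtain ⟨hx1, hx2⟩ := Finset.mem_filter.1 hx
    have h1 := (Nat.prime_dvd_prime_iff_eq (hN p hp).1 (Nat.prime_of_mem_primeFactors hx1)).1
      ((hN p hp).1.dvd_of_dvd_pow hpx)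
    exact hx2 (h1 ▸ hp)
  have hndvd : ∀ {p m : ℕ}, ¬ p ∣ m → ¬ (p : ℤ) ∣ (m : ℤ) := fun h h' => h (by exact_mod_cast h')
  have hwB : ∀ p ∈ B, wp p (pr N) T = jacobiSym ((pr A * S2 : ℕ) : ℤ) p := by
    intro p hp
    obtain ⟨hpN, hev⟩ := mB p hp
    have hpp := (hN p hpN).1
    obtain ⟨R', hR', hpR'⟩ := hRdec p hpN
    have hev' := Nat.not_odd_iff_even.1 hev
    obtain ⟨k, hk⟩ := hev'
    have hk2 : S.factorization p / 2 = k := by omega
    rw [hk2] at hR'
    unfold wp
    rw [← hS, if_pos (Nat.not_odd_iff_even.1 hev)]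
    have h1 : S / p ^ S.factorization p = R' ^ 2 * (pr A * S2) := by
      apply Nat.div_eq_of_eq_mul_right (pow_pos hpp.pos _)
      rw [hk]
      conv_lhs => rw [hdec, hR']
      ring
    rw [h1, Nat.cast_mul, Nat.cast_pow, jacobiSym.mul_left, PP.jac_sq hpp (hndvd hpR'), one_mul]
  have hwA : ∀ p ∈ A, wp p (pr N) T = jacobiSym ((S2 * pr B : ℕ) : ℤ) p := by
    intro p hp
    obtain ⟨hpN, hod⟩ := mA p hp
    have hpp := (hN p hpN).1
    obtain ⟨R', hR', hpR'⟩ := hRdec p hpN
    obtain ⟨k, hk⟩ := hod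
    have hk2 : S.factorization p / 2 = k := by omega
    rw [hk2] at hR'
    have hpA : pr A = p * ∏ x ∈ A.erase p, x := by
      unfold Pool.Agent.Z700.pr
      exact (Finset.mul_prod_erase A (fun x => x) hp).symm
    set A' := ∏ x ∈ A.erase p, x with hA'
    have hpA' : ¬ p ∣ A' := by
      intro h
      obtain ⟨x, hx, hpx⟩ := hpp.prime.exists_mem_finset_dvd h
      have hx' := Finset.mem_of_mem_erase hx
      have h1 := (Nat.prime_dvd_prime_iff_eq hpp (hN x (mA x hx').1).1).1 hpx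
      exact (Finset.ne_of_mem_erase hx) h1.symm
    unfold wp
    rw [← hS, if_neg (Nat.not_even_iff_odd.2 ⟨k, hk⟩)]
    have h1 : S / p ^ S.factorization p = R' ^ 2 * (A' * S2) := by
      apply Nat.div_eq_of_eq_mul_right (pow_pos hpp.pos _)
      rw [hk]
      conv_lhs => rw [hdec, hR', hpA]
      ring
    have h2 : pr N / p = A' * pr B := by
      apply Nat.div_eq_of_eq_mul_right hpp.pos
      rw [hNAB, hpA]
      ring
    rw [h1, h2]
    have h3 : ((R' ^ 2 * (A' * S2) * (A' * pr B) : ℕ) : ℤ) =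
        (R' : ℤ) ^ 2 * ((A' : ℤ) ^ 2 * ((S2 * pr B : ℕ) : ℤ)) := by
      push_cast
      ring
    rw [h3, jacobiSym.mul_left, jacobiSym.mul_left, PP.jac_sq hpp (hndvd hpR'),
      PP.jac_sq hpp (hndvd hpA'), one_mul, one_mul]
  have hAne : ∀ p ∈ A, p ≠ 0 := fun p hp => (hN p (mA p hp).1).1.ne_zero
  have hBne : ∀ p ∈ B, p ≠ 0 := fun p hp => (hN p (mB p hp).1).1.ne_zero
  have : NeZero (pr A) := ⟨fun h => by rw [h] at hoddA; exact absurd hoddA (by decide)⟩
  have : NeZero (pr B) := ⟨fun h => by rw [h] at hoddB; exact absurd hoddB (by decide)⟩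
  have hcop : Nat.Coprime (pr A) (pr B) := by
    unfold Pool.Agent.Z700.pr
    refine Nat.Coprime.prod_left fun x hx => Nat.Coprime.prod_right fun y hy => ?_
    refine (Nat.coprime_primes (hN x (mA x hx).1).1 (hN y (mB y hy).1).1).2 ?_
    rintro rfl
    exact (mB x hy).2 (mA x hx).2
  have hrec := PP.recip hoddA hoddB hcop
  have hmod : pr N % 4 = (pr A % 4) * (pr B % 4) % 4 := by rw [hNAB, Nat.mul_mod]
  have hr1 : jacobiSym (pr A) (pr B) * jacobiSym (pr B) (pr A) = 1 := by
    rw [hrec, if_neg]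
    rintro ⟨a, b⟩
    rw [a, b] at hmod
    omega
  have hJ : jacobiSym (S2 : ℤ) (pr N) = ∏ l ∈ S.primeFactors.filter (· ∉ N),
      jacobiSym (l : ℤ) (pr N) ^ S.factorization l := by
    rw [hS2, jprod]
    refine Finset.prod_congr rfl fun l _ => ?_
    rw [Nat.cast_pow, jacobiSym.pow_left]
  rw [← hJ, ← Finset.prod_filter_mul_prod_filter_not N (fun p => Odd (S.factorization p)),
    ← hA, ← hB, Finset.prod_congr rfl hwA, Finset.prod_congr rfl hwB,
    ← PP.jac_prod _ _ hAne, ← PP.jac_prod _ _ hBne, hNAB, jacobiSym.mul_right, Nat.cast_mul,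
    Nat.cast_mul, jacobiSym.mul_left, jacobiSym.mul_left]
  linear_combination (jacobiSym (S2 : ℤ) (pr A) * jacobiSym (S2 : ℤ) (pr B)) * hr1

/-- the symbols away from the prime `r` are trivial -/
lemma wmain (r : ℕ) (hr : r.Prime) (N : Finset ℕ) (hN : ∀ p ∈ N, p.Prime ∧ p ≠ 2) (hrN : r ∉ N)
    (h4 : pr N % 4 = 3) (hJ : jacobiSym (r : ℤ) (pr N) = -1) (T : ℕ) (hT0 : 0 < T)
    (hT : T < pr N)
    (hf : ∏ l ∈ (T * (pr N - T)).primeFactors.erase r, fc (pr N) (T * (pr N - T)) l ≠ 0) :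
    ∏ p ∈ N, wp p (pr N) T = (-1) ^ (pr N - T).factorization r := by
  classical
  have hS0 : pr N - T ≠ 0 := (Nat.sub_pos_of_lt hT).ne'
  have hmemN : ∀ l : ℕ, l.Prime → (l ∣ pr N ↔ l ∈ N) := by
    intro l hl
    constructor
    · intro h
      unfold Pool.Agent.Z700.pr at h
      obtain ⟨x, hx, hlx⟩ := hl.prime.exists_mem_finset_dvd h
      exact ((Nat.prime_dvd_prime_iff_eq hl (hN x hx).1).1 hlx) ▸ hx
    · intro h
      exact Finset.dvd_prod_of_mem (fun p => p) h
  rw [wprod N hN h4 T hT]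
  have key : ∀ l ∈ (pr N - T).primeFactors.filter (· ∉ N), l ≠ r →
      jacobiSym (l : ℤ) (pr N) ^ (pr N - T).factorization l = 1 := by
    intro l hl hlr
    obtain ⟨hl1, hl2⟩ := Finset.mem_filter.1 hl
    have hlp := Nat.prime_of_mem_primeFactors hl1
    have hlS := Nat.dvd_of_mem_primeFactors hl1
    have hlN : ¬ l ∣ pr N := fun h => hl2 ((hmemN l hlp).1 h)
    have hlT : ¬ l ∣ T := by
      intro h
      apply hlN
      have h1 := dvd_add hlS h
      rwa [Nat.sub_add_cancel hT.le] at h1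
    have h1 := Finset.prod_ne_zero_iff.1 hf l (Finset.mem_erase.2 ⟨hlr, by
      rw [Nat.mem_primeFactors]
      exact ⟨hlp, Dvd.dvd.mul_left hlS _, mul_ne_zero hT0.ne' hS0⟩⟩)
    unfold fc at h1
    rw [if_neg hlN, Nat.factorization_mul hT0.ne' hS0, Finsupp.add_apply,
      Nat.factorization_eq_zero_of_not_dvd hlT, zero_add] at h1
    rcases jacobiSym.trichotomy (l : ℤ) (pr N) with h | h | h
    · exfalso
      have h2 : (l : ℤ).gcd (pr N : ℤ) = 1 := by
        rw [Int.gcd_natCast_natCast]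
        exact (Nat.Prime.coprime_iff_not_dvd hlp).2 hlN
      have h3 := jacobiSym.eq_one_or_neg_one h2
      rcases h3 with h3 | h3 <;> rw [h] at h3 <;> norm_num at h3
    · rw [h, one_pow]
    · rw [h] at h1 ⊢
      have h2 : ∀ n : ℕ, Odd n → ∑ j ∈ range (n + 1), (-1 : ℤ) ^ j = 0 := by
        rintro n ⟨k, rfl⟩
        rw [show 2 * k + 1 + 1 = 2 * (k + 1) by ring]
        induction k with
        | zero => simp [Finset.sum_range_succ]
        | succ k ih =>
          rw [show 2 * (k + 1 + 1) = 2 * (k + 1) + 1 + 1 by ring, Finset.sum_range_succ,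
            Finset.sum_range_succ, ih, pow_succ (-1 : ℤ) (2 * (k + 1)), pow_mul]
          norm_num
      have h3 : Even ((pr N - T).factorization l) := by
        rw [← Nat.not_odd_iff_even]
        exact fun h => h1 (h2 _ h)
      exact h3.neg_one_pow
  by_cases hrS : r ∈ (pr N - T).primeFactors.filter (· ∉ N)
  · rw [Finset.prod_eq_single r key (fun h => absurd hrS h), hJ]
  · rw [Finset.prod_eq_one fun l hl => key l hl fun h => hrS (h ▸ hl)]
    have : (pr N - T).factorization r = 0 := by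
      apply Nat.factorization_eq_zero_of_not_dvd
      intro h
      exact hrS (Finset.mem_filter.2 ⟨Nat.mem_primeFactors.2 ⟨hr, h, hS0⟩, hrN⟩)
    rw [this, pow_zero]

lemma fac_zero {r : ℕ} {N T : ℕ} (hN : ¬ r ∣ N) (hT : T ≤ N)
    (ho : Odd (T.factorization r)) : (N - T).factorization r = 0 := by
  apply Nat.factorization_eq_zero_of_not_dvd
  intro h
  apply hN
  have h1 : r ∣ T := by
    by_contra hcon
    rw [Nat.factorization_eq_zero_of_not_dvd hcon] at ho
    exact absurd ho (by decide)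
  have h2 := dvd_add h h1
  rwa [Nat.sub_add_cancel hT] at h2

end Pool.Agent.XV.Wt

namespace Pool.Agent.XV

open Finset
open Pool.Agent.Z700 (V3 pr un hh)
open Pool.Agent.NH1 (lz rd)
open Pool.Agent.NH2 (wp)

/-- **the product of all the weights** -/
theorem t_WPN : S_WPN := by
  intro N hN T hT0 hT
  have hNp : ∀ p ∈ N, p.Prime ∧ p ≠ 2 := fun p hp => ⟨(hN p hp).1, (hN p hp).2.1⟩
  have h3N : 3 ∉ N := fun h => (hN 3 h).2.2.1 rfl
  have h5N : 5 ∉ N := fun h => (hN 5 h).2.2.2 rfl
  constructor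
  · intro hK hf
    have hK' : pr N % 60 = 23 ∨ pr N % 60 = 47 := hK
    have hodd : Odd (pr N) := by rw [Nat.odd_iff]; omega
    have hJ : jacobiSym ((5 : ℕ) : ℤ) (pr N) = -1 := by
      rw [jacobiSym.quadratic_reciprocity_one_mod_four (by norm_num) hodd, jacobiSym.mod_left]
      have : ((pr N : ℕ) : ℤ) % ((5 : ℕ) : ℤ) = 3 ∨ ((pr N : ℕ) : ℤ) % ((5 : ℕ) : ℤ) = 2 := by
        omega
      rcases this with h | h <;> rw [h] <;> decide +kernel
    have hm := Wt.wmain 5 Nat.prime_five N hNp h5N (by omega) hJ T hT0 hT hf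
    refine ⟨fun ho => ?_, fun ho => ?_⟩
    · rw [hm, ho.neg_one_pow]
    · rw [hm, Wt.fac_zero (by omega) hT.le ho, pow_zero]
  · intro hK hf
    have hK' : pr N % 60 = 19 ∨ pr N % 60 = 31 := hK
    have hodd : Odd (pr N) := by rw [Nat.odd_iff]; omega
    have hJ : jacobiSym ((3 : ℕ) : ℤ) (pr N) = -1 := by
      rw [jacobiSym.quadratic_reciprocity_three_mod_four (by norm_num) (by omega),
        jacobiSym.mod_left]
      have : ((pr N : ℕ) : ℤ) % ((3 : ℕ) : ℤ) = 1 := by omega
      rw [this, jacobiSym.one_left]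
    have hm := Wt.wmain 3 Nat.prime_three N hNp h3N (by omega) hJ T hT0 hT hf
    refine ⟨fun ho => ?_, fun ho => ?_⟩
    · rw [hm, ho.neg_one_pow]
    · rw [hm, Wt.fac_zero (by omega) hT.le ho, pow_zero]

/-- **the weights of the pairs of vectors** -/
theorem t_WTV (h1 : S_PHI) : S_WTV := by
  intro r hr N hN P hPN v hv w hw T hT hvw
  have hNp : ∀ p ∈ N, p.Prime ∧ p ≠ 2 := fun p hp => ⟨(hN p hp).1, (hN p hp).2.1⟩
  have hv' : bl r v v = (pr N : ℤ) := (Finset.mem_filter.1 hv).2
  have hw' : bl r w w = (pr N : ℤ) := (Finset.mem_filter.1 hw).2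
  set n := pr N with hn
  set S := n - T with hS
  have hSpos : 0 < S := Nat.sub_pos_of_lt hT
  have hSn : (S : ℤ) = n - T := by
    rw [hS, Nat.cast_sub hT.le]
  have hsum : bl r (fun i => v i + w i) (fun i => v i + w i) = 4 * (S : ℤ) := by
    have h := Wt.bl_lin r (x := v) (y := w) (z := fun i => v i + w i) (s := 1) (t := 1)
      (fun i => by ring)
    rw [h, hv', hw', hvw, hSn]
    ring
  have hx : ∃ i, v i + w i ≠ 0 := by
    by_contra hcon
    push Not at hcon
    have h := Wt.bl_lin r (x := v) (y := w) (z := fun i => v i + w i) (s := 0) (t := 0)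
      (fun i => by rw [hcon i]; ring)
    rw [hsum] at h
    have : (S : ℤ) = 0 := by linarith
    have : S = 0 := by exact_mod_cast this
    omega
  obtain ⟨c, u, hc0, hcu, hprim⟩ := NH1.PP.prim_part (fun i => v i + w i) hx
  have hc0' : (c : ℤ) ≠ 0 := by exact_mod_cast hc0
  have hcpos : (0 : ℤ) < (c : ℤ) ^ 2 := by positivity
  have hcq0 : (c : ℤ) ^ 2 * bl r u u = 4 * S := by
    have h := Wt.bl_lin r (x := u) (y := u) (z := fun i => v i + w i) (s := (c : ℤ)) (t := 0)
      (fun i => by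
        have : v i + w i = c * u i := hcu i
        rw [this]
        ring)
    rw [← hsum, h]
    ring
  have hq0 : 0 ≤ bl r u u := by
    by_contra hcon
    push Not at hcon
    have : (c : ℤ) ^ 2 * bl r u u < 0 := mul_neg_of_pos_of_neg hcpos hcon
    omega
  obtain ⟨q, hq⟩ := Int.eq_ofNat_of_zero_le hq0
  have hcq : c ^ 2 * q = 4 * S := by
    rw [hq] at hcq0
    exact_mod_cast hcq0
  have hq1 : q ≠ 0 := by
    intro h
    rw [h, mul_zero] at hcq
    omega
  unfold Ph
  rw [← Finset.prod_mul_distrib]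
  refine Finset.prod_congr rfl fun p hp => ?_
  obtain ⟨hpp, hp2, hp3, hp5⟩ := hN p (hPN hp)
  have hpr : p ≠ r := by rcases hr with rfl | rfl <;> assumption
  obtain ⟨d1, d2⟩ := NH1.PP.pr_sq hNp (hPN hp)
  have hpi : Prime (p : ℤ) := Nat.prime_iff_prime_int.1 hpp
  have hloc := Wt.loc_main hr hpp hp2 hp3 hp5 (ph_spec h1 hr hpp hp2 hpr) hv' hw' hcu hq hc0'
    d1 d2 (hprim p hpp)
  have hp4 : (4 : ℕ).factorization p = 0 := by
    apply Nat.factorization_eq_zero_of_not_dvd
    intro h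
    have h1 : p ∣ 2 ^ 2 := by simpa using h
    exact hp2 ((Nat.prime_dvd_prime_iff_eq hpp Nat.prime_two).1 (hpp.dvd_of_dvd_pow h1))
  have hfac : S.factorization p = 2 * c.factorization p + q.factorization p := by
    have h1 := congrArg (fun m => Nat.factorization m p) hcq
    rw [Nat.factorization_mul (pow_ne_zero 2 hc0) hq1, Nat.factorization_mul (by norm_num)
      hSpos.ne', Nat.factorization_pow, Finsupp.add_apply, Finsupp.add_apply, hp4, zero_add,
      Finsupp.smul_apply, smul_eq_mul] at h1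
    omega
  obtain ⟨c', hc'⟩ := Nat.ordProj_dvd c p
  set e := c.factorization p with he
  have hpc' : ¬ p ∣ c' := by
    intro h
    have h1 : p ^ (e + 1) ∣ c := by
      rw [hc', pow_succ]
      exact Nat.mul_dvd_mul_left _ h
    exact Nat.pow_succ_factorization_not_dvd hc0 hpp h1
  have hpc'' : ¬ (p : ℤ) ∣ (c' : ℤ) := fun h => hpc' (by exact_mod_cast h)
  have hpow : 0 < p ^ e := pow_pos hpp.pos _
  have hp2' : ¬ (p : ℤ) ∣ (2 : ℤ) := by
    intro h
    have h3 : p ∣ 2 := by exact_mod_cast h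
    exact hp2 ((Nat.prime_dvd_prime_iff_eq hpp Nat.prime_two).1 h3)
  have hj4 : ∀ x : ℤ, jacobiSym (4 * x) p = jacobiSym x p := by
    intro x
    rw [show (4 : ℤ) = 2 ^ 2 by norm_num, jacobiSym.mul_left, NH1.PP.jac_sq hpp hp2', one_mul]
  by_cases hpq : (p : ℤ) ∣ (q : ℤ)
  · obtain ⟨hpq2, hval⟩ := hloc.2 hpq
    rw [hval]
    have hpqN : p ∣ q := by exact_mod_cast hpq
    obtain ⟨q', hq'⟩ := hpqN
    have hpq' : ¬ p ∣ q' := by
      rintro ⟨a, ha⟩
      apply hpq2
      refine ⟨a, ?_⟩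
      rw [hq', ha]
      push_cast
      ring
    have hq'0 : q' ≠ 0 := by
      intro h
      rw [h, mul_zero] at hq'
      exact hq1 hq'
    have hfq : q.factorization p = 1 := by
      rw [hq', Nat.factorization_mul hpp.ne_zero hq'0, Finsupp.add_apply,
        hpp.factorization_self, Nat.factorization_eq_zero_of_not_dvd hpq']
    rw [hfq] at hfac
    have hSval : S = p ^ (2 * e + 1) * (S / p ^ (2 * e + 1)) := by
      have h1 := Nat.ordProj_mul_ordCompl_eq_self S p
      rw [hfac] at h1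
      exact h1.symm
    set S' := S / p ^ (2 * e + 1) with hS'
    have hcq' : c' ^ 2 * q' = 4 * S' := by
      have h1 : p ^ (2 * e + 1) * (c' ^ 2 * q') = p ^ (2 * e + 1) * (4 * S') := by
        calc p ^ (2 * e + 1) * (c' ^ 2 * q') = (p ^ e * c') ^ 2 * (p * q') := by ring
          _ = c ^ 2 * q := by rw [← hc', ← hq']
          _ = 4 * S := hcq
          _ = p ^ (2 * e + 1) * (4 * S') := by rw [hSval]; ring
      exact Nat.eq_of_mul_eq_mul_left (pow_pos hpp.pos _) h1
    have hwp : wp p n T = jacobiSym ((S' * (n / p) : ℕ) : ℤ) p := by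
      unfold wp
      rw [← hS, hfac, if_neg (by rintro ⟨a, ha⟩; omega)]
    rw [hwp]
    have hq1' : ((q : ℤ) / p) = (q' : ℤ) := by
      rw [hq']
      push_cast
      exact Int.mul_ediv_cancel_left _ hpi.ne_zero
    have hn1 : ((n : ℤ) / p) = ((n / p : ℕ) : ℤ) := by push_cast; rfl
    rw [hq1', hn1, Nat.cast_mul, jacobiSym.mul_left, jacobiSym.mul_left]
    congr 1
    have h2 : (4 : ℤ) * (S' : ℤ) = (c' : ℤ) ^ 2 * q' := by exact_mod_cast hcq'.symm
    rw [← hj4 (S' : ℤ), h2, jacobiSym.mul_left, NH1.PP.jac_sq hpp hpc'', one_mul]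
  · have hval := hloc.1 hpq
    rw [hval]
    have hpqN : ¬ p ∣ q := fun h => hpq (by exact_mod_cast h)
    rw [Nat.factorization_eq_zero_of_not_dvd hpqN, add_zero] at hfac
    have hSval : S = p ^ (2 * e) * (S / p ^ (2 * e)) := by
      have h1 := Nat.ordProj_mul_ordCompl_eq_self S p
      rw [hfac] at h1
      exact h1.symm
    set S' := S / p ^ (2 * e) with hS'
    have hcq' : c' ^ 2 * q = 4 * S' := by
      have h1 : p ^ (2 * e) * (c' ^ 2 * q) = p ^ (2 * e) * (4 * S') := by
        calc p ^ (2 * e) * (c' ^ 2 * q) = (p ^ e * c') ^ 2 * q := by ring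
          _ = c ^ 2 * q := by rw [← hc']
          _ = 4 * S := hcq
          _ = p ^ (2 * e) * (4 * S') := by rw [hSval]; ring
      exact Nat.eq_of_mul_eq_mul_left (pow_pos hpp.pos _) h1
    have hwp : wp p n T = jacobiSym (S' : ℤ) p := by
      unfold wp
      rw [← hS, hfac, if_pos (even_two_mul e)]
    rw [hwp]
    have h2 : (4 : ℤ) * (S' : ℤ) = (c' : ℤ) ^ 2 * q := by exact_mod_cast hcq'.symm
    rw [← hj4 (S' : ℤ), h2, jacobiSym.mul_left, NH1.PP.jac_sq hpp hpc'', one_mul]

end Pool.Agent.XV
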